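import Pool.Agent.X278.AV.CgA
import Pool.Agent.Y763.QTPAR

set_option autoImplicit false

/-!
# The congruent number curve `y² = x³ - x`: the `L`-series of its quadratic twists
-/

open Complex Filter Topology Set

namespace Pool.Agent.X278.AV.Cg

open Pool.Agent.H304R2.EC (aE an aE_eq an_inert)
open Pool.Agent.Y19.QT (ap IsLFun sqf mem_sqf)

theorem ap_aE (p : ℕ) (hp : p.Prime) (h2 : p ≠ 2) : ap (-1) 0 p = aE p := by
  rw [Pool.Agent.Y153.QTN1.ap_eq p hp h2, aE_eq p hp h2]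

open Classical in
/-- the inverse of the factor at `3` -/
noncomputable def E3 (d : ℤ) (s : ℂ) : ℂ := if (3 : ℤ) ∣ d then 1 else 1 + (3 : ℂ) ^ (1 - 2 * s)

theorem E3_diff (d : ℤ) : Differentiable ℂ (E3 d) := by
  classical
  unfold E3
  by_cases h : (3 : ℤ) ∣ d
  · simp only [if_pos h]
    exact differentiable_const _
  · simp only [if_neg h]
    intro s
    refine (differentiableAt_const _).add (DifferentiableAt.const_cpow ?_ (Or.inl (by norm_num)))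
    fun_prop

theorem E3_one (d : ℤ) : E3 d 1 ≠ 0 := by
  classical
  unfold E3
  split_ifs with h
  · exact one_ne_zero
  · have e : (1 : ℂ) - 2 * 1 = -1 := by ring
    rw [e, Complex.cpow_neg_one]
    norm_num

theorem dv (p : ℕ) (hp : p.Prime) (d : ℤ) : (p : ℤ) ∣ 2 * (-4 * (-1 * d ^ 2) ^ 3 - 27 * (0 * d ^ 3) ^ 2) ↔
    (p = 2 ∨ (p : ℤ) ∣ d) := by
  have e : 2 * (-4 * (-1 * d ^ 2) ^ 3 - 27 * (0 * d ^ 3) ^ 2) = 2 ^ 3 * d ^ 6 := by ring
  have hpi : Prime (p : ℤ) := Nat.prime_iff_prime_int.1 hp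
  rw [e]
  constructor
  · intro h
    rcases hpi.dvd_or_dvd h with h1 | h1
    · left
      have h2 := hpi.dvd_of_dvd_pow h1
      have h3 : p ∣ 2 := by exact_mod_cast h2
      exact (Nat.prime_dvd_prime_iff_eq hp Nat.prime_two).1 h3
    · right
      exact hpi.dvd_of_dvd_pow h1
  · rintro (rfl | h)
    · exact dvd_mul_of_dvd_left (dvd_pow_self _ (by norm_num)) _
    · exact dvd_mul_of_dvd_right (dvd_pow h (by norm_num)) _

theorem dv6 (p : ℕ) (hp : p.Prime) (d : ℤ) : (p : ℤ) ∣ 6 * (4 * (-1 * d ^ 2) ^ 3 + 27 * (0 * d ^ 3) ^ 2) ↔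
    (p = 2 ∨ p = 3 ∨ (p : ℤ) ∣ d) := by
  have e : 6 * (4 * (-1 * d ^ 2) ^ 3 + 27 * (0 * d ^ 3) ^ 2) = -(2 ^ 3 * (3 * d ^ 6)) := by ring
  have hpi : Prime (p : ℤ) := Nat.prime_iff_prime_int.1 hp
  rw [e, dvd_neg]
  constructor
  · intro h
    rcases hpi.dvd_or_dvd h with h1 | h1
    · left
      have h2 := hpi.dvd_of_dvd_pow h1
      have h3 : p ∣ 2 := by exact_mod_cast h2
      exact (Nat.prime_dvd_prime_iff_eq hp Nat.prime_two).1 h3
    · right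
      rcases hpi.dvd_or_dvd h1 with h2 | h2
      · left
        have h3 : p ∣ 3 := by exact_mod_cast h2
        exact (Nat.prime_dvd_prime_iff_eq hp Nat.prime_three).1 h3
      · right
        exact hpi.dvd_of_dvd_pow h2
  · rintro (rfl | rfl | h)
    · exact dvd_mul_of_dvd_left (dvd_pow_self _ (by norm_num)) _
    · exact dvd_mul_of_dvd_right (dvd_mul_right _ _) _
    · exact dvd_mul_of_dvd_right (dvd_mul_of_dvd_right (dvd_pow h (by norm_num)) _) _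

open Classical in
theorem lser {d : ℤ} {F : ℂ → ℂ} (hF : IsLFun (-1 * d ^ 2) (0 * d ^ 3) F) {s : ℂ} (hs : 3 / 2 < s.re) :
    HasProd (fun p : Nat.Primes =>
      if ¬ (((p : ℕ) : ℤ) ∣ 6 * (4 * (-1 * d ^ 2) ^ 3 + 27 * (0 * d ^ 3) ^ 2)) then
        (1 - ((((ap (-1 * d ^ 2) (0 * d ^ 3) (p : ℕ)) : ℤ) : ℂ)) * ((p : ℕ) : ℂ) ^ (-s) +
          ((p : ℕ) : ℂ) ^ (1 - 2 * s))⁻¹
      else 1) (F s * E3 d s) := by
  have h1 := hF.2 s (by exact_mod_cast hs)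
  set f : ℕ → ℂ := fun p => if p.Prime ∧ ¬ ((p : ℤ) ∣ 2 * (-4 * (-1 * d ^ 2) ^ 3 - 27 * (0 * d ^ 3) ^ 2)) then
        (1 - ((((ap (-1 * d ^ 2) (0 * d ^ 3) p) : ℤ) : ℂ)) * (p : ℂ) ^ (-s) + (p : ℂ) ^ (1 - 2 * s))⁻¹
      else 1 with hf
  have h2 : HasProd f (F s) := by
    refine h1.congr_fun fun p => ?_
    rw [hf]
    simp only
    by_cases h : p.Prime ∧ ¬ ((p : ℤ) ∣ 2 * (-4 * (-1 * d ^ 2) ^ 3 - 27 * (0 * d ^ 3) ^ 2))
    · rw [if_pos h, if_pos h]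
      unfold ap
      push_cast
      rfl
    · rw [if_neg h, if_neg h]
  have hinj : Function.Injective (fun p : Nat.Primes => (p : ℕ)) := Nat.Primes.coe_nat_injective
  have h3 : HasProd (fun p : Nat.Primes => f (p : ℕ)) (F s) := by
    refine (hinj.hasProd_iff (f := f) ?_).2 h2
    intro p hp
    rw [hf]
    simp only
    rw [if_neg]
    rintro ⟨h4, -⟩
    exact hp ⟨⟨p, h4⟩, rfl⟩
  have h4 := single 3 Nat.prime_three (E3 d s)
  refine (h3.mul h4).congr_fun fun p => ?_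
  obtain ⟨p, hp⟩ := p
  simp only
  rw [hf]
  simp only [dv p hp, dv6 p hp]
  by_cases h2' : p = 2
  · subst h2'
    simp
  by_cases hd : (p : ℤ) ∣ d
  · by_cases hp3 : p = 3
    · subst hp3
      have hd' : (3 : ℤ) ∣ d := by exact_mod_cast hd
      have : E3 d s = 1 := if_pos hd'
      simp [this, hd']
    · simp [hd, hp3]
  by_cases hp3 : p = 3
  · subst hp3
    have hd' : ¬ (3 : ℤ) ∣ d := by exact_mod_cast hd
    have hE : E3 d s = 1 + (3 : ℂ) ^ (1 - 2 * s) := if_neg hd'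
    have ha : ap (-1 * d ^ 2) (0 * d ^ 3) 3 = 0 := by
      have h5 := Pool.Agent.Y153.QTN1.ap_tw d 3 Nat.prime_three (by norm_num) hd
      have h6 : an 3 = 0 := an_inert 3 Nat.prime_three (by norm_num)
      unfold Pool.Agent.Y153.QTN1.cE at h5
      rw [h6] at h5
      have h7 : ((ap (-1 * d ^ 2) (0 * d ^ 3) 3 : ℤ) : ℝ) = 0 := by
        rw [h5]
        simp
      exact_mod_cast h7
    have hX : ‖(3 : ℂ) ^ (1 - 2 * s)‖ < 1 := by
      have h8 : ‖((3 : ℕ) : ℂ) ^ (-(2 * s - 1))‖ < 1 := norm_lt Nat.prime_three (s := 2 * s - 1) (by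
        simp
        linarith)
      have e : -(2 * s - 1) = 1 - 2 * s := by ring
      rw [e] at h8
      exact_mod_cast h8
    have hz := one_add_ne hX
    have hor : ¬ ((3 : ℕ) = 2 ∨ ((3 : ℕ) : ℤ) ∣ d) := by tauto
    have hor2 : ¬ ¬ ((3 : ℕ) = 2 ∨ (3 : ℕ) = 3 ∨ ((3 : ℕ) : ℤ) ∣ d) := by tauto
    rw [if_neg hor2, if_pos ⟨hp, hor⟩, if_pos rfl, ha, hE]
    have e3 : ((3 : ℕ) : ℂ) ^ (1 - 2 * s) = (3 : ℂ) ^ (1 - 2 * s) := by norm_cast
    rw [e3]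
    push_cast
    rw [zero_mul, sub_zero]
    exact (inv_mul_cancel₀ hz).symm
  · have h9 : ¬ (p = 2 ∨ (p : ℤ) ∣ d) := by tauto
    have h10 : ¬ (p = 2 ∨ p = 3 ∨ (p : ℤ) ∣ d) := by tauto
    rw [if_pos h10, if_pos ⟨hp, h9⟩, if_neg hp3, mul_one]

theorem order_mul {F : ℂ → ℂ} (hF : Differentiable ℂ F) (d : ℤ) :
    analyticOrderAt (fun s => F s * E3 d s) 1 = analyticOrderAt F 1 := by
  have h1 : analyticOrderAt (E3 d) 1 = 0 := ((E3_diff d).analyticAt 1).analyticOrderAt_eq_zero.2 (E3_one d)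
  have h2 := analyticOrderAt_mul (hF.analyticAt 1) ((E3_diff d).analyticAt 1)
  rw [h1, add_zero] at h2
  exact h2

open Classical in
/-- **the `L`-series of the twists** -/
theorem main : ∃ L : ℤ → ℂ → ℂ,
    (∀ d : ℤ, Squarefree d → Differentiable ℂ (L d) ∧ ∀ s : ℂ, 3 / 2 < s.re → HasProd (fun p : Nat.Primes =>
      if ¬ (((p : ℕ) : ℤ) ∣ 6 * (4 * (-1 * d ^ 2) ^ 3 + 27 * (0 * d ^ 3) ^ 2)) then
        (1 - ((((ap (-1 * d ^ 2) (0 * d ^ 3) (p : ℕ)) : ℤ) : ℂ)) * ((p : ℕ) : ℂ) ^ (-s) +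
          ((p : ℕ) : ℂ) ^ (1 - 2 * s))⁻¹
      else 1) (L d s)) ∧
    ∃ C : ℝ, ∀ X : ℕ, 1 ≤ X →
      |∑ d ∈ sqf X, (-1 : ℝ) ^ (analyticOrderAt (L d) 1).toNat| ≤ C * Real.sqrt X := by
  have hex : ∀ d : ℤ, ∃ F : ℂ → ℂ, Squarefree d → IsLFun (-1 * d ^ 2) (0 * d ^ 3) F := by
    intro d
    by_cases hd : Squarefree d
    · obtain ⟨F, hF⟩ := Pool.Agent.Y153.QTN1.N1.2 d hd
      exact ⟨F, fun _ => hF⟩
    · exact ⟨0, fun h => absurd h hd⟩
  choose F hF using hex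
  refine ⟨fun d s => F d s * E3 d s, fun d hd => ⟨(hF d hd).1.mul (E3_diff d), fun s hs => lser (hF d hd) hs⟩, ?_⟩
  obtain ⟨C, hC⟩ := Pool.Agent.Y763.QTPAR.PAR (-1) 0 (Or.inl ⟨by norm_num, rfl⟩)
  refine ⟨C, fun X hX => ?_⟩
  have h1 := hC F hF X hX
  have e : ∑ d ∈ sqf X, (-1 : ℝ) ^ (analyticOrderAt (fun s => F d s * E3 d s) 1).toNat =
      ∑ d ∈ sqf X, (-1 : ℝ) ^ (analyticOrderAt (F d) 1).toNat := by
    refine Finset.sum_congr rfl fun d hd => ?_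
    rw [order_mul (hF d (mem_sqf.1 hd).2).1]
  rw [e]
  exact h1

end Pool.Agent.X278.AV.Cg
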