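import Pool.Agent.X278.AV.CgD
import Pool.Agent.X278.AV.CgB

set_option autoImplicit false

/-!
# The curves `y² = x³ + A x`: the series of the squares has a simple zero at `1`; the `L`-series of the twists
-/

open Complex Filter Topology Set

namespace Pool.Agent.X278.AV.Cg

open Pool.Agent.H304R3.HK (bb UH ee)
open Pool.Agent.Y19.QT (ap IsLFun sqf mem_sqf)
open Pool.Agent.Y692.QN (ap_three)

theorem dvg (p : ℕ) (hp : p.Prime) (A : ℤ) : (p : ℤ) ∣ 6 * (4 * A ^ 3 + 27 * 0 ^ 2) ↔ (p = 2 ∨ p = 3 ∨ (p : ℤ) ∣ A) := by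
  have e : 6 * (4 * A ^ 3 + 27 * 0 ^ 2) = 2 ^ 3 * (3 * A ^ 3) := by ring
  have hpi : Prime (p : ℤ) := Nat.prime_iff_prime_int.1 hp
  rw [e]
  constructor
  · intro h
    rcases hpi.dvd_or_dvd h with h1 | h1
    · left
      have h2 := hpi.dvd_of_dvd_pow h1
      have h3 : p ∣ 2 := by exact_mod_cast h2
      exact (Nat.prime_dvd_prime_iff_eq hp Nat.prime_two).1 h3
    · right
      rcases hpi.dvd_or_dvd h1 with h2 | h2
      · left
        have h3 : p ∣ 3 := by exact_mod_cast h2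
        exact (Nat.prime_dvd_prime_iff_eq hp Nat.prime_three).1 h3
      · right
        exact hpi.dvd_of_dvd_pow h2
  · rintro (rfl | rfl | h)
    · exact dvd_mul_of_dvd_left (dvd_pow_self _ (by norm_num)) _
    · exact dvd_mul_of_dvd_right (dvd_mul_right _ _) _
    · exact dvd_mul_of_dvd_right (dvd_mul_of_dvd_right (dvd_pow h (by norm_num)) _) _

theorem dv2 (p : ℕ) (hp : p.Prime) (A : ℤ) : (p : ℤ) ∣ 2 * (-4 * A ^ 3 - 27 * 0 ^ 2) ↔ (p = 2 ∨ (p : ℤ) ∣ A) := by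
  have e : 2 * (-4 * A ^ 3 - 27 * 0 ^ 2) = -(2 ^ 3 * A ^ 3) := by ring
  have hpi : Prime (p : ℤ) := Nat.prime_iff_prime_int.1 hp
  rw [e, dvd_neg]
  constructor
  · intro h
    rcases hpi.dvd_or_dvd h with h1 | h1
    · left
      have h2 := hpi.dvd_of_dvd_pow h1
      have h3 : p ∣ 2 := by exact_mod_cast h2
      exact (Nat.prime_dvd_prime_iff_eq hp Nat.prime_two).1 h3
    · right
      exact hpi.dvd_of_dvd_pow h1
  · rintro (rfl | h)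
    · exact dvd_mul_of_dvd_left (dvd_pow_self _ (by norm_num)) _
    · exact dvd_mul_of_dvd_right (dvd_pow h (by norm_num)) _

/-- the inverse of a bad factor -/
noncomputable def EB (h : GaussianInt →* ℂ) (p : ℕ) (s : ℂ) : ℂ :=
  (1 - bb h p * (p : ℂ) ^ (-s) + ee h p * ((p : ℂ) ^ (-s)) ^ 2) * ((1 - c4 (p : ZMod 4) * (p : ℂ) ^ (-s)) *
    (1 - (p : ℂ) ^ (-s))⁻¹)

theorem c4_le (p : ℕ) : ‖c4 (p : ZMod 4)‖ ≤ 1 := DirichletCharacter.norm_le_one _ _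

theorem c4_sub_ne {p : ℕ} (hp : p.Prime) {s : ℂ} (hs : 0 < s.re) : 1 - c4 (p : ZMod 4) * (p : ℂ) ^ (-s) ≠ 0 := by
  refine one_sub_ne ?_
  rw [norm_mul]
  have h1 := norm_lt hp hs
  calc ‖c4 (p : ZMod 4)‖ * ‖(p : ℂ) ^ (-s)‖ ≤ 1 * ‖(p : ℂ) ^ (-s)‖ :=
        mul_le_mul_of_nonneg_right (c4_le p) (norm_nonneg _)
    _ < 1 := by rwa [one_mul]

theorem EB_ne {h : GaussianInt →* ℂ} (hU : UH h) {p : ℕ} (hp : p.Prime) {s : ℂ} (hs : 0 < s.re) : EB h p s ≠ 0 :=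
  mul_ne_zero (loc_ne hU hp hs) (mul_ne_zero (c4_sub_ne hp hs) (inv_ne_zero (one_sub_ne (norm_lt hp hs))))

theorem EB_an {h : GaussianInt →* ℂ} {p : ℕ} (hp : p.Prime) : AnalyticAt ℂ (EB h p) 1 := by
  have hp0 : (p : ℂ) ≠ 0 := Nat.cast_ne_zero.mpr hp.ne_zero
  have a := an_cpow hp0 1
  have hne : 1 - (p : ℂ) ^ (-(1 : ℂ)) ≠ 0 := one_sub_ne (norm_lt hp (by simp))
  unfold EB
  exact ((analyticAt_const.sub (analyticAt_const.mul a)).add (analyticAt_const.mul (a.pow 2))).mul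
    ((analyticAt_const.sub (analyticAt_const.mul a)).mul ((analyticAt_const.sub a).inv hne))

open Classical in
/-- **the series of the squares** -/
theorem square (A : ℤ) (hA : A ≠ 0) : ∃ F₂ : ℂ → ℂ, MeromorphicAt F₂ 1 ∧
    meromorphicOrderAt F₂ 1 = ((1 : ℤ) : WithTop ℤ) ∧
    ∀ s : ℂ, 1 < s.re → HasProd (fun p : Nat.Primes =>
      if ¬ (((p : ℕ) : ℤ) ∣ 6 * (4 * A ^ 3 + 27 * 0 ^ 2)) then
        (1 - (((ap A 0 (p : ℕ) : ℤ) : ℂ) ^ 2 / ((p : ℕ) : ℂ) - 2) * ((p : ℕ) : ℂ) ^ (-s) +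
          ((p : ℕ) : ℂ) ^ (-(2 * s)))⁻¹ else 1) (F₂ s) := by
  obtain ⟨h, F, hU, hF, hF1, hsum, hin, hsp⟩ := series A hA
  set B : Finset Nat.Primes := Finset.subtype (fun p => p.Prime) (6 * (4 * A ^ 3 + 27 * 0 ^ 2)).natAbs.primeFactors with hB
  have hD : (6 * (4 * A ^ 3 + 27 * 0 ^ 2)).natAbs ≠ 0 := by
    rw [Int.natAbs_ne_zero]
    have e : 6 * (4 * A ^ 3 + 27 * 0 ^ 2) = 24 * A ^ 3 := by ring
    rw [e]
    exact mul_ne_zero (by norm_num) (pow_ne_zero _ hA)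
  have hBm : ∀ p : Nat.Primes, p ∈ B ↔ ((p : ℕ) : ℤ) ∣ 6 * (4 * A ^ 3 + 27 * 0 ^ 2) := by
    intro p
    have h1 : p ∈ B ↔ (p : ℕ) ∈ (6 * (4 * A ^ 3 + 27 * 0 ^ 2)).natAbs.primeFactors := by
      rw [hB]
      exact Finset.mem_subtype
    rw [h1, Nat.mem_primeFactors, ← Int.natCast_dvd]
    exact ⟨fun h => h.2.1, fun h => ⟨p.2, h, hD⟩⟩
  set G : ℂ → ℂ := fun s => F s * c4.LFunction s * ∏ p ∈ B, EB h (p : ℕ) s with hG
  refine ⟨fun s => G s * (riemannZeta s)⁻¹, ?_⟩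
  have hGa : AnalyticAt ℂ G 1 := by
    refine ((hF.analyticAt 1).mul ((DirichletCharacter.differentiable_LFunction c4_ne).analyticAt 1)).mul ?_
    exact Finset.analyticAt_fun_prod B fun p _ => EB_an p.2
  have hG1 : G 1 ≠ 0 := by
    rw [hG]
    exact mul_ne_zero (mul_ne_zero hF1 (DirichletCharacter.LFunction_apply_one_ne_zero c4_ne))
      (Finset.prod_ne_zero_iff.2 fun p _ => EB_ne hU p.2 (by simp))
  obtain ⟨z1, z2⟩ := zeta_order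
  have hGm := hGa.meromorphicAt
  have hG0 : meromorphicOrderAt G 1 = ((0 : ℤ) : WithTop ℤ) := by
    rw [hGa.meromorphicOrderAt_eq, hGa.analyticOrderAt_eq_zero.2 hG1]
    rfl
  have e : (fun s => G s * (riemannZeta s)⁻¹) = G * riemannZeta⁻¹ := by
    funext s
    rfl
  refine ⟨?_, ?_, ?_⟩
  · rw [e]
    exact hGm.mul z1.inv
  · rw [e, meromorphicOrderAt_mul hGm z1.inv, meromorphicOrderAt_inv, hG0, z2]
    rfl
  intro s hs
  have hs0 : 0 < s.re := by linarith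
  have H1 := euler_u hU hs (hsum s hs)
  have H2 : HasProd (fun p : Nat.Primes => (1 - c4 ((p : ℕ) : ZMod 4) * ((p : ℕ) : ℂ) ^ (-s))⁻¹)
      (c4.LFunction s) := by
    have h := DirichletCharacter.LSeries_eulerProduct_hasProd c4 hs
    rwa [← DirichletCharacter.LFunction_eq_LSeries c4 hs] at h
  have H3 : HasProd (fun p : Nat.Primes => ((1 - ((p : ℕ) : ℂ) ^ (-s))⁻¹)⁻¹) (riemannZeta s)⁻¹ :=
    (riemannZeta_eulerProduct_hasProd hs).inv₀ (riemannZeta_ne_zero_of_one_lt_re hs)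
  have H4 : HasProd (fun p : Nat.Primes => if p ∈ B then EB h (p : ℕ) s else 1) (∏ p ∈ B, EB h (p : ℕ) s) := by
    have h5 : HasProd (fun p : Nat.Primes => if p ∈ B then EB h (p : ℕ) s else 1)
        (∏ p ∈ B, if p ∈ B then EB h (p : ℕ) s else 1) :=
      hasProd_prod_of_ne_finset_one (fun p hp => by simp [hp])
    convert h5 using 1
    exact Finset.prod_congr rfl fun p hp => by simp [hp]
  refine ((((H1.mul H2).mul H4).mul H3)).congr_fun fun p => ?_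
  have hX := norm_lt p.2 hs0
  have hz := one_sub_ne hX
  have hz2 := one_add_ne hX
  have hXX : ((p : ℕ) : ℂ) ^ (-(2 * s)) = (((p : ℕ) : ℂ) ^ (-s)) ^ 2 := by
    rw [← Complex.cpow_nat_mul]
    congr 1
    push_cast
    ring
  by_cases hb : p ∈ B
  · have hb' : ¬ ¬ (((p : ℕ) : ℤ) ∣ 6 * (4 * A ^ 3 + 27 * 0 ^ 2)) := not_not.2 ((hBm p).1 hb)
    rw [if_neg hb', if_pos hb]
    have n1 := loc_ne hU p.2 hs0
    have n2 := c4_sub_ne p.2 hs0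
    unfold EB
    rw [inv_inv]
    have key : ∀ U V W : ℂ, U ≠ 0 → V ≠ 0 → W ≠ 0 → (1 : ℂ) = U⁻¹ * V⁻¹ * (U * (V * W⁻¹)) * W := by
      intro U V W h1 h2 h3
      have e1 : U⁻¹ * V⁻¹ * (U * (V * W⁻¹)) * W = (U⁻¹ * U) * (V⁻¹ * V) * (W⁻¹ * W) := by ring
      rw [e1, inv_mul_cancel₀ h1, inv_mul_cancel₀ h2, inv_mul_cancel₀ h3]
      norm_num
    exact key _ _ _ n1 n2 hz
  · have hb' : ¬ (((p : ℕ) : ℤ) ∣ 6 * (4 * A ^ 3 + 27 * 0 ^ 2)) := fun h => hb ((hBm p).2 h)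
    rw [if_pos hb', if_neg hb, hXX, inv_inv, mul_one]
    have hd := hb'
    rw [dvg (p : ℕ) p.2 A] at hd
    push Not at hd
    have hd2 : ¬ ((p : ℕ) : ℤ) ∣ 2 * A := by
      intro h1
      rcases (Nat.prime_iff_prime_int.1 p.2).dvd_or_dvd h1 with h2 | h2
      · have h3 : (p : ℕ) ∣ 2 := by exact_mod_cast h2
        exact hd.1 ((Nat.prime_dvd_prime_iff_eq p.2 Nat.prime_two).1 h3)
      · exact hd.2.2 h2
    have hodd : (p : ℕ) % 2 = 1 := p.2.eq_two_or_odd.resolve_left hd.1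
    set X : ℂ := ((p : ℕ) : ℂ) ^ (-s) with hXd
    by_cases h3 : (p : ℕ) % 4 = 3
    · obtain ⟨k1, k2⟩ := hin p p.2 h3 hd2
      rw [k1, k2, c4_three p h3, ap_three A p.2 h3]
      have e4 : 1 - 0 * X + -1 * X ^ 2 = (1 - X) * (1 + X) := by ring
      have e5 : 1 - -1 * X = 1 + X := by ring
      have e6 : 1 - (((0 : ℤ) : ℂ) ^ 2 / ((p : ℕ) : ℂ) - 2) * X + X ^ 2 = (1 + X) * (1 + X) := by
        push_cast
        ring
      rw [e4, e5, e6]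
      field_simp
    · have h1' : (p : ℕ) % 4 = 1 := by omega
      obtain ⟨k1, k2⟩ := hsp p p.2 h1' hd2
      rw [k1, k2, c4_one p h1', one_mul, one_mul, mul_assoc, inv_mul_cancel₀ hz, mul_one]

/-! ### the twists -/

open Classical in
theorem lserA {D : ℤ} {F : ℂ → ℂ} (hF : IsLFun D 0 F) {s : ℂ} (hs : 3 / 2 < s.re) :
    HasProd (fun p : Nat.Primes =>
      if ¬ (((p : ℕ) : ℤ) ∣ 6 * (4 * D ^ 3 + 27 * 0 ^ 2)) then
        (1 - ((((ap D 0 (p : ℕ)) : ℤ) : ℂ)) * ((p : ℕ) : ℂ) ^ (-s) + ((p : ℕ) : ℂ) ^ (1 - 2 * s))⁻¹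
      else 1) (F s * E3 D s) := by
  have h1 := hF.2 s (by exact_mod_cast hs)
  set f : ℕ → ℂ := fun p => if p.Prime ∧ ¬ ((p : ℤ) ∣ 2 * (-4 * D ^ 3 - 27 * 0 ^ 2)) then
        (1 - ((((ap D 0 p) : ℤ) : ℂ)) * (p : ℂ) ^ (-s) + (p : ℂ) ^ (1 - 2 * s))⁻¹
      else 1 with hf
  have h2 : HasProd f (F s) := by
    refine h1.congr_fun fun p => ?_
    rw [hf]
    simp only
    by_cases h : p.Prime ∧ ¬ ((p : ℤ) ∣ 2 * (-4 * D ^ 3 - 27 * 0 ^ 2))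
    · rw [if_pos h, if_pos h]
      unfold ap
      push_cast
      rfl
    · rw [if_neg h, if_neg h]
  have hinj : Function.Injective (fun p : Nat.Primes => (p : ℕ)) := Nat.Primes.coe_nat_injective
  have h3 : HasProd (fun p : Nat.Primes => f (p : ℕ)) (F s) := by
    refine (hinj.hasProd_iff (f := f) ?_).2 h2
    intro p hp
    rw [hf]
    simp only
    rw [if_neg]
    rintro ⟨h4, -⟩
    exact hp ⟨⟨p, h4⟩, rfl⟩
  have h4 := single 3 Nat.prime_three (E3 D s)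
  refine (h3.mul h4).congr_fun fun p => ?_
  obtain ⟨p, hp⟩ := p
  simp only
  rw [hf]
  simp only [dv2 p hp, dvg p hp]
  by_cases h2' : p = 2
  · subst h2'
    simp
  by_cases hd : (p : ℤ) ∣ D
  · by_cases hp3 : p = 3
    · subst hp3
      have hd' : (3 : ℤ) ∣ D := by exact_mod_cast hd
      have : E3 D s = 1 := if_pos hd'
      simp [this, hd']
    · simp [hd, hp3]
  by_cases hp3 : p = 3
  · subst hp3
    have hd' : ¬ (3 : ℤ) ∣ D := by exact_mod_cast hd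
    have hE : E3 D s = 1 + (3 : ℂ) ^ (1 - 2 * s) := if_neg hd'
    have ha : ap D 0 3 = 0 := ap_three D Nat.prime_three (by norm_num)
    have hX : ‖(3 : ℂ) ^ (1 - 2 * s)‖ < 1 := by
      have h8 : ‖((3 : ℕ) : ℂ) ^ (-(2 * s - 1))‖ < 1 := norm_lt Nat.prime_three (s := 2 * s - 1) (by
        simp
        linarith)
      have e : -(2 * s - 1) = 1 - 2 * s := by ring
      rw [e] at h8
      exact_mod_cast h8
    have hz := one_add_ne hX
    have hor : ¬ ((3 : ℕ) = 2 ∨ ((3 : ℕ) : ℤ) ∣ D) := by tauto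
    have hor2 : ¬ ¬ ((3 : ℕ) = 2 ∨ (3 : ℕ) = 3 ∨ ((3 : ℕ) : ℤ) ∣ D) := by tauto
    rw [if_neg hor2, if_pos ⟨hp, hor⟩, if_pos rfl, ha, hE]
    have e3 : ((3 : ℕ) : ℂ) ^ (1 - 2 * s) = (3 : ℂ) ^ (1 - 2 * s) := by norm_cast
    rw [e3]
    push_cast
    rw [zero_mul, sub_zero]
    exact (inv_mul_cancel₀ hz).symm
  · have h9 : ¬ (p = 2 ∨ (p : ℤ) ∣ D) := by tauto
    have h10 : ¬ (p = 2 ∨ p = 3 ∨ (p : ℤ) ∣ D) := by tauto
    rw [if_pos h10, if_pos ⟨hp, h9⟩, if_neg hp3, mul_one]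

open Classical in
/-- **the `L`-series of the twists of `y² = x³ + A x`** -/
theorem mainA (A : ℤ) (hA : A ≠ 0) : ∃ L : ℤ → ℂ → ℂ,
    (∀ d : ℤ, Squarefree d → Differentiable ℂ (L d) ∧ ∀ s : ℂ, 3 / 2 < s.re → HasProd (fun p : Nat.Primes =>
      if ¬ (((p : ℕ) : ℤ) ∣ 6 * (4 * (A * d ^ 2) ^ 3 + 27 * (0 * d ^ 3) ^ 2)) then
        (1 - ((((ap (A * d ^ 2) (0 * d ^ 3) (p : ℕ)) : ℤ) : ℂ)) * ((p : ℕ) : ℂ) ^ (-s) +
          ((p : ℕ) : ℂ) ^ (1 - 2 * s))⁻¹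
      else 1) (L d s)) ∧
    ∃ C : ℝ, ∀ X : ℕ, 1 ≤ X →
      |∑ d ∈ sqf X, (-1 : ℝ) ^ (analyticOrderAt (L d) 1).toNat| ≤ C * Real.sqrt X := by
  have hex : ∀ d : ℤ, ∃ F : ℂ → ℂ, Squarefree d → IsLFun (A * d ^ 2) (0 * d ^ 3) F := by
    intro d
    by_cases hd : Squarefree d
    · obtain ⟨F, hF⟩ := (Pool.Agent.Y153.QN3.N3 A hA).2 d hd
      exact ⟨F, fun _ => hF⟩
    · exact ⟨0, fun h => absurd h hd⟩
  choose F hF using hex
  refine ⟨fun d s => F d s * E3 (A * d ^ 2) s, fun d hd => ⟨(hF d hd).1.mul (E3_diff _), fun s hs => ?_⟩, ?_⟩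
  · have h1 := hF d hd
    simp only [zero_mul] at h1 ⊢
    exact lserA h1 hs
  obtain ⟨C, hC⟩ := Pool.Agent.Y763.QTPAR.PAR A 0 (Or.inl ⟨hA, rfl⟩)
  refine ⟨C, fun X hX => ?_⟩
  have h1 := hC F hF X hX
  have e : ∑ d ∈ sqf X, (-1 : ℝ) ^ (analyticOrderAt (fun s => F d s * E3 (A * d ^ 2) s) 1).toNat =
      ∑ d ∈ sqf X, (-1 : ℝ) ^ (analyticOrderAt (F d) 1).toNat := by
    refine Finset.sum_congr rfl fun d hd => ?_
    rw [order_mul (hF d (mem_sqf.1 hd).2).1]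
  rw [e]
  exact h1

end Pool.Agent.X278.AV.Cg
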