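import Pool.Agent.X278.AV.QQ
import Pool.Agent.X278.AV.CgE
import Pool.Agent.X278.OP.NF
import Pool.Agent.X278.OP.Bd

/-!
# The original product for the curves `y² = x³ + A x` over the rational numbers, unconditional
-/

set_option autoImplicit false

namespace Pool.Agent.X278.AV.RQ

open Complex Filter Topology Set Asymptotics
open Pool.Agent.W189.ML Pool.Agent.X287.CR Pool.Agent.X278.OP Pool.Agent.X278.AV
open Pool.Agent.W187.UR (Lam)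
open Pool.Agent.TH942.ES (rt rt_norm rt_prod rt_log)

theorem fac_sqQ (A B : ℤ) (p : Nat.Primes) (s : ℂ) (h : GoodQ A B p) :
    fac pq (sq (qal A B)) s p =
      (1 - ((((p : ℕ) : ℂ) - ptsQ A B p) ^ 2 - 2 * (p : ℕ)) * ((p : ℕ) : ℂ) ^ (-s) +
        ((p : ℕ) : ℂ) ^ (2 - 2 * s))⁻¹ := by
  have hn0 : (0 : ℝ) < (p : ℕ) := by exact_mod_cast p.2.pos
  have h1 : 0 < √((p : ℕ) : ℝ) := Real.sqrt_pos.2 hn0
  have h1c : ((√((p : ℕ) : ℝ) : ℝ) : ℂ) ≠ 0 := by exact_mod_cast h1.ne'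
  have hnc : ((p : ℕ) : ℂ) ≠ 0 := by exact_mod_cast hn0.ne'
  have h2 : ((√((p : ℕ) : ℝ) : ℝ) : ℂ) ^ 2 = ((p : ℕ) : ℂ) := by
    rw [← Complex.ofReal_pow, Real.sq_sqrt hn0.le]
    push_cast
    rfl
  unfold fac
  rw [Fin.prod_univ_two, ← mul_inv]
  congr 1
  set r : ℂ := ((√((p : ℕ) : ℝ) : ℝ) : ℂ) with hr
  set x : ℂ := ((p : ℕ) : ℂ) ^ (-s) with hx
  have hNN : ((pq p : ℕ) : ℂ) ^ (-s) = x := rfl
  rw [hNN]
  have e1 : ((p : ℕ) : ℂ) ^ (2 - 2 * s) = (r ^ 2 * x) ^ 2 := by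
    rw [mul_pow, h2, hx, ← Complex.cpow_nat_mul]
    rw [Complex.cpow_sub _ _ hnc]
    have h3 : ((p : ℕ) : ℂ) ^ (2 : ℂ) = ((p : ℕ) : ℂ) ^ 2 := by
      have := Complex.cpow_natCast ((p : ℕ) : ℂ) 2
      simpa using this
    rw [h3, show ((2 : ℕ) : ℂ) * -s = -(2 * s) by push_cast; ring, Complex.cpow_neg, div_eq_mul_inv]
  have ht := trQ_abs p.2 h
  set t : ℝ := trQ A B p with htd
  have p1 : rt t 0 + rt t 1 = 2 * t := by
    have e0 : rt t 0 = t + √(1 - t ^ 2) * I := rfl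
    have e1 : rt t 1 = t - √(1 - t ^ 2) * I := rfl
    rw [e0, e1]; ring
  have p2 : rt t 0 * rt t 1 = 1 := by
    have h3 := rt_prod ht 1
    have h4 : (1 - rt t 0 * 1) * (1 - rt t 1 * 1) = 1 - (rt t 0 + rt t 1) + rt t 0 * rt t 1 := by ring
    rw [h4, p1] at h3
    linear_combination h3
  have e3 : (1 - sq (qal A B) p 0 * x) * (1 - sq (qal A B) p 1 * x) =
      1 - ((rt t 0 + rt t 1) ^ 2 - 2 * (rt t 0 * rt t 1)) * (r ^ 2 * x) +
        (rt t 0 * rt t 1) ^ 2 * (r ^ 2 * x) ^ 2 := by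
    unfold Pool.Agent.X278.OP.sq qal
    rw [if_pos h, if_pos h, ← htd]
    ring
  rw [e3, p1, p2, e1]
  have e4 : 2 * (t : ℂ) * r = ((p : ℕ) : ℂ) - ptsQ A B p := by
    rw [htd]
    unfold trQ
    push_cast
    rw [← hr]
    field_simp
  rw [← e4, ← h2]
  ring

theorem fac_sqQ0 (A B : ℤ) (p : Nat.Primes) (s : ℂ) (h : ¬ GoodQ A B p) : fac pq (sq (qal A B)) s p = 1 := by
  unfold fac Pool.Agent.X278.OP.sq qal
  simp [h]

theorem shift_order {f : ℂ → ℂ} (hm : MeromorphicAt f 1) (hn : meromorphicOrderAt f 1 = ((1 : ℤ) : WithTop ℤ)) :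
    MeromorphicAt (fun s => f (s - 1)) 2 ∧ meromorphicOrderAt (fun s => f (s - 1)) 2 = ((1 : ℤ) : WithTop ℤ) := by
  obtain ⟨g, hg, hg1, hev⟩ := (meromorphicOrderAt_eq_int_iff hm).1 hn
  have e21 : (2 : ℂ) - 1 = 1 := by norm_num
  have ha : AnalyticAt ℂ (fun s => g (s - 1)) 2 := by
    have h1 : AnalyticAt ℂ g ((fun s : ℂ => s - 1) 2) := by
      show AnalyticAt ℂ g (2 - 1)
      rw [e21]
      exact hg
    have h2 : AnalyticAt ℂ (fun s : ℂ => s - 1) 2 := by fun_prop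
    exact AnalyticAt.comp (g := g) (f := fun s : ℂ => s - 1) (x := 2) h1 h2
  have ht : Tendsto (fun z : ℂ => z - 1) (𝓝[≠] 2) (𝓝[≠] 1) := by
    refine tendsto_nhdsWithin_iff.2 ⟨?_, ?_⟩
    · have h1 : Tendsto (fun z : ℂ => z - 1) (𝓝 2) (𝓝 (2 - 1)) := (continuous_id.sub continuous_const).tendsto 2
      rw [e21] at h1
      exact h1.mono_left nhdsWithin_le_nhds
    · filter_upwards [self_mem_nhdsWithin] with z hz h
      refine hz ?_
      have h2 : z - 1 = 1 := h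
      show z = 2
      linear_combination h2
  have hev' : ∀ᶠ z in 𝓝[≠] (2 : ℂ), f (z - 1) = (z - 2) ^ (1 : ℤ) • g (z - 1) := by
    filter_upwards [ht.eventually hev] with z hz
    have e1 : z - 2 = z - 1 - 1 := by ring
    rw [e1]
    exact hz
  have hm' : MeromorphicAt (fun s => f (s - 1)) 2 := by
    have h2 : MeromorphicAt (fun z : ℂ => (z - 2) ^ (1 : ℤ) • g (z - 1)) 2 :=
      ((MeromorphicAt.id 2).sub (MeromorphicAt.const 2 2)).zpow 1 |>.smul ha.meromorphicAt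
    exact h2.congr (hev'.mono fun z hz => hz.symm)
  refine ⟨hm', (meromorphicOrderAt_eq_int_iff hm').2 ⟨fun s => g (s - 1), ha, ?_, hev'⟩⟩
  show g (2 - 1) ≠ 0
  rw [e21]
  exact hg1

theorem good_iff (A B : ℤ) (p : ℕ) : ¬ ((p : ℤ) ∣ 6 * (4 * A ^ 3 + 27 * B ^ 2)) ↔ GoodQ A B p := by
  unfold GoodQ
  rw [← ZMod.intCast_zmod_eq_zero_iff_dvd]
  push_cast
  rfl

/-- the series of the squares -/
theorem sq_ser {A : ℤ} (hA : A ≠ 0) : ∃ F₂ : ℂ → ℂ, MeromorphicAt F₂ 2 ∧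
    meromorphicOrderAt F₂ 2 = ((1 : ℤ) : WithTop ℤ) ∧
    ∀ s : ℂ, 2 < s.re → HasProd (fac pq (sq (qal A 0)) s) (F₂ s) := by
  classical
  obtain ⟨F₂, h1, h2, h3⟩ := Cg.square A hA
  obtain ⟨k1, k2⟩ := shift_order h1 h2
  refine ⟨fun s => F₂ (s - 1), k1, k2, fun s hs => ?_⟩
  have hs' : 1 < (s - 1).re := by
    rw [Complex.sub_re, Complex.one_re]
    linarith
  refine (h3 (s - 1) hs').congr_fun fun p => ?_
  have hp0 : ((p : ℕ) : ℂ) ≠ 0 := Nat.cast_ne_zero.mpr p.2.ne_zero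
  by_cases h : ¬ (((p : ℕ) : ℤ) ∣ 6 * (4 * A ^ 3 + 27 * 0 ^ 2))
  · rw [if_pos h, fac_sqQ A 0 p s ((good_iff A 0 p).1 h)]
    have e0 : ((Pool.Agent.Y19.QT.ap A 0 (p : ℕ) : ℤ) : ℂ) = ((p : ℕ) : ℂ) - ptsQ A 0 p := by
      unfold ptsQ Pool.Agent.Y19.QT.ap
      push_cast
      rfl
    rw [e0]
    have e1 : ((p : ℕ) : ℂ) ^ (-(s - 1)) = ((p : ℕ) : ℂ) ^ (-s) * (p : ℕ) := by
      have e2 : -(s - 1) = -s + 1 := by ring
      rw [e2, Complex.cpow_add _ _ hp0, Complex.cpow_one]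
    have e3 : ((p : ℕ) : ℂ) ^ (-(2 * (s - 1))) = ((p : ℕ) : ℂ) ^ (2 - 2 * s) := by
      congr 1
      ring
    rw [e1, e3]
    congr 1
    field_simp
  · rw [if_neg h, fac_sqQ0 A 0 p s (fun h' => h ((good_iff A 0 p).2 h'))]

/-- the `L`-series -/
theorem l_ser {A : ℤ} (hA : A ≠ 0) : ∃ L : ℂ → ℂ, Differentiable ℂ L ∧
    ∀ s : ℂ, 3 / 2 < s.re → HasProd (efQ A 0 s) (L s) := by
  classical
  obtain ⟨L, hL, -⟩ := Cg.mainA A hA
  obtain ⟨h1, h2⟩ := hL 1 squarefree_one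
  refine ⟨L 1, h1, fun s hs => ?_⟩
  have h3 := h2 s hs
  have e1 : A * 1 ^ 2 = A := by ring
  have e2 : (0 : ℤ) * 1 ^ 3 = 0 := by ring
  rw [e1, e2] at h3
  refine h3.congr_fun fun p => ?_
  unfold efQ
  by_cases h : ¬ (((p : ℕ) : ℤ) ∣ 6 * (4 * A ^ 3 + 27 * 0 ^ 2))
  · rw [if_pos h, if_pos ((good_iff A 0 p).1 h)]
    unfold ptsQ Pool.Agent.Y19.QT.ap
    push_cast
    rfl
  · rw [if_neg h, if_neg (fun h' => h ((good_iff A 0 p).2 h'))]

/-- **the law for `y² = x³ + A x`, unconditional** -/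
theorem law {A : ℤ} (hA : A ≠ 0) : ∃ L : ℂ → ℂ, Differentiable ℂ L ∧
    (∀ s : ℂ, 3 / 2 < s.re → HasProd (efQ A 0 s) (L s)) ∧
    ∀ γ : ℝ, Real.pi / 2 < γ →
      (∀ T : ℝ, 0 < T → Summable fun p : Nat.Primes =>
        ‖((ff (A : ZMod p) ((0 : ℤ) : ZMod p) : ℝ) : ℂ) * Wt γ (Real.log (p : ℕ) / T)‖) ∧
      ∃ (m : ℕ) (ρ : ℂ), analyticOrderAt L 1 = m ∧ meromorphicTrailingCoeffAt L 1 = Complex.exp ρ ∧
        Asy (Lam γ) (SQ A 0 γ) (m : ℤ) (ρ - (1 : ℤ) / 2 * Real.log 2) := by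
  obtain ⟨L, hL, hLs⟩ := l_ser hA
  obtain ⟨F₂, g1, g2, g3⟩ := sq_ser hA
  refine ⟨L, hL, hLs, fun γ hγ => ?_⟩
  have G := qal_sys A 0
  have hs1 : (1 / 2 : ℝ) + 1 / 2 ≤ (1 : ℂ).re := by norm_num
  have hmer : ∀ x : ℂ, MeromorphicAt L x := fun x => (hL.analyticAt x).meromorphicAt
  obtain ⟨m, ρ, h1, h2, h3⟩ := G.law (L := L) (fun s hs => by
    have h4 := hLs s (by linarith)
    rw [← fac_qal] at h4
    exact h4) (s₀ := 1) (by norm_num) (fun x _ _ => hmer _) hγ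
  have hA1 : Asy (Lam γ) (Su pq (qal A 0) 1 γ) m ρ := h3
  have G2 := sq_sys G
  obtain ⟨n, ρ₂, k1, -, k3⟩ := G2.law (L := F₂) (fun s hs => g3 s (by linarith)) (s₀ := 2 * 1) (by norm_num)
    (fun x hx0 hx1 => by
      have h5 : x = 0 := by
        have : ((2 : ℂ) * 1).re = 2 := by simp
        rw [this] at hx1
        linarith
      rw [h5]
      simpa using g1) hγ
  have hA2 : Asy (Lam γ) (Su pq (sq (qal A 0)) (2 * 1) γ) n ρ₂ := k3
  have hLw := law_places G hs1 γ hA1 hA2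
  rw [mul_one] at k1
  have hn : n = 1 := by
    rw [g2] at k1
    exact_mod_cast k1.symm
  have h6 : Sp pq (qal A 0) 1 γ = SQ A 0 γ := by
    funext T
    unfold Sp SQ
    refine tsum_congr fun p => ?_
    rw [lg_qal]
    rfl
  rw [h6, hn] at hLw
  have hord := (hL.analyticAt 1).meromorphicOrderAt_eq
  rw [h1] at hord
  have hfin : analyticOrderAt L 1 ≠ ⊤ := by
    intro h
    rw [h] at hord
    simp at hord
  obtain ⟨k, hk⟩ := ENat.ne_top_iff_exists.1 hfin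
  have hmk : m = (k : ℤ) := by
    rw [← hk] at hord
    have h9 : ((m : ℤ) : WithTop ℤ) = ((k : ℤ) : WithTop ℤ) := by
      rw [hord]
      rfl
    exact_mod_cast h9
  refine ⟨fun T hT => ?_, k, ρ, hk.symm, h2, ?_⟩
  · have h4 := Sp_summable G hs1 γ hT
    refine h4.congr fun p => ?_
    rw [lg_qal]
    rfl
  · rw [← hmk]
    exact hLw

end Pool.Agent.X278.AV.RQ
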