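import Pool.Agent.X278.AV.TwL

/-!
# The quadratic twists of an elliptic curve over the rational numbers
-/

set_option autoImplicit false

namespace Pool.Agent.X278.AV

open Finset Filter Topology
open Pool.Agent.X278.OP Pool.Agent.W189.ML
open Pool.Agent.TH942.ES (rt rt_norm rt_prod rt_log)

open Classical in
/-- the normalised roots; zero at the bad primes -/
noncomputable def alE (A B : ℤ) (p : Nat.Primes) : Fin 2 → ℂ := fun i => if GoodQ A B p then rt (trQ A B p) i else 0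

/-- the bad primes -/
def NE (A B : ℤ) : ℕ := (6 * (4 * A ^ 3 + 27 * B ^ 2)).natAbs

theorem NE_dvd (A B : ℤ) (p : ℕ) : p ∣ NE A B ↔ ¬ GoodQ A B p := by
  unfold NE GoodQ
  rw [not_not, ← Int.natCast_dvd, ← ZMod.intCast_zmod_eq_zero_iff_dvd]
  push_cast
  rfl

theorem NE_two (A B : ℤ) : 2 ∣ NE A B := by
  unfold NE
  rw [← Int.natCast_dvd]
  exact ⟨3 * (4 * A ^ 3 + 27 * B ^ 2), by push_cast; ring⟩

theorem NE_ne {A B : ℤ} (h : 4 * A ^ 3 + 27 * B ^ 2 ≠ 0) : NE A B ≠ 0 := by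
  unfold NE
  rw [Int.natAbs_ne_zero]
  exact mul_ne_zero (by norm_num) h

theorem rtE_sum (t : ℝ) : rt t 0 + rt t 1 = 2 * t := by
  have e0 : rt t 0 = t + √(1 - t ^ 2) * Complex.I := rfl
  have e1 : rt t 1 = t - √(1 - t ^ 2) * Complex.I := rfl
  rw [e0, e1]
  ring

theorem rtE_mul {t : ℝ} (ht : |t| ≤ 1) : rt t 0 * rt t 1 = 1 := by
  have h3 := rt_prod ht 1
  have h4 : (1 - rt t 0 * 1) * (1 - rt t 1 * 1) = 1 - (rt t 0 + rt t 1) + rt t 0 * rt t 1 := by ring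
  rw [h4, rtE_sum] at h3
  linear_combination h3

theorem alE_bd (A B : ℤ) (p : Nat.Primes) (i : Fin 2) : ‖alE A B p i‖ ≤ 1 := by
  unfold alE
  by_cases h : GoodQ A B p
  · rw [if_pos h]
    exact rt_norm (trQ_abs p.2 h) i
  · rw [if_neg h, norm_zero]
    exact zero_le_one

theorem alE_zero (A B : ℤ) (p : Nat.Primes) (hp : (p : ℕ) ∣ NE A B) (i : Fin 2) : alE A B p i = 0 := by
  unfold alE
  rw [if_neg ((NE_dvd A B p).1 hp)]

theorem alE_mul (A B : ℤ) (p : Nat.Primes) (hp : ¬ (p : ℕ) ∣ NE A B) : alE A B p 0 * alE A B p 1 = 1 := by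
  have h : GoodQ A B p := by
    by_contra h
    exact hp ((NE_dvd A B p).2 h)
  unfold alE
  rw [if_pos h, if_pos h]
  exact rtE_mul (trQ_abs p.2 h)

/-- the trace and the character sum -/
theorem tr_TT (A B : ℤ) (p : Nat.Primes) (h : GoodQ A B p) :
    2 * trQ A B p * √((p : ℕ) : ℝ) = -((TT (A : ZMod p) (B : ZMod p) : ℤ) : ℝ) := by
  have hn0 : (0 : ℝ) < (p : ℕ) := by exact_mod_cast p.2.pos
  have h1 : 0 < √((p : ℕ) : ℝ) := Real.sqrt_pos.2 hn0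
  have h6 : (6 : ZMod p) ≠ 0 := left_ne_zero_of_mul h
  have h4 := pts_eq h6 (A : ZMod p) (B : ZMod p)
  rw [ZMod.card] at h4
  have h5 : ((pts (A : ZMod p) (B : ZMod p) : ℕ) : ℝ) = (p : ℕ) + ((TT (A : ZMod p) (B : ZMod p) : ℤ) : ℝ) := by
    exact_mod_cast h4
  have h7 : ptsQ A B p = pts (A : ZMod p) (B : ZMod p) := rfl
  unfold trQ
  rw [h7, h5]
  field_simp
  ring

/-- **the local function of a twist** -/
theorem ff_gU (A B : ℤ) (p : Nat.Primes) (x : ZMod p) :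
    ff ((A : ZMod p) * x ^ 2) ((B : ZMod p) * x ^ 3) = fN (alE A B) 1 (NE A B) p x := by
  have hn0 : (0 : ℝ) < (p : ℕ) := by exact_mod_cast p.2.pos
  have h1 : 0 < √((p : ℕ) : ℝ) := Real.sqrt_pos.2 hn0
  have h2 : √((p : ℕ) : ℝ) ^ 2 = (p : ℕ) := Real.sq_sqrt hn0.le
  have e6 : (6 : ZMod p) * (4 * ((A : ZMod p) * x ^ 2) ^ 3 + 27 * ((B : ZMod p) * x ^ 3) ^ 2) =
      (6 * (4 * (A : ZMod p) ^ 3 + 27 * (B : ZMod p) ^ 2)) * x ^ 6 := by ring
  unfold fN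
  by_cases h : GoodQ A B p
  · rw [if_neg (fun h' => (NE_dvd A B p).1 h' h)]
    by_cases hx : x = 0
    · rw [hx, gU_zero]
      unfold ff
      rw [if_pos (by ring)]
    · have hne : (6 : ZMod p) * (4 * ((A : ZMod p) * x ^ 2) ^ 3 + 27 * ((B : ZMod p) * x ^ 3) ^ 2) ≠ 0 := by
        rw [e6]
        exact mul_ne_zero h (pow_ne_zero _ hx)
      have h6 : (6 : ZMod p) ≠ 0 := left_ne_zero_of_mul h
      have h4 := pts_eq h6 ((A : ZMod p) * x ^ 2) ((B : ZMod p) * x ^ 3)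
      rw [ZMod.card, TT_twist hx] at h4
      have htr := tr_TT A B p h
      set t : ℝ := trQ A B p with ht
      set τ : ℝ := ((TT (A : ZMod p) (B : ZMod p) : ℤ) : ℝ) with hτ
      set χ : ℝ := ((quadraticChar (ZMod p) x : ℤ) : ℝ) with hχ
      have hχ2 : χ ^ 2 = 1 := by
        have := quadraticChar_sq_one hx
        rw [hχ]
        exact_mod_cast this
      have h5 : ((pts ((A : ZMod p) * x ^ 2) ((B : ZMod p) * x ^ 3) : ℕ) : ℝ) = (p : ℕ) + χ * τ := by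
        have := congrArg (fun z : ℤ => (z : ℝ)) h4
        push_cast at this
        rw [hχ, hτ]
        push_cast
        exact this
      unfold ff
      rw [if_neg hne, ZMod.card, h5]
      have habs : |t| ≤ 1 := trQ_abs p.2 h
      have hal : ∀ i, alE A B p i = rt t i := fun i => by
        unfold alE
        rw [if_pos h]
      have hlt : ∀ i, 1 - ((χ : ℝ) : ℂ) * alE A B p i / ((√((p : ℕ) : ℝ) : ℝ) : ℂ) ≠ 0 := by
        intro i h0
        have h7 : ((χ : ℝ) : ℂ) * alE A B p i / ((√((p : ℕ) : ℝ) : ℝ) : ℂ) = 1 := (sub_eq_zero.1 h0).symm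
        have h8 : ‖((χ : ℝ) : ℂ) * alE A B p i‖ ≤ 1 := by
          rw [norm_mul, Complex.norm_real, Real.norm_eq_abs]
          have : |χ| = 1 := by
            have h9 : |χ| ^ 2 = 1 := by rw [sq_abs, hχ2]
            have := abs_nonneg χ
            nlinarith
          rw [this, one_mul]
          exact alE_bd A B p i
        have h9 := (norm_div_sqrt h8 p).trans (sqrt_two_le p)
        rw [h7, norm_one] at h9
        norm_num at h9
      have e1 : gU (alE A B) 1 p x = Real.log ‖(1 - ((χ : ℝ) : ℂ) * alE A B p 0 / ((√((p : ℕ) : ℝ) : ℝ) : ℂ)) *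
          (1 - ((χ : ℝ) : ℂ) * alE A B p 1 / ((√((p : ℕ) : ℝ) : ℝ) : ℂ))‖ := by
        rw [norm_mul, Real.log_mul (norm_ne_zero_iff.2 (hlt 0)) (norm_ne_zero_iff.2 (hlt 1))]
        unfold gU
        rw [Fin.sum_univ_two, Int.cast_one, one_mul, hχ]
        push_cast
        rfl
      have hsc : ((√((p : ℕ) : ℝ) : ℝ) : ℂ) ≠ 0 := by exact_mod_cast h1.ne'
      have h2c : ((√((p : ℕ) : ℝ) : ℝ) : ℂ) ^ 2 = (((p : ℕ) : ℝ) : ℂ) := by
        rw [← Complex.ofReal_pow, h2]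
      have hpc : (((p : ℕ) : ℝ) : ℂ) ≠ 0 := by exact_mod_cast hn0.ne'
      have e2 : (1 - ((χ : ℝ) : ℂ) * alE A B p 0 / ((√((p : ℕ) : ℝ) : ℝ) : ℂ)) *
          (1 - ((χ : ℝ) : ℂ) * alE A B p 1 / ((√((p : ℕ) : ℝ) : ℝ) : ℂ)) =
          (((((p : ℕ) : ℝ) + χ * τ + 1) / ((p : ℕ) : ℝ) : ℝ) : ℂ) := by
        rw [hal, hal]
        have a1 : (1 - ((χ : ℝ) : ℂ) * rt t 0 / ((√((p : ℕ) : ℝ) : ℝ) : ℂ)) *
            (1 - ((χ : ℝ) : ℂ) * rt t 1 / ((√((p : ℕ) : ℝ) : ℝ) : ℂ)) =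
            1 - (χ : ℂ) * (rt t 0 + rt t 1) / ((√((p : ℕ) : ℝ) : ℝ) : ℂ) +
            ((χ ^ 2 : ℝ) : ℂ) * (rt t 0 * rt t 1) / (((√((p : ℕ) : ℝ) : ℝ) : ℂ)) ^ 2 := by
          push_cast
          field_simp
          ring
        rw [a1, rtE_sum, rtE_mul habs, hχ2, h2c]
        have a2 : τ = -(2 * t * √((p : ℕ) : ℝ)) := by linarith
        rw [a2]
        push_cast
        have h2c' : ((√((p : ℕ) : ℝ) : ℝ) : ℂ) ^ 2 = ((p : ℕ) : ℂ) := by
          rw [h2c]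
          push_cast
          rfl
        have hpc' : ((p : ℕ) : ℂ) ≠ 0 := by exact_mod_cast hn0.ne'
        rw [← h2c']
        field_simp
        ring
      rw [e1, e2, Complex.norm_real, Real.norm_eq_abs, Real.log_abs]
  · rw [if_pos ((NE_dvd A B p).2 h)]
    unfold ff
    rw [if_pos]
    rw [e6]
    have : (6 : ZMod p) * (4 * (A : ZMod p) ^ 3 + 27 * (B : ZMod p) ^ 2) = 0 := not_not.1 h
    rw [this, zero_mul]

open Classical in
/-- the Euler factors of the squares -/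
theorem fac_alE (A B : ℤ) (s : ℂ) (p : Nat.Primes) : ∏ i, (1 - alE A B p i ^ 2 * ((p : ℕ) : ℂ) ^ (-s))⁻¹ =
    if GoodQ A B p then (1 - ((((p : ℕ) : ℂ) - ptsQ A B p) ^ 2 / (p : ℕ) - 2) * ((p : ℕ) : ℂ) ^ (-s) +
      ((p : ℕ) : ℂ) ^ (-(2 * s)))⁻¹ else 1 := by
  have hn0 : (0 : ℝ) < (p : ℕ) := by exact_mod_cast p.2.pos
  have h1 : 0 < √((p : ℕ) : ℝ) := Real.sqrt_pos.2 hn0
  have h1c : ((√((p : ℕ) : ℝ) : ℝ) : ℂ) ≠ 0 := by exact_mod_cast h1.ne'
  have hnc : ((p : ℕ) : ℂ) ≠ 0 := by exact_mod_cast hn0.ne'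
  have h2 : ((√((p : ℕ) : ℝ) : ℝ) : ℂ) ^ 2 = ((p : ℕ) : ℂ) := by
    rw [← Complex.ofReal_pow, Real.sq_sqrt hn0.le]
    push_cast
    rfl
  by_cases h : GoodQ A B p
  · rw [if_pos h, Fin.prod_univ_two, ← mul_inv]
    congr 1
    set x : ℂ := ((p : ℕ) : ℂ) ^ (-s) with hx
    have hal : ∀ i, alE A B p i = rt (trQ A B p) i := fun i => by
      unfold alE
      rw [if_pos h]
    have e1 : ((p : ℕ) : ℂ) ^ (-(2 * s)) = x ^ 2 := by
      rw [hx, ← Complex.cpow_nat_mul]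
      congr 1
      push_cast
      ring
    rw [hal, hal, e1]
    have p1 := rtE_sum (trQ A B p)
    have p2 := rtE_mul (trQ_abs p.2 h)
    have e4 : 2 * (trQ A B p : ℂ) * ((√((p : ℕ) : ℝ) : ℝ) : ℂ) = ((p : ℕ) : ℂ) - ptsQ A B p := by
      unfold trQ
      push_cast
      field_simp
    have e5 : (((p : ℕ) : ℂ) - ptsQ A B p) ^ 2 / (p : ℕ) = (2 * (trQ A B p : ℂ)) ^ 2 := by
      rw [← e4, mul_pow, h2]
      field_simp
    rw [e5, ← p1]
    have e6 : (1 - rt (trQ A B p) 0 ^ 2 * x) * (1 - rt (trQ A B p) 1 ^ 2 * x) =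
        1 - ((rt (trQ A B p) 0 + rt (trQ A B p) 1) ^ 2 - 2 * (rt (trQ A B p) 0 * rt (trQ A B p) 1)) * x +
          (rt (trQ A B p) 0 * rt (trQ A B p) 1) ^ 2 * x ^ 2 := by ring
    rw [e6, p2]
    ring
  · rw [if_neg h]
    unfold alE
    simp [h]

end Pool.Agent.X278.AV
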