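import Pool.Agent.X278.AV.Gau3

/-!
# The Gaussian law for families; families of minimal points
-/

set_option autoImplicit false

namespace Pool.Agent.X278.AV

open Finset Filter Topology ProbabilityTheory
open scoped NNReal

open Classical in
/-- **the Gaussian law** -/
theorem Fn.gauss {ι : Type} {F : ℕ → Finset ι} {f : Nat.Primes → ι → ℝ} {E : Nat.Primes → (ℝ → ℂ) → ℂ} {B κ C : ℝ}
    {ν : ℝ≥0} (D : Fn F f E B κ ν C) (hν : ν ≠ 0) (γ v ε : ℝ) (hε : 0 < ε) :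
    ∀ᶠ T : ℝ in atTop, ∀ᶠ X : ℕ in atTop,
      |(((F X).filter fun i => (Sm f γ T i - κ * Real.log T) / √(Real.log T) ≤ v).card : ℝ) / (F X).card -
        (gaussianReal 0 ν).real (Set.Iic v)| < ε := by
  have h1 := gauss_of_exp (𝓕 := (atTop : Filter ℝ).curry (atTop : Filter ℕ)) (G := fun n => F n.2)
    (Y := fun n => Yn f γ κ n) hν (by
      rw [Filter.eventually_curry_iff]
      exact Eventually.of_forall fun _ => D.ne) (fun ζ => D.curry γ ζ) v
  have h2 := (Metric.tendsto_nhds.1 h1) ε hε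
  rw [Filter.eventually_curry_iff] at h2
  filter_upwards [h2] with T hT
  filter_upwards [hT] with X hX
  rw [Real.dist_eq] at hX
  exact hX

variable {k : ℕ} {e : Fin k → ℕ} {a : ℕ → Fin k → ℕ} {Z : (Fin k → ℤ) → Prop}

theorem ExC_real (s : ℕ) (p : Nat.Primes) (g : (Fin k → ZMod p) → ℝ) :
    ExC s (p : ℕ) (fun r => ((g r : ℝ) : ℂ)) = ((Ex s (p : ℕ) g : ℝ) : ℂ) := by
  unfold ExC Ex avg
  push_cast
  rfl

/-- **families of minimal points** -/
theorem Fn_fam (D : Data k e a Z) {f : (p : Nat.Primes) → (Fin k → ZMod p) → ℝ} (h0 : ∀ p, f p 0 = 0) {B : ℝ}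
    (hB : 0 ≤ B) (hf : ∀ p r, |f p r| ≤ B / √((p : ℕ) : ℝ)) {κ ν C : ℝ}
    (h1 : ∀ p : Nat.Primes, |Ex (∑ j, e j) (p : ℕ) (f p) - κ / (p : ℕ)| ≤ C / (√((p : ℕ) : ℝ) * (p : ℕ)))
    (h2 : ∀ p : Nat.Primes, |Ex (∑ j, e j) (p : ℕ) (fun r => f p r ^ 2) - ν / (p : ℕ)| ≤ C / (√((p : ℕ) : ℝ) * (p : ℕ))) :
    Fn (fun X => Fam e Z (a X)) (fun p x => f p (red p x))
      (fun p h => ExC (∑ j, e j) (p : ℕ) (fun r => h (f p r))) B κ ν C where
  ne := fam_ne D
  B0 := hB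
  size := fun p x => hf p _
  fin := fun h hh I => by
    obtain ⟨P, hP, G, k2, k3, k4, k5⟩ := Fam_many e D.he (∑ j, e j) (fun p r => h p (f p r)) (fun p => by
      simp only [h0, hh]) I
    have h3 := mean_limC D G k3
    rw [k5] at h3
    refine h3.congr fun X => ?_
    unfold meanC
    congr 1
    exact Finset.sum_congr rfl fun x _ => k4 x
  ex1 := fun p => by
    rw [ExC_real]
    have e1 : ((Ex (∑ j, e j) (p : ℕ) (f p) : ℝ) : ℂ) - κ / (p : ℕ) =
        ((Ex (∑ j, e j) (p : ℕ) (f p) - κ / (p : ℕ) : ℝ) : ℂ) := by push_cast; rfl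
    rw [e1, Complex.norm_real, Real.norm_eq_abs]
    exact h1 p
  ex2 := fun p => by
    have e0 : (fun r => ((f p r : ℝ) : ℂ) ^ 2) = fun r => ((f p r ^ 2 : ℝ) : ℂ) := by
      funext r
      push_cast
      rfl
    rw [e0, ExC_real]
    have e1 : ((Ex (∑ j, e j) (p : ℕ) (fun r => f p r ^ 2) : ℝ) : ℂ) - ν / (p : ℕ) =
        ((Ex (∑ j, e j) (p : ℕ) (fun r => f p r ^ 2) - ν / (p : ℕ) : ℝ) : ℂ) := by push_cast; rfl
    rw [e1, Complex.norm_real, Real.norm_eq_abs]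
    exact h2 p

end Pool.Agent.X278.AV
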