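import Pool.Agent.X278.AV.Den

/-!
# Means of series over a family
-/

set_option autoImplicit false

namespace Pool.Agent.X278.AV

open Finset Filter Topology

variable {ι P : Type}

/-- the mean of a complex function over a finite set -/
noncomputable def meanC (F : Finset ι) (f : ι → ℂ) : ℂ := (∑ i ∈ F, f i) / F.card

/-- hypotheses on the local functions -/
structure Loc (F : ℕ → Finset ι) (f : P → ι → ℝ) (B e : P → ℝ) : Prop where
  bd : ∀ p, ∀ X, ∀ i ∈ F X, |f p i| ≤ B p
  one : ∀ p, Tendsto (fun X => mean (F X) (f p)) atTop (𝓝 (e p))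
  two : ∀ p q, p ≠ q → Tendsto (fun X => mean (F X) (fun i => f p i * f q i)) atTop (𝓝 (e p * e q))
  ne : ∀ᶠ X in atTop, (F X).Nonempty

variable {F : ℕ → Finset ι} {f : P → ι → ℝ} {B e : P → ℝ}

theorem mean_abs_le {G : Finset ι} {g : ι → ℝ} {b : ℝ} (hb : 0 ≤ b) (h : ∀ i ∈ G, |g i| ≤ b) : |mean G g| ≤ b := by
  unfold mean
  rcases Finset.eq_empty_or_nonempty G with rfl | hG
  · simpa using hb
  have h1 : (0 : ℝ) < G.card := by exact_mod_cast hG.card_pos
  rw [abs_div, abs_of_pos h1, div_le_iff₀ h1]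
  calc |∑ i ∈ G, g i| ≤ ∑ i ∈ G, |g i| := Finset.abs_sum_le_sum_abs _ _
    _ ≤ ∑ _i ∈ G, b := Finset.sum_le_sum h
    _ = b * G.card := by rw [Finset.sum_const, nsmul_eq_mul, mul_comm]

theorem Loc.B_nonneg (L : Loc F f B e) (p : P) : 0 ≤ B p := by
  obtain ⟨X, ⟨i, hi⟩⟩ := L.ne.exists
  exact (abs_nonneg _).trans (L.bd p X i hi)

theorem Loc.e_le (L : Loc F f B e) (p : P) : |e p| ≤ B p :=
  le_of_tendsto ((L.one p).abs) (Eventually.of_forall fun X => mean_abs_le (L.B_nonneg p) (L.bd p X))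

/-- **the mean of the series** -/
theorem Loc.first (L : Loc F f B e) {w : P → ℂ} (hs : Summable fun p => B p * ‖w p‖) :
    Tendsto (fun X => meanC (F X) (fun i => ∑' p, (f p i : ℂ) * w p)) atTop (𝓝 (∑' p, (e p : ℂ) * w p)) := by
  have h1 : ∀ X, meanC (F X) (fun i => ∑' p, (f p i : ℂ) * w p) = ∑' p, (mean (F X) (f p) : ℂ) * w p := by
    intro X
    unfold meanC mean
    rw [← Summable.tsum_finsetSum, ← tsum_div_const]
    · refine tsum_congr fun p => ?_
      push_cast
      rw [← Finset.sum_mul]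
      ring
    · intro i hi
      refine Summable.of_norm_bounded hs fun p => ?_
      rw [norm_mul, Complex.norm_real, Real.norm_eq_abs]
      gcongr
      exact L.bd p X i hi
  simp only [h1]
  refine tendsto_tsum_of_dominated_convergence hs (fun p => ?_) (Eventually.of_forall fun X p => ?_)
  · exact ((Complex.continuous_ofReal.tendsto _).comp (L.one p)).mul_const _
  · rw [norm_mul, Complex.norm_real, Real.norm_eq_abs]
    gcongr
    exact mean_abs_le (L.B_nonneg p) (L.bd p X)

theorem Loc.summable (L : Loc F f B e) {w : P → ℂ} (hs : Summable fun p => B p * ‖w p‖) {X : ℕ} {i : ι}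
    (hi : i ∈ F X) : Summable fun p => ‖(f p i : ℂ) * w p‖ := by
  refine Summable.of_nonneg_of_le (fun _ => norm_nonneg _) (fun p => ?_) hs
  rw [norm_mul, Complex.norm_real, Real.norm_eq_abs]
  gcongr
  exact L.bd p X i hi

theorem Loc.e_summable (L : Loc F f B e) {w : P → ℂ} (hs : Summable fun p => B p * ‖w p‖) :
    Summable fun p => ‖(e p : ℂ) * w p‖ := by
  refine Summable.of_nonneg_of_le (fun _ => norm_nonneg _) (fun p => ?_) hs
  rw [norm_mul, Complex.norm_real, Real.norm_eq_abs]
  gcongr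
  exact L.e_le p

/-- **the mean square deviation** -/
theorem Loc.second (L : Loc F f B e) {w : P → ℂ} (hs : Summable fun p => B p * ‖w p‖) {ε : ℝ} (hε : 0 < ε) :
    ∀ᶠ X in atTop, mean (F X) (fun i => ‖∑' p, (f p i : ℂ) * w p - ∑' p, (e p : ℂ) * w p‖ ^ 2) ≤
      4 * ∑' p, (B p * ‖w p‖) ^ 2 + ε := by
  classical
  set g : P → ι → ℝ := fun p i => f p i - e p with hg
  have hgb : ∀ p X, ∀ i ∈ F X, |g p i| ≤ 2 * B p := by
    intro p X i hi
    have h1 := L.bd p X i hi
    have h2 := L.e_le p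
    have := abs_sub (f p i) (e p)
    rw [hg]
    simp only
    linarith
  -- the correlations
  have hcor : ∀ p q, p ≠ q → Tendsto (fun X => mean (F X) (fun i => g p i * g q i)) atTop (𝓝 0) := by
    intro p q hpq
    have h1 := ((L.two p q hpq).sub ((L.one p).mul_const (e q))).sub ((L.one q).const_mul (e p))
    have h2 := h1.add_const (e p * e q)
    have e1 : e p * e q - e p * e q - e p * e q + e p * e q = 0 := by ring
    rw [e1] at h2
    refine h2.congr' ?_
    filter_upwards [L.ne] with X hX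
    have hc : ((F X).card : ℝ) ≠ 0 := by
      have := hX.card_pos
      exact_mod_cast this.ne'
    unfold mean
    have e2 : ∑ i ∈ F X, g p i * g q i = ∑ i ∈ F X, f p i * f q i - (∑ i ∈ F X, f p i) * e q -
        e p * (∑ i ∈ F X, f q i) + (F X).card * (e p * e q) := by
      rw [Finset.sum_mul, Finset.mul_sum, ← nsmul_eq_mul, ← Finset.sum_const, ← Finset.sum_sub_distrib,
        ← Finset.sum_sub_distrib, ← Finset.sum_add_distrib]
      exact Finset.sum_congr rfl fun i _ => by rw [hg]; ring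
    rw [e2]
    field_simp
  have hs2 : Summable fun p => B p * ‖w p‖ := hs
  have hBw0 : ∀ p, 0 ≤ B p * ‖w p‖ := fun p => mul_nonneg (L.B_nonneg p) (norm_nonneg _)
  have hprod : Summable fun x : P × P => (B x.1 * ‖w x.1‖) * (B x.2 * ‖w x.2‖) :=
    hs.mul_of_nonneg hs hBw0 hBw0
  -- off the diagonal
  have hoff : Tendsto (fun X => ∑' x : P × P, (if x.1 = x.2 then (0 : ℂ) else
      (mean (F X) (fun i => g x.1 i * g x.2 i) : ℂ) * (w x.1 * (starRingEnd ℂ) (w x.2)))) atTop (𝓝 0) := by
    rw [show 𝓝 (0 : ℂ) = 𝓝 (∑' _x : P × P, (0 : ℂ)) by simp]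
    refine tendsto_tsum_of_dominated_convergence (hprod.mul_left 4) (fun x => ?_)
      (Eventually.of_forall fun X x => ?_)
    · by_cases hx : x.1 = x.2
      · simp only [if_pos hx]
        exact tendsto_const_nhds
      · simp only [if_neg hx]
        have h1 := ((Complex.continuous_ofReal.tendsto _).comp (hcor x.1 x.2 hx)).mul_const
          (w x.1 * (starRingEnd ℂ) (w x.2))
        rwa [Complex.ofReal_zero, zero_mul] at h1
    · by_cases hx : x.1 = x.2
      · rw [if_pos hx, norm_zero]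
        have := mul_nonneg (hBw0 x.1) (hBw0 x.2)
        linarith
      · rw [if_neg hx, norm_mul, norm_mul, Complex.norm_real, Real.norm_eq_abs, RCLike.norm_conj]
        have h1 : |mean (F X) (fun i => g x.1 i * g x.2 i)| ≤ (2 * B x.1) * (2 * B x.2) := by
          have b1 := L.B_nonneg x.1
          have b2 := L.B_nonneg x.2
          refine mean_abs_le (by positivity) fun i hi => ?_
          rw [abs_mul]
          exact mul_le_mul (hgb _ X i hi) (hgb _ X i hi) (abs_nonneg _) (by positivity)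
        calc _ ≤ ((2 * B x.1) * (2 * B x.2)) * (‖w x.1‖ * ‖w x.2‖) := by gcongr
          _ = _ := by ring
  have hoff2 := (hoff.norm)
  rw [norm_zero] at hoff2
  filter_upwards [hoff2.eventually_lt_const hε, L.ne] with X hX hne
  -- the identity
  have hc : (0 : ℝ) < (F X).card := by exact_mod_cast hne.card_pos
  have hgs : ∀ i ∈ F X, Summable fun p => ‖(g p i : ℂ) * w p‖ := by
    intro i hi
    refine Summable.of_nonneg_of_le (fun _ => norm_nonneg _) (fun p => ?_) (hs.mul_left 2)
    rw [norm_mul, Complex.norm_real, Real.norm_eq_abs]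
    calc _ ≤ (2 * B p) * ‖w p‖ := by gcongr; exact hgb p X i hi
      _ = _ := by ring
  have hD : ∀ i ∈ F X, ∑' p, (f p i : ℂ) * w p - ∑' p, (e p : ℂ) * w p = ∑' p, (g p i : ℂ) * w p := by
    intro i hi
    rw [← (L.summable hs hi).of_norm.tsum_sub (L.e_summable hs).of_norm]
    refine tsum_congr fun p => ?_
    rw [hg]
    push_cast
    ring
  have hsq : ∀ i ∈ F X, ((‖∑' p, (f p i : ℂ) * w p - ∑' p, (e p : ℂ) * w p‖ ^ 2 : ℝ) : ℂ) =
      ∑' x : P × P, ((g x.1 i * g x.2 i : ℝ) : ℂ) * (w x.1 * (starRingEnd ℂ) (w x.2)) := by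
    intro i hi
    rw [hD i hi, ← Complex.normSq_eq_norm_sq, ← Complex.mul_conj, Complex.conj_tsum]
    rw [tsum_mul_tsum_of_summable_norm (hgs i hi) (by
      refine (hgs i hi).congr fun p => ?_
      rw [RCLike.norm_conj])]
    refine tsum_congr fun x => ?_
    rw [map_mul, Complex.conj_ofReal]
    push_cast
    ring
  have hsum : ∀ i ∈ F X, Summable fun x : P × P => ((g x.1 i * g x.2 i : ℝ) : ℂ) *
      (w x.1 * (starRingEnd ℂ) (w x.2)) := by
    intro i hi
    refine Summable.of_norm_bounded (hprod.mul_left 4) fun x => ?_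
    rw [norm_mul, norm_mul, Complex.norm_real, Real.norm_eq_abs, RCLike.norm_conj, abs_mul]
    have b1 := L.B_nonneg x.1
    have b2 := L.B_nonneg x.2
    calc _ ≤ ((2 * B x.1) * (2 * B x.2)) * (‖w x.1‖ * ‖w x.2‖) := by
          gcongr
          · exact hgb _ X i hi
          · exact hgb _ X i hi
      _ = _ := by ring
  have hM : ((mean (F X) (fun i => ‖∑' p, (f p i : ℂ) * w p - ∑' p, (e p : ℂ) * w p‖ ^ 2) : ℝ) : ℂ) =
      ∑' x : P × P, (mean (F X) (fun i => g x.1 i * g x.2 i) : ℂ) * (w x.1 * (starRingEnd ℂ) (w x.2)) := by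
    unfold mean
    push_cast
    have h1 : ∑ i ∈ F X, ((‖∑' p, (f p i : ℂ) * w p - ∑' p, (e p : ℂ) * w p‖ : ℝ) : ℂ) ^ 2 =
        ∑ i ∈ F X, ∑' x : P × P, ((g x.1 i * g x.2 i : ℝ) : ℂ) * (w x.1 * (starRingEnd ℂ) (w x.2)) := by
      refine Finset.sum_congr rfl fun i hi => ?_
      rw [← hsq i hi]
      push_cast
      rfl
    rw [h1, ← Summable.tsum_finsetSum hsum, ← tsum_div_const]
    refine tsum_congr fun x => ?_
    rw [Finset.sum_div, Finset.sum_div, Finset.sum_mul]
    refine Finset.sum_congr rfl fun i _ => ?_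
    push_cast
    ring
  have hMs : Summable fun x : P × P => (mean (F X) (fun i => g x.1 i * g x.2 i) : ℂ) *
      (w x.1 * (starRingEnd ℂ) (w x.2)) := by
    refine Summable.of_norm_bounded (hprod.mul_left 4) fun x => ?_
    rw [norm_mul, norm_mul, Complex.norm_real, Real.norm_eq_abs, RCLike.norm_conj]
    have b1 := L.B_nonneg x.1
    have b2 := L.B_nonneg x.2
    have h1 : |mean (F X) (fun i => g x.1 i * g x.2 i)| ≤ (2 * B x.1) * (2 * B x.2) := by
      refine mean_abs_le (by positivity) fun i hi => ?_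
      rw [abs_mul]
      exact mul_le_mul (hgb _ X i hi) (hgb _ X i hi) (abs_nonneg _) (by positivity)
    calc _ ≤ ((2 * B x.1) * (2 * B x.2)) * (‖w x.1‖ * ‖w x.2‖) := by gcongr
      _ = _ := by ring
  set G : P × P → ℂ := fun x => (mean (F X) (fun i => g x.1 i * g x.2 i) : ℂ) *
      (w x.1 * (starRingEnd ℂ) (w x.2)) with hG
  have hG1 : Summable fun x : P × P => if x.1 = x.2 then (0 : ℂ) else G x := by
    refine Summable.of_norm_bounded hMs.norm fun x => ?_
    by_cases hx : x.1 = x.2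
    · rw [if_pos hx, norm_zero]; exact norm_nonneg _
    · rw [if_neg hx]
  have hG2 : Summable fun x : P × P => if x.1 = x.2 then G x else (0 : ℂ) := by
    refine Summable.of_norm_bounded hMs.norm fun x => ?_
    by_cases hx : x.1 = x.2
    · rw [if_pos hx]
    · rw [if_neg hx, norm_zero]; exact norm_nonneg _
  have hsplit : ∑' x, G x = ∑' x : P × P, (if x.1 = x.2 then (0 : ℂ) else G x) +
      ∑' x : P × P, (if x.1 = x.2 then G x else (0 : ℂ)) := by
    rw [← hG1.tsum_add hG2]
    refine tsum_congr fun x => ?_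
    by_cases hx : x.1 = x.2
    · rw [if_pos hx, if_pos hx, zero_add]
    · rw [if_neg hx, if_neg hx, add_zero]
  have hsqs : Summable fun p => (B p * ‖w p‖) ^ 2 := by
    have h1 := hprod.comp_injective (i := fun p : P => (p, p)) (fun a b h => by simpa using h)
    refine h1.congr fun p => ?_
    simp only [Function.comp_apply]
    ring
  have hdiag : ‖∑' x : P × P, (if x.1 = x.2 then G x else (0 : ℂ))‖ ≤ 4 * ∑' p, (B p * ‖w p‖) ^ 2 := by
    rw [hG2.tsum_prod' (fun p => hG2.prod_factor p)]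
    have h1 : ∀ p, ∑' q, (if p = q then G (p, q) else (0 : ℂ)) = G (p, p) := by
      intro p
      rw [tsum_eq_single p (fun q hq => if_neg (Ne.symm hq)), if_pos rfl]
    simp only [h1]
    rw [← tsum_mul_left]
    refine tsum_of_norm_bounded (hsqs.mul_left 4).hasSum fun p => ?_
    rw [hG]
    simp only
    rw [norm_mul, norm_mul, Complex.norm_real, Real.norm_eq_abs, RCLike.norm_conj]
    have b1 := L.B_nonneg p
    have h2 : |mean (F X) (fun i => g p i * g p i)| ≤ (2 * B p) * (2 * B p) := by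
      refine mean_abs_le (by positivity) fun i hi => ?_
      rw [abs_mul]
      exact mul_le_mul (hgb _ X i hi) (hgb _ X i hi) (abs_nonneg _) (by positivity)
    calc _ ≤ ((2 * B p) * (2 * B p)) * (‖w p‖ * ‖w p‖) := by gcongr
      _ = _ := by ring
  have hnn : 0 ≤ mean (F X) (fun i => ‖∑' p, (f p i : ℂ) * w p - ∑' p, (e p : ℂ) * w p‖ ^ 2) := by
    unfold mean
    positivity
  have hnorm : mean (F X) (fun i => ‖∑' p, (f p i : ℂ) * w p - ∑' p, (e p : ℂ) * w p‖ ^ 2) =
      ‖∑' x, G x‖ := by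
    rw [← hM, Complex.norm_real, Real.norm_eq_abs, abs_of_nonneg hnn]
  rw [hnorm, hsplit]
  refine (norm_add_le _ _).trans ?_
  linarith

end Pool.Agent.X278.AV
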