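import Pool.Agent.X278.AV.Gen2

/-!
# The complex conjugate of a system
-/

set_option autoImplicit false

namespace Pool.Agent.X278.AV

open Complex Filter Topology Set Asymptotics ComplexConjugate
open Pool.Agent.X287.CR Pool.Agent.X278.OP
open Pool.Agent.W187.UR (Lam)

variable {X : Type} {d : ℕ} {θ : ℝ} {q : X → ℕ} {α : X → Fin d → ℂ}

/-- the conjugate system -/
noncomputable def cj (α : X → Fin d → ℂ) : X → Fin d → ℂ := fun v i => conj (α v i)

theorem cj_sys (G : CSys θ q α) : CSys θ q (cj α) where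
  cnt := G.cnt
  two_le := G.two_le
  sum := G.sum
  le := fun v i => by
    unfold cj
    rw [RCLike.norm_conj]
    exact G.le v i

/-- the conjugate function -/
noncomputable def Fs (F : ℂ → ℂ) : ℂ → ℂ := fun s => conj (F (conj s))

theorem conj_cpow_nat (n : ℕ) (s : ℂ) : conj ((n : ℂ) ^ s) = (n : ℂ) ^ (conj s) := by
  have h : ((n : ℕ) : ℂ).arg ≠ Real.pi := by
    rw [Complex.natCast_arg]
    exact Real.pi_pos.ne
  rw [Complex.cpow_conj _ _ h, Complex.conj_natCast]

theorem fac_cj (s : ℂ) (v : X) : Pool.Agent.X287.CR.fac q (cj α) s v = conj (Pool.Agent.X287.CR.fac q α (conj s) v) := by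
  unfold Pool.Agent.X287.CR.fac cj
  rw [map_prod]
  refine Finset.prod_congr rfl fun i _ => ?_
  rw [map_inv₀, map_sub, map_one, map_mul, conj_cpow_nat, map_neg, Complex.conj_conj]

theorem hasProd_cj {F : ℂ → ℂ} {a : ℝ} (hF : ∀ s : ℂ, a < s.re → HasProd (Pool.Agent.X287.CR.fac q α s) (F s)) (s : ℂ) (hs : a < s.re) :
    HasProd (Pool.Agent.X287.CR.fac q (cj α) s) (Fs F s) := by
  have h1 := hF (conj s) (by simpa using hs)
  have h2 := h1.map (starRingEnd ℂ) Complex.continuous_conj
  have e1 : (⇑(starRingEnd ℂ) ∘ Pool.Agent.X287.CR.fac q α (conj s)) = Pool.Agent.X287.CR.fac q (cj α) s := by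
    funext v
    exact (fac_cj s v).symm
  rw [e1] at h2
  exact h2

theorem analyticAt_Fs {F : ℂ → ℂ} {x : ℝ} (h : AnalyticAt ℂ F x) : AnalyticAt ℂ (Fs F) x := by
  rw [Complex.analyticAt_iff_eventually_differentiableAt] at h ⊢
  have h1 : Tendsto (fun z : ℂ => conj z) (𝓝 (x : ℂ)) (𝓝 (x : ℂ)) := by
    have := Complex.continuous_conj.tendsto (x : ℂ)
    rwa [Complex.conj_ofReal] at this
  filter_upwards [h1.eventually h] with z hz
  have h2 := hz.conj_conj
  rw [Complex.conj_conj] at h2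
  exact h2

theorem mero_Fs {F : ℂ → ℂ} {x : ℝ} (h : MeromorphicAt F x) :
    MeromorphicAt (Fs F) x ∧ ∀ m : ℤ, meromorphicOrderAt F x = m → meromorphicOrderAt (Fs F) x = m := by
  have hc : Tendsto (fun z : ℂ => conj z) (𝓝[≠] (x : ℂ)) (𝓝[≠] (x : ℂ)) := by
    refine tendsto_nhdsWithin_of_tendsto_nhds_of_eventually_within _ ?_ ?_
    · have := (Complex.continuous_conj.tendsto (x : ℂ)).mono_left (nhdsWithin_le_nhds (s := {(x : ℂ)}ᶜ))
      rwa [Complex.conj_ofReal] at this
    · filter_upwards [self_mem_nhdsWithin] with z hz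
      intro h1
      apply hz
      have h2 : conj z = (x : ℂ) := h1
      have h3 := congrArg conj h2
      rw [Complex.conj_conj, Complex.conj_ofReal] at h3
      exact h3
  constructor
  · obtain ⟨n, hn⟩ := h
    refine ⟨n, ?_⟩
    have h1 := analyticAt_Fs (F := fun z : ℂ => (z - x) ^ n • F z) hn
    have e1 : (Fs fun z : ℂ => (z - x) ^ n • F z) = fun z : ℂ => (z - x) ^ n • Fs F z := by
      funext z
      unfold Fs
      simp only [smul_eq_mul]
      rw [map_mul, map_pow, map_sub, Complex.conj_conj, Complex.conj_ofReal]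
    rw [e1] at h1
    exact h1
  · intro m hm
    obtain ⟨g, hg1, hg2, hg3⟩ := (meromorphicOrderAt_eq_int_iff h).1 hm
    have hmer : MeromorphicAt (Fs F) x := by
      obtain ⟨n, hn⟩ := h
      refine ⟨n, ?_⟩
      have h1 := analyticAt_Fs (F := fun z : ℂ => (z - x) ^ n • F z) hn
      have e1 : (Fs fun z : ℂ => (z - x) ^ n • F z) = fun z : ℂ => (z - x) ^ n • Fs F z := by
        funext z
        unfold Fs
        simp only [smul_eq_mul]
        rw [map_mul, map_pow, map_sub, Complex.conj_conj, Complex.conj_ofReal]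
      rw [e1] at h1
      exact h1
    refine (meromorphicOrderAt_eq_int_iff hmer).2 ⟨Fs g, analyticAt_Fs hg1, ?_, ?_⟩
    · unfold Fs
      rw [Complex.conj_ofReal]
      exact (map_ne_zero _).2 hg2
    · filter_upwards [hc.eventually hg3] with z hz
      unfold Fs
      rw [hz, smul_eq_mul, smul_eq_mul, map_mul, map_zpow₀, map_sub, Complex.conj_conj, Complex.conj_ofReal]

theorem cc_cj (s₀ : ℝ) (x : X × ℕ) : cc q (cj α) s₀ x = conj (cc q α s₀ x) := by
  unfold cc cj
  rw [map_div₀, map_mul, map_sum]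
  have e1 : conj (exp (-((s₀ : ℂ) * (lam q x : ℝ)))) = exp (-((s₀ : ℂ) * (lam q x : ℝ))) := by
    rw [← Complex.exp_conj, map_neg, map_mul, Complex.conj_ofReal, Complex.conj_ofReal]
  rw [e1]
  have e2 : conj (((x.2 : ℕ) : ℂ) + 1) = ((x.2 : ℕ) : ℂ) + 1 := by
    rw [map_add, map_one, Complex.conj_natCast]
  rw [e2]
  congr 2
  exact Finset.sum_congr rfl fun i _ => by rw [map_pow]

theorem lg_cj (s₀ : ℝ) (v : X) : lg q (cj α) s₀ v = conj (lg q α s₀ v) := by
  unfold lg
  rw [Complex.conj_tsum]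
  exact tsum_congr fun k => cc_cj s₀ (v, k)

/-- the real part of a coefficient -/
theorem re_eq (z : ℂ) : ((z.re : ℝ) : ℂ) = (1 / 2) * (z + conj z) := by
  rw [Complex.add_conj]
  push_cast
  ring

end Pool.Agent.X278.AV
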