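import Mathlib

/-!
# The eigenvalues of a matrix of finite order
-/

set_option autoImplicit false

namespace Pool.Agent.X278.AV

open Matrix Polynomial

theorem det_factor {n : ℕ} (M : Matrix (Fin n) (Fin n) ℂ) :
    ∃ μ : Fin n → ℂ, (∀ j, μ j ∈ M.charpoly.roots) ∧ ∀ z : ℂ, (1 - z • M).det = ∏ j, (1 - z * μ j) := by
  have hs : M.charpoly.Splits := IsAlgClosed.splits _
  have hm : M.charpoly.Monic := M.charpoly_monic
  have hc : M.charpoly.roots.card = n := by
    rw [← hs.natDegree_eq_card_roots, M.charpoly_natDegree_eq_dim, Fintype.card_fin]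
  obtain ⟨l, hl⟩ : ∃ l : List ℂ, (l : Multiset ℂ) = M.charpoly.roots := Quot.exists_rep _
  have hln : l.length = n := by
    rw [← Multiset.coe_card, hl, hc]
  have hfac : ∀ w : ℂ, M.charpoly.eval w = ∏ j : Fin n, (w - l.get (Fin.cast hln.symm j)) := by
    intro w
    have h1 := hs.eval_eq_prod_roots_of_monic hm w
    rw [h1, ← hl, Multiset.map_coe, Multiset.prod_coe]
    rw [← List.prod_ofFn]
    congr 1
    apply List.ext_get
    · simp [hln]
    · intro i h1 h2
      simp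
  refine ⟨fun j => l.get (Fin.cast hln.symm j), fun j => ?_, fun z => ?_⟩
  · rw [← hl]
    exact Multiset.mem_coe.2 (List.get_mem _ _)
  · by_cases hz : z = 0
    · simp [hz]
    · have h1 := hfac z⁻¹
      rw [Matrix.eval_charpoly] at h1
      have h2 : (1 - z • M) = z • (Matrix.scalar (Fin n) z⁻¹ - M) := by
        rw [smul_sub]
        congr 1
        ext i j
        simp only [Matrix.smul_apply, Matrix.scalar_apply, Matrix.diagonal_apply, Matrix.one_apply]
        by_cases hij : i = j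
        · simp [hij, hz]
        · simp [hij]
      rw [h2, Matrix.det_smul, h1, Fintype.card_fin]
      have h3 : z ^ n = ∏ _j : Fin n, z := by simp
      rw [h3, ← Finset.prod_mul_distrib]
      refine Finset.prod_congr rfl fun j _ => ?_
      field_simp

theorem root_norm {n k : ℕ} (hk : k ≠ 0) {M : Matrix (Fin n) (Fin n) ℂ} (hM : M ^ k = 1) {μ : ℂ}
    (h : μ ∈ M.charpoly.roots) : ‖μ‖ = 1 := by
  have h1 : M.charpoly.IsRoot μ := Polynomial.isRoot_of_mem_roots h
  have h2 : Module.End.HasEigenvalue (Matrix.toLin' M) μ := by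
    rw [Module.End.hasEigenvalue_iff_isRoot_charpoly]
    rwa [Matrix.charpoly_toLin']
  obtain ⟨v, hv⟩ := h2.exists_hasEigenvector
  have h3 : (Matrix.toLin' M ^ k) v = μ ^ k • v := hv.pow_apply k
  rw [← Matrix.toLin'_pow, hM, Matrix.toLin'_one, LinearMap.id_apply] at h3
  have h4 : μ ^ k = 1 := by
    have h5 : (μ ^ k - 1) • v = 0 := by
      rw [sub_smul, one_smul, ← h3, sub_self]
    rcases smul_eq_zero.1 h5 with h6 | h6
    · exact sub_eq_zero.1 h6
    · exact absurd h6 hv.2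
  exact Complex.norm_eq_one_of_pow_eq_one h4 hk

/-- **the eigenvalues of a matrix of finite order** -/
theorem eigen {n k : ℕ} (hk : k ≠ 0) {M : Matrix (Fin n) (Fin n) ℂ} (hM : M ^ k = 1) :
    ∃ μ : Fin n → ℂ, (∀ j, ‖μ j‖ = 1) ∧ (∀ z : ℂ, (1 - z • M).det = ∏ j, (1 - z * μ j)) ∧
      (∀ z : ℂ, (1 - z • M ^ 2).det = ∏ j, (1 - z * μ j ^ 2)) ∧
      ∀ x y : ℂ, (1 - (x + y) • M + (x * y) • M ^ 2).det = ∏ j, ((1 - x * μ j) * (1 - y * μ j)) := by
  obtain ⟨μ, h1, h2⟩ := det_factor M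
  have h3 : ∀ x y : ℂ, (1 - (x + y) • M + (x * y) • M ^ 2).det = ∏ j, ((1 - x * μ j) * (1 - y * μ j)) := by
    intro x y
    have e1 : (1 - (x + y) • M + (x * y) • M ^ 2) = (1 - x • M) * (1 - y • M) := by
      have e2 : (x • M) * (y • M) = (x * y) • M ^ 2 := by rw [smul_mul_smul_comm, ← sq]
      rw [sub_mul, one_mul, mul_sub, mul_one, e2, add_smul]
      abel
    rw [e1, Matrix.det_mul, h2, h2, ← Finset.prod_mul_distrib]
  refine ⟨μ, fun j => root_norm hk hM (h1 j), h2, fun z => ?_, h3⟩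
  obtain ⟨w, hw⟩ : ∃ w : ℂ, w ^ 2 = z := IsAlgClosed.exists_pow_nat_eq z (by norm_num)
  have h4 := h3 w (-w)
  have e1 : (1 - (w + -w) • M + (w * -w) • M ^ 2) = 1 - z • M ^ 2 := by
    rw [add_neg_cancel, zero_smul, sub_zero, mul_neg, ← sq, hw, neg_smul, sub_eq_add_neg]
  rw [e1] at h4
  rw [h4]
  refine Finset.prod_congr rfl fun j _ => ?_
  rw [← hw]
  ring

end Pool.Agent.X278.AV
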