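import Pool.Agent.X278.AV.LocA
import Pool.Agent.X278.AV.Conj
import Pool.Agent.X278.AV.Mat

/-!
# Elliptic curves by height, twisted by a system of numbers
-/

set_option autoImplicit false

namespace Pool.Agent.X278.AV

open Filter Topology Asymptotics Finset ComplexConjugate
open Pool.Agent.W189.ML Pool.Agent.X287.CR Pool.Agent.X278.OP
open Pool.Agent.W187.UR (Lam)
open Pool.Agent.TH942.ES (rt rt_norm rt_prod rt_log)

variable {n : ℕ}

/-- the local functions -/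
noncomputable def fA (μ : Nat.Primes → Fin n → ℂ) (p : Nat.Primes) (r : Fin 2 → ZMod p) : ℝ :=
  ∑ j, fT (μ p j) (r 0) (r 1)

theorem fA_size {μ : Nat.Primes → Fin n → ℂ} (hμ : ∀ p j, ‖μ p j‖ ≤ 1) (p : Nat.Primes) (r : Fin 2 → ZMod p) :
    |fA μ p r| ≤ (8 * n) / √((p : ℕ) : ℝ) := by
  unfold fA
  refine (Finset.abs_sum_le_sum_abs _ _).trans ?_
  calc ∑ j, |fT (μ p j) (r 0) (r 1)| ≤ ∑ _j : Fin n, 8 / √((p : ℕ) : ℝ) := Finset.sum_le_sum fun j _ => by
        have := fT_size (hμ p j) (r 0) (r 1)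
        rwa [ZMod.card] at this
    _ = _ := by
      rw [Finset.sum_const, Finset.card_univ, Fintype.card_fin, nsmul_eq_mul]
      ring

theorem sysA {μ : Nat.Primes → Fin n → ℂ} (hμ : ∀ p j, ‖μ p j‖ ≤ 1) : Sys0 2 eH abH ZH (fA μ) where
  data := dataH
  zero := fun p => by
    unfold fA fT
    simp
  size := ⟨8 * n, by positivity, fun p r => fA_size hμ p r⟩

theorem avgA (μ : Nat.Primes → Fin n → ℂ) (p : Nat.Primes) :
    avg (fA μ p) = ∑ j, (∑ a : ZMod p, ∑ b : ZMod p, fT (μ p j) a b) / ((p : ℕ) : ℝ) ^ 2 := by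
  unfold avg
  rw [← Finset.sum_div]
  congr 1
  unfold fA
  rw [Finset.sum_comm]
  refine Finset.sum_congr rfl fun j _ => ?_
  rw [← Fintype.sum_prod_type' (fun a b : ZMod p => fT (μ p j) a b)]
  exact Fintype.sum_equiv (finTwoArrowEquiv _) _ _ fun r => rfl

/-- the main term of the means -/
noncomputable def gA (μ : Nat.Primes → Fin n → ℂ) (p : Nat.Primes) : ℝ := ∑ j, (μ p j ^ 2).re / (2 * (p : ℕ))

theorem gA_le {μ : Nat.Primes → Fin n → ℂ} (hμ : ∀ p j, ‖μ p j‖ ≤ 1) (p : Nat.Primes) :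
    |gA μ p| ≤ n / (2 * ((p : ℕ) : ℝ)) := by
  have hp0 : (0 : ℝ) < (p : ℕ) := by exact_mod_cast p.2.pos
  unfold gA
  refine (Finset.abs_sum_le_sum_abs _ _).trans ?_
  calc ∑ j, |(μ p j ^ 2).re / (2 * (p : ℕ))| ≤ ∑ _j : Fin n, 1 / (2 * ((p : ℕ) : ℝ)) :=
        Finset.sum_le_sum fun j _ => by
        rw [abs_div, abs_of_pos (by positivity : (0 : ℝ) < 2 * (p : ℕ))]
        gcongr
        refine (Complex.abs_re_le_norm _).trans ?_
        rw [norm_pow]
        exact pow_le_one₀ (norm_nonneg _) (hμ p j)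
    _ = _ := by
      rw [Finset.sum_const, Finset.card_univ, Fintype.card_fin, nsmul_eq_mul]
      ring

theorem exA {μ : Nat.Primes → Fin n → ℂ} (hμ : ∀ p j, ‖μ p j‖ ≤ 1) (p : Nat.Primes) :
    |Ex (∑ j, eH j) (p : ℕ) (fA μ p) - gA μ p| ≤ (24 * n) / (√((p : ℕ) : ℝ) * (p : ℕ)) := by
  have hp2 : (2 : ℝ) ≤ (p : ℕ) := by exact_mod_cast p.2.two_le
  have hp0 : (0 : ℝ) < (p : ℕ) := by linarith
  have hr0 : 0 < √((p : ℕ) : ℝ) := Real.sqrt_pos.2 hp0
  have h10 : ∑ j, eH j = 10 := by simp [eH]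
  have hg := gA_le hμ p
  have hn : (0 : ℝ) ≤ n := Nat.cast_nonneg n
  by_cases h6 : (6 : ZMod p) = 0
  · have h1 : avg (fA μ p) = 0 := by
      rw [avgA]
      refine Finset.sum_eq_zero fun j _ => ?_
      have h2 : ∀ a b : ZMod p, fT (μ p j) a b = 0 := by
        intro a b
        unfold fT
        rw [if_pos (by rw [h6, zero_mul])]
      simp [h2]
    unfold Ex
    rw [h1, zero_div, zero_sub, abs_neg]
    refine hg.trans ?_
    have hp3 : ((p : ℕ) : ℝ) ≤ 3 := by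
      have h7 : ((6 : ℕ) : ZMod p) = 0 := by push_cast; exact h6
      rw [ZMod.natCast_eq_zero_iff] at h7
      have h8 : (p : ℕ) ∣ 2 * 3 := h7
      rcases (Nat.Prime.dvd_mul p.2).1 h8 with h9 | h9
      · have := Nat.le_of_dvd (by norm_num) h9
        exact_mod_cast this.trans (by norm_num)
      · exact_mod_cast Nat.le_of_dvd (by norm_num) h9
    have hs3 : √((p : ℕ) : ℝ) ≤ 2 := by
      apply Real.sqrt_le_iff.2
      constructor <;> linarith
    rw [div_le_div_iff₀ (by positivity) (by positivity)]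
    have : √((p : ℕ) : ℝ) * (p : ℕ) ≤ 2 * (p : ℕ) := by gcongr
    nlinarith [mul_nonneg hn hp0.le]
  have h1 : |avg (fA μ p) - gA μ p| ≤ (11 * n) / (√((p : ℕ) : ℝ) * (p : ℕ)) := by
    rw [avgA]
    unfold gA
    rw [← Finset.sum_sub_distrib]
    refine (Finset.abs_sum_le_sum_abs _ _).trans ?_
    calc _ ≤ ∑ _j : Fin n, 11 / (√((p : ℕ) : ℝ) * (p : ℕ)) := Finset.sum_le_sum fun j _ => by
          have := fT_mean (k := ZMod p) h6 (hμ p j)
          rwa [ZMod.card] at this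
      _ = _ := by
        rw [Finset.sum_const, Finset.card_univ, Fintype.card_fin, nsmul_eq_mul]
        ring
  set ε : ℝ := (((p : ℕ) : ℝ) ^ 10)⁻¹ with hε
  have hε0 : 0 < ε := by positivity
  have hε1 : ε ≤ 1 / ((p : ℕ) : ℝ) := by
    rw [hε, ← one_div]
    apply one_div_le_one_div_of_le hp0
    have : ((p : ℕ) : ℝ) ^ 1 ≤ ((p : ℕ) : ℝ) ^ 10 := pow_le_pow_right₀ (by linarith) (by norm_num)
    simpa using this
  have hε2 : ε ≤ 1 / 2 := hε1.trans (one_div_le_one_div_of_le (by norm_num) hp2)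
  unfold Ex
  rw [h10, ← hε]
  have e1 : avg (fA μ p) / (1 - ε) - gA μ p = ((avg (fA μ p) - gA μ p) + ε * gA μ p) / (1 - ε) := by
    have : (1 - ε) ≠ 0 := by linarith
    field_simp
    ring
  rw [e1, abs_div, abs_of_pos (by linarith : 0 < 1 - ε), div_le_iff₀ (by linarith)]
  have h2 : |ε * gA μ p| ≤ n / (√((p : ℕ) : ℝ) * (p : ℕ)) := by
    rw [abs_mul, abs_of_pos hε0]
    have h3 : √((p : ℕ) : ℝ) ≤ (p : ℕ) := by
      rw [Real.sqrt_le_left hp0.le]
      nlinarith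
    calc ε * |gA μ p| ≤ (1 / ((p : ℕ) : ℝ)) * (n / (2 * ((p : ℕ) : ℝ))) := by gcongr
      _ ≤ (1 / √((p : ℕ) : ℝ)) * (n / (2 * ((p : ℕ) : ℝ))) := by gcongr
      _ = (n / (√((p : ℕ) : ℝ) * (p : ℕ))) / 2 := by field_simp
      _ ≤ _ := by
        have : 0 ≤ (n : ℝ) / (√((p : ℕ) : ℝ) * (p : ℕ)) := by positivity
        linarith
  have h3 := abs_add_le (avg (fA μ p) - gA μ p) (ε * gA μ p)
  have h4 : (12 * n : ℝ) / (√((p : ℕ) : ℝ) * (p : ℕ)) ≤ (24 * n) / (√((p : ℕ) : ℝ) * (p : ℕ)) * (1 - ε) := by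
    rw [div_mul_eq_mul_div]
    have h12 : 12 * (n : ℝ) ≤ 24 * n * (1 - ε) := by nlinarith
    exact div_le_div_of_nonneg_right h12 (by positivity)
  have h5 : (12 * n : ℝ) / (√((p : ℕ) : ℝ) * (p : ℕ)) = (11 * n) / (√((p : ℕ) : ℝ) * (p : ℕ)) +
      n / (√((p : ℕ) : ℝ) * (p : ℕ)) := by ring
  linarith

/-! ### the law of the means -/

/-- the square system -/
noncomputable def b2 (μ : Nat.Primes → Fin n → ℂ) : Nat.Primes → Fin n → ℂ := fun p j => ((p : ℕ) : ℂ) * μ p j ^ 2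

theorem b2_sys {μ : Nat.Primes → Fin n → ℂ} (hμ : ∀ p j, ‖μ p j‖ ≤ 1) : CSys (2 * (1 / 2)) pq (b2 μ) :=
  q_csys _ fun p i => by
    unfold b2
    rw [norm_mul, norm_pow, Complex.norm_natCast]
    have e : (2 * (1 / 2) : ℝ) = 1 := by norm_num
    rw [e, Real.rpow_one]
    calc ((p : ℕ) : ℝ) * ‖μ p i‖ ^ 2 ≤ ((p : ℕ) : ℝ) * 1 := by
          gcongr
          exact pow_le_one₀ (norm_nonneg _) (hμ p i)
      _ = _ := mul_one _

theorem cc_b2 (μ : Nat.Primes → Fin n → ℂ) (p : Nat.Primes) : cc pq (b2 μ) 2 (p, 0) = ∑ j, μ p j ^ 2 / (p : ℕ) := by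
  have hn0 : (0 : ℝ) < (p : ℕ) := by exact_mod_cast p.2.pos
  have hnc : ((p : ℕ) : ℂ) ≠ 0 := by exact_mod_cast hn0.ne'
  have l2 : lam pq (p, 0) = Real.log (p : ℕ) := by unfold lam pq; simp
  have hx : Complex.exp (-((2 : ℂ) * (Real.log (p : ℕ) : ℝ))) = (((p : ℕ) : ℂ) ^ 2)⁻¹ := by
    rw [Complex.exp_neg]
    congr 1
    have : ((2 : ℂ) * (Real.log (p : ℕ) : ℝ)) = ((2 : ℕ) : ℂ) * (Real.log (p : ℕ) : ℝ) := by push_cast; ring
    rw [this, Complex.exp_nat_mul, ← Complex.ofReal_exp, Real.exp_log hn0]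
    push_cast
    rfl
  unfold cc b2
  rw [l2, hx, Finset.sum_mul, Finset.sum_div]
  refine Finset.sum_congr rfl fun j _ => ?_
  push_cast
  field_simp
  simp

/-- the factor of the squares -/
theorem fac_b2 (μ : Nat.Primes → Fin n → ℂ) (s : ℂ) (p : Nat.Primes) :
    Pool.Agent.X287.CR.fac pq (b2 μ) s p = ∏ j, (1 - ((p : ℕ) : ℂ) ^ (-(s - 1)) * μ p j ^ 2)⁻¹ := by
  have hnc : ((p : ℕ) : ℂ) ≠ 0 := by exact_mod_cast p.2.ne_zero
  unfold Pool.Agent.X287.CR.fac b2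
  refine Finset.prod_congr rfl fun j _ => ?_
  congr 1
  have e1 : ((p : ℕ) : ℂ) ^ (-(s - 1)) = (p : ℕ) * ((p : ℕ) : ℂ) ^ (-s) := by
    rw [neg_sub, sub_eq_add_neg, Complex.cpow_add _ _ hnc, Complex.cpow_one]
  rw [e1]
  have e2 : ((pq p : ℕ) : ℂ) = ((p : ℕ) : ℂ) := rfl
  rw [e2]
  ring

/-- **the law of the means** -/
theorem ascA {μ : Nat.Primes → Fin n → ℂ} (hμ : ∀ p j, ‖μ p j‖ ≤ 1) {Z : ℂ → ℂ}
    (hZ : ∀ s : ℂ, 1 < s.re → HasProd (fun p : Nat.Primes => ∏ j, (1 - ((p : ℕ) : ℂ) ^ (-s) * μ p j ^ 2)⁻¹) (Z s))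
    (hm : MeromorphicAt Z 1) {γ : ℝ} (hγ : Real.pi / 2 < γ) :
    ∃ (ν : ℤ) (C : ℂ), meromorphicOrderAt Z 1 = ((-ν : ℤ) : WithTop ℤ) ∧
      Asc (Lam γ) (AA eH (fA μ) γ) ((ν / 2 : ℝ) : ℂ) C := by
  have G2 := b2_sys hμ
  set F : ℂ → ℂ := fun s => Z (s - 1) with hFd
  have hF : ∀ s : ℂ, 2 < s.re → HasProd (Pool.Agent.X287.CR.fac pq (b2 μ) s) (F s) := by
    intro s hs
    have h1 := hZ (s - 1) (by rw [Complex.sub_re, Complex.one_re]; linarith)
    have e1 : Pool.Agent.X287.CR.fac pq (b2 μ) s =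
        fun p : Nat.Primes => ∏ j, (1 - ((p : ℕ) : ℂ) ^ (-(s - 1)) * μ p j ^ 2)⁻¹ := funext fun p => fac_b2 μ s p
    rw [e1]
    exact h1
  have hmF : MeromorphicAt F 2 := by
    have h2 : MeromorphicAt Z (2 - 1) := by
      have : (2 - 1 : ℂ) = 1 := by norm_num
      rwa [this]
    exact MeromorphicAt.comp_analyticAt (g := fun s : ℂ => s - 1) h2 (by fun_prop)
  have hm2 : MeromorphicAt F ((2 : ℝ) : ℂ) := by simpa using hmF
  have key : ∀ {β : Nat.Primes → Fin n → ℂ} (G : CSys (2 * (1 / 2)) pq β) {L : ℂ → ℂ}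
      (hL : ∀ s : ℂ, 2 < s.re → HasProd (Pool.Agent.X287.CR.fac pq β s) (L s)) (hLm : MeromorphicAt L 2),
      ∃ (m : ℤ) (C : ℂ), meromorphicOrderAt L 2 = m ∧
        Asc (Lam γ) (fun T => ∑' v : Nat.Primes, -cc pq β 2 (v, 0) * Wt γ (Real.log (pq v) / T)) m C := by
    intro β G L hL hLm
    obtain ⟨m, ρ₂, k1, -, k3⟩ := G.law (L := L) (fun s hs => hL s (by linarith)) (s₀ := 2) (by norm_num)
      (fun x hx0 hx1 => by
        have h5 : x = 0 := by
          have : (2 : ℂ).re = 2 := by simp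
          rw [this] at hx1
          linarith
        rw [h5]
        simpa using hLm) hγ
    obtain ⟨C₁, h1⟩ := first_powers G k3
    exact ⟨m, C₁, k1, h1⟩
  obtain ⟨m, C₁, k1, h1⟩ := key G2 hF hmF
  obtain ⟨m', C₂, k1', h1'⟩ := key (cj_sys G2) (L := Fs F) (fun s hs => hasProd_cj hF s hs) (by
    have := (mero_Fs hm2).1
    simpa using this)
  have hmm : m' = m := by
    have h3 := (mero_Fs hm2).2 m (by simpa using k1)
    have h4 : meromorphicOrderAt (Fs F) 2 = m := by simpa using h3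
    rw [k1'] at h4
    exact_mod_cast h4
  subst hmm
  have hord : meromorphicOrderAt Z 1 = (m' : WithTop ℤ) := by
    obtain ⟨g, g1, g2, g3⟩ := (meromorphicOrderAt_eq_int_iff hmF).1 k1
    refine (meromorphicOrderAt_eq_int_iff hm).2 ⟨fun s => g (s + 1), ?_, ?_, ?_⟩
    · have h2 : AnalyticAt ℂ g (1 + 1) := by
        have : (1 + 1 : ℂ) = 2 := by norm_num
        rwa [this]
      exact AnalyticAt.comp (f := fun s : ℂ => s + 1) (x := 1) h2 (by fun_prop)
    · have : (1 + 1 : ℂ) = 2 := by norm_num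
      show g (1 + 1) ≠ 0
      rwa [this]
    · have ht : Tendsto (fun s : ℂ => s + 1) (𝓝[≠] 1) (𝓝[≠] 2) := by
        refine tendsto_nhdsWithin_of_tendsto_nhds_of_eventually_within _ ?_ ?_
        · have h5 : Tendsto (fun s : ℂ => s + 1) (𝓝 1) (𝓝 (1 + 1)) := by
            have : Continuous fun s : ℂ => s + 1 := by fun_prop
            exact this.tendsto 1
          have : (1 + 1 : ℂ) = 2 := by norm_num
          rw [this] at h5
          exact h5.mono_left nhdsWithin_le_nhds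
        · filter_upwards [self_mem_nhdsWithin] with z hz h6
          apply hz
          have h7 : z + 1 = 2 := h6
          have : z = 1 := by linear_combination h7
          exact this
      filter_upwards [ht.eventually g3] with z hz
      have e3 : F (z + 1) = Z z := by
        rw [hFd]
        simp
      rw [e3] at hz
      rw [hz]
      congr 2
      ring
  refine ⟨-m', ?_⟩
  -- half sum
  have s1 : ∀ {β : Nat.Primes → Fin n → ℂ} (G : CSys (2 * (1 / 2)) pq β) (T : ℝ), 0 < T →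
      Summable fun v : Nat.Primes => -cc pq β 2 (v, 0) * Wt γ (Real.log (v : ℕ) / T) := by
    intro β G T hT
    have st : Summable fun x => cc pq β 2 x * Wt γ (lam pq x / T) := by
      have := (G.tm_summable (s₀ := 2) (by norm_num) γ hT).of_norm
      refine this.neg.congr fun x => ?_
      rw [tm_Wt, neg_neg]
    obtain ⟨-, s0, -⟩ := split st
    refine s0.neg.congr fun v => ?_
    have l2 : lam pq (v, 0) = Real.log (v : ℕ) := by unfold lam pq; simp
    rw [l2]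
    ring
  have ecc : ∀ p : Nat.Primes, cc pq (cj (b2 μ)) 2 (p, 0) = conj (cc pq (b2 μ) 2 (p, 0)) := by
    intro p
    have := cc_cj (q := pq) (α := b2 μ) 2 (p, 0)
    simpa using this
  have egA : ∀ p : Nat.Primes, ((gA μ p : ℝ) : ℂ) =
      (-(1 / 4)) * (-cc pq (b2 μ) 2 (p, 0)) + (-(1 / 4)) * (-cc pq (cj (b2 μ)) 2 (p, 0)) := by
    intro p
    rw [ecc]
    have e1 : (gA μ p : ℝ) = (cc pq (b2 μ) 2 (p, 0)).re / 2 := by
      rw [cc_b2, Complex.re_sum]
      unfold gA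
      rw [Finset.sum_div]
      refine Finset.sum_congr rfl fun j _ => ?_
      rw [Complex.div_natCast_re]
      field_simp
    rw [e1]
    push_cast
    rw [re_eq]
    ring
  have h2 := Asc'.add (Asc'.const_mul (-(1 / 4)) h1) (Asc'.const_mul (-(1 / 4)) h1')
  have h3 : Asc (Lam γ) (fun T => ∑' p : Nat.Primes, ((gA μ p : ℝ) : ℂ) * Wt γ (Real.log (p : ℕ) / T))
      (-(1 / 4) * m' + -(1 / 4) * m') (-(1 / 4) * C₁ + -(1 / 4) * C₂) := by
    refine Asc'.congr h2 fun T hT => ?_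
    have t1 := s1 G2 T hT
    have t2 := s1 (cj_sys G2) T hT
    have e4 : ∀ v : Nat.Primes, Real.log (pq v) = Real.log (v : ℕ) := fun v => rfl
    simp only [e4]
    rw [← tsum_mul_left, ← tsum_mul_left, ← (t1.mul_left _).tsum_add (t2.mul_left _)]
    refine tsum_congr fun p => ?_
    rw [egA]
    ring
  obtain ⟨C', h4⟩ := Asc_cmp (e' := fun p => ((Ex (∑ j, eH j) (p : ℕ) (fA μ p) : ℝ) : ℂ)) (C := 24 * n) h3
    (fun T hT => by
      have t1 := s1 G2 T hT
      have t2 := s1 (cj_sys G2) T hT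
      refine ((t1.mul_left (-(1 / 4))).add (t2.mul_left (-(1 / 4)))).congr fun p => ?_
      rw [egA]
      ring) (fun p => by
      rw [← Complex.ofReal_sub, Complex.norm_real, Real.norm_eq_abs]
      exact exA hμ p)
  refine ⟨C', by rw [hord, neg_neg], ?_⟩
  have e1 : (((((-m' : ℤ) : ℝ) / 2 : ℝ)) : ℂ) = -(1 / 4) * m' + -(1 / 4) * m' := by
    push_cast
    ring
  rw [e1]
  exact h4

end Pool.Agent.X278.AV
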