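import Pool.Agent.X278.AV.Art

/-!
# One elliptic curve twisted by a system of numbers
-/

set_option autoImplicit false

namespace Pool.Agent.X278.AV

open Filter Topology Asymptotics Finset ComplexConjugate
open Pool.Agent.W189.ML Pool.Agent.X287.CR Pool.Agent.X278.OP
open Pool.Agent.W187.UR (Lam)
open Pool.Agent.TH942.ES (rt rt_norm rt_prod rt_log)

variable {n : ℕ}

/-- the twisted system -/
noncomputable def tq (A B : ℤ) (μ : Nat.Primes → Fin n → ℂ) : Nat.Primes → Fin (2 * n) → ℂ := fun p i =>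
  qal A B p (finProdFinEquiv.symm i).1 * μ p (finProdFinEquiv.symm i).2

theorem tq_sys (A B : ℤ) {μ : Nat.Primes → Fin n → ℂ} (hμ : ∀ p j, ‖μ p j‖ ≤ 1) : CSys (1 / 2) pq (tq A B μ) where
  cnt := (qal_sys A B).cnt
  two_le := (qal_sys A B).two_le
  sum := (qal_sys A B).sum
  le := fun p i => by
    unfold tq
    rw [norm_mul]
    calc ‖qal A B p (finProdFinEquiv.symm i).1‖ * ‖μ p (finProdFinEquiv.symm i).2‖ ≤
        ‖qal A B p (finProdFinEquiv.symm i).1‖ * 1 := by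
          gcongr
          exact hμ _ _
      _ = ‖qal A B p (finProdFinEquiv.symm i).1‖ := mul_one _
      _ ≤ _ := (qal_sys A B).le p _

theorem prod_tq {M : Type} [CommMonoid M] (g : Fin 2 × Fin n → M) :
    ∏ i : Fin (2 * n), g (finProdFinEquiv.symm i) = ∏ j : Fin n, (g (0, j) * g (1, j)) := by
  rw [Fintype.prod_equiv finProdFinEquiv.symm (fun i => g (finProdFinEquiv.symm i)) g (fun i => rfl),
    Fintype.prod_prod_type, Fin.prod_univ_two, ← Finset.prod_mul_distrib]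

theorem sum_tq {M : Type} [AddCommMonoid M] (g : Fin 2 × Fin n → M) :
    ∑ i : Fin (2 * n), g (finProdFinEquiv.symm i) = ∑ j : Fin n, (g (0, j) + g (1, j)) := by
  rw [Fintype.sum_equiv finProdFinEquiv.symm (fun i => g (finProdFinEquiv.symm i)) g (fun i => rfl),
    Fintype.sum_prod_type, Fin.sum_univ_two, ← Finset.sum_add_distrib]

theorem fac_tq (A B : ℤ) (μ : Nat.Primes → Fin n → ℂ) (s : ℂ) (p : Nat.Primes) :
    Pool.Agent.X287.CR.fac pq (tq A B μ) s p =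
      (∏ j, ((1 - (qal A B p 0 * ((p : ℕ) : ℂ) ^ (-s)) * μ p j) * (1 - (qal A B p 1 * ((p : ℕ) : ℂ) ^ (-s)) * μ p j)))⁻¹ := by
  unfold Pool.Agent.X287.CR.fac tq
  have h1 := prod_tq (n := n) (fun x : Fin 2 × Fin n => (1 - qal A B p x.1 * μ p x.2 * ((pq p : ℕ) : ℂ) ^ (-s))⁻¹)
  rw [h1, ← Finset.prod_inv_distrib]
  refine Finset.prod_congr rfl fun j _ => ?_
  rw [← mul_inv]
  have e2 : ((pq p : ℕ) : ℂ) = ((p : ℕ) : ℂ) := rfl
  rw [e2]
  congr 2 <;> ring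

/-- sums and products of the roots -/
theorem qal_add_mul {A B : ℤ} {p : Nat.Primes} (h : GoodQ A B p) (s : ℂ) :
    (qal A B p 0 * ((p : ℕ) : ℂ) ^ (-s)) + (qal A B p 1 * ((p : ℕ) : ℂ) ^ (-s)) =
      (((p : ℕ) : ℂ) - ptsQ A B p) * ((p : ℕ) : ℂ) ^ (-s) ∧
    (qal A B p 0 * ((p : ℕ) : ℂ) ^ (-s)) * (qal A B p 1 * ((p : ℕ) : ℂ) ^ (-s)) = ((p : ℕ) : ℂ) ^ (1 - 2 * s) := by
  have hn0 : (0 : ℝ) < (p : ℕ) := by exact_mod_cast p.2.pos
  have h1 : 0 < √((p : ℕ) : ℝ) := Real.sqrt_pos.2 hn0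
  have h1c : ((√((p : ℕ) : ℝ) : ℝ) : ℂ) ≠ 0 := by exact_mod_cast h1.ne'
  have hnc : ((p : ℕ) : ℂ) ≠ 0 := by exact_mod_cast hn0.ne'
  have h2 : ((√((p : ℕ) : ℝ) : ℝ) : ℂ) ^ 2 = ((p : ℕ) : ℂ) := by
    rw [← Complex.ofReal_pow, Real.sq_sqrt hn0.le]
    push_cast
    rfl
  have ht := trQ_abs p.2 h
  constructor
  · have e4 : 2 * (trQ A B p : ℂ) * ((√((p : ℕ) : ℝ) : ℝ) : ℂ) = ((p : ℕ) : ℂ) - ptsQ A B p := by
      unfold trQ
      push_cast
      field_simp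
    unfold qal
    rw [if_pos h, if_pos h, ← add_mul, ← mul_add, rt_add, ← e4]
    ring
  · unfold qal
    rw [if_pos h, if_pos h]
    have e1 : ((p : ℕ) : ℂ) ^ (1 - 2 * s) = (((√((p : ℕ) : ℝ) : ℝ) : ℂ) * ((p : ℕ) : ℂ) ^ (-s)) ^ 2 := by
      rw [mul_pow, h2, ← Complex.cpow_nat_mul]
      rw [Complex.cpow_sub _ _ hnc, Complex.cpow_one]
      rw [show ((2 : ℕ) : ℂ) * -s = -(2 * s) by push_cast; ring, Complex.cpow_neg, div_eq_mul_inv]
    rw [e1]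
    have := rt_mul ht
    linear_combination ((((√((p : ℕ) : ℝ) : ℝ) : ℂ) * ((p : ℕ) : ℂ) ^ (-s)) ^ 2) * this

/-- the logarithm of the factor at `1` -/
theorem lg_tq (A B : ℤ) {μ : Nat.Primes → Fin n → ℂ} (hμ : ∀ p j, ‖μ p j‖ ≤ 1) (p : Nat.Primes) :
    (-lg pq (tq A B μ) 1 p).re = fA μ p (red p ![A, B]) := by
  have hp2 : (2 : ℝ) ≤ (p : ℕ) := by exact_mod_cast p.2.two_le
  have hn0 : (0 : ℝ) < (p : ℕ) := by linarith
  have h1 : 0 < √((p : ℕ) : ℝ) := Real.sqrt_pos.2 hn0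
  have hnc : ((p : ℕ) : ℂ) ≠ 0 := by exact_mod_cast hn0.ne'
  have hr0 : red p ![A, B] 0 = (A : ZMod p) := rfl
  have hr1 : red p ![A, B] 1 = (B : ZMod p) := rfl
  by_cases h : GoodQ A B p
  · have hx : Complex.exp (-((1 : ℂ) * Real.log (pq p))) = (((p : ℕ) : ℂ))⁻¹ := by
      have e0 : (pq p : ℕ) = (p : ℕ) := rfl
      rw [one_mul, Complex.exp_neg, e0, ← Complex.ofReal_exp, Real.exp_log hn0]
      push_cast
      rfl
    have hlt : ∀ i, ‖tq A B μ p i * Complex.exp (-((1 : ℂ) * Real.log (pq p)))‖ < 1 := by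
      intro i
      have h3 := (tq_sys A B hμ).le p i
      rw [hx, norm_mul, norm_inv, Complex.norm_natCast, ← div_eq_mul_inv, div_lt_one hn0]
      have e0 : (pq p : ℕ) = (p : ℕ) := rfl
      rw [e0, ← Real.sqrt_eq_rpow] at h3
      refine h3.trans_lt ?_
      rw [Real.sqrt_lt' hn0]
      nlinarith
    rw [lg_eq (tq_sys A B hμ) hlt, neg_neg, Complex.re_sum]
    simp only [hx]
    have e1 := sum_tq (n := n) (fun x : Fin 2 × Fin n => (Complex.log (1 - qal A B p x.1 * μ p x.2 * (((p : ℕ) : ℂ))⁻¹)).re)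
    have e2 : ∑ i : Fin (2 * n), (Complex.log (1 - tq A B μ p i * (((p : ℕ) : ℂ))⁻¹)).re =
        ∑ j : Fin n, ((Complex.log (1 - qal A B p 0 * μ p j * (((p : ℕ) : ℂ))⁻¹)).re +
          (Complex.log (1 - qal A B p 1 * μ p j * (((p : ℕ) : ℂ))⁻¹)).re) := e1
    rw [e2]
    unfold fA
    refine Finset.sum_congr rfl fun j _ => ?_
    have hne : ∀ i, ‖1 - qal A B p i * μ p j * (((p : ℕ) : ℂ))⁻¹‖ ≠ 0 := by
      intro i h0
      have h4 := hlt (finProdFinEquiv (i, j))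
      unfold tq at h4
      rw [hx, Equiv.symm_apply_apply] at h4
      simp only at h4
      have h5 : qal A B p i * μ p j * (((p : ℕ) : ℂ))⁻¹ = 1 := (sub_eq_zero.1 (norm_eq_zero.1 h0)).symm
      rw [h5, norm_one] at h4
      exact lt_irrefl _ h4
    rw [Complex.log_re, Complex.log_re, ← Real.log_mul (hne 0) (hne 1), ← norm_mul]
    unfold fT
    rw [hr0, hr1, if_neg h, ZMod.card]
    congr 2
    obtain ⟨k1, k2⟩ := qal_add_mul h 1
    have e3 : ((p : ℕ) : ℂ) ^ (-(1 : ℂ)) = (((p : ℕ) : ℂ))⁻¹ := by rw [Complex.cpow_neg, Complex.cpow_one]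
    have e4 : ((p : ℕ) : ℂ) ^ (1 - 2 * (1 : ℂ)) = (((p : ℕ) : ℂ))⁻¹ := by
      rw [show (1 - 2 * (1 : ℂ)) = -1 by norm_num, e3]
    rw [e3] at k1 k2
    rw [e4] at k2
    have h6 : (6 : ZMod p) ≠ 0 := left_ne_zero_of_mul h
    have h7 := pts_eq h6 (A : ZMod p) (B : ZMod p)
    rw [ZMod.card] at h7
    have h8 : ((ptsQ A B p : ℕ) : ℂ) = (p : ℕ) + ((TT (A : ZMod p) (B : ZMod p) : ℤ) : ℂ) := by
      have h9 : ptsQ A B p = pts (A : ZMod p) (B : ZMod p) := rfl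
      rw [h9]
      exact_mod_cast h7
    rw [h8] at k1
    linear_combination (-μ p j) * k1 + μ p j ^ 2 * k2
  · have h3 : fA μ p (red p ![A, B]) = 0 := by
      unfold fA
      refine Finset.sum_eq_zero fun j _ => ?_
      unfold fT
      rw [hr0, hr1, if_pos (not_not.1 h)]
    rw [h3]
    unfold lg cc tq qal
    simp [h]

/-- the rotated sum of a curve -/
noncomputable def SA (A B : ℤ) (μ : Nat.Primes → Fin n → ℂ) (γ T : ℝ) : ℂ :=
  ∑' p : Nat.Primes, ((fA μ p (red p ![A, B]) : ℝ) : ℂ) * Wt γ (Real.log (p : ℕ) / T)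

/-- **the growth for one curve** -/
theorem SA_growth (A B : ℤ) {μ : Nat.Primes → Fin n → ℂ} (hμ : ∀ p j, ‖μ p j‖ ≤ 1) {F : ℂ → ℂ}
    (hF : ∀ s : ℂ, 3 / 2 < s.re → HasProd (Pool.Agent.X287.CR.fac pq (tq A B μ) s) (F s))
    (hm : ∀ x : ℝ, 1 ≤ x → x ≤ 3 / 2 → MeromorphicAt F (x : ℂ)) {γ : ℝ} (hγ : Real.pi / 2 < γ) :
    ∃ m : ℤ, meromorphicOrderAt F 1 = m ∧ Gr (SA A B μ γ) m := by
  have G := tq_sys A B hμ
  have hs1 : (1 / 2 : ℝ) + 1 / 2 ≤ (1 : ℂ).re := by norm_num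
  have key : ∀ {β : Nat.Primes → Fin (2 * n) → ℂ} (G : CSys (1 / 2) pq β) {L : ℂ → ℂ}
      (hL : ∀ s : ℂ, 3 / 2 < s.re → HasProd (Pool.Agent.X287.CR.fac pq β s) (L s))
      (hLm : ∀ x : ℝ, 1 ≤ x → x ≤ 3 / 2 → MeromorphicAt L (x : ℂ)),
      ∃ m : ℤ, meromorphicOrderAt L 1 = m ∧ Gr (Sp pq β 1 γ) m := by
    intro β G L hL hLm
    obtain ⟨m, ρ, h1, -, h3⟩ := G.law (L := L) (fun s hs => hL s (by linarith)) (s₀ := 1) (by norm_num)
      (fun x hx0 hx1 => by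
        have h4 := hLm (1 + x) (by linarith) (by
          rw [Complex.one_re] at hx1
          linarith)
        push_cast at h4
        exact h4) hγ
    exact ⟨m, h1, law_bdd G hs1 γ q_log_sum h3⟩
  obtain ⟨m, k1, B₁, h1⟩ := key G hF hm
  obtain ⟨m', k1', B₂, h1'⟩ := key (cj_sys G) (L := Fs F) (fun s hs => hasProd_cj hF s hs)
    (fun x hx1 hx2 => (mero_Fs (hm x hx1 hx2)).1)
  have hmm : m' = m := by
    have h0 := hm 1 (by norm_num) (by norm_num)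
    have h3 := (mero_Fs h0).2 m (by simpa using k1)
    have h4 : meromorphicOrderAt (Fs F) 1 = m := by simpa using h3
    rw [k1'] at h4
    exact_mod_cast h4
  subst hmm
  refine ⟨m', k1, (B₁ + B₂) / 2, ?_⟩
  filter_upwards [h1, h1', eventually_gt_atTop (0 : ℝ)] with T a1 a2 hT
  have s1 := (Sp_summable G hs1 γ hT).of_norm
  have s2 := (Sp_summable (cj_sys G) hs1 γ hT).of_norm
  have e1 : SA A B μ γ T = (1 / 2) * Sp pq (tq A B μ) 1 γ T + (1 / 2) * Sp pq (cj (tq A B μ)) 1 γ T := by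
    unfold SA Sp
    rw [← tsum_mul_left, ← tsum_mul_left, ← (s1.mul_left _).tsum_add (s2.mul_left _)]
    refine tsum_congr fun p => ?_
    have e2 : lg pq (cj (tq A B μ)) 1 p = conj (lg pq (tq A B μ) 1 p) := by
      have := lg_cj (q := pq) (α := tq A B μ) 1 p
      simpa using this
    have e3 : Real.log (pq p) = Real.log (p : ℕ) := rfl
    rw [e2, ← lg_tq A B hμ p, re_eq, map_neg, e3]
    ring
  have e2 : SA A B μ γ T - m' * Real.log T = (1 / 2) * (Sp pq (tq A B μ) 1 γ T - m' * Real.log T) +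
      (1 / 2) * (Sp pq (cj (tq A B μ)) 1 γ T - m' * Real.log T) := by
    rw [e1]
    ring
  rw [e2]
  refine (norm_add_le _ _).trans ?_
  rw [norm_mul, norm_mul]
  have e3 : ‖(1 / 2 : ℂ)‖ = 1 / 2 := by norm_num
  rw [e3]
  linarith

end Pool.Agent.X278.AV

namespace Pool.Agent.X278.AV

open Filter Topology Asymptotics Finset ComplexConjugate
open Pool.Agent.W189.ML Pool.Agent.X287.CR Pool.Agent.X278.OP
open Pool.Agent.W187.UR (Lam)
open Pool.Agent.TH942.ES (rt rt_norm rt_prod rt_log)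

variable {n : ℕ}

theorem pair_ne {A B : ℤ} {p : Nat.Primes} (h : GoodQ A B p) {μ : ℂ} (hμ : ‖μ‖ ≤ 1) (i : Fin 2) :
    1 - (qal A B p i * ((p : ℕ) : ℂ) ^ (-(1 : ℂ))) * μ ≠ 0 := by
  have hp2 : (2 : ℝ) ≤ (p : ℕ) := by exact_mod_cast p.2.two_le
  have hn0 : (0 : ℝ) < (p : ℕ) := by linarith
  intro h0
  have h1 : (qal A B p i * ((p : ℕ) : ℂ) ^ (-(1 : ℂ))) * μ = 1 := (sub_eq_zero.1 h0).symm
  have h2 := (qal_sys A B).le p i
  have e0 : (pq p : ℕ) = (p : ℕ) := rfl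
  rw [e0, ← Real.sqrt_eq_rpow] at h2
  have h3 : ‖(qal A B p i * ((p : ℕ) : ℂ) ^ (-(1 : ℂ))) * μ‖ < 1 := by
    rw [Complex.cpow_neg, Complex.cpow_one, norm_mul, norm_mul, norm_inv, Complex.norm_natCast]
    calc ‖qal A B p i‖ * ((p : ℕ) : ℝ)⁻¹ * ‖μ‖ ≤ √((p : ℕ) : ℝ) * ((p : ℕ) : ℝ)⁻¹ * 1 := by gcongr
      _ < 1 := by
        rw [mul_one, ← div_eq_mul_inv, div_lt_one hn0, Real.sqrt_lt' hn0]
        nlinarith
  rw [h1, norm_one] at h3
  exact lt_irrefl _ h3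

theorem fA_eq {A B : ℤ} {p : Nat.Primes} (h : GoodQ A B p) {μ : Nat.Primes → Fin n → ℂ} (hμ : ∀ p j, ‖μ p j‖ ≤ 1) :
    fA μ p (red p ![A, B]) = Real.log ‖∏ j, ((1 - (qal A B p 0 * ((p : ℕ) : ℂ) ^ (-(1 : ℂ))) * μ p j) *
      (1 - (qal A B p 1 * ((p : ℕ) : ℂ) ^ (-(1 : ℂ))) * μ p j))‖ := by
  have hr0 : red p ![A, B] 0 = (A : ZMod p) := rfl
  have hr1 : red p ![A, B] 1 = (B : ZMod p) := rfl
  rw [norm_prod, Real.log_prod (fun j _ => by
    rw [norm_ne_zero_iff]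
    exact mul_ne_zero (pair_ne h (hμ p j) 0) (pair_ne h (hμ p j) 1))]
  unfold fA
  refine Finset.sum_congr rfl fun j _ => ?_
  unfold fT
  rw [hr0, hr1, if_neg h, ZMod.card]
  congr 2
  obtain ⟨k1, k2⟩ := qal_add_mul h 1
  have e3 : ((p : ℕ) : ℂ) ^ (-(1 : ℂ)) = (((p : ℕ) : ℂ))⁻¹ := by rw [Complex.cpow_neg, Complex.cpow_one]
  have e4 : ((p : ℕ) : ℂ) ^ (1 - 2 * (1 : ℂ)) = (((p : ℕ) : ℂ))⁻¹ := by
    rw [show (1 - 2 * (1 : ℂ)) = -1 by norm_num, e3]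
  rw [e4] at k2
  have h6 : (6 : ZMod p) ≠ 0 := left_ne_zero_of_mul h
  have h7 := pts_eq h6 (A : ZMod p) (B : ZMod p)
  rw [ZMod.card] at h7
  have h8 : ((ptsQ A B p : ℕ) : ℂ) = (p : ℕ) + ((TT (A : ZMod p) (B : ZMod p) : ℤ) : ℂ) := by
    have h9 : ptsQ A B p = pts (A : ZMod p) (B : ZMod p) := rfl
    rw [h9]
    exact_mod_cast h7
  rw [h8] at k1
  rw [e3] at k1 k2 ⊢
  linear_combination μ p j * k1 - μ p j ^ 2 * k2

theorem fA_bad {A B : ℤ} {p : Nat.Primes} (h : ¬ GoodQ A B p) (μ : Nat.Primes → Fin n → ℂ) :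
    fA μ p (red p ![A, B]) = 0 := by
  have hr0 : red p ![A, B] 0 = (A : ZMod p) := rfl
  have hr1 : red p ![A, B] 1 = (B : ZMod p) := rfl
  unfold fA
  refine Finset.sum_eq_zero fun j _ => ?_
  unfold fT
  rw [hr0, hr1, if_pos (not_not.1 h)]

theorem fA_zero {μ : Nat.Primes → Fin n → ℂ} {p : Nat.Primes} (h : ∀ j, μ p j = 0) (r : Fin 2 → ZMod p) :
    fA μ p r = 0 := by
  unfold fA
  refine Finset.sum_eq_zero fun j _ => ?_
  unfold fT
  rw [h j]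
  simp

theorem re_Wt (γ u : ℝ) : (Wt γ u).re = Real.cos (γ * u) / Real.Gamma (1 + u) := by
  unfold Wt om
  rw [Complex.re_mul_ofReal, Complex.exp_ofReal_mul_I_re, div_eq_mul_inv]

/-- the real part of a rotated sum of a point -/
theorem re_SS {k : ℕ} {e : Fin k → ℕ} {a : ℕ → Fin k → ℕ} {Z : (Fin k → ℤ) → Prop}
    {f : (p : Nat.Primes) → (Fin k → ZMod p) → ℝ} (W : Sys0 k e a Z f) (γ : ℝ) {T : ℝ} (hT : 0 < T) (x : Fin k → ℤ) :
    (Summable fun p : Nat.Primes => |f p (red p x) * (Real.cos (γ * (Real.log (p : ℕ) / T)) /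
      Real.Gamma (1 + Real.log (p : ℕ) / T))|) ∧
    (SS f γ T x).re = ∑' p : Nat.Primes, f p (red p x) * (Real.cos (γ * (Real.log (p : ℕ) / T)) /
      Real.Gamma (1 + Real.log (p : ℕ) / T)) := by
  obtain ⟨B, hB, hb, L⟩ := W.loc
  have h1 : Summable fun p : Nat.Primes => ‖((f p (red p x) : ℝ) : ℂ) * Wt γ (Real.log (p : ℕ) / T)‖ := by
    refine Summable.of_nonneg_of_le (fun _ => norm_nonneg _) (fun p => ?_) (wt_sum (γ := γ) hT hB)
    rw [norm_mul, Complex.norm_real, Real.norm_eq_abs]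
    gcongr
    exact hb p _
  have e1 : ∀ p : Nat.Primes, (((f p (red p x) : ℝ) : ℂ) * Wt γ (Real.log (p : ℕ) / T)).re =
      f p (red p x) * (Real.cos (γ * (Real.log (p : ℕ) / T)) / Real.Gamma (1 + Real.log (p : ℕ) / T)) := by
    intro p
    rw [Complex.re_ofReal_mul, re_Wt]
  constructor
  · refine Summable.of_nonneg_of_le (fun _ => abs_nonneg _) (fun p => ?_) h1
    rw [← e1]
    exact Complex.abs_re_le_norm _
  · unfold SS
    rw [Complex.re_tsum h1.of_norm]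
    exact tsum_congr e1

end Pool.Agent.X278.AV
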