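import Pool.Agent.X278.AV.FnG3
import Pool.Agent.X278.AV.Gau4
import Pool.Agent.X278.AV.Art2

/-!
# Weighted sums of twisted local functions: two moments
-/

set_option autoImplicit false

namespace Pool.Agent.X278.AV

open Finset Filter Topology
open Pool.Agent.X278.OP Pool.Agent.W189.ML

section

variable {k : Type} [Field k] [Fintype k] [DecidableEq k]

theorem fT_lin (h6 : (6 : k) ≠ 0) {μ : ℂ} (hμ : ‖μ‖ ≤ 1) (a b : k) :
    |fT μ a b - ((TT a b : ℤ) : ℝ) / Fintype.card k * μ.re| ≤ 7 / Fintype.card k ∧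
    |((TT a b : ℤ) : ℝ)| ≤ 2 * √(Fintype.card k) := by
  set q : ℝ := ((Fintype.card k : ℕ) : ℝ) with hqd
  have hq1 : (1 : ℝ) ≤ q := by
    rw [hqd]
    exact_mod_cast (Fintype.card_pos : 0 < Fintype.card k)
  have hq0 : 0 < q := by linarith
  set r : ℝ := √q with hr
  have hr0 : 0 < r := Real.sqrt_pos.2 hq0
  have hrq : r ^ 2 = q := Real.sq_sqrt hq0.le
  have hr1 : 1 ≤ r := Real.one_le_sqrt.2 hq1
  have hμ1 : |μ.re| ≤ 1 := (Complex.abs_re_le_norm _).trans hμ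
  have hμ2 : |(μ ^ 2).re| ≤ 1 := (Complex.abs_re_le_norm _).trans (by
    rw [norm_pow]
    exact pow_le_one₀ (norm_nonneg _) hμ)
  by_cases h : 4 * a ^ 3 + 27 * b ^ 2 = 0
  · have h1 : fT μ a b = 0 := by
      unfold fT
      rw [if_pos (by rw [h, mul_zero])]
    have h2 : |((TT a b : ℤ) : ℝ)| ≤ 1 := by
      have := TT_sing h6 h
      exact_mod_cast this
    constructor
    · rw [h1, zero_sub, abs_neg, abs_mul, abs_div, abs_of_pos hq0]
      calc |((TT a b : ℤ) : ℝ)| / q * |μ.re| ≤ 1 / q * 1 := by gcongr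
        _ ≤ 7 / q := by
          rw [mul_one]
          gcongr
          norm_num
    · linarith
  · have hT := TT_bound (mul_ne_zero h6 h)
    rw [← hqd, ← hr] at hT
    refine ⟨?_, hT⟩
    obtain ⟨h1, -⟩ := fT_exp hμ (mul_ne_zero h6 h)
    rw [← hqd, ← hr] at h1
    have h2 : |gT μ a b - ((TT a b : ℤ) : ℝ) / q * μ.re| ≤ 3 / q := by
      unfold gT
      rw [← hqd]
      set t : ℝ := ((TT a b : ℤ) : ℝ) with ht
      have e1 : t / q * μ.re - (t ^ 2 - 2 * q) / (2 * q ^ 2) * (μ ^ 2).re - t / q * μ.re =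
          -((t ^ 2 - 2 * q) / (2 * q ^ 2) * (μ ^ 2).re) := by ring
      rw [e1, abs_neg, abs_mul, abs_div, abs_of_pos (by positivity : 0 < 2 * q ^ 2)]
      have h3 : |t ^ 2 - 2 * q| ≤ 6 * q := by
        have h4 : t ^ 2 ≤ (2 * r) ^ 2 := by
          rw [← sq_abs]
          exact pow_le_pow_left₀ (abs_nonneg _) hT 2
        have h5 : (2 * r) ^ 2 = 4 * q := by rw [mul_pow, hrq]; norm_num
        rw [abs_le]
        constructor <;> nlinarith [sq_nonneg t]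
      calc |t ^ 2 - 2 * q| / (2 * q ^ 2) * |(μ ^ 2).re| ≤ (6 * q) / (2 * q ^ 2) * 1 := by gcongr
        _ = 3 / q := by field_simp; norm_num
    have h3 : 4 / (r * q) ≤ 4 / q := by
      gcongr
      nlinarith
    have e1 : fT μ a b - ((TT a b : ℤ) : ℝ) / q * μ.re =
        (fT μ a b - gT μ a b) + (gT μ a b - ((TT a b : ℤ) : ℝ) / q * μ.re) := by ring
    rw [e1]
    refine (abs_add_le _ _).trans ((add_le_add (h1.trans h3) h2).trans (le_of_eq ?_))
    ring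

variable {J : Type} [Fintype J]

theorem wsum_le {w : J → ℝ} {W M : ℝ} (hW : ∑ j, |w j| ≤ W) (hM : 0 ≤ M) {x : J → ℝ} (hx : ∀ j, |x j| ≤ M) :
    |∑ j, w j * x j| ≤ W * M := by
  refine (Finset.abs_sum_le_sum_abs _ _).trans ?_
  calc ∑ j, |w j * x j| ≤ ∑ j, |w j| * M := Finset.sum_le_sum fun j _ => by
        rw [abs_mul]
        gcongr
        exact hx j
    _ = (∑ j, |w j|) * M := by rw [Finset.sum_mul]
    _ ≤ W * M := by gcongr

theorem fW2_mean (h6 : (6 : k) ≠ 0) {w : J → ℝ} {μ : J → ℂ} (hμ : ∀ j, ‖μ j‖ ≤ 1) {W : ℝ} (hW : ∑ j, |w j| ≤ W) :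
    |(∑ a : k, ∑ b : k, (∑ j, w j * fT (μ j) a b) ^ 2) / (Fintype.card k : ℝ) ^ 2 -
      (∑ j, w j * (μ j).re) ^ 2 / Fintype.card k| ≤ 71 * W ^ 2 / (√(Fintype.card k) * Fintype.card k) := by
  set q : ℝ := ((Fintype.card k : ℕ) : ℝ) with hqd
  have hq1 : (1 : ℝ) ≤ q := by
    rw [hqd]
    exact_mod_cast (Fintype.card_pos : 0 < Fintype.card k)
  have hq0 : 0 < q := by linarith
  set r : ℝ := √q with hr
  have hr0 : 0 < r := Real.sqrt_pos.2 hq0
  have hrq : r ^ 2 = q := Real.sq_sqrt hq0.le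
  have hr1 : 1 ≤ r := Real.one_le_sqrt.2 hq1
  have hW0 : 0 ≤ W := (Finset.sum_nonneg fun j _ => abs_nonneg _).trans hW
  set R : ℝ := ∑ j, w j * (μ j).re with hR
  have hRW : |R| ≤ W := by
    have := wsum_le hW zero_le_one (x := fun j => (μ j).re) fun j => (Complex.abs_re_le_norm _).trans (hμ j)
    rwa [mul_one] at this
  have hcmp : ∀ a b : k, |(∑ j, w j * fT (μ j) a b) ^ 2 - R ^ 2 / q ^ 2 * ((TT a b : ℤ) : ℝ) ^ 2| ≤
      70 * W ^ 2 / (r * q) := by
    intro a b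
    set t : ℝ := ((TT a b : ℤ) : ℝ) with ht
    obtain ⟨-, hT⟩ := fT_lin h6 (μ := 0) (by simp) a b
    rw [← hqd, ← hr, ← ht] at hT
    have hD : |∑ j, w j * fT (μ j) a b - t / q * R| ≤ W * (7 / q) := by
      have e1 : ∑ j, w j * fT (μ j) a b - t / q * R = ∑ j, w j * (fT (μ j) a b - t / q * (μ j).re) := by
        rw [hR, Finset.mul_sum, ← Finset.sum_sub_distrib]
        refine Finset.sum_congr rfl fun j _ => ?_
        ring
      rw [e1]
      exact wsum_le hW (by positivity) fun j => (fT_lin h6 (hμ j) a b).1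
    have hS : |∑ j, w j * fT (μ j) a b + t / q * R| ≤ 10 * W / r := by
      have h1 : |∑ j, w j * fT (μ j) a b| ≤ W * (8 / r) := wsum_le hW (by positivity) fun j => fT_size (hμ j) a b
      have h2 : |t / q * R| ≤ 2 / r * W := by
        rw [abs_mul, abs_div, abs_of_pos hq0]
        have h3 : |t| / q ≤ 2 / r := by
          rw [div_le_div_iff₀ hq0 hr0, ← hrq]
          nlinarith
        gcongr
      refine (abs_add_le _ _).trans ((add_le_add h1 h2).trans (le_of_eq ?_))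
      ring
    have e1 : (∑ j, w j * fT (μ j) a b) ^ 2 - R ^ 2 / q ^ 2 * t ^ 2 =
        (∑ j, w j * fT (μ j) a b - t / q * R) * (∑ j, w j * fT (μ j) a b + t / q * R) := by
      field_simp
      ring
    rw [e1, abs_mul]
    calc _ ≤ (W * (7 / q)) * (10 * W / r) := mul_le_mul hD hS (abs_nonneg _) (by positivity)
      _ = _ := by field_simp; ring
  have hM2 : ∑ a : k, ∑ b : k, ((TT a b : ℤ) : ℝ) ^ 2 = q ^ 2 * (q - 1) := by
    have := congrArg (fun z : ℤ => (z : ℝ)) (moment2 h6)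
    rw [hqd]
    push_cast at this
    exact this
  have hsum1 : |∑ a : k, ∑ b : k, (∑ j, w j * fT (μ j) a b) ^ 2 - R ^ 2 * (q - 1)| ≤ q ^ 2 * (70 * W ^ 2 / (r * q)) := by
    have e1 : R ^ 2 * (q - 1) = ∑ a : k, ∑ b : k, R ^ 2 / q ^ 2 * ((TT a b : ℤ) : ℝ) ^ 2 := by
      simp only [← Finset.mul_sum, hM2]
      field_simp
    rw [e1, ← Finset.sum_sub_distrib]
    simp only [← Finset.sum_sub_distrib]
    refine (Finset.abs_sum_le_sum_abs _ _).trans ((Finset.sum_le_sum fun a _ =>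
      (Finset.abs_sum_le_sum_abs _ _).trans (Finset.sum_le_sum fun b _ => hcmp a b)).trans (le_of_eq ?_))
    simp only [Finset.sum_const, Finset.card_univ, nsmul_eq_mul]
    rw [← hqd]
    ring
  have e2 : (∑ a : k, ∑ b : k, (∑ j, w j * fT (μ j) a b) ^ 2) / q ^ 2 - R ^ 2 / q =
      (∑ a : k, ∑ b : k, (∑ j, w j * fT (μ j) a b) ^ 2 - R ^ 2 * (q - 1)) / q ^ 2 - R ^ 2 / q ^ 2 := by
    field_simp
    ring
  rw [e2]
  have h1 : |(∑ a : k, ∑ b : k, (∑ j, w j * fT (μ j) a b) ^ 2 - R ^ 2 * (q - 1)) / q ^ 2| ≤ 70 * W ^ 2 / (r * q) := by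
    rw [abs_div, abs_of_pos (by positivity : 0 < q ^ 2), div_le_iff₀ (by positivity)]
    linarith
  have h2 : |R ^ 2 / q ^ 2| ≤ W ^ 2 / (r * q) := by
    rw [abs_div, abs_pow, abs_of_pos (by positivity : 0 < q ^ 2)]
    have h3 : r * q ≤ q ^ 2 := by nlinarith
    gcongr
  refine (abs_sub _ _).trans ((add_le_add h1 h2).trans (le_of_eq ?_))
  ring

theorem fW1_mean (h6 : (6 : k) ≠ 0) {w : J → ℝ} {μ : J → ℂ} (hμ : ∀ j, ‖μ j‖ ≤ 1) {W : ℝ} (hW : ∑ j, |w j| ≤ W) :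
    |(∑ a : k, ∑ b : k, ∑ j, w j * fT (μ j) a b) / (Fintype.card k : ℝ) ^ 2 -
      (∑ j, w j * ((μ j ^ 2).re / 2)) / Fintype.card k| ≤ 11 * W / (√(Fintype.card k) * Fintype.card k) := by
  have e1 : ∑ a : k, ∑ b : k, ∑ j, w j * fT (μ j) a b = ∑ j, w j * ∑ a : k, ∑ b : k, fT (μ j) a b := by
    have e2 : ∀ a : k, ∑ b : k, ∑ j, w j * fT (μ j) a b = ∑ j, w j * ∑ b : k, fT (μ j) a b := by
      intro a
      rw [Finset.sum_comm]
      exact Finset.sum_congr rfl fun j _ => (Finset.mul_sum _ _ _).symm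
    rw [Finset.sum_congr rfl fun a _ => e2 a, Finset.sum_comm]
    exact Finset.sum_congr rfl fun j _ => (Finset.mul_sum _ _ _).symm
  have hq0 : (0 : ℝ) < Fintype.card k := by exact_mod_cast (Fintype.card_pos : 0 < Fintype.card k)
  rw [e1, Finset.sum_div, Finset.sum_div, ← Finset.sum_sub_distrib]
  have e3 : ∀ j, w j * (∑ a : k, ∑ b : k, fT (μ j) a b) / (Fintype.card k : ℝ) ^ 2 -
      w j * ((μ j ^ 2).re / 2) / Fintype.card k =
      w j * ((∑ a : k, ∑ b : k, fT (μ j) a b) / (Fintype.card k : ℝ) ^ 2 - (μ j ^ 2).re / (2 * Fintype.card k)) := by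
    intro j
    field_simp
  rw [Finset.sum_congr rfl fun j _ => e3 j]
  refine (wsum_le hW (by positivity) fun j => fT_mean h6 (hμ j)).trans (le_of_eq ?_)
  ring

end

/-- from averages to means over the family -/
theorem ex_of_avg (p : Nat.Primes) {g : (Fin 2 → ZMod p) → ℝ} {m A B : ℝ} (hA : 0 ≤ A) (hB : 0 ≤ B)
    (h1 : |avg g - m| ≤ A / (√((p : ℕ) : ℝ) * (p : ℕ))) (h2 : |m| ≤ B / (p : ℕ)) :
    |Ex (∑ j, eH j) (p : ℕ) g - m| ≤ 2 * (A + B) / (√((p : ℕ) : ℝ) * (p : ℕ)) := by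
  have hp2 : (2 : ℝ) ≤ (p : ℕ) := by exact_mod_cast p.2.two_le
  have hp0 : (0 : ℝ) < (p : ℕ) := by linarith
  have hr0 : 0 < √((p : ℕ) : ℝ) := Real.sqrt_pos.2 hp0
  have h10 : ∑ j, eH j = 10 := by simp [eH]
  set ε : ℝ := (((p : ℕ) : ℝ) ^ 10)⁻¹ with hε
  have hε0 : 0 < ε := by positivity
  have hε1 : ε ≤ 1 / ((p : ℕ) : ℝ) := by
    rw [hε, ← one_div]
    apply one_div_le_one_div_of_le hp0
    have : ((p : ℕ) : ℝ) ^ 1 ≤ ((p : ℕ) : ℝ) ^ 10 := pow_le_pow_right₀ (by linarith) (by norm_num)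
    simpa using this
  have hε2 : ε ≤ 1 / 2 := hε1.trans (one_div_le_one_div_of_le (by norm_num) hp2)
  unfold Ex
  rw [h10, ← hε]
  have e1 : avg g / (1 - ε) - m = (avg g - m + ε * m) / (1 - ε) := by
    have : (1 - ε) ≠ 0 := by linarith
    field_simp
    ring
  rw [e1, abs_div, abs_of_pos (by linarith : 0 < 1 - ε), div_le_iff₀ (by linarith)]
  have h3 : |ε * m| ≤ B / (√((p : ℕ) : ℝ) * (p : ℕ)) := by
    rw [abs_mul, abs_of_pos hε0]
    have h3 : √((p : ℕ) : ℝ) ≤ (p : ℕ) := by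
      rw [Real.sqrt_le_left hp0.le]
      nlinarith
    calc ε * |m| ≤ (1 / ((p : ℕ) : ℝ)) * (B / (p : ℕ)) := by gcongr
      _ ≤ (1 / √((p : ℕ) : ℝ)) * (B / (p : ℕ)) := by gcongr
      _ = _ := by field_simp
  have h4 : (A + B) / (√((p : ℕ) : ℝ) * (p : ℕ)) ≤ 2 * (A + B) / (√((p : ℕ) : ℝ) * (p : ℕ)) * (1 - ε) := by
    rw [div_mul_eq_mul_div]
    have h5 : A + B ≤ 2 * (A + B) * (1 - ε) := by nlinarith
    gcongr
  refine (abs_add_le _ _).trans ((add_le_add h1 h3).trans ?_)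
  rw [← add_div]
  exact h4

variable {J : Type} [Fintype J]

/-- the weighted local function -/
noncomputable def fW (w : J → ℝ) (μ : Nat.Primes → J → ℂ) (p : Nat.Primes) (r : Fin 2 → ZMod p) : ℝ :=
  ∑ j, w j * fT (μ p j) (r 0) (r 1)

/-- the mean -/
noncomputable def kapW (w : J → ℝ) (μ : Nat.Primes → J → ℂ) (p : Nat.Primes) : ℝ := ∑ j, w j * ((μ p j ^ 2).re / 2)

/-- the second moment -/
noncomputable def nuW (w : J → ℝ) (μ : Nat.Primes → J → ℂ) (p : Nat.Primes) : ℝ := (∑ j, w j * (μ p j).re) ^ 2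

variable {w : J → ℝ} {μ : Nat.Primes → J → ℂ} {W : ℝ}

theorem fW_size (hμ : ∀ p j, ‖μ p j‖ ≤ 1) (hW : ∑ j, |w j| ≤ W) (p : Nat.Primes) (r : Fin 2 → ZMod p) :
    |fW w μ p r| ≤ (8 * W) / √((p : ℕ) : ℝ) := by
  unfold fW
  refine (wsum_le hW (M := 8 / √((p : ℕ) : ℝ)) (by positivity) fun j => ?_).trans (le_of_eq (by ring))
  have := fT_size (hμ p j) (r 0) (r 1)
  rwa [ZMod.card] at this

theorem fW_zero (w : J → ℝ) (μ : Nat.Primes → J → ℂ) (p : Nat.Primes) : fW w μ p 0 = 0 := by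
  unfold fW fT
  simp

theorem kapW_bd (hμ : ∀ p j, ‖μ p j‖ ≤ 1) (hW : ∑ j, |w j| ≤ W) (p : Nat.Primes) : |kapW w μ p| ≤ W := by
  unfold kapW
  have h := wsum_le hW zero_le_one (x := fun j => (μ p j ^ 2).re / 2) fun j => by
    have h1 : |(μ p j ^ 2).re| ≤ 1 := (Complex.abs_re_le_norm _).trans (by
      rw [norm_pow]
      exact pow_le_one₀ (norm_nonneg _) (hμ p j))
    rw [abs_div, abs_of_pos (by norm_num : (0 : ℝ) < 2)]
    linarith
  rwa [mul_one] at h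

theorem nuW_bd (hμ : ∀ p j, ‖μ p j‖ ≤ 1) (hW : ∑ j, |w j| ≤ W) (p : Nat.Primes) : |nuW w μ p| ≤ W ^ 2 := by
  unfold nuW
  have h := wsum_le hW zero_le_one (x := fun j => (μ p j).re) fun j => (Complex.abs_re_le_norm _).trans (hμ p j)
  rw [mul_one] at h
  rw [abs_pow]
  exact pow_le_pow_left₀ (abs_nonneg _) h 2

theorem small_prime {p : Nat.Primes} (h6 : (6 : ZMod p) = 0) : √((p : ℕ) : ℝ) ≤ 2 := by
  have hp3 : ((p : ℕ) : ℝ) ≤ 3 := by
    have h7 : ((6 : ℕ) : ZMod p) = 0 := by push_cast; exact h6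
    rw [ZMod.natCast_eq_zero_iff] at h7
    have h8 : (p : ℕ) ∣ 2 * 3 := h7
    rcases (Nat.Prime.dvd_mul p.2).1 h8 with h9 | h9
    · have := Nat.le_of_dvd (by norm_num) h9
      exact_mod_cast this.trans (by norm_num)
    · exact_mod_cast Nat.le_of_dvd (by norm_num) h9
  apply Real.sqrt_le_iff.2
  constructor <;> linarith

theorem fW_six {p : Nat.Primes} (h6 : (6 : ZMod p) = 0) (w : J → ℝ) (μ : Nat.Primes → J → ℂ) (r : Fin 2 → ZMod p) :
    fW w μ p r = 0 := by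
  unfold fW
  refine Finset.sum_eq_zero fun j _ => ?_
  unfold fT
  rw [if_pos (by rw [h6, zero_mul]), mul_zero]

theorem avg2 (p : Nat.Primes) (g : ZMod p → ZMod p → ℝ) :
    avg (fun r : Fin 2 → ZMod p => g (r 0) (r 1)) = (∑ a : ZMod p, ∑ b : ZMod p, g a b) / ((p : ℕ) : ℝ) ^ 2 := by
  unfold avg
  congr 1
  rw [← Fintype.sum_prod_type' (fun a b : ZMod p => g a b)]
  exact Fintype.sum_equiv (finTwoArrowEquiv _) _ _ fun r => rfl

theorem ex1_W (hμ : ∀ p j, ‖μ p j‖ ≤ 1) (hW : ∑ j, |w j| ≤ W) (p : Nat.Primes) :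
    |Ex (∑ j, eH j) (p : ℕ) (fW w μ p) - kapW w μ p / (p : ℕ)| ≤ (24 * W) / (√((p : ℕ) : ℝ) * (p : ℕ)) := by
  have hp0 : (0 : ℝ) < (p : ℕ) := by exact_mod_cast p.2.pos
  have hr0 : 0 < √((p : ℕ) : ℝ) := Real.sqrt_pos.2 hp0
  have hW0 : 0 ≤ W := (Finset.sum_nonneg fun j _ => abs_nonneg _).trans hW
  have hk : |kapW w μ p / (p : ℕ)| ≤ W / (p : ℕ) := by
    rw [abs_div, Nat.abs_cast]
    gcongr
    exact kapW_bd hμ hW p
  have h1 : |avg (fW w μ p) - kapW w μ p / (p : ℕ)| ≤ (11 * W) / (√((p : ℕ) : ℝ) * (p : ℕ)) := by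
    by_cases h6 : (6 : ZMod p) = 0
    · have e1 : avg (fW w μ p) = 0 := by
        unfold avg
        rw [Finset.sum_eq_zero (fun r _ => fW_six h6 w μ r), zero_div]
      rw [e1, zero_sub, abs_neg]
      refine hk.trans ?_
      rw [div_le_div_iff₀ hp0 (by positivity)]
      have := small_prime h6
      have h3 : √((p : ℕ) : ℝ) * (p : ℕ) ≤ 2 * (p : ℕ) := by gcongr
      nlinarith [mul_nonneg hW0 hp0.le]
    · have h2 := fW1_mean (k := ZMod p) h6 (hμ p) hW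
      rw [ZMod.card] at h2
      have e1 : avg (fW w μ p) = (∑ a : ZMod p, ∑ b : ZMod p, ∑ j, w j * fT (μ p j) a b) / ((p : ℕ) : ℝ) ^ 2 :=
        avg2 p fun a b => ∑ j, w j * fT (μ p j) a b
      rw [e1]
      exact h2
  have h2 := ex_of_avg p (by positivity) hW0 h1 hk
  refine h2.trans (le_of_eq ?_)
  ring

theorem ex2_W (hμ : ∀ p j, ‖μ p j‖ ≤ 1) (hW : ∑ j, |w j| ≤ W) (p : Nat.Primes) :
    |Ex (∑ j, eH j) (p : ℕ) (fun r => fW w μ p r ^ 2) - nuW w μ p / (p : ℕ)| ≤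
      (144 * W ^ 2) / (√((p : ℕ) : ℝ) * (p : ℕ)) := by
  have hp0 : (0 : ℝ) < (p : ℕ) := by exact_mod_cast p.2.pos
  have hr0 : 0 < √((p : ℕ) : ℝ) := Real.sqrt_pos.2 hp0
  have hW0 : 0 ≤ W := (Finset.sum_nonneg fun j _ => abs_nonneg _).trans hW
  have hk : |nuW w μ p / (p : ℕ)| ≤ W ^ 2 / (p : ℕ) := by
    rw [abs_div, Nat.abs_cast]
    gcongr
    exact nuW_bd hμ hW p
  have h1 : |avg (fun r => fW w μ p r ^ 2) - nuW w μ p / (p : ℕ)| ≤ (71 * W ^ 2) / (√((p : ℕ) : ℝ) * (p : ℕ)) := by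
    by_cases h6 : (6 : ZMod p) = 0
    · have e1 : avg (fun r => fW w μ p r ^ 2) = 0 := by
        unfold avg
        rw [Finset.sum_eq_zero (fun r _ => by rw [fW_six h6 w μ r]; norm_num), zero_div]
      rw [e1, zero_sub, abs_neg]
      refine hk.trans ?_
      rw [div_le_div_iff₀ hp0 (by positivity)]
      have := small_prime h6
      have h3 : √((p : ℕ) : ℝ) * (p : ℕ) ≤ 2 * (p : ℕ) := by gcongr
      nlinarith [mul_nonneg (sq_nonneg W) hp0.le]
    · have h2 := fW2_mean (k := ZMod p) h6 (hμ p) hW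
      rw [ZMod.card] at h2
      have e1 : avg (fun r => fW w μ p r ^ 2) =
          (∑ a : ZMod p, ∑ b : ZMod p, (∑ j, w j * fT (μ p j) a b) ^ 2) / ((p : ℕ) : ℝ) ^ 2 :=
        avg2 p fun a b => (∑ j, w j * fT (μ p j) a b) ^ 2
      rw [e1]
      exact h2
  have h2 := ex_of_avg p (by positivity) (sq_nonneg W) h1 hk
  refine h2.trans (le_of_eq ?_)
  ring

/-- **the family of all elliptic curves by height with a weighted local function** -/
theorem FnG_W (hμ : ∀ p j, ‖μ p j‖ ≤ 1) (hW : ∑ j, |w j| ≤ W) :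
    FnG (fun X => Fam eH ZH (abH X)) (fun p : Nat.Primes => ((p : ℕ) : ℝ))
      (fun p (x : Fin 2 → ℤ) => fW w μ p (red p x))
      (fun p h => ExC (∑ j, eH j) (p : ℕ) (fun r => h (fW w μ p r))) (8 * W) (W + W ^ 2) (24 * W + 144 * W ^ 2)
      (kapW w μ) (nuW w μ) := by
  have hW0 : 0 ≤ W := (Finset.sum_nonneg fun j _ => abs_nonneg _).trans hW
  have hW2 : 0 ≤ W ^ 2 := sq_nonneg W
  exact {
    ne := fam_ne dataH
    B0 := by positivity
    K0 := by positivity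
    C0 := by positivity
    q2 := fun p => by exact_mod_cast p.2.two_le
    sum := sum_32 (C := 1)
    size := fun p x => fW_size hμ hW p _
    fin := fun h hh I => by
      obtain ⟨P, hP, G, k2, k3, k4, k5⟩ := Fam_many eH dataH.he (∑ j, eH j) (fun p r => h p (fW w μ p r)) (fun p => by
        simp only [fW_zero, hh]) I
      have h3 := mean_limC dataH G k3
      rw [k5] at h3
      refine h3.congr fun X => ?_
      unfold meanC
      congr 1
      exact Finset.sum_congr rfl fun x _ => k4 x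
    kb := fun p => (kapW_bd hμ hW p).trans (by linarith)
    nb := fun p => (nuW_bd hμ hW p).trans (by linarith)
    ex1 := fun p => by
      have hp0 : (0 : ℝ) < (p : ℕ) := by exact_mod_cast p.2.pos
      rw [ExC_real, ← Complex.ofReal_sub, Complex.norm_real, Real.norm_eq_abs]
      refine (ex1_W hμ hW p).trans ?_
      gcongr
      linarith
    ex2 := fun p => by
      have hp0 : (0 : ℝ) < (p : ℕ) := by exact_mod_cast p.2.pos
      have e0 : (fun r => ((fW w μ p r : ℝ) : ℂ) ^ 2) = fun r => ((fW w μ p r ^ 2 : ℝ) : ℂ) := by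
        funext r
        push_cast
        rfl
      rw [e0, ExC_real, ← Complex.ofReal_sub, Complex.norm_real, Real.norm_eq_abs]
      refine (ex2_W hμ hW p).trans ?_
      gcongr
      linarith }

end Pool.Agent.X278.AV
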