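import Pool.Agent.X278.AV.ChA

/-!
# The mean value of a class function of the Frobenius
-/

set_option autoImplicit false

namespace Pool.Agent.X278.AV

open Filter Topology Finset NumberField IsDedekindDomain
open Pool.Agent.W401.Cheb (TorAt HasFrob xp_eq M M_sum M_smul M_add M_one M_congr pr mem_pr chebotarev torsor
  hasFrob_tw)

variable {F : Type} [Field F] [NumberField F]

/-- `σ` is a Frobenius automorphism at a place over `p` -/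
def IsFr (σ : F ≃ₐ[ℚ] F) (p : ℕ) : Prop :=
  ∃ u : HeightOneSpectrum (𝓞 F), (p : 𝓞 F) ∈ u.asIdeal ∧ ∀ y : 𝓞 F, σ • y - y ^ p ∈ u.asIdeal

theorem frob_lift {p : ℕ} [hp : Fact p.Prime] {τ : F ≃ₐ[ℚ] F} (h : IsFr τ p) :
    ∃ φ : 𝓞 F →+* AlgebraicClosure (ZMod p), HasFrob p φ τ := by
  obtain ⟨u, hu, hy⟩ := h
  haveI : u.asIdeal.IsMaximal := u.isMaximal
  letI : Field (𝓞 F ⧸ u.asIdeal) := Ideal.Quotient.field u.asIdeal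
  haveI : Finite (𝓞 F ⧸ u.asIdeal) := Ideal.finiteQuotientOfFreeOfNeBot u.asIdeal u.ne_bot
  haveI : CharP (𝓞 F ⧸ u.asIdeal) p := by
    rw [CharP.charP_iff_prime_eq_zero hp.out]
    have h1 : Ideal.Quotient.mk u.asIdeal (p : 𝓞 F) = 0 := Ideal.Quotient.eq_zero_iff_mem.2 hu
    rwa [map_natCast] at h1
  letI : Algebra (ZMod p) (𝓞 F ⧸ u.asIdeal) := ZMod.algebra _ p
  haveI : Algebra.IsAlgebraic (ZMod p) (𝓞 F ⧸ u.asIdeal) := Algebra.IsAlgebraic.of_finite _ _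
  set j : (𝓞 F ⧸ u.asIdeal) →ₐ[ZMod p] AlgebraicClosure (ZMod p) := IsAlgClosed.lift
  refine ⟨(j : (𝓞 F ⧸ u.asIdeal) →+* AlgebraicClosure (ZMod p)).comp (Ideal.Quotient.mk u.asIdeal), fun x => ?_⟩
  have h1 : Ideal.Quotient.mk u.asIdeal (τ • x) = Ideal.Quotient.mk u.asIdeal x ^ p := by
    rw [← map_pow]
    exact Ideal.Quotient.eq.2 (hy x)
  simp only [RingHom.comp_apply]
  rw [h1, map_pow]

variable [IsGalois ℚ F]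

theorem class_eq {Φ : (F ≃ₐ[ℚ] F) → ℝ} (hΦ : ∀ g h : F ≃ₐ[ℚ] F, Φ (h⁻¹ * g * h) = Φ g) {p : ℕ} [Fact p.Prime]
    (h : TorAt F p) {τ : F ≃ₐ[ℚ] F} (hτ : IsFr τ p) :
    Φ τ = ∑ g : F ≃ₐ[ℚ] F, Φ g / Nat.card (F ≃ₐ[ℚ] F) * (Pool.Agent.W401.Cheb.xp F g p : ℝ) := by
  classical
  obtain ⟨φ, hφ⟩ := frob_lift hτ
  have hc : (Nat.card (F ≃ₐ[ℚ] F) : ℝ) ≠ 0 := by exact_mod_cast Nat.card_pos.ne'
  have e1 : ∀ g : F ≃ₐ[ℚ] F, Φ g * (Pool.Agent.W401.Cheb.xp F g p : ℝ) =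
      ∑ s : F ≃ₐ[ℚ] F, if s⁻¹ * τ * s = g then Φ (s⁻¹ * τ * s) else 0 := by
    intro g
    rw [xp_eq h hφ g, Nat.card_eq_fintype_card, Fintype.card_subtype, ← Finset.sum_filter]
    have e2 : ∑ s ∈ univ.filter (fun s : F ≃ₐ[ℚ] F => s⁻¹ * τ * s = g), Φ (s⁻¹ * τ * s) =
        ∑ _s ∈ univ.filter (fun s : F ≃ₐ[ℚ] F => s⁻¹ * τ * s = g), Φ g :=
      Finset.sum_congr rfl fun s hs => by rw [(Finset.mem_filter.1 hs).2]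
    rw [e2, Finset.sum_const, nsmul_eq_mul, mul_comm]
  have e3 : ∑ g : F ≃ₐ[ℚ] F, Φ g / Nat.card (F ≃ₐ[ℚ] F) * (Pool.Agent.W401.Cheb.xp F g p : ℝ) =
      (∑ g : F ≃ₐ[ℚ] F, Φ g * (Pool.Agent.W401.Cheb.xp F g p : ℝ)) / Nat.card (F ≃ₐ[ℚ] F) := by
    rw [Finset.sum_div]
    refine Finset.sum_congr rfl fun g _ => ?_
    ring
  rw [e3, Finset.sum_congr rfl fun g _ => e1 g, Finset.sum_comm]
  have e4 : ∀ s : F ≃ₐ[ℚ] F, (∑ g : F ≃ₐ[ℚ] F, if s⁻¹ * τ * s = g then Φ (s⁻¹ * τ * s) else 0) = Φ τ := by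
    intro s
    rw [Finset.sum_ite_eq, if_pos (Finset.mem_univ _), hΦ]
  rw [Finset.sum_congr rfl fun s _ => e4 s, Finset.sum_const, Finset.card_univ, nsmul_eq_mul,
    Nat.card_eq_fintype_card]
  rw [Nat.card_eq_fintype_card] at hc
  field_simp

open Classical in
/-- the values of a class function at the Frobenius elements -/
noncomputable def clF (N : ℕ) (σ : Nat.Primes → F ≃ₐ[ℚ] F) (Φ : (F ≃ₐ[ℚ] F) → ℝ) (p : Nat.Primes) : ℝ :=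
  if (p : ℕ) ∣ N then 0 else Φ (σ p)

/-- **Chebotarev's theorem for class functions** -/
theorem cheb_mean {N : ℕ} (hN : N ≠ 0) {σ : Nat.Primes → F ≃ₐ[ℚ] F} (hσ : ∀ p : Nat.Primes, ¬ (p : ℕ) ∣ N → IsFr (σ p) p)
    {Φ : (F ≃ₐ[ℚ] F) → ℝ} (hΦ : ∀ g h : F ≃ₐ[ℚ] F, Φ (h⁻¹ * g * h) = Φ g) :
    Tendsto (M (exN (clF N σ Φ))) atTop (𝓝 ((∑ g : F ≃ₐ[ℚ] F, Φ g) / Nat.card (F ≃ₐ[ℚ] F))) := by
  obtain ⟨D, hD, hT⟩ := torsor F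
  refine M_congr (D := N * D) (Nat.mul_pos (Nat.pos_of_ne_zero hN) hD) (b := fun p =>
    ∑ g : F ≃ₐ[ℚ] F, Φ g / Nat.card (F ≃ₐ[ℚ] F) * (Pool.Agent.W401.Cheb.xp F g p : ℝ)) ?_ ?_
  · intro p hp hpN
    haveI : Fact p.Prime := ⟨hp⟩
    have h1 : ¬ p ∣ N := fun h => hpN (h.mul_right D)
    have h2 : ¬ p ∣ D := fun h => hpN (h.mul_left N)
    rw [exN_prime _ hp]
    unfold clF
    rw [if_neg h1]
    exact class_eq hΦ (hT p h2) (hσ ⟨p, hp⟩ h1)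
  · have h1 : Tendsto (fun n => ∑ g : F ≃ₐ[ℚ] F, Φ g / Nat.card (F ≃ₐ[ℚ] F) *
        M (fun p => (Pool.Agent.W401.Cheb.xp F g p : ℝ)) n) atTop
        (𝓝 (∑ g : F ≃ₐ[ℚ] F, Φ g / Nat.card (F ≃ₐ[ℚ] F) * 1)) :=
      tendsto_finsetSum _ fun g _ => (chebotarev F g).const_mul _
    have e1 : ∑ g : F ≃ₐ[ℚ] F, Φ g / Nat.card (F ≃ₐ[ℚ] F) * (1 : ℝ) = (∑ g : F ≃ₐ[ℚ] F, Φ g) / Nat.card (F ≃ₐ[ℚ] F) := by
      rw [Finset.sum_div]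
      refine Finset.sum_congr rfl fun g _ => ?_
      ring
    rw [e1] at h1
    refine h1.congr fun n => ?_
    rw [M_sum]
    refine Finset.sum_congr rfl fun g _ => ?_
    rw [M_smul]

theorem clF_bd (N : ℕ) (σ : Nat.Primes → F ≃ₐ[ℚ] F) (Φ : (F ≃ₐ[ℚ] F) → ℝ) (p : Nat.Primes) :
    |clF N σ Φ p| ≤ ∑ g : F ≃ₐ[ℚ] F, |Φ g| := by
  unfold clF
  split_ifs
  · rw [abs_zero]
    positivity
  · exact Finset.single_le_sum (f := fun g => |Φ g|) (fun g _ => abs_nonneg _) (Finset.mem_univ (σ p))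

end Pool.Agent.X278.AV
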