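import Pool.Agent.X278.AV.ArtC
import Pool.Agent.X278.AV.ChB

/-!
# Representations of a Galois group: the means of the local moments
-/

set_option autoImplicit false

namespace Pool.Agent.X278.AV

open Filter Topology Finset NumberField IsDedekindDomain Matrix
open Pool.Agent.X278.OP Pool.Agent.W189.ML

theorem tr_of_det {n : ℕ} {M : Matrix (Fin n) (Fin n) ℂ} {μ : Fin n → ℂ}
    (h : ∀ z : ℂ, (1 - z • M).det = ∏ j, (1 - z * μ j)) : M.trace = ∑ j, μ j := by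
  have h1 : HasDerivAt (fun z : ℂ => (1 + z • M).det) M.trace 0 := by
    have h2 : (fun z : ℂ => (1 + z • M).det) = fun z : ℂ =>
        1 + M.trace * z + (Matrix.det (1 + (Polynomial.X : Polynomial ℂ) • M.map Polynomial.C)).divX.divX.eval z * z ^ 2 := by
      funext z
      exact Matrix.det_one_add_smul z M
    rw [h2]
    set P := (Matrix.det (1 + (Polynomial.X : Polynomial ℂ) • M.map Polynomial.C)).divX.divX with hP
    have h3 : HasDerivAt (fun z : ℂ => 1 + M.trace * z) M.trace 0 := by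
      have := ((hasDerivAt_id (0 : ℂ)).const_mul M.trace).const_add 1
      simpa using this
    have h4 : HasDerivAt (fun z : ℂ => P.eval z * z ^ 2) 0 0 := by
      have h5 := (P.hasDerivAt (0 : ℂ)).fun_mul (hasDerivAt_pow 2 (0 : ℂ))
      simpa using h5
    have h5 := h3.add h4
    rw [add_zero] at h5
    exact h5
  have h2 : HasDerivAt (fun z : ℂ => ∏ j, (1 + z * μ j)) (∑ j, μ j) 0 := by
    have h3 : ∀ j ∈ (univ : Finset (Fin n)), HasDerivAt (fun z : ℂ => 1 + z * μ j) (μ j) 0 := by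
      intro j _
      have := ((hasDerivAt_id (0 : ℂ)).mul_const (μ j)).const_add 1
      simpa using this
    have h4 := HasDerivAt.fun_finset_prod h3
    simpa using h4
  have h3 : (fun z : ℂ => (1 + z • M).det) = fun z : ℂ => ∏ j, (1 + z * μ j) := by
    funext z
    have := h (-z)
    rw [neg_smul, sub_neg_eq_add] at this
    rw [this]
    refine Finset.prod_congr rfl fun j _ => ?_
    ring
  rw [h3] at h1
  exact h1.unique h2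

section

variable {F : Type} [Field F] [NumberField F]

/-- the eigenvalues of `ρ(σ_p)`; zero if `p` divides `N` -/
theorem exists_mu2 {n : ℕ} (N : ℕ) (ρ : (F ≃ₐ[ℚ] F) →* Matrix (Fin n) (Fin n) ℂ) (σ : Nat.Primes → F ≃ₐ[ℚ] F) :
    ∃ μ : Nat.Primes → Fin n → ℂ, (∀ p j, ‖μ p j‖ ≤ 1) ∧ (∀ p : Nat.Primes, (p : ℕ) ∣ N → ∀ j, μ p j = 0) ∧
      ∀ p : Nat.Primes, ¬ (p : ℕ) ∣ N → (ρ (σ p)).trace = ∑ j, μ p j ∧ (ρ (σ p) ^ 2).trace = ∑ j, μ p j ^ 2 ∧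
        ∀ x y : ℂ, (1 - (x + y) • ρ (σ p) + (x * y) • ρ (σ p) ^ 2).det =
          ∏ j, ((1 - x * μ p j) * (1 - y * μ p j)) := by
  classical
  have h1 : ∀ p : Nat.Primes, ∃ μ : Fin n → ℂ, (∀ j, ‖μ j‖ ≤ 1) ∧ ((p : ℕ) ∣ N → ∀ j, μ j = 0) ∧
      (¬ (p : ℕ) ∣ N → (ρ (σ p)).trace = ∑ j, μ j ∧ (ρ (σ p) ^ 2).trace = ∑ j, μ j ^ 2 ∧
        ∀ x y : ℂ, (1 - (x + y) • ρ (σ p) + (x * y) • ρ (σ p) ^ 2).det = ∏ j, ((1 - x * μ j) * (1 - y * μ j))) := by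
    intro p
    by_cases hp : (p : ℕ) ∣ N
    · exact ⟨fun _ => 0, fun j => by simp, fun _ j => rfl, fun h => absurd hp h⟩
    · have hfin : Nat.card (F ≃ₐ[ℚ] F) ≠ 0 := Nat.card_pos.ne'
      have hM : ρ (σ p) ^ Nat.card (F ≃ₐ[ℚ] F) = 1 := by
        rw [← map_pow, pow_card_eq_one', map_one]
      obtain ⟨μ, a1, a2, a3, a4⟩ := eigen hfin hM
      exact ⟨μ, fun j => (a1 j).le, fun h => absurd h hp, fun _ => ⟨tr_of_det a2, tr_of_det a3, a4⟩⟩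
  choose μ h1 h2 h3 using h1
  exact ⟨μ, h1, h2, h3⟩

theorem tr_conj {n : ℕ} (ρ : (F ≃ₐ[ℚ] F) →* Matrix (Fin n) (Fin n) ℂ) (g h : F ≃ₐ[ℚ] F) :
    (ρ (h⁻¹ * g * h)).trace = (ρ g).trace := by
  rw [map_mul, Matrix.trace_mul_comm, ← map_mul]
  congr 2
  group

theorem tr_conj2 {n : ℕ} (ρ : (F ≃ₐ[ℚ] F) →* Matrix (Fin n) (Fin n) ℂ) (g h : F ≃ₐ[ℚ] F) :
    (ρ (h⁻¹ * g * h) ^ 2).trace = (ρ g ^ 2).trace := by
  have e1 : ρ (h⁻¹ * g * h) ^ 2 = ρ (h⁻¹ * g ^ 2 * h) := by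
    rw [← map_pow]
    congr 1
    rw [pow_two, pow_two]
    group
  rw [e1, tr_conj, map_pow]

variable [IsGalois ℚ F]

/-- **the asymptotics of the centre and of the variance** -/
theorem as2_cl {N : ℕ} (hN : N ≠ 0) {σ : Nat.Primes → F ≃ₐ[ℚ] F} (hσ : ∀ p : Nat.Primes, ¬ (p : ℕ) ∣ N → IsFr (σ p) p)
    {Φ₁ Φ₂ : (F ≃ₐ[ℚ] F) → ℝ} (h1 : ∀ g h : F ≃ₐ[ℚ] F, Φ₁ (h⁻¹ * g * h) = Φ₁ g)
    (h2 : ∀ g h : F ≃ₐ[ℚ] F, Φ₂ (h⁻¹ * g * h) = Φ₂ g) (γ : ℝ) :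
    As2 (fun p : Nat.Primes => ((p : ℕ) : ℝ)) (clF N σ Φ₁) (clF N σ Φ₂) γ
      ((∑ g : F ≃ₐ[ℚ] F, Φ₂ g) / Nat.card (F ≃ₐ[ℚ] F)) ∧
    Tendsto (fun T : ℝ => cen (fun p : Nat.Primes => ((p : ℕ) : ℝ)) (clF N σ Φ₁) γ T / Real.log T) atTop
      (𝓝 ((∑ g : F ≃ₐ[ℚ] F, Φ₁ g) / Nat.card (F ≃ₐ[ℚ] F))) := by
  obtain ⟨a1, a2⟩ := ch_wt (clF_bd N σ Φ₁) (cheb_mean hN hσ h1) (ω := wr γ) (wr_zero γ) (wr_diff γ le_rfl).hasDerivAt
    (fun u hu => (wr_diff γ hu.le).continuousAt) (wr_dec γ)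
  obtain ⟨b1, b2⟩ := ch_wt (clF_bd N σ Φ₂) (cheb_mean hN hσ h2) (ω := fun u => wr γ u ^ 2) (by simp [wr_zero])
    ((wr_diff γ le_rfl).pow 2).hasDerivAt (fun u hu => ((wr_diff γ hu.le).pow 2).continuousAt) (by
    have h1 := wr_dec γ
    have h2 : Tendsto (fun u => (Real.exp 1 + 1) * |wr γ u * Real.exp u|) atTop (𝓝 0) := by
      have := (h1.abs).const_mul (Real.exp 1 + 1)
      rwa [abs_zero, mul_zero] at this
    refine squeeze_zero_norm' ?_ h2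
    filter_upwards [eventually_ge_atTop (0 : ℝ)] with u hu
    have h3 := wr_bd γ hu
    rw [Real.norm_eq_abs, pow_two, mul_assoc, abs_mul]
    gcongr)
  exact ⟨⟨a1, b1, b2⟩, a2⟩

end

end Pool.Agent.X278.AV
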