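import Pool.Agent.X278.AV.ArtD

/-!
# Means over the family and the centre
-/

set_option autoImplicit false

namespace Pool.Agent.X278.AV

open Filter Topology Asymptotics
open Pool.Agent.W189.ML Pool.Agent.X287.CR Pool.Agent.X278.OP
open Pool.Agent.W187.UR (Lam)

section

variable {k : ℕ} {e : Fin k → ℕ} {a : ℕ → Fin k → ℕ} {Z : (Fin k → ℤ) → Prop}
  {f : (p : Nat.Primes) → (Fin k → ZMod p) → ℝ}

open Classical in
/-- **almost all members of the family**, for the real parts -/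
theorem Sys0.lln2 (W : Sys0 k e a Z f) {γ κ : ℝ}
    (h2 : Tendsto (fun T : ℝ => (AA e f γ T).re / Real.log T) atTop (𝓝 κ)) :
    ∃ V : ℝ, ∀ δ : ℝ, 0 < δ →
    ∀ᶠ T : ℝ in atTop, ∀ᶠ X in atTop,
    (((Fam e Z (a X)).filter fun x => δ < |(SS f γ T x).re / Real.log T - κ|).card : ℝ) ≤
      V / (δ ^ 2 * Real.log T) * (Fam e Z (a X)).card := by
  obtain ⟨V, hV, h1⟩ := W.second γ
  refine ⟨4 * V, fun δ hδ => ?_⟩
  have h4 : ∀ᶠ T : ℝ in atTop, |(AA e f γ T).re / Real.log T - κ| < δ / 2 := by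
    have h5 := (h2.sub_const κ).abs
    rw [sub_self, abs_zero] at h5
    exact h5.eventually_lt_const (by positivity)
  filter_upwards [h1, h4, Filter.eventually_gt_atTop (1 : ℝ)] with T a1 a2 a3
  have hlog : 0 < Real.log T := Real.log_pos a3
  filter_upwards [a1, fam_ne W.data] with X b1 b2
  have hc : (0 : ℝ) < (Fam e Z (a X)).card := by exact_mod_cast b2.card_pos
  set G := (Fam e Z (a X)).filter fun x => δ < |(SS f γ T x).re / Real.log T - κ| with hG
  have h5 : ∀ x ∈ G, (δ / 2 * Real.log T) ^ 2 ≤ ‖SS f γ T x - AA e f γ T‖ ^ 2 := by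
    intro x hx
    have hx2 := (Finset.mem_filter.1 hx).2
    have e1 : (SS f γ T x).re / Real.log T - κ = ((SS f γ T x).re - (AA e f γ T).re) / Real.log T +
        ((AA e f γ T).re / Real.log T - κ) := by ring
    have h6 : δ / 2 < |((SS f γ T x).re - (AA e f γ T).re) / Real.log T| := by
      rw [e1] at hx2
      have := abs_add_le (((SS f γ T x).re - (AA e f γ T).re) / Real.log T) ((AA e f γ T).re / Real.log T - κ)
      linarith
    rw [abs_div, abs_of_pos hlog, lt_div_iff₀ hlog, ← Complex.sub_re] at h6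
    exact pow_le_pow_left₀ (by positivity) (h6.le.trans (Complex.abs_re_le_norm _)) 2
  have h6 : (G.card : ℝ) * (δ / 2 * Real.log T) ^ 2 ≤ ∑ x ∈ Fam e Z (a X), ‖SS f γ T x - AA e f γ T‖ ^ 2 := by
    calc (G.card : ℝ) * (δ / 2 * Real.log T) ^ 2 = ∑ _x ∈ G, (δ / 2 * Real.log T) ^ 2 := by
          rw [Finset.sum_const, nsmul_eq_mul]
      _ ≤ ∑ x ∈ G, ‖SS f γ T x - AA e f γ T‖ ^ 2 := Finset.sum_le_sum h5
      _ ≤ _ := Finset.sum_le_sum_of_subset_of_nonneg (Finset.filter_subset _ _) fun x _ _ => by positivity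
  have h7 : ∑ x ∈ Fam e Z (a X), ‖SS f γ T x - AA e f γ T‖ ^ 2 ≤ V * Real.log T * (Fam e Z (a X)).card := by
    unfold mean at b1
    rwa [div_le_iff₀ hc] at b1
  have h8 := h6.trans h7
  rw [div_mul_eq_mul_div, le_div_iff₀ (by positivity)]
  have h9 : (G.card : ℝ) * (δ ^ 2 * Real.log T) * Real.log T ≤ 4 * V * (Fam e Z (a X)).card * Real.log T := by
    nlinarith
  exact le_of_mul_le_mul_right h9 hlog

end

variable {n : ℕ}

/-- **the means and the centre** -/
theorem mean_centre {μ : Nat.Primes → Fin n → ℂ} (hμ : ∀ p j, ‖μ p j‖ ≤ 1) (γ : ℝ) :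
    ∃ C : ℝ, (fun T : ℝ => (AA eH (fA μ) γ T).re -
      (∑' p : Nat.Primes, gA μ p * wr γ (Real.log (p : ℕ) / T) + C)) =O[atTop] (fun T : ℝ => 1 / T) := by
  set c : Nat.Primes → ℂ := fun p => ((Ex (∑ j, eH j) (p : ℕ) (fA μ p) - gA μ p : ℝ) : ℂ) with hc
  obtain ⟨s1, s2⟩ := small_sum (c := c) (C := 24 * n) fun p => by
    rw [hc]
    simp only
    rw [Complex.norm_real, Real.norm_eq_abs]
    exact exA hμ p
  have h2 := conv_Asc (Lam γ) γ (c := c) (l := fun p : Nat.Primes => Real.log (p : ℕ))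
    (fun p => Real.log_nonneg (by exact_mod_cast p.2.one_le)) s1 s2
  refine ⟨(∑' p, c p).re, ?_⟩
  unfold Asc at h2
  refine (IsBigO.of_bound 1 ?_).trans h2
  filter_upwards [eventually_gt_atTop (0 : ℝ)] with T hT
  have hx : ∀ p : Nat.Primes, 0 ≤ Real.log (p : ℕ) / T := fun p =>
    div_nonneg (Real.log_nonneg (by exact_mod_cast p.2.one_le)) hT.le
  have t1 : Summable fun p : Nat.Primes => c p * Wt γ (Real.log (p : ℕ) / T) := by
    refine Summable.of_norm_bounded (s1.mul_right (Real.exp 1 + 1)) fun p => ?_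
    rw [norm_mul, norm_Wt γ (hx p)]
    gcongr
    exact om_le_const (hx p)
  have t2 : Summable fun p : Nat.Primes => ((gA μ p : ℝ) : ℂ) * Wt γ (Real.log (p : ℕ) / T) := by
    have hn : (0 : ℝ) ≤ n := Nat.cast_nonneg n
    refine Summable.of_norm (Summable.of_nonneg_of_le (fun _ => norm_nonneg _) (fun p => ?_)
      (wt_sum (γ := γ) hT (B := n) hn))
    have hp1 : (1 : ℝ) ≤ (p : ℕ) := by exact_mod_cast p.2.one_le
    have hs1 : 0 < √((p : ℕ) : ℝ) := Real.sqrt_pos.2 (by linarith)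
    rw [norm_mul, Complex.norm_real, Real.norm_eq_abs]
    have h3 := gA_le hμ p
    have h4 : (n : ℝ) / (2 * ((p : ℕ) : ℝ)) ≤ n / √((p : ℕ) : ℝ) := by
      have h5 : √((p : ℕ) : ℝ) ≤ 2 * ((p : ℕ) : ℝ) := by
        have : √((p : ℕ) : ℝ) ≤ (p : ℕ) := by
          rw [Real.sqrt_le_left (by linarith)]
          nlinarith
        linarith
      gcongr
    gcongr
    exact h3.trans h4
  have e1 : AA eH (fA μ) γ T = ∑' p : Nat.Primes, c p * Wt γ (Real.log (p : ℕ) / T) +
      ∑' p : Nat.Primes, ((gA μ p : ℝ) : ℂ) * Wt γ (Real.log (p : ℕ) / T) := by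
    unfold AA
    rw [← t1.tsum_add t2]
    refine tsum_congr fun p => ?_
    rw [hc]
    push_cast
    ring
  have e2 : (∑' p : Nat.Primes, ((gA μ p : ℝ) : ℂ) * Wt γ (Real.log (p : ℕ) / T)).re =
      ∑' p : Nat.Primes, gA μ p * wr γ (Real.log (p : ℕ) / T) := by
    rw [Complex.re_tsum t2]
    refine tsum_congr fun p => ?_
    rw [Complex.re_ofReal_mul, re_Wt]
    rfl
  have e3 : (AA eH (fA μ) γ T).re - (∑' p : Nat.Primes, gA μ p * wr γ (Real.log (p : ℕ) / T) + (∑' p, c p).re) =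
      (∑' p : Nat.Primes, c p * Wt γ (Real.log (p : ℕ) / T) - (0 * (Real.log T - Lam γ) + ∑' p, c p)).re := by
    rw [e1, Complex.add_re, e2, zero_mul, zero_add, Complex.sub_re]
    ring
  rw [e3, one_mul, Real.norm_eq_abs]
  exact Complex.abs_re_le_norm _

end Pool.Agent.X278.AV
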