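import Mathlib

/-!
# Boxes of integral points and functions modulo `N`
-/

set_option autoImplicit false

namespace Pool.Agent.X278.AV

open Finset Filter Topology

/-- the box `|x_j| ≤ a_j` -/
noncomputable def Box {k : ℕ} (a : Fin k → ℕ) : Finset (Fin k → ℤ) :=
  Fintype.piFinset fun j => Icc (-(a j : ℤ)) (a j)

theorem mem_Box {k : ℕ} {a : Fin k → ℕ} {x : Fin k → ℤ} : x ∈ Box a ↔ ∀ j, |x j| ≤ a j := by
  unfold Box
  rw [Fintype.mem_piFinset]
  exact forall_congr' fun j => by rw [mem_Icc, abs_le]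

/-- the number of the integers `|y| ≤ n` in a residue class -/
noncomputable def cl (N : ℕ) (n : ℕ) (r : ZMod N) : ℕ :=
  ((Icc (-(n : ℤ)) n).filter fun y => ((y : ℤ) : ZMod N) = r).card

theorem cl_bound {N : ℕ} (hN : 0 < N) (n : ℕ) (r : ZMod N) : |(cl N n r : ℝ) - 2 * n / N| ≤ 2 := by
  have : NeZero N := ⟨hN.ne'⟩
  have hNz : (0 : ℤ) < N := by exact_mod_cast hN
  have h1 : (Icc (-(n : ℤ)) n).filter (fun y => ((y : ℤ) : ZMod N) = r) =
      (Ioc (-(n : ℤ) - 1) n).filter fun y => y ≡ (r.val : ℤ) [ZMOD N] := by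
    ext y
    rw [mem_filter, mem_filter, mem_Icc, mem_Ioc, ← ZMod.intCast_eq_intCast_iff]
    have h2 : ((r.val : ℤ) : ZMod N) = r := by simp
    rw [h2]
    constructor <;> rintro ⟨⟨h3, h4⟩, h5⟩ <;> exact ⟨⟨by omega, h4⟩, h5⟩
  have h2 := Int.Ioc_filter_modEq_card (-(n : ℤ) - 1) n hNz (r.val : ℤ)
  rw [← h1] at h2
  set f₁ : ℤ := ⌊(((n : ℤ) - (r.val : ℤ) : ℤ) : ℚ) / ((N : ℤ) : ℚ)⌋ with hf₁
  set f₂ : ℤ := ⌊((-(n : ℤ) - 1 - (r.val : ℤ) : ℤ) : ℚ) / ((N : ℤ) : ℚ)⌋ with hf₂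
  have h3 : ((cl N n r : ℕ) : ℤ) = max (f₁ - f₂) 0 := by
    unfold cl
    rw [h2, hf₁, hf₂]
    push_cast
    rfl
  have hNq : (0 : ℚ) < N := by exact_mod_cast hN
  have a1 := Int.floor_le ((((n : ℤ) - (r.val : ℤ) : ℤ) : ℚ) / ((N : ℤ) : ℚ))
  have a2 := Int.lt_floor_add_one ((((n : ℤ) - (r.val : ℤ) : ℤ) : ℚ) / ((N : ℤ) : ℚ))
  have b1 := Int.floor_le (((-(n : ℤ) - 1 - (r.val : ℤ) : ℤ) : ℚ) / ((N : ℤ) : ℚ))
  have b2 := Int.lt_floor_add_one (((-(n : ℤ) - 1 - (r.val : ℤ) : ℤ) : ℚ) / ((N : ℤ) : ℚ))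
  rw [← hf₁] at a1 a2
  rw [← hf₂] at b1 b2
  push_cast at a1 a2 b1 b2
  have h4 : (f₂ : ℚ) ≤ f₁ := by
    have : f₂ ≤ f₁ := by
      rw [hf₁, hf₂]
      apply Int.floor_le_floor
      apply div_le_div_of_nonneg_right _ (by exact_mod_cast hNq.le)
      push_cast
      have : (0 : ℚ) ≤ n := by positivity
      linarith
    exact_mod_cast this
  have h5 : ((cl N n r : ℕ) : ℤ) = f₁ - f₂ := by
    rw [h3, max_eq_left]
    have : f₂ ≤ f₁ := by exact_mod_cast h4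
    linarith
  have h6 : ((cl N n r : ℕ) : ℚ) = f₁ - f₂ := by exact_mod_cast h5
  have h7 : |((cl N n r : ℕ) : ℚ) - 2 * n / N| ≤ 2 := by
    rw [h6]
    have e1 : ((n : ℚ) - r.val) / N - (-(n : ℚ) - 1 - r.val) / N = 2 * n / N + 1 / N := by
      field_simp
      ring
    have e2 : (1 : ℚ) / N ≤ 1 := by
      rw [div_le_one hNq]
      exact_mod_cast hN
    have e3 : (0 : ℚ) < 1 / N := by positivity
    rw [abs_le]
    constructor <;> linarith
  have h8 : ((|((cl N n r : ℕ) : ℚ) - 2 * n / N| : ℚ) : ℝ) ≤ ((2 : ℚ) : ℝ) := by exact_mod_cast h7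
  push_cast at h8
  exact h8

theorem sum_Box {k N : ℕ} [NeZero N] (a : Fin k → ℕ) (ψ : (Fin k → ZMod N) → ℝ) :
    ∑ x ∈ Box a, ψ (fun j => ((x j : ℤ) : ZMod N)) = ∑ r : Fin k → ZMod N, ψ r * ∏ j, (cl N (a j) (r j) : ℝ) := by
  classical
  rw [← Finset.sum_fiberwise_of_maps_to (s := Box a) (t := (Finset.univ : Finset (Fin k → ZMod N)))
    (g := fun x => fun j => ((x j : ℤ) : ZMod N)) (fun x _ => mem_univ _)]
  refine Finset.sum_congr rfl fun r _ => ?_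
  have h1 : (Box a).filter (fun x => (fun j => ((x j : ℤ) : ZMod N)) = r) =
      Fintype.piFinset fun j => (Icc (-(a j : ℤ)) (a j)).filter fun y => ((y : ℤ) : ZMod N) = r j := by
    ext x
    rw [mem_filter, Fintype.mem_piFinset]
    unfold Box
    rw [Fintype.mem_piFinset, funext_iff, ← forall_and]
    exact forall_congr' fun j => by rw [mem_filter]
  have h2 : ∀ x ∈ (Box a).filter (fun x => (fun j => ((x j : ℤ) : ZMod N)) = r),
      ψ (fun j => ((x j : ℤ) : ZMod N)) = ψ r := by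
    intro x hx
    rw [(mem_filter.1 hx).2]
  rw [Finset.sum_congr rfl h2, Finset.sum_const, h1, Fintype.card_piFinset, nsmul_eq_mul, mul_comm]
  unfold cl
  push_cast
  rfl

end Pool.Agent.X278.AV
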