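import Pool.Agent.X278.AV.Law
import Pool.Agent.X293.EV.Nz

set_option autoImplicit false

/-!
# The congruent number curve `y² = x³ - x`: the series of the squares of the Frobenius eigenvalues
-/

open Complex Filter Topology Set

namespace Pool.Agent.X278.AV.Cg

open Pool.Agent.H304R2.EC (aE an aE_eq an_inert)
open Pool.Agent.X293.EV (FF h2 h2_norm euler_e FF_ne_line qe ce ce_HC)

/-- the character modulo 4, with complex values -/
noncomputable def c4 : DirichletCharacter ℂ 4 := ZMod.χ₄.ringHomComp (Int.castRingHom ℂ)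

theorem c4_apply (n : ZMod 4) : c4 n = ((ZMod.χ₄ n : ℤ) : ℂ) := rfl

theorem c4_one (p : ℕ) (h : p % 4 = 1) : c4 (p : ZMod 4) = 1 := by
  rw [c4_apply, ZMod.χ₄_nat_one_mod_four h]
  norm_num

theorem c4_three (p : ℕ) (h : p % 4 = 3) : c4 (p : ZMod 4) = -1 := by
  rw [c4_apply, ZMod.χ₄_nat_three_mod_four h]
  norm_num

theorem c4_two : c4 ((2 : ℕ) : ZMod 4) = 0 := by
  rw [c4_apply]
  have : ZMod.χ₄ ((2 : ℕ) : ZMod 4) = 0 := by decide
  rw [this]
  norm_num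

theorem c4_ne : c4 ≠ 1 := by
  intro h
  have h1 := c4_three 3 (by norm_num)
  have h2 := c4_three 3 (by norm_num)
  rw [h, MulChar.one_apply (by decide)] at h1
  norm_num at h1

/-- one half of `a ± √(a² - 4p)` -/
noncomputable def dl (p : ℕ) : ℂ := (((aE p : ℤ) : ℂ) ^ 2 - 4 * (p : ℂ)) ^ ((2 : ℕ)⁻¹ : ℂ)

theorem dl_sq (p : ℕ) : dl p ^ 2 = ((aE p : ℤ) : ℂ) ^ 2 - 4 * (p : ℂ) := by
  unfold dl
  exact Complex.cpow_nat_inv_pow _ two_ne_zero

noncomputable def al (p : ℕ) : ℂ := (((aE p : ℤ) : ℂ) + dl p) / 2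

noncomputable def be (p : ℕ) : ℂ := (((aE p : ℤ) : ℂ) - dl p) / 2

theorem al_be (p : ℕ) : al p + be p = ((aE p : ℤ) : ℂ) ∧ al p * be p = p := by
  refine ⟨by unfold al be; ring, ?_⟩
  have h := dl_sq p
  unfold al be
  linear_combination (-1 / 4 : ℂ) * h

/-- the series of the squares -/
noncomputable def F2 (s : ℂ) : ℂ :=
  (FF 2 s * (1 - h2 2 * (2 : ℂ) ^ (-s)) * c4.LFunction s *
    ((1 - (2 : ℂ) ^ (-s))⁻¹ * (1 + (3 : ℂ) ^ (-s)) ^ 2)) * (riemannZeta s)⁻¹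

theorem norm_lt {p : ℕ} (hp : p.Prime) {s : ℂ} (hs : 0 < s.re) : ‖(p : ℂ) ^ (-s)‖ < 1 := by
  rw [Complex.norm_natCast_cpow_of_pos hp.pos, Complex.neg_re]
  exact Real.rpow_lt_one_of_one_lt_of_neg (by exact_mod_cast hp.one_lt) (by linarith)

theorem one_sub_ne {z : ℂ} (h : ‖z‖ < 1) : 1 - z ≠ 0 := by
  intro h1
  have : z = 1 := (sub_eq_zero.1 h1).symm
  rw [this, norm_one] at h
  exact lt_irrefl _ h

theorem one_add_ne {z : ℂ} (h : ‖z‖ < 1) : 1 + z ≠ 0 := by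
  have := one_sub_ne (z := -z) (by rwa [norm_neg])
  rwa [sub_neg_eq_add] at this

theorem single (q : ℕ) (hq : q.Prime) (a : ℂ) :
    HasProd (fun p : Nat.Primes => if (p : ℕ) = q then a else 1) a := by
  classical
  refine (hasProd_ite_eq (⟨q, hq⟩ : Nat.Primes) a).congr_fun fun p => ?_
  by_cases h : (p : ℕ) = q
  · have h' : p = ⟨q, hq⟩ := Subtype.ext h
    rw [if_pos h, if_pos h']
  · have h' : p ≠ (⟨q, hq⟩ : Nat.Primes) := fun h' => h (congrArg Subtype.val h')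
    rw [if_neg h, if_neg h']

theorem F2_prod {s : ℂ} (hs : 1 < s.re) : HasProd (fun p : Nat.Primes =>
    if (p : ℕ) = 2 ∨ (p : ℕ) = 3 then (1 : ℂ) else
      (1 - ((((aE (p : ℕ) : ℤ) : ℂ)) ^ 2 / ((p : ℕ) : ℂ) - 2) * ((p : ℕ) : ℂ) ^ (-s) +
        ((p : ℕ) : ℂ) ^ (-(2 * s)))⁻¹) (F2 s) := by
  classical
  have hs0 : 0 < s.re := by linarith
  -- the Hecke factor
  have h1 := euler_e (k := 2) (by decide) (by decide) al be (fun p hp h2 => al_be p) s hs
  set g : {p : ℕ // p.Prime ∧ p ≠ 2} → Nat.Primes := fun p => ⟨p.1, p.2.1⟩ with hg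
  have hginj : Function.Injective g := by
    intro a b hab
    apply Subtype.ext
    have := congrArg (fun x : Nat.Primes => (x : ℕ)) hab
    simpa [hg] using this
  set e1 : Nat.Primes → ℂ := fun p => if (p : ℕ) = 2 then 1 else
    (if (p : ℕ) % 4 = 3 then 1 - ((p : ℕ) : ℂ) ^ (-(2 * s)) else
      (1 - al p ^ 2 * ((p : ℕ) : ℂ) ^ (-(s + (2 : ℕ) / 2))) *
      (1 - be p ^ 2 * ((p : ℕ) : ℂ) ^ (-(s + (2 : ℕ) / 2))))⁻¹ with he1
  have H1 : HasProd e1 (FF 2 s * (1 - h2 2 * (2 : ℂ) ^ (-s))) := by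
    refine (hginj.hasProd_iff ?_).1 ?_
    · intro p hp
      have h2' : (p : ℕ) = 2 := by
        by_contra h2'
        exact hp ⟨⟨p.1, p.2, h2'⟩, rfl⟩
      rw [he1]
      simp only [h2', if_true]
    · refine h1.congr_fun fun p => ?_
      rw [he1]
      simp only [Function.comp, hg, if_neg p.2.2]
  have H2 : HasProd (fun p : Nat.Primes => (1 - c4 ((p : ℕ) : ZMod 4) * ((p : ℕ) : ℂ) ^ (-s))⁻¹)
      (c4.LFunction s) := by
    have h := DirichletCharacter.LSeries_eulerProduct_hasProd c4 hs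
    rwa [← DirichletCharacter.LFunction_eq_LSeries c4 hs] at h
  have H3 : HasProd (fun p : Nat.Primes => ((1 - ((p : ℕ) : ℂ) ^ (-s))⁻¹)⁻¹) (riemannZeta s)⁻¹ :=
    (riemannZeta_eulerProduct_hasProd hs).inv₀ (riemannZeta_ne_zero_of_one_lt_re hs)
  have H4 := single 2 Nat.prime_two (1 - (2 : ℂ) ^ (-s))⁻¹
  have H5 := single 3 Nat.prime_three ((1 + (3 : ℂ) ^ (-s)) ^ 2)
  have H := ((H1.mul H2).mul (H4.mul H5)).mul H3
  refine H.congr_fun fun p => ?_
  obtain ⟨p, hp⟩ := p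
  simp only [he1]
  have hX := norm_lt hp hs0
  have hXX : (p : ℂ) ^ (-(2 * s)) = ((p : ℂ) ^ (-s)) ^ 2 := by
    rw [← Complex.cpow_nat_mul]
    congr 1
    push_cast
    ring
  have hp0 : (p : ℂ) ≠ 0 := Nat.cast_ne_zero.mpr hp.ne_zero
  have hY : (p : ℂ) ^ (-(s + (2 : ℕ) / 2)) = (p : ℂ) ^ (-s) / p := by
    rw [neg_add, Complex.cpow_add _ _ hp0]
    have e2 : -(((2 : ℕ) : ℂ) / 2) = -1 := by push_cast; ring
    rw [e2, Complex.cpow_neg_one, div_eq_mul_inv]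
  rw [hXX, hY]
  by_cases hp2 : p = 2
  · subst hp2
    have e3 : (2 : ℂ) ^ (-s) = ((2 : ℕ) : ℂ) ^ (-s) := by norm_cast
    have hz := one_sub_ne hX
    simp only [c4_two, true_or, if_true, zero_mul, sub_zero, inv_one, mul_one, one_mul, inv_inv,
      if_neg (show ¬ (2 : ℕ) = 3 by norm_num)]
    rw [e3]
    exact (inv_mul_cancel₀ hz).symm
  by_cases hp3 : p = 3
  · subst hp3
    have e3 : (3 : ℂ) ^ (-s) = ((3 : ℕ) : ℂ) ^ (-s) := by norm_cast
    have hz := one_sub_ne hX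
    have hz2 := one_add_ne hX
    have hc := c4_three 3 (by norm_num)
    simp only [hc, or_true, if_true, if_neg hp2, if_pos (show (3 : ℕ) % 4 = 3 by norm_num), one_mul, inv_inv]
    rw [e3]
    set X : ℂ := ((3 : ℕ) : ℂ) ^ (-s) with hXd
    have e4 : 1 - X ^ 2 = (1 - X) * (1 + X) := by ring
    have e5 : 1 - -1 * X = 1 + X := by ring
    rw [e4, e5]
    field_simp
  · have hodd : p % 2 = 1 := hp.eq_two_or_odd.resolve_left hp2
    have hor : ¬ (p = 2 ∨ p = 3) := by tauto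
    rw [if_neg hor]
    simp only [if_neg hp2, if_neg hp3, mul_one, inv_inv]
    set X : ℂ := (p : ℂ) ^ (-s) with hXd
    have hz := one_sub_ne hX
    have hz2 := one_add_ne hX
    by_cases h3 : p % 4 = 3
    · rw [if_pos h3, c4_three p h3, aE_eq p hp hp2, an_inert p hp h3]
      have e4 : 1 - X ^ 2 = (1 - X) * (1 + X) := by ring
      have e5 : 1 - -1 * X = 1 + X := by ring
      have e6 : 1 - (((0 : ℤ) : ℂ) ^ 2 / (p : ℂ) - 2) * X + X ^ 2 = (1 + X) * (1 + X) := by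
        push_cast
        ring
      rw [e4, e5, e6]
      field_simp
    · have h1' : p % 4 = 1 := by omega
      rw [if_neg h3, c4_one p h1', one_mul]
      obtain ⟨ha, hb⟩ := al_be p
      have e7 : (1 - al p ^ 2 * (X / p)) * (1 - be p ^ 2 * (X / p)) =
          1 - (((aE p : ℤ) : ℂ) ^ 2 / (p : ℂ) - 2) * X + X ^ 2 := by
        rw [← ha]
        field_simp
        linear_combination (2 * (p : ℂ) * X + X ^ 2 * (al p * be p + p)) * hb
      rw [e7, mul_assoc, inv_mul_cancel₀ hz, mul_one]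

theorem an_cpow {a : ℂ} (ha : a ≠ 0) (z : ℂ) : AnalyticAt ℂ (fun s : ℂ => a ^ (-s)) z := by
  have : Differentiable ℂ (fun s : ℂ => a ^ (-s)) := fun s =>
    (differentiableAt_id.neg).const_cpow (Or.inl ha)
  exact this.analyticAt z

theorem F2_order : MeromorphicAt F2 1 ∧ meromorphicOrderAt F2 1 = ((1 : ℤ) : WithTop ℤ) := by
  set G : ℂ → ℂ := fun s => FF 2 s * (1 - h2 2 * (2 : ℂ) ^ (-s)) * c4.LFunction s *
    ((1 - (2 : ℂ) ^ (-s))⁻¹ * (1 + (3 : ℂ) ^ (-s)) ^ 2) with hG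
  have hFF : Differentiable ℂ (FF 2) := by
    obtain ⟨A, hA, hgood⟩ := Pool.Agent.W354.PK.goodK
    exact (hgood 2 (qe 2) (ce 2) (by omega) (ce_HC (by decide))).1
  have n2 : ‖(2 : ℂ) ^ (-(1 : ℂ))‖ < 1 := by
    have := norm_lt Nat.prime_two (s := 1) (by simp)
    exact_mod_cast this
  have n3 : ‖(3 : ℂ) ^ (-(1 : ℂ))‖ < 1 := by
    have := norm_lt Nat.prime_three (s := 1) (by simp)
    exact_mod_cast this
  have a2 := an_cpow (two_ne_zero : (2 : ℂ) ≠ 0) 1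
  have a3 := an_cpow (three_ne_zero : (3 : ℂ) ≠ 0) 1
  have hne2 : 1 - (2 : ℂ) ^ (-(1 : ℂ)) ≠ 0 := one_sub_ne n2
  have hGa : AnalyticAt ℂ G 1 := by
    refine (((hFF.analyticAt 1).mul (analyticAt_const.sub (analyticAt_const.mul a2))).mul
      ((DirichletCharacter.differentiable_LFunction c4_ne).analyticAt 1)).mul
      (((analyticAt_const.sub a2).inv hne2).mul ((analyticAt_const.add a3).pow 2))
  have hG1 : G 1 ≠ 0 := by
    have t1 : FF 2 1 ≠ 0 := by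
      have := FF_ne_line (k := 2) (by decide) (by decide) 0
      have e : (⟨1, 0⟩ : ℂ) = 1 := rfl
      rwa [e] at this
    have t2 : 1 - h2 2 * (2 : ℂ) ^ (-(1 : ℂ)) ≠ 0 := by
      refine one_sub_ne ?_
      rw [norm_mul]
      calc ‖h2 2‖ * ‖(2 : ℂ) ^ (-(1 : ℂ))‖ ≤ 1 * ‖(2 : ℂ) ^ (-(1 : ℂ))‖ :=
            mul_le_mul_of_nonneg_right (h2_norm (by decide)) (norm_nonneg _)
        _ < 1 := by rwa [one_mul]
    have t3 : c4.LFunction 1 ≠ 0 := DirichletCharacter.LFunction_apply_one_ne_zero c4_ne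
    have t4 : (1 + (3 : ℂ) ^ (-(1 : ℂ))) ^ 2 ≠ 0 := pow_ne_zero _ (one_add_ne n3)
    rw [hG]
    exact mul_ne_zero (mul_ne_zero (mul_ne_zero t1 t2) t3) (mul_ne_zero (inv_ne_zero hne2) t4)
  obtain ⟨z1, z2⟩ := zeta_order
  have hGm := hGa.meromorphicAt
  have hG0 : meromorphicOrderAt G 1 = ((0 : ℤ) : WithTop ℤ) := by
    rw [hGa.meromorphicOrderAt_eq, hGa.analyticOrderAt_eq_zero.2 hG1]
    rfl
  have e : F2 = G * riemannZeta⁻¹ := by
    funext s
    rfl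
  rw [e]
  refine ⟨hGm.mul z1.inv, ?_⟩
  rw [meromorphicOrderAt_mul hGm z1.inv, meromorphicOrderAt_inv, hG0, z2]
  rfl

end Pool.Agent.X278.AV.Cg
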