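import Pool.Agent.X278.AV.CgA

set_option autoImplicit false

/-!
Continuation of the L-function of `ψ²`, imprimitive characters allowed; after `Pool.Agent.W354.PK.SqK`.
-/

open Finset Filter Topology MeasureTheory Set Asymptotics

namespace Pool.Agent.X278.AV.Cg.W

open Pool.Agent.W354.PK hiding uh_psik psi_sq

open Pool.Agent.H304R3.HK (tc UH CS bb LamK Rep eq_ GS Lg hasSum_rep lg_bb uh_sq)
open Pool.Agent.H304R3.HK.T2 (tc_norm_sq hasSum_fibre eG)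
open Pool.Agent.W354.PK.TK (psik_apply)

/-- `χ` is a bounded multiplicative periodic function on `ℤ[i]` with `χ(i) = (-i)^k` -/
structure HCw (k : ℕ) (q : GaussianInt) (χ : GaussianInt →* ℂ) : Prop where
  q0 : q ≠ 0
  per : ∀ a b : GaussianInt, q ∣ a - b → χ a = χ b
  le : ∀ a : GaussianInt, ‖χ a‖ ≤ 1
  unit : χ ⟨0, 1⟩ = (-Complex.I) ^ k

theorem chi_le {k : ℕ} {q : GaussianInt} {χ : GaussianInt →* ℂ} (H : HCw k q χ) (a : GaussianInt) : ‖χ a‖ ≤ 1 := H.le a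

theorem psik_i {k : ℕ} {q : GaussianInt} {χ : GaussianInt →* ℂ} (H : HCw k q χ) :
    psik k χ ⟨0, 1⟩ = 1 := by
  have h0 : (⟨0, 1⟩ : GaussianInt) ≠ 0 := by
    intro h
    have := congrArg Zsqrtd.im h
    simp at this
  rw [psik_apply, if_neg h0, H.unit]
  have e : tc ⟨0, 1⟩ = Complex.I := by simp [tc]
  rw [e]
  simp only [Complex.norm_I, Complex.ofReal_one, div_one]
  rw [← mul_pow]
  simp

theorem uh_psik {k : ℕ} {q : GaussianInt} {χ : GaussianInt →* ℂ} (H : HCw k q χ) :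
    UH (psik k χ) := by
  refine ⟨?_, ?_, psik_i H⟩
  · rw [psik_apply, if_pos rfl]
  · intro a
    rw [psik_apply]
    split_ifs with h
    · simp
    · rw [norm_mul, norm_pow, norm_div, Complex.norm_real, norm_norm,
        div_self (norm_ne_zero_iff.2 (Pool.Agent.H304R3.HK.G1a.tc_ne h)), one_pow, mul_one]
      exact chi_le H a

namespace SQ

/-- the coefficients of `L(s, ψ²)` -/
noncomputable def b2 (k : ℕ) (χ : GaussianInt →* ℂ) (n : ℕ) : ℂ :=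
  bb (fun a => (psik k χ a) ^ 2) n

theorem b2_lg {k : ℕ} {q : GaussianInt} {χ : GaussianInt →* ℂ} (H : HCw k q χ) :
    b2 k χ 0 = 0 ∧ ∀ n : ℕ, ‖b2 k χ n‖ ≤ n.divisors.card := by
  have h := lg_bb _ (uh_sq _ (uh_psik H))
  exact ⟨h.b0, h.bd⟩

/-- the term of the lattice sum -/
noncomputable def ff (k : ℕ) (χ : GaussianInt →* ℂ) (y : ℝ) (a : GaussianInt) : ℂ :=
  (χ a) ^ 2 * (tc a) ^ (2 * k) *
    (Real.exp (-Real.pi * ((a.re : ℝ) ^ 2 + (a.im : ℝ) ^ 2) * y) : ℂ)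

theorem fibre_term {k : ℕ} (hk : 1 ≤ k) (χ : GaussianInt →* ℂ) (y : ℝ) (n : ℕ) :
    ∑ p ∈ CS n, ff k χ y ⟨p.1, p.2⟩ =
      4 * (b2 k χ n * (Real.sqrt n : ℂ) ^ (2 * k) * (Real.exp (-Real.pi * n * y) : ℂ)) := by
  unfold b2 bb
  have hsq : (Real.sqrt n : ℂ) ^ (2 * k) = (n : ℂ) ^ k := by
    rw [pow_mul, ← Complex.ofReal_pow, Real.sq_sqrt (Nat.cast_nonneg n)]
    simp
  have h1 : ∀ p ∈ CS n, ff k χ y ⟨p.1, p.2⟩ =
      (psik k χ ⟨p.1, p.2⟩) ^ 2 * (Real.sqrt n : ℂ) ^ (2 * k) *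
        (Real.exp (-Real.pi * n * y) : ℂ) := by
    intro p hp
    rw [Pool.Agent.H304R3.HK.T2.mem_CS] at hp
    have hp' : ((p.1 : ℤ) : ℝ) ^ 2 + ((p.2 : ℤ) : ℝ) ^ 2 = n := by exact_mod_cast hp
    unfold ff
    simp only [hp']
    congr 1
    rw [psik_apply, hsq]
    split_ifs with h
    · have : tc ⟨p.1, p.2⟩ = 0 := by rw [h]; simp [tc]
      rw [this, zero_pow (by omega)]; simp
    · have h2 : (‖tc ⟨p.1, p.2⟩‖ : ℂ) ^ 2 = n := by
        have := tc_norm_sq ⟨p.1, p.2⟩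
        simp only [hp'] at this
        exact_mod_cast this
      have h3 : (‖tc ⟨p.1, p.2⟩‖ : ℂ) ≠ 0 := by
        exact_mod_cast (norm_ne_zero_iff.2 (Pool.Agent.H304R3.HK.G1a.tc_ne h))
      rw [← h2, mul_pow, div_pow, div_pow, ← pow_mul, ← pow_mul, ← pow_mul, mul_comm k 2]
      field_simp
  rw [Finset.sum_congr rfl h1, ← Finset.sum_mul, ← Finset.sum_mul]
  ring

theorem TG_of_lattice {k : ℕ} (hk : 1 ≤ k) {q : GaussianInt} {χ : GaussianInt →* ℂ}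
    (H : HCw k q χ) {y : ℝ} (hy : 0 < y)
    (S : ℂ) (h : HasSum (ff k χ y) S) : THk (2 * k) (b2 k χ) y = S / 4 := by
  have h1 : HasSum (ff k χ y ∘ eG) S := (Equiv.hasSum_iff eG).2 h
  have h2 := hasSum_fibre _ _ h1
  have h3 : (fun n : ℕ => ∑ p ∈ CS n, (ff k χ y ∘ eG) p) =
      fun n : ℕ => 4 * (b2 k χ n * (Real.sqrt n : ℂ) ^ (2 * k) *
        (Real.exp (-Real.pi * n * y) : ℂ)) := by
    funext n
    exact fibre_term hk χ y n
  rw [h3] at h2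
  have h4 := (L1.TH_hasSum (2 * k) (b2 k χ) (b2_lg H).2 hy).mul_left 4
  have h5 := h4.unique h2
  rw [← h5]; ring

theorem norm_pair (k : ℕ) (p : ℤ × ℤ) : ‖((p.1 : ℂ) + (p.2 : ℂ) * Complex.I) ^ (2 * k)‖ =
    ((p.1 : ℝ) ^ 2 + (p.2 : ℝ) ^ 2) ^ k := by
  have := tc_norm_sq ⟨p.1, p.2⟩
  rw [norm_pow, pow_mul]
  have h2 : ‖(p.1 : ℂ) + (p.2 : ℂ) * Complex.I‖ ^ 2 = (p.1 : ℝ) ^ 2 + (p.2 : ℝ) ^ 2 := this
  rw [h2]

theorem summ_C0 (k : ℕ) : Summable (fun p : ℤ × ℤ => ((p.1 : ℝ) ^ 2 + (p.2 : ℝ) ^ 2) ^ k *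
    Real.exp (-Real.pi * ((p.1 : ℝ) ^ 2 + (p.2 : ℝ) ^ 2) / 2)) := by
  have h := TK.summ_lat (2 * k) (y := 1 / 2) (by norm_num)
  refine h.congr fun p => ?_
  have h2 : ‖tc (Pool.Agent.H304R3.HK.T1.eqv p)‖ ^ 2 = (p.1 : ℝ) ^ 2 + (p.2 : ℝ) ^ 2 :=
    tc_norm_sq ⟨p.1, p.2⟩
  rw [pow_mul, h2]
  congr 2
  ring

/-- bound for one class -/
theorem V_bound {k : ℕ} (hk : 1 ≤ k) (a b Y : ℝ) (hY : 0 < Y) (hY1 : Y ≤ 1) (V : ℂ)
    (hV : HasSum (fun p : ℤ × ℤ => ((-Complex.I) ^ (2 * k) / (Y : ℂ) ^ (2 * k + 1)) *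
      ((p.1 : ℂ) + (p.2 : ℂ) * Complex.I) ^ (2 * k) *
      Complex.exp (2 * Real.pi * Complex.I * ((p.1 : ℂ) * a + (p.2 : ℂ) * b)) *
      (Real.exp (-Real.pi * ((p.1 : ℝ) ^ 2 + (p.2 : ℝ) ^ 2) / Y) : ℂ)) V) :
    ‖V‖ ≤ (∑' p : ℤ × ℤ, ((p.1 : ℝ) ^ 2 + (p.2 : ℝ) ^ 2) ^ k *
      Real.exp (-Real.pi * ((p.1 : ℝ) ^ 2 + (p.2 : ℝ) ^ 2) / 2)) *
        (1 / Y ^ (2 * k + 1) * Real.exp (-(Real.pi / (2 * Y)))) := by
  have hs := (summ_C0 k).mul_right (1 / Y ^ (2 * k + 1) * Real.exp (-(Real.pi / (2 * Y))))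
  rw [← tsum_mul_right, ← hV.tsum_eq]
  refine tsum_of_norm_bounded hs.hasSum (fun p => ?_)
  rw [norm_mul, norm_mul, norm_mul, norm_pair, Complex.norm_real, Real.norm_eq_abs,
    abs_of_pos (Real.exp_pos _)]
  have h4 : ‖Complex.exp (2 * Real.pi * Complex.I * ((p.1 : ℂ) * a + (p.2 : ℂ) * b))‖ = 1 := by
    have : (2 * Real.pi * Complex.I * ((p.1 : ℂ) * a + (p.2 : ℂ) * b) : ℂ) =
        ((2 * Real.pi * ((p.1 : ℝ) * a + (p.2 : ℝ) * b) : ℝ) : ℂ) * Complex.I := by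
      push_cast; ring
    rw [this, Complex.norm_exp_ofReal_mul_I]
  have h5 : ‖((-Complex.I) ^ (2 * k) / ((Y : ℂ)) ^ (2 * k + 1) : ℂ)‖ = 1 / Y ^ (2 * k + 1) := by
    rw [norm_div, norm_pow, norm_neg, Complex.norm_I, one_pow, norm_pow, Complex.norm_real,
      Real.norm_eq_abs, abs_of_pos hY]
  rw [h4, h5, mul_one]
  by_cases h0 : p.1 ^ 2 + p.2 ^ 2 = 0
  · have h0' : (p.1 : ℝ) ^ 2 + (p.2 : ℝ) ^ 2 = 0 := by exact_mod_cast h0
    rw [h0', zero_pow (by omega)]; simp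
  · have h1 : 1 ≤ p.1 ^ 2 + p.2 ^ 2 := by
      have : 0 ≤ p.1 ^ 2 + p.2 ^ 2 := by positivity
      omega
    have h1' : (1 : ℝ) ≤ (p.1 : ℝ) ^ 2 + (p.2 : ℝ) ^ 2 := by exact_mod_cast h1
    set N : ℝ := (p.1 : ℝ) ^ 2 + (p.2 : ℝ) ^ 2 with hN
    have h6 : Real.exp (-Real.pi * N / Y) ≤
        Real.exp (-Real.pi * N / 2) * Real.exp (-(Real.pi / (2 * Y))) := by
      rw [← Real.exp_add]
      apply Real.exp_le_exp.mpr
      have hpi := Real.pi_pos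
      have h7 : -Real.pi * N / Y = -(Real.pi * N / (2 * Y)) - Real.pi * N / (2 * Y) := by
        field_simp; ring
      have h8 : Real.pi * N / 2 ≤ Real.pi * N / (2 * Y) := by
        apply div_le_div_of_nonneg_left (by positivity) (by positivity) (by linarith)
      have h9 : Real.pi / (2 * Y) ≤ Real.pi * N / (2 * Y) := by
        apply div_le_div_of_nonneg_right _ (by positivity)
        nlinarith
      rw [h7]
      have h10 : -Real.pi * N / 2 = -(Real.pi * N / 2) := by ring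
      rw [h10]
      linarith
    calc 1 / Y ^ (2 * k + 1) * N ^ k * Real.exp (-Real.pi * N / Y)
        ≤ 1 / Y ^ (2 * k + 1) * N ^ k *
          (Real.exp (-Real.pi * N / 2) * Real.exp (-(Real.pi / (2 * Y)))) :=
          mul_le_mul_of_nonneg_left h6 (by positivity)
      _ = N ^ k * Real.exp (-Real.pi * N / 2) *
          (1 / Y ^ (2 * k + 1) * Real.exp (-(Real.pi / (2 * Y)))) := by
          ring

/-- the lattice sum by classes and the resulting bound -/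
theorem TG_small {k : ℕ} (hk : 1 ≤ k) {q : GaussianInt} {χ : GaussianInt →* ℂ} (H : HCw k q χ) :
    ∃ C : ℝ, ∀ y : ℝ, 0 < y → y * ‖tc q‖ ^ 2 ≤ 1 → ‖THk (2 * k) (b2 k χ) y‖ ≤
      C * (1 / (y * ‖tc q‖ ^ 2) ^ (2 * k + 1) *
        Real.exp (-(Real.pi / (2 * (y * ‖tc q‖ ^ 2))))) := by
  have hq0 : tc q ≠ 0 := Pool.Agent.H304R3.HK.G1a.tc_ne H.q0
  have hqn : 0 < ‖tc q‖ := norm_pos_iff.2 hq0
  set C0 : ℝ := ∑' p : ℤ × ℤ, ((p.1 : ℝ) ^ 2 + (p.2 : ℝ) ^ 2) ^ k *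
      Real.exp (-Real.pi * ((p.1 : ℝ) ^ 2 + (p.2 : ℝ) ^ 2) / 2) with hC0
  refine ⟨(Rep q).card * (‖tc q‖ ^ (2 * k) * C0) / 4, fun y hy hy1 => ?_⟩
  set Y : ℝ := y * ‖tc q‖ ^ 2 with hY
  have hY0 : 0 < Y := by positivity
  choose V hV1 hV2 using fun c : GaussianInt =>
    kernk_fe (2 * k) (tc c / tc q).re (tc c / tc q).im Y hY0
  have hVb : ∀ c, ‖V c‖ ≤ C0 * (1 / Y ^ (2 * k + 1) * Real.exp (-(Real.pi / (2 * Y)))) := fun c =>
    V_bound hk _ _ Y hY0 hy1 (V c) (hV2 c)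
  have hsum : HasSum (ff k χ y) (∑ c ∈ Rep q, (χ c) ^ 2 * (tc q) ^ (2 * k) * V c) := by
    refine hasSum_rep q H.q0 (ff k χ y) _ (fun c _ => ?_)
    have h1 := (hV1 c).mul_left ((χ c) ^ 2 * (tc q) ^ (2 * k))
    have h2 : HasSum ((fun n : GaussianInt => ff k χ y (c + q * n)) ∘ eG)
        ((χ c) ^ 2 * (tc q) ^ (2 * k) * V c) := by
      refine h1.congr_fun ?_
      intro p
      have e0 : (eG p) = (⟨p.1, p.2⟩ : GaussianInt) := rfl
      have e1 : χ (c + q * eG p) = χ c := H.per _ _ ⟨eG p, by ring⟩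
      have e2 : tc (c + q * eG p) = tc q * (((((p.1 : ℝ) + (tc c / tc q).re : ℝ) : ℂ)) +
          (((p.2 : ℝ) + (tc c / tc q).im : ℝ) : ℂ) * Complex.I) := by
        rw [Pool.Agent.H304R3.HK.G1a.tc_add, Pool.Agent.H304R3.HK.G1a.tc_mul]
        have e3 : tc (eG p) = (p.1 : ℂ) + (p.2 : ℂ) * Complex.I := rfl
        have e4 : ((((p.1 : ℝ) + (tc c / tc q).re : ℝ) : ℂ)) +
          (((p.2 : ℝ) + (tc c / tc q).im : ℝ) : ℂ) * Complex.I =
            ((p.1 : ℂ) + (p.2 : ℂ) * Complex.I) + tc c / tc q := by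
          conv_rhs => rw [← Complex.re_add_im (tc c / tc q)]
          push_cast
          ring
        rw [e3, e4]
        field_simp
        ring
      have e5 : ((c + q * eG p).re : ℝ) ^ 2 + ((c + q * eG p).im : ℝ) ^ 2 = ‖tc q‖ ^ 2 *
          (((p.1 : ℝ) + (tc c / tc q).re) ^ 2 + ((p.2 : ℝ) + (tc c / tc q).im) ^ 2) := by
        rw [← tc_norm_sq, e2, norm_mul, mul_pow]
        congr 1
        rw [← Complex.normSq_eq_norm_sq, Complex.normSq_apply]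
        simp only [Complex.add_re, Complex.add_im, Complex.mul_re, Complex.mul_im,
          Complex.ofReal_re, Complex.ofReal_im, Complex.I_re, Complex.I_im]
        ring
      simp only [Function.comp, ff]
      rw [e1, e2, e5]
      have e6 : -Real.pi * (‖tc q‖ ^ 2 *
          (((p.1 : ℝ) + (tc c / tc q).re) ^ 2 + ((p.2 : ℝ) + (tc c / tc q).im) ^ 2)) * y =
          -Real.pi * Y * (((p.1 : ℝ) + (tc c / tc q).re) ^ 2 +
            ((p.2 : ℝ) + (tc c / tc q).im) ^ 2) := by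
        rw [hY]; ring
      rw [e6, mul_pow (tc q)]
      ring
    exact (Equiv.hasSum_iff eG).1 h2
  rw [TG_of_lattice hk H hy _ hsum, norm_div]
  have h4 : ‖(4 : ℂ)‖ = 4 := by simp
  rw [h4, div_mul_eq_mul_div]
  refine div_le_div_of_nonneg_right ?_ (by norm_num)
  refine (norm_sum_le _ _).trans ?_
  have h5 : ∀ c ∈ Rep q, ‖(χ c) ^ 2 * (tc q) ^ (2 * k) * V c‖ ≤
      ‖tc q‖ ^ (2 * k) * (C0 * (1 / Y ^ (2 * k + 1) * Real.exp (-(Real.pi / (2 * Y))))) := by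
    intro c _
    rw [norm_mul, norm_mul, norm_pow, norm_pow]
    have h6 : ‖χ c‖ ^ 2 ≤ 1 := pow_le_one₀ (norm_nonneg _) (chi_le H c)
    calc ‖χ c‖ ^ 2 * ‖tc q‖ ^ (2 * k) * ‖V c‖ ≤ 1 * ‖tc q‖ ^ (2 * k) * ‖V c‖ := by gcongr
      _ ≤ 1 * ‖tc q‖ ^ (2 * k) *
          (C0 * (1 / Y ^ (2 * k + 1) * Real.exp (-(Real.pi / (2 * Y))))) :=
          mul_le_mul_of_nonneg_left (hVb c) (by positivity)
      _ = _ := by ring
  refine (Finset.sum_le_card_nsmul _ _ _ h5).trans (le_of_eq ?_)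
  rw [nsmul_eq_mul]
  ring

theorem TG_zero {k : ℕ} (hk : 1 ≤ k) {q : GaussianInt} {χ : GaussianInt →* ℂ} (H : HCw k q χ)
    (N : ℕ) : (THk (2 * k) (b2 k χ)) =O[𝓝[>] 0] (fun y : ℝ => y ^ (N : ℝ)) := by
  obtain ⟨C, hC⟩ := TG_small hk H
  have hq0 : tc q ≠ 0 := Pool.Agent.H304R3.HK.G1a.tc_ne H.q0
  have hqn : 0 < ‖tc q‖ := norm_pos_iff.2 hq0
  set M : ℕ := 2 * k + 1 with hM
  have hC' : ∀ y : ℝ, 0 < y → y * ‖tc q‖ ^ 2 ≤ 1 → ‖THk (2 * k) (b2 k χ) y‖ ≤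
      (|C| * (((N + M).factorial : ℝ) * (2 / Real.pi) ^ (N + M) * (‖tc q‖ ^ 2) ^ N)) *
        ‖y ^ (N : ℝ)‖ := by
    intro y hy hy1
    refine (hC y hy hy1).trans ?_
    rw [Real.rpow_natCast, Real.norm_eq_abs, abs_of_pos (by positivity : (0 : ℝ) < y ^ N)]
    set Y : ℝ := y * ‖tc q‖ ^ 2 with hY
    have hY0 : 0 < Y := by positivity
    have hpi := Real.pi_pos
    have hu : 0 ≤ Real.pi / (2 * Y) := by positivity
    have h1 := Real.pow_div_factorial_le_exp (Real.pi / (2 * Y)) hu (N + M)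
    have hf : (0 : ℝ) < ((N + M).factorial : ℝ) := by exact_mod_cast Nat.factorial_pos _
    have h2 : Real.exp (-(Real.pi / (2 * Y))) ≤
        ((N + M).factorial : ℝ) / (Real.pi / (2 * Y)) ^ (N + M) := by
      rw [Real.exp_neg, inv_le_comm₀ (Real.exp_pos _) (by positivity)]
      rw [inv_div]
      exact h1
    have h3 : 1 / Y ^ M * (((N + M).factorial : ℝ) / (Real.pi / (2 * Y)) ^ (N + M)) =
        ((N + M).factorial : ℝ) * (2 / Real.pi) ^ (N + M) * (‖tc q‖ ^ 2) ^ N * y ^ N := by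
      have h4 : Real.pi / (2 * Y) = (2 / Real.pi)⁻¹ * Y⁻¹ := by
        rw [inv_div]; field_simp
      have h5 : (‖tc q‖ ^ 2) ^ N * y ^ N = Y ^ N := by rw [← mul_pow, hY, mul_comm y]
      have h6 : (2 / Real.pi : ℝ) ≠ 0 := by positivity
      rw [h4, mul_assoc _ _ (y ^ N), h5, mul_pow (2 / Real.pi)⁻¹ Y⁻¹ (N + M), inv_pow, inv_pow,
        pow_add Y N M]
      have hY3 : Y ≠ 0 := hY0.ne'
      clear_value Y
      generalize (2 / Real.pi : ℝ) = t at h6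
      field_simp
    have h7 : 0 ≤ 1 / Y ^ M * Real.exp (-(Real.pi / (2 * Y))) := by positivity
    calc C * (1 / Y ^ M * Real.exp (-(Real.pi / (2 * Y))))
        ≤ |C| * (1 / Y ^ M * Real.exp (-(Real.pi / (2 * Y)))) :=
          mul_le_mul_of_nonneg_right (le_abs_self C) h7
      _ ≤ |C| * (1 / Y ^ M * (((N + M).factorial : ℝ) / (Real.pi / (2 * Y)) ^ (N + M))) := by
          gcongr
      _ = _ := by rw [h3]; ring
  refine IsBigO.of_bound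
    (|C| * (((N + M).factorial : ℝ) * (2 / Real.pi) ^ (N + M) * (‖tc q‖ ^ 2) ^ N)) ?_
  have hev : ∀ᶠ y : ℝ in 𝓝[>] 0, y < 1 / ‖tc q‖ ^ 2 :=
    (eventually_lt_nhds (by positivity)).filter_mono nhdsWithin_le_nhds
  filter_upwards [hev, self_mem_nhdsWithin] with y hy1 hy0
  refine hC' y hy0 ?_
  rw [lt_div_iff₀ (by positivity)] at hy1
  exact hy1.le

theorem TG_top (k : ℕ) (b : ℕ → ℂ) (hb : ∀ n : ℕ, ‖b n‖ ≤ n.divisors.card) :
    (THk k b) =O[atTop] (fun y : ℝ => Real.exp (-(Real.pi / 2) * y)) := by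
  obtain ⟨C, hC⟩ := L1.TH_bound k b hb
  refine IsBigO.of_bound C ?_
  filter_upwards [eventually_ge_atTop 1] with y hy
  rw [Real.norm_eq_abs, abs_of_pos (Real.exp_pos _)]
  exact hC y hy

theorem mellin_entire {k : ℕ} (hk : 1 ≤ k) {q : GaussianInt} {χ : GaussianInt →* ℂ}
    (H : HCw k q χ) : Differentiable ℂ (mellin (THk (2 * k) (b2 k χ))) := by
  intro s
  obtain ⟨N, hN⟩ := exists_nat_gt (-s.re)
  have h0 := TG_zero hk H N
  have h1 : (fun y : ℝ => y ^ (N : ℝ)) = fun y : ℝ => y ^ (-(-(N : ℝ))) := by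
    funext y; rw [neg_neg]
  rw [h1] at h0
  exact mellin_differentiableAt_of_isBigO_rpow_exp (a := Real.pi / 2) (by positivity)
    ((L1.TH_cont (2 * k) (b2 k χ) (b2_lg H).2).locallyIntegrableOn measurableSet_Ioi)
    (TG_top (2 * k) (b2 k χ) (b2_lg H).2) h0 (by linarith)

end SQ

open Pool.Agent.X278.AV.Cg.W.SQ in
theorem psi_sq {k : ℕ} (hk : 1 ≤ k) (q : GaussianInt) (χ : GaussianInt →* ℂ) (H : HCw k q χ) :
    ∃ G : ℂ → ℂ, Differentiable ℂ G ∧ ∀ s : ℂ, 1 < s.re →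
      HasSum (fun n : ℕ => bb (fun a => (psik k χ a) ^ 2) n * (n : ℂ) ^ (-s)) (G s) := by
  refine ⟨FFk (2 * k) (b2 k χ), ?_, fun s hs => FF_series (2 * k) (b2 k χ) (b2_lg H).1
    (b2_lg H).2 s hs⟩
  have hG : Differentiable ℂ (fun s : ℂ => (Complex.Gamma (s + ((2 * k : ℕ) : ℂ) / 2))⁻¹) :=
    Complex.differentiable_one_div_Gamma.comp (by fun_prop)
  have hc : Differentiable ℂ (fun s : ℂ => (Real.pi : ℂ) ^ (s + ((2 * k : ℕ) : ℂ) / 2)) := by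
    intro s
    exact (DifferentiableAt.const_cpow (by fun_prop)
      (Or.inl (by exact_mod_cast Real.pi_ne_zero)))
  exact (hc.mul hG).mul ((mellin_entire hk H).comp (by fun_prop))

end Pool.Agent.X278.AV.Cg.W
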