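import Pool.Agent.X278.AV.CgC
import Pool.Agent.Y763.QTPAR

set_option autoImplicit false

/-!
# The curves `y² = x³ + A x`: the series of the squares of the Frobenius eigenvalues
-/

open Complex Filter Topology Set

namespace Pool.Agent.X278.AV.Cg

open Pool.Agent.H304R3.HK (tc bb UH ee bb_zero bb_two_odd lg_bb nzr_sq nzr_sq_UH)
open Pool.Agent.H304R3.HK.M3 (In b_mul b_rec b_one b_two b_odd)
open Pool.Agent.H304R2.EC (PS Sh Sh_inert PS_split)
open Pool.Agent.H304R2.EC.EProd (local_factor)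
open Pool.Agent.W354.PK (psik)
open Pool.Agent.W354.PK.TK (psik_apply)
open Pool.Agent.Y19.QT (ap)
open Pool.Agent.Y692.QN (gz QuarticData ap_three)

theorem in_u {h : GaussianInt →* ℂ} (hU : UH h) : In h where
  z0 := bb_zero _ hU.h0
  two := fun j m hm => bb_two_odd _ hU.hi j m hm

theorem bb_pow_le {h : GaussianInt →* ℂ} (hU : UH h) {p : ℕ} (hp : p.Prime) (e : ℕ) : ‖bb h (p ^ e)‖ ≤ e + 1 := by
  have h1 := (lg_bb h hU).bd (p ^ e)
  have h2 : (p ^ e).divisors.card = e + 1 := by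
    rw [Nat.divisors_prime_pow hp, Finset.card_map, Finset.card_range]
  rw [h2] at h1
  exact_mod_cast h1

theorem loc_sum {h : GaussianInt →* ℂ} (hU : UH h) {p : ℕ} (hp : p.Prime) {s : ℂ} (hs : 0 < s.re) :
    Summable (fun e : ℕ => bb h (p ^ e) * ((p : ℂ) ^ (-s)) ^ e) := by
  have hX := norm_lt hp hs
  have h1 : Summable (fun e : ℕ => ((e : ℝ) + 1) * ‖(p : ℂ) ^ (-s)‖ ^ e) := by
    have h2 := summable_pow_mul_geometric_of_norm_lt_one 1 (r := ‖(p : ℂ) ^ (-s)‖) (by simpa using hX)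
    have h3 := summable_geometric_of_lt_one (norm_nonneg _) hX
    refine (h2.add h3).congr fun e => ?_
    ring
  refine Summable.of_norm_bounded h1 fun e => ?_
  rw [norm_mul, norm_pow]
  exact mul_le_mul_of_nonneg_right (bb_pow_le hU hp e) (by positivity)

theorem loc_mul {h : GaussianInt →* ℂ} (hU : UH h) {p : ℕ} (hp : p.Prime) {s : ℂ} (hs : 0 < s.re) :
    (1 - bb h p * (p : ℂ) ^ (-s) + ee h p * ((p : ℂ) ^ (-s)) ^ 2) *
      ∑' e : ℕ, bb h (p ^ e) * ((p : ℂ) ^ (-s)) ^ e = 1 := by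
  refine local_factor (fun e => bb h (p ^ e) * ((p : ℂ) ^ (-s)) ^ e) _ _ ?_ ?_ ?_ (loc_sum hU hp hs)
  · simp [b_one (in_u hU)]
  · simp
  · intro e
    rw [b_rec hU (in_u hU) p hp e]
    ring

theorem loc_ne {h : GaussianInt →* ℂ} (hU : UH h) {p : ℕ} (hp : p.Prime) {s : ℂ} (hs : 0 < s.re) :
    1 - bb h p * (p : ℂ) ^ (-s) + ee h p * ((p : ℂ) ^ (-s)) ^ 2 ≠ 0 :=
  left_ne_zero_of_mul_eq_one (loc_mul hU hp hs)

/-- the Euler product -/
theorem euler_u {h : GaussianInt →* ℂ} (hU : UH h) {s : ℂ} (hs : 1 < s.re) {F : ℂ}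
    (hsum : HasSum (fun n : ℕ => bb h n * (n : ℂ) ^ (-s)) F) :
    HasProd (fun p : Nat.Primes =>
      (1 - bb h p * ((p : ℕ) : ℂ) ^ (-s) + ee h p * (((p : ℕ) : ℂ) ^ (-s)) ^ 2)⁻¹) F := by
  have I : In h := in_u hU
  set f : ℕ → ℂ := fun n => bb h n * (n : ℂ) ^ (-s) with hf
  have hf1 : f 1 = 1 := by simp [hf, b_one I]
  have hf0 : f 0 = 0 := by simp [hf, I.z0]
  have hmul : ∀ {m n : ℕ}, m.Coprime n → f (m * n) = f m * f n := by
    intro m n hmn
    simp only [hf]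
    rw [b_mul I m n hmn]
    push_cast
    rw [Complex.natCast_mul_natCast_cpow]
    ring
  have hprod := EulerProduct.eulerProduct_hasProd hf1 hmul hsum.summable.norm hf0
  rw [hsum.tsum_eq] at hprod
  have hpowX : ∀ (p : ℕ) (e : ℕ), f (p ^ e) = bb h (p ^ e) * ((p : ℂ) ^ (-s)) ^ e := by
    intro p e
    simp only [hf]
    congr 1
    induction e with
    | zero => simp
    | succ e ih =>
      rw [pow_succ, pow_succ, ← ih]
      push_cast
      rw [show ((p : ℂ) ^ e) = ((p ^ e : ℕ) : ℂ) by push_cast; rfl,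
        Complex.natCast_mul_natCast_cpow]
  refine hprod.congr_fun fun p => ?_
  have h1 := loc_mul hU p.2 (s := s) (by linarith)
  have h2 : ∑' e : ℕ, f ((p : ℕ) ^ e) = ∑' e : ℕ, bb h ((p : ℕ) ^ e) * (((p : ℕ) : ℂ) ^ (-s)) ^ e :=
    tsum_congr fun e => hpowX p e
  rw [h2]
  exact (eq_inv_of_mul_eq_one_right h1).symm

/-! ### the character -/

theorem chi_le_one {χ : GaussianInt →* ℂ} {m : ℕ} (hm : 0 < m)
    (hper : ∀ α β : GaussianInt, (m : GaussianInt) ∣ α - β → χ α = χ β) (a : GaussianInt) : ‖χ a‖ ≤ 1 := by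
  set M : ℝ := ∑ i ∈ Finset.range m, ∑ j ∈ Finset.range m, ‖χ ⟨(i : ℤ), (j : ℤ)⟩‖ with hM
  have hbd : ∀ b : GaussianInt, ‖χ b‖ ≤ M := by
    intro b
    have hmZ : (0 : ℤ) < m := by exact_mod_cast hm
    set i : ℕ := (b.re % m).toNat with hi
    set j : ℕ := (b.im % m).toNat with hj
    have hi1 : (i : ℤ) = b.re % m := Int.toNat_of_nonneg (Int.emod_nonneg _ hmZ.ne')
    have hj1 : (j : ℤ) = b.im % m := Int.toNat_of_nonneg (Int.emod_nonneg _ hmZ.ne')
    have hi2 : i < m := by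
      have := Int.emod_lt_of_pos b.re hmZ
      omega
    have hj2 : j < m := by
      have := Int.emod_lt_of_pos b.im hmZ
      omega
    have e : χ b = χ ⟨(i : ℤ), (j : ℤ)⟩ := by
      refine hper _ _ ⟨⟨b.re / m, b.im / m⟩, ?_⟩
      rw [hi1, hj1]
      apply Zsqrtd.ext
      · simp only [Zsqrtd.re_sub, Zsqrtd.re_mul, Zsqrtd.re_natCast, Zsqrtd.im_natCast]
        have := Int.emod_add_mul_ediv b.re m
        linarith
      · simp only [Zsqrtd.im_sub, Zsqrtd.im_mul, Zsqrtd.re_natCast, Zsqrtd.im_natCast]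
        have := Int.emod_add_mul_ediv b.im m
        linarith
    rw [e, hM]
    have h1 : ‖χ ⟨(i : ℤ), (j : ℤ)⟩‖ ≤ ∑ j ∈ Finset.range m, ‖χ ⟨(i : ℤ), (j : ℤ)⟩‖ :=
      Finset.single_le_sum (f := fun j : ℕ => ‖χ ⟨(i : ℤ), (j : ℤ)⟩‖) (fun _ _ => norm_nonneg _) (Finset.mem_range.2 hj2)
    refine h1.trans ?_
    exact Finset.single_le_sum (f := fun i : ℕ => ∑ j ∈ Finset.range m, ‖χ ⟨(i : ℤ), (j : ℤ)⟩‖)
      (fun _ _ => Finset.sum_nonneg fun _ _ => norm_nonneg _) (Finset.mem_range.2 hi2)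
  by_contra hcon
  push Not at hcon
  have h1 := (tendsto_pow_atTop_atTop_of_one_lt hcon).eventually_gt_atTop M
  obtain ⟨n, hn⟩ := h1.exists
  have h2 := hbd (a ^ n)
  rw [map_pow, norm_pow] at h2
  linarith

theorem chi_norm_one {χ : GaussianInt →* ℂ} {m : ℕ} (hm : 0 < m)
    (hper : ∀ α β : GaussianInt, (m : GaussianInt) ∣ α - β → χ α = χ β) {a : GaussianInt}
    (ha : IsCoprime a (m : GaussianInt)) : ‖χ a‖ = 1 := by
  obtain ⟨u, v, huv⟩ := ha
  have h1 : χ (u * a) = 1 := by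
    rw [← map_one χ]
    refine hper _ _ ⟨-v, ?_⟩
    linear_combination huv
  have h2 : ‖χ u‖ * ‖χ a‖ = 1 := by
    rw [← norm_mul, ← map_mul, h1, norm_one]
  have h3 := chi_le_one hm hper u
  have h4 := chi_le_one hm hper a
  have h5 := norm_nonneg (χ u)
  have h6 := norm_nonneg (χ a)
  nlinarith

theorem cop_of_norm {α : GaussianInt} {p m : ℕ} (hp : p.Prime) (hn : α.norm = p) (hpm : ¬ p ∣ m) :
    IsCoprime α (m : GaussianInt) := by
  have h1 : IsCoprime (p : ℤ) (m : ℤ) := by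
    rw [Nat.isCoprime_iff_coprime]
    exact (Nat.Prime.coprime_iff_not_dvd hp).2 hpm
  obtain ⟨u, v, huv⟩ := h1
  have h2 : (α * star α : GaussianInt) = (p : GaussianInt) := by
    have h3 := Zsqrtd.norm_eq_mul_conj α
    rw [hn] at h3
    rw [← h3]
    push_cast
    rfl
  refine ⟨(u : GaussianInt) * star α, (v : GaussianInt), ?_⟩
  have h4 : ((u : GaussianInt) * (p : GaussianInt) + (v : GaussianInt) * (m : GaussianInt)) = 1 := by
    have h5 : (((u * p + v * m : ℤ)) : GaussianInt) = ((1 : ℤ) : GaussianInt) := by rw [huv]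
    push_cast at h5
    exact h5
  rw [← h4, ← h2]
  ring

open Pool.Agent.H304R3.HK in
/-- the function `ψ²` of the curve `y² = x³ + A x` and its `L`-series -/
theorem series (A : ℤ) (hA : A ≠ 0) : ∃ (h : GaussianInt →* ℂ) (F : ℂ → ℂ), UH h ∧ Differentiable ℂ F ∧ F 1 ≠ 0 ∧
    (∀ s : ℂ, 1 < s.re → HasSum (fun n : ℕ => bb h n * (n : ℂ) ^ (-s)) (F s)) ∧
    (∀ p : ℕ, p.Prime → p % 4 = 3 → ¬ (p : ℤ) ∣ 2 * A → bb h p = 0 ∧ ee h p = -1) ∧
    (∀ p : ℕ, p.Prime → p % 4 = 1 → ¬ (p : ℤ) ∣ 2 * A →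
      bb h p = ((ap A 0 p : ℤ) : ℂ) ^ 2 / p - 2 ∧ ee h p = 1) := by
  obtain ⟨m, θ, hm, hpm, hmul, hper, hzero, hunit, hstar, hin, hpt⟩ := Pool.Agent.Y153.QN3.quartic_data A hA
  have hθ1 : θ 1 = 1 := by
    have h1 := hunit 1 isUnit_one
    have h2 : gz 1 = 1 := by simp [gz]
    rwa [h2, mul_one] at h1
  set χ : GaussianInt →* ℂ := { toFun := θ, map_one' := hθ1, map_mul' := hmul } with hχd
  have hχ : ∀ a, χ a = θ a := fun a => rfl
  have hper' : ∀ α β : GaussianInt, (m : GaussianInt) ∣ α - β → χ α = χ β := hper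
  have hle := chi_le_one hm hper'
  have hm0 : (m : GaussianInt) ≠ 0 := by exact_mod_cast hm.ne'
  have hui : χ ⟨0, 1⟩ = -Complex.I := by
    have hu : IsUnit (⟨0, 1⟩ : GaussianInt) := by
      refine IsUnit.of_mul_eq_one ⟨0, -1⟩ ?_
      apply Zsqrtd.ext <;> simp
    have h1 := hunit _ hu
    have h2 : gz ⟨0, 1⟩ = Complex.I := by simp [gz]
    rw [h2] at h1
    rw [hχ]
    have h3 : θ ⟨0, 1⟩ * Complex.I * Complex.I = Complex.I := by rw [h1, one_mul]
    rw [mul_assoc, Complex.I_mul_I] at h3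
    linear_combination -h3
  have W1 : W.HCw 1 (m : GaussianInt) χ := ⟨hm0, hper', hle, by rw [hui, pow_one]⟩
  have W2 : W.HCw 2 (m : GaussianInt) (χ ^ 2) := by
    refine ⟨hm0, fun a b hab => ?_, fun a => ?_, ?_⟩
    · rw [MonoidHom.pow_apply, MonoidHom.pow_apply, hper' a b hab]
    · rw [MonoidHom.pow_apply, norm_pow]
      exact pow_le_one₀ (norm_nonneg _) (hle a)
    · rw [MonoidHom.pow_apply, hui]
  set h : GaussianInt →* ℂ := nzr_sq (psik 1 χ) with hh
  have hval : ∀ a, h a = (psik 1 χ a) ^ 2 := fun a => rfl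
  have hU : UH h := nzr_sq_UH _ (W.uh_psik W1)
  obtain ⟨F, hF, sF⟩ := W.psi_sq (by norm_num : 1 ≤ 1) _ χ W1
  obtain ⟨G, hG, sG⟩ := W.psi_sq (by norm_num : 1 ≤ 2) _ (χ ^ 2) W2
  have h2 : ∀ a, psik 2 (χ ^ 2) a = h a := by
    intro a
    rw [hval, psik_apply, psik_apply]
    split_ifs with h0
    · simp
    · rw [MonoidHom.pow_apply, pow_one, mul_pow]
  have sG' : ∀ s : ℂ, 1 < s.re → HasSum (fun n : ℕ => bb (fun a => (h a) ^ 2) n * (n : ℂ) ^ (-s)) (G s) := by
    intro s hs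
    have h3 := sG s hs
    have h4 : (fun a => (psik 2 (χ ^ 2) a) ^ 2) = fun a => (h a) ^ 2 := by
      funext a
      rw [h2]
    rw [h4] at h3
    exact h3
  have sF' : ∀ s : ℂ, 1 < s.re → HasSum (fun n : ℕ => bb h n * (n : ℂ) ^ (-s)) (F s) := sF
  have hF1 : F 1 ≠ 0 := by
    have := Pool.Agent.X293.EV.nz_line_all lg_bb lam_eq lam_one F_ne_zero F_ld h hU F G hF hG sF' sG' 0
    exact this
  refine ⟨h, F, hU, hF, hF1, sF', ?_, ?_⟩
  · intro p hp h3 hd
    have hp2 : p ≠ 2 := by rintro rfl; norm_num at h3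
    have hp0 : (p : GaussianInt) ≠ 0 := by exact_mod_cast hp.ne_zero
    have hpc : (p : ℂ) ≠ 0 := by exact_mod_cast hp.ne_zero
    refine ⟨?_, ?_⟩
    · rw [b_odd (in_u hU) p (by omega), (Sh_inert _ p hp h3 0).1]
    · unfold ee
      rw [if_neg hp2, if_pos h3]
      have h4 : h (p : GaussianInt) = 1 := by
        rw [hval, psik_apply, if_neg hp0, hχ, hin p hp h3 hd]
        have e1 : tc (p : GaussianInt) = (p : ℂ) := by simp [tc]
        have e2 : ((‖(p : ℂ)‖ : ℝ) : ℂ) = (p : ℂ) := by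
          rw [Complex.norm_natCast, Complex.ofReal_natCast]
        rw [e1, e2, div_self hpc]
        norm_num
      rw [h4]
  · intro p hp h1 hd
    have hp2 : p ≠ 2 := by rintro rfl; norm_num at h1
    have hpc : (p : ℂ) ≠ 0 := by exact_mod_cast hp.ne_zero
    obtain ⟨a, b, hb0, hb, hab, hn, hPS⟩ := PS_split p hp h1
    set α : GaussianInt := ⟨a, b⟩ with hα
    have hαn : α.norm = (p : ℤ) := by
      rw [Zsqrtd.norm_def]
      show a * a - -1 * b * b = p
      linarith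
    have hcop : IsCoprime α (m : GaussianInt) := cop_of_norm hp hαn fun hdm => hd (hpm p hp hdm)
    have hχα : ‖χ α‖ = 1 := chi_norm_one hm hper' hcop
    have hα0 : α ≠ 0 := by
      intro h0
      rw [h0, Zsqrtd.norm_zero] at hαn
      exact hp.ne_zero (by exact_mod_cast hαn.symm)
    have hst0 : star α ≠ 0 := by
      intro h0
      exact hα0 (star_eq_zero.1 h0)
    set w : ℂ := θ α * gz α with hw
    have hgt : gz α = tc α := rfl
    have htn : ((‖tc α‖ : ℝ) : ℂ) ^ 2 = p := by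
      have h3 := Pool.Agent.H304R3.HK.tc_star_mul α
      rw [hαn] at h3
      exact_mod_cast h3
    have htc0 : ((‖tc α‖ : ℝ) : ℂ) ≠ 0 := by
      intro h0
      rw [h0] at htn
      norm_num at htn
      exact hpc htn.symm
    have hww : w * (starRingEnd ℂ) w = p := by
      rw [Complex.mul_conj, hw, map_mul, Complex.normSq_eq_norm_sq, Complex.normSq_eq_norm_sq]
      have e3 : ‖θ α‖ = 1 := hχα
      rw [e3, hgt]
      push_cast
      rw [htn]
      ring
    have hap : ((ap A 0 p : ℤ) : ℂ) = w + (starRingEnd ℂ) w := hpt α p hp hd hαn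
    have hhα : h α = w ^ 2 / p := by
      rw [hval, psik_apply, if_neg hα0, hχ, pow_one, ← htn, hw, hgt]
      field_simp
    have hhs : h (star α) = ((starRingEnd ℂ) w) ^ 2 / p := by
      rw [hval, psik_apply, if_neg hst0, hχ, pow_one, hstar, Pool.Agent.H304R3.HK.T1.tc_star, Complex.norm_conj, ← htn,
        hw, hgt, map_mul]
      field_simp
    refine ⟨?_, ?_⟩
    · rw [b_odd (in_u hU) p (by omega)]
      unfold Sh
      have hne : ((a, b) : ℤ × ℤ) ≠ (a, -b) := by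
        intro heq
        rw [Prod.mk.injEq] at heq
        omega
      rw [hPS, Finset.sum_pair hne]
      have e4 : (⟨a, -b⟩ : GaussianInt) = star α := rfl
      show h α + h ⟨a, -b⟩ = _
      rw [e4, hhα, hhs, hap]
      field_simp
      linear_combination (-2 : ℂ) * hww
    · unfold ee
      rw [if_neg hp2, if_neg (by omega)]
      have e5 : (p : GaussianInt) = α * star α := by
        have h3 := Zsqrtd.norm_eq_mul_conj α
        rw [hαn] at h3
        rw [← h3]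
        push_cast
        rfl
      rw [e5, map_mul, hhα, hhs]
      have e6 : w ^ 2 / (p : ℂ) * (((starRingEnd ℂ) w) ^ 2 / p) = (w * (starRingEnd ℂ) w) ^ 2 / (p : ℂ) ^ 2 := by
        field_simp
      rw [e6, hww]
      exact div_self (pow_ne_zero _ hpc)

end Pool.Agent.X278.AV.Cg
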