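import Pool.Agent.X278.AV.TwG
import Pool.Agent.W401.Cheb.Main

/-!
# Sums over the primes weighted by a class function of the Frobenius
-/

set_option autoImplicit false

namespace Pool.Agent.X278.AV

open Filter Topology Finset NumberField IsDedekindDomain
open Pool.Agent.X278.OP Pool.Agent.W189.ML
open Pool.Agent.W401.Cheb (TorAt HasFrob xp_eq M M_sum M_smul M_add M_one M_congr pr mem_pr chebotarev torsor)

/-! ### summation by parts -/

theorem abel_nonneg {a g : ℕ → ℝ} (hA : ∀ n, 0 ≤ ∑ i ∈ range n, a i) (hg : Antitone g) (n : ℕ) :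
    (∑ i ∈ range (n + 1), a i) * g n ≤ ∑ i ∈ range (n + 1), a i * g i := by
  induction n with
  | zero => simp
  | succ n ih =>
    rw [Finset.sum_range_succ _ (n + 1), Finset.sum_range_succ (fun i => a i * g i) (n + 1), add_mul]
    have h1 : (∑ i ∈ range (n + 1), a i) * g (n + 1) ≤ (∑ i ∈ range (n + 1), a i) * g n :=
      mul_le_mul_of_nonneg_left (hg (Nat.le_succ n)) (hA _)
    linarith

open Classical in
/-- extension by zero -/
noncomputable def exN (b : Nat.Primes → ℝ) (n : ℕ) : ℝ := if h : n.Prime then b ⟨n, h⟩ else 0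

theorem exN_prime (b : Nat.Primes → ℝ) {n : ℕ} (h : n.Prime) : exN b n = b ⟨n, h⟩ := dif_pos h

theorem exN_not (b : Nat.Primes → ℝ) {n : ℕ} (h : ¬ n.Prime) : exN b n = 0 := dif_neg h

theorem exN_tendsto {f : Nat.Primes → ℝ} (hs : Summable f) :
    Tendsto (fun n : ℕ => ∑ i ∈ range (n + 1), exN f i) atTop (𝓝 (∑' p, f p)) := by
  have h1 : HasSum (exN f) (∑' p, f p) := by
    have h2 := hs.hasSum
    have h3 : (exN f ∘ (fun p : Nat.Primes => (p : ℕ))) = f := by
      funext p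
      show exN f (p : ℕ) = f p
      rw [exN_prime f p.2]
      rfl
    refine (hasSum_subtype_iff_of_support_subset (s := {n : ℕ | n.Prime}) (f := exN f) ?_).1 ?_
    · intro n hn
      by_contra h
      exact hn (exN_not f h)
    · show HasSum (exN f ∘ (fun p : Nat.Primes => (p : ℕ))) _
      rw [h3]
      exact h2
  exact h1.tendsto_sum_nat.comp (tendsto_add_atTop_nat 1)

theorem abel_primes {c : Nat.Primes → ℝ} {C : ℝ} (hC : 0 ≤ C) (h : ∀ n : ℕ, -C ≤ ∑ i ∈ range (n + 1), exN c i)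
    {ε : ℝ} (hε : 0 < ε) (hs : Summable fun p : Nat.Primes => c p * ((p : ℕ) : ℝ) ^ (-(1 + ε))) :
    -C ≤ ∑' p : Nat.Primes, c p * ((p : ℕ) : ℝ) ^ (-(1 + ε)) := by
  set g : ℕ → ℝ := fun i => ((max i 1 : ℕ) : ℝ) ^ (-(1 + ε)) with hg
  have hg1 : Antitone g := by
    intro i j hij
    rw [hg]
    simp only
    apply Real.rpow_le_rpow_of_nonpos
    · have : 0 < max i 1 := by omega
      exact_mod_cast this
    · exact_mod_cast max_le_max hij le_rfl
    · linarith
  have hg0 : ∀ n, 0 ≤ g n := fun n => by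
    rw [hg]
    positivity
  set a : ℕ → ℝ := fun i => (if i = 0 then C else 0) + exN c i with ha
  have e1 : ∀ n : ℕ, ∑ i ∈ range (n + 1), a i = C + ∑ i ∈ range (n + 1), exN c i := by
    intro n
    rw [ha]
    simp only
    rw [Finset.sum_add_distrib]
    congr 1
    rw [Finset.sum_ite_eq' (range (n + 1)) 0 (fun _ => C)]
    simp
  have hA : ∀ n, 0 ≤ ∑ i ∈ range n, a i := by
    intro n
    rcases n with _ | n
    · simp
    · rw [e1]
      linarith [h n]
  have h1 : ∀ n : ℕ, 0 ≤ C + ∑ i ∈ range (n + 1), exN (fun p => c p * ((p : ℕ) : ℝ) ^ (-(1 + ε))) i := by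
    intro n
    have h2 := abel_nonneg hA hg1 n
    have h3 : ∑ i ∈ range (n + 1), a i * g i =
        C + ∑ i ∈ range (n + 1), exN (fun p => c p * ((p : ℕ) : ℝ) ^ (-(1 + ε))) i := by
      have h4 : ∀ i, a i * g i = (if i = 0 then C else 0) + exN (fun p => c p * ((p : ℕ) : ℝ) ^ (-(1 + ε))) i := by
        intro i
        rw [ha]
        simp only
        rw [add_mul]
        congr 1
        · by_cases hi : i = 0
          · rw [if_pos hi, hi, hg]
            simp
          · rw [if_neg hi, zero_mul]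
        · by_cases hi : i.Prime
          · rw [exN_prime _ hi, exN_prime _ hi, hg]
            simp only
            have : max i 1 = i := max_eq_left hi.one_le
            rw [this]
          · rw [exN_not _ hi, exN_not _ hi, zero_mul]
      rw [Finset.sum_congr rfl fun i _ => h4 i, Finset.sum_add_distrib]
      congr 1
      rw [Finset.sum_ite_eq' (range (n + 1)) 0 (fun _ => C)]
      simp
    rw [h3] at h2
    exact (mul_nonneg (hA _) (hg0 _)).trans h2
  have h2 := (exN_tendsto hs).const_add C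
  have h3 := ge_of_tendsto' h2 h1
  linarith

theorem pi_eq (n : ℕ) : ∑ i ∈ range (n + 1), exN (fun _ => 1) i = (Nat.primeCounting n : ℝ) := by
  classical
  have h1 : ∀ i, exN (fun _ => 1) i = if i.Prime then (1 : ℝ) else 0 := by
    intro i
    by_cases hi : i.Prime
    · rw [exN_prime _ hi, if_pos hi]
    · rw [exN_not _ hi, if_neg hi]
  rw [Finset.sum_congr rfl fun i _ => h1 i, Finset.sum_boole]
  unfold Nat.primeCounting Nat.primeCounting'
  rw [Nat.count_eq_card_filter_range]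

theorem pr_sum (b : Nat.Primes → ℝ) (n : ℕ) : ∑ p ∈ pr n, exN b p = ∑ i ∈ range (n + 1), exN b i := by
  unfold pr
  rw [Finset.sum_filter]
  refine Finset.sum_congr rfl fun i _ => ?_
  by_cases hi : i.Prime
  · rw [if_pos hi]
  · rw [if_neg hi, exN_not _ hi]

theorem rsum {b : Nat.Primes → ℝ} {K : ℝ} (hb : ∀ p, |b p| ≤ K) {ε : ℝ} (hε : 0 < ε) :
    Summable fun p : Nat.Primes => b p * ((p : ℕ) : ℝ) ^ (-(1 + ε)) := by
  refine Summable.of_norm_bounded ((lam_sum hε).mul_left K) fun p => ?_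
  rw [norm_mul, Real.norm_eq_abs, Real.norm_eq_abs, abs_of_nonneg (by positivity : (0 : ℝ) ≤ ((p : ℕ) : ℝ) ^ (-(1 + ε)))]
  gcongr
  exact hb p

/-- **mean zero: a small sum** -/
theorem ch_lam {b : Nat.Primes → ℝ} {K : ℝ} (hb : ∀ p, |b p| ≤ K) (h0 : Tendsto (M (exN b)) atTop (𝓝 0)) {δ : ℝ}
    (hδ : 0 < δ) : ∃ C : ℝ, 0 ≤ C ∧ ∀ ε : ℝ, 0 < ε →
      |∑' p : Nat.Primes, b p * ((p : ℕ) : ℝ) ^ (-(1 + ε))| ≤ δ * ∑' p : Nat.Primes, ((p : ℕ) : ℝ) ^ (-(1 + ε)) + C := by
  obtain ⟨n₀, hn₀⟩ := eventually_atTop.1 ((Metric.tendsto_nhds.1 h0) δ hδ)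
  have hK : 0 ≤ K := (abs_nonneg _).trans (hb ⟨2, Nat.prime_two⟩)
  set C : ℝ := (n₀ + 1) * K with hC
  have hbN : ∀ i, |exN b i| ≤ K := by
    intro i
    by_cases hi : i.Prime
    · rw [exN_prime _ hi]
      exact hb _
    · rw [exN_not _ hi, abs_zero]
      exact hK
  have hS : ∀ n : ℕ, |∑ i ∈ range (n + 1), exN b i| ≤ δ * (Nat.primeCounting n : ℝ) + C := by
    intro n
    rcases le_or_gt n₀ n with h | h
    · have h1 := hn₀ n h
      rw [dist_zero_right, Real.norm_eq_abs] at h1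
      unfold M at h1
      rw [pr_sum] at h1
      have hC0 : 0 ≤ C := by positivity
      rcases (Nat.zero_le (Nat.primeCounting n)).eq_or_lt with h2 | h2
      · have h3 : ∀ i ∈ range (n + 1), exN b i = 0 := by
          intro i hi
          apply exN_not
          intro hp
          have h4 : ((pr n).card : ℕ) = Nat.primeCounting n := by
            unfold pr Nat.primeCounting Nat.primeCounting'
            rw [Nat.count_eq_card_filter_range]
          rw [← h2, Finset.card_eq_zero] at h4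
          have h5 : i ∈ pr n := mem_pr.2 ⟨by rw [mem_range] at hi; omega, hp⟩
          rw [h4] at h5
          exact absurd h5 (Finset.notMem_empty _)
        rw [Finset.sum_eq_zero h3, abs_zero]
        positivity
      · have h3 : (0 : ℝ) < Nat.primeCounting n := by exact_mod_cast h2
        rw [abs_div, Nat.abs_cast, div_lt_iff₀ h3] at h1
        linarith
    · refine (Finset.abs_sum_le_sum_abs _ _).trans ?_
      have h1 : ∑ i ∈ range (n + 1), |exN b i| ≤ ∑ _i ∈ range (n + 1), K := Finset.sum_le_sum fun i _ => hbN i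
      rw [Finset.sum_const, card_range, nsmul_eq_mul] at h1
      have h2 : ((n + 1 : ℕ) : ℝ) * K ≤ C := by
        rw [hC]
        gcongr
        push_cast
        have : (n : ℝ) ≤ n₀ := by exact_mod_cast h.le
        linarith
      have h3 : 0 ≤ δ * (Nat.primeCounting n : ℝ) := by positivity
      linarith
  refine ⟨C, by positivity, fun ε hε => ?_⟩
  have s0 := lam_sum hε
  have s1 := rsum hb hε
  have key : ∀ s : ℝ, (s = 1 ∨ s = -1) →
      -C ≤ δ * (∑' p : Nat.Primes, ((p : ℕ) : ℝ) ^ (-(1 + ε))) + s * ∑' p : Nat.Primes, b p * ((p : ℕ) : ℝ) ^ (-(1 + ε)) := by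
    intro s hs
    have h1 := abel_primes (c := fun p => δ + s * b p) (C := C) (by positivity) (fun n => by
      have e1 : ∀ i, exN (fun p => δ + s * b p) i = δ * exN (fun _ => 1) i + s * exN b i := by
        intro i
        by_cases hi : i.Prime
        · rw [exN_prime _ hi, exN_prime _ hi, exN_prime _ hi, mul_one]
        · rw [exN_not _ hi, exN_not _ hi, exN_not _ hi]
          ring
      rw [Finset.sum_congr rfl fun i _ => e1 i, Finset.sum_add_distrib, ← Finset.mul_sum, ← Finset.mul_sum, pi_eq]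
      have h2 := abs_le.1 (hS n)
      rcases hs with rfl | rfl
      · linarith [h2.1]
      · linarith [h2.2]) hε (((s0.mul_left δ).add (s1.mul_left s)).congr fun p => by ring)
    refine h1.trans (le_of_eq ?_)
    rw [← tsum_mul_left, ← tsum_mul_left, ← (s0.mul_left δ).tsum_add (s1.mul_left s)]
    refine tsum_congr fun p => ?_
    ring
  have k1 := key 1 (Or.inl rfl)
  have k2 := key (-1) (Or.inr rfl)
  rw [abs_le]
  constructor <;> linarith

/-- **the sum with a general weight** -/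
theorem ch_wt {b : Nat.Primes → ℝ} {K β : ℝ} (hb : ∀ p, |b p| ≤ K) (hβ : Tendsto (M (exN b)) atTop (𝓝 β))
    {ω : ℝ → ℝ} {ω' : ℝ} (h0 : ω 0 = 1) (hd : HasDerivAt ω ω' 0) (hc : ∀ u : ℝ, 0 < u → ContinuousAt ω u)
    (hdec : Tendsto (fun u => ω u * Real.exp u) atTop (𝓝 0)) :
    (∀ T : ℝ, 0 < T → Summable fun p : Nat.Primes => b p * (((p : ℕ) : ℝ))⁻¹ * ω (Real.log (p : ℕ) / T)) ∧
    Tendsto (fun T : ℝ => (∑' p : Nat.Primes, b p * (((p : ℕ) : ℝ))⁻¹ * ω (Real.log (p : ℕ) / T)) / Real.log T)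
      atTop (𝓝 β) := by
  obtain ⟨C₀, W⟩ := wts_one
  obtain ⟨h, hcont, hform⟩ := weight_dec h0 hd hc hdec
  obtain ⟨Mh, hMh⟩ := isCompact_Icc.exists_bound_of_continuousOn hcont
  have hMh' : ∀ x ∈ Set.Icc (0 : ℝ) 1, |h x| ≤ Mh := fun x hx => by simpa using hMh x hx
  have hMh0 : 0 ≤ Mh := (abs_nonneg _).trans (hMh' 0 ⟨le_rfl, zero_le_one⟩)
  obtain ⟨Wk1, c', Wk2⟩ := W.kar h0 hd hc hdec
  -- centred coefficients
  set b' : Nat.Primes → ℝ := fun p => b p - β with hb'
  have hb'K : ∀ p, |b' p| ≤ K + |β| := fun p => (abs_sub _ _).trans (add_le_add (hb p) le_rfl)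
  have hK' : 0 ≤ K + |β| := (abs_nonneg _).trans (hb'K ⟨2, Nat.prime_two⟩)
  have hM0 : Tendsto (M (exN b')) atTop (𝓝 0) := by
    have h1 : Tendsto (fun n => M (exN b) n + (-β) * M (fun _ => 1) n) atTop (𝓝 (β + (-β) * 1)) :=
      hβ.add (M_one.const_mul (-β))
    have h2 : Tendsto (M fun p => exN b p + (-β) * 1) atTop (𝓝 0) := by
      rw [show (0 : ℝ) = β + (-β) * 1 by ring]
      refine h1.congr fun n => ?_
      rw [← M_smul (-β), ← M_add]
    refine M_congr (D := 1) one_pos (fun p hp _ => ?_) h2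
    rw [exN_prime _ hp, exN_prime _ hp, hb']
    ring
  have hsum : ∀ (a : Nat.Primes → ℝ) (K₁ : ℝ), (∀ p, |a p| ≤ K₁) → ∀ T : ℝ, 0 < T →
      Summable fun p : Nat.Primes => a p * (((p : ℕ) : ℝ))⁻¹ * ω (Real.log (p : ℕ) / T) := by
    intro a K₁ ha T hT
    refine Summable.of_norm_bounded ((Wk1 T hT).abs.mul_left K₁) fun p => ?_
    rw [Real.norm_eq_abs, mul_assoc, abs_mul, one_mul]
    gcongr
    exact ha p
  refine ⟨hsum b K hb, ?_⟩
  -- the weight one
  have hone : Tendsto (fun T : ℝ => (∑' p : Nat.Primes, 1 * (((p : ℕ) : ℝ))⁻¹ * ω (Real.log (p : ℕ) / T)) / Real.log T)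
      atTop (𝓝 1) := by
    have h1 := (Wk2.div_atTop Real.tendsto_log_atTop).add_const 1
    rw [zero_add] at h1
    refine h1.congr' ?_
    filter_upwards [eventually_gt_atTop (1 : ℝ)] with T hT
    have : Real.log T ≠ 0 := (Real.log_pos hT).ne'
    field_simp
    ring
  -- the centred sum
  have hzero : Tendsto (fun T : ℝ => (∑' p : Nat.Primes, b' p * (((p : ℕ) : ℝ))⁻¹ * ω (Real.log (p : ℕ) / T)) / Real.log T)
      atTop (𝓝 0) := by
    obtain ⟨M₁, hM₁, hone'⟩ := W.Phi_one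
    rw [Metric.tendsto_nhds]
    intro e he
    obtain ⟨C, hC0, hC⟩ := ch_lam hb'K hM0 (δ := e / 2) (by positivity)
    have hl1 := W.lam_T 1 one_pos
    have hle : ∀ᶠ T : ℝ in atTop, ∑' p : Nat.Primes, ((p : ℕ) : ℝ) ^ (-(1 + 1 / T)) ≤ Real.log T + (|C₀| + 1) := by
      have h1 : C₀ - 1 * Real.log 1 < |C₀| + 1 := by
        rw [Real.log_one]
        have := le_abs_self C₀
        linarith
      filter_upwards [hl1.eventually_lt_const h1] with T hT
      simp only [one_mul] at hT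
      linarith
    set C₂ : ℝ := e / 2 * (|C₀| + 1) + C + (K + |β|) * Mh * M₁ with hC₂
    have hbig : ∀ᶠ T : ℝ in atTop, 2 * C₂ / e < Real.log T := Real.tendsto_log_atTop.eventually_gt_atTop _
    filter_upwards [hone', hle, hbig, eventually_gt_atTop (1 : ℝ)] with T t1 t2 t3 t4
    have hT : 0 < T := by linarith
    have hlog : 0 < Real.log T := Real.log_pos t4
    have hkey : ∀ p : Nat.Primes, b' p * (((p : ℕ) : ℝ))⁻¹ * ω (Real.log (p : ℕ) / T) =
        b' p * ((p : ℕ) : ℝ) ^ (-(1 + 1 / T)) + b' p * (1 * (((p : ℕ) : ℝ))⁻¹ *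
          ((xq (fun p : Nat.Primes => ((p : ℕ) : ℝ)) T p - xq (fun p : Nat.Primes => ((p : ℕ) : ℝ)) T p ^ 2) *
            h (xq (fun p : Nat.Primes => ((p : ℕ) : ℝ)) T p))) := by
      intro p
      obtain ⟨a0, a1⟩ := W.xq_mem hT p
      have e2 := hform _ a0 a1
      have e1 : -Real.log (xq (fun p : Nat.Primes => ((p : ℕ) : ℝ)) T p) = Real.log (p : ℕ) / T := by
        unfold xq
        rw [Real.log_exp, neg_neg]
      rw [e1] at e2
      have e3 := W.xq_pow T p 1
      rw [Nat.cast_one] at e3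
      rw [← e3, e2]
      ring
    have s1 := rsum hb'K (ε := 1 / T) (by positivity)
    have sPhi := W.Phi_sum hT (h := fun _ => 1) (M := 1) (fun x _ => by simp)
    have hterm : ∀ p : Nat.Primes, ‖b' p * (1 * (((p : ℕ) : ℝ))⁻¹ *
          ((xq (fun p : Nat.Primes => ((p : ℕ) : ℝ)) T p - xq (fun p : Nat.Primes => ((p : ℕ) : ℝ)) T p ^ 2) *
            h (xq (fun p : Nat.Primes => ((p : ℕ) : ℝ)) T p)))‖ ≤ (K + |β|) * Mh * (1 * (((p : ℕ) : ℝ))⁻¹ *
          ((xq (fun p : Nat.Primes => ((p : ℕ) : ℝ)) T p - xq (fun p : Nat.Primes => ((p : ℕ) : ℝ)) T p ^ 2) * 1)) := by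
      intro p
      obtain ⟨a0, a1⟩ := W.xq_mem hT p
      have h2 : 0 ≤ xq (fun p : Nat.Primes => ((p : ℕ) : ℝ)) T p - xq (fun p : Nat.Primes => ((p : ℕ) : ℝ)) T p ^ 2 := by
        nlinarith
      rw [Real.norm_eq_abs, abs_mul, one_mul, abs_mul (((p : ℕ) : ℝ))⁻¹, abs_mul (xq _ T p - xq _ T p ^ 2),
        abs_of_nonneg h2, abs_of_nonneg (by positivity : (0 : ℝ) ≤ (((p : ℕ) : ℝ))⁻¹)]
      have h3 := hMh' _ ⟨a0.le, a1.le⟩
      calc _ ≤ (K + |β|) * ((((p : ℕ) : ℝ))⁻¹ *
            ((xq (fun p : Nat.Primes => ((p : ℕ) : ℝ)) T p - xq (fun p : Nat.Primes => ((p : ℕ) : ℝ)) T p ^ 2) * Mh)) := by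
            gcongr
            exact hb'K p
        _ = _ := by ring
    have s2 := Summable.of_norm_bounded (sPhi.mul_left ((K + |β|) * Mh)) hterm
    rw [dist_zero_right, Real.norm_eq_abs, abs_div, abs_of_pos hlog, div_lt_iff₀ hlog, tsum_congr hkey, s1.tsum_add s2]
    have b1 := hC (1 / T) (by positivity)
    have b2 : |∑' p : Nat.Primes, b' p * (1 * (((p : ℕ) : ℝ))⁻¹ *
          ((xq (fun p : Nat.Primes => ((p : ℕ) : ℝ)) T p - xq (fun p : Nat.Primes => ((p : ℕ) : ℝ)) T p ^ 2) *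
            h (xq (fun p : Nat.Primes => ((p : ℕ) : ℝ)) T p)))| ≤ (K + |β|) * Mh * M₁ := by
      have h5 := tsum_of_norm_bounded (sPhi.mul_left ((K + |β|) * Mh)).hasSum hterm
      rw [Real.norm_eq_abs, tsum_mul_left] at h5
      refine h5.trans ?_
      have h6 : (∑' p : Nat.Primes, (1 : ℝ) * (((p : ℕ) : ℝ))⁻¹ *
          ((xq (fun p : Nat.Primes => ((p : ℕ) : ℝ)) T p - xq (fun p : Nat.Primes => ((p : ℕ) : ℝ)) T p ^ 2) * 1)) ≤ M₁ := t1
      gcongr
    have b3 := abs_add_le (∑' p : Nat.Primes, b' p * ((p : ℕ) : ℝ) ^ (-(1 + 1 / T)))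
      (∑' p : Nat.Primes, b' p * (1 * (((p : ℕ) : ℝ))⁻¹ *
          ((xq (fun p : Nat.Primes => ((p : ℕ) : ℝ)) T p - xq (fun p : Nat.Primes => ((p : ℕ) : ℝ)) T p ^ 2) *
            h (xq (fun p : Nat.Primes => ((p : ℕ) : ℝ)) T p))))
    have b4 : e / 2 * ∑' p : Nat.Primes, ((p : ℕ) : ℝ) ^ (-(1 + 1 / T)) ≤ e / 2 * (Real.log T + (|C₀| + 1)) := by
      gcongr
    have b5 : C₂ < e / 2 * Real.log T := by
      rw [div_lt_iff₀ he] at t3
      linarith
    rw [hC₂] at b5
    linarith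
  have hfin := hzero.add (hone.const_mul β)
  rw [zero_add, mul_one] at hfin
  refine hfin.congr' ?_
  filter_upwards [eventually_gt_atTop (0 : ℝ)] with T hT
  rw [← mul_div_assoc, ← add_div, ← tsum_mul_left, ← (hsum b' _ hb'K T hT).tsum_add ((Wk1 T hT).mul_left β)]
  congr 1
  refine tsum_congr fun p => ?_
  rw [hb']
  ring

end Pool.Agent.X278.AV
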