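import Pool.Agent.X278.AV.Tan
import Mathlib.NumberTheory.LSeries.DirichletContinuation
import Mathlib.NumberTheory.LSeries.Dirichlet

/-!
# The means over a family of minimal points
-/

set_option autoImplicit false

namespace Pool.Agent.X278.AV

open Finset Filter Topology ArithmeticFunction

/-- the local factors of the density -/
noncomputable def fac (s N : ℕ) : ℝ := ∏ p ∈ N.primeFactors, (1 - ((p : ℝ) ^ s)⁻¹)

theorem fac_pos {s N : ℕ} (hs : 2 ≤ s) : 0 < fac s N := by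
  refine Finset.prod_pos fun p hp => ?_
  have hp1 := (Nat.prime_of_mem_primeFactors hp).two_le
  have h1 : (2 : ℝ) ≤ p := by exact_mod_cast hp1
  have h2 : (1 : ℝ) < (p : ℝ) ^ s := one_lt_pow₀ (by linarith) (by omega)
  have := inv_lt_one_of_one_lt₀ h2
  linarith

theorem DD_mul {s N : ℕ} [NeZero N] (hs : 2 ≤ s) : (DD s N : ℂ) * ((fac s N : ℂ) * riemannZeta s) = 1 := by
  have hsr : 1 < (s : ℂ).re := by
    rw [Complex.natCast_re]
    exact_mod_cast (by omega : 1 < s)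
  have hs1 : (s : ℂ) ≠ 1 := by
    intro h
    rw [h, Complex.one_re] at hsr
    exact lt_irrefl _ hsr
  have h1 := DirichletCharacter.LSeries.mul_mu_eq_one (1 : DirichletCharacter ℂ N) hsr
  rw [← DirichletCharacter.LFunction_eq_LSeries _ hsr] at h1
  have h2 := DirichletCharacter.LFunctionTrivChar_eq_mul_riemannZeta (N := N) hs1
  unfold DirichletCharacter.LFunctionTrivChar at h2
  rw [h2] at h1
  have h3 : (fac s N : ℂ) = ∏ p ∈ N.primeFactors, (1 - (p : ℂ) ^ (-(s : ℂ))) := by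
    unfold fac
    push_cast
    refine Finset.prod_congr rfl fun p _ => ?_
    rw [Complex.cpow_neg, Complex.cpow_natCast]
  have h4 : (DD s N : ℂ) = LSeries ((fun n : ℕ => (1 : DirichletCharacter ℂ N) n) * fun n : ℕ => ((moebius n : ℤ) : ℂ)) s := by
    unfold DD LSeries
    push_cast
    refine tsum_congr fun n => ?_
    rcases eq_or_ne n 0 with rfl | hn
    · simp
    rw [LSeries.term_of_ne_zero hn, Complex.cpow_natCast, Pi.mul_apply]
    by_cases hc : n.Coprime N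
    · rw [if_pos hc, MulChar.one_apply ((ZMod.isUnit_iff_coprime n N).2 hc), one_mul]
      push_cast
      rw [div_eq_mul_inv]
    · rw [if_neg hc, MulChar.map_nonunit _ (fun h => hc ((ZMod.isUnit_iff_coprime n N).1 h))]
      simp
  rw [h3, h4, mul_comm]
  exact h1

theorem DD_ratio {s N : ℕ} [NeZero N] (hs : 2 ≤ s) : DD s N = DD s 1 / fac s N ∧ DD s 1 ≠ 0 := by
  have h1 := DD_mul (s := s) (N := N) hs
  have h2 := DD_mul (s := s) (N := 1) hs
  have h3 : fac s 1 = 1 := by unfold fac; simp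
  rw [h3, Complex.ofReal_one, one_mul] at h2
  have hz : riemannZeta s ≠ 0 := fun h => by rw [h, mul_zero] at h2; exact zero_ne_one h2
  have hf : (fac s N : ℂ) ≠ 0 := by exact_mod_cast (fac_pos hs).ne'
  have hD : DD s 1 ≠ 0 := by
    intro h
    rw [h, Complex.ofReal_zero, zero_mul] at h2
    exact zero_ne_one h2
  refine ⟨?_, hD⟩
  have h4 : (DD s N : ℂ) = (DD s 1 : ℂ) / (fac s N : ℂ) := by
    rw [eq_div_iff hf]
    have h5 : ((DD s N : ℂ) * fac s N) * riemannZeta s = (DD s 1 : ℂ) * riemannZeta s := by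
      rw [h2, ← h1]
      ring
    exact mul_right_cancel₀ hz h5
  exact_mod_cast h4

/-- the mean of a function over a finite set -/
noncomputable def mean {ι : Type} (F : Finset ι) (f : ι → ℝ) : ℝ := (∑ i ∈ F, f i) / F.card

variable {k N : ℕ} {e : Fin k → ℕ}

open Classical in
/-- the family of the minimal points of the box off the set `Z` -/
noncomputable def Fam (e : Fin k → ℕ) (Z : (Fin k → ℤ) → Prop) (a : Fin k → ℕ) : Finset (Fin k → ℤ) :=
  (Box a).filter fun x => Min e x ∧ ¬ Z x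

open Classical in
theorem fam_lim [NeZero N] (hk : 0 < k) (he : ∀ j, 2 ≤ e j) (φ : (Fin k → ZMod N) → ℝ)
    (hφ : ∀ m : ℕ, ¬ m.Coprime N → ∀ y : Fin k → ℤ, φ (fun j => (((m : ℤ) ^ e j * y j : ℤ) : ZMod N)) = 0)
    (a : ℕ → Fin k → ℕ) (ha : ∀ j, Tendsto (fun X => a X j) atTop atTop) (Z : (Fin k → ℤ) → Prop)
    (hZ0 : Z 0) (hZ : Tendsto (fun X => (((Box (a X)).filter Z).card : ℝ) / ∏ j, (2 * (a X j : ℝ))) atTop (𝓝 0)) :
    Tendsto (fun X => (∑ x ∈ Fam e Z (a X), φ (fun j => ((x j : ℤ) : ZMod N))) /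
      ∏ j, (2 * (a X j : ℝ))) atTop (𝓝 (DD (∑ j, e j) N * avg φ)) := by
  obtain ⟨M, hM0, hM⟩ : ∃ M : ℝ, 0 ≤ M ∧ ∀ r, |φ r| ≤ M := by
    refine ⟨∑ r, |φ r|, by positivity, fun r => ?_⟩
    exact Finset.single_le_sum (f := fun r => |φ r|) (fun i _ => abs_nonneg _) (mem_univ r)
  have h1 := min_lim hk he φ hφ a ha
  have h2 : ∀ X, ∑ x ∈ Fam e Z (a X), φ (fun j => ((x j : ℤ) : ZMod N)) =
      ∑ x ∈ ((Box (a X)).erase 0).filter (Min e), φ (fun j => ((x j : ℤ) : ZMod N)) -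
      ∑ x ∈ (((Box (a X)).erase 0).filter (Min e)).filter Z, φ (fun j => ((x j : ℤ) : ZMod N)) := by
    intro X
    rw [eq_sub_iff_add_eq, add_comm, ← Finset.sum_filter_add_sum_filter_not
      (((Box (a X)).erase 0).filter (Min e)) Z]
    congr 1
    refine Finset.sum_congr ?_ fun _ _ => rfl
    ext x
    unfold Fam
    simp only [mem_filter, mem_erase]
    constructor
    · rintro ⟨h3, h4, h5⟩
      exact ⟨⟨⟨fun h => h5 (h ▸ hZ0), h3⟩, h4⟩, h5⟩
    · rintro ⟨⟨⟨-, h3⟩, h4⟩, h5⟩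
      exact ⟨h3, h4, h5⟩
  have h3 : Tendsto (fun X => (∑ x ∈ (((Box (a X)).erase 0).filter (Min e)).filter Z,
      φ (fun j => ((x j : ℤ) : ZMod N))) / ∏ j, (2 * (a X j : ℝ))) atTop (𝓝 0) := by
    have h4 := hZ.const_mul M
    rw [mul_zero] at h4
    refine squeeze_zero_norm (fun X => ?_) h4
    have hP : (0 : ℝ) ≤ ∏ j, (2 * (a X j : ℝ)) := Finset.prod_nonneg fun j _ => by positivity
    rw [Real.norm_eq_abs, abs_div, abs_of_nonneg hP, ← mul_div_assoc]
    apply div_le_div_of_nonneg_right _ hP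
    refine (Finset.abs_sum_le_sum_abs _ _).trans ((Finset.sum_le_sum fun y _ => hM _).trans ?_)
    rw [Finset.sum_const, nsmul_eq_mul, mul_comm]
    refine mul_le_mul_of_nonneg_left ?_ hM0
    have h5 : (((Box (a X)).erase 0).filter (Min e)).filter Z ⊆ (Box (a X)).filter Z := by
      intro x
      simp only [mem_filter, mem_erase]
      exact fun h => ⟨h.1.1.2, h.2⟩
    exact_mod_cast Finset.card_le_card h5
  have h4 := h1.sub h3
  rw [sub_zero] at h4
  refine h4.congr fun X => ?_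
  rw [h2, sub_div]

theorem fam_card (hk : 0 < k) (he : ∀ j, 2 ≤ e j)
    (a : ℕ → Fin k → ℕ) (ha : ∀ j, Tendsto (fun X => a X j) atTop atTop) (Z : (Fin k → ℤ) → Prop)
    (hZ0 : Z 0) (hZ : Tendsto (fun X => ((open Classical in (Box (a X)).filter Z).card : ℝ) /
      ∏ j, (2 * (a X j : ℝ))) atTop (𝓝 0)) :
    Tendsto (fun X => ((Fam e Z (a X)).card : ℝ) / ∏ j, (2 * (a X j : ℝ))) atTop (𝓝 (DD (∑ j, e j) 1)) := by
  have h1 := fam_lim (N := 1) hk he (fun _ => 1) (fun m hm => absurd (Nat.coprime_one_right m) hm) a ha Z hZ0 hZ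
  have h2 : avg (fun _ : Fin k → ZMod 1 => (1 : ℝ)) = 1 := by
    unfold avg
    simp
  rw [h2, mul_one] at h1
  refine h1.congr fun X => ?_
  simp

/-- **the means over the family** -/
theorem mean_lim [NeZero N] (hk : 0 < k) (he : ∀ j, 2 ≤ e j) (φ : (Fin k → ZMod N) → ℝ)
    (hφ : ∀ m : ℕ, ¬ m.Coprime N → ∀ y : Fin k → ℤ, φ (fun j => (((m : ℤ) ^ e j * y j : ℤ) : ZMod N)) = 0)
    (a : ℕ → Fin k → ℕ) (ha : ∀ j, Tendsto (fun X => a X j) atTop atTop) (Z : (Fin k → ℤ) → Prop)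
    (hZ0 : Z 0) (hZ : Tendsto (fun X => ((open Classical in (Box (a X)).filter Z).card : ℝ) /
      ∏ j, (2 * (a X j : ℝ))) atTop (𝓝 0)) :
    Tendsto (fun X => mean (Fam e Z (a X)) (fun x => φ (fun j => ((x j : ℤ) : ZMod N)))) atTop
      (𝓝 (avg φ / fac (∑ j, e j) N)) := by
  have hs : 2 ≤ ∑ j, e j :=
    (he ⟨0, hk⟩).trans (Finset.single_le_sum (f := e) (fun i _ => Nat.zero_le _) (mem_univ _))
  have h1 := fam_lim hk he φ hφ a ha Z hZ0 hZ
  have h2 := fam_card hk he a ha Z hZ0 hZ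
  obtain ⟨h3, h4⟩ := DD_ratio (s := ∑ j, e j) (N := N) hs
  have h5 := h1.div h2 h4
  rw [h3] at h5
  have hf := (fac_pos (s := ∑ j, e j) (N := N) hs).ne'
  have e1 : DD (∑ j, e j) 1 / fac (∑ j, e j) N * avg φ / DD (∑ j, e j) 1 = avg φ / fac (∑ j, e j) N := by
    field_simp
  rw [e1] at h5
  refine h5.congr' ?_
  have h6 : ∀ᶠ X in atTop, ∀ j, 1 ≤ a X j := by
    rw [eventually_all]
    exact fun j => (ha j).eventually_ge_atTop 1
  filter_upwards [h6] with X hX
  have hP : (0 : ℝ) < ∏ j, (2 * (a X j : ℝ)) := by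
    refine Finset.prod_pos fun j _ => ?_
    have : (1 : ℝ) ≤ a X j := by exact_mod_cast hX j
    linarith
  unfold mean
  rw [Pi.div_apply, div_div_div_cancel_right₀ hP.ne']

end Pool.Agent.X278.AV
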