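import Mathlib
import Pool.Agent.TH942.ES.NF

/-!
# The first two moments of the trace of Frobenius over all short Weierstrass equations
-/

set_option autoImplicit false

namespace Pool.Agent.X278.AV

open Finset

section

variable {k : Type} [Field k] [Fintype k] [DecidableEq k]

/-- the character sum -/
def TT (a b : k) : ℤ := ∑ x : k, quadraticChar k (x ^ 3 + a * x + b)

/-- the number of affine points -/
noncomputable def pts (a b : k) : ℕ := Nat.card {P : k × k // P.2 ^ 2 = P.1 ^ 3 + a * P.1 + b}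

theorem ringChar_ne (h6 : (6 : k) ≠ 0) : ringChar k ≠ 2 := by
  intro h
  apply h6
  have h2 : ((2 : ℕ) : k) = 0 := by
    rw [ringChar.spec, h]
  have : (6 : k) = ((2 : ℕ) : k) * 3 := by push_cast; norm_num
  rw [this, h2, zero_mul]

theorem pts_eq (h6 : (6 : k) ≠ 0) (a b : k) : (pts a b : ℤ) = Fintype.card k + TT a b := by
  have hF := ringChar_ne h6
  have h1 : ∀ x : k, ((univ.filter fun y : k => y ^ 2 = x ^ 3 + a * x + b).card : ℤ) =
      quadraticChar k (x ^ 3 + a * x + b) + 1 := by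
    intro x
    rw [← quadraticChar_card_sqrts hF]
    congr 1
    refine Finset.card_bij (fun y _ => y) ?_ (fun _ _ _ _ h => h) ?_
    · intro y hy
      simpa using hy
    · intro y hy
      exact ⟨y, by simpa using hy, rfl⟩
  unfold pts TT
  rw [Nat.card_eq_fintype_card, Fintype.card_subtype]
  have h2 : (((univ : Finset (k × k)).filter fun P => P.2 ^ 2 = P.1 ^ 3 + a * P.1 + b).card : ℤ) =
      ∑ x : k, ((univ.filter fun y : k => y ^ 2 = x ^ 3 + a * x + b).card : ℤ) := by
    rw [Finset.card_filter, Fintype.sum_prod_type]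
    push_cast
    refine Finset.sum_congr rfl fun x _ => ?_
    rw [Finset.card_filter]
    push_cast
    rfl
  rw [h2]
  simp only [h1]
  rw [Finset.sum_add_distrib, Finset.sum_const, Finset.card_univ, nsmul_eq_mul, mul_one]
  ring

theorem sum_shift (h6 : (6 : k) ≠ 0) (c : k) : ∑ b : k, quadraticChar k (c + b) = 0 := by
  rw [← quadraticChar_sum_zero (ringChar_ne h6)]
  exact Fintype.sum_equiv (Equiv.addLeft c) _ _ fun b => rfl

/-- the first moment -/
theorem moment1 (h6 : (6 : k) ≠ 0) : ∑ a : k, ∑ b : k, TT a b = 0 := by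
  refine Finset.sum_eq_zero fun a _ => ?_
  unfold TT
  rw [Finset.sum_comm]
  refine Finset.sum_eq_zero fun x _ => ?_
  exact sum_shift h6 _

theorem sum_sq (h6 : (6 : k) ≠ 0) : ∑ u : k, quadraticChar k u ^ 2 = (Fintype.card k : ℤ) - 1 := by
  have h1 : ∀ u : k, quadraticChar k u ^ 2 = if u = 0 then 0 else 1 := by
    intro u
    by_cases hu : u = 0
    · rw [if_pos hu, hu]; simp
    · rw [if_neg hu, quadraticChar_sq_one hu]
  simp only [h1]
  have h2 : ∀ u : k, (if u = 0 then (0 : ℤ) else 1) = 1 - if u = 0 then 1 else 0 := by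
    intro u
    by_cases hu : u = 0 <;> simp [hu]
  simp only [h2]
  rw [Finset.sum_sub_distrib, Finset.sum_const, Finset.card_univ, nsmul_eq_mul, mul_one,
    Finset.sum_ite_eq' univ (0 : k), if_pos (mem_univ _)]

/-- the second moment -/
theorem moment2 (h6 : (6 : k) ≠ 0) : ∑ a : k, ∑ b : k, TT a b ^ 2 =
    (Fintype.card k : ℤ) ^ 2 * ((Fintype.card k : ℤ) - 1) := by
  set χ := quadraticChar k with hχ
  have h0 : ∑ u : k, χ u = 0 := quadraticChar_sum_zero (ringChar_ne h6)
  have h1 : ∀ x y : k, ∑ a : k, ∑ b : k, χ (x ^ 3 + a * x + b) * χ (y ^ 3 + a * y + b) =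
      if x = y then (Fintype.card k : ℤ) * ((Fintype.card k : ℤ) - 1) else 0 := by
    intro x y
    by_cases hxy : x = y
    · rw [if_pos hxy, ← hxy]
      have h2 : ∀ a : k, ∑ b : k, χ (x ^ 3 + a * x + b) * χ (x ^ 3 + a * x + b) = (Fintype.card k : ℤ) - 1 := by
        intro a
        rw [← sum_sq h6]
        exact Fintype.sum_equiv (Equiv.addLeft (x ^ 3 + a * x)) _ _ fun b => (sq _).symm
      simp only [h2]
      rw [Finset.sum_const, Finset.card_univ, nsmul_eq_mul]
    · rw [if_neg hxy]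
      have hne : x - y ≠ 0 := sub_ne_zero.2 hxy
      -- bijection
      let E : k × k ≃ k × k :=
        { toFun := fun P => (x ^ 3 + P.1 * x + P.2, y ^ 3 + P.1 * y + P.2)
          invFun := fun Q => (((Q.1 - x ^ 3) - (Q.2 - y ^ 3)) / (x - y),
            (Q.1 - x ^ 3) - ((Q.1 - x ^ 3) - (Q.2 - y ^ 3)) / (x - y) * x)
          left_inv := fun P => by
            ext
            · simp only
              field_simp
              ring
            · simp only
              field_simp
              ring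
          right_inv := fun Q => by
            ext
            · simp only
              ring
            · simp only
              field_simp
              ring }
      have h2 : ∑ a : k, ∑ b : k, χ (x ^ 3 + a * x + b) * χ (y ^ 3 + a * y + b) =
          ∑ P : k × k, χ P.1 * χ P.2 := by
        rw [← Fintype.sum_prod_type' (fun a b : k => χ (x ^ 3 + a * x + b) * χ (y ^ 3 + a * y + b))]
        exact Fintype.sum_equiv E _ _ fun P => rfl
      rw [h2, Fintype.sum_prod_type]
      simp only [← Finset.mul_sum, h0, mul_zero, Finset.sum_const_zero]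
  have h2 : ∀ a b : k, TT a b ^ 2 = ∑ x : k, ∑ y : k, χ (x ^ 3 + a * x + b) * χ (y ^ 3 + a * y + b) := by
    intro a b
    unfold TT
    rw [sq, Finset.sum_mul_sum]
  simp only [h2]
  have h3 : ∑ a : k, ∑ b : k, ∑ x : k, ∑ y : k, χ (x ^ 3 + a * x + b) * χ (y ^ 3 + a * y + b) =
      ∑ x : k, ∑ y : k, ∑ a : k, ∑ b : k, χ (x ^ 3 + a * x + b) * χ (y ^ 3 + a * y + b) := by
    calc _ = ∑ a : k, ∑ x : k, ∑ b : k, ∑ y : k, χ (x ^ 3 + a * x + b) * χ (y ^ 3 + a * y + b) :=
          Finset.sum_congr rfl fun a _ => Finset.sum_comm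
      _ = ∑ x : k, ∑ a : k, ∑ b : k, ∑ y : k, χ (x ^ 3 + a * x + b) * χ (y ^ 3 + a * y + b) :=
          Finset.sum_comm
      _ = ∑ x : k, ∑ a : k, ∑ y : k, ∑ b : k, χ (x ^ 3 + a * x + b) * χ (y ^ 3 + a * y + b) :=
          Finset.sum_congr rfl fun x _ => Finset.sum_congr rfl fun a _ => Finset.sum_comm
      _ = _ := Finset.sum_congr rfl fun x _ => Finset.sum_comm
  rw [h3]
  simp only [h1, Finset.sum_ite_eq, mem_univ, if_true]
  rw [Finset.sum_const, Finset.card_univ, nsmul_eq_mul]
  ring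

/-- singular cubics -/
theorem TT_sing (h6 : (6 : k) ≠ 0) {a b : k} (hD : 4 * a ^ 3 + 27 * b ^ 2 = 0) : |TT a b| ≤ 1 := by
  have h2 : (2 : k) ≠ 0 := by
    intro h; apply h6
    have : (6 : k) = 3 * 2 := by norm_num
    rw [this, h, mul_zero]
  have h3 : (3 : k) ≠ 0 := by
    intro h; apply h6
    have : (6 : k) = 2 * 3 := by norm_num
    rw [this, h, mul_zero]
  obtain ⟨c, hc⟩ : ∃ c : k, ∀ x : k, x ^ 3 + a * x + b = (x - c) ^ 2 * (x + 2 * c) := by
    by_cases ha : a = 0
    · have hb : b = 0 := by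
        have h27 : (27 : k) ≠ 0 := by
          have : (27 : k) = 3 ^ 3 := by norm_num
          rw [this]; exact pow_ne_zero _ h3
        rw [ha] at hD
        have h4 : 27 * b ^ 2 = 0 := by linear_combination hD
        rcases mul_eq_zero.1 h4 with h5 | h5
        · exact absurd h5 h27
        · exact pow_eq_zero_iff (by norm_num) |>.1 h5
      refine ⟨0, fun x => ?_⟩
      rw [ha, hb]
      ring
    · refine ⟨-3 * b / (2 * a), fun x => ?_⟩
      field_simp
      linear_combination (a * x + b) * hD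
  have h4 : ∀ x : k, quadraticChar k (x ^ 3 + a * x + b) =
      quadraticChar k (2 * c + x) - if x = c then quadraticChar k (3 * c) else 0 := by
    intro x
    rw [hc, map_mul, add_comm x (2 * c)]
    by_cases hx : x = c
    · rw [if_pos hx, hx, sub_self]
      have e1 : 2 * c + c = 3 * c := by ring
      rw [e1]
      simp
    · rw [if_neg hx, quadraticChar_sq_one' (sub_ne_zero.2 hx)]
      ring
  unfold TT
  simp only [h4]
  rw [Finset.sum_sub_distrib, sum_shift h6, Finset.sum_ite_eq' univ c, if_pos (mem_univ _), zero_sub, abs_neg]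
  by_cases h5 : (3 : k) * c = 0
  · rw [h5]; simp
  · rcases quadraticChar_dichotomy h5 with h | h <;> rw [h] <;> simp

/-- the number of singular equations -/
theorem card_sing (h6 : (6 : k) ≠ 0) :
    ∑ a : k, (univ.filter fun b : k => 4 * a ^ 3 + 27 * b ^ 2 = 0).card ≤ 2 * Fintype.card k := by
  have h3 : (27 : k) ≠ 0 := by
    intro h; apply h6
    have h1 : (3 : k) ^ 3 = 0 := by rw [← h]; norm_num
    have h2 : (3 : k) = 0 := pow_eq_zero_iff (by norm_num) |>.1 h1
    have : (6 : k) = 2 * 3 := by norm_num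
    rw [this, h2, mul_zero]
  have h1 : ∀ a : k, (univ.filter fun b : k => 4 * a ^ 3 + 27 * b ^ 2 = 0).card ≤ 2 := by
    intro a
    by_contra h
    push Not at h
    rw [Finset.two_lt_card_iff] at h
    obtain ⟨x, y, z, hx, hy, hz, hxy, hxz, hyz⟩ := h
    simp only [mem_filter, mem_univ, true_and] at hx hy hz
    have e1 : x ^ 2 = y ^ 2 := mul_left_cancel₀ h3 (by linear_combination hx - hy)
    have e2 : x ^ 2 = z ^ 2 := mul_left_cancel₀ h3 (by linear_combination hx - hz)
    have e3 : x = -y := (sq_eq_sq_iff_eq_or_eq_neg.1 e1).resolve_left hxy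
    have e4 : x = -z := (sq_eq_sq_iff_eq_or_eq_neg.1 e2).resolve_left hxz
    exact hyz (neg_injective (e3.symm.trans e4))
  calc _ ≤ ∑ _a : k, 2 := Finset.sum_le_sum fun a _ => h1 a
    _ = _ := by rw [Finset.sum_const, Finset.card_univ, smul_eq_mul, mul_comm]

/-- quadratic twists -/
theorem TT_twist {d : k} (hd : d ≠ 0) (a b : k) :
    TT (a * d ^ 2) (b * d ^ 3) = quadraticChar k d * TT a b := by
  unfold TT
  rw [Finset.mul_sum]
  refine (Fintype.sum_equiv (Equiv.mulLeft₀ d hd) _ _ fun x => ?_).symm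
  have e1 : (Equiv.mulLeft₀ d hd x) ^ 3 + a * d ^ 2 * (Equiv.mulLeft₀ d hd x) + b * d ^ 3 =
      d ^ 3 * (x ^ 3 + a * x + b) := by
    show (d * x) ^ 3 + a * d ^ 2 * (d * x) + b * d ^ 3 = _
    ring
  rw [e1, map_mul]
  congr 1
  have e2 : d ^ 3 = d ^ 2 * d := by ring
  rw [e2, map_mul, quadraticChar_sq_one' hd, one_mul]

end

section

variable {k : Type} [Field k] [Fintype k] [DecidableEq k]

/-- Hasse's bound -/
theorem TT_bound {a b : k} (h : (6 : k) * (4 * a ^ 3 + 27 * b ^ 2) ≠ 0) :
    |(TT a b : ℝ)| ≤ 2 * √(Fintype.card k) := by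
  have h6 : (6 : k) ≠ 0 := left_ne_zero_of_mul h
  have h1 := Pool.Agent.TH942.ES.hasseK h
  have h2 := pts_eq h6 a b
  have h3 : ((pts a b : ℕ) : ℝ) = Fintype.card k + TT a b := by exact_mod_cast h2
  unfold pts at h3
  rw [h3, sub_add_cancel_left, abs_neg] at h1
  exact h1

/-- the local function -/
noncomputable def ff (a b : k) : ℝ :=
  if (6 : k) * (4 * a ^ 3 + 27 * b ^ 2) = 0 then 0 else Real.log (((pts a b : ℝ) + 1) / Fintype.card k)

theorem ff_small {a b : k} : |ff a b| ≤ Fintype.card k + 1 := by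
  have hq1 : 1 ≤ Fintype.card k := Fintype.card_pos
  have hq : (1 : ℝ) ≤ Fintype.card k := by exact_mod_cast hq1
  unfold ff
  by_cases h : (6 : k) * (4 * a ^ 3 + 27 * b ^ 2) = 0
  · rw [if_pos h, abs_zero]
    linarith
  rw [if_neg h]
  have hN : pts a b ≤ Fintype.card k ^ 2 := by
    unfold pts
    rw [Nat.card_eq_fintype_card]
    refine (Fintype.card_subtype_le _).trans (le_of_eq ?_)
    rw [Fintype.card_prod, sq]
  have hN' : (pts a b : ℝ) ≤ (Fintype.card k : ℝ) ^ 2 := by exact_mod_cast hN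
  have hN0 : (0 : ℝ) ≤ pts a b := Nat.cast_nonneg _
  have hz : 0 < ((pts a b : ℝ) + 1) / Fintype.card k := by positivity
  rw [abs_le]
  constructor
  · have h1 := Real.log_le_sub_one_of_pos (inv_pos.2 hz)
    rw [Real.log_inv] at h1
    have h2 : (((pts a b : ℝ) + 1) / Fintype.card k)⁻¹ ≤ Fintype.card k := by
      rw [inv_div, div_le_iff₀ (by positivity)]
      nlinarith
    linarith
  · have h1 := Real.log_le_sub_one_of_pos hz
    have h2 : ((pts a b : ℝ) + 1) / Fintype.card k ≤ Fintype.card k + 1 := by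
      rw [div_le_iff₀ (by linarith)]
      nlinarith
    linarith

/-- the expansion of the local function -/
theorem ff_exp {a b : k} (h : (6 : k) * (4 * a ^ 3 + 27 * b ^ 2) ≠ 0) (hq : 17 ≤ Fintype.card k) :
    |ff a b - ((1 + TT a b) / Fintype.card k - (1 + TT a b) ^ 2 / (2 * (Fintype.card k : ℝ) ^ 2))| ≤
      81 / (√(Fintype.card k) * Fintype.card k) ∧ |ff a b| ≤ 9 / √(Fintype.card k) := by
  have h6 : (6 : k) ≠ 0 := left_ne_zero_of_mul h
  set q : ℝ := ((Fintype.card k : ℕ) : ℝ) with hqd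
  have hq17 : (17 : ℝ) ≤ q := by rw [hqd]; exact_mod_cast hq
  set r : ℝ := √q with hr
  have hr0 : 0 < r := Real.sqrt_pos.2 (by linarith)
  have hrq : r ^ 2 = q := Real.sq_sqrt (by linarith)
  have hr4 : 4 ≤ r := by
    rw [hr]
    apply Real.le_sqrt_of_sq_le
    linarith
  have hr41 : 4.1 ≤ r := by
    rw [hr]
    apply Real.le_sqrt_of_sq_le
    norm_num
    linarith
  set t : ℝ := ((TT a b : ℤ) : ℝ) with ht
  have htb : |t| ≤ 2 * r := TT_bound h
  have hpts : ((pts a b : ℕ) : ℝ) = q + t := by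
    have := pts_eq h6 a b
    rw [hqd, ht]
    exact_mod_cast this
  set y : ℝ := (1 + t) / q with hy
  have hff : ff a b = Real.log (1 - (-y)) := by
    unfold ff
    rw [if_neg h, hpts, ← hqd]
    congr 1
    rw [hy]
    field_simp
    ring
  have hyb : |y| ≤ 3 / r := by
    rw [hy, abs_div, abs_of_pos (by linarith : (0 : ℝ) < q), div_le_div_iff₀ (by linarith) hr0, ← hrq]
    have h1 : |1 + t| ≤ 1 + 2 * r := (abs_add_le _ _).trans (by rw [abs_one]; linarith)
    nlinarith [abs_nonneg (1 + t)]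
  have hy1 : |y| ≤ 2 / 3 := by
    have h2 : |y| ≤ (1 + 2 * r) / r ^ 2 := by
      rw [hy, abs_div, abs_of_pos (by linarith : (0 : ℝ) < q), ← hrq]
      have h1 : |1 + t| ≤ 1 + 2 * r := (abs_add_le _ _).trans (by rw [abs_one]; linarith)
      gcongr
    refine h2.trans ?_
    rw [div_le_iff₀ (by positivity)]
    nlinarith
  have h3 := Real.abs_log_sub_add_sum_range_le (x := -y) (by rw [abs_neg]; linarith) 2
  have h4 := Real.abs_log_sub_add_sum_range_le (x := -y) (by rw [abs_neg]; linarith) 0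
  rw [abs_neg, ← hff] at h3 h4
  simp only [Finset.sum_range_succ, Finset.sum_range_zero, zero_add] at h3 h4
  have h5 : 0 ≤ |y| := abs_nonneg y
  have h6' : 1 / (1 - |y|) ≤ 3 := by
    rw [div_le_iff₀ (by linarith)]
    linarith
  have h7 : (0 : ℝ) ≤ 1 / (1 - |y|) := by
    have : 0 < 1 - |y| := by linarith
    positivity
  constructor
  · have e1 : ff a b - ((1 + t) / q - (1 + t) ^ 2 / (2 * q ^ 2)) =
        (-y) ^ (0 + 1) / ((0 : ℕ) + 1 : ℝ) + (-y) ^ (1 + 1) / ((1 : ℕ) + 1 : ℝ) + ff a b := by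
      rw [hy]
      push_cast
      field_simp
      ring
    rw [e1]
    refine h3.trans ?_
    calc |y| ^ (2 + 1) / (1 - |y|) = |y| ^ 3 * (1 / (1 - |y|)) := by ring
      _ ≤ (3 / r) ^ 3 * 3 := by gcongr
      _ = 81 / (r * q) := by rw [← hrq]; field_simp; norm_num
  · refine h4.trans ?_
    calc |y| ^ 1 / (1 - |y|) = |y| * (1 / (1 - |y|)) := by ring
      _ ≤ (3 / r) * 3 := by gcongr
      _ = 9 / r := by ring

end

end Pool.Agent.X278.AV
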