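import Pool.Agent.X278.AV.Box

/-!
# Equidistribution of the minimal points of boxes modulo `N`
-/

set_option autoImplicit false

namespace Pool.Agent.X278.AV

open Finset Filter Topology ArithmeticFunction

variable {k N : ℕ}

/-- the contribution of `m` -/
noncomputable def part (e : Fin k → ℕ) (φ : (Fin k → ZMod N) → ℝ) (a : Fin k → ℕ) (m : ℕ) : ℝ :=
  ∑ y ∈ (Box (fun j => a j / m ^ e j)).erase 0, φ (fun j => (((m : ℤ) ^ e j * y j : ℤ) : ZMod N))

/-- the average of a function modulo `N` -/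
noncomputable def avg [NeZero N] (φ : (Fin k → ZMod N) → ℝ) : ℝ := (∑ r, φ r) / N ^ k

theorem cl_lim {N : ℕ} (hN : 0 < N) {c : ℕ} (hc : 0 < c) (r : ZMod N) :
    Tendsto (fun n : ℕ => (cl N (n / c) r : ℝ) / (2 * n)) atTop (𝓝 (1 / (c * N))) := by
  have hN' : (0 : ℝ) < N := by exact_mod_cast hN
  have hc' : (0 : ℝ) < c := by exact_mod_cast hc
  have h1 : Tendsto (fun n : ℕ => (2 : ℝ) / n) atTop (𝓝 0) := tendsto_const_div_atTop_nhds_zero_nat 2
  rw [← tendsto_sub_nhds_zero_iff]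
  refine squeeze_zero_norm' ?_ h1
  filter_upwards [eventually_gt_atTop 0] with n hn
  have hn' : (0 : ℝ) < n := by exact_mod_cast hn
  have h2 := cl_bound hN (n / c) r
  have h3 : ((n / c : ℕ) : ℝ) ≤ n / c := Nat.cast_div_le
  have h4 : (n : ℝ) / c - 1 ≤ ((n / c : ℕ) : ℝ) := by
    have := Nat.lt_div_mul_add hc (a := n)
    have h5 : (n : ℝ) < ((n / c : ℕ) : ℝ) * c + c := by exact_mod_cast this
    rw [sub_le_iff_le_add, div_le_iff₀ hc']
    nlinarith
  rw [Real.norm_eq_abs]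
  have e1 : (cl N (n / c) r : ℝ) / (2 * n) - 1 / (c * N) =
      ((cl N (n / c) r : ℝ) - 2 * ((n / c : ℕ) : ℝ) / N + 2 * (((n / c : ℕ) : ℝ) - n / c) / N) / (2 * n) := by
    field_simp
    ring
  rw [e1, abs_div, abs_of_pos (by positivity : (0 : ℝ) < 2 * n)]
  have e2 : |2 * (((n / c : ℕ) : ℝ) - n / c) / N| ≤ 2 := by
    rw [abs_div, abs_of_pos hN', div_le_iff₀ hN', abs_mul]
    have e3 : |((n / c : ℕ) : ℝ) - n / c| ≤ 1 := by
      rw [abs_le]
      constructor <;> linarith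
    have e4 : (1 : ℝ) ≤ N := by exact_mod_cast hN
    have e5 : |(2 : ℝ)| = 2 := by norm_num
    rw [e5]
    nlinarith
  have e3 := abs_add_le ((cl N (n / c) r : ℝ) - 2 * ((n / c : ℕ) : ℝ) / N)
    (2 * (((n / c : ℕ) : ℝ) - n / c) / N)
  rw [div_le_div_iff₀ (by positivity) hn']
  nlinarith

theorem part_lim [NeZero N] (hk : 0 < k) (e : Fin k → ℕ) (φ : (Fin k → ZMod N) → ℝ)
    (a : ℕ → Fin k → ℕ) (ha : ∀ j, Tendsto (fun X => a X j) atTop atTop) {m : ℕ} (hm : 0 < m)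
    (hmN : m.Coprime N) :
    Tendsto (fun X => part e φ (a X) m / ∏ j, (2 * (a X j : ℝ))) atTop
      (𝓝 ((((m : ℝ) ^ (∑ j, e j))⁻¹) * avg φ)) := by
  classical
  have hN : 0 < N := NeZero.pos N
  have hN' : (0 : ℝ) < N := by exact_mod_cast hN
  have hm' : (0 : ℝ) < m := by exact_mod_cast hm
  set ψ : (Fin k → ZMod N) → ℝ := fun r => φ (fun j => (m : ZMod N) ^ e j * r j) with hψ
  have hcast : ∀ y : Fin k → ℤ, φ (fun j => (((m : ℤ) ^ e j * y j : ℤ) : ZMod N)) =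
      ψ (fun j => ((y j : ℤ) : ZMod N)) := by
    intro y
    rw [hψ]
    push_cast
    rfl
  have h1 : ∀ X, part e φ (a X) m = (∑ r, ψ r * ∏ j, (cl N (a X j / m ^ e j) (r j) : ℝ)) - ψ 0 := by
    intro X
    unfold part
    simp only [hcast]
    have h2 : (0 : Fin k → ℤ) ∈ Box fun j => a X j / m ^ e j := by
      rw [mem_Box]
      intro j
      rw [Pi.zero_apply, abs_zero]
      positivity
    have h3 := Finset.sum_erase_eq_sub (f := fun y : Fin k → ℤ => ψ (fun j => ((y j : ℤ) : ZMod N))) h2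
    rw [h3, sum_Box]
    congr 2
    funext j
    simp
  have hden : Tendsto (fun X => ∏ j, (2 * (a X j : ℝ))) atTop atTop := by
    have hk' : (Finset.univ : Finset (Fin k)).Nonempty := ⟨⟨0, hk⟩, mem_univ _⟩
    refine tendsto_atTop_mono' atTop (f₁ := fun X => (a X ⟨0, hk⟩ : ℝ)) ?_
      (tendsto_natCast_atTop_atTop.comp (ha ⟨0, hk⟩))
    have h4 : ∀ᶠ X in atTop, ∀ j, 1 ≤ a X j := by
      rw [eventually_all]
      exact fun j => (ha j).eventually_ge_atTop 1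
    filter_upwards [h4] with X hX
    rw [← Finset.mul_prod_erase _ _ (mem_univ (⟨0, hk⟩ : Fin k))]
    have h5 : (1 : ℝ) ≤ ∏ j ∈ univ.erase (⟨0, hk⟩ : Fin k), (2 * (a X j : ℝ)) := by
      refine Finset.one_le_prod (fun j _ => ?_)
      have : (1 : ℝ) ≤ a X j := by exact_mod_cast hX j
      linarith
    have h6 : (0 : ℝ) ≤ a X ⟨0, hk⟩ := by positivity
    nlinarith
  have h2 : ∀ r : Fin k → ZMod N, Tendsto (fun X => (∏ j, (cl N (a X j / m ^ e j) (r j) : ℝ)) /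
      ∏ j, (2 * (a X j : ℝ))) atTop (𝓝 (∏ j, (1 / (((m ^ e j : ℕ) : ℝ) * N)))) := by
    intro r
    simp only [← Finset.prod_div_distrib]
    refine tendsto_finsetProd _ fun j _ => ?_
    exact (cl_lim hN (pow_pos hm (e j)) (r j)).comp (ha j)
  have h3 : Tendsto (fun X => ∑ r, ψ r * ((∏ j, (cl N (a X j / m ^ e j) (r j) : ℝ)) /
      ∏ j, (2 * (a X j : ℝ)))) atTop (𝓝 (∑ r, ψ r * ∏ j, (1 / (((m ^ e j : ℕ) : ℝ) * N)))) :=
    tendsto_finsetSum _ fun r _ => (h2 r).const_mul _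
  have h4 : Tendsto (fun X => ψ 0 / ∏ j, (2 * (a X j : ℝ))) atTop (𝓝 0) := tendsto_const_nhds.div_atTop hden
  have h5 := h3.sub h4
  rw [sub_zero] at h5
  have e1 : (∑ r, ψ r * ∏ j, (1 / (((m ^ e j : ℕ) : ℝ) * N))) = ((m : ℝ) ^ (∑ j, e j))⁻¹ * avg φ := by
    have e2 : (∏ j, (1 / (((m ^ e j : ℕ) : ℝ) * N))) = ((m : ℝ) ^ (∑ j, e j))⁻¹ * ((N : ℝ) ^ k)⁻¹ := by
      rw [Finset.prod_div_distrib, Finset.prod_mul_distrib, Finset.prod_const_one, Finset.prod_const,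
        Finset.card_univ, Fintype.card_fin, one_div, mul_inv]
      congr 2
      push_cast
      rw [Finset.prod_pow_eq_pow_sum]
    have hu : ∀ j, IsUnit ((m : ZMod N) ^ e j) := fun j => ((ZMod.isUnit_iff_coprime m N).2 hmN).pow _
    have e3 : ∑ r, ψ r = ∑ r, φ r := by
      refine Fintype.sum_equiv (Equiv.piCongrRight fun j => (hu j).unit.mulLeft) _ _ fun r => ?_
      rw [hψ]
      rfl
    rw [← Finset.sum_mul, e2, e3]
    unfold avg
    ring
  rw [← e1]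
  refine h5.congr fun X => ?_
  rw [h1, sub_div, Finset.sum_div]
  congr 1
  exact Finset.sum_congr rfl fun r _ => by ring

end Pool.Agent.X278.AV
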