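import Pool.Agent.X278.AV.MomQ2

/-!
# Means of infinite products over families of minimal points
-/

set_option autoImplicit false

namespace Pool.Agent.X278.AV

open Finset Filter Topology
open Pool.Agent.X278.OP Pool.Agent.W189.ML

variable {k : ℕ} {e : Fin k → ℕ} {a : ℕ → Fin k → ℕ} {Z : (Fin k → ℤ) → Prop}

/-- the expected value at a prime of a complex function -/
noncomputable def ExC (s p : ℕ) [NeZero p] (f : (Fin k → ZMod p) → ℂ) : ℂ :=
  (∑ r, f r) / ((p : ℂ) ^ k) / ((1 - ((p : ℝ) ^ s)⁻¹ : ℝ) : ℂ)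

theorem mean_limC {N : ℕ} [NeZero N] (D : Data k e a Z) (φ : (Fin k → ZMod N) → ℂ)
    (hφ : ∀ m : ℕ, ¬ m.Coprime N → ∀ y : Fin k → ℤ, φ (fun j => (((m : ℤ) ^ e j * y j : ℤ) : ZMod N)) = 0) :
    Tendsto (fun X => meanC (Fam e Z (a X)) (fun x => φ (red N x))) atTop
      (𝓝 ((∑ r, φ r) / ((N : ℂ) ^ k) / (fac (∑ j, e j) N : ℝ))) := by
  have h2 := mean_lim (N := N) D.hk D.he (fun r => (φ r).re) (fun m hm y => by rw [hφ m hm y, Complex.zero_re])
    a D.ha Z D.zero D.lim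
  have h3 := mean_lim (N := N) D.hk D.he (fun r => (φ r).im) (fun m hm y => by rw [hφ m hm y, Complex.zero_im])
    a D.ha Z D.zero D.lim
  have h4 := ((Complex.continuous_ofReal.tendsto _).comp h2).add
    (((Complex.continuous_ofReal.tendsto _).comp h3).mul_const Complex.I)
  have e1 : ((avg (fun r => (φ r).re) / fac (∑ j, e j) N : ℝ) : ℂ) +
      ((avg (fun r => (φ r).im) / fac (∑ j, e j) N : ℝ) : ℂ) * Complex.I =
      (∑ r, φ r) / ((N : ℂ) ^ k) / (fac (∑ j, e j) N : ℝ) := by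
    have h5 : ∑ r, φ r = ((∑ r, (φ r).re : ℝ) : ℂ) + ((∑ r, (φ r).im : ℝ) : ℂ) * Complex.I := by
      push_cast
      rw [Finset.sum_mul, ← Finset.sum_add_distrib]
      exact Finset.sum_congr rfl fun r _ => (Complex.re_add_im _).symm
    rw [h5]
    unfold avg
    push_cast
    ring
  rw [e1] at h4
  refine h4.congr fun X => ?_
  simp only [Function.comp_apply]
  unfold meanC mean
  push_cast
  rw [div_mul_eq_mul_div, ← add_div, Finset.sum_mul, ← Finset.sum_add_distrib]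
  congr 1
  refine Finset.sum_congr rfl fun x _ => ?_
  exact Complex.re_add_im _

/-- products over finite sets of primes -/
theorem Fam_many (e : Fin k → ℕ) (he : ∀ j, 2 ≤ e j) (s : ℕ) (g : (p : Nat.Primes) → (Fin k → ZMod p) → ℂ)
    (hg : ∀ p, g p 0 = 0) (I : Finset Nat.Primes) : ∃ (P : ℕ) (_ : NeZero P) (G : (Fin k → ZMod P) → ℂ),
      (∀ q : Nat.Primes, q ∉ I → P.Coprime (q : ℕ)) ∧
      (∀ m : ℕ, ¬ m.Coprime P → ∀ y : Fin k → ℤ, G (fun j => (((m : ℤ) ^ e j * y j : ℤ) : ZMod P)) = 0) ∧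
      (∀ x : Fin k → ℤ, G (red P x) = ∏ p ∈ I, g p (red p x)) ∧
      (∑ r, G r) / ((P : ℂ) ^ k) / (fac s P : ℝ) = ∏ p ∈ I, ExC s (p : ℕ) (g p) := by
  classical
  have key : ∀ (ℓ m : ℕ), ℓ ∣ m → ∀ y : Fin k → ℤ, red ℓ (fun j => (m : ℤ) ^ e j * y j) = 0 := by
    intro ℓ m hℓ y
    funext j
    have h4 : ((m : ℤ) : ZMod ℓ) = 0 := by
      rw [Int.cast_natCast, ZMod.natCast_eq_zero_iff]
      exact hℓ
    unfold red
    rw [Int.cast_mul, Int.cast_pow, h4, zero_pow (by have := he j; omega), zero_mul]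
    rfl
  induction I using Finset.induction_on with
  | empty =>
    refine ⟨1, inferInstance, fun _ => 1, fun q _ => Nat.coprime_one_left _, fun m hm => ?_, fun x => by simp, ?_⟩
    · exact absurd (Nat.coprime_one_right m) hm
    · unfold AV.fac
      simp
  | insert q J hq ih =>
    obtain ⟨P, hP, G, h2, h3, h4, h5⟩ := ih
    have hqP := h2 q hq
    have : NeZero (P * (q : ℕ)) := ⟨mul_ne_zero (NeZero.ne P) q.2.ne_zero⟩
    set φ := ZMod.chineseRemainder hqP with hφ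
    have hval : ∀ x : Fin k → ℤ, (fun j => (φ ((x j : ℤ) : ZMod (P * q))).1) = red P x ∧
        (fun j => (φ ((x j : ℤ) : ZMod (P * q))).2) = red (q : ℕ) x := by
      intro x
      constructor <;> funext j <;> simp only [map_intCast] <;> rfl
    refine ⟨P * q, this, fun r => G (fun j => (φ (r j)).1) * g q (fun j => (φ (r j)).2), ?_, ?_, ?_, ?_⟩
    · intro q' hq'
      rw [Finset.mem_insert, not_or] at hq'
      refine Nat.Coprime.mul_left (h2 q' hq'.2) ?_
      exact (Nat.coprime_primes q.2 q'.2).2 fun e => hq'.1 (Subtype.ext e).symm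
    · intro m hm y
      obtain ⟨v1, v2⟩ := hval (fun j => (m : ℤ) ^ e j * y j)
      simp only at v1 v2 ⊢
      rw [v1, v2]
      by_cases hmP : m.Coprime P
      · have h6 : (q : ℕ) ∣ m := by
          by_contra h
          exact hm (Nat.Coprime.mul_right hmP ((Nat.Prime.coprime_iff_not_dvd q.2).2 h).symm)
        rw [key _ m h6 y, hg, mul_zero]
      · have := h3 m hmP y
        unfold red
        rw [this, zero_mul]
    · intro x
      obtain ⟨v1, v2⟩ := hval x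
      rw [Finset.prod_insert hq, ← h4 x]
      unfold red at v1 v2 ⊢
      simp only
      rw [v1, v2, mul_comm]
    · have h6 : ∑ r : Fin k → ZMod (P * q), G (fun j => (φ (r j)).1) * g q (fun j => (φ (r j)).2) =
          (∑ r, G r) * ∑ r, g q r := by
        have h7 : (∑ r, G r) * ∑ r, g q r = ∑ x : (Fin k → ZMod P) × (Fin k → ZMod q), G x.1 * g q x.2 := by
          rw [Finset.sum_mul_sum, Fintype.sum_prod_type]
        rw [h7]
        let E : (Fin k → ZMod (P * q)) ≃ (Fin k → ZMod P) × (Fin k → ZMod q) :=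
          ((Equiv.piCongrRight fun _ => φ.toEquiv).trans (Equiv.arrowProdEquivProdArrow (Fin k) _ _))
        exact Fintype.sum_equiv E _ _ fun r => rfl
      rw [h6, Finset.prod_insert hq, ← h5, fac_mul (NeZero.ne P) q.2.ne_zero hqP, fac_prime s q.2]
      unfold ExC
      push_cast
      rw [div_div, div_div, div_div, div_mul_div_comm]
      congr 1
      · ring
      · ring

/-- **the independence** -/
theorem Fam_ind (D : Data k e a Z) {g : (p : Nat.Primes) → (Fin k → ZMod p) → ℂ} (hg : ∀ p, g p 0 = 0)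
    {B : Nat.Primes → ℝ} (hgB : ∀ (p : Nat.Primes) r, ‖g p r‖ ≤ B p) :
    Ind (fun X => Fam e Z (a X)) (fun (p : Nat.Primes) x => g p (red p x)) B
      (fun p => ExC (∑ j, e j) (p : ℕ) (g p)) where
  bd := fun p X x _ => hgB p _
  fin := fun I => by
    obtain ⟨P, hP, G, k2, k3, k4, k5⟩ := Fam_many e D.he (∑ j, e j) g hg I
    have h3 := mean_limC D G k3
    rw [k5] at h3
    refine h3.congr fun X => ?_
    unfold meanC
    congr 1
    exact Finset.sum_congr rfl fun x _ => k4 x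
  ne := fam_ne D

/-- the local mean of the power `x` -/
noncomputable def phF (s : ℕ) (f : (p : Nat.Primes) → (Fin k → ZMod p) → ℝ) (p : Nat.Primes) (x : ℝ) : ℝ :=
  1 + Ex s (p : ℕ) (fun r => Real.exp (x * f p r) - 1)

theorem wr_f_sum {f : (p : Nat.Primes) → (Fin k → ZMod p) → ℝ} {B : ℝ} (hB : 0 ≤ B)
    (hf : ∀ p r, |f p r| ≤ B / √((p : ℕ) : ℝ)) (γ : ℝ) {T : ℝ} (hT : 0 < T) (x : Fin k → ℤ) :
    Summable fun p : Nat.Primes => |wr γ (Real.log (p : ℕ) / T) * f p (red p x)| := by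
  refine Summable.of_nonneg_of_le (fun _ => abs_nonneg _) (fun p => ?_) (wt_sum (γ := γ) hT (B := B) hB)
  have hu : 0 ≤ Real.log (p : ℕ) / T := div_nonneg (Real.log_nonneg (by exact_mod_cast p.2.one_le)) hT.le
  rw [abs_mul, norm_Wt γ hu, mul_comm]
  have h1 := wr_le γ hu
  have h3 := om_nonneg hu
  have h4 := hf p (red p x)
  gcongr

/-- **the mean of the powers** -/
theorem Fam_pow (D : Data k e a Z) {f : (p : Nat.Primes) → (Fin k → ZMod p) → ℝ} (h0 : ∀ p, f p 0 = 0) {B : ℝ}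
    (hB : 0 ≤ B) (hf : ∀ p r, |f p r| ≤ B / √((p : ℕ) : ℝ)) (γ κ : ℝ) {T : ℝ} (hT : 0 < T) :
    Tendsto (fun X : ℕ => mean (Fam e Z (a X)) (fun x =>
      Real.exp (κ * ∑' p : Nat.Primes, wr γ (Real.log (p : ℕ) / T) * f p (red p x)))) atTop
      (𝓝 (∏' p : Nat.Primes, phF (∑ j, e j) f p (κ * wr γ (Real.log (p : ℕ) / T)))) := by
  classical
  set x : Nat.Primes → ℝ := fun p => κ * wr γ (Real.log (p : ℕ) / T) with hx
  have hup : ∀ p : Nat.Primes, 0 ≤ Real.log (p : ℕ) / T := fun p =>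
    div_nonneg (Real.log_nonneg (by exact_mod_cast p.2.one_le)) hT.le
  set K : ℝ := |κ| * (Real.exp 1 + 1) with hK
  have hK0 : 0 ≤ K := by positivity
  have hxK : ∀ p, |x p| ≤ K := by
    intro p
    show |κ * wr γ (Real.log (p : ℕ) / T)| ≤ |κ| * (Real.exp 1 + 1)
    rw [abs_mul]
    exact mul_le_mul_of_nonneg_left (wr_bd γ (hup p)) (abs_nonneg κ)
  set g : (p : Nat.Primes) → (Fin k → ZMod p) → ℂ := fun p r => ((Real.exp (x p * f p r) - 1 : ℝ) : ℂ) with hgd
  have hg0 : ∀ p, g p 0 = 0 := by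
    intro p
    rw [hgd]
    simp only [h0, mul_zero, Real.exp_zero, sub_self, Complex.ofReal_zero]
  set Bp : Nat.Primes → ℝ := fun p => B * Real.exp (B * K) * (√((p : ℕ) : ℝ))⁻¹ * |x p| with hBp
  have hgB : ∀ (p : Nat.Primes) r, ‖g p r‖ ≤ Bp p := by
    intro p r
    rw [hgd, hBp]
    simp only
    rw [Complex.norm_real, Real.norm_eq_abs]
    refine (exp_one_rem _).trans ?_
    have h1 := hf p r
    have hs : (1 : ℝ) ≤ √((p : ℕ) : ℝ) := Real.one_le_sqrt.2 (by exact_mod_cast p.2.one_le)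
    have h2 : |x p * f p r| ≤ |x p| * (B / √((p : ℕ) : ℝ)) := by
      rw [abs_mul]
      gcongr
    have h3 : |x p * f p r| ≤ B * K := by
      refine h2.trans ?_
      have : B / √((p : ℕ) : ℝ) ≤ B := div_le_self hB hs
      calc |x p| * (B / √((p : ℕ) : ℝ)) ≤ K * B := mul_le_mul (hxK p) this (by positivity) hK0
        _ = _ := by ring
    calc |x p * f p r| * Real.exp |x p * f p r| ≤ |x p| * (B / √((p : ℕ) : ℝ)) * Real.exp (B * K) := by gcongr
      _ = _ := by ring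
  have hBs : Summable Bp := by
    refine Summable.of_nonneg_of_le (fun p => by positivity) (fun p => ?_)
      (wt_sum (γ := γ) hT (B := B * Real.exp (B * K) * |κ|) (by positivity))
    rw [norm_Wt γ (hup p)]
    have h1 := wr_le γ (hup p)
    rw [hBp]
    simp only
    rw [hx]
    simp only
    rw [abs_mul]
    calc _ ≤ B * Real.exp (B * K) * (√((p : ℕ) : ℝ))⁻¹ * (|κ| * om (Real.log (p : ℕ) / T)) := by gcongr
      _ = _ := by rw [div_eq_mul_inv]; ring
  have I := Fam_ind D (g := g) hg0 hgB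
  have h3 := I.prod hBs
  have e1 : ∀ p : Nat.Primes, (1 : ℂ) + ExC (∑ j, e j) (p : ℕ) (g p) =
      ((phF (∑ j, e j) f p (x p) : ℝ) : ℂ) := by
    intro p
    unfold ExC phF Ex avg
    rw [hgd]
    push_cast
    rfl
  have e2 : ∀ (y : Fin k → ℤ) (p : Nat.Primes), (1 : ℂ) + g p (red p y) =
      ((Real.exp (κ * (wr γ (Real.log (p : ℕ) / T) * f p (red p y))) : ℝ) : ℂ) := by
    intro y p
    rw [hgd]
    simp only
    have e5 : x p * f p (red p y) = κ * (wr γ (Real.log (p : ℕ) / T) * f p (red p y)) := by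
      rw [hx]
      ring
    rw [e5, Complex.ofReal_sub, Complex.ofReal_one, add_sub_cancel]
  have hprod : ∀ y : Fin k → ℤ,
      ((Real.exp (κ * ∑' p : Nat.Primes, wr γ (Real.log (p : ℕ) / T) * f p (red p y)) : ℝ) : ℂ) =
      ∏' p : Nat.Primes, ((1 : ℂ) + g p (red p y)) := by
    intro y
    have s1 : Summable fun p : Nat.Primes => wr γ (Real.log (p : ℕ) / T) * f p (red p y) :=
      (wr_f_sum hB hf γ hT y).of_abs
    have h5 : HasProd (fun p : Nat.Primes => Real.exp (κ * (wr γ (Real.log (p : ℕ) / T) * f p (red p y))))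
        (Real.exp (κ * ∑' p : Nat.Primes, wr γ (Real.log (p : ℕ) / T) * f p (red p y))) := by
      rw [← tsum_mul_left]
      refine Real.hasProd_of_hasSum_log (fun p => Real.exp_pos _) ?_
      simp only [Real.log_exp]
      exact (s1.mul_left κ).hasSum
    have h6 := h5.map (Complex.ofRealHom : ℝ →+* ℂ).toMonoidHom Complex.continuous_ofReal
    have h7 : ∏' p : Nat.Primes, ((Real.exp (κ * (wr γ (Real.log (p : ℕ) / T) * f p (red p y))) : ℝ) : ℂ) =
        ((Real.exp (κ * ∑' p : Nat.Primes, wr γ (Real.log (p : ℕ) / T) * f p (red p y)) : ℝ) : ℂ) := h6.tprod_eq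
    rw [← h7]
    exact tprod_congr fun p => (e2 y p).symm
  have e3 : ∏' p : Nat.Primes, ((1 : ℂ) + ExC (∑ j, e j) (p : ℕ) (g p)) =
      ((∏' p : Nat.Primes, phF (∑ j, e j) f p (x p) : ℝ) : ℂ) := by
    rw [tprod_congr e1]
    have hm : Multipliable fun p : Nat.Primes => phF (∑ j, e j) f p (x p) := by
      have h5 : Summable fun p : Nat.Primes => ‖ExC (∑ j, e j) (p : ℕ) (g p)‖ :=
        Summable.of_nonneg_of_le (fun _ => norm_nonneg _) I.e_le hBs
      have h6 : Summable fun p : Nat.Primes => (phF (∑ j, e j) f p (x p) - 1) := by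
        refine Summable.of_norm (h5.congr fun p => ?_)
        have h8 : ExC (∑ j, e j) (p : ℕ) (g p) = ((phF (∑ j, e j) f p (x p) - 1 : ℝ) : ℂ) := by
          rw [Complex.ofReal_sub, ← e1 p]
          push_cast
          ring
        rw [h8, Complex.norm_real]
      refine (Real.multipliable_one_add_of_summable h6).congr fun p => ?_
      ring
    have h6 := hm.hasProd.map (Complex.ofRealHom : ℝ →+* ℂ).toMonoidHom Complex.continuous_ofReal
    exact h6.tprod_eq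
  rw [e3] at h3
  have h4 := (Complex.continuous_re.tendsto _).comp h3
  rw [Complex.ofReal_re] at h4
  refine h4.congr fun X => ?_
  simp only [Function.comp_apply]
  unfold meanC mean
  rw [Complex.div_natCast_re, Complex.re_sum]
  congr 1
  refine Finset.sum_congr rfl fun m _ => ?_
  rw [← hprod m, Complex.ofReal_re]

/-! ### the local expansion -/

theorem phF_low (D : Data k e a Z) {f : (p : Nat.Primes) → (Fin k → ZMod p) → ℝ} (h0 : ∀ p, f p 0 = 0) {B : ℝ} (hB : 0 ≤ B)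
    (hf : ∀ p r, |f p r| ≤ B / √((p : ℕ) : ℝ)) {K : ℝ} (p : Nat.Primes) {x : ℝ} (hx : |x| ≤ K) :
    Real.exp (-(K * B)) ≤ phF (∑ j, e j) f p x := by
  classical
  have hp2 : (2 : ℝ) ≤ (p : ℕ) := by exact_mod_cast p.2.two_le
  have hp0 : (0 : ℝ) < (p : ℕ) := by linarith
  have hK : 0 ≤ K := (abs_nonneg x).trans hx
  have hs : k < ∑ j, e j := by
    have h1 : ∑ _j : Fin k, 2 ≤ ∑ j, e j := Finset.sum_le_sum fun j _ => D.he j
    rw [Finset.sum_const, Finset.card_univ, Fintype.card_fin, smul_eq_mul] at h1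
    have := D.hk
    omega
  set s := ∑ j, e j with hsd
  set ε : ℝ := (((p : ℕ) : ℝ) ^ s)⁻¹ with hε
  set η : ℝ := (((p : ℕ) : ℝ) ^ k)⁻¹ with hη
  have hη0 : 0 < η := by positivity
  have hη2 : η * ((p : ℕ) : ℝ) ^ k = 1 := by
    rw [hη]
    exact inv_mul_cancel₀ (by positivity)
  have hε1 : ε < η := by
    rw [hε]
    exact inv_strictAnti₀ (by positivity) (pow_lt_pow_right₀ (by linarith) hs)
  have hk1 : η ≤ 1 := inv_le_one_of_one_le₀ (one_le_pow₀ (by linarith))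
  have hε2 : 0 < 1 - ε := by linarith
  have h1 : avg (fun r => Real.exp (x * f p r) - 1) = avg (fun r => Real.exp (x * f p r)) - 1 := by
    unfold avg
    rw [Finset.sum_sub_distrib, sub_div]
    congr 1
    rw [Finset.sum_const, Finset.card_univ, nsmul_eq_mul, mul_one, Fintype.card_fun, ZMod.card, Fintype.card_fin]
    push_cast
    exact div_self (by positivity)
  set E : ℝ := Real.exp (-(K * B)) with hE
  have hE1 : E ≤ 1 := Real.exp_le_one_iff.2 (by nlinarith)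
  have hE0 : 0 < E := Real.exp_pos _
  have h3 : ∀ r, E ≤ Real.exp (x * f p r) := by
    intro r
    apply Real.exp_le_exp.2
    have h4 : |x * f p r| ≤ K * B := by
      rw [abs_mul]
      have h5 := hf p r
      have hs1 : (1 : ℝ) ≤ √((p : ℕ) : ℝ) := Real.one_le_sqrt.2 (by linarith)
      have h6 : B / √((p : ℕ) : ℝ) ≤ B := div_le_self hB hs1
      exact mul_le_mul hx (h5.trans h6) (abs_nonneg _) hK
    exact neg_le_of_abs_le h4
  have h2 : E * (1 - η) + η ≤ avg (fun r => Real.exp (x * f p r)) := by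
    unfold avg
    rw [le_div_iff₀ (by positivity)]
    rw [← Finset.add_sum_erase _ _ (mem_univ (0 : Fin k → ZMod p)), h0, mul_zero, Real.exp_zero]
    have h5 : ∑ _r ∈ (univ : Finset (Fin k → ZMod p)).erase 0, E ≤
        ∑ r ∈ (univ : Finset (Fin k → ZMod p)).erase 0, Real.exp (x * f p r) := Finset.sum_le_sum fun r _ => h3 r
    rw [Finset.sum_const, Finset.card_erase_of_mem (mem_univ _), Finset.card_univ, nsmul_eq_mul, Fintype.card_fun,
      ZMod.card, Fintype.card_fin, Nat.cast_sub (Nat.one_le_pow _ _ p.2.pos)] at h5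
    push_cast at h5
    have e1 : (E * (1 - η) + η) * ((p : ℕ) : ℝ) ^ k = E * (((p : ℕ) : ℝ) ^ k - η * ((p : ℕ) : ℝ) ^ k) + η * ((p : ℕ) : ℝ) ^ k := by
      ring
    rw [e1, hη2]
    linarith
  unfold phF Ex
  rw [h1, ← hε]
  have e1 : 1 + (avg (fun r => Real.exp (x * f p r)) - 1) / (1 - ε) = (avg (fun r => Real.exp (x * f p r)) - ε) / (1 - ε) := by
    field_simp
    ring
  rw [e1, le_div_iff₀ hε2]
  nlinarith [mul_nonneg (sub_nonneg.2 hE1) (sub_nonneg.2 hε1.le)]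

theorem phF_pos (D : Data k e a Z) {f : (p : Nat.Primes) → (Fin k → ZMod p) → ℝ} (h0 : ∀ p, f p 0 = 0) {B : ℝ} (hB : 0 ≤ B)
    (hf : ∀ p r, |f p r| ≤ B / √((p : ℕ) : ℝ)) (p : Nat.Primes) (x : ℝ) : 0 < phF (∑ j, e j) f p x :=
  (Real.exp_pos _).trans_le (phF_low D h0 hB hf p le_rfl)

theorem phF_cont (s : ℕ) (f : (p : Nat.Primes) → (Fin k → ZMod p) → ℝ) (p : Nat.Primes) : Continuous (phF s f p) := by
  unfold phF Ex avg
  fun_prop

/-- **the local expansion** -/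
theorem phF_exp (D : Data k e a Z) {f : (p : Nat.Primes) → (Fin k → ZMod p) → ℝ} (h0 : ∀ p, f p 0 = 0) {B : ℝ} (hB : 0 ≤ B)
    (hf : ∀ p r, |f p r| ≤ B / √((p : ℕ) : ℝ)) {κ ν C₁ C₂ : ℝ}
    (h1 : ∀ p : Nat.Primes, |Ex (∑ j, e j) (p : ℕ) (f p) - κ / (p : ℕ)| ≤ C₁ / (√((p : ℕ) : ℝ) * (p : ℕ)))
    (h2 : ∀ p : Nat.Primes, |Ex (∑ j, e j) (p : ℕ) (fun r => f p r ^ 2) - ν / (p : ℕ)| ≤ C₂ / (√((p : ℕ) : ℝ) * (p : ℕ)))
    (K : ℝ) : ∃ C : ℝ, ∀ (p : Nat.Primes) (x : ℝ), |x| ≤ K →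
    |Real.log (phF (∑ j, e j) f p x) - (κ * x + ν / 2 * x ^ 2) / (p : ℕ)| ≤ C / (√((p : ℕ) : ℝ) * (p : ℕ)) := by
  rcases lt_or_ge K 0 with hK | hK
  · exact ⟨0, fun p x hx => absurd ((abs_nonneg x).trans hx) (not_le.2 hK)⟩
  set E : ℝ := Real.exp (-(K * B)) with hE
  set A₁ : ℝ := K * |C₁| + K ^ 2 * |C₂| + 2 * (K * B) ^ 3 * Real.exp (K * B) with hA₁
  set D₁ : ℝ := |κ| * K + |ν| * K ^ 2 with hD₁
  refine ⟨A₁ + (A₁ + D₁) ^ 2 / E, fun p x hx => ?_⟩
  have hp2 : (2 : ℝ) ≤ (p : ℕ) := by exact_mod_cast p.2.two_le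
  have hp0 : (0 : ℝ) < (p : ℕ) := by linarith
  obtain ⟨d0, d1, d2⟩ := de_facts p
  set δ : ℝ := (√((p : ℕ) : ℝ))⁻¹ with hδ
  have hδ1 : δ ≤ 1 := by linarith
  have hx0 := abs_nonneg x
  have hx2 : x ^ 2 ≤ K ^ 2 := by
    rw [← sq_abs x]
    gcongr
  have hs : 2 ≤ ∑ j, e j :=
    (D.he ⟨0, D.hk⟩).trans (Finset.single_le_sum (f := e) (fun i _ => Nat.zero_le _) (Finset.mem_univ _))
  set s := ∑ j, e j with hsd
  set ε : ℝ := (((p : ℕ) : ℝ) ^ s)⁻¹ with hε
  have hε1 : ε ≤ 1 / 2 := by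
    rw [hε, ← one_div]
    apply one_div_le_one_div_of_le (by norm_num)
    calc (2 : ℝ) ≤ (p : ℕ) := hp2
      _ = ((p : ℕ) : ℝ) ^ 1 := (pow_one _).symm
      _ ≤ ((p : ℕ) : ℝ) ^ s := pow_le_pow_right₀ (by linarith) (by omega)
  have hε2 : 0 < 1 - ε := by linarith
  have e3 : ∀ c : ℝ, c / (√((p : ℕ) : ℝ) * (p : ℕ)) = c * δ ^ 3 := by
    intro c
    have : δ ^ 3 = δ * δ ^ 2 := by ring
    rw [this, d2, hδ]
    field_simp
  have e4 : ∀ c : ℝ, c / ((p : ℕ) : ℝ) = c * δ ^ 2 := by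
    intro c
    rw [d2]
    ring
  have hfB : ∀ r, |f p r| ≤ B * δ := fun r => by
    have := hf p r
    rwa [div_eq_mul_inv] at this
  -- the remainder
  set ρ : (Fin k → ZMod p) → ℝ := fun r => Real.exp (x * f p r) - 1 - x * f p r - (x * f p r) ^ 2 / 2 with hρ
  have hρb : ∀ r, |ρ r| ≤ (K * B) ^ 3 * Real.exp (K * B) * δ ^ 3 := by
    intro r
    have a1 : |x * f p r| ≤ K * (B * δ) := by
      rw [abs_mul]
      exact mul_le_mul hx (hfB r) (abs_nonneg _) hK
    have a2 : |x * f p r| ≤ K * B := a1.trans (by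
      have : K * B * δ ≤ K * B * 1 := mul_le_mul_of_nonneg_left hδ1 (by positivity)
      linarith)
    refine (exp_rem _).trans ?_
    calc |x * f p r| ^ 3 * Real.exp |x * f p r| ≤ (K * (B * δ)) ^ 3 * Real.exp (K * B) := by gcongr
      _ = _ := by ring
  have hρE : |Ex s (p : ℕ) ρ| ≤ 2 * (K * B) ^ 3 * Real.exp (K * B) * δ ^ 3 := by
    have a1 : |avg ρ| ≤ (K * B) ^ 3 * Real.exp (K * B) * δ ^ 3 := by
      unfold avg
      rw [abs_div, abs_of_pos (by positivity : (0 : ℝ) < ((p : ℕ) : ℝ) ^ k), div_le_iff₀ (by positivity)]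
      refine (Finset.abs_sum_le_sum_abs _ _).trans ((Finset.sum_le_sum fun r _ => hρb r).trans ?_)
      rw [Finset.sum_const, Finset.card_univ, nsmul_eq_mul, Fintype.card_fun, ZMod.card, Fintype.card_fin]
      push_cast
      exact le_of_eq (by ring)
    unfold Ex
    rw [← hε, abs_div, abs_of_pos hε2, div_le_iff₀ hε2]
    refine a1.trans ?_
    have : 0 ≤ (K * B) ^ 3 * Real.exp (K * B) * δ ^ 3 := by positivity
    nlinarith
  have hlin : Ex s (p : ℕ) (fun r => Real.exp (x * f p r) - 1) =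
      x * Ex s (p : ℕ) (f p) + x ^ 2 / 2 * Ex s (p : ℕ) (fun r => f p r ^ 2) + Ex s (p : ℕ) ρ := by
    have a1 : ∀ r, Real.exp (x * f p r) - 1 = x * f p r + x ^ 2 / 2 * f p r ^ 2 + ρ r := by
      intro r
      rw [hρ]
      ring
    unfold Ex avg
    simp only [a1]
    rw [Finset.sum_add_distrib, Finset.sum_add_distrib, ← Finset.mul_sum, ← Finset.mul_sum]
    ring
  set y : ℝ := Ex s (p : ℕ) (fun r => Real.exp (x * f p r) - 1) with hy
  have b1 := h1 p
  have b2 := h2 p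
  rw [e3, e4] at b1 b2
  have b1' : |Ex s (p : ℕ) (f p) - κ * δ ^ 2| ≤ |C₁| * δ ^ 3 :=
    b1.trans (mul_le_mul_of_nonneg_right (le_abs_self _) (by positivity))
  have b2' : |Ex s (p : ℕ) (fun r => f p r ^ 2) - ν * δ ^ 2| ≤ |C₂| * δ ^ 3 :=
    b2.trans (mul_le_mul_of_nonneg_right (le_abs_self _) (by positivity))
  have c1 : |y - (κ * x + ν / 2 * x ^ 2) * δ ^ 2| ≤ A₁ * δ ^ 3 := by
    have a1 : y - (κ * x + ν / 2 * x ^ 2) * δ ^ 2 = x * (Ex s (p : ℕ) (f p) - κ * δ ^ 2) +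
        x ^ 2 / 2 * (Ex s (p : ℕ) (fun r => f p r ^ 2) - ν * δ ^ 2) + Ex s (p : ℕ) ρ := by
      rw [hlin]
      ring
    rw [a1]
    have a2 : |x * (Ex s (p : ℕ) (f p) - κ * δ ^ 2)| ≤ K * |C₁| * δ ^ 3 := by
      rw [abs_mul, mul_assoc]
      exact mul_le_mul hx b1' (abs_nonneg _) hK
    have a3 : |x ^ 2 / 2 * (Ex s (p : ℕ) (fun r => f p r ^ 2) - ν * δ ^ 2)| ≤ K ^ 2 * |C₂| * δ ^ 3 := by
      rw [abs_mul, mul_assoc, abs_of_nonneg (by positivity : 0 ≤ x ^ 2 / 2)]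
      refine mul_le_mul ?_ b2' (abs_nonneg _) (by positivity)
      linarith [sq_nonneg x]
    have a4 := abs_add_le (x * (Ex s (p : ℕ) (f p) - κ * δ ^ 2) +
        x ^ 2 / 2 * (Ex s (p : ℕ) (fun r => f p r ^ 2) - ν * δ ^ 2)) (Ex s (p : ℕ) ρ)
    have a5 := abs_add_le (x * (Ex s (p : ℕ) (f p) - κ * δ ^ 2))
        (x ^ 2 / 2 * (Ex s (p : ℕ) (fun r => f p r ^ 2) - ν * δ ^ 2))
    rw [hA₁, add_mul, add_mul]
    linarith
  have c2 : |(κ * x + ν / 2 * x ^ 2) * δ ^ 2| ≤ D₁ * δ ^ 2 := by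
    rw [abs_mul, abs_of_pos (by positivity : 0 < δ ^ 2)]
    gcongr
    refine (abs_add_le _ _).trans ?_
    rw [abs_mul, abs_mul, abs_div, abs_of_nonneg (sq_nonneg x), abs_of_pos (by norm_num : (0 : ℝ) < 2)]
    have a1 : |κ| * |x| ≤ |κ| * K := by gcongr
    have a2 : |ν| / 2 * x ^ 2 ≤ |ν| * K ^ 2 := by
      have := abs_nonneg ν
      have a3 : |ν| / 2 ≤ |ν| := by linarith
      exact mul_le_mul a3 hx2 (sq_nonneg x) this
    rw [hD₁]
    linarith
  have hlow : E ≤ 1 + y := phF_low D h0 hB hf p hx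
  have c3 := log_step d0.le hδ1 (Real.exp_pos _) hlow (by positivity) (by positivity) c1 c2
  rw [e3, e4]
  exact c3

end Pool.Agent.X278.AV
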