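import Pool.Agent.X278.AV.Gau2
import Mathlib.MeasureTheory.Measure.LevyConvergence
import Mathlib.MeasureTheory.Measure.Portmanteau
import Mathlib.Probability.Distributions.Gaussian.Real

/-!
# The Gaussian law
-/

set_option autoImplicit false

namespace Pool.Agent.X278.AV

open Finset Filter Topology MeasureTheory ProbabilityTheory
open scoped ENNReal NNReal

variable {ι : Type}

/-- the law of a function on a finite set -/
noncomputable def law (G : Finset ι) (Y : ι → ℝ) : Measure ℝ := ((G.card : ℝ≥0∞)⁻¹) • ∑ i ∈ G, Measure.dirac (Y i)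

open Classical in
theorem law_apply {G : Finset ι} (hG : G.Nonempty) (Y : ι → ℝ) {s : Set ℝ} (hs : MeasurableSet s) :
    law G Y s = ENNReal.ofReal ((G.filter fun i => Y i ∈ s).card / G.card) := by
  have h0 : (0 : ℝ) < G.card := by exact_mod_cast hG.card_pos
  unfold law
  rw [Measure.smul_apply, Measure.finsetSum_apply, smul_eq_mul]
  have h1 : ∑ i ∈ G, Measure.dirac (Y i) s = ((G.filter fun i => Y i ∈ s).card : ℝ≥0∞) := by
    rw [Finset.card_filter]
    push_cast
    refine Finset.sum_congr rfl fun i _ => ?_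
    rw [Measure.dirac_apply' _ hs]
    by_cases h : Y i ∈ s
    · rw [Set.indicator_of_mem h, if_pos h]
      rfl
    · rw [Set.indicator_of_notMem h, if_neg h]
  rw [h1, ENNReal.ofReal_div_of_pos h0, ENNReal.ofReal_natCast, ENNReal.ofReal_natCast, div_eq_mul_inv, mul_comm]

theorem law_prob {G : Finset ι} (hG : G.Nonempty) (Y : ι → ℝ) : IsProbabilityMeasure (law G Y) := by
  classical
  constructor
  rw [law_apply hG Y MeasurableSet.univ]
  have h0 : (0 : ℝ) < G.card := by exact_mod_cast hG.card_pos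
  simp only [Set.mem_univ, Finset.filter_true]
  rw [div_self h0.ne', ENNReal.ofReal_one]

theorem law_charFun {G : Finset ι} (Y : ι → ℝ) (t : ℝ) :
    charFun (law G Y) t = meanC G (fun i => Complex.exp ((t * Complex.I) * (Y i : ℝ))) := by
  rw [charFun_apply_real]
  unfold law meanC
  rw [integral_smul_measure, integral_finsetSum_measure]
  · simp only [integral_dirac]
    rw [ENNReal.toReal_inv, ENNReal.toReal_natCast, div_eq_inv_mul]
    rw [Complex.real_smul]
    push_cast
    congr 1
    refine Finset.sum_congr rfl fun i _ => ?_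
    congr 1
    ring
  · intro i _
    exact integrable_dirac (by simp)

open Classical in
/-- **convergence to the Gaussian law** -/
theorem gauss_of_exp {τ : Type} {𝓕 : Filter τ} {G : τ → Finset ι} {Y : τ → ι → ℝ} {ν : ℝ≥0} (hν : ν ≠ 0)
    (hne : ∀ᶠ n in 𝓕, (G n).Nonempty)
    (h : ∀ ζ : ℂ, Tendsto (fun n => meanC (G n) (fun i => Complex.exp (ζ * (Y n i : ℝ)))) 𝓕
      (𝓝 (Complex.exp (((ν : ℝ) : ℂ) * ζ ^ 2 / 2)))) (v : ℝ) :
    Tendsto (fun n => (((G n).filter fun i => Y n i ≤ v).card : ℝ) / (G n).card) 𝓕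
      (𝓝 ((gaussianReal 0 ν).real (Set.Iic v))) := by
  -- the exponential bound
  set M : ℝ := 2 * (‖Complex.exp (((ν : ℝ) : ℂ) * 1 ^ 2 / 2)‖ + ‖Complex.exp (((ν : ℝ) : ℂ) * (-1) ^ 2 / 2)‖ + 1) with hM
  have hM0 : 0 < M := by positivity
  set good : τ → Prop := fun n => (G n).Nonempty ∧
    (∑ i ∈ G n, (Real.exp (Y n i) + Real.exp (-Y n i))) ≤ M * (G n).card with hgood
  have hreal : ∀ (n : τ) (s : ℝ), (G n).Nonempty →
      ‖meanC (G n) (fun i => Complex.exp ((s : ℂ) * (Y n i : ℝ)))‖ * (G n).card = ∑ i ∈ G n, Real.exp (s * Y n i) := by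
    intro n s hn
    have h0 : (0 : ℝ) < (G n).card := by exact_mod_cast hn.card_pos
    have e1 : meanC (G n) (fun i => Complex.exp ((s : ℂ) * (Y n i : ℝ))) =
        ((((∑ i ∈ G n, Real.exp (s * Y n i)) / (G n).card : ℝ)) : ℂ) := by
      unfold meanC
      push_cast
      rfl
    rw [e1, Complex.norm_real, Real.norm_eq_abs, abs_of_nonneg (by positivity), div_mul_cancel₀ _ h0.ne']
  have hgood' : ∀ᶠ n in 𝓕, good n := by
    have a1 := ((h 1).norm).eventually_le_const (lt_add_one _)
    have a2 := ((h (-1)).norm).eventually_le_const (lt_add_one _)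
    filter_upwards [hne, a1, a2] with n b1 b2 b3
    refine ⟨b1, ?_⟩
    have h0 : (0 : ℝ) < (G n).card := by exact_mod_cast b1.card_pos
    have c1 := hreal n 1 b1
    have c2 := hreal n (-1) b1
    rw [Complex.ofReal_one] at c1
    rw [Complex.ofReal_neg, Complex.ofReal_one] at c2
    rw [Finset.sum_add_distrib]
    have d1 : ∑ i ∈ G n, Real.exp (Y n i) = ∑ i ∈ G n, Real.exp (1 * Y n i) := by simp
    have d2 : ∑ i ∈ G n, Real.exp (-Y n i) = ∑ i ∈ G n, Real.exp (-1 * Y n i) := by simp
    rw [d1, d2, ← c1, ← c2, ← add_mul]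
    apply mul_le_mul_of_nonneg_right _ h0.le
    rw [hM]
    have := norm_nonneg (Complex.exp (((ν : ℝ) : ℂ) * 1 ^ 2 / 2))
    have := norm_nonneg (Complex.exp (((ν : ℝ) : ℂ) * (-1) ^ 2 / 2))
    linarith
  -- the laws
  set μ : τ → ProbabilityMeasure ℝ := fun n =>
    if hn : good n then ⟨law (G n) (Y n), law_prob hn.1 _⟩ else ⟨Measure.dirac 0, inferInstance⟩ with hμ
  have hμg : ∀ n, good n → ((μ n : ProbabilityMeasure ℝ) : Measure ℝ) = law (G n) (Y n) := by
    intro n hn
    rw [hμ]
    simp only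
    rw [dif_pos hn]
    rfl
  have hμb : ∀ n, ¬ good n → ((μ n : ProbabilityMeasure ℝ) : Measure ℝ) = Measure.dirac 0 := by
    intro n hn
    rw [hμ]
    simp only
    rw [dif_neg hn]
    rfl
  have htight : IsTightMeasureSet {((μ n : ProbabilityMeasure ℝ) : Measure ℝ) | n} := by
    rw [isTightMeasureSet_iff_exists_isCompact_measure_compl_le]
    intro ε hε
    have h1 : Tendsto (fun R : ℝ => ENNReal.ofReal (Real.exp (-R) * M)) atTop (𝓝 0) := by
      have h2 : Tendsto (fun R : ℝ => Real.exp (-R) * M) atTop (𝓝 0) := by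
        have := Real.tendsto_exp_neg_atTop_nhds_zero.mul_const M
        rwa [zero_mul] at this
      have := ENNReal.tendsto_ofReal h2
      rwa [ENNReal.ofReal_zero] at this
    obtain ⟨R, hR1, hR0⟩ := ((h1.eventually_le_const hε).and (eventually_ge_atTop (0 : ℝ))).exists
    refine ⟨Set.Icc (-R) R, isCompact_Icc, ?_⟩
    rintro _ ⟨n, rfl⟩
    by_cases hn : good n
    · rw [hμg n hn, law_apply hn.1 _ measurableSet_Icc.compl]
      refine le_trans (ENNReal.ofReal_le_ofReal ?_) hR1
      have h0 : (0 : ℝ) < (G n).card := by exact_mod_cast hn.1.card_pos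
      rw [div_le_iff₀ h0]
      have h3 : ∀ i ∈ (G n).filter (fun i => Y n i ∈ (Set.Icc (-R) R)ᶜ),
          Real.exp R ≤ Real.exp (Y n i) + Real.exp (-Y n i) := by
        intro i hi
        have h4 := (Finset.mem_filter.1 hi).2
        rw [Set.mem_compl_iff, Set.mem_Icc, not_and_or, not_le, not_le] at h4
        rcases h4 with h4 | h4
        · have : Real.exp R ≤ Real.exp (-Y n i) := Real.exp_le_exp.2 (by linarith)
          have := Real.exp_pos (Y n i)
          linarith
        · have : Real.exp R ≤ Real.exp (Y n i) := Real.exp_le_exp.2 (by linarith)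
          have := Real.exp_pos (-Y n i)
          linarith
      have h5 : (((G n).filter (fun i => Y n i ∈ (Set.Icc (-R) R)ᶜ)).card : ℝ) * Real.exp R ≤ M * (G n).card := by
        calc _ = ∑ _i ∈ (G n).filter (fun i => Y n i ∈ (Set.Icc (-R) R)ᶜ), Real.exp R := by
              rw [Finset.sum_const, nsmul_eq_mul]
          _ ≤ ∑ i ∈ (G n).filter (fun i => Y n i ∈ (Set.Icc (-R) R)ᶜ), (Real.exp (Y n i) + Real.exp (-Y n i)) :=
              Finset.sum_le_sum h3
          _ ≤ ∑ i ∈ G n, (Real.exp (Y n i) + Real.exp (-Y n i)) :=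
              Finset.sum_le_sum_of_subset_of_nonneg (Finset.filter_subset _ _) fun i _ _ => by positivity
          _ ≤ _ := hn.2
      have h6 : Real.exp (-R) * Real.exp R = 1 := by rw [← Real.exp_add]; simp
      have h7 := Real.exp_pos (-R)
      have h8 : (((G n).filter (fun i => Y n i ∈ (Set.Icc (-R) R)ᶜ)).card : ℝ) ≤ Real.exp (-R) * M * (G n).card := by
        calc (((G n).filter (fun i => Y n i ∈ (Set.Icc (-R) R)ᶜ)).card : ℝ) =
            Real.exp (-R) * ((((G n).filter (fun i => Y n i ∈ (Set.Icc (-R) R)ᶜ)).card : ℝ) * Real.exp R) := by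
              rw [mul_left_comm, h6, mul_one]
          _ ≤ Real.exp (-R) * (M * (G n).card) := by gcongr
          _ = Real.exp (-R) * M * (G n).card := by ring
      refine le_trans (le_of_eq ?_) h8
      congr!
    · rw [hμb n hn, Measure.dirac_apply' _ measurableSet_Icc.compl, Set.indicator_of_notMem]
      · exact zero_le
      · simp only [Set.mem_compl_iff, Set.mem_Icc, not_not]
        constructor <;> linarith
  set μ₀ : ProbabilityMeasure ℝ := ⟨gaussianReal 0 ν, inferInstance⟩ with hμ₀
  have hchar : ∀ t : ℝ, Tendsto (fun n => charFun ((μ n : ProbabilityMeasure ℝ) : Measure ℝ) t) 𝓕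
      (𝓝 (charFun ((μ₀ : ProbabilityMeasure ℝ) : Measure ℝ) t)) := by
    intro t
    have h1 := h (t * Complex.I)
    have e1 : charFun ((μ₀ : ProbabilityMeasure ℝ) : Measure ℝ) t = Complex.exp (((ν : ℝ) : ℂ) * (t * Complex.I) ^ 2 / 2) := by
      show charFun (gaussianReal 0 ν) t = _
      rw [charFun_gaussianReal]
      congr 1
      rw [mul_pow, Complex.I_sq]
      push_cast
      ring
    rw [e1]
    refine h1.congr' ?_
    filter_upwards [hgood'] with n hn
    rw [hμg n hn, law_charFun]
  have hlim : Tendsto μ 𝓕 (𝓝 μ₀) := by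
    refine ProbabilityMeasure.tendsto_of_tight_of_separatesPoints ℂ htight
      (A := BoundedContinuousFunction.charPoly Real.continuous_probChar (L := innerₗ ℝ) continuous_inner) ?_ ?_
    · refine BoundedContinuousFunction.separatesPoints_charPoly Real.continuous_probChar Real.probChar_ne_one _ ?_
      exact fun v hv => DFunLike.ne_iff.mpr ⟨v, inner_self_ne_zero.mpr hv⟩
    · exact fun g => ProbabilityMeasure.tendsto_charPoly_of_tendsto_charFun hchar
  have hfr : ((μ₀ : ProbabilityMeasure ℝ) : Measure ℝ) (frontier (Set.Iic v)) = 0 := by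
    rw [frontier_Iic]
    show gaussianReal 0 ν {v} = 0
    have := nullSingletonClass_gaussianReal (μ := 0) hν
    exact measure_singleton v
  have h1 := ProbabilityMeasure.tendsto_measure_of_null_frontier_of_tendsto' hlim hfr
  have h2 := (ENNReal.tendsto_toReal (measure_ne_top _ _)).comp h1
  have e2 : (((μ₀ : ProbabilityMeasure ℝ) : Measure ℝ) (Set.Iic v)).toReal = (gaussianReal 0 ν).real (Set.Iic v) := rfl
  rw [e2] at h2
  refine h2.congr' ?_
  filter_upwards [hgood'] with n hn
  simp only [Function.comp_apply]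
  rw [hμg n hn, law_apply hn.1 _ measurableSet_Iic, ENNReal.toReal_ofReal (by positivity)]
  simp only [Set.mem_Iic]

end Pool.Agent.X278.AV
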