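import Pool.Agent.X278.AV.KarG
import Pool.Agent.X278.AV.Gau3

/-!
# Families with independent local functions over a general index set with variable means
-/

set_option autoImplicit false

namespace Pool.Agent.X278.AV

open Finset Filter Topology ProbabilityTheory
open Pool.Agent.X278.OP Pool.Agent.W189.ML
open scoped NNReal

variable {ι P : Type}

/-- a family with independent local functions -/
structure FnG (F : ℕ → Finset ι) (q : P → ℝ) (f : P → ι → ℝ) (E : P → (ℝ → ℂ) → ℂ) (B K C : ℝ) (κv νv : P → ℝ) : Prop where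
  ne : ∀ᶠ X in atTop, (F X).Nonempty
  B0 : 0 ≤ B
  K0 : 0 ≤ K
  C0 : 0 ≤ C
  q2 : ∀ v, 2 ≤ q v
  sum : Summable fun v => 1 / (√(q v) * q v)
  size : ∀ v i, |f v i| ≤ B / √(q v)
  fin : ∀ h : P → ℝ → ℂ, (∀ v, h v 0 = 0) → ∀ I : Finset P,
    Tendsto (fun X => meanC (F X) (fun i => ∏ v ∈ I, h v (f v i))) atTop (𝓝 (∏ v ∈ I, E v (h v)))
  kb : ∀ v, |κv v| ≤ K
  nb : ∀ v, |νv v| ≤ K
  ex1 : ∀ v, ‖E v (fun y => (y : ℂ)) - ((κv v / q v : ℝ) : ℂ)‖ ≤ C / (√(q v) * q v)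
  ex2 : ∀ v, ‖E v (fun y => (y : ℂ) ^ 2) - ((νv v / q v : ℝ) : ℂ)‖ ≤ C / (√(q v) * q v)

variable {F : ℕ → Finset ι} {q : P → ℝ} {f : P → ι → ℝ} {E : P → (ℝ → ℂ) → ℂ} {B K C : ℝ} {κv νv : P → ℝ}

theorem dq_facts {x : ℝ} (hx : 2 ≤ x) : 0 < (√x)⁻¹ ∧ (√x)⁻¹ ≤ 1 ∧ ((√x)⁻¹) ^ 2 = x⁻¹ ∧
    ∀ c : ℝ, c / (√x * x) = c * ((√x)⁻¹) ^ 3 := by
  have hx0 : 0 < x := by linarith
  have h1 : 0 < √x := Real.sqrt_pos.2 hx0
  have h2 : 1 ≤ √x := Real.one_le_sqrt.2 (by linarith)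
  have h3 : ((√x)⁻¹) ^ 2 = x⁻¹ := by rw [inv_pow, Real.sq_sqrt hx0.le]
  refine ⟨by positivity, inv_le_one_of_one_le₀ h2, h3, fun c => ?_⟩
  have : ((√x)⁻¹) ^ 3 = (√x)⁻¹ * ((√x)⁻¹) ^ 2 := by ring
  rw [this, h3]
  field_simp

theorem FnG.wr_sum (D : FnG F q f E B K C κv νv) (γ : ℝ) {T : ℝ} (hT : 0 < T) {A : ℝ} (hA : 0 ≤ A) :
    Summable fun v => A * (√(q v))⁻¹ * |wr γ (Real.log (q v) / T)| := by
  refine Summable.of_nonneg_of_le (fun v => by positivity) (fun v => ?_)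
    (D.sum.mul_left (A * (Real.exp (Real.exp (1 * T)) + 1)))
  have hq := D.q2 v
  have hq0 : 0 < q v := by linarith
  have hu : 0 ≤ Real.log (q v) / T := div_nonneg (Real.log_nonneg (by linarith)) hT.le
  have h1 := wr_le γ hu
  have h2 := om_le (a := 1 * T) (v := Real.log (q v) / T) (by linarith) hu
  have h3 : 1 * T * (Real.log (q v) / T) = Real.log (q v) := by field_simp
  rw [h3, Real.exp_neg, Real.exp_log hq0] at h2
  calc A * (√(q v))⁻¹ * |wr γ (Real.log (q v) / T)| ≤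
      A * (√(q v))⁻¹ * ((Real.exp (Real.exp (1 * T)) + 1) * (q v)⁻¹) := by
        gcongr
        exact h1.trans h2
    _ = _ := by
      field_simp

theorem FnG.one (D : FnG F q f E B K C κv νv) {h : ℝ → ℂ} (h0 : h 0 = 0) (v : P) :
    Tendsto (fun X => meanC (F X) (fun i => h (f v i))) atTop (𝓝 (E v h)) := by
  have := D.fin (fun _ => h) (fun _ => h0) {v}
  simpa using this

theorem FnG.le (D : FnG F q f E B K C κv νv) {h : ℝ → ℂ} (h0 : h 0 = 0) {M : ℝ} (hM : 0 ≤ M) (v : P)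
    (h1 : ∀ y : ℝ, |y| ≤ B / √(q v) → ‖h y‖ ≤ M) : ‖E v h‖ ≤ M :=
  le_of_tendsto (D.one h0 v).norm (Eventually.of_forall fun _ => meanC_le hM fun i _ => h1 _ (D.size v i))

theorem FnG.lin (D : FnG F q f E B K C κv νv) {h g : ℝ → ℂ} (h0 : h 0 = 0) (g0 : g 0 = 0) (a b : ℂ) (v : P) :
    E v (fun y => a * h y + b * g y) = a * E v h + b * E v g := by
  have h1 := D.one (h := fun y => a * h y + b * g y) (by rw [h0, g0]; ring) v
  have h2 := ((D.one h0 v).const_mul a).add ((D.one g0 v).const_mul b)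
  refine tendsto_nhds_unique h1 (h2.congr fun X => ?_)
  unfold meanC
  rw [Finset.sum_add_distrib, ← Finset.mul_sum, ← Finset.mul_sum]
  ring

/-- the smooth sum -/
noncomputable def SmG (q : P → ℝ) (f : P → ι → ℝ) (γ T : ℝ) (i : ι) : ℝ :=
  ∑' v, wr γ (Real.log (q v) / T) * f v i

theorem FnG.summ (D : FnG F q f E B K C κv νv) (γ : ℝ) {T : ℝ} (hT : 0 < T) (i : ι) :
    Summable fun v => |wr γ (Real.log (q v) / T) * f v i| := by
  refine Summable.of_nonneg_of_le (fun _ => abs_nonneg _) (fun v => ?_) (D.wr_sum γ hT D.B0)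
  rw [abs_mul]
  have h4 := D.size v i
  rw [div_eq_mul_inv] at h4
  calc |wr γ (Real.log (q v) / T)| * |f v i| ≤ |wr γ (Real.log (q v) / T)| * (B * (√(q v))⁻¹) := by gcongr
    _ = _ := by ring

/-- the factor at `v` -/
noncomputable def zG (E : P → (ℝ → ℂ) → ℂ) (q : P → ℝ) (γ : ℝ) (η : ℂ) (T : ℝ) (v : P) : ℂ :=
  E v (hx (η * wr γ (Real.log (q v) / T)))

/-- **the exponential mean for fixed `T`** -/
theorem FnG.mean (D : FnG F q f E B K C κv νv) (γ : ℝ) (η : ℂ) {T : ℝ} (hT : 0 < T) :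
    Tendsto (fun X => meanC (F X) (fun i => Complex.exp (η * (SmG q f γ T i : ℝ)))) atTop
      (𝓝 (∏' v, (1 + zG E q γ η T v))) ∧ Summable fun v => ‖zG E q γ η T v‖ := by
  set x : P → ℂ := fun v => η * wr γ (Real.log (q v) / T) with hxd
  have hB := D.B0
  have hup : ∀ v, 0 ≤ Real.log (q v) / T := fun v =>
    div_nonneg (Real.log_nonneg (by have := D.q2 v; linarith)) hT.le
  set K' : ℝ := ‖η‖ * (Real.exp 1 + 1) with hK
  have hK0 : 0 ≤ K' := by positivity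
  have hxK : ∀ v, ‖x v‖ ≤ K' := by
    intro v
    rw [hxd]
    simp only
    rw [norm_mul, Complex.norm_real, Real.norm_eq_abs]
    exact mul_le_mul_of_nonneg_left (wr_bd γ (hup v)) (norm_nonneg η)
  set Bp : P → ℝ := fun v => B * Real.exp (B * K') * (√(q v))⁻¹ * ‖x v‖ with hBp
  have hgB : ∀ v i, ‖hx (x v) (f v i)‖ ≤ Bp v := by
    intro v i
    unfold hx
    refine (cexp_rem1 _).trans ?_
    have h1 := D.size v i
    have hs : (1 : ℝ) ≤ √(q v) := Real.one_le_sqrt.2 (by have := D.q2 v; linarith)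
    have h2 : ‖x v * (f v i : ℝ)‖ ≤ ‖x v‖ * (B / √(q v)) := by
      rw [norm_mul, Complex.norm_real, Real.norm_eq_abs]
      gcongr
    have h3 : ‖x v * (f v i : ℝ)‖ ≤ B * K' := by
      refine h2.trans ?_
      have : B / √(q v) ≤ B := div_le_self hB hs
      calc ‖x v‖ * (B / √(q v)) ≤ K' * B := mul_le_mul (hxK v) this (by positivity) hK0
        _ = _ := by ring
    calc ‖x v * (f v i : ℝ)‖ * Real.exp ‖x v * (f v i : ℝ)‖ ≤ ‖x v‖ * (B / √(q v)) * Real.exp (B * K') := by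
          gcongr
      _ = _ := by rw [hBp]; ring
  have hBs : Summable Bp := by
    refine (D.wr_sum γ hT (A := B * Real.exp (B * K') * ‖η‖) (by positivity)).congr fun v => ?_
    rw [hBp]
    simp only
    rw [hxd]
    simp only
    rw [norm_mul, Complex.norm_real, Real.norm_eq_abs]
    ring
  have I : Ind F (fun v i => hx (x v) (f v i)) Bp (fun v => E v (hx (x v))) :=
    ⟨fun v X i _ => hgB v i, D.fin (fun v => hx (x v)) (fun v => hx_zero _), D.ne⟩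
  have h3 := I.prod hBs
  refine ⟨h3.congr fun X => ?_, Summable.of_nonneg_of_le (fun _ => norm_nonneg _) I.e_le hBs⟩
  unfold meanC
  congr 1
  refine Finset.sum_congr rfl fun i _ => ?_
  have s1 : Summable fun v => ((wr γ (Real.log (q v) / T) * f v i : ℝ) : ℂ) :=
    Complex.ofRealCLM.summable (D.summ γ hT i).of_abs
  have h5 : HasProd (fun v => Complex.exp (η * ((wr γ (Real.log (q v) / T) * f v i : ℝ) : ℂ)))
      (Complex.exp (∑' v, η * ((wr γ (Real.log (q v) / T) * f v i : ℝ) : ℂ))) :=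
    (s1.mul_left η).hasSum.cexp
  have e1 : ∀ v, 1 + hx (x v) (f v i) = Complex.exp (η * ((wr γ (Real.log (q v) / T) * f v i : ℝ) : ℂ)) := by
    intro v
    unfold hx
    rw [hxd]
    push_cast
    rw [mul_assoc]
    ring
  show ∏' v, (1 + hx (x v) (f v i)) = Complex.exp (η * (SmG q f γ T i : ℝ))
  rw [tprod_congr e1, h5.tprod_eq, tsum_mul_left]
  unfold SmG
  rw [Complex.ofReal_tsum]

/-- **the expansion of the local factor** -/
theorem FnG.loc (D : FnG F q f E B K C κv νv) (v : P) {x : ℂ} {t : ℝ} (hx1 : ‖x‖ ≤ t) :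
    ‖E v (hx x) - ((κv v : ℂ) * x + νv v * x ^ 2 / 2) * (((q v)⁻¹ : ℝ) : ℂ)‖ ≤
      (t * C + t ^ 2 * C + (t * B) ^ 3 * Real.exp (t * B)) * ((√(q v))⁻¹) ^ 3 ∧
    ‖((κv v : ℂ) * x + νv v * x ^ 2 / 2) * (((q v)⁻¹ : ℝ) : ℂ)‖ ≤ (K * t + K * t ^ 2) * ((√(q v))⁻¹) ^ 2 := by
  have hB := D.B0
  have hC := D.C0
  obtain ⟨d0, hδ1, d2, e3⟩ := dq_facts (D.q2 v)
  set δ : ℝ := (√(q v))⁻¹ with hδ
  have ht0 : 0 ≤ t := (norm_nonneg x).trans hx1
  have hz : E v (hx x) = x * E v (fun y => (y : ℂ)) + (x ^ 2 / 2 * E v (fun y => (y : ℂ) ^ 2) +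
      E v (fun y : ℝ => Complex.exp (x * y) - 1 - x * y - (x * y) ^ 2 / 2)) := by
    have h1 := D.lin (h := fun y => (y : ℂ) ^ 2)
      (g := fun y : ℝ => Complex.exp (x * y) - 1 - x * y - (x * y) ^ 2 / 2) (by simp) (by simp) (x ^ 2 / 2) 1 v
    have h2 := D.lin (h := fun y => (y : ℂ)) (g := fun y : ℝ => x ^ 2 / 2 * (y : ℂ) ^ 2 +
      1 * (Complex.exp (x * y) - 1 - x * y - (x * y) ^ 2 / 2)) (by simp) (by simp) x 1 v
    rw [h1, one_mul, one_mul] at h2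
    rw [← h2]
    unfold hx
    congr 1
    funext y
    ring
  have hρ : ‖E v (fun y : ℝ => Complex.exp (x * y) - 1 - x * y - (x * y) ^ 2 / 2)‖ ≤
      (t * B) ^ 3 * Real.exp (t * B) * δ ^ 3 := by
    refine D.le (by simp) (by positivity) v fun y hy => ?_
    have h1 : ‖x * (y : ℂ)‖ ≤ t * (B * δ) := by
      rw [norm_mul, Complex.norm_real, Real.norm_eq_abs]
      rw [div_eq_mul_inv] at hy
      exact mul_le_mul hx1 hy (abs_nonneg _) ht0
    have h2 : ‖x * (y : ℂ)‖ ≤ t * B := h1.trans (by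
      calc t * (B * δ) ≤ t * (B * 1) := by gcongr
        _ = t * B := by ring)
    refine (cexp_rem3 _).trans ?_
    calc ‖x * (y : ℂ)‖ ^ 3 * Real.exp ‖x * (y : ℂ)‖ ≤ (t * (B * δ)) ^ 3 * Real.exp (t * B) := by gcongr
      _ = _ := by ring
  have b1 := D.ex1 v
  have b2 := D.ex2 v
  rw [e3, div_eq_mul_inv] at b1 b2
  have h3 : ‖(2 : ℂ)‖ = 2 := by norm_num
  constructor
  · have a1 : E v (hx x) - ((κv v : ℂ) * x + νv v * x ^ 2 / 2) * (((q v)⁻¹ : ℝ) : ℂ) =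
        x * (E v (fun y => (y : ℂ)) - ((κv v * (q v)⁻¹ : ℝ) : ℂ)) +
        (x ^ 2 / 2 * (E v (fun y => (y : ℂ) ^ 2) - ((νv v * (q v)⁻¹ : ℝ) : ℂ)) +
        E v (fun y : ℝ => Complex.exp (x * y) - 1 - x * y - (x * y) ^ 2 / 2)) := by
      rw [hz]
      push_cast
      ring
    rw [a1]
    have a2 : ‖x * (E v (fun y => (y : ℂ)) - ((κv v * (q v)⁻¹ : ℝ) : ℂ))‖ ≤ t * C * δ ^ 3 := by
      rw [norm_mul, mul_assoc]
      exact mul_le_mul hx1 b1 (norm_nonneg _) ht0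
    have a3 : ‖x ^ 2 / 2 * (E v (fun y => (y : ℂ) ^ 2) - ((νv v * (q v)⁻¹ : ℝ) : ℂ))‖ ≤ t ^ 2 * C * δ ^ 3 := by
      rw [norm_mul, mul_assoc]
      refine mul_le_mul ?_ b2 (norm_nonneg _) (by positivity)
      rw [norm_div, norm_pow, h3]
      have h1 : ‖x‖ ^ 2 ≤ t ^ 2 := pow_le_pow_left₀ (norm_nonneg _) hx1 2
      have := sq_nonneg ‖x‖
      linarith
    refine (norm_add_le _ _).trans ((add_le_add a2 ((norm_add_le _ _).trans (add_le_add a3 hρ))).trans (le_of_eq ?_))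
    ring
  · have hκ := D.kb v
    have hν := D.nb v
    have hK := D.K0
    have hx2 : ‖x‖ ^ 2 ≤ t ^ 2 := pow_le_pow_left₀ (norm_nonneg _) hx1 2
    rw [norm_mul, Complex.norm_real, Real.norm_eq_abs, ← d2, abs_of_pos (by positivity : 0 < δ ^ 2)]
    gcongr
    refine (norm_add_le _ _).trans ?_
    rw [norm_mul, norm_div, norm_mul, norm_pow, Complex.norm_real, Complex.norm_real, Real.norm_eq_abs,
      Real.norm_eq_abs, h3]
    have h4 : |κv v| * ‖x‖ ≤ K * t := mul_le_mul hκ hx1 (norm_nonneg _) hK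
    have h5 : |νv v| * ‖x‖ ^ 2 ≤ K * t ^ 2 := mul_le_mul hν hx2 (by positivity) hK
    have h6 : 0 ≤ |νv v| * ‖x‖ ^ 2 := by positivity
    linarith

/-- **the expansion of the logarithm for small exponents** -/
theorem FnG.exp (D : FnG F q f E B K C κv νv) (γ : ℝ) : ∃ t₀ A : ℝ, 0 < t₀ ∧ 0 ≤ A ∧ ∀ (η : ℂ) (T : ℝ), 0 < T → ‖η‖ ≤ t₀ →
    ∀ v, 1 + zG E q γ η T v ≠ 0 ∧
      ‖Complex.log (1 + zG E q γ η T v) - (η * (κv v * (q v)⁻¹ * wr γ (Real.log (q v) / T) : ℝ) +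
        η ^ 2 / 2 * (νv v * (q v)⁻¹ * wr γ (Real.log (q v) / T) ^ 2 : ℝ))‖ ≤
        ‖η‖ * A / (√(q v) * q v) := by
  have hB := D.B0
  have hC := D.C0
  have hK := D.K0
  set W : ℝ := Real.exp 1 + 1 with hW
  have hW0 : 0 < W := by positivity
  set A₁ : ℝ := 2 * C + B ^ 3 * Real.exp B with hA₁
  set D₁ : ℝ := A₁ + 2 * K with hD₁
  refine ⟨min 1 (1 / (2 * (D₁ + 1))) / W, W * (A₁ + D₁ ^ 2), by positivity, by positivity, fun η T hT hη v => ?_⟩
  obtain ⟨d0, hδ1, d2, e3⟩ := dq_facts (D.q2 v)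
  set δ : ℝ := (√(q v))⁻¹ with hδ
  have hu : 0 ≤ Real.log (q v) / T := div_nonneg (Real.log_nonneg (by have := D.q2 v; linarith)) hT.le
  set w : ℝ := wr γ (Real.log (q v) / T) with hw
  set x : ℂ := η * w with hxd
  set t : ℝ := ‖η‖ * W with ht
  have ht0 : 0 ≤ t := by positivity
  have htm : t ≤ min 1 (1 / (2 * (D₁ + 1))) := by
    rw [ht]
    rwa [← le_div_iff₀ hW0]
  have ht1 : t ≤ 1 := htm.trans (min_le_left _ _)
  have hD0 : 0 ≤ D₁ := by positivity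
  have htD : t * D₁ ≤ 1 / 2 := by
    have h1 : t ≤ 1 / (2 * (D₁ + 1)) := htm.trans (min_le_right _ _)
    calc t * D₁ ≤ 1 / (2 * (D₁ + 1)) * D₁ := by gcongr
      _ ≤ 1 / 2 := by
        rw [one_div_mul_eq_div, div_le_div_iff₀ (by positivity) (by norm_num)]
        linarith
  have hx1 : ‖x‖ ≤ t := by
    rw [hxd, norm_mul, Complex.norm_real, Real.norm_eq_abs]
    exact mul_le_mul_of_nonneg_left (wr_bd γ hu) (norm_nonneg η)
  have ht2 : t ^ 2 ≤ t := pow_le_of_le_one ht0 ht1 (by norm_num)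
  have ht3 : t ^ 3 ≤ t := pow_le_of_le_one ht0 ht1 (by norm_num)
  obtain ⟨l1, l2⟩ := D.loc v hx1
  set m : ℂ := ((κv v : ℂ) * x + νv v * x ^ 2 / 2) * (((q v)⁻¹ : ℝ) : ℂ) with hm
  have hzx : zG E q γ η T v = E v (hx x) := rfl
  rw [← hzx] at l1
  have c1 : ‖zG E q γ η T v - m‖ ≤ t * A₁ * δ ^ 3 := by
    refine l1.trans ?_
    have h1 : (t * B) ^ 3 * Real.exp (t * B) ≤ t * (B ^ 3 * Real.exp B) := by
      have h2 : t * B ≤ B := by nlinarith
      calc (t * B) ^ 3 * Real.exp (t * B) ≤ (t * B) ^ 3 * Real.exp B := by gcongr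
        _ = t ^ 3 * (B ^ 3 * Real.exp B) := by ring
        _ ≤ t * (B ^ 3 * Real.exp B) := by gcongr
    have h2 : t ^ 2 * C ≤ t * C := by gcongr
    have h3 : t * C + t ^ 2 * C + (t * B) ^ 3 * Real.exp (t * B) ≤ t * A₁ := by
      rw [hA₁]
      linarith
    gcongr
  have c2 : ‖m‖ ≤ t * (2 * K) * δ ^ 2 := by
    refine l2.trans ?_
    have h1 : K * t + K * t ^ 2 ≤ t * (2 * K) := by
      have : K * t ^ 2 ≤ K * t := by gcongr
      linarith
    gcongr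
  have c3 : ‖zG E q γ η T v‖ ≤ t * D₁ * δ ^ 2 := by
    have a1 : zG E q γ η T v = (zG E q γ η T v - m) + m := by ring
    rw [a1]
    refine (norm_add_le _ _).trans ((add_le_add c1 c2).trans ?_)
    have h1 : t * A₁ * δ ^ 3 ≤ t * A₁ * δ ^ 2 := by
      have : δ ^ 3 ≤ δ ^ 2 := pow_le_pow_of_le_one d0.le hδ1 (by norm_num)
      have h2 : 0 ≤ A₁ := by positivity
      gcongr
    rw [hD₁]
    linarith
  have c4 : ‖zG E q γ η T v‖ ≤ 1 / 2 := by
    refine c3.trans ?_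
    calc t * D₁ * δ ^ 2 ≤ t * D₁ * 1 := by
          gcongr
          exact pow_le_one₀ d0.le hδ1
      _ ≤ 1 / 2 := by linarith
  have c5 : ‖Complex.log (1 + zG E q γ η T v) - zG E q γ η T v‖ ≤ t * D₁ ^ 2 * δ ^ 3 := by
    have h1 := Complex.norm_log_one_add_sub_self_le (z := zG E q γ η T v) (by linarith)
    refine h1.trans ?_
    have h2 : (1 - ‖zG E q γ η T v‖)⁻¹ ≤ 2 := by
      rw [inv_le_comm₀ (by linarith) (by norm_num)]
      linarith
    have h5 : 0 ≤ (1 - ‖zG E q γ η T v‖)⁻¹ := inv_nonneg.2 (by linarith)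
    calc ‖zG E q γ η T v‖ ^ 2 * (1 - ‖zG E q γ η T v‖)⁻¹ / 2 ≤ (t * D₁ * δ ^ 2) ^ 2 * 2 / 2 := by gcongr
      _ = t ^ 2 * D₁ ^ 2 * δ ^ 4 := by ring
      _ ≤ t * D₁ ^ 2 * δ ^ 3 := by
        have h4 : δ ^ 4 ≤ δ ^ 3 := pow_le_pow_of_le_one d0.le hδ1 (by norm_num)
        gcongr
  constructor
  · intro h
    have h1 : zG E q γ η T v = -1 := by linear_combination h
    rw [h1, norm_neg, norm_one] at c4
    linarith
  · have e5 : (η * (κv v * (q v)⁻¹ * w : ℝ) + η ^ 2 / 2 * (νv v * (q v)⁻¹ * w ^ 2 : ℝ) : ℂ) = m := by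
      rw [hm, hxd]
      push_cast
      ring
    rw [e5, e3]
    have e6 : Complex.log (1 + zG E q γ η T v) - m = (Complex.log (1 + zG E q γ η T v) - zG E q γ η T v) +
        (zG E q γ η T v - m) := by ring
    rw [e6]
    refine (norm_add_le _ _).trans ((add_le_add c5 c1).trans (le_of_eq ?_))
    rw [ht]
    ring

end Pool.Agent.X278.AV
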