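import Pool.Agent.X278.AV.FnG

/-!
# The Gaussian law and the moments for general families
-/

set_option autoImplicit false

namespace Pool.Agent.X278.AV

open Finset Filter Topology ProbabilityTheory
open Pool.Agent.X278.OP Pool.Agent.W189.ML
open scoped NNReal

variable {ι P : Type}

/-- the asymptotics of the weighted sums of the means -/
structure As (q κv νv : P → ℝ) (γ κ ν c₁ c₂ : ℝ) : Prop where
  s1 : ∀ T : ℝ, 0 < T → Summable fun v => κv v * (q v)⁻¹ * wr γ (Real.log (q v) / T)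
  l1 : Tendsto (fun T : ℝ => ∑' v, κv v * (q v)⁻¹ * wr γ (Real.log (q v) / T) - κ * Real.log T) atTop (𝓝 c₁)
  s2 : ∀ T : ℝ, 0 < T → Summable fun v => νv v * (q v)⁻¹ * wr γ (Real.log (q v) / T) ^ 2
  l2 : Tendsto (fun T : ℝ => ∑' v, νv v * (q v)⁻¹ * wr γ (Real.log (q v) / T) ^ 2 - ν * Real.log T) atTop (𝓝 c₂)

variable {F : ℕ → Finset ι} {q : P → ℝ} {f : P → ι → ℝ} {E : P → (ℝ → ℂ) → ℂ} {B K C : ℝ} {κv νv : P → ℝ}
  {γ κ ν c₁ c₂ : ℝ}

/-- the limit of the means -/
theorem FnG.asymp (D : FnG F q f E B K C κv νv) (A : As q κv νv γ κ ν c₁ c₂) (ζ : ℂ) :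
    Tendsto (fun T : ℝ => (∏' v, (1 + zG E q γ (ζ / (√(Real.log T) : ℝ)) T v)) *
      Complex.exp (-(κ * (ζ * (√(Real.log T) : ℝ))))) atTop (𝓝 (Complex.exp (ν * ζ ^ 2 / 2))) := by
  obtain ⟨t₀, A₀, ht₀, hA, hexp⟩ := D.exp γ
  set S₁ : ℝ → ℝ := fun T => ∑' v, κv v * (q v)⁻¹ * wr γ (Real.log (q v) / T) with hS₁
  set S₂ : ℝ → ℝ := fun T => ∑' v, νv v * (q v)⁻¹ * wr γ (Real.log (q v) / T) ^ 2 with hS₂
  set l : ℝ → ℝ := fun T => √(Real.log T) with hl
  set η : ℝ → ℂ := fun T => ζ / (l T : ℝ) with hη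
  have hl1 : Tendsto l atTop atTop := Real.tendsto_sqrt_atTop.comp Real.tendsto_log_atTop
  have hη0 : Tendsto (fun T => ‖η T‖) atTop (𝓝 0) := by
    have h1 : Tendsto (fun T => ‖ζ‖ / l T) atTop (𝓝 0) := tendsto_const_nhds.div_atTop hl1
    refine h1.congr' ?_
    filter_upwards [hl1.eventually_gt_atTop 0] with T hT
    rw [hη]
    simp only
    rw [norm_div, Complex.norm_real, Real.norm_eq_abs, abs_of_pos hT]
  have hηc : Tendsto η atTop (𝓝 0) := tendsto_zero_iff_norm_tendsto_zero.2 hη0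
  set S₃ : ℝ := ∑' v, 1 / (√(q v) * q v) with hS₃
  set G : ℝ → ℂ := fun T => η T * ((S₁ T - κ * Real.log T : ℝ) : ℂ) +
    (1 / 2 * (η T * η T) * ((S₂ T - ν * Real.log T : ℝ) : ℂ) + ν * ζ ^ 2 / 2) with hG
  have hGlim : Tendsto G atTop (𝓝 (ν * ζ ^ 2 / 2)) := by
    have a1 := hηc.mul ((Complex.continuous_ofReal.tendsto _).comp A.l1)
    have a2 := ((hηc.mul hηc).const_mul ((1 : ℂ) / 2)).mul ((Complex.continuous_ofReal.tendsto _).comp A.l2)
    have a3 := a1.add (a2.add_const (ν * ζ ^ 2 / 2))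
    have e0 : (0 : ℂ) * ((c₁ : ℝ) : ℂ) + ((1 : ℂ) / 2 * (0 * 0) * ((c₂ : ℝ) : ℂ) + ν * ζ ^ 2 / 2) = ν * ζ ^ 2 / 2 := by
      ring
    rw [e0] at a3
    exact a3
  set R : ℝ → ℂ := fun T => ∑' v, (Complex.log (1 + zG E q γ (η T) T v) -
    (η T * (κv v * (q v)⁻¹ * wr γ (Real.log (q v) / T) : ℝ) +
        η T ^ 2 / 2 * (νv v * (q v)⁻¹ * wr γ (Real.log (q v) / T) ^ 2 : ℝ))) with hR
  have hRs : ∀ T : ℝ, Summable fun v => ‖η T‖ * A₀ / (√(q v) * q v) := fun T =>
    (D.sum.mul_left (‖η T‖ * A₀)).congr fun v => by ring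
  have hRlim : Tendsto R atTop (𝓝 0) := by
    have h1 : Tendsto (fun T => ‖η T‖ * A₀ * S₃) atTop (𝓝 0) := by
      have := (hη0.mul_const A₀).mul_const S₃
      simpa using this
    refine squeeze_zero_norm' ?_ h1
    filter_upwards [eventually_gt_atTop (0 : ℝ), hη0.eventually_le_const ht₀] with T hT hT2
    rw [hR]
    simp only
    have h3 := tsum_of_norm_bounded (hRs T).hasSum fun v => (hexp (η T) T hT hT2 v).2
    refine h3.trans (le_of_eq ?_)
    rw [hS₃, ← tsum_mul_left]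
    refine tsum_congr fun v => ?_
    ring
  have hmain : ∀ᶠ T : ℝ in atTop, (∏' v, (1 + zG E q γ (η T) T v)) *
      Complex.exp (-(κ * (ζ * (l T : ℝ)))) = Complex.exp (G T + R T) := by
    filter_upwards [eventually_gt_atTop (1 : ℝ), hη0.eventually_le_const ht₀] with T hT1 hT2
    have hT : 0 < T := by linarith
    have hlog : 0 < Real.log T := Real.log_pos hT1
    have hl0 : 0 < l T := Real.sqrt_pos.2 hlog
    have hl2 : l T * l T = Real.log T := Real.mul_self_sqrt hlog.le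
    have t1 : Summable fun v => (η T * (κv v * (q v)⁻¹ * wr γ (Real.log (q v) / T) : ℝ) : ℂ) :=
      (Complex.ofRealCLM.summable (A.s1 T hT)).mul_left _
    have t2 : Summable fun v => (η T ^ 2 / 2 * (νv v * (q v)⁻¹ * wr γ (Real.log (q v) / T) ^ 2 : ℝ) : ℂ) :=
      (Complex.ofRealCLM.summable (A.s2 T hT)).mul_left _
    have t3 : Summable fun v => (Complex.log (1 + zG E q γ (η T) T v) -
        (η T * (κv v * (q v)⁻¹ * wr γ (Real.log (q v) / T) : ℝ) +
        η T ^ 2 / 2 * (νv v * (q v)⁻¹ * wr γ (Real.log (q v) / T) ^ 2 : ℝ))) :=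
      Summable.of_norm_bounded (hRs T) fun v => (hexp (η T) T hT hT2 v).2
    have t4 : Summable fun v => Complex.log (1 + zG E q γ (η T) T v) := by
      refine ((t1.add t2).add t3).congr fun v => ?_
      ring
    have e1 : ∑' v, Complex.log (1 + zG E q γ (η T) T v) =
        η T * (S₁ T : ℂ) + η T ^ 2 / 2 * (S₂ T : ℂ) + R T := by
      have a1 : ∀ v, Complex.log (1 + zG E q γ (η T) T v) =
          (η T * (κv v * (q v)⁻¹ * wr γ (Real.log (q v) / T) : ℝ) +
          η T ^ 2 / 2 * (νv v * (q v)⁻¹ * wr γ (Real.log (q v) / T) ^ 2 : ℝ)) +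
          (Complex.log (1 + zG E q γ (η T) T v) -
          (η T * (κv v * (q v)⁻¹ * wr γ (Real.log (q v) / T) : ℝ) +
          η T ^ 2 / 2 * (νv v * (q v)⁻¹ * wr γ (Real.log (q v) / T) ^ 2 : ℝ))) := fun v => by ring
      rw [tsum_congr a1, (t1.add t2).tsum_add t3, t1.tsum_add t2, tsum_mul_left, tsum_mul_left,
        ← Complex.ofReal_tsum, ← Complex.ofReal_tsum]
    rw [← Complex.cexp_tsum_eq_tprod (fun v => (hexp (η T) T hT hT2 v).1) t4, e1, ← Complex.exp_add]
    congr 1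
    have hlc : ((l T : ℝ) : ℂ) * (l T : ℝ) = (Real.log T : ℂ) := by
      rw [← Complex.ofReal_mul, hl2]
    have hlne : ((l T : ℝ) : ℂ) ≠ 0 := by exact_mod_cast hl0.ne'
    have e2 : η T * (Real.log T : ℂ) = ζ * (l T : ℝ) := by
      rw [hη]
      simp only
      rw [← hlc]
      field_simp
    have e3 : η T * η T * (Real.log T : ℂ) = ζ ^ 2 := by
      rw [hη]
      simp only
      rw [← hlc]
      field_simp
    rw [hG]
    simp only
    push_cast
    linear_combination (-(κ : ℂ)) * (-e2) + (-(ν : ℂ) / 2) * (-e3)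
  have h1 := (Complex.continuous_exp.tendsto _).comp (hGlim.add hRlim)
  rw [add_zero] at h1
  refine h1.congr' ?_
  filter_upwards [hmain] with T hT
  exact hT.symm

/-- the normalized sum -/
noncomputable def YG (q : P → ℝ) (f : P → ι → ℝ) (γ κ : ℝ) (n : ℝ × ℕ) (i : ι) : ℝ :=
  (SmG q f γ n.1 i - κ * Real.log n.1) / √(Real.log n.1)

/-- **the exponential means along the iterated filter** -/
theorem FnG.curry (D : FnG F q f E B K C κv νv) (A : As q κv νv γ κ ν c₁ c₂) (ζ : ℂ) :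
    Tendsto (fun n : ℝ × ℕ => meanC (F n.2) (fun i => Complex.exp (ζ * (YG q f γ κ n i : ℝ))))
      ((atTop : Filter ℝ).curry (atTop : Filter ℕ)) (𝓝 (Complex.exp (ν * ζ ^ 2 / 2))) := by
  rw [Metric.tendsto_nhds]
  intro ε hε
  rw [Filter.eventually_curry_iff]
  have h1 := (Metric.tendsto_nhds.1 (D.asymp A ζ)) (ε / 2) (by positivity)
  filter_upwards [h1, eventually_gt_atTop (1 : ℝ)] with T hT1 hT2
  have hT : 0 < T := by linarith
  have hlog : 0 < Real.log T := Real.log_pos hT2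
  have hl0 : 0 < √(Real.log T) := Real.sqrt_pos.2 hlog
  have h2 := (D.mean γ (ζ / (√(Real.log T) : ℝ)) hT).1.mul_const (Complex.exp (-(κ * (ζ * (√(Real.log T) : ℝ)))))
  filter_upwards [(Metric.tendsto_nhds.1 h2) (ε / 2) (by positivity)] with X hX
  have e1 : meanC (F X) (fun i => Complex.exp (ζ * (YG q f γ κ (T, X) i : ℝ))) =
      meanC (F X) (fun i => Complex.exp (ζ / (√(Real.log T) : ℝ) * (SmG q f γ T i : ℝ))) *
        Complex.exp (-(κ * (ζ * (√(Real.log T) : ℝ)))) := by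
    unfold meanC
    rw [div_mul_eq_mul_div, Finset.sum_mul]
    congr 1
    refine Finset.sum_congr rfl fun i _ => ?_
    show Complex.exp (ζ * (((SmG q f γ T i - κ * Real.log T) / √(Real.log T) : ℝ) : ℂ)) =
      Complex.exp (ζ / (√(Real.log T) : ℝ) * (SmG q f γ T i : ℝ)) * Complex.exp (-(κ * (ζ * (√(Real.log T) : ℝ))))
    rw [← Complex.exp_add]
    congr 1
    have hlc : ((√(Real.log T) : ℝ) : ℂ) * (√(Real.log T) : ℝ) = (Real.log T : ℂ) := by
      rw [← Complex.ofReal_mul, Real.mul_self_sqrt hlog.le]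
    have hlne : ((√(Real.log T) : ℝ) : ℂ) ≠ 0 := by exact_mod_cast hl0.ne'
    rw [Complex.ofReal_div, Complex.ofReal_sub, Complex.ofReal_mul, ← hlc]
    field_simp
    ring
  rw [e1]
  calc dist _ _ ≤ dist _ _ + dist _ _ := dist_triangle _ _ _
    _ < ε / 2 + ε / 2 := add_lt_add hX hT1
    _ = ε := by ring

open Classical in
/-- **the Gaussian law** -/
theorem FnG.gauss {ν : ℝ≥0} (D : FnG F q f E B K C κv νv) (A : As q κv νv γ κ ν c₁ c₂) (hν : ν ≠ 0) (v ε : ℝ) (hε : 0 < ε) :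
    ∀ᶠ T : ℝ in atTop, ∀ᶠ X : ℕ in atTop,
      |(((F X).filter fun i => (SmG q f γ T i - κ * Real.log T) / √(Real.log T) ≤ v).card : ℝ) / (F X).card -
        (gaussianReal 0 ν).real (Set.Iic v)| < ε := by
  have h1 := gauss_of_exp (𝓕 := (atTop : Filter ℝ).curry (atTop : Filter ℕ)) (G := fun n => F n.2)
    (Y := fun n => YG q f γ κ n) hν (by
      rw [Filter.eventually_curry_iff]
      exact Eventually.of_forall fun _ => D.ne) (fun ζ => D.curry A ζ) v
  have h2 := (Metric.tendsto_nhds.1 h1) ε hε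
  rw [Filter.eventually_curry_iff] at h2
  filter_upwards [h2] with T hT
  filter_upwards [hT] with X hX
  rw [Real.dist_eq] at hX
  exact hX

/-! ### real moments -/

/-- the local mean of the power `x` -/
noncomputable def phG (E : P → (ℝ → ℂ) → ℂ) (v : P) (x : ℝ) : ℝ := (1 + E v (hx x)).re

theorem FnG.real (D : FnG F q f E B K C κv νv) (v : P) (x : ℝ) : (1 : ℂ) + E v (hx x) = ((phG E v x : ℝ) : ℂ) := by
  have h1 := D.one (h := hx x) (hx_zero _) v
  have h2 := (Complex.continuous_im.tendsto _).comp h1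
  have h3 : ∀ X, (meanC (F X) (fun i => hx x (f v i))).im = 0 := by
    intro X
    have e1 : meanC (F X) (fun i => hx x (f v i)) = ((AV.mean (F X) (fun i => Real.exp (x * f v i) - 1) : ℝ) : ℂ) := by
      unfold meanC AV.mean hx
      push_cast
      rfl
    rw [e1, Complex.ofReal_im]
  have h4 : (E v (hx x)).im = 0 := by
    refine tendsto_nhds_unique h2 (tendsto_const_nhds.congr fun X => ?_)
    exact (h3 X).symm
  apply Complex.ext
  · unfold phG
    rw [Complex.ofReal_re]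
  · rw [Complex.ofReal_im, Complex.add_im, Complex.one_im, h4, add_zero]

theorem FnG.low (D : FnG F q f E B K C κv νv) (v : P) {x X₀ : ℝ} (hx0 : |x| ≤ X₀) : Real.exp (-(X₀ * B)) ≤ phG E v x := by
  have hB := D.B0
  have hX : 0 ≤ X₀ := (abs_nonneg x).trans hx0
  have h1 := (Complex.continuous_re.tendsto _).comp ((D.one (h := hx x) (hx_zero _) v).const_add 1)
  refine ge_of_tendsto h1 ?_
  filter_upwards [D.ne] with X hX1
  have hc : (0 : ℝ) < (F X).card := by exact_mod_cast hX1.card_pos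
  have e1 : (1 : ℂ) + meanC (F X) (fun i => hx x (f v i)) = ((AV.mean (F X) (fun i => Real.exp (x * f v i)) : ℝ) : ℂ) := by
    unfold meanC AV.mean hx
    rw [Finset.sum_sub_distrib, Finset.sum_const, nsmul_eq_mul, mul_one, sub_div,
      div_self (by exact_mod_cast hc.ne')]
    push_cast
    ring
  simp only [Function.comp_apply]
  rw [e1, Complex.ofReal_re]
  unfold AV.mean
  rw [le_div_iff₀ hc]
  calc Real.exp (-(X₀ * B)) * (F X).card = ∑ _i ∈ F X, Real.exp (-(X₀ * B)) := by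
        rw [Finset.sum_const, nsmul_eq_mul, mul_comm]
    _ ≤ _ := Finset.sum_le_sum fun i _ => by
        apply Real.exp_le_exp.2
        have h4 : |x * f v i| ≤ X₀ * B := by
          rw [abs_mul]
          have h5 := D.size v i
          have hs1 : (1 : ℝ) ≤ √(q v) := Real.one_le_sqrt.2 (by have := D.q2 v; linarith)
          have h6 : B / √(q v) ≤ B := div_le_self hB hs1
          exact mul_le_mul hx0 (h5.trans h6) (abs_nonneg _) hX
        exact neg_le_of_abs_le h4

theorem FnG.pos (D : FnG F q f E B K C κv νv) (v : P) (x : ℝ) : 0 < phG E v x :=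
  (Real.exp_pos _).trans_le (D.low v le_rfl)

theorem FnG.cont (D : FnG F q f E B K C κv νv) (v : P) : Continuous (phG E v) := by
  have hB := D.B0
  rw [continuous_iff_continuousAt]
  intro x
  unfold ContinuousAt
  rw [tendsto_iff_norm_sub_tendsto_zero]
  have h1 : Tendsto (fun x' : ℝ => Real.exp (|x| * B) * (|x' - x| * B * Real.exp (|x' - x| * B))) (𝓝 x) (𝓝 0) := by
    have h2 : Continuous fun x' : ℝ => Real.exp (|x| * B) * (|x' - x| * B * Real.exp (|x' - x| * B)) := by fun_prop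
    have h3 := h2.tendsto x
    simpa using h3
  refine squeeze_zero (fun _ => norm_nonneg _) (fun x' => ?_) h1
  have e1 : phG E v x' - phG E v x = (E v (fun y => 1 * hx x' y + (-1) * hx x y)).re := by
    rw [D.lin (hx_zero _) (hx_zero _)]
    unfold phG
    simp only [Complex.add_re, Complex.one_re, one_mul, neg_mul, Complex.neg_re]
    ring
  rw [e1, Real.norm_eq_abs]
  refine (Complex.abs_re_le_norm _).trans ?_
  refine D.le (by simp [hx_zero]) (by positivity) v fun y hy => ?_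
  have hs1 : (1 : ℝ) ≤ √(q v) := Real.one_le_sqrt.2 (by have := D.q2 v; linarith)
  have hyB : |y| ≤ B := hy.trans (div_le_self hB hs1)
  have e2 : 1 * hx x' y + (-1) * hx x y = Complex.exp (x * y) * (Complex.exp (((x' - x : ℝ) : ℂ) * y) - 1) := by
    have h7 : Complex.exp ((x : ℂ) * y) * Complex.exp (((x' - x : ℝ) : ℂ) * y) = Complex.exp ((x' : ℂ) * y) := by
      rw [← Complex.exp_add]
      congr 1
      push_cast
      ring
    unfold hx
    linear_combination -h7
  rw [e2, norm_mul]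
  have n1 : ‖Complex.exp ((x : ℂ) * y)‖ ≤ Real.exp (|x| * B) := by
    rw [← Complex.ofReal_mul, Complex.norm_exp_ofReal]
    apply Real.exp_le_exp.2
    refine (le_abs_self _).trans ?_
    rw [abs_mul]
    gcongr
  have n2 : ‖Complex.exp (((x' - x : ℝ) : ℂ) * y) - 1‖ ≤ |x' - x| * B * Real.exp (|x' - x| * B) := by
    refine (cexp_rem1 _).trans ?_
    rw [norm_mul, Complex.norm_real, Complex.norm_real, Real.norm_eq_abs, Real.norm_eq_abs]
    gcongr
  gcongr

/-- the expansion of the logarithm -/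
theorem FnG.logexp (D : FnG F q f E B K C κv νv) (X₀ : ℝ) : ∃ C' : ℝ, ∀ (v : P) (x : ℝ), |x| ≤ X₀ →
    |Real.log (phG E v x) - (κv v * x + νv v * x ^ 2 / 2) * (q v)⁻¹| ≤ C' / (√(q v) * q v) := by
  have hB := D.B0
  have hC := D.C0
  have hK := D.K0
  rcases lt_or_ge X₀ 0 with h0 | h0
  · exact ⟨0, fun v x hx => absurd ((abs_nonneg x).trans hx) (not_le.2 h0)⟩
  set L : ℝ := Real.exp (-(X₀ * B)) with hL
  set C₁ : ℝ := X₀ * C + X₀ ^ 2 * C + (X₀ * B) ^ 3 * Real.exp (X₀ * B) with hC₁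
  set D₁ : ℝ := K * X₀ + K * X₀ ^ 2 with hD₁
  refine ⟨C₁ + (C₁ + D₁) ^ 2 / L, fun v x hxx => ?_⟩
  obtain ⟨d0, hδ1, d2, e3⟩ := dq_facts (D.q2 v)
  have hn : ‖(x : ℂ)‖ ≤ X₀ := by rwa [Complex.norm_real, Real.norm_eq_abs]
  obtain ⟨l1, l2⟩ := D.loc v hn
  have hy : phG E v x = 1 + (phG E v x - 1) := by ring
  have hEr : E v (hx x) = ((phG E v x - 1 : ℝ) : ℂ) := by
    have := D.real v x
    push_cast
    rw [← this]
    ring
  have hm : ((κv v : ℂ) * x + νv v * (x : ℂ) ^ 2 / 2) * (((q v)⁻¹ : ℝ) : ℂ) =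
      (((κv v * x + νv v * x ^ 2 / 2) * (q v)⁻¹ : ℝ) : ℂ) := by push_cast; ring
  rw [hm] at l1 l2
  rw [hEr, ← Complex.ofReal_sub, Complex.norm_real, Real.norm_eq_abs] at l1
  rw [Complex.norm_real, Real.norm_eq_abs] at l2
  have hlow : L ≤ 1 + (phG E v x - 1) := by
    rw [← hy]
    exact D.low v hxx
  have h3 := log_step d0.le hδ1 (Real.exp_pos _) hlow (by positivity) (by positivity) l1 l2
  rw [← hy] at h3
  rw [e3]
  exact h3

/-- **the moments** -/
theorem FnG.moments (D : FnG F q f E B K C κv νv) (A : As q κv νv γ κ ν c₁ c₂) (k : ℝ) :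
    (∀ T : ℝ, 0 < T → Tendsto (fun X : ℕ => AV.mean (F X) (fun i => Real.exp (k * SmG q f γ T i))) atTop
      (𝓝 (∏' v, phG E v (k * wr γ (Real.log (q v) / T))))) ∧
    (Summable fun v => Real.log (phG E v k) - (κv v * k + νv v * k ^ 2 / 2) * (q v)⁻¹) ∧
    Tendsto (fun T : ℝ => (∏' v, phG E v (k * wr γ (Real.log (q v) / T))) / T ^ (κ * k + ν * k ^ 2 / 2)) atTop
      (𝓝 (Real.exp (∑' v, (Real.log (phG E v k) - (κv v * k + νv v * k ^ 2 / 2) * (q v)⁻¹)) *
        Real.exp c₁ ^ k * Real.exp (c₂ / 2) ^ (k ^ 2))) := by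
  have hup : ∀ (T : ℝ), 0 < T → ∀ v, 0 ≤ Real.log (q v) / T := fun T hT v =>
    div_nonneg (Real.log_nonneg (by have := D.q2 v; linarith)) hT.le
  constructor
  · intro T hT
    obtain ⟨h1, h2⟩ := D.mean γ (k : ℂ) hT
    have e1 : ∀ v, (1 : ℂ) + zG E q γ (k : ℂ) T v = ((phG E v (k * wr γ (Real.log (q v) / T)) : ℝ) : ℂ) := by
      intro v
      unfold zG
      rw [← Complex.ofReal_mul]
      exact D.real v _
    have hm : Multipliable fun v => phG E v (k * wr γ (Real.log (q v) / T)) := by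
      have h6 : Summable fun v => (phG E v (k * wr γ (Real.log (q v) / T)) - 1) := by
        refine Summable.of_norm (h2.congr fun v => ?_)
        have h8 : zG E q γ (k : ℂ) T v = ((phG E v (k * wr γ (Real.log (q v) / T)) - 1 : ℝ) : ℂ) := by
          rw [Complex.ofReal_sub, ← e1 v]
          push_cast
          ring
        rw [h8, Complex.norm_real]
      refine (Real.multipliable_one_add_of_summable h6).congr fun v => ?_
      ring
    have e3 : ∏' v, ((1 : ℂ) + zG E q γ (k : ℂ) T v) =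
        ((∏' v, phG E v (k * wr γ (Real.log (q v) / T)) : ℝ) : ℂ) := by
      rw [tprod_congr e1]
      exact (hm.hasProd.map (Complex.ofRealHom : ℝ →+* ℂ).toMonoidHom Complex.continuous_ofReal).tprod_eq
    rw [e3] at h1
    have h4 := (Complex.continuous_re.tendsto _).comp h1
    rw [Complex.ofReal_re] at h4
    refine h4.congr fun X => ?_
    simp only [Function.comp_apply]
    unfold meanC AV.mean
    rw [Complex.div_natCast_re, Complex.re_sum]
    congr 1
    refine Finset.sum_congr rfl fun i _ => ?_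
    rw [← Complex.ofReal_mul, Complex.exp_ofReal_re]
  obtain ⟨C', hC'⟩ := D.logexp (|k| * (Real.exp 1 + 1))
  have hkw : ∀ (T : ℝ), 0 < T → ∀ v, |k * wr γ (Real.log (q v) / T)| ≤ |k| * (Real.exp 1 + 1) := by
    intro T hT v
    rw [abs_mul]
    gcongr
    exact wr_bd γ (hup T hT v)
  have hkk : |k| ≤ |k| * (Real.exp 1 + 1) := by
    have : (0 : ℝ) ≤ |k| := abs_nonneg k
    nlinarith [Real.exp_pos 1]
  have hsC : Summable fun v => C' / (√(q v) * q v) := (D.sum.mul_left C').congr fun v => by ring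
  set ρ : ℝ → P → ℝ := fun T v => Real.log (phG E v (k * wr γ (Real.log (q v) / T))) -
    (κv v * (k * wr γ (Real.log (q v) / T)) + νv v * (k * wr γ (Real.log (q v) / T)) ^ 2 / 2) * (q v)⁻¹ with hρ
  set ρ₀ : P → ℝ := fun v => Real.log (phG E v k) - (κv v * k + νv v * k ^ 2 / 2) * (q v)⁻¹ with hρ₀
  have hρs : ∀ T : ℝ, 0 < T → Summable (ρ T) := fun T hT =>
    Summable.of_norm_bounded hsC fun v => by
      rw [Real.norm_eq_abs]
      exact hC' v _ (hkw T hT v)
  have hρ₀s : Summable ρ₀ := Summable.of_norm_bounded hsC fun v => by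
    rw [Real.norm_eq_abs]
    exact hC' v _ hkk
  have hρlim : Tendsto (fun T => ∑' v, ρ T v) atTop (𝓝 (∑' v, ρ₀ v)) := by
    refine tendsto_tsum_of_dominated_convergence hsC (fun v => ?_) ?_
    · have h1 : Tendsto (fun T : ℝ => Real.log (q v) / T) atTop (𝓝 0) := tendsto_const_nhds.div_atTop tendsto_id
      have h2 : Tendsto (fun T : ℝ => wr γ (Real.log (q v) / T)) atTop (𝓝 1) := by
        have h3 := ((wr_diff γ le_rfl).continuousAt.tendsto.comp h1)
        rw [wr_zero] at h3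
        exact h3
      have h3 := h2.const_mul k
      rw [mul_one] at h3
      have h4 := ((D.cont v).tendsto k).comp h3
      have h5 := h4.log (D.pos v k).ne'
      exact h5.sub ((((h3.const_mul (κv v)).add (((h3.pow 2).const_mul (νv v)).div_const 2))).mul_const _)
    · filter_upwards [eventually_gt_atTop (0 : ℝ)] with T hT v
      rw [Real.norm_eq_abs]
      exact hC' v _ (hkw T hT v)
  have hlogs : ∀ T : ℝ, 0 < T → Summable (fun v => Real.log (phG E v (k * wr γ (Real.log (q v) / T)))) ∧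
      ∑' v, Real.log (phG E v (k * wr γ (Real.log (q v) / T))) =
        k * ∑' v, κv v * (q v)⁻¹ * wr γ (Real.log (q v) / T) +
        k ^ 2 / 2 * ∑' v, νv v * (q v)⁻¹ * wr γ (Real.log (q v) / T) ^ 2 + ∑' v, ρ T v := by
    intro T hT
    have e1 : ∀ v, Real.log (phG E v (k * wr γ (Real.log (q v) / T))) =
        k * (κv v * (q v)⁻¹ * wr γ (Real.log (q v) / T)) +
        k ^ 2 / 2 * (νv v * (q v)⁻¹ * wr γ (Real.log (q v) / T) ^ 2) + ρ T v := by
      intro v
      rw [hρ]
      simp only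
      ring
    have t1 := (A.s1 T hT).mul_left k
    have t2 := (A.s2 T hT).mul_left (k ^ 2 / 2)
    constructor
    · exact ((t1.add t2).add (hρs T hT)).congr fun v => (e1 v).symm
    · rw [tsum_congr e1, (t1.add t2).tsum_add (hρs T hT), t1.tsum_add t2, tsum_mul_left, tsum_mul_left]
  have hlogM : ∀ T : ℝ, 0 < T → ∏' v, phG E v (k * wr γ (Real.log (q v) / T)) =
      Real.exp (∑' v, Real.log (phG E v (k * wr γ (Real.log (q v) / T)))) := fun T hT =>
    (Real.rexp_tsum_eq_tprod (fun v => D.pos v _) (hlogs T hT).1).symm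
  refine ⟨hρ₀s, ?_⟩
  have hmain : Tendsto (fun T : ℝ => (∑' v, Real.log (phG E v (k * wr γ (Real.log (q v) / T)))) -
      (κ * k + ν * k ^ 2 / 2) * Real.log T) atTop (𝓝 (k * c₁ + k ^ 2 / 2 * c₂ + ∑' v, ρ₀ v)) := by
    refine (((A.l1.const_mul k).add (A.l2.const_mul (k ^ 2 / 2))).add hρlim).congr' ?_
    filter_upwards [eventually_gt_atTop (0 : ℝ)] with T hT
    rw [(hlogs T hT).2]
    ring
  have h5 := (Real.continuous_exp.tendsto _).comp hmain
  have e5 : Real.exp (k * c₁ + k ^ 2 / 2 * c₂ + ∑' v, ρ₀ v) =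
      Real.exp (∑' v, ρ₀ v) * Real.exp c₁ ^ k * Real.exp (c₂ / 2) ^ (k ^ 2) := by
    rw [← Real.exp_mul, ← Real.exp_mul, ← Real.exp_add, ← Real.exp_add]
    congr 1
    ring
  rw [e5] at h5
  refine h5.congr' ?_
  filter_upwards [eventually_gt_atTop (0 : ℝ)] with T hT
  simp only [Function.comp_apply]
  rw [Real.exp_sub, ← hlogM T hT, Real.rpow_def_of_pos hT, mul_comm (Real.log T)]

end Pool.Agent.X278.AV
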