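import Pool.Agent.X278.AV.FnG2

/-!
# The Gaussian law with a general centering
-/

set_option autoImplicit false

namespace Pool.Agent.X278.AV

open Finset Filter Topology ProbabilityTheory
open Pool.Agent.X278.OP Pool.Agent.W189.ML
open scoped NNReal

variable {ι P : Type}

/-- the centering -/
noncomputable def cen (q κv : P → ℝ) (γ T : ℝ) : ℝ := ∑' v, κv v * (q v)⁻¹ * wr γ (Real.log (q v) / T)

/-- the asymptotics of the weighted sum of the second moments -/
structure As2 (q κv νv : P → ℝ) (γ ν : ℝ) : Prop where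
  s1 : ∀ T : ℝ, 0 < T → Summable fun v => κv v * (q v)⁻¹ * wr γ (Real.log (q v) / T)
  s2 : ∀ T : ℝ, 0 < T → Summable fun v => νv v * (q v)⁻¹ * wr γ (Real.log (q v) / T) ^ 2
  l2 : Tendsto (fun T : ℝ => (∑' v, νv v * (q v)⁻¹ * wr γ (Real.log (q v) / T) ^ 2) / Real.log T) atTop (𝓝 ν)

variable {F : ℕ → Finset ι} {q : P → ℝ} {f : P → ι → ℝ} {E : P → (ℝ → ℂ) → ℂ} {B K C : ℝ} {κv νv : P → ℝ}
  {γ ν : ℝ}

/-- the limit of the means -/
theorem FnG.asymp2 (D : FnG F q f E B K C κv νv) (A : As2 q κv νv γ ν) (ζ : ℂ) :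
    Tendsto (fun T : ℝ => (∏' v, (1 + zG E q γ (ζ / (√(Real.log T) : ℝ)) T v)) *
      Complex.exp (-(ζ / (√(Real.log T) : ℝ) * (cen q κv γ T : ℝ)))) atTop (𝓝 (Complex.exp (ν * ζ ^ 2 / 2))) := by
  obtain ⟨t₀, A₀, ht₀, hA, hexp⟩ := D.exp γ
  set S₂ : ℝ → ℝ := fun T => ∑' v, νv v * (q v)⁻¹ * wr γ (Real.log (q v) / T) ^ 2 with hS₂
  set l : ℝ → ℝ := fun T => √(Real.log T) with hl
  set η : ℝ → ℂ := fun T => ζ / (l T : ℝ) with hη
  have hl1 : Tendsto l atTop atTop := Real.tendsto_sqrt_atTop.comp Real.tendsto_log_atTop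
  have hη0 : Tendsto (fun T => ‖η T‖) atTop (𝓝 0) := by
    have h1 : Tendsto (fun T => ‖ζ‖ / l T) atTop (𝓝 0) := tendsto_const_nhds.div_atTop hl1
    refine h1.congr' ?_
    filter_upwards [hl1.eventually_gt_atTop 0] with T hT
    rw [hη]
    simp only
    rw [norm_div, Complex.norm_real, Real.norm_eq_abs, abs_of_pos hT]
  set S₃ : ℝ := ∑' v, 1 / (√(q v) * q v) with hS₃
  set G : ℝ → ℂ := fun T => ζ ^ 2 / 2 * ((S₂ T / Real.log T : ℝ) : ℂ) with hG
  have hGlim : Tendsto G atTop (𝓝 (ν * ζ ^ 2 / 2)) := by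
    have a2 := ((Complex.continuous_ofReal.tendsto _).comp A.l2).const_mul (ζ ^ 2 / 2)
    have e0 : ζ ^ 2 / 2 * ((ν : ℝ) : ℂ) = ν * ζ ^ 2 / 2 := by ring
    rw [e0] at a2
    exact a2
  set R : ℝ → ℂ := fun T => ∑' v, (Complex.log (1 + zG E q γ (η T) T v) -
    (η T * (κv v * (q v)⁻¹ * wr γ (Real.log (q v) / T) : ℝ) +
        η T ^ 2 / 2 * (νv v * (q v)⁻¹ * wr γ (Real.log (q v) / T) ^ 2 : ℝ))) with hR
  have hRs : ∀ T : ℝ, Summable fun v => ‖η T‖ * A₀ / (√(q v) * q v) := fun T =>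
    (D.sum.mul_left (‖η T‖ * A₀)).congr fun v => by ring
  have hRlim : Tendsto R atTop (𝓝 0) := by
    have h1 : Tendsto (fun T => ‖η T‖ * A₀ * S₃) atTop (𝓝 0) := by
      have := (hη0.mul_const A₀).mul_const S₃
      simpa using this
    refine squeeze_zero_norm' ?_ h1
    filter_upwards [eventually_gt_atTop (0 : ℝ), hη0.eventually_le_const ht₀] with T hT hT2
    rw [hR]
    simp only
    have h3 := tsum_of_norm_bounded (hRs T).hasSum fun v => (hexp (η T) T hT hT2 v).2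
    refine h3.trans (le_of_eq ?_)
    rw [hS₃, ← tsum_mul_left]
    refine tsum_congr fun v => ?_
    ring
  have hmain : ∀ᶠ T : ℝ in atTop, (∏' v, (1 + zG E q γ (η T) T v)) *
      Complex.exp (-(η T * (cen q κv γ T : ℝ))) = Complex.exp (G T + R T) := by
    filter_upwards [eventually_gt_atTop (1 : ℝ), hη0.eventually_le_const ht₀] with T hT1 hT2
    have hT : 0 < T := by linarith
    have hlog : 0 < Real.log T := Real.log_pos hT1
    have hl0 : 0 < l T := Real.sqrt_pos.2 hlog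
    have hl2 : l T * l T = Real.log T := Real.mul_self_sqrt hlog.le
    have t1 : Summable fun v => (η T * (κv v * (q v)⁻¹ * wr γ (Real.log (q v) / T) : ℝ) : ℂ) :=
      (Complex.ofRealCLM.summable (A.s1 T hT)).mul_left _
    have t2 : Summable fun v => (η T ^ 2 / 2 * (νv v * (q v)⁻¹ * wr γ (Real.log (q v) / T) ^ 2 : ℝ) : ℂ) :=
      (Complex.ofRealCLM.summable (A.s2 T hT)).mul_left _
    have t3 : Summable fun v => (Complex.log (1 + zG E q γ (η T) T v) -
        (η T * (κv v * (q v)⁻¹ * wr γ (Real.log (q v) / T) : ℝ) +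
        η T ^ 2 / 2 * (νv v * (q v)⁻¹ * wr γ (Real.log (q v) / T) ^ 2 : ℝ))) :=
      Summable.of_norm_bounded (hRs T) fun v => (hexp (η T) T hT hT2 v).2
    have t4 : Summable fun v => Complex.log (1 + zG E q γ (η T) T v) := by
      refine ((t1.add t2).add t3).congr fun v => ?_
      ring
    have e1 : ∑' v, Complex.log (1 + zG E q γ (η T) T v) =
        η T * (cen q κv γ T : ℂ) + η T ^ 2 / 2 * (S₂ T : ℂ) + R T := by
      have a1 : ∀ v, Complex.log (1 + zG E q γ (η T) T v) =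
          (η T * (κv v * (q v)⁻¹ * wr γ (Real.log (q v) / T) : ℝ) +
          η T ^ 2 / 2 * (νv v * (q v)⁻¹ * wr γ (Real.log (q v) / T) ^ 2 : ℝ)) +
          (Complex.log (1 + zG E q γ (η T) T v) -
          (η T * (κv v * (q v)⁻¹ * wr γ (Real.log (q v) / T) : ℝ) +
          η T ^ 2 / 2 * (νv v * (q v)⁻¹ * wr γ (Real.log (q v) / T) ^ 2 : ℝ))) := fun v => by ring
      unfold cen
      rw [tsum_congr a1, (t1.add t2).tsum_add t3, t1.tsum_add t2, tsum_mul_left, tsum_mul_left,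
        ← Complex.ofReal_tsum, ← Complex.ofReal_tsum]
    rw [← Complex.cexp_tsum_eq_tprod (fun v => (hexp (η T) T hT hT2 v).1) t4, e1, ← Complex.exp_add]
    congr 1
    have hlc : ((l T : ℝ) : ℂ) * (l T : ℝ) = (Real.log T : ℂ) := by
      rw [← Complex.ofReal_mul, hl2]
    have hlne : ((l T : ℝ) : ℂ) ≠ 0 := by exact_mod_cast hl0.ne'
    have e3 : η T ^ 2 * (Real.log T : ℂ) = ζ ^ 2 := by
      rw [hη]
      simp only
      rw [← hlc]
      field_simp
    have hLne : (Real.log T : ℂ) ≠ 0 := by exact_mod_cast hlog.ne'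
    rw [hG]
    simp only
    rw [Complex.ofReal_div, ← e3]
    field_simp
    ring
  have h1 := (Complex.continuous_exp.tendsto _).comp (hGlim.add hRlim)
  rw [add_zero] at h1
  refine h1.congr' ?_
  filter_upwards [hmain] with T hT
  exact hT.symm

/-- the normalized sum -/
noncomputable def YG2 (q : P → ℝ) (f : P → ι → ℝ) (κv : P → ℝ) (γ : ℝ) (n : ℝ × ℕ) (i : ι) : ℝ :=
  (SmG q f γ n.1 i - cen q κv γ n.1) / √(Real.log n.1)

/-- **the exponential means along the iterated filter** -/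
theorem FnG.curry2 (D : FnG F q f E B K C κv νv) (A : As2 q κv νv γ ν) (ζ : ℂ) :
    Tendsto (fun n : ℝ × ℕ => meanC (F n.2) (fun i => Complex.exp (ζ * (YG2 q f κv γ n i : ℝ))))
      ((atTop : Filter ℝ).curry (atTop : Filter ℕ)) (𝓝 (Complex.exp (ν * ζ ^ 2 / 2))) := by
  rw [Metric.tendsto_nhds]
  intro ε hε
  rw [Filter.eventually_curry_iff]
  have h1 := (Metric.tendsto_nhds.1 (D.asymp2 A ζ)) (ε / 2) (by positivity)
  filter_upwards [h1, eventually_gt_atTop (1 : ℝ)] with T hT1 hT2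
  have hT : 0 < T := by linarith
  have hlog : 0 < Real.log T := Real.log_pos hT2
  have hl0 : 0 < √(Real.log T) := Real.sqrt_pos.2 hlog
  have h2 := (D.mean γ (ζ / (√(Real.log T) : ℝ)) hT).1.mul_const
    (Complex.exp (-(ζ / (√(Real.log T) : ℝ) * (cen q κv γ T : ℝ))))
  filter_upwards [(Metric.tendsto_nhds.1 h2) (ε / 2) (by positivity)] with X hX
  have e1 : meanC (F X) (fun i => Complex.exp (ζ * (YG2 q f κv γ (T, X) i : ℝ))) =
      meanC (F X) (fun i => Complex.exp (ζ / (√(Real.log T) : ℝ) * (SmG q f γ T i : ℝ))) *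
        Complex.exp (-(ζ / (√(Real.log T) : ℝ) * (cen q κv γ T : ℝ))) := by
    unfold meanC
    rw [div_mul_eq_mul_div, Finset.sum_mul]
    congr 1
    refine Finset.sum_congr rfl fun i _ => ?_
    show Complex.exp (ζ * (((SmG q f γ T i - cen q κv γ T) / √(Real.log T) : ℝ) : ℂ)) =
      Complex.exp (ζ / (√(Real.log T) : ℝ) * (SmG q f γ T i : ℝ)) *
        Complex.exp (-(ζ / (√(Real.log T) : ℝ) * (cen q κv γ T : ℝ)))
    rw [← Complex.exp_add]
    congr 1
    have hlne : ((√(Real.log T) : ℝ) : ℂ) ≠ 0 := by exact_mod_cast hl0.ne'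
    rw [Complex.ofReal_div, Complex.ofReal_sub]
    field_simp
    ring
  rw [e1]
  calc dist _ _ ≤ dist _ _ + dist _ _ := dist_triangle _ _ _
    _ < ε / 2 + ε / 2 := add_lt_add hX hT1
    _ = ε := by ring

open Classical in
/-- **the Gaussian law** -/
theorem FnG.gauss2 {ν : ℝ≥0} (D : FnG F q f E B K C κv νv) (A : As2 q κv νv γ ν) (hν : ν ≠ 0) (v ε : ℝ) (hε : 0 < ε) :
    ∀ᶠ T : ℝ in atTop, ∀ᶠ X : ℕ in atTop,
      |(((F X).filter fun i => (SmG q f γ T i - cen q κv γ T) / √(Real.log T) ≤ v).card : ℝ) / (F X).card -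
        (gaussianReal 0 ν).real (Set.Iic v)| < ε := by
  have h1 := gauss_of_exp (𝓕 := (atTop : Filter ℝ).curry (atTop : Filter ℕ)) (G := fun n => F n.2)
    (Y := fun n => YG2 q f κv γ n) hν (by
      rw [Filter.eventually_curry_iff]
      exact Eventually.of_forall fun _ => D.ne) (fun ζ => D.curry2 A ζ) v
  have h2 := (Metric.tendsto_nhds.1 h1) ε hε
  rw [Filter.eventually_curry_iff] at h2
  filter_upwards [h2] with T hT
  filter_upwards [hT] with X hX
  rw [Real.dist_eq] at hX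
  exact hX

end Pool.Agent.X278.AV
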