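import Pool.Agent.X278.AV.FamM

/-!
# Exponential means of smooth sums over families with independent local functions
-/

set_option autoImplicit false

namespace Pool.Agent.X278.AV

open Finset Filter Topology
open Pool.Agent.X278.OP Pool.Agent.W189.ML

variable {ι : Type}

/-- a family with independent local functions -/
structure Fn (F : ℕ → Finset ι) (f : Nat.Primes → ι → ℝ) (E : Nat.Primes → (ℝ → ℂ) → ℂ) (B κ ν C : ℝ) : Prop where
  ne : ∀ᶠ X in atTop, (F X).Nonempty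
  B0 : 0 ≤ B
  size : ∀ p i, |f p i| ≤ B / √((p : ℕ) : ℝ)
  fin : ∀ h : Nat.Primes → ℝ → ℂ, (∀ p, h p 0 = 0) → ∀ I : Finset Nat.Primes,
    Tendsto (fun X => meanC (F X) (fun i => ∏ p ∈ I, h p (f p i))) atTop (𝓝 (∏ p ∈ I, E p (h p)))
  ex1 : ∀ p : Nat.Primes, ‖E p (fun y => (y : ℂ)) - κ / (p : ℕ)‖ ≤ C / (√((p : ℕ) : ℝ) * (p : ℕ))
  ex2 : ∀ p : Nat.Primes, ‖E p (fun y => (y : ℂ) ^ 2) - ν / (p : ℕ)‖ ≤ C / (√((p : ℕ) : ℝ) * (p : ℕ))

variable {F : ℕ → Finset ι} {f : Nat.Primes → ι → ℝ} {E : Nat.Primes → (ℝ → ℂ) → ℂ} {B κ ν C : ℝ}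

theorem Fn.one (D : Fn F f E B κ ν C) {h : ℝ → ℂ} (h0 : h 0 = 0) (p : Nat.Primes) :
    Tendsto (fun X => meanC (F X) (fun i => h (f p i))) atTop (𝓝 (E p h)) := by
  have := D.fin (fun _ => h) (fun _ => h0) {p}
  simpa using this

theorem Fn.le (D : Fn F f E B κ ν C) {h : ℝ → ℂ} (h0 : h 0 = 0) {M : ℝ} (hM : 0 ≤ M) (p : Nat.Primes)
    (h1 : ∀ y : ℝ, |y| ≤ B / √((p : ℕ) : ℝ) → ‖h y‖ ≤ M) : ‖E p h‖ ≤ M :=
  le_of_tendsto (D.one h0 p).norm (Eventually.of_forall fun _ => meanC_le hM fun i _ => h1 _ (D.size p i))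

theorem Fn.lin (D : Fn F f E B κ ν C) {h g : ℝ → ℂ} (h0 : h 0 = 0) (g0 : g 0 = 0) (a b : ℂ) (p : Nat.Primes) :
    E p (fun y => a * h y + b * g y) = a * E p h + b * E p g := by
  have h1 := D.one (h := fun y => a * h y + b * g y) (by rw [h0, g0]; ring) p
  have h2 := ((D.one h0 p).const_mul a).add ((D.one g0 p).const_mul b)
  refine tendsto_nhds_unique h1 (h2.congr fun X => ?_)
  unfold meanC
  rw [Finset.sum_add_distrib, ← Finset.mul_sum, ← Finset.mul_sum]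
  ring

/-- the smooth sum -/
noncomputable def Sm (f : Nat.Primes → ι → ℝ) (γ T : ℝ) (i : ι) : ℝ :=
  ∑' p : Nat.Primes, wr γ (Real.log (p : ℕ) / T) * f p i

theorem Fn.sum (D : Fn F f E B κ ν C) (γ : ℝ) {T : ℝ} (hT : 0 < T) (i : ι) :
    Summable fun p : Nat.Primes => |wr γ (Real.log (p : ℕ) / T) * f p i| := by
  refine Summable.of_nonneg_of_le (fun _ => abs_nonneg _) (fun p => ?_) (wt_sum (γ := γ) hT (B := B) D.B0)
  have hu : 0 ≤ Real.log (p : ℕ) / T := div_nonneg (Real.log_nonneg (by exact_mod_cast p.2.one_le)) hT.le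
  rw [abs_mul, norm_Wt γ hu, mul_comm]
  have h1 := wr_le γ hu
  have h3 := om_nonneg hu
  have h4 := D.size p i
  have hB := D.B0
  have h5 : 0 ≤ B / √((p : ℕ) : ℝ) := by positivity
  gcongr

/-- the local function of the exponential -/
noncomputable def hx (x : ℂ) (y : ℝ) : ℂ := Complex.exp (x * y) - 1

theorem hx_zero (x : ℂ) : hx x 0 = 0 := by
  unfold hx
  simp

theorem cexp_rem1 (z : ℂ) : ‖Complex.exp z - 1‖ ≤ ‖z‖ * Real.exp ‖z‖ := by
  have h := Complex.norm_exp_sub_sum_le_norm_mul_exp z 1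
  simpa using h

theorem cexp_rem3 (z : ℂ) : ‖Complex.exp z - 1 - z - z ^ 2 / 2‖ ≤ ‖z‖ ^ 3 * Real.exp ‖z‖ := by
  have h := Complex.norm_exp_sub_sum_le_norm_mul_exp z 3
  have e1 : Complex.exp z - ∑ m ∈ range 3, z ^ m / (m.factorial : ℂ) = Complex.exp z - 1 - z - z ^ 2 / 2 := by
    simp only [Finset.sum_range_succ, Finset.sum_range_zero, Nat.factorial]
    push_cast
    ring
  rwa [e1] at h

/-- the factor at `p` -/
noncomputable def zp (E : Nat.Primes → (ℝ → ℂ) → ℂ) (γ : ℝ) (η : ℂ) (T : ℝ) (p : Nat.Primes) : ℂ :=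
  E p (hx (η * wr γ (Real.log (p : ℕ) / T)))

/-- **the exponential mean for fixed `T`** -/
theorem Fn.mean (D : Fn F f E B κ ν C) (γ : ℝ) (η : ℂ) {T : ℝ} (hT : 0 < T) :
    Tendsto (fun X => meanC (F X) (fun i => Complex.exp (η * (Sm f γ T i : ℝ)))) atTop
      (𝓝 (∏' p : Nat.Primes, (1 + zp E γ η T p))) := by
  set x : Nat.Primes → ℂ := fun p => η * wr γ (Real.log (p : ℕ) / T) with hxd
  have hB := D.B0
  have hup : ∀ p : Nat.Primes, 0 ≤ Real.log (p : ℕ) / T := fun p =>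
    div_nonneg (Real.log_nonneg (by exact_mod_cast p.2.one_le)) hT.le
  set K : ℝ := ‖η‖ * (Real.exp 1 + 1) with hK
  have hK0 : 0 ≤ K := by positivity
  have hxK : ∀ p, ‖x p‖ ≤ K := by
    intro p
    rw [hxd]
    simp only
    rw [norm_mul, Complex.norm_real, Real.norm_eq_abs]
    exact mul_le_mul_of_nonneg_left (wr_bd γ (hup p)) (norm_nonneg η)
  set Bp : Nat.Primes → ℝ := fun p => B * Real.exp (B * K) * (√((p : ℕ) : ℝ))⁻¹ * ‖x p‖ with hBp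
  have hgB : ∀ (p : Nat.Primes) i, ‖hx (x p) (f p i)‖ ≤ Bp p := by
    intro p i
    unfold hx
    refine (cexp_rem1 _).trans ?_
    have h1 := D.size p i
    have hs : (1 : ℝ) ≤ √((p : ℕ) : ℝ) := Real.one_le_sqrt.2 (by exact_mod_cast p.2.one_le)
    have h2 : ‖x p * (f p i : ℝ)‖ ≤ ‖x p‖ * (B / √((p : ℕ) : ℝ)) := by
      rw [norm_mul, Complex.norm_real, Real.norm_eq_abs]
      gcongr
    have h3 : ‖x p * (f p i : ℝ)‖ ≤ B * K := by
      refine h2.trans ?_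
      have : B / √((p : ℕ) : ℝ) ≤ B := div_le_self hB hs
      calc ‖x p‖ * (B / √((p : ℕ) : ℝ)) ≤ K * B := mul_le_mul (hxK p) this (by positivity) hK0
        _ = _ := by ring
    calc ‖x p * (f p i : ℝ)‖ * Real.exp ‖x p * (f p i : ℝ)‖ ≤ ‖x p‖ * (B / √((p : ℕ) : ℝ)) * Real.exp (B * K) := by
          gcongr
      _ = _ := by rw [hBp]; ring
  have hBs : Summable Bp := by
    refine Summable.of_nonneg_of_le (fun p => by positivity) (fun p => ?_)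
      (wt_sum (γ := γ) hT (B := B * Real.exp (B * K) * ‖η‖) (by positivity))
    rw [norm_Wt γ (hup p)]
    have h1 := wr_le γ (hup p)
    rw [hBp]
    simp only
    rw [hxd]
    simp only
    rw [norm_mul, Complex.norm_real, Real.norm_eq_abs]
    calc _ ≤ B * Real.exp (B * K) * (√((p : ℕ) : ℝ))⁻¹ * (‖η‖ * om (Real.log (p : ℕ) / T)) := by gcongr
      _ = _ := by rw [div_eq_mul_inv]; ring
  have I : Ind F (fun p i => hx (x p) (f p i)) Bp (fun p => E p (hx (x p))) :=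
    ⟨fun p X i _ => hgB p i, D.fin (fun p => hx (x p)) (fun p => hx_zero _), D.ne⟩
  have h3 := I.prod hBs
  refine h3.congr fun X => ?_
  unfold meanC
  congr 1
  refine Finset.sum_congr rfl fun i _ => ?_
  have s1 : Summable fun p : Nat.Primes => ((wr γ (Real.log (p : ℕ) / T) * f p i : ℝ) : ℂ) :=
    Complex.ofRealCLM.summable (D.sum γ hT i).of_abs
  have h5 : HasProd (fun p : Nat.Primes => Complex.exp (η * ((wr γ (Real.log (p : ℕ) / T) * f p i : ℝ) : ℂ)))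
      (Complex.exp (∑' p : Nat.Primes, η * ((wr γ (Real.log (p : ℕ) / T) * f p i : ℝ) : ℂ))) :=
    (s1.mul_left η).hasSum.cexp
  have e1 : ∀ p : Nat.Primes, 1 + hx (x p) (f p i) = Complex.exp (η * ((wr γ (Real.log (p : ℕ) / T) * f p i : ℝ) : ℂ)) := by
    intro p
    unfold hx
    rw [hxd]
    push_cast
    rw [mul_assoc]
    ring
  show ∏' p : Nat.Primes, (1 + hx (x p) (f p i)) = Complex.exp (η * (Sm f γ T i : ℝ))
  rw [tprod_congr e1, h5.tprod_eq, tsum_mul_left]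
  unfold Sm
  rw [Complex.ofReal_tsum]

/-- **the expansion of the factors** -/
theorem Fn.exp (D : Fn F f E B κ ν C) (γ : ℝ) : ∃ t₀ A : ℝ, 0 < t₀ ∧ 0 ≤ A ∧ ∀ (η : ℂ) (T : ℝ), 0 < T → ‖η‖ ≤ t₀ →
    ∀ p : Nat.Primes, 1 + zp E γ η T p ≠ 0 ∧
      ‖Complex.log (1 + zp E γ η T p) - (κ * η * ((((p : ℕ) : ℝ))⁻¹ * wr γ (Real.log (p : ℕ) / T) : ℝ) +
        ν * η ^ 2 / 2 * ((((p : ℕ) : ℝ))⁻¹ * wr γ (Real.log (p : ℕ) / T) ^ 2 : ℝ))‖ ≤
        ‖η‖ * A / (√((p : ℕ) : ℝ) * (p : ℕ)) := by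
  have hB := D.B0
  have hC : 0 ≤ C := by
    have h1 := (norm_nonneg _).trans (D.ex1 ⟨2, Nat.prime_two⟩)
    by_contra h
    push Not at h
    have : C / (√(((⟨2, Nat.prime_two⟩ : Nat.Primes) : ℕ) : ℝ) * ((⟨2, Nat.prime_two⟩ : Nat.Primes) : ℕ)) < 0 := by
      apply div_neg_of_neg_of_pos h
      have : (0 : ℝ) < ((⟨2, Nat.prime_two⟩ : Nat.Primes) : ℕ) := by exact_mod_cast Nat.prime_two.pos
      positivity
    linarith
  set W : ℝ := Real.exp 1 + 1 with hW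
  have hW0 : 0 < W := by positivity
  set A₁ : ℝ := 2 * C + B ^ 3 * Real.exp B with hA₁
  set D₁ : ℝ := A₁ + |κ| + |ν| with hD₁
  refine ⟨min 1 (1 / (2 * (D₁ + 1))) / W, W * (A₁ + D₁ ^ 2), by positivity, by positivity, fun η T hT hη p => ?_⟩
  have hp0 : (0 : ℝ) < (p : ℕ) := by exact_mod_cast p.2.pos
  obtain ⟨d0, d1, d2⟩ := de_facts p
  set δ : ℝ := (√((p : ℕ) : ℝ))⁻¹ with hδ
  have hδ1 : δ ≤ 1 := by linarith
  have hu : 0 ≤ Real.log (p : ℕ) / T := div_nonneg (Real.log_nonneg (by exact_mod_cast p.2.one_le)) hT.le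
  set w : ℝ := wr γ (Real.log (p : ℕ) / T) with hw
  set x : ℂ := η * w with hxd
  set t : ℝ := ‖η‖ * W with ht
  have ht0 : 0 ≤ t := by positivity
  have htm : t ≤ min 1 (1 / (2 * (D₁ + 1))) := by
    rw [ht]
    rwa [← le_div_iff₀ hW0]
  have ht1 : t ≤ 1 := htm.trans (min_le_left _ _)
  have htD : t * D₁ ≤ 1 / 2 := by
    have h1 : t ≤ 1 / (2 * (D₁ + 1)) := htm.trans (min_le_right _ _)
    have hD0 : 0 ≤ D₁ := by positivity
    calc t * D₁ ≤ 1 / (2 * (D₁ + 1)) * D₁ := by gcongr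
      _ ≤ 1 / 2 := by
        rw [one_div_mul_eq_div, div_le_div_iff₀ (by positivity) (by norm_num)]
        linarith
  have hx1 : ‖x‖ ≤ t := by
    rw [hxd, norm_mul, Complex.norm_real, Real.norm_eq_abs]
    exact mul_le_mul_of_nonneg_left (wr_bd γ hu) (norm_nonneg η)
  have e3 : ∀ c : ℝ, c / (√((p : ℕ) : ℝ) * (p : ℕ)) = c * δ ^ 3 := by
    intro c
    have : δ ^ 3 = δ * δ ^ 2 := by ring
    rw [this, d2, hδ]
    field_simp
  -- the expansion of E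
  have hz : zp E γ η T p = x * E p (fun y => (y : ℂ)) + (x ^ 2 / 2 * E p (fun y => (y : ℂ) ^ 2) +
      E p (fun y : ℝ => Complex.exp (x * y) - 1 - x * y - (x * y) ^ 2 / 2)) := by
    have h1 := D.lin (h := fun y => (y : ℂ) ^ 2)
      (g := fun y : ℝ => Complex.exp (x * y) - 1 - x * y - (x * y) ^ 2 / 2) (by simp) (by simp) (x ^ 2 / 2) 1 p
    have h2 := D.lin (h := fun y => (y : ℂ)) (g := fun y : ℝ => x ^ 2 / 2 * (y : ℂ) ^ 2 +
      1 * (Complex.exp (x * y) - 1 - x * y - (x * y) ^ 2 / 2)) (by simp) (by simp) x 1 p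
    rw [h1, one_mul, one_mul] at h2
    rw [← h2]
    unfold zp hx
    congr 1
    funext y
    ring
  have hρ : ‖E p (fun y : ℝ => Complex.exp (x * y) - 1 - x * y - (x * y) ^ 2 / 2)‖ ≤ t * (B ^ 3 * Real.exp B) * δ ^ 3 := by
    refine D.le (by simp) (by positivity) p fun y hy => ?_
    have h1 : ‖x * (y : ℂ)‖ ≤ t * (B * δ) := by
      rw [norm_mul, Complex.norm_real, Real.norm_eq_abs]
      rw [div_eq_mul_inv] at hy
      exact mul_le_mul hx1 hy (abs_nonneg _) ht0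
    have h2 : ‖x * (y : ℂ)‖ ≤ B := h1.trans (by
      calc t * (B * δ) ≤ 1 * (B * 1) := by gcongr
        _ = B := by ring)
    refine (cexp_rem3 _).trans ?_
    calc ‖x * (y : ℂ)‖ ^ 3 * Real.exp ‖x * (y : ℂ)‖ ≤ (t * (B * δ)) ^ 3 * Real.exp B := by gcongr
      _ = t ^ 3 * (B ^ 3 * Real.exp B * δ ^ 3) := by ring
      _ ≤ t * (B ^ 3 * Real.exp B * δ ^ 3) := by
        gcongr
        exact pow_le_of_le_one ht0 ht1 (by norm_num)
      _ = _ := by ring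
  have b1 := D.ex1 p
  have b2 := D.ex2 p
  rw [e3] at b1 b2
  set m : ℂ := κ * x * ((δ ^ 2 : ℝ) : ℂ) + ν * x ^ 2 / 2 * ((δ ^ 2 : ℝ) : ℂ) with hm
  have hpc : (((p : ℕ) : ℂ))⁻¹ = ((δ ^ 2 : ℝ) : ℂ) := by
    rw [d2]
    push_cast
    rw [one_div]
  have c1 : ‖zp E γ η T p - m‖ ≤ t * A₁ * δ ^ 3 := by
    have a1 : zp E γ η T p - m = x * (E p (fun y => (y : ℂ)) - κ / (p : ℕ)) +
        (x ^ 2 / 2 * (E p (fun y => (y : ℂ) ^ 2) - ν / (p : ℕ)) +
        E p (fun y : ℝ => Complex.exp (x * y) - 1 - x * y - (x * y) ^ 2 / 2)) := by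
      have k1 : (κ : ℂ) / ((p : ℕ) : ℂ) = κ * ((δ ^ 2 : ℝ) : ℂ) := by rw [div_eq_mul_inv, hpc]
      have k2 : (ν : ℂ) / ((p : ℕ) : ℂ) = ν * ((δ ^ 2 : ℝ) : ℂ) := by rw [div_eq_mul_inv, hpc]
      rw [hz, hm, k1, k2]
      ring
    rw [a1]
    have a2 : ‖x * (E p (fun y => (y : ℂ)) - κ / (p : ℕ))‖ ≤ t * C * δ ^ 3 := by
      rw [norm_mul, mul_assoc]
      exact mul_le_mul hx1 b1 (norm_nonneg _) ht0
    have a3 : ‖x ^ 2 / 2 * (E p (fun y => (y : ℂ) ^ 2) - ν / (p : ℕ))‖ ≤ t * C * δ ^ 3 := by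
      rw [norm_mul, mul_assoc]
      refine mul_le_mul ?_ b2 (norm_nonneg _) ht0
      rw [norm_div, norm_pow]
      have h1 : ‖x‖ ^ 2 ≤ t ^ 2 := pow_le_pow_left₀ (norm_nonneg _) hx1 2
      have h2 : t ^ 2 ≤ t := pow_le_of_le_one ht0 ht1 (by norm_num)
      have h3 : ‖(2 : ℂ)‖ = 2 := by norm_num
      rw [h3]
      have := norm_nonneg x
      linarith
    refine (norm_add_le _ _).trans ((add_le_add a2 ((norm_add_le _ _).trans (add_le_add a3 hρ))).trans (le_of_eq ?_))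
    rw [hA₁]
    ring
  have c2 : ‖m‖ ≤ t * (|κ| + |ν|) * δ ^ 2 := by
    rw [hm]
    refine (norm_add_le _ _).trans ?_
    have h3 : ‖(2 : ℂ)‖ = 2 := by norm_num
    have hδ2 : 0 < δ ^ 2 := by positivity
    have n1 : ‖(κ : ℂ) * x * ((δ ^ 2 : ℝ) : ℂ)‖ = |κ| * ‖x‖ * δ ^ 2 := by
      rw [norm_mul, norm_mul, Complex.norm_real, Complex.norm_real, Real.norm_eq_abs, Real.norm_eq_abs, abs_of_pos hδ2]
    have n2 : ‖(ν : ℂ) * x ^ 2 / 2 * ((δ ^ 2 : ℝ) : ℂ)‖ = |ν| * ‖x‖ ^ 2 / 2 * δ ^ 2 := by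
      rw [norm_mul, norm_div, norm_mul, norm_pow, Complex.norm_real, Complex.norm_real, Real.norm_eq_abs,
        Real.norm_eq_abs, abs_of_pos hδ2, h3]
    rw [n1, n2]
    have h4 : |κ| * ‖x‖ * δ ^ 2 ≤ |κ| * t * δ ^ 2 := by gcongr
    have h5 : |ν| * ‖x‖ ^ 2 / 2 * δ ^ 2 ≤ |ν| * t * δ ^ 2 := by
      have h1 : ‖x‖ ^ 2 ≤ t ^ 2 := pow_le_pow_left₀ (norm_nonneg _) hx1 2
      have h2 : t ^ 2 ≤ t := pow_le_of_le_one ht0 ht1 (by norm_num)
      have h6 : |ν| * ‖x‖ ^ 2 / 2 ≤ |ν| * t := by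
        have := abs_nonneg ν
        have h7 : |ν| * ‖x‖ ^ 2 ≤ |ν| * t := by gcongr; linarith
        have h8 : 0 ≤ |ν| * ‖x‖ ^ 2 := by positivity
        linarith
      gcongr
    linarith
  have c3 : ‖zp E γ η T p‖ ≤ t * D₁ * δ ^ 2 := by
    have a1 : zp E γ η T p = (zp E γ η T p - m) + m := by ring
    rw [a1]
    refine (norm_add_le _ _).trans ((add_le_add c1 c2).trans ?_)
    have h1 : t * A₁ * δ ^ 3 ≤ t * A₁ * δ ^ 2 := by
      have : δ ^ 3 ≤ δ ^ 2 := pow_le_pow_of_le_one d0.le hδ1 (by norm_num)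
      have h2 : 0 ≤ A₁ := by positivity
      gcongr
    rw [hD₁]
    linarith
  have c4 : ‖zp E γ η T p‖ ≤ 1 / 2 := by
    refine c3.trans ?_
    have hD0 : 0 ≤ t * D₁ := by positivity
    calc t * D₁ * δ ^ 2 ≤ t * D₁ * 1 := by
          gcongr
          exact pow_le_one₀ d0.le hδ1
      _ ≤ 1 / 2 := by linarith
  have c5 : ‖Complex.log (1 + zp E γ η T p) - zp E γ η T p‖ ≤ t * D₁ ^ 2 * δ ^ 3 := by
    have h1 := Complex.norm_log_one_add_sub_self_le (z := zp E γ η T p) (by linarith)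
    refine h1.trans ?_
    have h2 : (1 - ‖zp E γ η T p‖)⁻¹ ≤ 2 := by
      rw [inv_le_comm₀ (by linarith) (by norm_num)]
      linarith
    have h5 : 0 ≤ (1 - ‖zp E γ η T p‖)⁻¹ := inv_nonneg.2 (by linarith)
    calc ‖zp E γ η T p‖ ^ 2 * (1 - ‖zp E γ η T p‖)⁻¹ / 2 ≤ (t * D₁ * δ ^ 2) ^ 2 * 2 / 2 := by gcongr
      _ = t ^ 2 * D₁ ^ 2 * δ ^ 4 := by ring
      _ ≤ t * D₁ ^ 2 * δ ^ 3 := by
        have h3 : t ^ 2 ≤ t := pow_le_of_le_one ht0 ht1 (by norm_num)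
        have h4 : δ ^ 4 ≤ δ ^ 3 := pow_le_pow_of_le_one d0.le hδ1 (by norm_num)
        gcongr
  constructor
  · intro h
    have h1 : zp E γ η T p = -1 := by linear_combination h
    rw [h1, norm_neg, norm_one] at c4
    linarith
  · have e5 : (κ * η * ((((p : ℕ) : ℝ))⁻¹ * w : ℝ) + ν * η ^ 2 / 2 * ((((p : ℕ) : ℝ))⁻¹ * w ^ 2 : ℝ) : ℂ) = m := by
      rw [hm, hxd]
      have : (((p : ℕ) : ℝ))⁻¹ = δ ^ 2 := by rw [d2, one_div]
      rw [this]
      push_cast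
      ring
    rw [e5, e3]
    have e6 : Complex.log (1 + zp E γ η T p) - m = (Complex.log (1 + zp E γ η T p) - zp E γ η T p) +
        (zp E γ η T p - m) := by ring
    rw [e6]
    refine (norm_add_le _ _).trans ((add_le_add c5 c1).trans (le_of_eq ?_))
    rw [ht]
    ring

end Pool.Agent.X278.AV
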