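import Pool.Agent.X278.AV.Gau

/-!
# The limit of the exponential means; the iterated filter
-/

set_option autoImplicit false

namespace Pool.Agent.X278.AV

open Finset Filter Topology
open Pool.Agent.X278.OP Pool.Agent.W189.ML

variable {ι : Type} {F : ℕ → Finset ι} {f : Nat.Primes → ι → ℝ} {E : Nat.Primes → (ℝ → ℂ) → ℂ} {B κ ν C : ℝ}

/-- the limit of the means -/
theorem Fn.asymp (D : Fn F f E B κ ν C) (γ : ℝ) (ζ : ℂ) :
    Tendsto (fun T : ℝ => (∏' p : Nat.Primes, (1 + zp E γ (ζ / (√(Real.log T) : ℝ)) T p)) *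
      Complex.exp (-(κ * (ζ * (√(Real.log T) : ℝ))))) atTop (𝓝 (Complex.exp (ν * ζ ^ 2 / 2))) := by
  obtain ⟨t₀, A, ht₀, hA, hexp⟩ := D.exp γ
  obtain ⟨s1, c₁, hc₁⟩ := kar_one γ
  obtain ⟨s2, c₂, hc₂⟩ := kar_two γ
  set S₁ : ℝ → ℝ := fun T => ∑' p : Nat.Primes, (((p : ℕ) : ℝ))⁻¹ * wr γ (Real.log (p : ℕ) / T) with hS₁
  set S₂ : ℝ → ℝ := fun T => ∑' p : Nat.Primes, (((p : ℕ) : ℝ))⁻¹ * wr γ (Real.log (p : ℕ) / T) ^ 2 with hS₂
  set l : ℝ → ℝ := fun T => √(Real.log T) with hl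
  set η : ℝ → ℂ := fun T => ζ / (l T : ℝ) with hη
  have hl1 : Tendsto l atTop atTop := Real.tendsto_sqrt_atTop.comp Real.tendsto_log_atTop
  have hη0 : Tendsto (fun T => ‖η T‖) atTop (𝓝 0) := by
    have h1 : Tendsto (fun T => ‖ζ‖ / l T) atTop (𝓝 0) := tendsto_const_nhds.div_atTop hl1
    refine h1.congr' ?_
    filter_upwards [hl1.eventually_gt_atTop 0] with T hT
    rw [hη]
    simp only
    rw [norm_div, Complex.norm_real, Real.norm_eq_abs, abs_of_pos hT]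
  have hηc : Tendsto η atTop (𝓝 0) := tendsto_zero_iff_norm_tendsto_zero.2 hη0
  set S₃ : ℝ := ∑' p : Nat.Primes, 1 / (√((p : ℕ) : ℝ) * (p : ℕ)) with hS₃
  -- the exponent
  set G : ℝ → ℂ := fun T => κ * η T * ((S₁ T - Real.log T : ℝ) : ℂ) +
    (ν / 2 * (η T * η T) * ((S₂ T - Real.log T : ℝ) : ℂ) + ν * ζ ^ 2 / 2) with hG
  have hGlim : Tendsto G atTop (𝓝 (ν * ζ ^ 2 / 2)) := by
    have a1 := (hηc.const_mul (κ : ℂ)).mul ((Complex.continuous_ofReal.tendsto _).comp hc₁)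
    have a2 := ((hηc.mul hηc).const_mul ((ν : ℂ) / 2)).mul ((Complex.continuous_ofReal.tendsto _).comp hc₂)
    have a3 := a1.add (a2.add_const (ν * ζ ^ 2 / 2))
    have e0 : (κ : ℂ) * 0 * ((c₁ : ℝ) : ℂ) + ((ν : ℂ) / 2 * (0 * 0) * ((c₂ : ℝ) : ℂ) + ν * ζ ^ 2 / 2) = ν * ζ ^ 2 / 2 := by
      ring
    rw [e0] at a3
    exact a3
  set R : ℝ → ℂ := fun T => ∑' p : Nat.Primes, (Complex.log (1 + zp E γ (η T) T p) -
    (κ * η T * ((((p : ℕ) : ℝ))⁻¹ * wr γ (Real.log (p : ℕ) / T) : ℝ) +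
        ν * η T ^ 2 / 2 * ((((p : ℕ) : ℝ))⁻¹ * wr γ (Real.log (p : ℕ) / T) ^ 2 : ℝ))) with hR
  have hRlim : Tendsto R atTop (𝓝 0) := by
    have h1 : Tendsto (fun T => ‖η T‖ * A * S₃) atTop (𝓝 0) := by
      have := (hη0.mul_const A).mul_const S₃
      simpa using this
    refine squeeze_zero_norm' ?_ h1
    filter_upwards [eventually_gt_atTop (0 : ℝ), hη0.eventually_le_const ht₀] with T hT hT2
    rw [hR]
    simp only
    have h2 : Summable fun p : Nat.Primes => ‖η T‖ * A / (√((p : ℕ) : ℝ) * (p : ℕ)) := sum_32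
    have h3 := tsum_of_norm_bounded h2.hasSum fun p => (hexp (η T) T hT hT2 p).2
    refine h3.trans (le_of_eq ?_)
    rw [hS₃, ← tsum_mul_left]
    refine tsum_congr fun p => ?_
    ring
  have hmain : ∀ᶠ T : ℝ in atTop, (∏' p : Nat.Primes, (1 + zp E γ (η T) T p)) *
      Complex.exp (-(κ * (ζ * (l T : ℝ)))) = Complex.exp (G T + R T) := by
    filter_upwards [eventually_gt_atTop (1 : ℝ), hη0.eventually_le_const ht₀] with T hT1 hT2
    have hT : 0 < T := by linarith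
    have hlog : 0 < Real.log T := Real.log_pos hT1
    have hl0 : 0 < l T := Real.sqrt_pos.2 hlog
    have hl2 : l T * l T = Real.log T := Real.mul_self_sqrt hlog.le
    have t1 : Summable fun p : Nat.Primes => (κ * η T * ((((p : ℕ) : ℝ))⁻¹ * wr γ (Real.log (p : ℕ) / T) : ℝ) : ℂ) :=
      (Complex.ofRealCLM.summable (s1 T hT)).mul_left _
    have t2 : Summable fun p : Nat.Primes => (ν * η T ^ 2 / 2 * ((((p : ℕ) : ℝ))⁻¹ * wr γ (Real.log (p : ℕ) / T) ^ 2 : ℝ) : ℂ) :=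
      (Complex.ofRealCLM.summable (s2 T hT)).mul_left _
    have t3 : Summable fun p : Nat.Primes => (Complex.log (1 + zp E γ (η T) T p) -
        (κ * η T * ((((p : ℕ) : ℝ))⁻¹ * wr γ (Real.log (p : ℕ) / T) : ℝ) +
        ν * η T ^ 2 / 2 * ((((p : ℕ) : ℝ))⁻¹ * wr γ (Real.log (p : ℕ) / T) ^ 2 : ℝ))) :=
      Summable.of_norm_bounded sum_32 fun p => (hexp (η T) T hT hT2 p).2
    have t4 : Summable fun p : Nat.Primes => Complex.log (1 + zp E γ (η T) T p) := by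
      refine ((t1.add t2).add t3).congr fun p => ?_
      ring
    have e1 : ∑' p : Nat.Primes, Complex.log (1 + zp E γ (η T) T p) =
        κ * η T * (S₁ T : ℂ) + ν * η T ^ 2 / 2 * (S₂ T : ℂ) + R T := by
      have a1 : ∀ p : Nat.Primes, Complex.log (1 + zp E γ (η T) T p) =
          (κ * η T * ((((p : ℕ) : ℝ))⁻¹ * wr γ (Real.log (p : ℕ) / T) : ℝ) +
          ν * η T ^ 2 / 2 * ((((p : ℕ) : ℝ))⁻¹ * wr γ (Real.log (p : ℕ) / T) ^ 2 : ℝ)) +
          (Complex.log (1 + zp E γ (η T) T p) -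
          (κ * η T * ((((p : ℕ) : ℝ))⁻¹ * wr γ (Real.log (p : ℕ) / T) : ℝ) +
          ν * η T ^ 2 / 2 * ((((p : ℕ) : ℝ))⁻¹ * wr γ (Real.log (p : ℕ) / T) ^ 2 : ℝ))) := fun p => by ring
      rw [tsum_congr a1, (t1.add t2).tsum_add t3, t1.tsum_add t2, tsum_mul_left, tsum_mul_left,
        ← Complex.ofReal_tsum, ← Complex.ofReal_tsum]
    rw [← Complex.cexp_tsum_eq_tprod (fun p => (hexp (η T) T hT hT2 p).1) t4, e1, ← Complex.exp_add]
    congr 1
    have hlc : ((l T : ℝ) : ℂ) * (l T : ℝ) = (Real.log T : ℂ) := by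
      rw [← Complex.ofReal_mul, hl2]
    have hlne : ((l T : ℝ) : ℂ) ≠ 0 := by exact_mod_cast hl0.ne'
    have e2 : η T * (Real.log T : ℂ) = ζ * (l T : ℝ) := by
      rw [hη]
      simp only
      rw [← hlc]
      field_simp
    have e3 : η T * η T * (Real.log T : ℂ) = ζ ^ 2 := by
      rw [hη]
      simp only
      rw [← hlc]
      field_simp
    rw [hG]
    simp only
    push_cast
    linear_combination (-(κ : ℂ)) * (-e2) + (-(ν : ℂ) / 2) * (-e3)
  have h1 := (Complex.continuous_exp.tendsto _).comp (hGlim.add hRlim)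
  rw [add_zero] at h1
  refine h1.congr' ?_
  filter_upwards [hmain] with T hT
  exact hT.symm

/-- the normalized sum -/
noncomputable def Yn (f : Nat.Primes → ι → ℝ) (γ κ : ℝ) (n : ℝ × ℕ) (i : ι) : ℝ :=
  (Sm f γ n.1 i - κ * Real.log n.1) / √(Real.log n.1)

/-- **the exponential means along the iterated filter** -/
theorem Fn.curry (D : Fn F f E B κ ν C) (γ : ℝ) (ζ : ℂ) :
    Tendsto (fun n : ℝ × ℕ => meanC (F n.2) (fun i => Complex.exp (ζ * (Yn f γ κ n i : ℝ))))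
      ((atTop : Filter ℝ).curry (atTop : Filter ℕ)) (𝓝 (Complex.exp (ν * ζ ^ 2 / 2))) := by
  rw [Metric.tendsto_nhds]
  intro ε hε
  rw [Filter.eventually_curry_iff]
  have h1 := (Metric.tendsto_nhds.1 (D.asymp γ ζ)) (ε / 2) (by positivity)
  filter_upwards [h1, eventually_gt_atTop (1 : ℝ)] with T hT1 hT2
  have hT : 0 < T := by linarith
  have hlog : 0 < Real.log T := Real.log_pos hT2
  have hl0 : 0 < √(Real.log T) := Real.sqrt_pos.2 hlog
  have h2 := (D.mean γ (ζ / (√(Real.log T) : ℝ)) hT).mul_const (Complex.exp (-(κ * (ζ * (√(Real.log T) : ℝ)))))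
  filter_upwards [(Metric.tendsto_nhds.1 h2) (ε / 2) (by positivity)] with X hX
  have e1 : meanC (F X) (fun i => Complex.exp (ζ * (Yn f γ κ (T, X) i : ℝ))) =
      meanC (F X) (fun i => Complex.exp (ζ / (√(Real.log T) : ℝ) * (Sm f γ T i : ℝ))) *
        Complex.exp (-(κ * (ζ * (√(Real.log T) : ℝ)))) := by
    unfold meanC
    rw [div_mul_eq_mul_div, Finset.sum_mul]
    congr 1
    refine Finset.sum_congr rfl fun i _ => ?_
    show Complex.exp (ζ * (((Sm f γ T i - κ * Real.log T) / √(Real.log T) : ℝ) : ℂ)) =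
      Complex.exp (ζ / (√(Real.log T) : ℝ) * (Sm f γ T i : ℝ)) * Complex.exp (-(κ * (ζ * (√(Real.log T) : ℝ))))
    rw [← Complex.exp_add]
    congr 1
    have hlc : ((√(Real.log T) : ℝ) : ℂ) * (√(Real.log T) : ℝ) = (Real.log T : ℂ) := by
      rw [← Complex.ofReal_mul, Real.mul_self_sqrt hlog.le]
    have hlne : ((√(Real.log T) : ℝ) : ℂ) ≠ 0 := by exact_mod_cast hl0.ne'
    rw [Complex.ofReal_div, Complex.ofReal_sub, Complex.ofReal_mul, ← hlc]
    field_simp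
    ring
  rw [e1]
  calc dist _ _ ≤ dist _ _ + dist _ _ := dist_triangle _ _ _
    _ < ε / 2 + ε / 2 := add_lt_add hX hT1
    _ = ε := by ring

end Pool.Agent.X278.AV
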