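import Pool.Agent.X278.AV.LocM

/-!
# The two orders of limits: families of points and local functions
-/

set_option autoImplicit false

namespace Pool.Agent.X278.AV

open Filter Topology Asymptotics
open Pool.Agent.W189.ML Pool.Agent.X287.CR Pool.Agent.X278.OP
open Pool.Agent.W187.UR (Lam)

instance nzp (p : Nat.Primes) : NeZero (p : ℕ) := ⟨p.2.ne_zero⟩

theorem rpow_sqrt {p : ℝ} (hp : 0 < p) : p ^ (-(3 / 2) : ℝ) = 1 / (√p * p) := by
  have h1 : √p * p = p ^ (3 / 2 : ℝ) := by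
    rw [Real.sqrt_eq_rpow]
    nth_rewrite 2 [← Real.rpow_one p]
    rw [← Real.rpow_add hp]
    norm_num
  rw [h1, Real.rpow_neg hp.le, one_div]

/-- summability of small coefficients -/
theorem small_sum {c : Nat.Primes → ℂ} {C : ℝ} (hc : ∀ p, ‖c p‖ ≤ C / (√((p : ℕ) : ℝ) * (p : ℕ))) :
    (Summable fun p => ‖c p‖) ∧ Summable fun p : Nat.Primes => ‖c p‖ * Real.log (p : ℕ) := by
  have h1 : Summable fun p : Nat.Primes => ((p : ℕ) : ℝ) ^ (-(5 / 4) : ℝ) := on_sys.sum (5 / 4) (by norm_num)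
  have hC : 0 ≤ C := by
    have h2 := (norm_nonneg _).trans (hc ⟨2, Nat.prime_two⟩)
    by_contra h
    push Not at h
    have h3 : C / (√(((⟨2, Nat.prime_two⟩ : Nat.Primes) : ℕ) : ℝ) * ((⟨2, Nat.prime_two⟩ : Nat.Primes) : ℕ)) < 0 := by
      apply div_neg_of_neg_of_pos h
      have : (0 : ℝ) < ((⟨2, Nat.prime_two⟩ : Nat.Primes) : ℕ) := by exact_mod_cast Nat.prime_two.pos
      have := Real.sqrt_pos.2 this
      positivity
    linarith
  have key : ∀ p : Nat.Primes, 1 ≤ 2 * Real.log (p : ℕ) ∧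
      ‖c p‖ * Real.log (p : ℕ) ≤ 4 * C * ((p : ℕ) : ℝ) ^ (-(5 / 4) : ℝ) := by
    intro p
    have hp0 : (0 : ℝ) < (p : ℕ) := by exact_mod_cast p.2.pos
    have hp2 : (2 : ℝ) ≤ (p : ℕ) := by exact_mod_cast p.2.two_le
    have h2 : Real.log (p : ℕ) ≤ ((p : ℕ) : ℝ) ^ (1 / 4 : ℝ) / (1 / 4) := Real.log_le_rpow_div hp0.le (by norm_num)
    have h3 : 0 ≤ Real.log (p : ℕ) := Real.log_nonneg (by linarith)
    constructor
    · have h4 : Real.log 2 ≤ Real.log (p : ℕ) := Real.log_le_log (by norm_num) hp2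
      have := Real.log_two_gt_d9
      linarith
    · calc ‖c p‖ * Real.log (p : ℕ) ≤ (C / (√((p : ℕ) : ℝ) * (p : ℕ))) * (((p : ℕ) : ℝ) ^ (1 / 4 : ℝ) / (1 / 4)) :=
            mul_le_mul (hc p) h2 h3 ((norm_nonneg _).trans (hc p))
        _ = 4 * C * ((1 / (√((p : ℕ) : ℝ) * (p : ℕ))) * ((p : ℕ) : ℝ) ^ (1 / 4 : ℝ)) := by ring
        _ = _ := by
            rw [← rpow_sqrt hp0, ← Real.rpow_add hp0]
            norm_num
  have hs2 : Summable fun p : Nat.Primes => ‖c p‖ * Real.log (p : ℕ) :=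
    Summable.of_nonneg_of_le (fun p => mul_nonneg (norm_nonneg _) (by have := (key p).1; linarith))
      (fun p => (key p).2) (h1.mul_left (4 * C))
  refine ⟨Summable.of_nonneg_of_le (fun p => norm_nonneg _) (fun p => ?_) (hs2.mul_left 2), hs2⟩
  have := (key p).1
  have h5 := norm_nonneg (c p)
  nlinarith

/-- the law for coefficients `κ / p + O(p^{-3/2})` -/
theorem main_Asc {γ : ℝ} (hγ : Real.pi / 2 < γ) {e : Nat.Primes → ℝ} {κ C : ℝ}
    (he : ∀ p : Nat.Primes, |e p - κ / (p : ℕ)| ≤ C / (√((p : ℕ) : ℝ) * (p : ℕ)))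
    (hs : ∀ T : ℝ, 0 < T → Summable fun p : Nat.Primes => ‖(e p : ℂ) * Wt γ (Real.log (p : ℕ) / T)‖) :
    ∃ C' : ℂ, Asc (Lam γ) (fun T => ∑' p : Nat.Primes, (e p : ℂ) * Wt γ (Real.log (p : ℕ) / T)) κ C' := by
  obtain ⟨C₁, h1⟩ := prime_law hγ
  set c : Nat.Primes → ℂ := fun p => ((e p - κ / (p : ℕ) : ℝ) : ℂ) with hc
  have hc' : ∀ p, ‖c p‖ ≤ C / (√((p : ℕ) : ℝ) * (p : ℕ)) := by
    intro p
    rw [hc]
    simp only
    rw [Complex.norm_real, Real.norm_eq_abs]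
    exact he p
  obtain ⟨s1, s2⟩ := small_sum hc'
  have h2 := conv_Asc (Lam γ) γ (c := c) (l := fun p : Nat.Primes => Real.log (p : ℕ))
    (fun p => Real.log_nonneg (by exact_mod_cast p.2.one_le)) s1 s2
  have h3 := Asc'.add (Asc'.const_mul (κ : ℂ) h1) h2
  rw [mul_one, add_zero] at h3
  refine ⟨_, Asc'.congr h3 fun T hT => ?_⟩
  have s3 : Summable fun p : Nat.Primes => c p * Wt γ (Real.log (p : ℕ) / T) := by
    refine Summable.of_norm_bounded (s1.mul_right (Real.exp 1 + 1)) fun p => ?_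
    have hx : 0 ≤ Real.log (p : ℕ) / T := div_nonneg (Real.log_nonneg (by exact_mod_cast p.2.one_le)) hT.le
    rw [norm_mul, norm_Wt γ hx]
    gcongr
    exact om_le_const hx
  have s4 : Summable fun p : Nat.Primes => (κ : ℂ) * ((((p : ℕ) : ℂ))⁻¹ * Wt γ (Real.log (p : ℕ) / T)) := by
    refine ((hs T hT).of_norm.sub s3).congr fun p => ?_
    rw [hc]
    push_cast
    ring
  rw [← tsum_mul_left, ← s4.tsum_add s3]
  refine tsum_congr fun p => ?_
  rw [hc]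
  push_cast
  ring

/-- summability with the weights -/
theorem wt_sum {γ T : ℝ} (hT : 0 < T) {B : ℝ} (hB : 0 ≤ B) :
    Summable fun p : Nat.Primes => (B / √((p : ℕ) : ℝ)) * ‖Wt γ (Real.log (p : ℕ) / T)‖ := by
  have h1 : Summable fun p : Nat.Primes => ((p : ℕ) : ℝ) ^ (-(2 : ℝ)) := on_sys.sum 2 (by norm_num)
  refine Summable.of_nonneg_of_le (fun p => by positivity) (fun p => ?_)
    (h1.mul_left (B * (Real.exp (Real.exp (2 * T)) + 1)))
  have hp0 : (0 : ℝ) < (p : ℕ) := by exact_mod_cast p.2.pos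
  have hp1 : (1 : ℝ) ≤ (p : ℕ) := by exact_mod_cast p.2.one_le
  have hx : 0 ≤ Real.log (p : ℕ) / T := div_nonneg (Real.log_nonneg hp1) hT.le
  rw [norm_Wt γ hx]
  have h2 := om_le (a := 2 * T) (v := Real.log (p : ℕ) / T) (by linarith) hx
  have h3 : 2 * T * (Real.log (p : ℕ) / T) = 2 * Real.log (p : ℕ) := by field_simp
  have h4 : Real.exp (-(2 * Real.log (p : ℕ))) = ((p : ℕ) : ℝ) ^ (-(2 : ℝ)) := by
    rw [Real.rpow_def_of_pos hp0]
    congr 1
    ring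
  rw [h3, h4] at h2
  have h5 : B / √((p : ℕ) : ℝ) ≤ B := div_le_self hB (Real.one_le_sqrt.2 hp1)
  calc _ ≤ B * ((Real.exp (Real.exp (2 * T)) + 1) * ((p : ℕ) : ℝ) ^ (-(2 : ℝ))) :=
        mul_le_mul h5 h2 (om_nonneg hx) hB
    _ = _ := by ring

/-- hypotheses for a family of points and local functions -/
structure Sys (k : ℕ) (e : Fin k → ℕ) (a : ℕ → Fin k → ℕ) (Z : (Fin k → ℤ) → Prop)
    (f : (p : Nat.Primes) → (Fin k → ZMod p) → ℝ) (κ : ℝ) : Prop where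
  data : Data k e a Z
  zero : ∀ p, f p 0 = 0
  size : ∃ B : ℝ, 0 ≤ B ∧ ∀ p r, |f p r| ≤ B / √((p : ℕ) : ℝ)
  ex : ∃ C : ℝ, ∀ p : Nat.Primes, |Ex (∑ j, e j) (p : ℕ) (f p) - κ / (p : ℕ)| ≤ C / (√((p : ℕ) : ℝ) * (p : ℕ))

/-- the rotated sum of a point -/
noncomputable def SS {k : ℕ} (f : (p : Nat.Primes) → (Fin k → ZMod p) → ℝ) (γ T : ℝ) (x : Fin k → ℤ) : ℂ :=
  ∑' p : Nat.Primes, ((f p (red p x) : ℝ) : ℂ) * Wt γ (Real.log (p : ℕ) / T)

/-- the limit of the means -/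
noncomputable def AA {k : ℕ} (e : Fin k → ℕ) (f : (p : Nat.Primes) → (Fin k → ZMod p) → ℝ) (γ T : ℝ) : ℂ :=
  ∑' p : Nat.Primes, ((Ex (∑ j, e j) (p : ℕ) (f p) : ℝ) : ℂ) * Wt γ (Real.log (p : ℕ) / T)

variable {k : ℕ} {e : Fin k → ℕ} {a : ℕ → Fin k → ℕ} {Z : (Fin k → ℤ) → Prop}
  {f : (p : Nat.Primes) → (Fin k → ZMod p) → ℝ} {κ : ℝ}

theorem fam_ne (D : Data k e a Z) : ∀ᶠ X in atTop, (Fam e Z (a X)).Nonempty := by
  classical
  have hs : 2 ≤ ∑ j, e j :=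
    (D.he ⟨0, D.hk⟩).trans (Finset.single_le_sum (f := e) (fun i _ => Nat.zero_le _) (Finset.mem_univ _))
  have h2 := fam_card D.hk D.he a D.ha Z D.zero D.lim
  obtain ⟨-, h4⟩ := DD_ratio (s := ∑ j, e j) (N := 1) hs
  have h5 := h2.eventually_ne h4
  filter_upwards [h5] with X hX
  rw [← Finset.card_pos]
  by_contra h
  push Not at h
  apply hX
  have : (Fam e Z (a X)).card = 0 := by omega
  rw [this]
  simp

theorem Sys.loc (W : Sys k e a Z f κ) : ∃ B : ℝ, 0 ≤ B ∧ (∀ p r, |f p r| ≤ B / √((p : ℕ) : ℝ)) ∧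
    Loc (fun X => Fam e Z (a X)) (fun (p : Nat.Primes) x => f p (red p x)) (fun p => B / √((p : ℕ) : ℝ))
      (fun p => Ex (∑ j, e j) (p : ℕ) (f p)) := by
  obtain ⟨B, hB, hb⟩ := W.size
  refine ⟨B, hB, hb, fun p X x _ => hb p _, fun p => W.data.one p.2 (f p) (W.zero p), fun p q hpq => ?_,
    fam_ne W.data⟩
  exact W.data.two p.2 q.2 (fun h => hpq (Subtype.ext h)) (f p) (f q) (W.zero p) (W.zero q)

/-- **means for fixed `T`** -/
theorem Sys.first (W : Sys k e a Z f κ) (γ : ℝ) {T : ℝ} (hT : 0 < T) :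
    Tendsto (fun X => meanC (Fam e Z (a X)) (SS f γ T)) atTop (𝓝 (AA e f γ T)) := by
  obtain ⟨B, hB, hb, L⟩ := W.loc
  exact L.first (wt_sum hT hB)

/-- **the limit of the means** -/
theorem Sys.asc (W : Sys k e a Z f κ) {γ : ℝ} (hγ : Real.pi / 2 < γ) : ∃ C : ℂ, Asc (Lam γ) (AA e f γ) κ C := by
  obtain ⟨B, hB, hb, L⟩ := W.loc
  obtain ⟨C, hC⟩ := W.ex
  exact main_Asc hγ hC fun T hT => L.e_summable (wt_sum hT hB)

/-- **the mean square deviation** -/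
theorem Sys.second (W : Sys k e a Z f κ) (γ : ℝ) : ∃ V : ℝ, 0 ≤ V ∧ ∀ᶠ T : ℝ in atTop, ∀ᶠ X in atTop,
    mean (Fam e Z (a X)) (fun x => ‖SS f γ T x - AA e f γ T‖ ^ 2) ≤ V * Real.log T := by
  obtain ⟨B, hB, hb, L⟩ := W.loc
  obtain ⟨C, hC⟩ := var_bound γ
  refine ⟨4 * (B ^ 2 * |C|) + 1, by positivity, ?_⟩
  filter_upwards [hC, Filter.eventually_ge_atTop (Real.exp 1)] with T ⟨h1, h2⟩ h3
  have hT : 0 < T := (Real.exp_pos 1).trans_le h3
  have hlogT : 1 ≤ Real.log T := by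
    rw [← Real.log_exp 1]
    exact Real.log_le_log (Real.exp_pos 1) h3
  filter_upwards [L.second (w := fun p : Nat.Primes => Wt γ (Real.log (p : ℕ) / T)) (wt_sum hT hB)
    (ε := 1) one_pos] with X hX
  refine le_trans hX ?_
  have h4 : ∀ p : Nat.Primes, (B / √((p : ℕ) : ℝ) * ‖Wt γ (Real.log (p : ℕ) / T)‖) ^ 2 =
      B ^ 2 * ((((p : ℕ) : ℝ))⁻¹ * ‖Wt γ (Real.log (p : ℕ) / T)‖ ^ 2) := by
    intro p
    have hp0 : (0 : ℝ) ≤ (p : ℕ) := Nat.cast_nonneg _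
    rw [mul_pow, div_pow, Real.sq_sqrt hp0]
    ring
  simp only [h4]
  rw [tsum_mul_left]
  have h5 : C * Real.log T ≤ |C| * Real.log T := by
    gcongr
    exact le_abs_self C
  have h6 := h2.trans h5
  have h7 : B ^ 2 * ∑' p : Nat.Primes, (((p : ℕ) : ℝ))⁻¹ * ‖Wt γ (Real.log (p : ℕ) / T)‖ ^ 2 ≤
      B ^ 2 * (|C| * Real.log T) := by gcongr
  nlinarith

open Classical in
/-- **almost all members of the family** -/
theorem Sys.lln (W : Sys k e a Z f κ) {γ : ℝ} (hγ : Real.pi / 2 < γ) : ∃ V : ℝ, ∀ δ : ℝ, 0 < δ →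
    ∀ᶠ T : ℝ in atTop, ∀ᶠ X in atTop,
    (((Fam e Z (a X)).filter fun x => δ < ‖SS f γ T x / Real.log T - κ‖).card : ℝ) ≤
      V / (δ ^ 2 * Real.log T) * (Fam e Z (a X)).card := by
  obtain ⟨V, hV, h1⟩ := W.second γ
  obtain ⟨C, h2⟩ := W.asc hγ
  refine ⟨4 * V, fun δ hδ => ?_⟩
  have h3 := h2.lim
  have h4 : ∀ᶠ T : ℝ in atTop, ‖AA e f γ T / Real.log T - κ‖ < δ / 2 := by
    have h5 := (h3.sub_const (κ : ℂ)).norm
    rw [sub_self, norm_zero] at h5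
    exact h5.eventually_lt_const (by positivity)
  filter_upwards [h1, h4, Filter.eventually_gt_atTop (1 : ℝ)] with T a1 a2 a3
  have hlog : 0 < Real.log T := Real.log_pos a3
  filter_upwards [a1, fam_ne W.data] with X b1 b2
  have hc : (0 : ℝ) < (Fam e Z (a X)).card := by exact_mod_cast b2.card_pos
  set G := (Fam e Z (a X)).filter fun x => δ < ‖SS f γ T x / Real.log T - κ‖ with hG
  have h5 : ∀ x ∈ G, (δ / 2 * Real.log T) ^ 2 ≤ ‖SS f γ T x - AA e f γ T‖ ^ 2 := by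
    intro x hx
    have hx2 := (Finset.mem_filter.1 hx).2
    have e1 : SS f γ T x / Real.log T - κ = (SS f γ T x - AA e f γ T) / Real.log T +
        (AA e f γ T / Real.log T - κ) := by ring
    have h6 : δ / 2 < ‖(SS f γ T x - AA e f γ T) / Real.log T‖ := by
      rw [e1] at hx2
      have := norm_add_le ((SS f γ T x - AA e f γ T) / Real.log T) (AA e f γ T / Real.log T - κ)
      linarith
    rw [norm_div, Complex.norm_real, Real.norm_eq_abs, abs_of_pos hlog, lt_div_iff₀ hlog] at h6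
    exact pow_le_pow_left₀ (by positivity) h6.le 2
  have h6 : (G.card : ℝ) * (δ / 2 * Real.log T) ^ 2 ≤ ∑ x ∈ Fam e Z (a X), ‖SS f γ T x - AA e f γ T‖ ^ 2 := by
    calc (G.card : ℝ) * (δ / 2 * Real.log T) ^ 2 = ∑ _x ∈ G, (δ / 2 * Real.log T) ^ 2 := by
          rw [Finset.sum_const, nsmul_eq_mul]
      _ ≤ ∑ x ∈ G, ‖SS f γ T x - AA e f γ T‖ ^ 2 := Finset.sum_le_sum h5
      _ ≤ _ := Finset.sum_le_sum_of_subset_of_nonneg (Finset.filter_subset _ _) fun x _ _ => by positivity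
  have h7 : ∑ x ∈ Fam e Z (a X), ‖SS f γ T x - AA e f γ T‖ ^ 2 ≤ V * Real.log T * (Fam e Z (a X)).card := by
    unfold mean at b1
    rwa [div_le_iff₀ hc] at b1
  have h8 := h6.trans h7
  rw [div_mul_eq_mul_div, le_div_iff₀ (by positivity)]
  have h9 : (G.card : ℝ) * (δ ^ 2 * Real.log T) * Real.log T ≤ 4 * V * (Fam e Z (a X)).card * Real.log T := by
    nlinarith
  exact le_of_mul_le_mul_right h9 hlog

end Pool.Agent.X278.AV
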