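import Pool.Agent.X278.AV.Gen

/-!
# Families of points and local functions, general law of the means
-/

set_option autoImplicit false

namespace Pool.Agent.X278.AV

open Filter Topology Asymptotics
open Pool.Agent.W189.ML Pool.Agent.X287.CR Pool.Agent.X278.OP
open Pool.Agent.W187.UR (Lam)

/-- hypotheses for a family of points and local functions -/
structure Sys0 (k : ℕ) (e : Fin k → ℕ) (a : ℕ → Fin k → ℕ) (Z : (Fin k → ℤ) → Prop)
    (f : (p : Nat.Primes) → (Fin k → ZMod p) → ℝ) : Prop where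
  data : Data k e a Z
  zero : ∀ p, f p 0 = 0
  size : ∃ B : ℝ, 0 ≤ B ∧ ∀ p r, |f p r| ≤ B / √((p : ℕ) : ℝ)

variable {k : ℕ} {e : Fin k → ℕ} {a : ℕ → Fin k → ℕ} {Z : (Fin k → ℤ) → Prop}
  {f : (p : Nat.Primes) → (Fin k → ZMod p) → ℝ}

theorem Sys0.loc (W : Sys0 k e a Z f) : ∃ B : ℝ, 0 ≤ B ∧ (∀ p r, |f p r| ≤ B / √((p : ℕ) : ℝ)) ∧
    Loc (fun X => Fam e Z (a X)) (fun (p : Nat.Primes) x => f p (red p x)) (fun p => B / √((p : ℕ) : ℝ))
      (fun p => Ex (∑ j, e j) (p : ℕ) (f p)) := by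
  obtain ⟨B, hB, hb⟩ := W.size
  refine ⟨B, hB, hb, fun p X x _ => hb p _, fun p => W.data.one p.2 (f p) (W.zero p), fun p q hpq => ?_,
    fam_ne W.data⟩
  exact W.data.two p.2 q.2 (fun h => hpq (Subtype.ext h)) (f p) (f q) (W.zero p) (W.zero q)

/-- **means for fixed `T`** -/
theorem Sys0.first (W : Sys0 k e a Z f) (γ : ℝ) {T : ℝ} (hT : 0 < T) :
    Tendsto (fun X => meanC (Fam e Z (a X)) (SS f γ T)) atTop (𝓝 (AA e f γ T)) := by
  obtain ⟨B, hB, hb, L⟩ := W.loc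
  exact L.first (wt_sum hT hB)

/-- **the mean square deviation** -/
theorem Sys0.second (W : Sys0 k e a Z f) (γ : ℝ) : ∃ V : ℝ, 0 ≤ V ∧ ∀ᶠ T : ℝ in atTop, ∀ᶠ X in atTop,
    mean (Fam e Z (a X)) (fun x => ‖SS f γ T x - AA e f γ T‖ ^ 2) ≤ V * Real.log T := by
  obtain ⟨B, hB, hb, L⟩ := W.loc
  obtain ⟨C, hC⟩ := var_bound γ
  refine ⟨4 * (B ^ 2 * |C|) + 1, by positivity, ?_⟩
  filter_upwards [hC, Filter.eventually_ge_atTop (Real.exp 1)] with T ⟨h1, h2⟩ h3
  have hT : 0 < T := (Real.exp_pos 1).trans_le h3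
  have hlogT : 1 ≤ Real.log T := by
    rw [← Real.log_exp 1]
    exact Real.log_le_log (Real.exp_pos 1) h3
  filter_upwards [L.second (w := fun p : Nat.Primes => Wt γ (Real.log (p : ℕ) / T)) (wt_sum hT hB)
    (ε := 1) one_pos] with X hX
  refine le_trans hX ?_
  have h4 : ∀ p : Nat.Primes, (B / √((p : ℕ) : ℝ) * ‖Wt γ (Real.log (p : ℕ) / T)‖) ^ 2 =
      B ^ 2 * ((((p : ℕ) : ℝ))⁻¹ * ‖Wt γ (Real.log (p : ℕ) / T)‖ ^ 2) := by
    intro p
    have hp0 : (0 : ℝ) ≤ (p : ℕ) := Nat.cast_nonneg _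
    rw [mul_pow, div_pow, Real.sq_sqrt hp0]
    ring
  simp only [h4]
  rw [tsum_mul_left]
  have h5 : C * Real.log T ≤ |C| * Real.log T := by
    gcongr
    exact le_abs_self C
  have h6 := h2.trans h5
  have h7 : B ^ 2 * ∑' p : Nat.Primes, (((p : ℕ) : ℝ))⁻¹ * ‖Wt γ (Real.log (p : ℕ) / T)‖ ^ 2 ≤
      B ^ 2 * (|C| * Real.log T) := by gcongr
  nlinarith

open Classical in
/-- **almost all members of the family** -/
theorem Sys0.lln (W : Sys0 k e a Z f) {γ : ℝ} {κ : ℝ} {C : ℂ} (h2 : Asc (Lam γ) (AA e f γ) κ C) :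
    ∃ V : ℝ, ∀ δ : ℝ, 0 < δ →
    ∀ᶠ T : ℝ in atTop, ∀ᶠ X in atTop,
    (((Fam e Z (a X)).filter fun x => δ < ‖SS f γ T x / Real.log T - κ‖).card : ℝ) ≤
      V / (δ ^ 2 * Real.log T) * (Fam e Z (a X)).card := by
  obtain ⟨V, hV, h1⟩ := W.second γ
  refine ⟨4 * V, fun δ hδ => ?_⟩
  have h3 := h2.lim
  have h4 : ∀ᶠ T : ℝ in atTop, ‖AA e f γ T / Real.log T - κ‖ < δ / 2 := by
    have h5 := (h3.sub_const (κ : ℂ)).norm
    rw [sub_self, norm_zero] at h5
    exact h5.eventually_lt_const (by positivity)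
  filter_upwards [h1, h4, Filter.eventually_gt_atTop (1 : ℝ)] with T a1 a2 a3
  have hlog : 0 < Real.log T := Real.log_pos a3
  filter_upwards [a1, fam_ne W.data] with X b1 b2
  have hc : (0 : ℝ) < (Fam e Z (a X)).card := by exact_mod_cast b2.card_pos
  set G := (Fam e Z (a X)).filter fun x => δ < ‖SS f γ T x / Real.log T - κ‖ with hG
  have h5 : ∀ x ∈ G, (δ / 2 * Real.log T) ^ 2 ≤ ‖SS f γ T x - AA e f γ T‖ ^ 2 := by
    intro x hx
    have hx2 := (Finset.mem_filter.1 hx).2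
    have e1 : SS f γ T x / Real.log T - κ = (SS f γ T x - AA e f γ T) / Real.log T +
        (AA e f γ T / Real.log T - κ) := by ring
    have h6 : δ / 2 < ‖(SS f γ T x - AA e f γ T) / Real.log T‖ := by
      rw [e1] at hx2
      have := norm_add_le ((SS f γ T x - AA e f γ T) / Real.log T) (AA e f γ T / Real.log T - κ)
      linarith
    rw [norm_div, Complex.norm_real, Real.norm_eq_abs, abs_of_pos hlog, lt_div_iff₀ hlog] at h6
    exact pow_le_pow_left₀ (by positivity) h6.le 2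
  have h6 : (G.card : ℝ) * (δ / 2 * Real.log T) ^ 2 ≤ ∑ x ∈ Fam e Z (a X), ‖SS f γ T x - AA e f γ T‖ ^ 2 := by
    calc (G.card : ℝ) * (δ / 2 * Real.log T) ^ 2 = ∑ _x ∈ G, (δ / 2 * Real.log T) ^ 2 := by
          rw [Finset.sum_const, nsmul_eq_mul]
      _ ≤ ∑ x ∈ G, ‖SS f γ T x - AA e f γ T‖ ^ 2 := Finset.sum_le_sum h5
      _ ≤ _ := Finset.sum_le_sum_of_subset_of_nonneg (Finset.filter_subset _ _) fun x _ _ => by positivity
  have h7 : ∑ x ∈ Fam e Z (a X), ‖SS f γ T x - AA e f γ T‖ ^ 2 ≤ V * Real.log T * (Fam e Z (a X)).card := by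
    unfold mean at b1
    rwa [div_le_iff₀ hc] at b1
  have h8 := h6.trans h7
  rw [div_mul_eq_mul_div, le_div_iff₀ (by positivity)]
  have h9 : (G.card : ℝ) * (δ ^ 2 * Real.log T) * Real.log T ≤ 4 * V * (Fam e Z (a X)).card * Real.log T := by
    nlinarith
  exact le_of_mul_le_mul_right h9 hlog

/-- comparison of laws: coefficients which differ by `O(p^{-3/2})` -/
theorem Asc_cmp {γ : ℝ} {c e' : Nat.Primes → ℂ} {κ C₁ : ℂ} {C : ℝ}
    (h1 : Asc (Lam γ) (fun T => ∑' p : Nat.Primes, c p * Wt γ (Real.log (p : ℕ) / T)) κ C₁)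
    (hc : ∀ T : ℝ, 0 < T → Summable fun p : Nat.Primes => c p * Wt γ (Real.log (p : ℕ) / T))
    (he : ∀ p : Nat.Primes, ‖e' p - c p‖ ≤ C / (√((p : ℕ) : ℝ) * (p : ℕ))) :
    ∃ C' : ℂ, Asc (Lam γ) (fun T => ∑' p : Nat.Primes, e' p * Wt γ (Real.log (p : ℕ) / T)) κ C' := by
  obtain ⟨s1, s2⟩ := small_sum he
  have h2 := conv_Asc (Lam γ) γ (c := fun p => e' p - c p) (l := fun p : Nat.Primes => Real.log (p : ℕ))
    (fun p => Real.log_nonneg (by exact_mod_cast p.2.one_le)) s1 s2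
  have h3 := Asc'.add h1 h2
  rw [add_zero] at h3
  refine ⟨_, Asc'.congr h3 fun T hT => ?_⟩
  have s3 : Summable fun p : Nat.Primes => (e' p - c p) * Wt γ (Real.log (p : ℕ) / T) := by
    refine Summable.of_norm_bounded (s1.mul_right (Real.exp 1 + 1)) fun p => ?_
    have hx : 0 ≤ Real.log (p : ℕ) / T := div_nonneg (Real.log_nonneg (by exact_mod_cast p.2.one_le)) hT.le
    rw [norm_mul, norm_Wt γ hx]
    gcongr
    exact om_le_const hx
  rw [← (hc T hT).tsum_add s3]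
  exact tsum_congr fun p => by ring

/-- the first powers of a system at the edge -/
theorem first_powers {X : Type} {d : ℕ} {q : X → ℕ} {β : X → Fin d → ℂ} (G : CSys (2 * (1 / 2)) q β) {γ : ℝ} {Λ : ℂ}
    {n : ℤ} {r₀ : ℂ} (h : Asy Λ (Su q β 2 γ) n r₀) :
    ∃ C : ℂ, Asc Λ (fun T => ∑' v, -cc q β 2 (v, 0) * Wt γ (Real.log (q v) / T)) n C := by
  set c : X × ℕ → ℂ := fun x => cc q β 2 (x.1, x.2 + 1) with hc
  set l : X × ℕ → ℝ := fun x => lam q (x.1, x.2 + 1) with hl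
  have G' : CSys (1 / 2) q (fun (_ : X) (_ : Fin d) => (0 : ℂ)) :=
    { cnt := G.cnt, two_le := G.two_le, sum := G.sum, le := fun v i => by simp; positivity }
  have hl0 : ∀ x, 0 ≤ l x := fun x => G.lam_nonneg _
  have hcl : ∀ x, ‖c x‖ * l x ≤ 4 * d * ((q x.1 : ℝ) ^ (-(5 / 4) : ℝ) * (((x.2 : ℝ) + 2) * (3 / 4) ^ x.2)) := by
    rintro ⟨v, k⟩
    have h1 := cc2_half' G' G (s₀ := 1) (by norm_num) v k
    rw [mul_one] at h1
    have h2 := h_le G' v k
    have h5 : l (v, k) = ((k : ℝ) + 2) * Real.log (q v) := by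
      simp only [hl]
      unfold lam
      push_cast
      ring
    rw [h5]
    refine le_trans (mul_le_mul_of_nonneg_right h1 ?_) h2
    have := (G.logpos v).le
    positivity
  have hs' : Summable fun x => ‖c x‖ * l x :=
    Summable.of_nonneg_of_le (fun x => mul_nonneg (norm_nonneg _) (hl0 x)) hcl
      ((geo_sum G').mul_left (4 * (d : ℝ)))
  have hs : Summable fun x => ‖c x‖ := by
    refine Summable.of_nonneg_of_le (fun x => norm_nonneg _) (fun x => ?_) (hs'.mul_left (Real.log 2)⁻¹)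
    have hlog2 : 0 < Real.log 2 := Real.log_pos (by norm_num)
    have h5 : l x = ((x.2 : ℝ) + 2) * Real.log (q x.1) := by
      simp only [hl]
      unfold lam
      push_cast
      ring
    have h6 : Real.log 2 ≤ Real.log (q x.1) := Real.log_le_log (by norm_num) (G.two_le' x.1)
    have h7 : Real.log 2 ≤ l x := by
      rw [h5]
      have : (0 : ℝ) ≤ x.2 := Nat.cast_nonneg _
      nlinarith
    rw [← div_eq_inv_mul, le_div_iff₀ hlog2]
    exact mul_le_mul_of_nonneg_left h7 (norm_nonneg _)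
  have h2 := conv_Asc Λ γ hl0 hs hs'
  have h1 : Asc Λ (Su q β 2 γ) n (-r₀) := by
    unfold Asc
    unfold Asy at h
    refine h.congr_left fun T => ?_
    ring
  have h3 := Asc'.add h1 h2
  rw [add_zero] at h3
  refine ⟨_, Asc'.congr h3 fun T hT => ?_⟩
  have st : Summable fun x => cc q β 2 x * Wt γ (lam q x / T) := by
    have := (G.tm_summable (s₀ := 2) (by norm_num) γ hT).of_norm
    refine this.neg.congr fun x => ?_
    rw [tm_Wt, neg_neg]
  obtain ⟨e1, -, -⟩ := split st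
  rw [Su_Wt, e1]
  have e2 : ∀ v, cc q β 2 (v, 0) * Wt γ (lam q (v, 0) / T) =
      cc q β 2 (v, 0) * Wt γ (Real.log (q v) / T) := by
    intro v
    have l2 : lam q (v, 0) = Real.log (q v) := by unfold lam; simp
    rw [l2]
  simp only [e2]
  have e3 : ∑' v, -cc q β 2 (v, 0) * Wt γ (Real.log (q v) / T) =
      -∑' v, cc q β 2 (v, 0) * Wt γ (Real.log (q v) / T) := by
    rw [← tsum_neg]
    exact tsum_congr fun v => by ring
  rw [e3]
  ring

end Pool.Agent.X278.AV
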