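import Pool.Agent.X278.AV.Gen2

/-!
# The family of the quadratic twists of an elliptic curve
-/

set_option autoImplicit false

namespace Pool.Agent.X278.AV

open Filter Topology Asymptotics Finset
open Pool.Agent.W189.ML Pool.Agent.X287.CR Pool.Agent.X278.OP
open Pool.Agent.W187.UR (Lam)
open Pool.Agent.TH942.ES (rt rt_norm rt_prod rt_log)

section

variable {k : Type} [Field k] [Fintype k] [DecidableEq k]

/-- the mean of the local function over the twists -/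
theorem ff_twists {a b : k} (h : (6 : k) * (4 * a ^ 3 + 27 * b ^ 2) ≠ 0) :
    |(∑ d : k, ff (a * d ^ 2) (b * d ^ 3)) / (Fintype.card k : ℝ) +
      ((TT a b : ℝ) ^ 2 - 2 * Fintype.card k) / (2 * (Fintype.card k : ℝ) ^ 2)| ≤
      2300 / (√(Fintype.card k) * Fintype.card k) := by
  have h6 : (6 : k) ≠ 0 := left_ne_zero_of_mul h
  set q : ℝ := ((Fintype.card k : ℕ) : ℝ) with hqd
  have hq1 : (1 : ℝ) ≤ q := by
    rw [hqd]
    exact_mod_cast (Fintype.card_pos : 0 < Fintype.card k)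
  have hq0 : 0 < q := by linarith
  set r : ℝ := √q with hr
  have hr0 : 0 < r := Real.sqrt_pos.2 hq0
  have hrq : r ^ 2 = q := Real.sq_sqrt hq0.le
  have hr1 : 1 ≤ r := Real.one_le_sqrt.2 hq1
  set t : ℝ := ((TT a b : ℤ) : ℝ) with ht
  have htb : |t| ≤ 2 * r := TT_bound h
  have ht2 : t ^ 2 ≤ 4 * q := by
    rw [← hrq, ← sq_abs]
    nlinarith [abs_nonneg t]
  rcases Nat.lt_or_ge (Fintype.card k) 17 with hs | hs
  · have hqs : q ≤ 17 := by
      rw [hqd]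
      exact_mod_cast hs.le
    have hr5 : r ≤ 5 := by
      rw [hr]
      apply Real.sqrt_le_iff.2
      constructor <;> linarith
    have h1 : |(∑ d : k, ff (a * d ^ 2) (b * d ^ 3)) / q| ≤ 18 := by
      rw [abs_div, abs_of_pos hq0, div_le_iff₀ hq0]
      refine (Finset.abs_sum_le_sum_abs _ _).trans ?_
      calc ∑ d : k, |ff (a * d ^ 2) (b * d ^ 3)| ≤ ∑ _d : k, (q + 1) := Finset.sum_le_sum fun d _ => ff_small
        _ = q * (q + 1) := by rw [Finset.sum_const, Finset.card_univ, nsmul_eq_mul]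
        _ ≤ 18 * q := by nlinarith
    have h2 : |(t ^ 2 - 2 * q) / (2 * q ^ 2)| ≤ 3 := by
      rw [abs_div, abs_of_pos (by positivity : 0 < 2 * q ^ 2), div_le_iff₀ (by positivity)]
      rw [abs_le]
      constructor <;> nlinarith [sq_nonneg t]
    have h4 : 21 ≤ 2300 / (r * q) := by
      rw [le_div_iff₀ (by positivity)]
      have : r * q ≤ 5 * 17 := mul_le_mul hr5 hqs hq0.le (by norm_num)
      linarith
    have h5 := abs_add_le ((∑ d : k, ff (a * d ^ 2) (b * d ^ 3)) / q) ((t ^ 2 - 2 * q) / (2 * q ^ 2))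
    linarith
  -- large fields
  have hzero : ff (a * (0 : k) ^ 2) (b * (0 : k) ^ 3) = 0 := by
    unfold ff
    rw [if_pos (by ring)]
  set g : k → ℝ := fun d => (1 + ((quadraticChar k d : ℤ) : ℝ) * t) / q -
    (1 + ((quadraticChar k d : ℤ) : ℝ) * t) ^ 2 / (2 * q ^ 2) with hg
  have hcmp : ∀ d : k, d ≠ 0 → |ff (a * d ^ 2) (b * d ^ 3) - g d| ≤ 81 / (r * q) := by
    intro d hd
    have h1 : (6 : k) * (4 * (a * d ^ 2) ^ 3 + 27 * (b * d ^ 3) ^ 2) ≠ 0 := by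
      have e1 : (6 : k) * (4 * (a * d ^ 2) ^ 3 + 27 * (b * d ^ 3) ^ 2) =
          (6 * (4 * a ^ 3 + 27 * b ^ 2)) * d ^ 6 := by ring
      rw [e1]
      exact mul_ne_zero h (pow_ne_zero _ hd)
    have h2 := (ff_exp h1 hs).1
    rw [TT_twist hd] at h2
    push_cast at h2
    exact h2
  have hsum : ∑ d : k, ff (a * d ^ 2) (b * d ^ 3) = ∑ d ∈ univ.erase (0 : k), ff (a * d ^ 2) (b * d ^ 3) := by
    rw [← Finset.add_sum_erase _ _ (mem_univ (0 : k)), hzero, zero_add]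
  have hsum1 : |∑ d ∈ univ.erase (0 : k), ff (a * d ^ 2) (b * d ^ 3) - ∑ d ∈ univ.erase (0 : k), g d| ≤
      q * (81 / (r * q)) := by
    rw [← Finset.sum_sub_distrib]
    refine (Finset.abs_sum_le_sum_abs _ _).trans ((Finset.sum_le_sum fun d hd =>
      hcmp d (Finset.ne_of_mem_erase hd)).trans ?_)
    rw [Finset.sum_const, nsmul_eq_mul]
    have : ((univ.erase (0 : k)).card : ℝ) ≤ q := by
      rw [hqd]
      exact_mod_cast Finset.card_le_univ _
    gcongr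
  have hχ0 : ∑ d ∈ univ.erase (0 : k), ((quadraticChar k d : ℤ) : ℝ) = 0 := by
    have h1 := quadraticChar_sum_zero (ringChar_ne h6)
    rw [← Finset.add_sum_erase _ _ (mem_univ (0 : k)), quadraticChar_zero, zero_add] at h1
    exact_mod_cast h1
  have hcard : ((univ.erase (0 : k)).card : ℝ) = q - 1 := by
    rw [Finset.card_erase_of_mem (mem_univ _), Finset.card_univ, hqd, Nat.cast_sub Fintype.card_pos]
    push_cast
    rfl
  have hgs : ∑ d ∈ univ.erase (0 : k), g d = (q - 1) * (1 / q - (1 + t ^ 2) / (2 * q ^ 2)) := by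
    have e1 : ∀ d ∈ univ.erase (0 : k), g d = (1 / q - (1 + t ^ 2) / (2 * q ^ 2)) +
        (t / q - t / q ^ 2) * ((quadraticChar k d : ℤ) : ℝ) := by
      intro d hd
      have h1 := quadraticChar_sq_one (Finset.ne_of_mem_erase hd)
      have h2 : ((quadraticChar k d : ℤ) : ℝ) ^ 2 = 1 := by exact_mod_cast h1
      rw [hg]
      simp only
      field_simp
      linear_combination (-t ^ 2) * h2
    rw [Finset.sum_congr rfl e1, Finset.sum_add_distrib, ← Finset.mul_sum, hχ0, Finset.sum_const,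
      nsmul_eq_mul, hcard]
    ring
  rw [hsum]
  set F := ∑ d ∈ univ.erase (0 : k), ff (a * d ^ 2) (b * d ^ 3) with hF
  rw [hgs] at hsum1
  have e1 : F / q + (t ^ 2 - 2 * q) / (2 * q ^ 2) =
      (F - (q - 1) * (1 / q - (1 + t ^ 2) / (2 * q ^ 2))) / q +
      (-(1 / q ^ 2) - 1 / (2 * q ^ 2) + (1 + t ^ 2) / (2 * q ^ 3)) := by
    field_simp
    ring
  rw [e1]
  have h3 : |(F - (q - 1) * (1 / q - (1 + t ^ 2) / (2 * q ^ 2))) / q| ≤ 81 / (r * q) := by
    rw [abs_div, abs_of_pos hq0, div_le_iff₀ hq0, mul_comm (81 / (r * q)) q]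
    exact hsum1
  have h4 : |-(1 / q ^ 2) - 1 / (2 * q ^ 2) + (1 + t ^ 2) / (2 * q ^ 3)| ≤ 5 / (r * q) := by
    have h5 : (1 : ℝ) / q ^ 2 ≤ 1 / (r * q) := by
      apply one_div_le_one_div_of_le (by positivity)
      rw [← hrq]
      have : r ^ 3 ≤ r ^ 4 := pow_le_pow_right₀ hr1 (by norm_num)
      nlinarith
    have h6' : (1 + t ^ 2) / (2 * q ^ 3) ≤ 5 / 2 * (1 / q ^ 2) := by
      rw [mul_one_div, div_le_div_iff₀ (by positivity) (by positivity)]
      have : (1 + t ^ 2) ≤ 5 * q := by linarith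
      calc (1 + t ^ 2) * q ^ 2 ≤ (5 * q) * q ^ 2 := by gcongr
        _ = 5 / 2 * (2 * q ^ 3) := by ring
    have h7 : 0 ≤ (1 + t ^ 2) / (2 * q ^ 3) := by positivity
    have h8 : (1 : ℝ) / (2 * q ^ 2) = 1 / 2 * (1 / q ^ 2) := by ring
    have h9 : (5 : ℝ) / (r * q) = 5 * (1 / (r * q)) := by ring
    rw [h9, abs_le]
    constructor <;> rw [h8] <;> nlinarith
  have h5 := abs_add_le ((F - (q - 1) * (1 / q - (1 + t ^ 2) / (2 * q ^ 2))) / q)
    (-(1 / q ^ 2) - 1 / (2 * q ^ 2) + (1 + t ^ 2) / (2 * q ^ 3))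
  have h8 : (81 : ℝ) / (r * q) + 5 / (r * q) ≤ 2300 / (r * q) := by
    rw [← add_div]
    gcongr
    norm_num
  linarith

end

/-- the exponent -/
def eG : Fin 1 → ℕ := ![2]

/-- the box -/
def aG (X : ℕ) : Fin 1 → ℕ := ![X]

/-- the degenerate point -/
def ZG (x : Fin 1 → ℤ) : Prop := x 0 = 0

theorem dataG : Data 1 eG aG ZG where
  hk := by norm_num
  he := fun j => by fin_cases j; simp [eG]
  ha := fun j => by
    fin_cases j
    exact tendsto_id
  zero := rfl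
  lim := by
    classical
    have h1 : Tendsto (fun X : ℕ => (1 : ℝ) / X) atTop (𝓝 0) := tendsto_const_div_atTop_nhds_zero_nat 1
    refine squeeze_zero' (Eventually.of_forall fun X => ?_) ?_ h1
    · have hP : (0 : ℝ) ≤ ∏ j, (2 * (aG X j : ℝ)) := Finset.prod_nonneg fun j _ => by positivity
      positivity
    filter_upwards [eventually_ge_atTop 1] with X hX
    have hX' : (1 : ℝ) ≤ X := by exact_mod_cast hX
    have h4 : ((Box (aG X)).filter ZG).card ≤ 1 := by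
      rw [Finset.card_le_one]
      intro x hx y hy
      rw [mem_filter] at hx hy
      have hx2 : x 0 = 0 := hx.2
      have hy2 : y 0 = 0 := hy.2
      funext j
      fin_cases j
      exact hx2.trans hy2.symm
    have h5 : (((Box (aG X)).filter ZG).card : ℝ) ≤ 1 := by exact_mod_cast h4
    have h6 : ∏ j, (2 * (aG X j : ℝ)) = 2 * X := by
      rw [Fin.prod_univ_one]
      rfl
    rw [h6, div_le_div_iff₀ (by positivity) (by linarith)]
    nlinarith

/-- the local functions -/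
noncomputable def fG (A B : ℤ) (p : Nat.Primes) (r : Fin 1 → ZMod p) : ℝ :=
  ff ((A : ZMod p) * r 0 ^ 2) ((B : ZMod p) * r 0 ^ 3)

theorem sysG (A B : ℤ) : Sys0 1 eG aG ZG (fG A B) where
  data := dataG
  zero := fun p => by
    unfold fG ff
    simp
  size := ⟨100, by norm_num, fun p r => by
    have := ff_size (a := (A : ZMod p) * r 0 ^ 2) (b := (B : ZMod p) * r 0 ^ 3)
    rw [ZMod.card] at this
    exact this⟩

theorem avgG (A B : ℤ) (p : Nat.Primes) :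
    avg (fG A B p) = (∑ d : ZMod p, ff ((A : ZMod p) * d ^ 2) ((B : ZMod p) * d ^ 3)) / ((p : ℕ) : ℝ) := by
  unfold avg
  rw [pow_one]
  congr 1
  exact Fintype.sum_equiv (Equiv.funUnique (Fin 1) (ZMod p)) _ _ fun r => rfl

open Classical in
/-- the first coefficients of the square system -/
theorem cc_sq (A B : ℤ) (p : Nat.Primes) : cc pq (sq (qal A B)) 2 (p, 0) =
    ((if GoodQ A B p then (((TT (A : ZMod p) (B : ZMod p) : ℤ) : ℝ) ^ 2 - 2 * (p : ℕ)) / ((p : ℕ) : ℝ) ^ 2 else 0 : ℝ) : ℂ) := by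
  classical
  have hn0 : (0 : ℝ) < (p : ℕ) := by exact_mod_cast p.2.pos
  have h1 : 0 < √((p : ℕ) : ℝ) := Real.sqrt_pos.2 hn0
  have h2 : √((p : ℕ) : ℝ) ^ 2 = (p : ℕ) := Real.sq_sqrt hn0.le
  have hnc : ((p : ℕ) : ℂ) ≠ 0 := by exact_mod_cast hn0.ne'
  have l2 : lam pq (p, 0) = Real.log (p : ℕ) := by unfold lam pq; simp
  have hx : Complex.exp (-((2 : ℂ) * (Real.log (p : ℕ) : ℝ))) = (((p : ℕ) : ℂ) ^ 2)⁻¹ := by
    rw [Complex.exp_neg]
    congr 1
    have : ((2 : ℂ) * (Real.log (p : ℕ) : ℝ)) = ((2 : ℕ) : ℂ) * (Real.log (p : ℕ) : ℝ) := by push_cast; ring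
    rw [this, Complex.exp_nat_mul, ← Complex.ofReal_exp, Real.exp_log hn0]
    push_cast
    rfl
  unfold cc
  rw [l2, hx]
  by_cases h : GoodQ A B p
  · rw [if_pos h]
    have ht := trQ_abs p.2 h
    set t : ℝ := trQ A B p with htd
    have p1 : rt t 0 + rt t 1 = 2 * t := by
      have e0 : rt t 0 = t + √(1 - t ^ 2) * Complex.I := rfl
      have e1 : rt t 1 = t - √(1 - t ^ 2) * Complex.I := rfl
      rw [e0, e1]; ring
    have p2 : rt t 0 * rt t 1 = 1 := by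
      have h3 := rt_prod ht 1
      have h4 : (1 - rt t 0 * 1) * (1 - rt t 1 * 1) = 1 - (rt t 0 + rt t 1) + rt t 0 * rt t 1 := by ring
      rw [h4, p1] at h3
      linear_combination h3
    have h3 : t * (2 * √((p : ℕ) : ℝ)) = -((TT (A : ZMod p) (B : ZMod p) : ℤ) : ℝ) := by
      have h6 : (6 : ZMod p) ≠ 0 := left_ne_zero_of_mul h
      have h4 := pts_eq h6 (A : ZMod p) (B : ZMod p)
      rw [ZMod.card] at h4
      have h5 : ((pts (A : ZMod p) (B : ZMod p) : ℕ) : ℝ) = (p : ℕ) + ((TT (A : ZMod p) (B : ZMod p) : ℤ) : ℝ) := by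
        exact_mod_cast h4
      have h7 : ptsQ A B p = pts (A : ZMod p) (B : ZMod p) := rfl
      rw [htd]
      unfold trQ
      rw [h7, h5]
      field_simp
      ring
    have h4 : 4 * t ^ 2 * (p : ℕ) = ((TT (A : ZMod p) (B : ZMod p) : ℤ) : ℝ) ^ 2 := by
      have := congrArg (fun z => z ^ 2) h3
      simp only [neg_sq] at this
      rw [← this, mul_pow, mul_pow, h2]
      ring
    have h5 : ∑ i, sq (qal A B) p i ^ (0 + 1) = (((((TT (A : ZMod p) (B : ZMod p) : ℤ) : ℝ) ^ 2 - 2 * (p : ℕ)) : ℝ) : ℂ) := by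
      have h9 : ∀ i, Pool.Agent.X278.OP.sq (qal A B) p i = (((√((p : ℕ) : ℝ) : ℝ) : ℂ) * rt t i) ^ 2 := by
        intro i
        unfold Pool.Agent.X278.OP.sq qal
        rw [if_pos h]
      rw [Fin.sum_univ_two, ← h4, h9, h9, zero_add, pow_one, pow_one]
      have h2c : ((√((p : ℕ) : ℝ) : ℝ) : ℂ) ^ 2 = ((p : ℕ) : ℂ) := by
        rw [← Complex.ofReal_pow, h2]
        push_cast
        rfl
      push_cast
      have e1 : (((√((p : ℕ) : ℝ) : ℝ) : ℂ) * rt t 0) ^ 2 + (((√((p : ℕ) : ℝ) : ℝ) : ℂ) * rt t 1) ^ 2 =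
          ((√((p : ℕ) : ℝ) : ℝ) : ℂ) ^ 2 * ((rt t 0 + rt t 1) ^ 2 - 2 * (rt t 0 * rt t 1)) := by ring
      rw [e1, h2c, p1, p2]
      ring
    simp only [h5]
    push_cast
    field_simp
    norm_num
  · rw [if_neg h, Fin.sum_univ_two]
    unfold Pool.Agent.X278.OP.sq qal
    simp [h]

theorem exG (A B : ℤ) (p : Nat.Primes) :
    ‖((Ex (∑ j, eG j) (p : ℕ) (fG A B p) : ℝ) : ℂ) - (1 / 2) * -cc pq (sq (qal A B)) 2 (p, 0)‖ ≤
    6000 / (√((p : ℕ) : ℝ) * (p : ℕ)) := by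
  classical
  have hp2 : (2 : ℝ) ≤ (p : ℕ) := by exact_mod_cast p.2.two_le
  have hp0 : (0 : ℝ) < (p : ℕ) := by linarith
  have hr0 : 0 < √((p : ℕ) : ℝ) := Real.sqrt_pos.2 hp0
  have h10 : ∑ j, eG j = 2 := by simp [eG]
  rw [cc_sq]
  have e0 : ((Ex (∑ j, eG j) (p : ℕ) (fG A B p) : ℝ) : ℂ) - (1 / 2) * -((if GoodQ A B p then
      (((TT (A : ZMod p) (B : ZMod p) : ℤ) : ℝ) ^ 2 - 2 * (p : ℕ)) / ((p : ℕ) : ℝ) ^ 2 else 0 : ℝ) : ℂ) =
      ((Ex (∑ j, eG j) (p : ℕ) (fG A B p) + (if GoodQ A B p then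
      (((TT (A : ZMod p) (B : ZMod p) : ℤ) : ℝ) ^ 2 - 2 * (p : ℕ)) / ((p : ℕ) : ℝ) ^ 2 else 0) / 2 : ℝ) : ℂ) := by
    push_cast
    ring
  rw [e0, Complex.norm_real, Real.norm_eq_abs]
  by_cases h : GoodQ A B p
  · rw [if_pos h]
    have h1 := ff_twists (k := ZMod p) h
    rw [ZMod.card, ← avgG] at h1
    set t : ℝ := ((TT (A : ZMod p) (B : ZMod p) : ℤ) : ℝ) with ht
    have htb : |t| ≤ 2 * √((p : ℕ) : ℝ) := by
      have := TT_bound (k := ZMod p) h
      rw [ZMod.card] at this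
      exact this
    have ht2 : t ^ 2 ≤ 4 * (p : ℕ) := by
      have h2 : √((p : ℕ) : ℝ) ^ 2 = (p : ℕ) := Real.sq_sqrt hp0.le
      rw [← h2, ← sq_abs]
      nlinarith [abs_nonneg t]
    set ε : ℝ := (((p : ℕ) : ℝ) ^ 2)⁻¹ with hε
    have hε0 : 0 < ε := by positivity
    have hε1 : ε ≤ 1 / (2 * ((p : ℕ) : ℝ)) := by
      rw [hε, ← one_div]
      apply one_div_le_one_div_of_le (by positivity)
      nlinarith
    have hε2 : ε ≤ 1 / 2 := by
      refine hε1.trans (one_div_le_one_div_of_le (by norm_num) ?_)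
      linarith
    unfold Ex
    rw [h10, ← hε]
    set g : ℝ := (t ^ 2 - 2 * (p : ℕ)) / (2 * ((p : ℕ) : ℝ) ^ 2) with hg
    have e1 : avg (fG A B p) / (1 - ε) + (t ^ 2 - 2 * (p : ℕ)) / ((p : ℕ) : ℝ) ^ 2 / 2 =
        (avg (fG A B p) + g - ε * g) / (1 - ε) := by
      have : (1 - ε) ≠ 0 := by linarith
      rw [hg]
      field_simp
      ring
    rw [e1, abs_div, abs_of_pos (by linarith : 0 < 1 - ε), div_le_iff₀ (by linarith)]
    have hgb : |g| ≤ 3 / ((p : ℕ) : ℝ) := by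
      rw [hg, abs_div, abs_of_pos (by positivity : (0 : ℝ) < 2 * ((p : ℕ) : ℝ) ^ 2),
        div_le_div_iff₀ (by positivity) hp0]
      have : |t ^ 2 - 2 * ((p : ℕ) : ℝ)| ≤ 6 * ((p : ℕ) : ℝ) := by
        rw [abs_le]
        constructor <;> nlinarith [sq_nonneg t]
      nlinarith
    have h2 : |ε * g| ≤ 3 / (√((p : ℕ) : ℝ) * (p : ℕ)) := by
      rw [abs_mul, abs_of_pos hε0]
      have h3 : √((p : ℕ) : ℝ) ≤ (p : ℕ) := by
        rw [Real.sqrt_le_left hp0.le]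
        nlinarith
      calc ε * |g| ≤ (1 / (2 * ((p : ℕ) : ℝ))) * (3 / ((p : ℕ) : ℝ)) := by gcongr
        _ ≤ (1 / ((p : ℕ) : ℝ)) * (3 / ((p : ℕ) : ℝ)) := by
            gcongr
            linarith
        _ ≤ (1 / √((p : ℕ) : ℝ)) * (3 / ((p : ℕ) : ℝ)) := by gcongr
        _ = _ := by field_simp
    have h3 := abs_sub (avg (fG A B p) + g) (ε * g)
    have h4 : (2303 : ℝ) / (√((p : ℕ) : ℝ) * (p : ℕ)) ≤ 6000 / (√((p : ℕ) : ℝ) * (p : ℕ)) * (1 - ε) := by
      rw [div_mul_eq_mul_div]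
      gcongr
      linarith
    have h5 : (2303 : ℝ) / (√((p : ℕ) : ℝ) * (p : ℕ)) = 2300 / (√((p : ℕ) : ℝ) * (p : ℕ)) +
      3 / (√((p : ℕ) : ℝ) * (p : ℕ)) := by ring
    linarith
  · rw [if_neg h]
    have h1 : avg (fG A B p) = 0 := by
      rw [avgG]
      have h2 : ∀ d : ZMod p, ff ((A : ZMod p) * d ^ 2) ((B : ZMod p) * d ^ 3) = 0 := by
        intro d
        unfold ff
        rw [if_pos]
        have e1 : (6 : ZMod p) * (4 * ((A : ZMod p) * d ^ 2) ^ 3 + 27 * ((B : ZMod p) * d ^ 3) ^ 2) =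
            (6 * (4 * (A : ZMod p) ^ 3 + 27 * (B : ZMod p) ^ 2)) * d ^ 6 := by ring
        rw [e1, not_not.1 h, zero_mul]
      simp [h2]
    unfold Ex
    rw [h1]
    simp
    positivity

open Classical in
/-- the Euler factor of the squares -/
noncomputable def efQ2 (A B : ℤ) (s : ℂ) (p : Nat.Primes) : ℂ :=
  if GoodQ A B p then (1 - ((((p : ℕ) : ℂ) - ptsQ A B p) ^ 2 - 2 * (p : ℕ)) * ((p : ℕ) : ℂ) ^ (-s) +
    ((p : ℕ) : ℂ) ^ (2 - 2 * s))⁻¹ else 1

theorem fac_qal2 (A B : ℤ) (s : ℂ) :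
    Pool.Agent.X287.CR.fac pq (Pool.Agent.X278.OP.sq (qal A B)) s = efQ2 A B s := by
  funext p
  have hn0 : (0 : ℝ) < (p : ℕ) := by exact_mod_cast p.2.pos
  have h1 : 0 < √((p : ℕ) : ℝ) := Real.sqrt_pos.2 hn0
  have h1c : ((√((p : ℕ) : ℝ) : ℝ) : ℂ) ≠ 0 := by exact_mod_cast h1.ne'
  have hnc : ((p : ℕ) : ℂ) ≠ 0 := by exact_mod_cast hn0.ne'
  have h2 : ((√((p : ℕ) : ℝ) : ℝ) : ℂ) ^ 2 = ((p : ℕ) : ℂ) := by
    rw [← Complex.ofReal_pow, Real.sq_sqrt hn0.le]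
    push_cast
    rfl
  unfold efQ2
  by_cases h : GoodQ A B p
  · rw [if_pos h]
    unfold Pool.Agent.X287.CR.fac
    rw [Fin.prod_univ_two, ← mul_inv]
    congr 1
    set r : ℂ := ((√((p : ℕ) : ℝ) : ℝ) : ℂ) with hr
    set x : ℂ := ((p : ℕ) : ℂ) ^ (-s) with hx
    have hNN : ((pq p : ℕ) : ℂ) ^ (-s) = x := rfl
    rw [hNN]
    have e1 : ((p : ℕ) : ℂ) ^ (2 - 2 * s) = (r ^ 2 * x) ^ 2 := by
      rw [mul_pow, h2, hx, ← Complex.cpow_nat_mul]
      rw [Complex.cpow_sub _ _ hnc]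
      have h3 : ((p : ℕ) : ℂ) ^ (2 : ℂ) = ((p : ℕ) : ℂ) ^ 2 := by
        have := Complex.cpow_natCast ((p : ℕ) : ℂ) 2
        simpa using this
      rw [h3, show ((2 : ℕ) : ℂ) * -s = -(2 * s) by push_cast; ring, Complex.cpow_neg, div_eq_mul_inv]
    have ht := trQ_abs p.2 h
    set t : ℝ := trQ A B p with htd
    have p1 : rt t 0 + rt t 1 = 2 * t := by
      have e0 : rt t 0 = t + √(1 - t ^ 2) * Complex.I := rfl
      have e1 : rt t 1 = t - √(1 - t ^ 2) * Complex.I := rfl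
      rw [e0, e1]; ring
    have p2 : rt t 0 * rt t 1 = 1 := by
      have h3 := rt_prod ht 1
      have h4 : (1 - rt t 0 * 1) * (1 - rt t 1 * 1) = 1 - (rt t 0 + rt t 1) + rt t 0 * rt t 1 := by ring
      rw [h4, p1] at h3
      linear_combination h3
    have e3 : (1 - sq (qal A B) p 0 * x) * (1 - sq (qal A B) p 1 * x) =
        1 - ((rt t 0 + rt t 1) ^ 2 - 2 * (rt t 0 * rt t 1)) * (r ^ 2 * x) +
          (rt t 0 * rt t 1) ^ 2 * (r ^ 2 * x) ^ 2 := by
      unfold Pool.Agent.X278.OP.sq qal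
      rw [if_pos h, if_pos h]
      ring
    rw [e3, p1, p2, e1]
    have e4 : 2 * (t : ℂ) * r = ((p : ℕ) : ℂ) - ptsQ A B p := by
      rw [htd]
      unfold trQ
      push_cast
      rw [← hr]
      field_simp
    rw [← e4, ← h2]
    ring
  · rw [if_neg h]
    unfold Pool.Agent.X287.CR.fac Pool.Agent.X278.OP.sq qal
    simp [h]

/-- **the law of the means** -/
theorem ascG (A B : ℤ) {F₂ : ℂ → ℂ} (hF : ∀ s : ℂ, 2 < s.re → HasProd (efQ2 A B s) (F₂ s))
    (hm : MeromorphicAt F₂ 2) {γ : ℝ} (hγ : Real.pi / 2 < γ) :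
    ∃ (n : ℤ) (C : ℂ), meromorphicOrderAt F₂ 2 = n ∧ Asc (Lam γ) (AA eG (fG A B) γ) ((n / 2 : ℝ) : ℂ) C := by
  have G2 := sq_sys (qal_sys A B)
  obtain ⟨n, ρ₂, k1, -, k3⟩ := G2.law (L := F₂) (fun s hs => by
    have h4 := hF s (by linarith)
    rw [← fac_qal2] at h4
    exact h4) (s₀ := 2) (by norm_num) (fun x hx0 hx1 => by
      have h5 : x = 0 := by
        have : (2 : ℂ).re = 2 := by simp
        rw [this] at hx1
        linarith
      rw [h5]
      simpa using hm) hγ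
  obtain ⟨C₁, h1⟩ := first_powers G2 k3
  have h2 := Asc'.const_mul (1 / 2) h1
  have h3 : Asc (Lam γ) (fun T => ∑' v : Nat.Primes, ((1 / 2) * -cc pq (sq (qal A B)) 2 (v, 0)) *
      Wt γ (Real.log (v : ℕ) / T)) (1 / 2 * n) (1 / 2 * C₁) := by
    refine Asc'.congr h2 fun T _ => ?_
    rw [← tsum_mul_left]
    refine tsum_congr fun v => ?_
    have : (pq v : ℕ) = (v : ℕ) := rfl
    rw [this]
    ring
  obtain ⟨C', h4⟩ := Asc_cmp (e' := fun p => ((Ex (∑ j, eG j) (p : ℕ) (fG A B p) : ℝ) : ℂ)) h3 (fun T hT => by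
    have st : Summable fun x => cc pq (sq (qal A B)) 2 x * Wt γ (lam pq x / T) := by
      have := (G2.tm_summable (s₀ := 2) (by norm_num) γ hT).of_norm
      refine this.neg.congr fun x => ?_
      rw [tm_Wt, neg_neg]
    obtain ⟨-, s0, -⟩ := split st
    refine (s0.mul_left (-(1 / 2))).congr fun v => ?_
    have l2 : lam pq (v, 0) = Real.log (v : ℕ) := by unfold lam pq; simp
    rw [l2]
    ring) (exG A B)
  refine ⟨n, C', k1, ?_⟩
  have e1 : (((n / 2 : ℝ)) : ℂ) = 1 / 2 * n := by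
    push_cast
    ring
  rw [e1]
  exact h4

end Pool.Agent.X278.AV
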