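import Pool.Agent.X278.AV.Gen

/-!
# The family of all elliptic curves over the rational numbers by height
-/

set_option autoImplicit false

namespace Pool.Agent.X278.AV

open Filter Topology Asymptotics Finset

/-- the exponents -/
def eH : Fin 2 → ℕ := ![4, 6]

/-- the largest `n` with `4 n³ ≤ X` -/
def aH (X : ℕ) : ℕ := Nat.findGreatest (fun n => 4 * n ^ 3 ≤ X) X

/-- the largest `n` with `27 n² ≤ X` -/
def bH (X : ℕ) : ℕ := Nat.findGreatest (fun n => 27 * n ^ 2 ≤ X) X

theorem le_aH {X n : ℕ} : n ≤ aH X ↔ 4 * n ^ 3 ≤ X := by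
  constructor
  · intro h
    have h1 : 4 * (aH X) ^ 3 ≤ X := Nat.findGreatest_spec (P := fun n => 4 * n ^ 3 ≤ X) (m := 0) (Nat.zero_le _) (by simp)
    have h2 : n ^ 3 ≤ (aH X) ^ 3 := Nat.pow_le_pow_left h 3
    omega
  · intro h
    refine Nat.le_findGreatest ?_ h
    have : n ≤ n ^ 3 := Nat.le_self_pow (by norm_num) n
    omega

theorem le_bH {X n : ℕ} : n ≤ bH X ↔ 27 * n ^ 2 ≤ X := by
  constructor
  · intro h
    have h1 : 27 * (bH X) ^ 2 ≤ X := Nat.findGreatest_spec (P := fun n => 27 * n ^ 2 ≤ X) (m := 0) (Nat.zero_le _) (by simp)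
    have h2 : n ^ 2 ≤ (bH X) ^ 2 := Nat.pow_le_pow_left h 2
    omega
  · intro h
    refine Nat.le_findGreatest ?_ h
    have : n ≤ n ^ 2 := Nat.le_self_pow (by norm_num) n
    omega

/-- the box -/
def abH (X : ℕ) : Fin 2 → ℕ := ![aH X, bH X]

/-- the degenerate points -/
def ZH (x : Fin 2 → ℤ) : Prop := 4 * x 0 ^ 3 + 27 * x 1 ^ 2 = 0

theorem tendsto_aH : Tendsto aH atTop atTop :=
  tendsto_atTop.2 fun b => eventually_atTop.2 ⟨4 * b ^ 3, fun _ hX => le_aH.2 hX⟩

theorem tendsto_bH : Tendsto bH atTop atTop :=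
  tendsto_atTop.2 fun b => eventually_atTop.2 ⟨27 * b ^ 2, fun _ hX => le_bH.2 hX⟩

theorem dataH : Data 2 eH abH ZH where
  hk := by norm_num
  he := fun j => by fin_cases j <;> simp [eH]
  ha := fun j => by
    fin_cases j
    · exact tendsto_aH
    · exact tendsto_bH
  zero := by unfold ZH; simp
  lim := by
    classical
    have h1 : Tendsto (fun X => (2 : ℝ) / aH X) atTop (𝓝 0) :=
      tendsto_const_nhds.div_atTop (tendsto_natCast_atTop_atTop.comp tendsto_aH)
    refine squeeze_zero' (Eventually.of_forall fun X => ?_) ?_ h1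
    · have hP : (0 : ℝ) ≤ ∏ j, (2 * (abH X j : ℝ)) := Finset.prod_nonneg fun j _ => by positivity
      positivity
    filter_upwards [tendsto_aH.eventually_ge_atTop 1, tendsto_bH.eventually_ge_atTop 1] with X h2 h3
    have h2' : (1 : ℝ) ≤ aH X := by exact_mod_cast h2
    have h3' : (1 : ℝ) ≤ bH X := by exact_mod_cast h3
    have h4 : ((Box (abH X)).filter ZH).card ≤ 2 * bH X + 1 := by
      have h5 : ((Box (abH X)).filter ZH).card ≤ (Icc (-(bH X : ℤ)) (bH X)).card := by
        refine Finset.card_le_card_of_injOn (fun x => x 1) (fun x hx => ?_) (fun x hx y hy hxy => ?_)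
        · rw [mem_coe, mem_filter, mem_Box] at hx
          have := hx.1 1
          rw [mem_coe, mem_Icc]
          exact abs_le.1 this
        · rw [mem_coe, mem_filter] at hx hy
          have hx2 := hx.2
          have hy2 := hy.2
          unfold ZH at hx2 hy2
          have hxy' : x 1 = y 1 := hxy
          have h6 : x 0 ^ 3 = y 0 ^ 3 := by rw [hxy'] at hx2; linarith
          have h7 : x 0 = y 0 := (Odd.strictMono_pow (by decide : Odd 3)).injective h6
          funext j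
          fin_cases j
          · exact h7
          · exact hxy'
      rw [Int.card_Icc] at h5
      omega
    have h5 : (((Box (abH X)).filter ZH).card : ℝ) ≤ 2 * bH X + 1 := by exact_mod_cast h4
    have h6 : ∏ j, (2 * (abH X j : ℝ)) = 4 * (aH X * bH X) := by
      rw [Fin.prod_univ_two]
      simp only [abH, Matrix.cons_val_zero, Matrix.cons_val_one]
      ring
    rw [h6, div_le_div_iff₀ (by positivity) (by linarith)]
    calc (((Box (abH X)).filter ZH).card : ℝ) * aH X ≤ (2 * bH X + 1) * aH X := by gcongr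
      _ ≤ _ := by nlinarith

/-- the local functions -/
noncomputable def fH (p : Nat.Primes) (r : Fin 2 → ZMod p) : ℝ := ff (r 0) (r 1)

theorem avgH (p : Nat.Primes) : avg (fH p) = (∑ a : ZMod p, ∑ b : ZMod p, ff a b) / ((p : ℕ) : ℝ) ^ 2 := by
  unfold avg
  congr 1
  rw [← Fintype.sum_prod_type' (fun a b : ZMod p => ff a b)]
  exact Fintype.sum_equiv (finTwoArrowEquiv _) _ _ fun r => rfl

theorem exH (p : Nat.Primes) : |Ex (∑ j, eH j) (p : ℕ) (fH p) - (1 / 2 : ℝ) / (p : ℕ)| ≤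
    4002 / (√((p : ℕ) : ℝ) * (p : ℕ)) := by
  have hp2 : (2 : ℝ) ≤ (p : ℕ) := by exact_mod_cast p.2.two_le
  have hp0 : (0 : ℝ) < (p : ℕ) := by linarith
  have hr0 : 0 < √((p : ℕ) : ℝ) := Real.sqrt_pos.2 hp0
  have h10 : ∑ j, eH j = 10 := by simp [eH]
  have h1 := ff_mean (k := ZMod p) (by
    rcases Nat.lt_or_ge (p : ℕ) 17 with h | h
    · right
      rwa [ZMod.card]
    · left
      intro h6
      have h7 : ((6 : ℕ) : ZMod p) = 0 := by push_cast; exact h6
      rw [ZMod.natCast_eq_zero_iff] at h7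
      have := Nat.le_of_dvd (by norm_num) h7
      omega)
  rw [ZMod.card, ← avgH] at h1
  set ε : ℝ := (((p : ℕ) : ℝ) ^ 10)⁻¹ with hε
  have hε0 : 0 < ε := by positivity
  have hε1 : ε ≤ 1 / ((p : ℕ) : ℝ) := by
    rw [hε, ← one_div]
    apply one_div_le_one_div_of_le hp0
    have : ((p : ℕ) : ℝ) ^ 1 ≤ ((p : ℕ) : ℝ) ^ 10 := pow_le_pow_right₀ (by linarith) (by norm_num)
    simpa using this
  have hε2 : ε ≤ 1 / 2 := hε1.trans (one_div_le_one_div_of_le (by norm_num) hp2)
  unfold Ex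
  rw [h10, ← hε]
  have e1 : avg (fH p) / (1 - ε) - (1 / 2 : ℝ) / (p : ℕ) =
      (avg (fH p) - 1 / (2 * (p : ℕ)) + ε * (1 / (2 * (p : ℕ)))) / (1 - ε) := by
    have : (1 - ε) ≠ 0 := by linarith
    field_simp
    ring
  rw [e1, abs_div, abs_of_pos (by linarith : 0 < 1 - ε), div_le_iff₀ (by linarith)]
  have h2 : |ε * (1 / (2 * ((p : ℕ) : ℝ)))| ≤ 1 / (√((p : ℕ) : ℝ) * (p : ℕ)) := by
    rw [abs_of_pos (by positivity), mul_one_div, div_le_div_iff₀ (by positivity) (by positivity)]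
    have h3 : √((p : ℕ) : ℝ) ≤ (p : ℕ) := by
      rw [Real.sqrt_le_left hp0.le]
      nlinarith
    have h4 : ε * √((p : ℕ) : ℝ) ≤ 1 := by
      calc ε * √((p : ℕ) : ℝ) ≤ (1 / ((p : ℕ) : ℝ)) * (p : ℕ) := by gcongr
        _ = 1 := by field_simp
    nlinarith
  have h3 := abs_add_le (avg (fH p) - 1 / (2 * ((p : ℕ) : ℝ))) (ε * (1 / (2 * ((p : ℕ) : ℝ))))
  have h4 : (2001 : ℝ) / (√((p : ℕ) : ℝ) * (p : ℕ)) ≤ 4002 / (√((p : ℕ) : ℝ) * (p : ℕ)) * (1 - ε) := by
    rw [div_mul_eq_mul_div]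
    gcongr
    linarith
  have h5 : (2001 : ℝ) / (√((p : ℕ) : ℝ) * (p : ℕ)) = 2000 / (√((p : ℕ) : ℝ) * (p : ℕ)) +
      1 / (√((p : ℕ) : ℝ) * (p : ℕ)) := by ring
  linarith

/-- **the family of all elliptic curves by height** -/
theorem sysH : Sys 2 eH abH ZH fH (1 / 2) where
  data := dataH
  zero := fun p => by
    unfold fH ff
    simp
  size := ⟨100, by norm_num, fun p r => by
    have := ff_size (a := r 0) (b := r 1)
    rw [ZMod.card] at this
    exact this⟩
  ex := ⟨4002, exH⟩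

end Pool.Agent.X278.AV
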