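import Pool.Agent.X278.AV.Prog2
import Mathlib.Analysis.Normed.Ring.InfiniteProd

/-!
# Means of infinite products over a family
-/

set_option autoImplicit false

namespace Pool.Agent.X278.AV

open Finset Filter Topology

variable {ι P : Type}

/-- independent local functions -/
structure Ind (F : ℕ → Finset ι) (g : P → ι → ℂ) (b : P → ℝ) (e : P → ℂ) : Prop where
  bd : ∀ p, ∀ X, ∀ i ∈ F X, ‖g p i‖ ≤ b p
  fin : ∀ I : Finset P, Tendsto (fun X => meanC (F X) (fun i => ∏ p ∈ I, g p i)) atTop (𝓝 (∏ p ∈ I, e p))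
  ne : ∀ᶠ X in atTop, (F X).Nonempty

variable {F : ℕ → Finset ι} {g : P → ι → ℂ} {b : P → ℝ} {e : P → ℂ}

theorem meanC_le {G : Finset ι} {f : ι → ℂ} {c : ℝ} (hc : 0 ≤ c) (h : ∀ i ∈ G, ‖f i‖ ≤ c) : ‖meanC G f‖ ≤ c := by
  unfold meanC
  rcases Finset.eq_empty_or_nonempty G with rfl | hG
  · simpa using hc
  have h1 : (0 : ℝ) < G.card := by exact_mod_cast hG.card_pos
  rw [norm_div, Complex.norm_natCast, div_le_iff₀ h1]
  calc ‖∑ i ∈ G, f i‖ ≤ ∑ i ∈ G, ‖f i‖ := norm_sum_le _ _
    _ ≤ ∑ _i ∈ G, c := Finset.sum_le_sum h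
    _ = c * G.card := by rw [Finset.sum_const, nsmul_eq_mul, mul_comm]

theorem Ind.b_nonneg (D : Ind F g b e) (p : P) : 0 ≤ b p := by
  obtain ⟨X, ⟨i, hi⟩⟩ := D.ne.exists
  exact (norm_nonneg _).trans (D.bd p X i hi)

theorem Ind.e_le (D : Ind F g b e) (p : P) : ‖e p‖ ≤ b p := by
  have h1 := D.fin {p}
  simp only [Finset.prod_singleton] at h1
  exact le_of_tendsto h1.norm (Eventually.of_forall fun X => meanC_le (D.b_nonneg p) (D.bd p X))

/-- **the mean of the product** -/
theorem Ind.prod (D : Ind F g b e) (hb : Summable b) :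
    Tendsto (fun X => meanC (F X) (fun i => ∏' p, (1 + g p i))) atTop (𝓝 (∏' p, (1 + e p))) := by
  have hB := summable_finsetProd_of_summable_nonneg D.b_nonneg hb
  have h1 : ∀ X, meanC (F X) (fun i => ∏' p, (1 + g p i)) =
      ∑' I : Finset P, meanC (F X) (fun i => ∏ p ∈ I, g p i) := by
    intro X
    have h2 : ∀ i ∈ F X, ∏' p, (1 + g p i) = ∑' I : Finset P, ∏ p ∈ I, g p i := fun i hi =>
      tprod_one_add (summable_finsetProd_of_summable_norm
        (Summable.of_nonneg_of_le (fun _ => norm_nonneg _) (fun p => D.bd p X i hi) hb))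
    unfold meanC
    rw [Finset.sum_congr rfl h2, ← Summable.tsum_finsetSum, ← tsum_div_const]
    intro i hi
    exact summable_finsetProd_of_summable_norm
      (Summable.of_nonneg_of_le (fun _ => norm_nonneg _) (fun p => D.bd p X i hi) hb)
  simp only [h1]
  have he : Summable fun p => ‖e p‖ := Summable.of_nonneg_of_le (fun _ => norm_nonneg _) D.e_le hb
  rw [tprod_one_add (summable_finsetProd_of_summable_norm he)]
  refine tendsto_tsum_of_dominated_convergence hB (fun I => D.fin I) (Eventually.of_forall fun X I => ?_)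
  refine meanC_le (Finset.prod_nonneg fun p _ => D.b_nonneg p) fun i hi => ?_
  refine (Finset.norm_prod_le _ _).trans ?_
  exact Finset.prod_le_prod (fun p _ => norm_nonneg _) fun p _ => D.bd p X i hi

/-! ### the squarefree numbers in a class -/

/-- complex functions of residue classes -/
theorem SF_sumC {N P : ℕ} [NeZero N] [NeZero P] (hc : N.Coprime P) {b : ZMod N} (hb : IsUnit b)
    (g : ZMod P → ℂ) (hg : ∀ r, ¬ IsUnit r → g r = 0) :
    Tendsto (fun X : ℕ => meanC (SF N b X) (fun d => g (d : ZMod P))) atTop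
      (𝓝 ((∑ r, g r) / P / (AV.fac 2 P : ℝ))) := by
  have h1 := SF_mean hc hb (fun r => (g r).re) (fun r hr => by rw [hg r hr, Complex.zero_re])
  have h2 := SF_mean hc hb (fun r => (g r).im) (fun r hr => by rw [hg r hr, Complex.zero_im])
  have h3 := ((Complex.continuous_ofReal.tendsto _).comp h1).add
    (((Complex.continuous_ofReal.tendsto _).comp h2).mul_const Complex.I)
  have e1 : ((∑ r, (g r).re) / P / AV.fac 2 P : ℝ) + ((∑ r, (g r).im) / P / AV.fac 2 P : ℝ) * Complex.I =
      (∑ r, g r) / P / (AV.fac 2 P : ℝ) := by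
    have h4 : ∑ r, g r = ((∑ r, (g r).re : ℝ) : ℂ) + ((∑ r, (g r).im : ℝ) : ℂ) * Complex.I := by
      push_cast
      rw [Finset.sum_mul, ← Finset.sum_add_distrib]
      exact Finset.sum_congr rfl fun r _ => (Complex.re_add_im _).symm
    rw [h4]
    push_cast
    ring
  rw [e1] at h3
  refine h3.congr fun X => ?_
  simp only [Function.comp_apply]
  unfold meanC mean
  push_cast
  rw [div_mul_eq_mul_div, ← add_div, Finset.sum_mul, ← Finset.sum_add_distrib]
  congr 1
  exact Finset.sum_congr rfl fun d _ => Complex.re_add_im _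

/-- the expected value at a prime -/
noncomputable def EuC (p : ℕ) [NeZero p] (g : ZMod p → ℂ) : ℂ := (∑ r, g r) / p / ((1 - ((p : ℝ) ^ 2)⁻¹ : ℝ) : ℂ)

/-- products over finite sets of primes -/
theorem SF_many {N : ℕ} [NeZero N] (g : (p : Nat.Primes) → ZMod p → ℂ) (hg : ∀ p, g p 0 = 0)
    (I : Finset Nat.Primes) : (∀ p ∈ I, ¬ (p : ℕ) ∣ N) → ∃ (P : ℕ) (_ : NeZero P) (G : ZMod P → ℂ), N.Coprime P ∧
      (∀ q : Nat.Primes, q ∉ I → P.Coprime (q : ℕ)) ∧ (∀ r, ¬ IsUnit r → G r = 0) ∧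
      (∀ d : ℕ, G (d : ZMod P) = ∏ p ∈ I, g p (d : ZMod p)) ∧
      (∑ r, G r) / P / (AV.fac 2 P : ℝ) = ∏ p ∈ I, EuC (p : ℕ) (g p) := by
  classical
  induction I using Finset.induction_on with
  | empty =>
    intro _
    refine ⟨1, inferInstance, fun _ => 1, Nat.coprime_one_right _, fun q _ => Nat.coprime_one_left _, fun r hr => ?_,
      fun d => by simp, ?_⟩
    · exact absurd (isUnit_of_subsingleton r) hr
    · unfold AV.fac
      simp
  | insert q J hq ih =>
    intro h
    obtain ⟨P, hP, G, h1, h2, h3, h4, h5⟩ := ih fun p hp => h p (Finset.mem_insert_of_mem hp)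
    have hqN := h q (Finset.mem_insert_self q J)
    have hqP := h2 q hq
    have : NeZero (P * (q : ℕ)) := ⟨mul_ne_zero (NeZero.ne P) q.2.ne_zero⟩
    set φ := ZMod.chineseRemainder hqP with hφ
    refine ⟨P * q, this, fun r => G (φ r).1 * g q (φ r).2, ?_, ?_, ?_, ?_, ?_⟩
    · exact Nat.Coprime.mul_right h1 ((Nat.Prime.coprime_iff_not_dvd q.2).2 hqN).symm
    · intro q' hq'
      rw [Finset.mem_insert, not_or] at hq'
      refine Nat.Coprime.mul_left (h2 q' hq'.2) ?_
      exact (Nat.coprime_primes q.2 q'.2).2 fun e => hq'.1 (Subtype.ext e).symm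
    · intro r hr
      have h6 : ¬ IsUnit (φ r) := fun h7 => hr (by
        have := h7.map φ.symm
        rwa [RingEquiv.symm_apply_apply] at this)
      rw [Prod.isUnit_iff, not_and_or] at h6
      simp only
      rcases h6 with h6 | h6
      · rw [h3 _ h6, zero_mul]
      · rw [(unit_iff q.2 _).1 h6, hg, mul_zero]
    · intro d
      rw [Finset.prod_insert hq, ← h4 d]
      simp only [map_natCast]
      rw [mul_comm]
      rfl
    · have h6 : ∑ r, G (φ r).1 * g q (φ r).2 = (∑ r, G r) * ∑ r, g q r := by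
        have h7 : (∑ r, G r) * ∑ r, g q r = ∑ x : ZMod P × ZMod q, G x.1 * g q x.2 := by
          rw [Finset.sum_mul_sum, Fintype.sum_prod_type]
        rw [h7]
        exact Fintype.sum_equiv φ.toEquiv _ _ fun r => rfl
      rw [h6, Finset.prod_insert hq, ← h5, fac_mul (NeZero.ne P) q.2.ne_zero hqP, fac_prime 2 q.2]
      unfold EuC
      push_cast
      rw [div_div, div_div, div_div, div_mul_div_comm]
      congr 1
      · ring
      · ring

open Classical in
/-- **the independence** -/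
theorem SF_ind {N : ℕ} [NeZero N] {b : ZMod N} (hb : IsUnit b) {g : (p : Nat.Primes) → ZMod p → ℂ}
    (hg : ∀ p, g p 0 = 0) {B : Nat.Primes → ℝ} (hB : ∀ p, 0 ≤ B p)
    (hgB : ∀ p : Nat.Primes, ¬ (p : ℕ) ∣ N → ∀ r, ‖g p r‖ ≤ B p) :
    Ind (fun X => SF N b X) (fun (p : Nat.Primes) (d : ℕ) => if (p : ℕ) ∣ N then 0 else g p (d : ZMod p))
      B (fun p => if (p : ℕ) ∣ N then 0 else EuC (p : ℕ) (g p)) where
  bd := fun p X d _ => by
    by_cases h : (p : ℕ) ∣ N
    · rw [if_pos h, norm_zero]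
      exact hB p
    · rw [if_neg h]
      exact hgB p h _
  fin := fun I => by
    by_cases h : ∃ p ∈ I, (p : ℕ) ∣ N
    · obtain ⟨p, hp, hpN⟩ := h
      have h0 : (∏ p ∈ I, if (p : ℕ) ∣ N then (0 : ℂ) else EuC (p : ℕ) (g p)) = 0 :=
        Finset.prod_eq_zero hp (if_pos hpN)
      rw [h0]
      have h1 : ∀ d : ℕ, (∏ p ∈ I, if (p : ℕ) ∣ N then (0 : ℂ) else g p (d : ZMod p)) = 0 := fun d =>
        Finset.prod_eq_zero hp (if_pos hpN)
      simp only [h1]
      unfold meanC
      simp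
    · push Not at h
      have h1 : ∀ d : ℕ, (∏ p ∈ I, if (p : ℕ) ∣ N then (0 : ℂ) else g p (d : ZMod p)) = ∏ p ∈ I, g p (d : ZMod p) :=
        fun d => Finset.prod_congr rfl fun p hp => if_neg (h p hp)
      have h2 : (∏ p ∈ I, if (p : ℕ) ∣ N then (0 : ℂ) else EuC (p : ℕ) (g p)) = ∏ p ∈ I, EuC (p : ℕ) (g p) :=
        Finset.prod_congr rfl fun p hp => if_neg (h p hp)
      simp only [h1]
      rw [h2]
      obtain ⟨P, hP, G, k1, k2, k3, k4, k5⟩ := SF_many g hg I h
      have h3 := SF_sumC k1 hb G k3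
      rw [k5] at h3
      refine h3.congr fun X => ?_
      unfold meanC
      congr 1
      exact Finset.sum_congr rfl fun d _ => k4 d
  ne := SF_ne hb

end Pool.Agent.X278.AV
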