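import Pool.Agent.X278.AV.Uni2
import Pool.Agent.H341R2.PrimeSums
import Mathlib.Topology.ContinuousMap.Weierstrass

/-!
# Sums over the primes with general weights
-/

set_option autoImplicit false

namespace Pool.Agent.X278.AV

open Filter Topology Asymptotics Finset Polynomial
open Pool.Agent.H341R2 (lam)
open Pool.Agent.X287.CR (on_sys)

theorem psi_bd {x : ℝ} (h0 : 0 ≤ x) (h1 : x ≤ 1 / 2) : |-Real.log (1 - x) - x| ≤ 2 * x ^ 2 := by
  have h2 : 0 < 1 - x := by linarith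
  have h3 := Real.log_le_sub_one_of_pos h2
  have h4 := Real.one_sub_inv_le_log_of_pos h2
  have h5 : (1 - x)⁻¹ ≤ 1 + x + 2 * x ^ 2 := by
    rw [inv_le_comm₀ h2 (by positivity), inv_le_iff_one_le_mul₀ (by positivity)]
    nlinarith [sq_nonneg x, mul_nonneg h0 (sq_nonneg x)]
  rw [abs_le]
  constructor
  · nlinarith [sq_nonneg x]
  · linarith

theorem xp_le (p : Nat.Primes) {ε : ℝ} (hε : 0 ≤ ε) : ((p : ℕ) : ℝ) ^ (-(1 + ε)) ≤ (((p : ℕ) : ℝ))⁻¹ := by
  have hp2 : (2 : ℝ) ≤ (p : ℕ) := by exact_mod_cast p.2.two_le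
  rw [← Real.rpow_neg_one]
  exact Real.rpow_le_rpow_of_exponent_le (by linarith) (by linarith)

theorem inv_half (p : Nat.Primes) : (((p : ℕ) : ℝ))⁻¹ ≤ 1 / 2 := by
  have hp2 : (2 : ℝ) ≤ (p : ℕ) := by exact_mod_cast p.2.two_le
  rw [one_div]
  exact inv_anti₀ (by norm_num) hp2

theorem sum_inv_sq : Summable fun p : Nat.Primes => ((((p : ℕ) : ℝ))⁻¹) ^ 2 := by
  have h1 : Summable fun p : Nat.Primes => ((p : ℕ) : ℝ) ^ (-(2 : ℝ)) := on_sys.sum 2 (by norm_num)
  refine h1.congr fun p => ?_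
  rw [Real.rpow_neg (Nat.cast_nonneg _), inv_pow]
  norm_cast

theorem lam_sum {ε : ℝ} (hε : 0 < ε) : Summable fun p : Nat.Primes => ((p : ℕ) : ℝ) ^ (-(1 + ε)) :=
  on_sys.sum (1 + ε) (by linarith)

/-- the logarithm of zeta -/
theorem log_zeta {ε : ℝ} (hε : 0 < ε) :
    Real.log ‖riemannZeta (1 + ε)‖ = lam ε + ∑' p : Nat.Primes,
      (-Real.log (1 - ((p : ℕ) : ℝ) ^ (-(1 + ε))) - ((p : ℕ) : ℝ) ^ (-(1 + ε))) ∧
    Summable fun p : Nat.Primes => (-Real.log (1 - ((p : ℕ) : ℝ) ^ (-(1 + ε))) - ((p : ℕ) : ℝ) ^ (-(1 + ε))) := by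
  have hre : 1 < (1 + ε : ℂ).re := by simp [hε]
  have h1 := riemannZeta_eulerProduct_hasProd hre
  have h2 := h1.map (normHom (α := ℂ)) continuous_norm
  have e1 : ∀ p : Nat.Primes, ‖(1 - ((p : ℕ) : ℂ) ^ (-(1 + ε : ℂ)))⁻¹‖ = (1 - ((p : ℕ) : ℝ) ^ (-(1 + ε)))⁻¹ := by
    intro p
    have e2 : ((p : ℕ) : ℂ) ^ (-(1 + ε : ℂ)) = ((((p : ℕ) : ℝ) ^ (-(1 + ε)) : ℝ) : ℂ) := by
      rw [Complex.ofReal_cpow (Nat.cast_nonneg _)]
      push_cast
      rfl
    rw [norm_inv, e2, ← Complex.ofReal_one, ← Complex.ofReal_sub, Complex.norm_real, Real.norm_eq_abs,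
      abs_of_nonneg]
    have := xp_le p hε.le
    have := inv_half p
    linarith
  have hs2 : Summable fun p : Nat.Primes => (-Real.log (1 - ((p : ℕ) : ℝ) ^ (-(1 + ε))) - ((p : ℕ) : ℝ) ^ (-(1 + ε))) := by
    refine Summable.of_norm_bounded (sum_inv_sq.mul_left 2) fun p => ?_
    have h3 := xp_le p hε.le
    have h4 := inv_half p
    have h5 : 0 ≤ ((p : ℕ) : ℝ) ^ (-(1 + ε)) := by positivity
    rw [Real.norm_eq_abs]
    refine (psi_bd h5 (h3.trans h4)).trans ?_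
    gcongr
  have hs1 : Summable fun p : Nat.Primes => -Real.log (1 - ((p : ℕ) : ℝ) ^ (-(1 + ε))) := by
    refine (hs2.add (lam_sum hε)).congr fun p => ?_
    ring
  have h6 : ∏' p : Nat.Primes, (1 - ((p : ℕ) : ℝ) ^ (-(1 + ε)))⁻¹ = ‖riemannZeta (1 + ε)‖ := by
    have h2' : ∏' p : Nat.Primes, ‖(1 - ((p : ℕ) : ℂ) ^ (-(1 + ε : ℂ)))⁻¹‖ = ‖riemannZeta (1 + ε)‖ := h2.tprod_eq
    rw [← h2']
    exact tprod_congr fun p => (e1 p).symm
  have h7 : Real.exp (∑' p : Nat.Primes, Real.log ((1 - ((p : ℕ) : ℝ) ^ (-(1 + ε)))⁻¹)) =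
      ∏' p : Nat.Primes, (1 - ((p : ℕ) : ℝ) ^ (-(1 + ε)))⁻¹ := by
    refine Real.rexp_tsum_eq_tprod (fun p => ?_) ?_
    · have := xp_le p hε.le
      have := inv_half p
      have : 0 < 1 - ((p : ℕ) : ℝ) ^ (-(1 + ε)) := by linarith
      positivity
    · refine hs1.congr fun p => ?_
      rw [Real.log_inv]
  refine ⟨?_, hs2⟩
  rw [← h6, ← h7, Real.log_exp]
  unfold lam
  rw [← (lam_sum hε).tsum_add hs2]
  refine tsum_congr fun p => ?_
  rw [Real.log_inv]
  ring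

theorem lam_lim : ∃ c : ℝ, Tendsto (fun ε : ℝ => lam ε + Real.log ε) (𝓝[>] 0) (𝓝 c) := by
  have hpath : Tendsto (fun ε : ℝ => (1 + ε : ℂ)) (𝓝[>] 0) (𝓝[≠] 1) := by
    rw [tendsto_nhdsWithin_iff]
    constructor
    · have : ContinuousAt (fun ε : ℝ => (1 + ε : ℂ)) 0 := by fun_prop
      have h2 := this.tendsto
      simp only [Complex.ofReal_zero, add_zero] at h2
      exact h2.mono_left nhdsWithin_le_nhds
    · filter_upwards [self_mem_nhdsWithin] with ε hε
      have hε' : (0 : ℝ) < ε := hε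
      simp only [Set.mem_compl_iff, Set.mem_singleton_iff, add_eq_left]
      exact_mod_cast hε'.ne'
  have h1 := (riemannZeta_residue_one.comp hpath).norm.log (by simp)
  rw [norm_one, Real.log_one] at h1
  have h2 : Tendsto (fun ε : ℝ => ∑' p : Nat.Primes, (-Real.log (1 - ((p : ℕ) : ℝ) ^ (-(1 + ε))) - ((p : ℕ) : ℝ) ^ (-(1 + ε))))
      (𝓝[>] 0) (𝓝 (∑' p : Nat.Primes, (-Real.log (1 - (((p : ℕ) : ℝ))⁻¹) - (((p : ℕ) : ℝ))⁻¹))) := by
    refine tendsto_tsum_of_dominated_convergence (sum_inv_sq.mul_left 2) (fun p => ?_) ?_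
    · have hp0 : (0 : ℝ) < (p : ℕ) := by exact_mod_cast p.2.pos
      have h3 : Tendsto (fun ε : ℝ => ((p : ℕ) : ℝ) ^ (-(1 + ε))) (𝓝[>] 0) (𝓝 ((((p : ℕ) : ℝ))⁻¹)) := by
        have h4 : ContinuousAt (fun ε : ℝ => ((p : ℕ) : ℝ) ^ (-(1 + ε))) 0 := by
          have : Continuous fun ε : ℝ => ((p : ℕ) : ℝ) ^ (-(1 + ε)) :=
            Continuous.rpow continuous_const (by fun_prop) fun _ => Or.inl hp0.ne'
          exact this.continuousAt
        have h5 := h4.tendsto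
        rw [add_zero, Real.rpow_neg_one] at h5
        exact h5.mono_left nhdsWithin_le_nhds
      have h6 : (1 - (((p : ℕ) : ℝ))⁻¹) ≠ 0 := by
        have := inv_half p
        linarith
      exact ((h3.const_sub 1).log h6).neg.sub h3
    · filter_upwards [self_mem_nhdsWithin] with ε hε p
      have hε' : (0 : ℝ) < ε := hε
      have h3 := xp_le p hε'.le
      have h4 := inv_half p
      have h5 : 0 ≤ ((p : ℕ) : ℝ) ^ (-(1 + ε)) := by positivity
      rw [Real.norm_eq_abs]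
      refine (psi_bd h5 (h3.trans h4)).trans ?_
      gcongr
  have h3 := h1.sub h2
  refine ⟨_, h3.congr' ?_⟩
  filter_upwards [self_mem_nhdsWithin] with ε hε
  have hε' : (0 : ℝ) < ε := hε
  have h4 := (log_zeta hε').1
  simp only [Function.comp_apply, add_sub_cancel_left]
  have hz : ‖riemannZeta (1 + ε)‖ ≠ 0 := by
    rw [norm_ne_zero_iff]
    exact riemannZeta_ne_zero_of_one_lt_re (by simp [hε'])
  rw [norm_mul, Real.log_mul (by simpa using hε'.ne') hz, h4, Complex.norm_real, Real.norm_eq_abs, abs_of_pos hε']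
  ring

/-- the version in `T` -/
theorem lam_T : ∃ c : ℝ, ∀ j : ℝ, 0 < j → Tendsto (fun T : ℝ => lam (j / T) - Real.log T) atTop (𝓝 (c - Real.log j)) := by
  obtain ⟨c, hc⟩ := lam_lim
  refine ⟨c, fun j hj => ?_⟩
  have h1 : Tendsto (fun T : ℝ => j / T) atTop (𝓝[>] 0) := by
    rw [tendsto_nhdsWithin_iff]
    refine ⟨tendsto_const_nhds.div_atTop tendsto_id, ?_⟩
    filter_upwards [eventually_gt_atTop (0 : ℝ)] with T hT
    exact div_pos hj hT
  refine ((hc.comp h1).sub_const (Real.log j)).congr' ?_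
  filter_upwards [eventually_gt_atTop (0 : ℝ)] with T hT
  simp only [Function.comp_apply]
  rw [Real.log_div hj.ne' hT.ne']
  ring

/-- `x_p = p^{-1/T}` -/
noncomputable def xp (T : ℝ) (p : Nat.Primes) : ℝ := Real.exp (-(Real.log (p : ℕ) / T))

theorem xp_mem {T : ℝ} (hT : 0 < T) (p : Nat.Primes) : 0 < xp T p ∧ xp T p < 1 := by
  have hp : (1 : ℝ) < (p : ℕ) := by exact_mod_cast p.2.one_lt
  refine ⟨Real.exp_pos _, ?_⟩
  unfold xp
  rw [Real.exp_lt_one_iff]
  have := div_pos (Real.log_pos hp) hT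
  linarith

theorem xp_pow {T : ℝ} (hT : 0 < T) (p : Nat.Primes) (j : ℕ) :
    (((p : ℕ) : ℝ))⁻¹ * xp T p ^ j = ((p : ℕ) : ℝ) ^ (-(1 + j / T)) := by
  have hp0 : (0 : ℝ) < (p : ℕ) := by exact_mod_cast p.2.pos
  unfold xp
  rw [show -(1 + j / T) = (-1 : ℝ) + -(j / T) by ring, Real.rpow_add hp0, Real.rpow_neg_one,
    ← Real.exp_nat_mul, Real.rpow_def_of_pos hp0]
  congr 2
  ring

/-- the functional -/
noncomputable def Phi (T : ℝ) (h : ℝ → ℝ) : ℝ := ∑' p : Nat.Primes,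
  (((p : ℕ) : ℝ))⁻¹ * ((xp T p - xp T p ^ 2) * h (xp T p))

theorem pow_sum {T : ℝ} (hT : 0 < T) {j : ℕ} (hj : 0 < j) :
    (Summable fun p : Nat.Primes => (((p : ℕ) : ℝ))⁻¹ * xp T p ^ j) ∧
    ∑' p : Nat.Primes, (((p : ℕ) : ℝ))⁻¹ * xp T p ^ j = lam (j / T) := by
  have hj' : (0 : ℝ) < j := by exact_mod_cast hj
  have h1 := lam_sum (ε := j / T) (by positivity)
  constructor
  · exact h1.congr fun p => (xp_pow hT p j).symm
  · unfold lam
    exact tsum_congr fun p => xp_pow hT p j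

theorem Phi_sum {T : ℝ} (hT : 0 < T) {h : ℝ → ℝ} {M : ℝ} (hM : ∀ x ∈ Set.Icc (0 : ℝ) 1, |h x| ≤ M) :
    Summable fun p : Nat.Primes => (((p : ℕ) : ℝ))⁻¹ * ((xp T p - xp T p ^ 2) * h (xp T p)) := by
  have hM0 : 0 ≤ M := (abs_nonneg _).trans (hM 0 ⟨le_rfl, zero_le_one⟩)
  refine Summable.of_norm_bounded ((pow_sum hT one_pos).1.mul_left M) fun p => ?_
  obtain ⟨h0, h1⟩ := xp_mem hT p
  have h2 : 0 ≤ xp T p - xp T p ^ 2 := by nlinarith
  have hp0 : (0 : ℝ) < (p : ℕ) := by exact_mod_cast p.2.pos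
  rw [Real.norm_eq_abs, abs_mul, abs_mul, abs_of_nonneg h2, abs_of_pos (by positivity : 0 < (((p : ℕ) : ℝ))⁻¹)]
  calc (((p : ℕ) : ℝ))⁻¹ * ((xp T p - xp T p ^ 2) * |h (xp T p)|) ≤ (((p : ℕ) : ℝ))⁻¹ * (xp T p * M) := by
        gcongr
        · nlinarith [sq_nonneg (xp T p)]
        · exact hM _ ⟨h0.le, h1.le⟩
    _ = M * ((((p : ℕ) : ℝ))⁻¹ * xp T p ^ 1) := by ring

theorem poly_bdd (q : ℝ[X]) : ∃ M : ℝ, ∀ x ∈ Set.Icc (0 : ℝ) 1, |q.eval x| ≤ M := by
  obtain ⟨M, hM⟩ := isCompact_Icc.exists_bound_of_continuousOn (s := Set.Icc (0 : ℝ) 1) q.continuous.continuousOn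
  exact ⟨M, fun x hx => by simpa using hM x hx⟩

theorem Phi_poly (q : ℝ[X]) : ∃ c : ℝ, Tendsto (fun T => Phi T fun x => q.eval x) atTop (𝓝 c) := by
  induction q using Polynomial.induction_on' with
  | add q₁ q₂ h₁ h₂ =>
    obtain ⟨c₁, h₁⟩ := h₁
    obtain ⟨c₂, h₂⟩ := h₂
    obtain ⟨M₁, b₁⟩ := poly_bdd q₁
    obtain ⟨M₂, b₂⟩ := poly_bdd q₂
    refine ⟨c₁ + c₂, (h₁.add h₂).congr' ?_⟩
    filter_upwards [eventually_gt_atTop (0 : ℝ)] with T hT
    unfold Phi
    rw [← (Phi_sum hT b₁).tsum_add (Phi_sum hT b₂)]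
    refine tsum_congr fun p => ?_
    simp only [Polynomial.eval_add]
    ring
  | monomial n a =>
    obtain ⟨c, hc⟩ := lam_T
    have h1 := hc ((n + 1 : ℕ) : ℝ) (by positivity)
    have h2 := hc ((n + 2 : ℕ) : ℝ) (by positivity)
    refine ⟨_, ((h1.sub h2).const_mul a).congr' ?_⟩
    filter_upwards [eventually_gt_atTop (0 : ℝ)] with T hT
    obtain ⟨s1, e1⟩ := pow_sum hT (j := n + 1) (by omega)
    obtain ⟨s2, e2⟩ := pow_sum hT (j := n + 2) (by omega)
    unfold Phi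
    rw [sub_sub_sub_cancel_right, ← e1, ← e2, ← s1.tsum_sub s2, ← tsum_mul_left]
    refine tsum_congr fun p => ?_
    simp only [Polynomial.eval_monomial]
    ring

theorem Phi_one : ∀ᶠ T : ℝ in atTop, Phi T (fun _ => 1) ≤ 1 := by
  obtain ⟨c, hc⟩ := lam_T
  have h1 := hc 1 one_pos
  have h2 := hc 2 two_pos
  have h3 := h1.sub h2
  have e1 : c - Real.log 1 - (c - Real.log 2) = Real.log 2 := by
    rw [Real.log_one]
    ring
  rw [e1] at h3
  have h4 : Real.log 2 < 1 := by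
    have := Real.log_two_lt_d9
    linarith
  filter_upwards [h3.eventually_lt_const h4, eventually_gt_atTop (0 : ℝ)] with T hT hT0
  refine le_trans (le_of_eq ?_) hT.le
  obtain ⟨s1, e1⟩ := pow_sum hT0 (j := 1) one_pos
  obtain ⟨s2, e2⟩ := pow_sum hT0 (j := 2) two_pos
  unfold Phi
  rw [sub_sub_sub_cancel_right]
  push_cast at e1 e2
  rw [← e1, ← e2, ← s1.tsum_sub s2]
  refine tsum_congr fun p => ?_
  ring

/-- **convergence for continuous functions** -/
theorem Phi_conv {h : ℝ → ℝ} (hc : ContinuousOn h (Set.Icc 0 1)) : ∃ c : ℝ, Tendsto (fun T => Phi T h) atTop (𝓝 c) := by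
  obtain ⟨Mh, hMh⟩ := isCompact_Icc.exists_bound_of_continuousOn hc
  have hMh' : ∀ x ∈ Set.Icc (0 : ℝ) 1, |h x| ≤ Mh := fun x hx => by simpa using hMh x hx
  refine cauchySeq_tendsto_of_complete (Metric.cauchySeq_iff'.2 fun ε hε => ?_)
  obtain ⟨q, hq⟩ := exists_polynomial_near_of_continuousOn 0 1 h hc (ε / 8) (by positivity)
  obtain ⟨c, hcq⟩ := Phi_poly q
  obtain ⟨Mq, hMq⟩ := poly_bdd q
  have hdiff : ∀ᶠ T : ℝ in atTop, |Phi T h - Phi T fun x => q.eval x| ≤ ε / 8 := by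
    filter_upwards [Phi_one, eventually_gt_atTop (0 : ℝ)] with T h1 hT
    have hs1 := Phi_sum hT (h := fun _ => (1 : ℝ)) (M := 1) (fun x _ => by simp)
    have e1 : Phi T h - Phi T (fun x => q.eval x) =
        ∑' p : Nat.Primes, (((p : ℕ) : ℝ))⁻¹ * ((xp T p - xp T p ^ 2) * (h (xp T p) - q.eval (xp T p))) := by
      unfold Phi
      rw [← (Phi_sum hT hMh').tsum_sub (Phi_sum hT hMq)]
      exact tsum_congr fun p => by ring
    rw [e1, ← Real.norm_eq_abs]
    refine (tsum_of_norm_bounded (hs1.mul_left (ε / 8)).hasSum fun p => ?_).trans ?_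
    · obtain ⟨h0, h2⟩ := xp_mem hT p
      have h3 : 0 ≤ xp T p - xp T p ^ 2 := by nlinarith
      have hp0 : (0 : ℝ) < (p : ℕ) := by exact_mod_cast p.2.pos
      have h4 := (hq (xp T p) ⟨h0.le, h2.le⟩).le
      rw [abs_sub_comm] at h4
      rw [Real.norm_eq_abs, abs_mul, abs_mul, abs_of_nonneg h3, abs_of_pos (by positivity : 0 < (((p : ℕ) : ℝ))⁻¹)]
      calc _ ≤ (((p : ℕ) : ℝ))⁻¹ * ((xp T p - xp T p ^ 2) * (ε / 8)) := by gcongr
        _ = _ := by ring
    · rw [tsum_mul_left]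
      have e2 : (∑' p : Nat.Primes, (((p : ℕ) : ℝ))⁻¹ * ((xp T p - xp T p ^ 2) * 1)) = Phi T fun _ => 1 := rfl
      rw [e2]
      nlinarith
  have hq2 : ∀ᶠ T : ℝ in atTop, |(Phi T fun x => q.eval x) - c| ≤ ε / 8 := by
    have := (hcq.sub_const c).abs
    rw [sub_self, abs_zero] at this
    exact (this.eventually_lt_const (show (0 : ℝ) < ε / 8 by positivity)).mono fun T hT => hT.le
  obtain ⟨T₀, hT₀⟩ := eventually_atTop.1 (hdiff.and hq2)
  refine ⟨T₀, fun T hT => ?_⟩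
  obtain ⟨a1, a2⟩ := hT₀ T hT
  obtain ⟨b1, b2⟩ := hT₀ T₀ le_rfl
  rw [Real.dist_eq]
  have e1 : Phi T h - Phi T₀ h = (Phi T h - Phi T fun x => q.eval x) + ((Phi T fun x => q.eval x) - c) -
      ((Phi T₀ h - Phi T₀ fun x => q.eval x) + ((Phi T₀ fun x => q.eval x) - c)) := by ring
  rw [e1]
  rw [abs_le] at a1 a2 b1 b2
  rw [abs_lt]
  constructor <;> linarith [a1.1, a1.2, a2.1, a2.2, b1.1, b1.2, b2.1, b2.2]

/-- **the sum with a general weight** -/
theorem kar {ω : ℝ → ℝ} {ω' : ℝ} (h0 : ω 0 = 1) (hd : HasDerivAt ω ω' 0) (hc : ∀ u : ℝ, 0 < u → ContinuousAt ω u)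
    (hdec : Tendsto (fun u => ω u * Real.exp u) atTop (𝓝 0)) :
    (∀ T : ℝ, 0 < T → Summable fun p : Nat.Primes => (((p : ℕ) : ℝ))⁻¹ * ω (Real.log (p : ℕ) / T)) ∧
    ∃ c : ℝ, Tendsto (fun T : ℝ => ∑' p : Nat.Primes, (((p : ℕ) : ℝ))⁻¹ * ω (Real.log (p : ℕ) / T) - Real.log T)
      atTop (𝓝 c) := by
  set h : ℝ → ℝ := fun x => if x = 0 then -1 else if x = 1 then 1 + ω' else (ω (-Real.log x) - x) / (x - x ^ 2)
    with hh
  have hform : ∀ x : ℝ, 0 < x → x < 1 → h x = (ω (-Real.log x) - x) / (x - x ^ 2) := by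
    intro x hx0 hx1
    rw [hh]
    simp only
    rw [if_neg hx0.ne', if_neg hx1.ne]
  have hcont : ContinuousOn h (Set.Icc 0 1) := by
    intro x hx
    rcases eq_or_lt_of_le hx.1 with rfl | hx0
    · -- at zero
      have h1 : ContinuousWithinAt h (Set.Ioi 0) 0 := by
        have e0 : h 0 = -1 := by rw [hh]; simp
        unfold ContinuousWithinAt
        rw [e0]
        have h2 : Tendsto (fun x : ℝ => -Real.log x) (𝓝[>] 0) atTop :=
          tendsto_neg_atBot_atTop.comp Real.tendsto_log_nhdsGT_zero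
        have h3 := hdec.comp h2
        have h4 : Tendsto (fun x : ℝ => x) (𝓝[>] (0 : ℝ)) (𝓝 0) := tendsto_id.mono_left nhdsWithin_le_nhds
        have h5 := (h3.sub_const 1).div (h4.const_sub 1) (by norm_num)
        have e1 : ((0 : ℝ) - 1) / (1 - 0) = -1 := by norm_num
        rw [e1] at h5
        refine h5.congr' ?_
        filter_upwards [Ioo_mem_nhdsGT (show (0 : ℝ) < 1 by norm_num)] with x hx
        rw [hform x hx.1 hx.2]
        simp only [Function.comp_apply, Pi.div_apply]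
        rw [Real.exp_neg, Real.exp_log hx.1]
        have h6 : x ≠ 0 := hx.1.ne'
        have h7 : 1 - x ≠ 0 := by linarith [hx.2]
        have h8 : x - x ^ 2 = x * (1 - x) := by ring
        rw [h8]
        field_simp
      rw [continuousWithinAt_Ioi_iff_Ici] at h1
      exact h1.mono Set.Icc_subset_Ici_self
    rcases eq_or_lt_of_le hx.2 with rfl | hx1
    · -- at one
      have h1 : ContinuousWithinAt h (Set.Iio 1) 1 := by
        have e0 : h 1 = 1 + ω' := by rw [hh]; simp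
        unfold ContinuousWithinAt
        rw [e0]
        have h2 : HasDerivAt (fun x : ℝ => ω (-Real.log x)) (-ω') 1 := by
          have h3 : HasDerivAt (fun x : ℝ => -Real.log x) (-1) 1 := by
            have := (Real.hasDerivAt_log (one_ne_zero (α := ℝ))).neg
            rwa [inv_one] at this
          have h4 : HasDerivAt ω ω' (-Real.log 1) := by rwa [Real.log_one, neg_zero]
          have h5 := HasDerivAt.comp (1 : ℝ) h4 h3
          rw [mul_neg, mul_one] at h5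
          exact h5
        rw [hasDerivAt_iff_tendsto_slope] at h2
        have h3 : Tendsto (slope (fun x : ℝ => ω (-Real.log x)) 1) (𝓝[<] 1) (𝓝 (-ω')) :=
          h2.mono_left (nhdsWithin_mono _ fun x hx => ne_of_lt hx)
        have h4 : Tendsto (fun x : ℝ => x) (𝓝[<] (1 : ℝ)) (𝓝 1) := tendsto_id.mono_left nhdsWithin_le_nhds
        have h5 := (h3.neg.const_add 1).div h4 (by norm_num)
        rw [neg_neg, div_one] at h5
        refine h5.congr' ?_
        filter_upwards [Ioo_mem_nhdsLT (show (0 : ℝ) < 1 by norm_num)] with x hx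
        rw [hform x hx.1 hx.2]
        simp only [Pi.div_apply]
        rw [slope_def_field, Real.log_one, neg_zero, h0]
        have h6 : x ≠ 0 := hx.1.ne'
        have h7 : 1 - x ≠ 0 := by linarith [hx.2]
        have h7' : x - 1 ≠ 0 := by linarith [hx.2]
        have h8 : x - x ^ 2 = x * (1 - x) := by ring
        rw [h8]
        field_simp
        ring
      rw [continuousWithinAt_Iio_iff_Iic] at h1
      exact h1.mono Set.Icc_subset_Iic_self
    · -- inside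
      have h1 : ContinuousAt (fun x : ℝ => (ω (-Real.log x) - x) / (x - x ^ 2)) x := by
        have h2 : ContinuousAt (fun x : ℝ => ω (-Real.log x)) x := by
          have h3 : 0 < -Real.log x := by
            have := Real.log_neg hx0 hx1
            linarith
          exact ContinuousAt.comp (f := fun x : ℝ => -Real.log x) (hc _ h3) (Real.continuousAt_log hx0.ne').neg
        refine (h2.sub continuousAt_id).div (by fun_prop) ?_
        have : 0 < x * (1 - x) := mul_pos hx0 (by linarith)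
        nlinarith
      refine (h1.congr ?_).continuousWithinAt
      filter_upwards [Ioo_mem_nhds hx0 hx1] with y hy
      exact (hform y hy.1 hy.2).symm
  obtain ⟨Mh, hMh⟩ := isCompact_Icc.exists_bound_of_continuousOn hcont
  have hMh' : ∀ x ∈ Set.Icc (0 : ℝ) 1, |h x| ≤ Mh := fun x hx => by simpa using hMh x hx
  have key : ∀ T : ℝ, 0 < T → ∀ p : Nat.Primes, (((p : ℕ) : ℝ))⁻¹ * ω (Real.log (p : ℕ) / T) =
      (((p : ℕ) : ℝ))⁻¹ * xp T p ^ 1 + (((p : ℕ) : ℝ))⁻¹ * ((xp T p - xp T p ^ 2) * h (xp T p)) := by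
    intro T hT p
    obtain ⟨a0, a1⟩ := xp_mem hT p
    rw [hform _ a0 a1]
    have e1 : -Real.log (xp T p) = Real.log (p : ℕ) / T := by
      unfold xp
      rw [Real.log_exp, neg_neg]
    rw [e1]
    have h2 : xp T p - xp T p ^ 2 ≠ 0 := by
      have : 0 < xp T p * (1 - xp T p) := mul_pos a0 (by linarith)
      nlinarith
    rw [mul_comm (xp T p - xp T p ^ 2), div_mul_cancel₀ _ h2]
    ring
  constructor
  · intro T hT
    refine ((pow_sum hT one_pos).1.add (Phi_sum hT hMh')).congr fun p => ?_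
    rw [key T hT p]
  · obtain ⟨c, hc⟩ := Phi_conv hcont
    obtain ⟨c', hc'⟩ := lam_T
    refine ⟨_, ((hc' 1 one_pos).add hc).congr' ?_⟩
    filter_upwards [eventually_gt_atTop (0 : ℝ)] with T hT
    have e1 : ∑' p : Nat.Primes, (((p : ℕ) : ℝ))⁻¹ * ω (Real.log (p : ℕ) / T) = ∑' p : Nat.Primes,
        ((((p : ℕ) : ℝ))⁻¹ * xp T p ^ 1 + (((p : ℕ) : ℝ))⁻¹ * ((xp T p - xp T p ^ 2) * h (xp T p))) :=
      tsum_congr (key T hT)
    rw [e1, (pow_sum hT one_pos).1.tsum_add (Phi_sum hT hMh'), (pow_sum hT one_pos).2]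
    unfold Phi
    push_cast
    ring

end Pool.Agent.X278.AV
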