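import Pool.Agent.X278.AV.Mom

/-!
# Sums with general weights over general index sets with non-negative coefficients
-/

set_option autoImplicit false

namespace Pool.Agent.X278.AV

open Filter Topology
open scoped Polynomial

/-- the function `h` with `ω(u) = e^{-u} + (e^{-u} - e^{-2u}) h(e^{-u})` -/
theorem weight_dec {ω : ℝ → ℝ} {ω' : ℝ} (h0 : ω 0 = 1) (hd : HasDerivAt ω ω' 0) (hc : ∀ u : ℝ, 0 < u → ContinuousAt ω u)
    (hdec : Tendsto (fun u => ω u * Real.exp u) atTop (𝓝 0)) : ∃ h : ℝ → ℝ, ContinuousOn h (Set.Icc 0 1) ∧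
      ∀ x : ℝ, 0 < x → x < 1 → ω (-Real.log x) = x + (x - x ^ 2) * h x := by
  set h : ℝ → ℝ := fun x => if x = 0 then -1 else if x = 1 then 1 + ω' else (ω (-Real.log x) - x) / (x - x ^ 2)
    with hh
  have hform : ∀ x : ℝ, 0 < x → x < 1 → h x = (ω (-Real.log x) - x) / (x - x ^ 2) := by
    intro x hx0 hx1
    rw [hh]
    simp only
    rw [if_neg hx0.ne', if_neg hx1.ne]
  have hcont : ContinuousOn h (Set.Icc 0 1) := by
    intro x hx
    rcases eq_or_lt_of_le hx.1 with rfl | hx0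
    · -- at zero
      have h1 : ContinuousWithinAt h (Set.Ioi 0) 0 := by
        have e0 : h 0 = -1 := by rw [hh]; simp
        unfold ContinuousWithinAt
        rw [e0]
        have h2 : Tendsto (fun x : ℝ => -Real.log x) (𝓝[>] 0) atTop :=
          tendsto_neg_atBot_atTop.comp Real.tendsto_log_nhdsGT_zero
        have h3 := hdec.comp h2
        have h4 : Tendsto (fun x : ℝ => x) (𝓝[>] (0 : ℝ)) (𝓝 0) := tendsto_id.mono_left nhdsWithin_le_nhds
        have h5 := (h3.sub_const 1).div (h4.const_sub 1) (by norm_num)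
        have e1 : ((0 : ℝ) - 1) / (1 - 0) = -1 := by norm_num
        rw [e1] at h5
        refine h5.congr' ?_
        filter_upwards [Ioo_mem_nhdsGT (show (0 : ℝ) < 1 by norm_num)] with x hx
        rw [hform x hx.1 hx.2]
        simp only [Function.comp_apply, Pi.div_apply]
        rw [Real.exp_neg, Real.exp_log hx.1]
        have h6 : x ≠ 0 := hx.1.ne'
        have h7 : 1 - x ≠ 0 := by linarith [hx.2]
        have h8 : x - x ^ 2 = x * (1 - x) := by ring
        rw [h8]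
        field_simp
      rw [continuousWithinAt_Ioi_iff_Ici] at h1
      exact h1.mono Set.Icc_subset_Ici_self
    rcases eq_or_lt_of_le hx.2 with rfl | hx1
    · -- at one
      have h1 : ContinuousWithinAt h (Set.Iio 1) 1 := by
        have e0 : h 1 = 1 + ω' := by rw [hh]; simp
        unfold ContinuousWithinAt
        rw [e0]
        have h2 : HasDerivAt (fun x : ℝ => ω (-Real.log x)) (-ω') 1 := by
          have h3 : HasDerivAt (fun x : ℝ => -Real.log x) (-1) 1 := by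
            have := (Real.hasDerivAt_log (one_ne_zero (α := ℝ))).neg
            rwa [inv_one] at this
          have h4 : HasDerivAt ω ω' (-Real.log 1) := by rwa [Real.log_one, neg_zero]
          have h5 := HasDerivAt.comp (1 : ℝ) h4 h3
          rw [mul_neg, mul_one] at h5
          exact h5
        rw [hasDerivAt_iff_tendsto_slope] at h2
        have h3 : Tendsto (slope (fun x : ℝ => ω (-Real.log x)) 1) (𝓝[<] 1) (𝓝 (-ω')) :=
          h2.mono_left (nhdsWithin_mono _ fun x hx => ne_of_lt hx)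
        have h4 : Tendsto (fun x : ℝ => x) (𝓝[<] (1 : ℝ)) (𝓝 1) := tendsto_id.mono_left nhdsWithin_le_nhds
        have h5 := (h3.neg.const_add 1).div h4 (by norm_num)
        rw [neg_neg, div_one] at h5
        refine h5.congr' ?_
        filter_upwards [Ioo_mem_nhdsLT (show (0 : ℝ) < 1 by norm_num)] with x hx
        rw [hform x hx.1 hx.2]
        simp only [Pi.div_apply]
        rw [slope_def_field, Real.log_one, neg_zero, h0]
        have h6 : x ≠ 0 := hx.1.ne'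
        have h7 : 1 - x ≠ 0 := by linarith [hx.2]
        have h7' : x - 1 ≠ 0 := by linarith [hx.2]
        have h8 : x - x ^ 2 = x * (1 - x) := by ring
        rw [h8]
        field_simp
        ring
      rw [continuousWithinAt_Iio_iff_Iic] at h1
      exact h1.mono Set.Icc_subset_Iic_self
    · -- inside
      have h1 : ContinuousAt (fun x : ℝ => (ω (-Real.log x) - x) / (x - x ^ 2)) x := by
        have h2 : ContinuousAt (fun x : ℝ => ω (-Real.log x)) x := by
          have h3 : 0 < -Real.log x := by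
            have := Real.log_neg hx0 hx1
            linarith
          exact ContinuousAt.comp (f := fun x : ℝ => -Real.log x) (hc _ h3) (Real.continuousAt_log hx0.ne').neg
        refine (h2.sub continuousAt_id).div (by fun_prop) ?_
        have : 0 < x * (1 - x) := mul_pos hx0 (by linarith)
        nlinarith
      refine (h1.congr ?_).continuousWithinAt
      filter_upwards [Ioo_mem_nhds hx0 hx1] with y hy
      exact (hform y hy.1 hy.2).symm
  refine ⟨h, hcont, fun x hx0 hx1 => ?_⟩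
  rw [hform x hx0 hx1]
  have h2 : x - x ^ 2 ≠ 0 := by
    have : 0 < x * (1 - x) := mul_pos hx0 (by linarith)
    nlinarith
  rw [mul_div_cancel₀ _ h2]
  ring

/-- coefficients and norms -/
structure Wts {P : Type} (q c : P → ℝ) (ν C₀ : ℝ) : Prop where
  q2 : ∀ v, 2 ≤ q v
  c0 : ∀ v, 0 ≤ c v
  sum : ∀ ε : ℝ, 0 < ε → Summable fun v => c v * q v ^ (-(1 + ε))
  lim : Tendsto (fun ε : ℝ => ∑' v, c v * q v ^ (-(1 + ε)) + ν * Real.log ε) (𝓝[>] 0) (𝓝 C₀)

variable {P : Type} {q c : P → ℝ} {ν C₀ : ℝ}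

/-- `x_v = q_v^{-1/T}` -/
noncomputable def xq (q : P → ℝ) (T : ℝ) (v : P) : ℝ := Real.exp (-(Real.log (q v) / T))

theorem Wts.xq_mem (W : Wts q c ν C₀) {T : ℝ} (hT : 0 < T) (v : P) : 0 < xq q T v ∧ xq q T v < 1 := by
  have hp : (1 : ℝ) < q v := by have := W.q2 v; linarith
  refine ⟨Real.exp_pos _, ?_⟩
  unfold xq
  rw [Real.exp_lt_one_iff]
  have := div_pos (Real.log_pos hp) hT
  linarith

theorem Wts.xq_pow (W : Wts q c ν C₀) (T : ℝ) (v : P) (j : ℕ) :
    (q v)⁻¹ * xq q T v ^ j = q v ^ (-(1 + j / T)) := by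
  have hp0 : (0 : ℝ) < q v := by have := W.q2 v; linarith
  unfold xq
  rw [show -(1 + j / T) = (-1 : ℝ) + -(j / T) by ring, Real.rpow_add hp0, Real.rpow_neg_one,
    ← Real.exp_nat_mul, Real.rpow_def_of_pos hp0]
  congr 2
  ring

theorem Wts.lam_T (W : Wts q c ν C₀) (j : ℝ) (hj : 0 < j) :
    Tendsto (fun T : ℝ => ∑' v, c v * q v ^ (-(1 + j / T)) - ν * Real.log T) atTop (𝓝 (C₀ - ν * Real.log j)) := by
  have h1 : Tendsto (fun T : ℝ => j / T) atTop (𝓝[>] 0) := by
    rw [tendsto_nhdsWithin_iff]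
    refine ⟨tendsto_const_nhds.div_atTop tendsto_id, ?_⟩
    filter_upwards [eventually_gt_atTop (0 : ℝ)] with T hT
    exact div_pos hj hT
  refine ((W.lim.comp h1).sub_const (ν * Real.log j)).congr' ?_
  filter_upwards [eventually_gt_atTop (0 : ℝ)] with T hT
  simp only [Function.comp_apply]
  rw [Real.log_div hj.ne' hT.ne']
  ring

/-- the functional -/
noncomputable def PhiG (q c : P → ℝ) (T : ℝ) (h : ℝ → ℝ) : ℝ := ∑' v,
  c v * (q v)⁻¹ * ((xq q T v - xq q T v ^ 2) * h (xq q T v))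

theorem Wts.pow_sum (W : Wts q c ν C₀) {T : ℝ} (hT : 0 < T) {j : ℕ} (hj : 0 < j) :
    (Summable fun v => c v * (q v)⁻¹ * xq q T v ^ j) ∧
    ∑' v, c v * (q v)⁻¹ * xq q T v ^ j = ∑' v, c v * q v ^ (-(1 + j / T)) := by
  have hj' : (0 : ℝ) < j := by exact_mod_cast hj
  have h1 := W.sum (j / T) (by positivity)
  have h2 : ∀ v, c v * (q v)⁻¹ * xq q T v ^ j = c v * q v ^ (-(1 + j / T)) := fun v => by
    rw [mul_assoc, W.xq_pow]
  exact ⟨h1.congr fun v => (h2 v).symm, tsum_congr h2⟩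

theorem Wts.Phi_sum (W : Wts q c ν C₀) {T : ℝ} (hT : 0 < T) {h : ℝ → ℝ} {M : ℝ} (hM : ∀ x ∈ Set.Icc (0 : ℝ) 1, |h x| ≤ M) :
    Summable fun v => c v * (q v)⁻¹ * ((xq q T v - xq q T v ^ 2) * h (xq q T v)) := by
  have hM0 : 0 ≤ M := (abs_nonneg _).trans (hM 0 ⟨le_rfl, zero_le_one⟩)
  refine Summable.of_norm_bounded ((W.pow_sum hT one_pos).1.mul_left M) fun v => ?_
  obtain ⟨h0, h1⟩ := W.xq_mem hT v
  have h2 : 0 ≤ xq q T v - xq q T v ^ 2 := by nlinarith
  have hp0 : (0 : ℝ) < q v := by have := W.q2 v; linarith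
  have hc := W.c0 v
  have hcq : 0 ≤ c v * (q v)⁻¹ := by positivity
  rw [Real.norm_eq_abs, abs_mul, abs_mul (xq q T v - xq q T v ^ 2), abs_of_nonneg h2, abs_of_nonneg hcq]
  calc c v * (q v)⁻¹ * ((xq q T v - xq q T v ^ 2) * |h (xq q T v)|) ≤ c v * (q v)⁻¹ * (xq q T v * M) := by
        gcongr
        · nlinarith [sq_nonneg (xq q T v)]
        · exact hM _ ⟨h0.le, h1.le⟩
    _ = M * (c v * (q v)⁻¹ * xq q T v ^ 1) := by ring

theorem Wts.Phi_poly (W : Wts q c ν C₀) (p : ℝ[X]) : ∃ c' : ℝ, Tendsto (fun T => PhiG q c T fun x => p.eval x) atTop (𝓝 c') := by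
  induction p using Polynomial.induction_on' with
  | add q₁ q₂ h₁ h₂ =>
    obtain ⟨c₁, h₁⟩ := h₁
    obtain ⟨c₂, h₂⟩ := h₂
    obtain ⟨M₁, b₁⟩ := poly_bdd q₁
    obtain ⟨M₂, b₂⟩ := poly_bdd q₂
    refine ⟨c₁ + c₂, (h₁.add h₂).congr' ?_⟩
    filter_upwards [eventually_gt_atTop (0 : ℝ)] with T hT
    unfold PhiG
    rw [← (W.Phi_sum hT b₁).tsum_add (W.Phi_sum hT b₂)]
    refine tsum_congr fun p => ?_
    simp only [Polynomial.eval_add]
    ring
  | monomial n a =>
    have h1 := W.lam_T ((n + 1 : ℕ) : ℝ) (by positivity)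
    have h2 := W.lam_T ((n + 2 : ℕ) : ℝ) (by positivity)
    refine ⟨_, ((h1.sub h2).const_mul a).congr' ?_⟩
    filter_upwards [eventually_gt_atTop (0 : ℝ)] with T hT
    obtain ⟨s1, e1⟩ := W.pow_sum hT (j := n + 1) (by omega)
    obtain ⟨s2, e2⟩ := W.pow_sum hT (j := n + 2) (by omega)
    unfold PhiG
    rw [sub_sub_sub_cancel_right, ← e1, ← e2, ← s1.tsum_sub s2, ← tsum_mul_left]
    refine tsum_congr fun p => ?_
    simp only [Polynomial.eval_monomial]
    ring

theorem Wts.Phi_one (W : Wts q c ν C₀) : ∃ M : ℝ, 0 < M ∧ ∀ᶠ T : ℝ in atTop, PhiG q c T (fun _ => 1) ≤ M := by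
  have h1 := W.lam_T 1 one_pos
  have h2 := W.lam_T 2 two_pos
  have h3 := h1.sub h2
  refine ⟨|C₀ - ν * Real.log 1 - (C₀ - ν * Real.log 2)| + 1, by positivity, ?_⟩
  have h4 : C₀ - ν * Real.log 1 - (C₀ - ν * Real.log 2) < |C₀ - ν * Real.log 1 - (C₀ - ν * Real.log 2)| + 1 := by
    have := le_abs_self (C₀ - ν * Real.log 1 - (C₀ - ν * Real.log 2))
    linarith
  filter_upwards [h3.eventually_lt_const h4, eventually_gt_atTop (0 : ℝ)] with T hT hT0
  refine le_trans (le_of_eq ?_) hT.le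
  obtain ⟨s1, e1⟩ := W.pow_sum hT0 (j := 1) one_pos
  obtain ⟨s2, e2⟩ := W.pow_sum hT0 (j := 2) two_pos
  unfold PhiG
  rw [sub_sub_sub_cancel_right]
  push_cast at e1 e2
  rw [← e1, ← e2, ← s1.tsum_sub s2]
  refine tsum_congr fun p => ?_
  ring

/-- **convergence for continuous functions** -/
theorem Wts.Phi_conv (W : Wts q c ν C₀) {h : ℝ → ℝ} (hc : ContinuousOn h (Set.Icc 0 1)) :
    ∃ c' : ℝ, Tendsto (fun T => PhiG q c T h) atTop (𝓝 c') := by
  obtain ⟨Mh, hMh⟩ := isCompact_Icc.exists_bound_of_continuousOn hc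
  have hMh' : ∀ x ∈ Set.Icc (0 : ℝ) 1, |h x| ≤ Mh := fun x hx => by simpa using hMh x hx
  obtain ⟨M₁, hM₁, hone⟩ := W.Phi_one
  refine cauchySeq_tendsto_of_complete (Metric.cauchySeq_iff'.2 fun ε hε => ?_)
  obtain ⟨p, hq⟩ := exists_polynomial_near_of_continuousOn 0 1 h hc (ε / (8 * M₁)) (by positivity)
  obtain ⟨c', hcq⟩ := W.Phi_poly p
  obtain ⟨Mq, hMq⟩ := poly_bdd p
  have hdiff : ∀ᶠ T : ℝ in atTop, |PhiG q c T h - PhiG q c T fun x => p.eval x| ≤ ε / 8 := by
    filter_upwards [hone, eventually_gt_atTop (0 : ℝ)] with T h1 hT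
    have hs1 := W.Phi_sum hT (h := fun _ => (1 : ℝ)) (M := 1) (fun x _ => by simp)
    have e1 : PhiG q c T h - PhiG q c T (fun x => p.eval x) =
        ∑' v, c v * (q v)⁻¹ * ((xq q T v - xq q T v ^ 2) * (h (xq q T v) - p.eval (xq q T v))) := by
      unfold PhiG
      rw [← (W.Phi_sum hT hMh').tsum_sub (W.Phi_sum hT hMq)]
      exact tsum_congr fun p => by ring
    rw [e1, ← Real.norm_eq_abs]
    refine (tsum_of_norm_bounded (hs1.mul_left (ε / (8 * M₁))).hasSum fun v => ?_).trans ?_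
    · obtain ⟨h0, h2⟩ := W.xq_mem hT v
      have h3 : 0 ≤ xq q T v - xq q T v ^ 2 := by nlinarith
      have hp0 : (0 : ℝ) < q v := by have := W.q2 v; linarith
      have hc := W.c0 v
      have hcq : 0 ≤ c v * (q v)⁻¹ := by positivity
      have h4 := (hq (xq q T v) ⟨h0.le, h2.le⟩).le
      rw [abs_sub_comm] at h4
      rw [Real.norm_eq_abs, abs_mul, abs_mul (xq q T v - xq q T v ^ 2), abs_of_nonneg h3, abs_of_nonneg hcq]
      calc _ ≤ c v * (q v)⁻¹ * ((xq q T v - xq q T v ^ 2) * (ε / (8 * M₁))) := by gcongr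
        _ = _ := by ring
    · rw [tsum_mul_left]
      have e2 : (∑' v, c v * (q v)⁻¹ * ((xq q T v - xq q T v ^ 2) * 1)) = PhiG q c T fun _ => 1 := rfl
      rw [e2]
      calc ε / (8 * M₁) * PhiG q c T (fun _ => 1) ≤ ε / (8 * M₁) * M₁ := by gcongr
        _ = ε / 8 := by field_simp
  have hq2 : ∀ᶠ T : ℝ in atTop, |(PhiG q c T fun x => p.eval x) - c'| ≤ ε / 8 := by
    have := (hcq.sub_const c').abs
    rw [sub_self, abs_zero] at this
    exact (this.eventually_lt_const (show (0 : ℝ) < ε / 8 by positivity)).mono fun T hT => hT.le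
  obtain ⟨T₀, hT₀⟩ := eventually_atTop.1 (hdiff.and hq2)
  refine ⟨T₀, fun T hT => ?_⟩
  obtain ⟨a1, a2⟩ := hT₀ T hT
  obtain ⟨b1, b2⟩ := hT₀ T₀ le_rfl
  rw [Real.dist_eq]
  have e1 : PhiG q c T h - PhiG q c T₀ h = (PhiG q c T h - PhiG q c T fun x => p.eval x) + ((PhiG q c T fun x => p.eval x) - c') -
      ((PhiG q c T₀ h - PhiG q c T₀ fun x => p.eval x) + ((PhiG q c T₀ fun x => p.eval x) - c')) := by ring
  rw [e1]
  rw [abs_le] at a1 a2 b1 b2
  rw [abs_lt]
  constructor <;> linarith [a1.1, a1.2, a2.1, a2.2, b1.1, b1.2, b2.1, b2.2]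

/-- **the sum with a general weight** -/
theorem Wts.kar (W : Wts q c ν C₀) {ω : ℝ → ℝ} {ω' : ℝ} (h0 : ω 0 = 1) (hd : HasDerivAt ω ω' 0)
    (hc : ∀ u : ℝ, 0 < u → ContinuousAt ω u) (hdec : Tendsto (fun u => ω u * Real.exp u) atTop (𝓝 0)) :
    (∀ T : ℝ, 0 < T → Summable fun v => c v * (q v)⁻¹ * ω (Real.log (q v) / T)) ∧
    ∃ c' : ℝ, Tendsto (fun T : ℝ => ∑' v, c v * (q v)⁻¹ * ω (Real.log (q v) / T) - ν * Real.log T)
      atTop (𝓝 c') := by
  obtain ⟨h, hcont, hform⟩ := weight_dec h0 hd hc hdec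
  obtain ⟨Mh, hMh⟩ := isCompact_Icc.exists_bound_of_continuousOn hcont
  have hMh' : ∀ x ∈ Set.Icc (0 : ℝ) 1, |h x| ≤ Mh := fun x hx => by simpa using hMh x hx
  have key : ∀ T : ℝ, 0 < T → ∀ v, c v * (q v)⁻¹ * ω (Real.log (q v) / T) =
      c v * (q v)⁻¹ * xq q T v ^ 1 + c v * (q v)⁻¹ * ((xq q T v - xq q T v ^ 2) * h (xq q T v)) := by
    intro T hT v
    obtain ⟨a0, a1⟩ := W.xq_mem hT v
    have e2 := hform _ a0 a1
    have e1 : -Real.log (xq q T v) = Real.log (q v) / T := by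
      unfold xq
      rw [Real.log_exp, neg_neg]
    rw [e1] at e2
    rw [e2]
    ring
  constructor
  · intro T hT
    refine ((W.pow_sum hT one_pos).1.add (W.Phi_sum hT hMh')).congr fun v => ?_
    rw [key T hT v]
  · obtain ⟨c', hc⟩ := W.Phi_conv hcont
    have hc' := W.lam_T 1 one_pos
    refine ⟨_, (hc'.add hc).congr' ?_⟩
    filter_upwards [eventually_gt_atTop (0 : ℝ)] with T hT
    have e1 : ∑' v, c v * (q v)⁻¹ * ω (Real.log (q v) / T) = ∑' v,
        (c v * (q v)⁻¹ * xq q T v ^ 1 + c v * (q v)⁻¹ * ((xq q T v - xq q T v ^ 2) * h (xq q T v))) :=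
      tsum_congr (key T hT)
    rw [e1, (W.pow_sum hT one_pos).1.tsum_add (W.Phi_sum hT hMh'), (W.pow_sum hT one_pos).2]
    unfold PhiG
    push_cast
    ring

theorem Wts.one (W : Wts q c ν C₀) (γ : ℝ) :
    (∀ T : ℝ, 0 < T → Summable fun v => c v * (q v)⁻¹ * wr γ (Real.log (q v) / T)) ∧
    ∃ c' : ℝ, Tendsto (fun T : ℝ => ∑' v, c v * (q v)⁻¹ * wr γ (Real.log (q v) / T) - ν * Real.log T)
      atTop (𝓝 c') :=
  W.kar (wr_zero γ) (wr_diff γ le_rfl).hasDerivAt (fun u hu => (wr_diff γ hu.le).continuousAt) (wr_dec γ)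

theorem Wts.two (W : Wts q c ν C₀) (γ : ℝ) :
    (∀ T : ℝ, 0 < T → Summable fun v => c v * (q v)⁻¹ * wr γ (Real.log (q v) / T) ^ 2) ∧
    ∃ c' : ℝ, Tendsto (fun T : ℝ => ∑' v, c v * (q v)⁻¹ * wr γ (Real.log (q v) / T) ^ 2 - ν * Real.log T)
      atTop (𝓝 c') := by
  refine W.kar (ω := fun u => wr γ u ^ 2) (by simp [wr_zero]) ((wr_diff γ le_rfl).pow 2).hasDerivAt
    (fun u hu => ((wr_diff γ hu.le).pow 2).continuousAt) ?_
  have h1 := wr_dec γ
  have h2 : Tendsto (fun u => (Real.exp 1 + 1) * |wr γ u * Real.exp u|) atTop (𝓝 0) := by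
    have := (h1.abs).const_mul (Real.exp 1 + 1)
    rwa [abs_zero, mul_zero] at this
  refine squeeze_zero_norm' ?_ h2
  filter_upwards [eventually_ge_atTop (0 : ℝ)] with u hu
  have h3 := wr_bd γ hu
  rw [Real.norm_eq_abs, pow_two, mul_assoc, abs_mul]
  gcongr

end Pool.Agent.X278.AV
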