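import Pool.Agent.X278.OP.Asc
import Pool.Agent.X287.CR8
import Pool.Agent.W189.ML.Sector

/-!
# The rotated sum of the inverses of the primes
-/

set_option autoImplicit false

namespace Pool.Agent.X278.AV

open Complex Filter Topology Set Asymptotics
open Pool.Agent.W189.ML Pool.Agent.X287.CR Pool.Agent.X278.OP
open Pool.Agent.W187.UR (Lam)

/-- convergent series -/
theorem conv_Asc {X : Type} (Λ : ℂ) (γ : ℝ) {c : X → ℂ} {l : X → ℝ} (h0 : ∀ x, 0 ≤ l x)
    (hs : Summable fun x => ‖c x‖) (hs' : Summable fun x => ‖c x‖ * l x) :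
    Asc Λ (fun T => ∑' x, c x * Wt γ (l x / T)) 0 (∑' x, c x) := by
  obtain ⟨Cw, hCw, hlip⟩ := Wt_lip γ
  unfold Asc
  refine IsBigO.of_bound (Cw * ∑' x, ‖c x‖ * l x) ?_
  filter_upwards [eventually_gt_atTop (0 : ℝ)] with T hT
  have h1 : Summable fun x => c x * Wt γ (l x / T) := by
    refine Summable.of_norm_bounded (hs.mul_right (Real.exp 1 + 1)) fun x => ?_
    have hx : 0 ≤ l x / T := div_nonneg (h0 x) hT.le
    rw [norm_mul, norm_Wt γ hx]
    gcongr
    exact om_le_const hx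
  have h2 : Summable c := hs.of_norm
  have e1 : (∑' x, c x * Wt γ (l x / T)) - (0 * ((Real.log T : ℂ) - Λ) + ∑' x, c x) =
      ∑' x, c x * (Wt γ (l x / T) - 1) := by
    rw [zero_mul, zero_add, ← h1.tsum_sub h2]
    exact tsum_congr fun x => by ring
  rw [e1, Real.norm_eq_abs, abs_of_pos (by positivity : (0 : ℝ) < 1 / T)]
  have h3 : ∀ x, ‖c x * (Wt γ (l x / T) - 1)‖ ≤ Cw / T * (‖c x‖ * l x) := by
    intro x
    have hx : 0 ≤ l x / T := div_nonneg (h0 x) hT.le
    have h4 := hlip (l x / T) 0 hx le_rfl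
    rw [Wt_zero, sub_zero, abs_of_nonneg hx] at h4
    rw [norm_mul]
    calc ‖c x‖ * ‖Wt γ (l x / T) - 1‖ ≤ ‖c x‖ * (Cw * (l x / T)) := by gcongr
      _ = _ := by ring
  refine (tsum_of_norm_bounded (hs'.mul_left (Cw / T)).hasSum h3).trans (le_of_eq ?_)
  rw [tsum_mul_left]
  ring

namespace Asc'

variable {Λ : ℂ} {S S' : ℝ → ℂ} {κ C κ' C' : ℂ}

theorem add (h : Asc Λ S κ C) (h' : Asc Λ S' κ' C') : Asc Λ (fun T => S T + S' T) (κ + κ') (C + C') := by
  unfold Asc at *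
  refine (h.add h').congr_left fun T => ?_
  ring

theorem const_mul (z : ℂ) (h : Asc Λ S κ C) : Asc Λ (fun T => z * S T) (z * κ) (z * C) := by
  unfold Asc at *
  refine (IsBigO.const_mul_left h z).congr_left fun T => ?_
  ring

theorem congr (h : Asc Λ S κ C) (he : ∀ T : ℝ, 0 < T → S' T = S T) : Asc Λ S' κ C := by
  unfold Asc at *
  refine h.congr' ?_ EventuallyEq.rfl
  filter_upwards [eventually_gt_atTop (0 : ℝ)] with T hT
  rw [he T hT]

end Asc'

theorem zeta_order : MeromorphicAt riemannZeta 1 ∧ meromorphicOrderAt riemannZeta 1 = ((-1 : ℤ) : WithTop ℤ) := by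
  set g : ℂ → ℂ := DirichletCharacter.LFunctionTrivChar₁ 1 with hg
  have hg1 : AnalyticAt ℂ g 1 :=
    (DirichletCharacter.differentiable_LFunctionTrivChar₁ 1).analyticAt 1
  have hg2 : g 1 ≠ 0 := DirichletCharacter.LFunctionTrivChar₁_apply_one_ne_zero 1
  have hev : ∀ᶠ z in 𝓝[≠] (1 : ℂ), riemannZeta z = (z - 1) ^ (-1 : ℤ) • g z := by
    filter_upwards [self_mem_nhdsWithin] with z hz
    have hz1 : z ≠ 1 := hz
    have h1 : g z = (z - 1) * riemannZeta z := by
      rw [hg]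
      unfold DirichletCharacter.LFunctionTrivChar₁
      rw [Function.update_of_ne hz1]
      unfold DirichletCharacter.LFunctionTrivChar
      rw [DirichletCharacter.LFunction_modOne_eq]
    rw [h1, zpow_neg_one, smul_eq_mul, ← mul_assoc, inv_mul_cancel₀ (sub_ne_zero.2 hz1), one_mul]
  have hm : MeromorphicAt riemannZeta 1 := by
    have h2 : MeromorphicAt (fun z : ℂ => (z - 1) ^ (-1 : ℤ) • g z) 1 :=
      ((MeromorphicAt.id 1).sub (MeromorphicAt.const 1 1)).zpow (-1) |>.smul hg1.meromorphicAt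
    exact h2.congr (hev.mono fun z hz => hz.symm)
  exact ⟨hm, (meromorphicOrderAt_eq_int_iff hm).2 ⟨g, hg1, hg2, hev⟩⟩

theorem zeta_law {γ : ℝ} (hγ : Real.pi / 2 < γ) : ∃ r₀ : ℂ, Asy (Lam γ) (Su pq on 1 γ) (-1) r₀ := by
  obtain ⟨m, r₀, h1, -, h3⟩ := on_sys.law (L := riemannZeta) (fun s hs => by
      have hs' : 1 < s.re := by linarith
      have := riemannZeta_eulerProduct_hasProd hs'
      unfold fac on pq
      simpa only [one_mul, Finset.univ_unique, Finset.prod_singleton] using this)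
    (s₀ := 1) (by norm_num) (fun x hx0 hx1 => by
      have h5 : x = 0 := by
        rw [Complex.one_re] at hx1
        linarith
      rw [h5, Complex.ofReal_zero, add_zero]
      exact zeta_order.1) hγ
  have h4 : m = -1 := by
    rw [zeta_order.2] at h1
    exact_mod_cast h1.symm
  subst h4
  exact ⟨r₀, h3⟩

/-- **the rotated sum of the `1 / p`** -/
theorem prime_law {γ : ℝ} (hγ : Real.pi / 2 < γ) : ∃ C : ℂ,
    Asc (Lam γ) (fun T => ∑' p : Nat.Primes, (((p : ℕ) : ℂ))⁻¹ * Wt γ (Real.log (p : ℕ) / T)) 1 C := by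
  obtain ⟨r₀, h⟩ := zeta_law hγ
  have G := on_sys
  -- the higher powers
  set c : Nat.Primes × ℕ → ℂ := fun x => cc pq on 1 (x.1, x.2 + 1) with hc
  set l : Nat.Primes × ℕ → ℝ := fun x => lam pq (x.1, x.2 + 1) with hl
  have hl0 : ∀ x, 0 ≤ l x := fun x => G.lam_nonneg _
  have hcl : ∀ x, ‖c x‖ * l x ≤ 4 * (1 : ℕ) * ((pq x.1 : ℝ) ^ (-(5 / 4) : ℝ) * (((x.2 : ℝ) + 2) * (3 / 4) ^ x.2)) := by
    rintro ⟨v, k⟩
    have h1 := G.cc_le 1 (v, k + 1)
    have h2 := h_le G v k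
    have hq := G.qpos v
    have h0 := (Real.rpow_pos_of_pos hq (-(1 / 2) : ℝ)).le
    have h3 : (pq v : ℝ) ^ (-(1 / 2) : ℝ) ≤ 1 := (half_le G v).trans (by norm_num)
    have h4 : ((pq v : ℝ) ^ ((0 : ℝ) - (1 : ℂ).re)) ^ (k + 1 + 1) ≤ ((pq v : ℝ) ^ (-(1 / 2) : ℝ)) ^ (k + 3) := by
      have e1 : (pq v : ℝ) ^ ((0 : ℝ) - (1 : ℂ).re) = ((pq v : ℝ) ^ (-(1 / 2) : ℝ)) ^ 2 := by
        rw [← Real.rpow_natCast, ← Real.rpow_mul hq.le]
        congr 1
        rw [Complex.one_re]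
        norm_num
      rw [e1, ← pow_mul]
      exact pow_le_pow_of_le_one h0 h3 (by omega)
    have h5 : l (v, k) = ((k : ℝ) + 2) * Real.log (pq v) := by
      simp only [hl]
      unfold lam
      push_cast
      ring
    rw [h5]
    refine le_trans (mul_le_mul_of_nonneg_right (h1.trans ?_) ?_) h2
    · exact mul_le_mul_of_nonneg_left h4 (Nat.cast_nonneg _)
    · have := (G.logpos v).le
      positivity
  have hs' : Summable fun x => ‖c x‖ * l x :=
    Summable.of_nonneg_of_le (fun x => mul_nonneg (norm_nonneg _) (hl0 x)) hcl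
      ((geo_sum G).mul_left (4 * ((1 : ℕ) : ℝ)))
  have hs : Summable fun x => ‖c x‖ := by
    refine Summable.of_nonneg_of_le (fun x => norm_nonneg _) (fun x => ?_) (hs'.mul_left (Real.log 2)⁻¹)
    have hlog2 : 0 < Real.log 2 := Real.log_pos (by norm_num)
    have h5 : l x = ((x.2 : ℝ) + 2) * Real.log (pq x.1) := by
      simp only [hl]
      unfold lam
      push_cast
      ring
    have h6 : Real.log 2 ≤ Real.log (pq x.1) := Real.log_le_log (by norm_num) (G.two_le' x.1)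
    have h7 : Real.log 2 ≤ l x := by
      rw [h5]
      have : (0 : ℝ) ≤ x.2 := Nat.cast_nonneg _
      nlinarith
    rw [← div_eq_inv_mul, le_div_iff₀ hlog2]
    exact mul_le_mul_of_nonneg_left h7 (norm_nonneg _)
  have h2 := conv_Asc (Lam γ) γ hl0 hs hs'
  have h1 : Asc (Lam γ) (Su pq on 1 γ) (-1) (-r₀) := by
    unfold Asc
    unfold Asy at h
    refine h.congr_left fun T => ?_
    push_cast
    ring
  have h3 := Asc'.add (Asc'.const_mul (-1) h1) (Asc'.const_mul (-1) h2)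
  refine ⟨-1 * -r₀ + -1 * ∑' x, c x, ?_⟩
  have h4 := Asc'.congr (S' := fun T => ∑' p : Nat.Primes, (((p : ℕ) : ℂ))⁻¹ * Wt γ (Real.log (p : ℕ) / T)) h3
    (fun T hT => ?_)
  · have e1 : (-1 : ℂ) * -1 + -1 * 0 = 1 := by norm_num
    rw [e1] at h4
    exact h4
  · have st : Summable fun x => cc pq on 1 x * Wt γ (lam pq x / T) := by
      have := (G.tm_summable (s₀ := 1) (by norm_num) γ hT).of_norm
      refine this.neg.congr fun x => ?_
      rw [tm_Wt, neg_neg]
    obtain ⟨e1, -, -⟩ := split st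
    rw [Su_Wt, e1]
    have e2 : ∀ v, cc pq on 1 (v, 0) * Wt γ (lam pq (v, 0) / T) =
        (((v : ℕ) : ℂ))⁻¹ * Wt γ (Real.log (v : ℕ) / T) := by
      intro v
      have l2 : lam pq (v, 0) = Real.log (v : ℕ) := by unfold lam pq; simp
      have hv : ((v : ℕ) : ℂ) ≠ 0 := by exact_mod_cast v.2.ne_zero
      rw [l2]
      congr 1
      unfold cc on
      rw [l2]
      simp only [Finset.univ_unique, Finset.sum_singleton, one_pow, one_mul, Nat.cast_zero, zero_add, div_one]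
      have hv0 : (0 : ℝ) < ((v : ℕ) : ℝ) := by exact_mod_cast v.2.pos
      rw [Complex.exp_neg, ← Complex.ofReal_exp, Real.exp_log hv0]
      push_cast
      rfl
    simp only [e2]
    ring

/-- a bound for the sum of the squares of the weights -/
theorem var_bound (γ : ℝ) : ∃ C : ℝ, ∀ᶠ T : ℝ in atTop,
    Summable (fun p : Nat.Primes => (((p : ℕ) : ℝ))⁻¹ * ‖Wt γ (Real.log (p : ℕ) / T)‖ ^ 2) ∧
    ∑' p : Nat.Primes, (((p : ℕ) : ℝ))⁻¹ * ‖Wt γ (Real.log (p : ℕ) / T)‖ ^ 2 ≤ C * Real.log T := by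
  obtain ⟨C, hC⟩ := Pool.Agent.H341R2.lam_bounded
  set A : ℝ := Real.exp (Real.exp 1) + 1 with hA
  have hA0 : 0 < A := by positivity
  have ht : Tendsto (fun T : ℝ => 1 / T) atTop (𝓝[>] 0) := by
    have := tendsto_inv_atTop_nhdsGT_zero (𝕜 := ℝ)
    simpa only [one_div] using this
  refine ⟨A ^ 2 * (1 + |C|), ?_⟩
  filter_upwards [ht.eventually hC, eventually_ge_atTop (Real.exp 1)] with T h1 h2
  have hT : 0 < T := (Real.exp_pos 1).trans_le h2
  have hlogT : 1 ≤ Real.log T := by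
    rw [← Real.log_exp 1]
    exact Real.log_le_log (Real.exp_pos 1) h2
  have hs : Summable fun p : Nat.Primes => ((p : ℕ) : ℝ) ^ (-(1 + 1 / T)) :=
    on_sys.sum (1 + 1 / T) (by have : 0 < 1 / T := by positivity
                               linarith)
  have hle : ∀ p : Nat.Primes, (((p : ℕ) : ℝ))⁻¹ * ‖Wt γ (Real.log (p : ℕ) / T)‖ ^ 2 ≤
      A ^ 2 * ((p : ℕ) : ℝ) ^ (-(1 + 1 / T)) := by
    intro p
    have hp0 : (0 : ℝ) < (p : ℕ) := by exact_mod_cast p.2.pos
    have hp1 : (1 : ℝ) ≤ (p : ℕ) := by exact_mod_cast p.2.one_le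
    have hl := Real.log_nonneg hp1
    have hu : 0 ≤ Real.log (p : ℕ) / T := div_nonneg hl hT.le
    rw [norm_Wt γ hu]
    have h3 := om_le (a := 1) (v := Real.log (p : ℕ) / T) (by norm_num) hu
    rw [one_mul] at h3
    have h4 := om_nonneg hu
    have h5 : om (Real.log (p : ℕ) / T) ^ 2 ≤ A ^ 2 * Real.exp (-(Real.log (p : ℕ) / T)) := by
      calc om (Real.log (p : ℕ) / T) ^ 2 ≤ (A * Real.exp (-(Real.log (p : ℕ) / T))) ^ 2 :=
            pow_le_pow_left₀ h4 h3 2
        _ = A ^ 2 * (Real.exp (-(Real.log (p : ℕ) / T)) * Real.exp (-(Real.log (p : ℕ) / T))) := by ring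
        _ ≤ A ^ 2 * (Real.exp (-(Real.log (p : ℕ) / T)) * 1) := by
            gcongr
            exact Real.exp_le_one_iff.2 (by linarith)
        _ = _ := by ring
    have h6 : ((p : ℕ) : ℝ) ^ (-(1 + 1 / T)) = (((p : ℕ) : ℝ))⁻¹ * Real.exp (-(Real.log (p : ℕ) / T)) := by
      rw [show -(1 + 1 / T) = (-1 : ℝ) + -(1 / T) by ring, Real.rpow_add hp0, Real.rpow_neg_one]
      congr 1
      rw [Real.rpow_def_of_pos hp0]
      congr 1
      ring
    rw [h6]
    calc _ ≤ (((p : ℕ) : ℝ))⁻¹ * (A ^ 2 * Real.exp (-(Real.log (p : ℕ) / T))) := by gcongr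
      _ = _ := by ring
  have hsum : Summable (fun p : Nat.Primes => (((p : ℕ) : ℝ))⁻¹ * ‖Wt γ (Real.log (p : ℕ) / T)‖ ^ 2) :=
    Summable.of_nonneg_of_le (fun p => by positivity) hle (hs.mul_left (A ^ 2))
  refine ⟨hsum, (hsum.tsum_le_tsum hle (hs.mul_left (A ^ 2))).trans ?_⟩
  rw [tsum_mul_left]
  have h7 : ∑' p : Nat.Primes, ((p : ℕ) : ℝ) ^ (-(1 + 1 / T)) = Pool.Agent.H341R2.lam (1 / T) := rfl
  rw [h7, mul_assoc]
  refine mul_le_mul_of_nonneg_left ?_ (by positivity)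
  have h8 := (abs_le.1 h1).2
  rw [one_div, Real.log_inv] at h8
  rw [one_div]
  have h9 := le_abs_self C
  have h10 := abs_nonneg C
  nlinarith

end Pool.Agent.X278.AV
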