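import Pool.Agent.X278.AV.Height

/-!
# The local functions with a twist by a number
-/

set_option autoImplicit false

namespace Pool.Agent.X278.AV

open Finset
open Pool.Agent.TH942.ES (rt rt_norm rt_prod)

theorem log_exp2 {z : ℂ} (hz : ‖z‖ ≤ 5 / 7) :
    |Real.log ‖1 - z‖ - (-z.re - (z ^ 2).re / 2)| ≤ 2 * ‖z‖ ^ 3 ∧ |Real.log ‖1 - z‖| ≤ 4 * ‖z‖ := by
  have h0 : ‖-z‖ < 1 := by rw [norm_neg]; linarith
  have h1 := Complex.norm_log_sub_logTaylor_le 2 h0
  have h2 := Complex.norm_log_sub_logTaylor_le 0 h0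
  have hinv : (1 - ‖z‖)⁻¹ ≤ 7 / 2 := by
    rw [inv_le_comm₀ (by linarith) (by norm_num)]
    linarith
  have hn := norm_nonneg z
  rw [norm_neg] at h1 h2
  have hlog : Real.log ‖1 - z‖ = (Complex.log (1 + -z)).re := by
    rw [Complex.log_re, sub_eq_add_neg]
  constructor
  · have e1 : (Complex.logTaylor (2 + 1) (-z)).re = -z.re - (z ^ 2).re / 2 := by
      have e2 : Complex.logTaylor (2 + 1) (-z) = -z - z ^ 2 / 2 := by
        rw [Complex.logTaylor_succ, Complex.logTaylor_succ, Complex.logTaylor_succ, Complex.logTaylor_zero]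
        simp only [Pi.add_apply, Pi.zero_apply]
        push_cast
        ring_nf
      rw [e2, Complex.sub_re, Complex.neg_re]
      congr 1
      have : (z ^ 2 / 2) = (z ^ 2) / ((2 : ℝ) : ℂ) := by norm_num
      rw [this, Complex.div_ofReal_re]
    have h3 := (Complex.abs_re_le_norm _).trans h1
    rw [Complex.sub_re, e1, ← hlog] at h3
    refine h3.trans ?_
    have h4 : ‖z‖ ^ (2 + 1) * (1 - ‖z‖)⁻¹ / ((2 : ℕ) + 1 : ℝ) ≤ ‖z‖ ^ 3 * (7 / 2) / 3 := by
      have : ((2 : ℕ) + 1 : ℝ) = 3 := by norm_num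
      rw [this]
      gcongr
    refine h4.trans ?_
    have : 0 ≤ ‖z‖ ^ 3 := by positivity
    linarith
  · have e2 : Complex.logTaylor (0 + 1) (-z) = 0 := by
      rw [Complex.logTaylor_succ, Complex.logTaylor_zero]
      simp
    rw [e2, sub_zero] at h2
    have h3 := (Complex.abs_re_le_norm _).trans h2
    rw [← hlog] at h3
    refine h3.trans ?_
    have h4 : ‖z‖ ^ (0 + 1) * (1 - ‖z‖)⁻¹ / ((0 : ℕ) + 1 : ℝ) ≤ ‖z‖ * (7 / 2) := by
      have : ((0 : ℕ) + 1 : ℝ) = 1 := by norm_num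
      rw [this, div_one, zero_add, pow_one]
      gcongr
    linarith

theorem rt_add (t : ℝ) : rt t 0 + rt t 1 = 2 * t := by
  have e0 : rt t 0 = t + √(1 - t ^ 2) * Complex.I := rfl
  have e1 : rt t 1 = t - √(1 - t ^ 2) * Complex.I := rfl
  rw [e0, e1]; ring

theorem rt_mul {t : ℝ} (ht : |t| ≤ 1) : rt t 0 * rt t 1 = 1 := by
  have h3 := rt_prod ht 1
  have h4 : (1 - rt t 0 * 1) * (1 - rt t 1 * 1) = 1 - (rt t 0 + rt t 1) + rt t 0 * rt t 1 := by ring
  rw [h4, rt_add] at h3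
  linear_combination h3

section

variable {k : Type} [Field k] [Fintype k] [DecidableEq k]

/-- the local function -/
noncomputable def fT (μ : ℂ) (a b : k) : ℝ :=
  if (6 : k) * (4 * a ^ 3 + 27 * b ^ 2) = 0 then 0 else
    Real.log ‖1 + ((TT a b : ℤ) : ℂ) / (Fintype.card k : ℂ) * μ + μ ^ 2 / (Fintype.card k : ℂ)‖

/-- the main terms -/
noncomputable def gT (μ : ℂ) (a b : k) : ℝ :=
  ((TT a b : ℤ) : ℝ) / (Fintype.card k : ℝ) * μ.re -
    (((TT a b : ℤ) : ℝ) ^ 2 - 2 * (Fintype.card k : ℝ)) / (2 * (Fintype.card k : ℝ) ^ 2) * (μ ^ 2).re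

theorem inv_sqrt_le {q : ℝ} (hq : 2 ≤ q) : 1 / √q ≤ 5 / 7 := by
  have h1 : (7 / 5 : ℝ) ≤ √q := by
    apply Real.le_sqrt_of_sq_le
    norm_num
    linarith
  rw [div_le_div_iff₀ (by linarith) (by norm_num)]
  linarith

/-- **size and expansion of the local function** -/
theorem fT_exp {μ : ℂ} (hμ : ‖μ‖ ≤ 1) {a b : k} (h : (6 : k) * (4 * a ^ 3 + 27 * b ^ 2) ≠ 0) :
    |fT μ a b - gT μ a b| ≤ 4 / (√(Fintype.card k) * Fintype.card k) ∧ |fT μ a b| ≤ 8 / √(Fintype.card k) := by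
  set q : ℝ := ((Fintype.card k : ℕ) : ℝ) with hqd
  have hq2 : 2 ≤ q := by
    rw [hqd]
    exact_mod_cast (Fintype.one_lt_card : 1 < Fintype.card k)
  have hq0 : 0 < q := by linarith
  set r : ℝ := √q with hr
  have hr0 : 0 < r := Real.sqrt_pos.2 hq0
  have hrq : r ^ 2 = q := Real.sq_sqrt hq0.le
  have hrc : (r : ℂ) ≠ 0 := by exact_mod_cast hr0.ne'
  have hrqc : (r : ℂ) ^ 2 = (q : ℂ) := by rw [← Complex.ofReal_pow, hrq]
  set t : ℝ := ((TT a b : ℤ) : ℝ) with ht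
  have htb : |t| ≤ 2 * r := TT_bound h
  set u : ℝ := -t / (2 * r) with hu
  have hub : |u| ≤ 1 := by
    rw [hu, abs_div, abs_neg, abs_of_pos (by linarith : 0 < 2 * r), div_le_one (by linarith)]
    exact htb
  set x : ℂ := μ / r with hx
  have hxn : ‖x‖ ≤ 1 / r := by
    rw [hx, norm_div, Complex.norm_real, Real.norm_eq_abs, abs_of_pos hr0]
    gcongr
  have hzn : ∀ i, ‖rt u i * x‖ ≤ 1 / r := by
    intro i
    rw [norm_mul]
    calc ‖rt u i‖ * ‖x‖ ≤ 1 * (1 / r) := by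
          gcongr
          exact rt_norm hub i
      _ = _ := one_mul _
  have h57 : 1 / r ≤ 5 / 7 := inv_sqrt_le hq2
  have hfT : fT μ a b = Real.log ‖1 - rt u 0 * x‖ + Real.log ‖1 - rt u 1 * x‖ := by
    have hne : ∀ i, ‖1 - rt u i * x‖ ≠ 0 := by
      intro i h0
      have h1 : 1 - rt u i * x = 0 := norm_eq_zero.1 h0
      have h2 : ‖rt u i * x‖ = 1 := by
        have : rt u i * x = 1 := (sub_eq_zero.1 h1).symm
        rw [this, norm_one]
      have := (hzn i).trans h57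
      linarith
    unfold fT
    rw [if_neg h, ← Real.log_mul (hne 0) (hne 1), ← norm_mul, rt_prod hub x]
    congr 2
    have e1 : ((TT a b : ℤ) : ℂ) = (t : ℂ) := by
      rw [ht]; push_cast; rfl
    have e2 : ((Fintype.card k : ℕ) : ℂ) = (r : ℂ) ^ 2 := by
      rw [hrqc, hqd]; push_cast; rfl
    rw [e1, e2, hx, hu]
    push_cast
    field_simp
    ring
  have hg : gT μ a b = (-(rt u 0 * x).re - ((rt u 0 * x) ^ 2).re / 2) +
      (-(rt u 1 * x).re - ((rt u 1 * x) ^ 2).re / 2) := by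
    have e1 : (rt u 0 * x).re + (rt u 1 * x).re = -(t / q * μ.re) := by
      rw [← Complex.add_re, ← add_mul, rt_add]
      have : (2 * (u : ℂ)) * x = ((-(t / q) : ℝ) : ℂ) * μ := by
        rw [hx, hu]
        push_cast
        rw [← hrqc]
        field_simp
      rw [this, Complex.re_ofReal_mul]
      ring
    have e2 : ((rt u 0 * x) ^ 2).re + ((rt u 1 * x) ^ 2).re = (t ^ 2 - 2 * q) / q ^ 2 * (μ ^ 2).re := by
      rw [← Complex.add_re]
      have : (rt u 0 * x) ^ 2 + (rt u 1 * x) ^ 2 = (((t ^ 2 - 2 * q) / q ^ 2 : ℝ) : ℂ) * μ ^ 2 := by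
        have e3 : (rt u 0 * x) ^ 2 + (rt u 1 * x) ^ 2 =
            ((rt u 0 + rt u 1) ^ 2 - 2 * (rt u 0 * rt u 1)) * x ^ 2 := by ring
        rw [e3, rt_add, rt_mul hub, hx, hu]
        push_cast
        rw [← hrqc]
        field_simp
      rw [this, Complex.re_ofReal_mul]
    have e3 : (-(rt u 0 * x).re - ((rt u 0 * x) ^ 2).re / 2) + (-(rt u 1 * x).re - ((rt u 1 * x) ^ 2).re / 2) =
        -((rt u 0 * x).re + (rt u 1 * x).re) - (((rt u 0 * x) ^ 2).re + ((rt u 1 * x) ^ 2).re) / 2 := by ring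
    rw [e3, e1, e2]
    unfold gT
    rw [← ht, ← hqd]
    field_simp
  have k0 := log_exp2 ((hzn 0).trans h57)
  have k1 := log_exp2 ((hzn 1).trans h57)
  have c1 : ∀ i, 2 * ‖rt u i * x‖ ^ 3 ≤ 2 / (r * q) := by
    intro i
    calc 2 * ‖rt u i * x‖ ^ 3 ≤ 2 * (1 / r) ^ 3 := by
          gcongr
          exact hzn i
      _ = 2 / (r * q) := by rw [← hrq]; field_simp
  have c2 : ∀ i, 4 * ‖rt u i * x‖ ≤ 4 / r := by
    intro i
    calc 4 * ‖rt u i * x‖ ≤ 4 * (1 / r) := by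
          gcongr
          exact hzn i
      _ = 4 / r := by ring
  constructor
  · rw [hfT, hg]
    have e1 : Real.log ‖1 - rt u 0 * x‖ + Real.log ‖1 - rt u 1 * x‖ -
        ((-(rt u 0 * x).re - ((rt u 0 * x) ^ 2).re / 2) + (-(rt u 1 * x).re - ((rt u 1 * x) ^ 2).re / 2)) =
        (Real.log ‖1 - rt u 0 * x‖ - (-(rt u 0 * x).re - ((rt u 0 * x) ^ 2).re / 2)) +
        (Real.log ‖1 - rt u 1 * x‖ - (-(rt u 1 * x).re - ((rt u 1 * x) ^ 2).re / 2)) := by ring
    rw [e1]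
    refine (abs_add_le _ _).trans ((add_le_add (k0.1.trans (c1 0)) (k1.1.trans (c1 1))).trans (le_of_eq ?_))
    ring
  · rw [hfT]
    refine (abs_add_le _ _).trans ((add_le_add (k0.2.trans (c2 0)) (k1.2.trans (c2 1))).trans (le_of_eq ?_))
    ring

theorem fT_size {μ : ℂ} (hμ : ‖μ‖ ≤ 1) (a b : k) : |fT μ a b| ≤ 8 / √(Fintype.card k) := by
  by_cases h : (6 : k) * (4 * a ^ 3 + 27 * b ^ 2) = 0
  · unfold fT
    rw [if_pos h, abs_zero]
    positivity
  · exact (fT_exp hμ h).2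

/-- **the mean of the local function** -/
theorem fT_mean (h6 : (6 : k) ≠ 0) {μ : ℂ} (hμ : ‖μ‖ ≤ 1) :
    |(∑ a : k, ∑ b : k, fT μ a b) / (Fintype.card k : ℝ) ^ 2 - (μ ^ 2).re / (2 * Fintype.card k)| ≤
      11 / (√(Fintype.card k) * Fintype.card k) := by
  set q : ℝ := ((Fintype.card k : ℕ) : ℝ) with hqd
  have hq1 : (1 : ℝ) ≤ q := by
    rw [hqd]
    exact_mod_cast (Fintype.card_pos : 0 < Fintype.card k)
  have hq0 : 0 < q := by linarith
  set r : ℝ := √q with hr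
  have hr0 : 0 < r := Real.sqrt_pos.2 hq0
  have hrq : r ^ 2 = q := Real.sq_sqrt hq0.le
  have hr1 : 1 ≤ r := Real.one_le_sqrt.2 hq1
  have hrle : r ≤ q := by rw [← hrq]; nlinarith
  have hμ1 : |μ.re| ≤ 1 := (Complex.abs_re_le_norm _).trans hμ
  have hμ2 : |(μ ^ 2).re| ≤ 1 := (Complex.abs_re_le_norm _).trans (by
    rw [norm_pow]
    exact pow_le_one₀ (norm_nonneg _) hμ)
  have hcmp : ∀ a b : k, |fT μ a b - gT μ a b| ≤ 4 / (r * q) +
      (if 4 * a ^ 3 + 27 * b ^ 2 = 0 then 3 / q else 0) := by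
    intro a b
    by_cases h : 4 * a ^ 3 + 27 * b ^ 2 = 0
    · rw [if_pos h]
      have h1 : fT μ a b = 0 := by
        unfold fT
        rw [if_pos (by rw [h, mul_zero])]
      have h2 : |((TT a b : ℤ) : ℝ)| ≤ 1 := by
        have := TT_sing h6 h
        exact_mod_cast this
      have h3 : |gT μ a b| ≤ 3 / q := by
        unfold gT
        rw [← hqd]
        set t : ℝ := ((TT a b : ℤ) : ℝ) with ht
        have h4 : |t / q * μ.re| ≤ 1 / q := by
          rw [abs_mul, abs_div, abs_of_pos hq0]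
          calc |t| / q * |μ.re| ≤ 1 / q * 1 := by gcongr
            _ = _ := mul_one _
        have h5 : |(t ^ 2 - 2 * q) / (2 * q ^ 2) * (μ ^ 2).re| ≤ 2 / q := by
          rw [abs_mul, abs_div, abs_of_pos (by positivity : 0 < 2 * q ^ 2)]
          have h6' : |t ^ 2 - 2 * q| ≤ 2 * q + 1 := by
            have : t ^ 2 ≤ 1 := by rw [← sq_abs]; nlinarith [abs_nonneg t]
            rw [abs_le]
            constructor <;> nlinarith [sq_nonneg t]
          calc |t ^ 2 - 2 * q| / (2 * q ^ 2) * |(μ ^ 2).re| ≤ (2 * q + 1) / (2 * q ^ 2) * 1 := by gcongr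
            _ ≤ 2 / q := by
              rw [mul_one, div_le_div_iff₀ (by positivity) hq0]
              nlinarith
        have h8 := abs_sub (t / q * μ.re) ((t ^ 2 - 2 * q) / (2 * q ^ 2) * (μ ^ 2).re)
        have h9 : (3 : ℝ) / q = 1 / q + 2 / q := by ring
        rw [h9]
        exact h8.trans (add_le_add h4 h5)
      rw [h1, zero_sub, abs_neg]
      have : 0 ≤ 4 / (r * q) := by positivity
      linarith
    · rw [if_neg h, add_zero]
      exact (fT_exp hμ (mul_ne_zero h6 h)).1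
  have hsum1 : |∑ a : k, ∑ b : k, fT μ a b - ∑ a : k, ∑ b : k, gT μ a b| ≤ q ^ 2 * (4 / (r * q)) + 6 := by
    rw [← Finset.sum_sub_distrib]
    simp only [← Finset.sum_sub_distrib]
    refine (Finset.abs_sum_le_sum_abs _ _).trans ((Finset.sum_le_sum fun a _ =>
      (Finset.abs_sum_le_sum_abs _ _).trans (Finset.sum_le_sum fun b _ => hcmp a b)).trans ?_)
    simp only [Finset.sum_add_distrib, Finset.sum_const, Finset.card_univ, nsmul_eq_mul]
    have h1 : ∑ a : k, ∑ b : k, (if 4 * a ^ 3 + 27 * b ^ 2 = 0 then 3 / q else 0) ≤ 6 := by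
      have h2 : ∀ a : k, ∑ b : k, (if 4 * a ^ 3 + 27 * b ^ 2 = 0 then 3 / q else (0 : ℝ)) =
          ((univ.filter fun b : k => 4 * a ^ 3 + 27 * b ^ 2 = 0).card : ℝ) * (3 / q) := by
        intro a
        rw [← Finset.sum_filter, Finset.sum_const, nsmul_eq_mul]
      simp only [h2]
      rw [← Finset.sum_mul]
      have h3 : (∑ a : k, ((univ.filter fun b : k => 4 * a ^ 3 + 27 * b ^ 2 = 0).card : ℝ)) ≤ 2 * q := by
        have := card_sing h6
        rw [hqd]
        exact_mod_cast this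
      calc _ ≤ (2 * q) * (3 / q) := by gcongr
        _ = 6 := by field_simp; norm_num
    rw [← hqd]
    have e1 : q * (q * (4 / (r * q))) = q ^ 2 * (4 / (r * q)) := by ring
    rw [e1]
    linarith
  have hM1 : ∑ a : k, ∑ b : k, ((TT a b : ℤ) : ℝ) = 0 := by
    have := moment1 h6
    exact_mod_cast this
  have hM2 : ∑ a : k, ∑ b : k, ((TT a b : ℤ) : ℝ) ^ 2 = q ^ 2 * (q - 1) := by
    have := congrArg (fun z : ℤ => (z : ℝ)) (moment2 h6)
    rw [hqd]
    push_cast at this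
    exact this
  have hgs : ∑ a : k, ∑ b : k, gT μ a b = (q + 1) / 2 * (μ ^ 2).re := by
    have e1 : ∀ a b : k, gT μ a b = (μ ^ 2).re / q + (μ.re / q) * ((TT a b : ℤ) : ℝ) -
        ((μ ^ 2).re / (2 * q ^ 2)) * ((TT a b : ℤ) : ℝ) ^ 2 := by
      intro a b
      unfold gT
      rw [← hqd]
      field_simp
      ring
    simp only [e1]
    simp only [Finset.sum_sub_distrib, Finset.sum_add_distrib, ← Finset.mul_sum, hM1, hM2,
      Finset.sum_const, Finset.card_univ, nsmul_eq_mul]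
    rw [← hqd]
    field_simp
    ring
  rw [hgs] at hsum1
  have e1 : (∑ a : k, ∑ b : k, fT μ a b) / q ^ 2 - (μ ^ 2).re / (2 * q) =
      (∑ a : k, ∑ b : k, fT μ a b - (q + 1) / 2 * (μ ^ 2).re) / q ^ 2 + (μ ^ 2).re / (2 * q ^ 2) := by
    field_simp
    ring
  rw [e1]
  have h1 : |(∑ a : k, ∑ b : k, fT μ a b - (q + 1) / 2 * (μ ^ 2).re) / q ^ 2| ≤ 4 / (r * q) + 6 / (r * q) := by
    rw [abs_div, abs_of_pos (by positivity : 0 < q ^ 2), div_le_iff₀ (by positivity)]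
    refine hsum1.trans ?_
    have : 6 ≤ 6 / (r * q) * q ^ 2 := by
      have e2 : 6 / (r * q) * q ^ 2 = 6 * (q / r) := by field_simp
      rw [e2]
      have : 1 ≤ q / r := by rw [le_div_iff₀ hr0]; linarith
      linarith
    nlinarith
  have h2 : |(μ ^ 2).re / (2 * q ^ 2)| ≤ 1 / (r * q) := by
    rw [abs_div, abs_of_pos (by positivity : 0 < 2 * q ^ 2), div_le_div_iff₀ (by positivity) (by positivity)]
    have : r * q ≤ q ^ 2 := by nlinarith
    nlinarith [abs_nonneg (μ ^ 2).re]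
  refine (abs_add_le _ _).trans ((add_le_add h1 h2).trans (le_of_eq ?_))
  ring

end

end Pool.Agent.X278.AV
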