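import Pool.Agent.X278.AV.Gen2

/-!
# The mean square and the law of large numbers for local functions of size `p^{-1/2}`
-/

set_option autoImplicit false

namespace Pool.Agent.X278.AV

open Filter Topology Asymptotics
open Pool.Agent.W189.ML Pool.Agent.X287.CR Pool.Agent.X278.OP
open Pool.Agent.W187.UR (Lam)

variable {ι : Type} {F : ℕ → Finset ι} {f : Nat.Primes → ι → ℝ} {e : Nat.Primes → ℝ} {B : ℝ}

/-- the rotated sum -/
noncomputable def SL {ι : Type} (f : Nat.Primes → ι → ℝ) (γ T : ℝ) (x : ι) : ℂ :=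
  ∑' p : Nat.Primes, ((f p x : ℝ) : ℂ) * Wt γ (Real.log (p : ℕ) / T)

/-- the rotated sum of the means -/
noncomputable def AL (e : Nat.Primes → ℝ) (γ T : ℝ) : ℂ :=
  ∑' p : Nat.Primes, ((e p : ℝ) : ℂ) * Wt γ (Real.log (p : ℕ) / T)

/-- **means for fixed `T`** -/
theorem Loc.firstL (L : Loc F f (fun p => B / √((p : ℕ) : ℝ)) e) (hB : 0 ≤ B) (γ : ℝ) {T : ℝ} (hT : 0 < T) :
    Tendsto (fun X => meanC (F X) (SL f γ T)) atTop (𝓝 (AL e γ T)) :=
  L.first (wt_sum hT hB)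

/-- **the mean square deviation** -/
theorem Loc.secondL (L : Loc F f (fun p => B / √((p : ℕ) : ℝ)) e) (hB : 0 ≤ B) (γ : ℝ) :
    ∃ V : ℝ, 0 ≤ V ∧ ∀ᶠ T : ℝ in atTop, ∀ᶠ X in atTop,
    mean (F X) (fun x => ‖SL f γ T x - AL e γ T‖ ^ 2) ≤ V * Real.log T := by
  obtain ⟨C, hC⟩ := var_bound γ
  refine ⟨4 * (B ^ 2 * |C|) + 1, by positivity, ?_⟩
  filter_upwards [hC, Filter.eventually_ge_atTop (Real.exp 1)] with T ⟨h1, h2⟩ h3
  have hT : 0 < T := (Real.exp_pos 1).trans_le h3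
  have hlogT : 1 ≤ Real.log T := by
    rw [← Real.log_exp 1]
    exact Real.log_le_log (Real.exp_pos 1) h3
  filter_upwards [L.second (w := fun p : Nat.Primes => Wt γ (Real.log (p : ℕ) / T)) (wt_sum hT hB)
    (ε := 1) one_pos] with X hX
  refine le_trans hX ?_
  have h4 : ∀ p : Nat.Primes, (B / √((p : ℕ) : ℝ) * ‖Wt γ (Real.log (p : ℕ) / T)‖) ^ 2 =
      B ^ 2 * ((((p : ℕ) : ℝ))⁻¹ * ‖Wt γ (Real.log (p : ℕ) / T)‖ ^ 2) := by
    intro p
    have hp0 : (0 : ℝ) ≤ (p : ℕ) := Nat.cast_nonneg _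
    rw [mul_pow, div_pow, Real.sq_sqrt hp0]
    ring
  simp only [h4]
  rw [tsum_mul_left]
  have h5 : C * Real.log T ≤ |C| * Real.log T := by
    gcongr
    exact le_abs_self C
  have h6 := h2.trans h5
  have h7 : B ^ 2 * ∑' p : Nat.Primes, (((p : ℕ) : ℝ))⁻¹ * ‖Wt γ (Real.log (p : ℕ) / T)‖ ^ 2 ≤
      B ^ 2 * (|C| * Real.log T) := by gcongr
  nlinarith

open Classical in
/-- **almost all members of the family** -/
theorem Loc.llnL (L : Loc F f (fun p => B / √((p : ℕ) : ℝ)) e) (hB : 0 ≤ B) {γ : ℝ} {κ : ℝ} {C : ℂ}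
    (h2 : Asc (Lam γ) (AL e γ) κ C) :
    ∃ V : ℝ, ∀ δ : ℝ, 0 < δ →
    ∀ᶠ T : ℝ in atTop, ∀ᶠ X in atTop,
    (((F X).filter fun x => δ < ‖SL f γ T x / Real.log T - κ‖).card : ℝ) ≤
      V / (δ ^ 2 * Real.log T) * (F X).card := by
  obtain ⟨V, hV, h1⟩ := L.secondL hB γ
  refine ⟨4 * V, fun δ hδ => ?_⟩
  have h3 := h2.lim
  have h4 : ∀ᶠ T : ℝ in atTop, ‖AL e γ T / Real.log T - κ‖ < δ / 2 := by
    have h5 := (h3.sub_const (κ : ℂ)).norm
    rw [sub_self, norm_zero] at h5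
    exact h5.eventually_lt_const (by positivity)
  filter_upwards [h1, h4, Filter.eventually_gt_atTop (1 : ℝ)] with T a1 a2 a3
  have hlog : 0 < Real.log T := Real.log_pos a3
  filter_upwards [a1, L.ne] with X b1 b2
  have hc : (0 : ℝ) < (F X).card := by exact_mod_cast b2.card_pos
  set G := (F X).filter fun x => δ < ‖SL f γ T x / Real.log T - κ‖ with hG
  have h5 : ∀ x ∈ G, (δ / 2 * Real.log T) ^ 2 ≤ ‖SL f γ T x - AL e γ T‖ ^ 2 := by
    intro x hx
    have hx2 := (Finset.mem_filter.1 hx).2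
    have e1 : SL f γ T x / Real.log T - κ = (SL f γ T x - AL e γ T) / Real.log T +
        (AL e γ T / Real.log T - κ) := by ring
    have h6 : δ / 2 < ‖(SL f γ T x - AL e γ T) / Real.log T‖ := by
      rw [e1] at hx2
      have := norm_add_le ((SL f γ T x - AL e γ T) / Real.log T) (AL e γ T / Real.log T - κ)
      linarith
    rw [norm_div, Complex.norm_real, Real.norm_eq_abs, abs_of_pos hlog, lt_div_iff₀ hlog] at h6
    exact pow_le_pow_left₀ (by positivity) h6.le 2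
  have h6 : (G.card : ℝ) * (δ / 2 * Real.log T) ^ 2 ≤ ∑ x ∈ F X, ‖SL f γ T x - AL e γ T‖ ^ 2 := by
    calc (G.card : ℝ) * (δ / 2 * Real.log T) ^ 2 = ∑ _x ∈ G, (δ / 2 * Real.log T) ^ 2 := by
          rw [Finset.sum_const, nsmul_eq_mul]
      _ ≤ ∑ x ∈ G, ‖SL f γ T x - AL e γ T‖ ^ 2 := Finset.sum_le_sum h5
      _ ≤ _ := Finset.sum_le_sum_of_subset_of_nonneg (Finset.filter_subset _ _) fun x _ _ => by positivity
  have h7 : ∑ x ∈ F X, ‖SL f γ T x - AL e γ T‖ ^ 2 ≤ V * Real.log T * (F X).card := by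
    unfold mean at b1
    rwa [div_le_iff₀ hc] at b1
  have h8 := h6.trans h7
  rw [div_mul_eq_mul_div, le_div_iff₀ (by positivity)]
  have h9 : (G.card : ℝ) * (δ ^ 2 * Real.log T) * Real.log T ≤ 4 * V * (F X).card * Real.log T := by
    nlinarith
  exact le_of_mul_le_mul_right h9 hlog

/-- the real part of a rotated sum -/
theorem re_SL (hb : ∀ p x, |f p x| ≤ B / √((p : ℕ) : ℝ)) (hB : 0 ≤ B) (γ : ℝ) {T : ℝ} (hT : 0 < T) (x : ι) :
    (Summable fun p : Nat.Primes => |f p x * (Real.cos (γ * (Real.log (p : ℕ) / T)) /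
      Real.Gamma (1 + Real.log (p : ℕ) / T))|) ∧
    (SL f γ T x).re = ∑' p : Nat.Primes, f p x * (Real.cos (γ * (Real.log (p : ℕ) / T)) /
      Real.Gamma (1 + Real.log (p : ℕ) / T)) := by
  have h1 : Summable fun p : Nat.Primes => ‖((f p x : ℝ) : ℂ) * Wt γ (Real.log (p : ℕ) / T)‖ := by
    refine Summable.of_nonneg_of_le (fun _ => norm_nonneg _) (fun p => ?_) (wt_sum (γ := γ) hT hB)
    rw [norm_mul, Complex.norm_real, Real.norm_eq_abs]
    gcongr
    exact hb p _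
  have h0 : ∀ u : ℝ, (Wt γ u).re = Real.cos (γ * u) / Real.Gamma (1 + u) := by
    intro u
    unfold Wt om
    rw [Complex.re_mul_ofReal, Complex.exp_ofReal_mul_I_re, div_eq_mul_inv]
  have e1 : ∀ p : Nat.Primes, (((f p x : ℝ) : ℂ) * Wt γ (Real.log (p : ℕ) / T)).re =
      f p x * (Real.cos (γ * (Real.log (p : ℕ) / T)) / Real.Gamma (1 + Real.log (p : ℕ) / T)) := by
    intro p
    rw [Complex.re_ofReal_mul, h0]
  constructor
  · refine Summable.of_nonneg_of_le (fun _ => abs_nonneg _) (fun p => ?_) h1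
    rw [← e1]
    exact Complex.abs_re_le_norm _
  · unfold SL
    rw [Complex.re_tsum h1.of_norm]
    exact tsum_congr e1

end Pool.Agent.X278.AV
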