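import Pool.Agent.X278.AV.Den

/-!
# One prime and two primes
-/

set_option autoImplicit false

namespace Pool.Agent.X278.AV

open Finset Filter Topology ArithmeticFunction

variable {k : ℕ} {e : Fin k → ℕ}

/-- the reduction of a point -/
def red {k : ℕ} (N : ℕ) (x : Fin k → ℤ) : Fin k → ZMod N := fun j => ((x j : ℤ) : ZMod N)

/-- the data of a family -/
structure Data (k : ℕ) (e : Fin k → ℕ) (a : ℕ → Fin k → ℕ) (Z : (Fin k → ℤ) → Prop) : Prop where
  hk : 0 < k
  he : ∀ j, 2 ≤ e j
  ha : ∀ j, Tendsto (fun X => a X j) atTop atTop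
  zero : Z 0
  lim : Tendsto (fun X => ((open Classical in (Box (a X)).filter Z).card : ℝ) /
      ∏ j, (2 * (a X j : ℝ))) atTop (𝓝 0)

/-- the expected value at a prime -/
noncomputable def Ex (s p : ℕ) [NeZero p] (f : (Fin k → ZMod p) → ℝ) : ℝ := avg f / (1 - ((p : ℝ) ^ s)⁻¹)

variable {a : ℕ → Fin k → ℕ} {Z : (Fin k → ℤ) → Prop}

theorem fac_prime (s : ℕ) {p : ℕ} (hp : p.Prime) : fac s p = 1 - ((p : ℝ) ^ s)⁻¹ := by
  unfold fac
  rw [hp.primeFactors, Finset.prod_singleton]

theorem fac_two (s : ℕ) {p q : ℕ} (hp : p.Prime) (hq : q.Prime) (hpq : p ≠ q) :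
    fac s (p * q) = (1 - ((p : ℝ) ^ s)⁻¹) * (1 - ((q : ℝ) ^ s)⁻¹) := by
  unfold fac
  rw [Nat.primeFactors_mul hp.ne_zero hq.ne_zero, hp.primeFactors, hq.primeFactors,
    Finset.prod_union (by rw [Finset.disjoint_singleton]; exact hpq), Finset.prod_singleton,
    Finset.prod_singleton]

theorem Data.one (D : Data k e a Z) {p : ℕ} [NeZero p] (hp : p.Prime) (f : (Fin k → ZMod p) → ℝ) (hf : f 0 = 0) :
    Tendsto (fun X => mean (Fam e Z (a X)) (fun x => f (red p x))) atTop (𝓝 (Ex (∑ j, e j) p f)) := by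
  have h1 := mean_lim (N := p) D.hk D.he f (fun m hm y => ?_) a D.ha Z D.zero D.lim
  · rw [fac_prime _ hp] at h1
    exact h1
  · have h2 : p ∣ m := by
      by_contra h
      exact hm ((Nat.Prime.coprime_iff_not_dvd hp).2 h).symm
    have h3 : (fun j => (((m : ℤ) ^ e j * y j : ℤ) : ZMod p)) = 0 := by
      funext j
      have h4 : ((m : ℤ) : ZMod p) = 0 := by
        rw [Int.cast_natCast, ZMod.natCast_eq_zero_iff]
        exact h2
      rw [Int.cast_mul, Int.cast_pow, h4, zero_pow (by have := D.he j; omega), zero_mul]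
      rfl
    rw [h3, hf]

theorem Data.two (D : Data k e a Z) {p q : ℕ} [NeZero p] [NeZero q] (hp : p.Prime) (hq : q.Prime) (hpq : p ≠ q)
    (f : (Fin k → ZMod p) → ℝ) (g : (Fin k → ZMod q) → ℝ) (hf : f 0 = 0) (hg : g 0 = 0) :
    Tendsto (fun X => mean (Fam e Z (a X)) (fun x => f (red p x) * g (red q x))) atTop
      (𝓝 (Ex (∑ j, e j) p f * Ex (∑ j, e j) q g)) := by
  classical
  have hc : p.Coprime q := (Nat.coprime_primes hp hq).2 hpq
  have : NeZero (p * q) := ⟨mul_ne_zero hp.ne_zero hq.ne_zero⟩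
  set φ : (Fin k → ZMod (p * q)) → ℝ := fun r =>
    f (fun j => ZMod.castHom (dvd_mul_right p q) (ZMod p) (r j)) *
      g (fun j => ZMod.castHom (dvd_mul_left q p) (ZMod q) (r j)) with hφ
  have hred : ∀ x : Fin k → ℤ, φ (red (p * q) x) = f (red p x) * g (red q x) := by
    intro x
    rw [hφ]
    simp only [red, map_intCast]
    rfl
  have h1 := mean_lim (N := p * q) D.hk D.he φ (fun m hm y => ?_) a D.ha Z D.zero D.lim
  · rw [fac_two _ hp hq hpq] at h1
    have h2 : avg φ = avg f * avg g := by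
      unfold avg
      have h3 : ∑ r, φ r = (∑ r, f r) * ∑ r, g r := by
        have h4 : (∑ r, f r) * ∑ r, g r = ∑ x : (Fin k → ZMod p) × (Fin k → ZMod q), f x.1 * g x.2 := by
          rw [Finset.sum_mul_sum, Fintype.sum_prod_type]
        rw [h4]
        let E : (Fin k → ZMod (p * q)) ≃ (Fin k → ZMod p) × (Fin k → ZMod q) :=
          ((Equiv.piCongrRight fun _ => (ZMod.chineseRemainder hc).toEquiv).trans
            (Equiv.arrowProdEquivProdArrow (Fin k) _ _))
        have h5 : ∀ z, (ZMod.chineseRemainder hc z).1 = ZMod.castHom (dvd_mul_right p q) (ZMod p) z := fun z =>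
          RingHom.ext_iff.1 (Subsingleton.elim ((RingHom.fst (ZMod p) (ZMod q)).comp
            ((ZMod.chineseRemainder hc : ZMod (p * q) ≃+* ZMod p × ZMod q) : ZMod (p * q) →+* ZMod p × ZMod q))
            (ZMod.castHom (dvd_mul_right p q) (ZMod p))) z
        have h6 : ∀ z, (ZMod.chineseRemainder hc z).2 = ZMod.castHom (dvd_mul_left q p) (ZMod q) z := fun z =>
          RingHom.ext_iff.1 (Subsingleton.elim ((RingHom.snd (ZMod p) (ZMod q)).comp
            ((ZMod.chineseRemainder hc : ZMod (p * q) ≃+* ZMod p × ZMod q) : ZMod (p * q) →+* ZMod p × ZMod q))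
            (ZMod.castHom (dvd_mul_left q p) (ZMod q))) z
        refine Fintype.sum_equiv E _ _ fun r => ?_
        have h7 : (E r).1 = fun j => ZMod.castHom (dvd_mul_right p q) (ZMod p) (r j) := funext fun j => h5 (r j)
        have h8 : (E r).2 = fun j => ZMod.castHom (dvd_mul_left q p) (ZMod q) (r j) := funext fun j => h6 (r j)
        rw [h7, h8]
      rw [h3]
      push_cast
      rw [mul_pow, mul_div_mul_comm]
    unfold Ex
    rw [h2, mul_div_mul_comm] at h1
    refine h1.congr fun X => ?_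
    unfold mean
    congr 1
    exact Finset.sum_congr rfl fun x _ => hred x
  · have h2 : p ∣ m ∨ q ∣ m := by
      by_contra h
      push Not at h
      apply hm
      apply Nat.Coprime.symm
      exact Nat.Coprime.mul_left ((Nat.Prime.coprime_iff_not_dvd hp).2 h.1)
        ((Nat.Prime.coprime_iff_not_dvd hq).2 h.2)
    have h5 : (fun j => (((m : ℤ) ^ e j * y j : ℤ) : ZMod (p * q))) = red (p * q) (fun j => (m : ℤ) ^ e j * y j) := rfl
    rw [h5, hred]
    have key : ∀ ℓ : ℕ, ℓ ∣ m → red ℓ (fun j => (m : ℤ) ^ e j * y j) = 0 := by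
      intro ℓ hℓ
      funext j
      have h4 : ((m : ℤ) : ZMod ℓ) = 0 := by
        rw [Int.cast_natCast, ZMod.natCast_eq_zero_iff]
        exact hℓ
      unfold red
      rw [Int.cast_mul, Int.cast_pow, h4, zero_pow (by have := D.he j; omega), zero_mul]
      rfl
    rcases h2 with h2 | h2
    · rw [key p h2, hf, zero_mul]
    · rw [key q h2, hg, mul_zero]

end Pool.Agent.X278.AV
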