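import Pool.Agent.X278.AV.QQ
import Pool.Agent.X278.AV.Two
import Pool.Agent.X278.AV.Abs

/-!
# The local means
-/

set_option autoImplicit false

namespace Pool.Agent.X278.AV

open Finset

section

variable {k : Type} [Field k] [Fintype k] [DecidableEq k]

/-- the mean of the local function over all equations -/
theorem ff_mean (hk : (6 : k) ≠ 0 ∨ Fintype.card k < 17) :
    |(∑ a : k, ∑ b : k, ff a b) / (Fintype.card k : ℝ) ^ 2 - 1 / (2 * Fintype.card k)| ≤
      2000 / (√(Fintype.card k) * Fintype.card k) := by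
  set q : ℝ := ((Fintype.card k : ℕ) : ℝ) with hqd
  have hq1 : (1 : ℝ) ≤ q := by
    rw [hqd]
    exact_mod_cast (Fintype.card_pos : 0 < Fintype.card k)
  have hq0 : 0 < q := by linarith
  set r : ℝ := √q with hr
  have hr0 : 0 < r := Real.sqrt_pos.2 hq0
  have hrq : r ^ 2 = q := Real.sq_sqrt hq0.le
  rcases Nat.lt_or_ge (Fintype.card k) 17 with hs | hs
  · have hqs : q ≤ 17 := by
      rw [hqd]
      exact_mod_cast hs.le
    have hr5 : r ≤ 5 := by
      rw [hr]
      apply Real.sqrt_le_iff.2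
      constructor <;> linarith
    have h1 : |∑ a : k, ∑ b : k, ff a b| ≤ q ^ 2 * (q + 1) := by
      refine (Finset.abs_sum_le_sum_abs _ _).trans ?_
      have h2 : ∀ a : k, |∑ b : k, ff a b| ≤ q * (q + 1) := by
        intro a
        refine (Finset.abs_sum_le_sum_abs _ _).trans ?_
        calc ∑ b : k, |ff a b| ≤ ∑ _b : k, (q + 1) := Finset.sum_le_sum fun b _ => ff_small
          _ = q * (q + 1) := by rw [Finset.sum_const, Finset.card_univ, nsmul_eq_mul]
      calc ∑ a : k, |∑ b : k, ff a b| ≤ ∑ _a : k, q * (q + 1) := Finset.sum_le_sum fun a _ => h2 a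
        _ = q ^ 2 * (q + 1) := by
          rw [Finset.sum_const, Finset.card_univ, nsmul_eq_mul, ← hqd]
          ring
    have h2 : |(∑ a : k, ∑ b : k, ff a b) / q ^ 2| ≤ 18 := by
      rw [abs_div, abs_of_pos (by positivity : 0 < q ^ 2), div_le_iff₀ (by positivity)]
      nlinarith [sq_nonneg q]
    have h3 : |1 / (2 * q)| ≤ 1 := by
      rw [abs_of_pos (by positivity), div_le_one (by positivity)]
      linarith
    have h4 : 19 ≤ 2000 / (r * q) := by
      rw [le_div_iff₀ (by positivity)]
      have : r * q ≤ 5 * 17 := mul_le_mul hr5 hqs hq0.le (by norm_num)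
      linarith
    have h5 := abs_sub ((∑ a : k, ∑ b : k, ff a b) / q ^ 2) (1 / (2 * q))
    linarith
  have h6 : (6 : k) ≠ 0 := hk.resolve_right (not_lt.2 hs)
  have hq17 : (17 : ℝ) ≤ q := by rw [hqd]; exact_mod_cast hs
  -- good and bad
  set t : k → k → ℝ := fun a b => ((TT a b : ℤ) : ℝ) with ht
  set g : k → k → ℝ := fun a b => (1 + t a b) / q - (1 + t a b) ^ 2 / (2 * q ^ 2) with hg
  -- comparison with g
  have hcmp : ∀ a b : k, |ff a b - g a b| ≤ 81 / (r * q) +
      (if 4 * a ^ 3 + 27 * b ^ 2 = 0 then 4 / q else 0) := by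
    intro a b
    by_cases h : 4 * a ^ 3 + 27 * b ^ 2 = 0
    · rw [if_pos h]
      have h1 : ff a b = 0 := by
        unfold ff
        rw [if_pos (by rw [h, mul_zero])]
      have h2 : |t a b| ≤ 1 := by
        have := TT_sing h6 h
        simp only [ht]
        exact_mod_cast this
      have h3 : |g a b| ≤ 4 / q := by
        have h4 : |1 + t a b| ≤ 2 := (abs_add_le _ _).trans (by rw [abs_one]; linarith)
        have h5 : |(1 + t a b) / q| ≤ 2 / q := by
          rw [abs_div, abs_of_pos hq0]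
          gcongr
        have h7 : |(1 + t a b) ^ 2 / (2 * q ^ 2)| ≤ 2 / q := by
          rw [abs_div, abs_of_pos (by positivity : 0 < 2 * q ^ 2), abs_pow, div_le_div_iff₀ (by positivity) hq0]
          have : |1 + t a b| ^ 2 ≤ 4 := by nlinarith [abs_nonneg (1 + t a b)]
          nlinarith
        have h8 := abs_sub ((1 + t a b) / q) ((1 + t a b) ^ 2 / (2 * q ^ 2))
        have h9 : (4 : ℝ) / q = 2 / q + 2 / q := by ring
        rw [h9]
        exact h8.trans (add_le_add h5 h7)
      rw [h1, zero_sub, abs_neg]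
      have : 0 ≤ 81 / (r * q) := by positivity
      linarith
    · rw [if_neg h, add_zero]
      exact (ff_exp (mul_ne_zero h6 h) hs).1
  have hsum1 : |∑ a : k, ∑ b : k, ff a b - ∑ a : k, ∑ b : k, g a b| ≤ q ^ 2 * (81 / (r * q)) + 8 := by
    rw [← Finset.sum_sub_distrib]
    simp only [← Finset.sum_sub_distrib]
    refine (Finset.abs_sum_le_sum_abs _ _).trans ((Finset.sum_le_sum fun a _ =>
      (Finset.abs_sum_le_sum_abs _ _).trans (Finset.sum_le_sum fun b _ => hcmp a b)).trans ?_)
    simp only [Finset.sum_add_distrib, Finset.sum_const, Finset.card_univ, nsmul_eq_mul]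
    have h1 : ∑ a : k, ∑ b : k, (if 4 * a ^ 3 + 27 * b ^ 2 = 0 then 4 / q else 0) ≤ 8 := by
      have h2 : ∀ a : k, ∑ b : k, (if 4 * a ^ 3 + 27 * b ^ 2 = 0 then 4 / q else (0 : ℝ)) =
          ((univ.filter fun b : k => 4 * a ^ 3 + 27 * b ^ 2 = 0).card : ℝ) * (4 / q) := by
        intro a
        rw [← Finset.sum_filter, Finset.sum_const, nsmul_eq_mul]
      simp only [h2]
      rw [← Finset.sum_mul]
      have h3 : (∑ a : k, ((univ.filter fun b : k => 4 * a ^ 3 + 27 * b ^ 2 = 0).card : ℝ)) ≤ 2 * q := by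
        have := card_sing h6
        rw [hqd]
        exact_mod_cast this
      calc _ ≤ (2 * q) * (4 / q) := by gcongr
        _ = 8 := by field_simp; norm_num
    rw [← hqd]
    have e1 : q * (q * (81 / (r * q))) = q ^ 2 * (81 / (r * q)) := by ring
    rw [e1]
    linarith
  -- the sum of g
  have hM1 : ∑ a : k, ∑ b : k, t a b = 0 := by
    have := moment1 h6
    simp only [ht]
    exact_mod_cast this
  have hM2 : ∑ a : k, ∑ b : k, t a b ^ 2 = q ^ 2 * (q - 1) := by
    have := congrArg (fun z : ℤ => (z : ℝ)) (moment2 h6)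
    simp only [ht, hqd]
    push_cast at this
    exact this
  have hgs : ∑ a : k, ∑ b : k, g a b = q - (q ^ 2 + q ^ 2 * (q - 1)) / (2 * q ^ 2) := by
    have e1 : ∀ a b : k, g a b = (1 / q - 1 / (2 * q ^ 2)) + (1 / q - 1 / q ^ 2) * t a b -
        1 / (2 * q ^ 2) * t a b ^ 2 := by
      intro a b
      rw [hg]
      field_simp
      ring
    simp only [e1]
    simp only [Finset.sum_sub_distrib, Finset.sum_add_distrib, ← Finset.mul_sum, hM1, hM2,
      Finset.sum_const, Finset.card_univ, nsmul_eq_mul]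
    rw [← hqd]
    field_simp
    ring
  have hgs' : ∑ a : k, ∑ b : k, g a b = q / 2 := by
    rw [hgs]
    field_simp
    ring
  rw [hgs'] at hsum1
  have e1 : (∑ a : k, ∑ b : k, ff a b) / q ^ 2 - 1 / (2 * q) =
      (∑ a : k, ∑ b : k, ff a b - q / 2) / q ^ 2 := by
    field_simp
  rw [e1, abs_div, abs_of_pos (by positivity : 0 < q ^ 2), div_le_iff₀ (by positivity)]
  refine hsum1.trans ?_
  have e2 : 2000 / (r * q) * q ^ 2 = 2000 * q / r := by field_simp
  have e3 : q ^ 2 * (81 / (r * q)) = 81 * q / r := by field_simp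
  rw [e2, e3]
  have h9 : 8 ≤ 8 * q / r := by
    rw [le_div_iff₀ hr0, ← hrq]
    have : 1 ≤ r := by
      rw [hr]
      exact Real.one_le_sqrt.2 hq1
    nlinarith
  have h10 : 81 * q / r + 8 * q / r ≤ 2000 * q / r := by
    rw [← add_div]
    gcongr
    linarith
  linarith

/-- the size of the local function -/
theorem ff_size {a b : k} : |ff a b| ≤ 100 / √(Fintype.card k) := by
  have hq1 : (1 : ℝ) ≤ ((Fintype.card k : ℕ) : ℝ) := by
    exact_mod_cast (Fintype.card_pos : 0 < Fintype.card k)
  have hr0 : 0 < √((Fintype.card k : ℕ) : ℝ) := Real.sqrt_pos.2 (by linarith)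
  rcases Nat.lt_or_ge (Fintype.card k) 17 with hs | hs
  · refine ff_small.trans ?_
    have hqs : ((Fintype.card k : ℕ) : ℝ) ≤ 17 := by exact_mod_cast hs.le
    have hr5 : √((Fintype.card k : ℕ) : ℝ) ≤ 5 := by
      apply Real.sqrt_le_iff.2
      constructor <;> linarith
    rw [le_div_iff₀ hr0]
    nlinarith
  · by_cases h : (6 : k) * (4 * a ^ 3 + 27 * b ^ 2) = 0
    · have h1 : ff a b = 0 := by
        unfold ff
        rw [if_pos h]
      rw [h1, abs_zero]
      positivity
    · refine (ff_exp h hs).2.trans ?_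
      gcongr
      norm_num

end

end Pool.Agent.X278.AV
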