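import Pool.Agent.X278.AV.Eq

/-!
# The Möbius function and minimal points
-/

set_option autoImplicit false

namespace Pool.Agent.X278.AV

open Finset Filter Topology ArithmeticFunction

open Classical in
theorem sum_mu {G : Finset ℕ} (h1 : 1 ∈ G) (h0 : 0 ∉ G) (hd : ∀ m ∈ G, ∀ n, n ∣ m → n ∈ G)
    (hl : ∀ m ∈ G, ∀ n ∈ G, Nat.lcm m n ∈ G) :
    ((∑ m ∈ G, moebius m : ℤ) = if (∀ ℓ : ℕ, ℓ.Prime → ℓ ∉ G) then 1 else 0) := by
  classical
  have hL : ∀ S : Finset ℕ, S ⊆ G → S.lcm id ∈ G := by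
    intro S
    induction S using Finset.induction_on with
    | empty => intro _; simpa using h1
    | insert a S ha ih =>
      intro hS
      rw [Finset.lcm_insert]
      exact hl _ (hS (mem_insert_self _ _)) _ (ih fun x hx => hS (mem_insert_of_mem hx))
  set L := G.lcm id with hLd
  have hLG : L ∈ G := hL G subset_rfl
  have hL0 : L ≠ 0 := fun h => h0 (h ▸ hLG)
  have hG : G = L.divisors := by
    ext m
    rw [Nat.mem_divisors]
    constructor
    · intro hm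
      exact ⟨Finset.dvd_lcm (f := id) hm, hL0⟩
    · rintro ⟨h2, -⟩
      exact hd L hLG m h2
  have h2 : ∑ m ∈ L.divisors, moebius m = if L = 1 then 1 else 0 := by
    have := congrArg (fun f : ArithmeticFunction ℤ => f L) moebius_mul_coe_zeta
    simp only [coe_mul_zeta_apply, one_apply] at this
    exact this
  rw [hG, h2]
  by_cases hL1 : L = 1
  · rw [if_pos hL1, if_pos]
    intro ℓ hℓ hm
    rw [Nat.mem_divisors, hL1] at hm
    exact hℓ.one_lt.ne' (Nat.dvd_one.1 hm.1)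
  · rw [if_neg hL1, if_neg]
    intro h
    obtain ⟨ℓ, hℓ, hd'⟩ := Nat.exists_prime_and_dvd hL1
    exact h ℓ hℓ (Nat.mem_divisors.2 ⟨hd', hL0⟩)

/-- no prime `ℓ` satisfies `ℓ^{e_j} ∣ x_j` for all `j` -/
def Min {k : ℕ} (e : Fin k → ℕ) (x : Fin k → ℤ) : Prop :=
  ∀ ℓ : ℕ, ℓ.Prime → ¬ ∀ j, (ℓ : ℤ) ^ e j ∣ x j

section

variable {k N : ℕ} {e : Fin k → ℕ}

/-- the elements `m` with `m^{e_j} ∣ x_j` -/
theorem le_of_dvd (he : ∀ j, 2 ≤ e j) {a : Fin k → ℕ} {x : Fin k → ℤ} (hx : x ∈ Box a) (hx0 : x ≠ 0)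
    {m : ℕ} (hm : ∀ j, (m : ℤ) ^ e j ∣ x j) : m ≤ ∑ j, a j := by
  obtain ⟨j, hj⟩ : ∃ j, x j ≠ 0 := by
    by_contra h
    push Not at h
    exact hx0 (funext h)
  have h1 := (mem_Box.1 hx) j
  have h2 := Int.le_of_dvd (abs_pos.2 hj) ((dvd_abs _ _).2 (hm j))
  have h3 : (m : ℤ) ^ e j ≤ a j := h2.trans h1
  have h4 : m ^ e j ≤ a j := by exact_mod_cast h3
  have h5 : m ≤ m ^ e j := Nat.le_self_pow (by have := he j; omega) m
  exact (h5.trans h4).trans (Finset.single_le_sum (f := a) (fun i _ => Nat.zero_le _) (mem_univ j))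

open Classical in
theorem mu_ind (hk : 0 < k) (he : ∀ j, 2 ≤ e j) {a : Fin k → ℕ} {x : Fin k → ℤ} (hx : x ∈ Box a) (hx0 : x ≠ 0) :
    (∑ m ∈ range (∑ j, a j + 1), (if ∀ j, (m : ℤ) ^ e j ∣ x j then moebius m else 0) : ℤ) =
      if Min e x then 1 else 0 := by
  set G : Finset ℕ := (range (∑ j, a j + 1)).filter fun m => 0 < m ∧ ∀ j, (m : ℤ) ^ e j ∣ x j with hG
  have hmem : ∀ m, m ∈ G ↔ 0 < m ∧ ∀ j, (m : ℤ) ^ e j ∣ x j := by
    intro m
    rw [hG, mem_filter, mem_range]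
    exact ⟨fun h => h.2, fun h => ⟨Nat.lt_succ_of_le (le_of_dvd he hx hx0 h.2), h⟩⟩
  have h1 : (∑ m ∈ range (∑ j, a j + 1), (if ∀ j, (m : ℤ) ^ e j ∣ x j then moebius m else 0) : ℤ) =
      ∑ m ∈ G, moebius m := by
    rw [hG, Finset.sum_filter]
    refine Finset.sum_congr rfl fun m _ => ?_
    rcases Nat.eq_zero_or_pos m with rfl | h
    · simp
    · by_cases h2 : ∀ j, (m : ℤ) ^ e j ∣ x j
      · rw [if_pos h2, if_pos ⟨h, h2⟩]
      · rw [if_neg h2, if_neg (fun h3 => h2 h3.2)]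
  rw [h1, sum_mu]
  · congr 1
    refine propext (forall_congr' fun ℓ => forall_congr' fun hℓ => ?_)
    rw [hmem]
    exact ⟨fun h h2 => h ⟨hℓ.pos, h2⟩, fun h h2 => h h2.2⟩
  · rw [hmem]
    exact ⟨one_pos, fun j => by simp⟩
  · rw [hmem]
    exact fun h => lt_irrefl _ h.1
  · intro m hm n hn
    rw [hmem] at hm ⊢
    refine ⟨Nat.pos_of_dvd_of_pos hn hm.1, fun j => dvd_trans ?_ (hm.2 j)⟩
    exact pow_dvd_pow_of_dvd (by exact_mod_cast hn) _
  · intro m hm n hn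
    rw [hmem] at hm hn ⊢
    refine ⟨Nat.lcm_pos hm.1 hn.1, fun j => ?_⟩
    have h2 : ((Nat.lcm m n : ℕ) : ℤ) ^ e j = ((Nat.lcm (m ^ e j) (n ^ e j) : ℕ) : ℤ) := by
      rw [← Nat.cast_pow]
      congr 1
      exact Nat.pow_lcm_pow.symm
    rw [h2, Int.natCast_dvd]
    apply Nat.lcm_dvd
    · rw [← Int.natCast_dvd]; exact_mod_cast hm.2 j
    · rw [← Int.natCast_dvd]; exact_mod_cast hn.2 j

open Classical in
/-- reindexing of the points divisible by `m` -/
theorem part_eq (e : Fin k → ℕ) (φ : (Fin k → ZMod N) → ℝ) (a : Fin k → ℕ) {m : ℕ} (hm : 0 < m) :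
    part e φ a m = ∑ x ∈ ((Box a).erase 0).filter (fun x => ∀ j, (m : ℤ) ^ e j ∣ x j),
      φ (fun j => ((x j : ℤ) : ZMod N)) := by
  have hpos : ∀ j, (0 : ℤ) < (m : ℤ) ^ e j := fun j => pow_pos (by exact_mod_cast hm) _
  unfold part
  refine Finset.sum_nbij' (fun y j => (m : ℤ) ^ e j * y j) (fun x j => x j / (m : ℤ) ^ e j) ?_ ?_ ?_ ?_ ?_
  · intro y hy
    rw [mem_erase, mem_Box] at hy
    rw [mem_filter, mem_erase, mem_Box]
    refine ⟨⟨fun h => hy.1 ?_, fun j => ?_⟩, fun j => dvd_mul_right _ _⟩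
    · funext j
      have := congrFun h j
      simp only [Pi.zero_apply, mul_eq_zero] at this
      rcases this with h1 | h1
      · exact absurd h1 (hpos j).ne'
      · exact h1
    · have h1 := hy.2 j
      rw [abs_mul, abs_of_pos (hpos j)]
      have h2 : ((a j / m ^ e j : ℕ) : ℤ) * (m : ℤ) ^ e j ≤ a j := by
        have := Nat.div_mul_le_self (a j) (m ^ e j)
        exact_mod_cast this
      calc (m : ℤ) ^ e j * |y j| ≤ (m : ℤ) ^ e j * ((a j / m ^ e j : ℕ) : ℤ) :=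
            mul_le_mul_of_nonneg_left h1 (hpos j).le
        _ ≤ a j := by rw [mul_comm]; exact h2
  · intro x hx
    rw [mem_filter, mem_erase, mem_Box] at hx
    rw [mem_erase, mem_Box]
    refine ⟨fun h => hx.1.1 ?_, fun j => ?_⟩
    · funext j
      have := congrFun h j
      simp only [Pi.zero_apply] at this
      have h2 := Int.ediv_mul_cancel (hx.2 j)
      rw [this, zero_mul] at h2
      exact h2.symm
    · obtain ⟨c, hc⟩ := hx.2 j
      have h1 := hx.1.2 j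
      rw [hc, Int.mul_ediv_cancel_left _ (hpos j).ne']
      rw [hc, abs_mul, abs_of_pos (hpos j)] at h1
      have h3 : ((a j / m ^ e j : ℕ) : ℤ) = (a j : ℤ) / (m : ℤ) ^ e j := by push_cast; rfl
      rw [h3]
      exact Int.le_ediv_of_mul_le (hpos j) (by rw [mul_comm]; exact h1)
  · intro y hy
    funext j
    exact Int.mul_ediv_cancel_left _ (hpos j).ne'
  · intro x hx
    rw [mem_filter] at hx
    funext j
    exact Int.mul_ediv_cancel' (hx.2 j)
  · intro y hy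
    rfl

end

end Pool.Agent.X278.AV
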