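import Pool.Agent.X278.AV.Kar
import Pool.Agent.X278.AV.Ind

/-!
# Products over the primes with weights: exact asymptotics
-/

set_option autoImplicit false

namespace Pool.Agent.X278.AV

open Filter Topology Asymptotics Finset
open Pool.Agent.W189.ML Pool.Agent.X278.OP

/-! ### the weight -/

/-- the weight `cos(γu) / Γ(1 + u)` -/
noncomputable def wr (γ u : ℝ) : ℝ := Real.cos (γ * u) / Real.Gamma (1 + u)

theorem wr_zero (γ : ℝ) : wr γ 0 = 1 := by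
  unfold wr
  rw [mul_zero, Real.cos_zero, add_zero, Real.Gamma_one, div_one]

theorem wr_diff (γ : ℝ) {u : ℝ} (hu : 0 ≤ u) : DifferentiableAt ℝ (wr γ) u := by
  have h1 : DifferentiableAt ℝ Real.Gamma (1 + u) := Real.differentiableAt_Gamma fun m => by
    have : (0 : ℝ) ≤ m := Nat.cast_nonneg m
    intro h
    linarith
  have h2 : DifferentiableAt ℝ (fun u : ℝ => Real.Gamma (1 + u)) u :=
    DifferentiableAt.comp (f := fun u : ℝ => 1 + u) u h1 (by fun_prop)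
  have h3 : Real.Gamma (1 + u) ≠ 0 := (Real.Gamma_pos_of_pos (by linarith)).ne'
  unfold wr
  exact DifferentiableAt.div (by fun_prop) h2 h3

theorem wr_le (γ : ℝ) {u : ℝ} (hu : 0 ≤ u) : |wr γ u| ≤ om u := by
  have h3 : 0 < Real.Gamma (1 + u) := Real.Gamma_pos_of_pos (by linarith)
  unfold wr om
  rw [abs_div, abs_of_pos h3, div_eq_mul_inv]
  have := Real.abs_cos_le_one (γ * u)
  calc _ ≤ 1 * (Real.Gamma (1 + u))⁻¹ := by gcongr
    _ = _ := one_mul _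

theorem wr_bd (γ : ℝ) {u : ℝ} (hu : 0 ≤ u) : |wr γ u| ≤ Real.exp 1 + 1 := (wr_le γ hu).trans (om_le_const hu)

theorem wr_dec (γ : ℝ) : Tendsto (fun u => wr γ u * Real.exp u) atTop (𝓝 0) := by
  set A : ℝ := Real.exp (Real.exp 2) + 1 with hA
  have h1 : Tendsto (fun u : ℝ => A * Real.exp (-u)) atTop (𝓝 0) := by
    have := (Real.tendsto_exp_neg_atTop_nhds_zero).const_mul A
    rwa [mul_zero] at this
  refine squeeze_zero_norm' ?_ h1
  filter_upwards [eventually_ge_atTop (0 : ℝ)] with u hu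
  have h2 := (wr_le γ hu).trans (om_le (a := 2) (v := u) (by norm_num) hu)
  rw [Real.norm_eq_abs, abs_mul, Real.abs_exp]
  calc |wr γ u| * Real.exp u ≤ (A * Real.exp (-(2 * u))) * Real.exp u := by gcongr
    _ = A * (Real.exp (-(2 * u)) * Real.exp u) := by ring
    _ = A * Real.exp (-u) := by
        rw [← Real.exp_add]
        congr 2
        ring

theorem kar_one (γ : ℝ) :
    (∀ T : ℝ, 0 < T → Summable fun p : Nat.Primes => (((p : ℕ) : ℝ))⁻¹ * wr γ (Real.log (p : ℕ) / T)) ∧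
    ∃ c : ℝ, Tendsto (fun T : ℝ => ∑' p : Nat.Primes, (((p : ℕ) : ℝ))⁻¹ * wr γ (Real.log (p : ℕ) / T) - Real.log T)
      atTop (𝓝 c) :=
  kar (wr_zero γ) (wr_diff γ le_rfl).hasDerivAt (fun u hu => (wr_diff γ hu.le).continuousAt) (wr_dec γ)

theorem kar_two (γ : ℝ) :
    (∀ T : ℝ, 0 < T → Summable fun p : Nat.Primes => (((p : ℕ) : ℝ))⁻¹ * wr γ (Real.log (p : ℕ) / T) ^ 2) ∧
    ∃ c : ℝ, Tendsto (fun T : ℝ => ∑' p : Nat.Primes, (((p : ℕ) : ℝ))⁻¹ * wr γ (Real.log (p : ℕ) / T) ^ 2 - Real.log T)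
      atTop (𝓝 c) := by
  refine kar (ω := fun u => wr γ u ^ 2) (by simp [wr_zero]) ((wr_diff γ le_rfl).pow 2).hasDerivAt
    (fun u hu => ((wr_diff γ hu.le).pow 2).continuousAt) ?_
  have h1 := wr_dec γ
  have h2 : Tendsto (fun u => (Real.exp 1 + 1) * |wr γ u * Real.exp u|) atTop (𝓝 0) := by
    have := (h1.abs).const_mul (Real.exp 1 + 1)
    rwa [abs_zero, mul_zero] at this
  refine squeeze_zero_norm' ?_ h2
  filter_upwards [eventually_ge_atTop (0 : ℝ)] with u hu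
  have h3 := wr_bd γ hu
  rw [Real.norm_eq_abs, pow_two, mul_assoc, abs_mul]
  gcongr

/-! ### exact asymptotics -/

theorem sum_32 {C : ℝ} : Summable fun p : Nat.Primes => C / (√((p : ℕ) : ℝ) * (p : ℕ)) := by
  have h1 : Summable fun p : Nat.Primes => ((p : ℕ) : ℝ) ^ (-(3 / 2) : ℝ) := Pool.Agent.X287.CR.on_sys.sum (3 / 2) (by norm_num)
  refine (h1.mul_left C).congr fun p => ?_
  have hp0 : (0 : ℝ) < (p : ℕ) := by exact_mod_cast p.2.pos
  rw [rpow_sqrt hp0]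
  ring

theorem log_inv_sum : Summable fun p : Nat.Primes => (Real.log (1 - (((p : ℕ) : ℝ))⁻¹) + (((p : ℕ) : ℝ))⁻¹) := by
  refine Summable.of_norm_bounded (sum_inv_sq.mul_left 2) fun p => ?_
  have h4 := inv_half p
  have h5 : 0 ≤ (((p : ℕ) : ℝ))⁻¹ := by positivity
  have h6 := psi_bd h5 h4
  rw [Real.norm_eq_abs, ← abs_neg]
  rw [show -(Real.log (1 - (((p : ℕ) : ℝ))⁻¹) + (((p : ℕ) : ℝ))⁻¹) =
    -Real.log (1 - (((p : ℕ) : ℝ))⁻¹) - (((p : ℕ) : ℝ))⁻¹ by ring]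
  exact h6

/-- **products with weights** -/
theorem prod_asymp (γ : ℝ) (A B : ℝ) : ∃ κ₁ κ₂ : ℝ, 0 < κ₁ ∧ 0 < κ₂ ∧ ∀ φ : Nat.Primes → ℝ → ℝ,
    (∀ p x, 0 < φ p x) → (∀ p, Continuous (φ p)) →
    (∀ K : ℝ, ∃ C : ℝ, ∀ (p : Nat.Primes) (x : ℝ), |x| ≤ K →
      |Real.log (φ p x) - (A * x + B * x ^ 2) / (p : ℕ)| ≤ C / (√((p : ℕ) : ℝ) * (p : ℕ))) →
    ∀ k : ℝ,
      (Summable fun p : Nat.Primes => (A * k + B * k ^ 2) * Real.log (1 - (((p : ℕ) : ℝ))⁻¹) + Real.log (φ p k)) ∧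
      (∀ T : ℝ, 0 < T → Summable fun p : Nat.Primes => Real.log (φ p (k * wr γ (Real.log (p : ℕ) / T)))) ∧
      Tendsto (fun T : ℝ => (∏' p : Nat.Primes, φ p (k * wr γ (Real.log (p : ℕ) / T))) / T ^ (A * k + B * k ^ 2)) atTop
        (𝓝 ((∏' p : Nat.Primes, (1 - (((p : ℕ) : ℝ))⁻¹) ^ (A * k + B * k ^ 2) * φ p k) * κ₁ ^ k * κ₂ ^ (k ^ 2))) := by
  obtain ⟨s1, c₁, hc₁⟩ := kar_one γ
  obtain ⟨s2, c₂, hc₂⟩ := kar_two γ
  set c₀ : ℝ := ∑' p : Nat.Primes, (Real.log (1 - (((p : ℕ) : ℝ))⁻¹) + (((p : ℕ) : ℝ))⁻¹) with hc₀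
  refine ⟨Real.exp (A * (c₁ - c₀)), Real.exp (B * (c₂ - c₀)), Real.exp_pos _, Real.exp_pos _,
    fun φ hpos hcont hexp k => ?_⟩
  obtain ⟨C, hC⟩ := hexp (|k| * (Real.exp 1 + 1))
  have hW : (0 : ℝ) < Real.exp 1 + 1 := by positivity
  have hkw : ∀ (T : ℝ), 0 < T → ∀ p : Nat.Primes, |k * wr γ (Real.log (p : ℕ) / T)| ≤ |k| * (Real.exp 1 + 1) := by
    intro T hT p
    rw [abs_mul]
    have hu : 0 ≤ Real.log (p : ℕ) / T := div_nonneg (Real.log_nonneg (by exact_mod_cast p.2.one_le)) hT.le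
    gcongr
    exact wr_bd γ hu
  have hkk : |k| ≤ |k| * (Real.exp 1 + 1) := by
    have : (0 : ℝ) ≤ |k| := abs_nonneg k
    nlinarith [Real.exp_pos 1]
  -- the remainders
  set ρ : ℝ → Nat.Primes → ℝ := fun T p => Real.log (φ p (k * wr γ (Real.log (p : ℕ) / T))) -
    (A * (k * wr γ (Real.log (p : ℕ) / T)) + B * (k * wr γ (Real.log (p : ℕ) / T)) ^ 2) / (p : ℕ) with hρ
  set ρ₀ : Nat.Primes → ℝ := fun p => Real.log (φ p k) - (A * k + B * k ^ 2) / (p : ℕ) with hρ₀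
  have hρs : ∀ T : ℝ, 0 < T → Summable (ρ T) := fun T hT =>
    Summable.of_norm_bounded (sum_32 (C := C)) fun p => by
      rw [Real.norm_eq_abs]
      exact hC p _ (hkw T hT p)
  have hρ₀s : Summable ρ₀ := Summable.of_norm_bounded (sum_32 (C := C)) fun p => by
    rw [Real.norm_eq_abs]
    exact hC p _ hkk
  have hρlim : Tendsto (fun T => ∑' p, ρ T p) atTop (𝓝 (∑' p, ρ₀ p)) := by
    refine tendsto_tsum_of_dominated_convergence (sum_32 (C := C)) (fun p => ?_) ?_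
    · have h1 : Tendsto (fun T : ℝ => Real.log (p : ℕ) / T) atTop (𝓝 0) := tendsto_const_nhds.div_atTop tendsto_id
      have h2 : Tendsto (fun T : ℝ => wr γ (Real.log (p : ℕ) / T)) atTop (𝓝 1) := by
        have h3 := ((wr_diff γ le_rfl).continuousAt.tendsto.comp h1)
        rw [wr_zero] at h3
        exact h3
      have h3 := h2.const_mul k
      rw [mul_one] at h3
      have h4 := ((hcont p).tendsto k).comp h3
      have h5 := h4.log (hpos p k).ne'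
      exact h5.sub ((((h3.const_mul A).add ((h3.pow 2).const_mul B))).div_const _)
    · filter_upwards [eventually_gt_atTop (0 : ℝ)] with T hT p
      rw [Real.norm_eq_abs]
      exact hC p _ (hkw T hT p)
  have hlogs : ∀ T : ℝ, 0 < T → Summable (fun p : Nat.Primes => Real.log (φ p (k * wr γ (Real.log (p : ℕ) / T)))) ∧
      ∑' p : Nat.Primes, Real.log (φ p (k * wr γ (Real.log (p : ℕ) / T))) =
        A * k * ∑' p : Nat.Primes, (((p : ℕ) : ℝ))⁻¹ * wr γ (Real.log (p : ℕ) / T) +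
        B * k ^ 2 * ∑' p : Nat.Primes, (((p : ℕ) : ℝ))⁻¹ * wr γ (Real.log (p : ℕ) / T) ^ 2 + ∑' p, ρ T p := by
    intro T hT
    have e1 : ∀ p : Nat.Primes, Real.log (φ p (k * wr γ (Real.log (p : ℕ) / T))) =
        A * k * ((((p : ℕ) : ℝ))⁻¹ * wr γ (Real.log (p : ℕ) / T)) +
        B * k ^ 2 * ((((p : ℕ) : ℝ))⁻¹ * wr γ (Real.log (p : ℕ) / T) ^ 2) + ρ T p := by
      intro p
      rw [hρ]
      simp only
      ring
    have t1 := (s1 T hT).mul_left (A * k)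
    have t2 := (s2 T hT).mul_left (B * k ^ 2)
    constructor
    · exact ((t1.add t2).add (hρs T hT)).congr fun p => (e1 p).symm
    · rw [tsum_congr e1, (t1.add t2).tsum_add (hρs T hT), t1.tsum_add t2, tsum_mul_left, tsum_mul_left]
  have hlogM : ∀ T : ℝ, 0 < T → ∏' p : Nat.Primes, φ p (k * wr γ (Real.log (p : ℕ) / T)) =
      Real.exp (∑' p : Nat.Primes, Real.log (φ p (k * wr γ (Real.log (p : ℕ) / T)))) := fun T hT =>
    (Real.rexp_tsum_eq_tprod (fun p => hpos p _) (hlogs T hT).1).symm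
  -- the constant
  have e0 : ∀ p : Nat.Primes, (A * k + B * k ^ 2) * Real.log (1 - (((p : ℕ) : ℝ))⁻¹) + Real.log (φ p k) =
      (A * k + B * k ^ 2) * (Real.log (1 - (((p : ℕ) : ℝ))⁻¹) + (((p : ℕ) : ℝ))⁻¹) + ρ₀ p := by
    intro p
    rw [hρ₀]
    simp only
    ring
  have hs0 : Summable fun p : Nat.Primes => (A * k + B * k ^ 2) * Real.log (1 - (((p : ℕ) : ℝ))⁻¹) + Real.log (φ p k) :=
    ((log_inv_sum.mul_left (A * k + B * k ^ 2)).add hρ₀s).congr fun p => (e0 p).symm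
  have ha : ∏' p : Nat.Primes, (1 - (((p : ℕ) : ℝ))⁻¹) ^ (A * k + B * k ^ 2) * φ p k =
      Real.exp ((A * k + B * k ^ 2) * c₀ + ∑' p, ρ₀ p) := by
    have hp1 : ∀ p : Nat.Primes, 0 < 1 - (((p : ℕ) : ℝ))⁻¹ := fun p => by
      have := inv_half p
      linarith
    have h1 : ∀ p : Nat.Primes, Real.log ((1 - (((p : ℕ) : ℝ))⁻¹) ^ (A * k + B * k ^ 2) * φ p k) =
        (A * k + B * k ^ 2) * Real.log (1 - (((p : ℕ) : ℝ))⁻¹) + Real.log (φ p k) := by
      intro p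
      rw [Real.log_mul (Real.rpow_pos_of_pos (hp1 p) _).ne' (hpos p k).ne', Real.log_rpow (hp1 p)]
    rw [← Real.rexp_tsum_eq_tprod (fun p => mul_pos (Real.rpow_pos_of_pos (hp1 p) _) (hpos p k))
      (hs0.congr fun p => (h1 p).symm), tsum_congr h1, tsum_congr e0,
      (log_inv_sum.mul_left (A * k + B * k ^ 2)).tsum_add hρ₀s, tsum_mul_left]
  refine ⟨hs0, fun T hT => (hlogs T hT).1, ?_⟩
  have hmain : Tendsto (fun T : ℝ => (∑' p : Nat.Primes, Real.log (φ p (k * wr γ (Real.log (p : ℕ) / T)))) -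
      (A * k + B * k ^ 2) * Real.log T) atTop (𝓝 (A * k * c₁ + B * k ^ 2 * c₂ + ∑' p, ρ₀ p)) := by
    refine (((hc₁.const_mul (A * k)).add (hc₂.const_mul (B * k ^ 2))).add hρlim).congr' ?_
    filter_upwards [eventually_gt_atTop (0 : ℝ)] with T hT
    rw [(hlogs T hT).2]
    ring
  have h5 := (Real.continuous_exp.tendsto _).comp hmain
  have e5 : Real.exp (A * k * c₁ + B * k ^ 2 * c₂ + ∑' p, ρ₀ p) =
      (∏' p : Nat.Primes, (1 - (((p : ℕ) : ℝ))⁻¹) ^ (A * k + B * k ^ 2) * φ p k) *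
        Real.exp (A * (c₁ - c₀)) ^ k * Real.exp (B * (c₂ - c₀)) ^ (k ^ 2) := by
    rw [ha, ← Real.exp_mul, ← Real.exp_mul, ← Real.exp_add, ← Real.exp_add]
    congr 1
    ring
  rw [e5] at h5
  refine h5.congr' ?_
  filter_upwards [eventually_gt_atTop (0 : ℝ)] with T hT
  simp only [Function.comp_apply]
  rw [Real.exp_sub, ← hlogM T hT, Real.rpow_def_of_pos hT, mul_comm (Real.log T)]

end Pool.Agent.X278.AV
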