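import Pool.Agent.X278.AV.FamM
import Pool.Agent.X278.AV.Height

/-!
# Moments for the family of all elliptic curves by height: the second local moment
-/

set_option autoImplicit false

namespace Pool.Agent.X278.AV

open Finset

section

variable {k : Type} [Field k] [Fintype k] [DecidableEq k]

/-- the second moment of the local function over all equations -/
theorem ff_mean2 (hk : (6 : k) ≠ 0 ∨ Fintype.card k < 17) :
    |(∑ a : k, ∑ b : k, ff a b ^ 2) / (Fintype.card k : ℝ) ^ 2 - 1 / Fintype.card k| ≤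
      30000 / (√(Fintype.card k) * Fintype.card k) := by
  set q : ℝ := ((Fintype.card k : ℕ) : ℝ) with hqd
  have hq1 : (1 : ℝ) ≤ q := by
    rw [hqd]
    exact_mod_cast (Fintype.card_pos : 0 < Fintype.card k)
  have hq0 : 0 < q := by linarith
  set r : ℝ := √q with hr
  have hr0 : 0 < r := Real.sqrt_pos.2 hq0
  have hrq : r ^ 2 = q := Real.sq_sqrt hq0.le
  rcases Nat.lt_or_ge (Fintype.card k) 17 with hs | hs
  · have hqs : q ≤ 17 := by
      rw [hqd]
      exact_mod_cast hs.le
    have hr5 : r ≤ 5 := by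
      rw [hr]
      apply Real.sqrt_le_iff.2
      constructor <;> linarith
    have h0 : ∀ a b : k, |ff a b ^ 2| ≤ 324 := by
      intro a b
      have := ff_small (a := a) (b := b)
      rw [← hqd] at this
      rw [abs_pow]
      calc |ff a b| ^ 2 ≤ 18 ^ 2 := pow_le_pow_left₀ (abs_nonneg _) (by linarith) 2
        _ = 324 := by norm_num
    have h1 : |∑ a : k, ∑ b : k, ff a b ^ 2| ≤ q ^ 2 * 324 := by
      refine (Finset.abs_sum_le_sum_abs _ _).trans ?_
      have h2 : ∀ a : k, |∑ b : k, ff a b ^ 2| ≤ q * 324 := by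
        intro a
        refine (Finset.abs_sum_le_sum_abs _ _).trans ?_
        calc ∑ b : k, |ff a b ^ 2| ≤ ∑ _b : k, 324 := Finset.sum_le_sum fun b _ => h0 a b
          _ = q * 324 := by rw [Finset.sum_const, Finset.card_univ, nsmul_eq_mul]
      calc ∑ a : k, |∑ b : k, ff a b ^ 2| ≤ ∑ _a : k, q * 324 := Finset.sum_le_sum fun a _ => h2 a
        _ = q ^ 2 * 324 := by
          rw [Finset.sum_const, Finset.card_univ, nsmul_eq_mul, ← hqd]
          ring
    have h2 : |(∑ a : k, ∑ b : k, ff a b ^ 2) / q ^ 2| ≤ 324 := by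
      rw [abs_div, abs_of_pos (by positivity : 0 < q ^ 2), div_le_iff₀ (by positivity)]
      linarith
    have h3 : |1 / q| ≤ 1 := by
      rw [abs_of_pos (by positivity), div_le_one (by positivity)]
      linarith
    have h4 : 325 ≤ 30000 / (r * q) := by
      rw [le_div_iff₀ (by positivity)]
      have : r * q ≤ 5 * 17 := mul_le_mul hr5 hqs hq0.le (by norm_num)
      linarith
    have h5 := abs_sub ((∑ a : k, ∑ b : k, ff a b ^ 2) / q ^ 2) (1 / q)
    linarith
  have h6 : (6 : k) ≠ 0 := hk.resolve_right (not_lt.2 hs)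
  have hq17 : (17 : ℝ) ≤ q := by rw [hqd]; exact_mod_cast hs
  have hr4 : 4 ≤ r := by
    rw [hr]
    apply Real.le_sqrt_of_sq_le
    linarith
  set t : k → k → ℝ := fun a b => ((TT a b : ℤ) : ℝ) with ht
  set g : k → k → ℝ := fun a b => ((1 + t a b) / q) ^ 2 with hg
  have hcmp : ∀ a b : k, |ff a b ^ 2 - g a b| ≤ 300 / (r * q) +
      (if 4 * a ^ 3 + 27 * b ^ 2 = 0 then 4 / q else 0) := by
    intro a b
    by_cases h : 4 * a ^ 3 + 27 * b ^ 2 = 0
    · rw [if_pos h]
      have h1 : ff a b = 0 := by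
        unfold ff
        rw [if_pos (by rw [h, mul_zero])]
      have h2 : |t a b| ≤ 1 := by
        have := TT_sing h6 h
        simp only [ht]
        exact_mod_cast this
      have h3 : |g a b| ≤ 4 / q := by
        have h4 : |1 + t a b| ≤ 2 := (abs_add_le _ _).trans (by rw [abs_one]; linarith)
        rw [hg]
        simp only
        rw [div_pow, abs_div, abs_pow, abs_of_pos (by positivity : 0 < q ^ 2), div_le_div_iff₀ (by positivity) hq0]
        have : |1 + t a b| ^ 2 ≤ 4 := by nlinarith [abs_nonneg (1 + t a b)]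
        nlinarith
      rw [h1, zero_pow (by norm_num), zero_sub, abs_neg]
      have : 0 ≤ 300 / (r * q) := by positivity
      linarith
    · rw [if_neg h, add_zero]
      obtain ⟨b1, b2⟩ := ff_exp (mul_ne_zero h6 h) hs
      rw [← hqd] at b1 b2
      rw [← hr] at b1 b2
      have htb : |t a b| ≤ 2 * r := TT_bound (mul_ne_zero h6 h)
      set y : ℝ := (1 + t a b) / q with hy
      have hyb : |y| ≤ 3 / r := by
        rw [hy, abs_div, abs_of_pos hq0, div_le_div_iff₀ hq0 hr0, ← hrq]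
        have h1 : |1 + t a b| ≤ 1 + 2 * r := (abs_add_le _ _).trans (by rw [abs_one]; linarith)
        nlinarith [abs_nonneg (1 + t a b)]
      have e1 : (1 + t a b) / q - (1 + t a b) ^ 2 / (2 * q ^ 2) = y - y ^ 2 / 2 := by
        rw [hy]
        field_simp
      have b1' : |ff a b - (y - y ^ 2 / 2)| ≤ 81 / (r * q) := by
        rw [← e1]
        exact b1
      have b3 : |ff a b - y| ≤ 25 / q := by
        have e2 : ff a b - y = (ff a b - (y - y ^ 2 / 2)) + -(y ^ 2 / 2) := by ring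
        rw [e2]
        refine (abs_add_le _ _).trans ?_
        have h1 : |-(y ^ 2 / 2)| ≤ 9 / 2 / q := by
          rw [abs_neg, abs_div, abs_pow, abs_of_pos (by norm_num : (0 : ℝ) < 2)]
          have : |y| ^ 2 ≤ (3 / r) ^ 2 := pow_le_pow_left₀ (abs_nonneg _) hyb 2
          rw [div_pow, hrq] at this
          have e3 : (9 : ℝ) / 2 / q = 3 ^ 2 / q / 2 := by ring
          rw [e3]
          linarith
        have h2 : 81 / (r * q) ≤ 81 / 4 / q := by
          rw [div_div, div_le_div_iff₀ (by positivity) (by positivity)]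
          nlinarith
        have h3 : (25 : ℝ) / q = 9 / 2 / q + 81 / 4 / q + 1 / 4 / q := by ring
        have h4 : 0 ≤ 1 / 4 / q := by positivity
        linarith
      have b4 : |ff a b + y| ≤ 12 / r := by
        refine (abs_add_le _ _).trans ((add_le_add b2 hyb).trans (le_of_eq ?_))
        ring
      have e3 : ff a b ^ 2 - g a b = (ff a b - y) * (ff a b + y) := by
        rw [hg]
        ring
      rw [e3, abs_mul]
      calc |ff a b - y| * |ff a b + y| ≤ (25 / q) * (12 / r) :=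
            mul_le_mul b3 b4 (abs_nonneg _) (by positivity)
        _ = 300 / (r * q) := by field_simp; norm_num
  have hsum1 : |∑ a : k, ∑ b : k, ff a b ^ 2 - ∑ a : k, ∑ b : k, g a b| ≤ q ^ 2 * (300 / (r * q)) + 8 := by
    rw [← Finset.sum_sub_distrib]
    simp only [← Finset.sum_sub_distrib]
    refine (Finset.abs_sum_le_sum_abs _ _).trans ((Finset.sum_le_sum fun a _ =>
      (Finset.abs_sum_le_sum_abs _ _).trans (Finset.sum_le_sum fun b _ => hcmp a b)).trans ?_)
    simp only [Finset.sum_add_distrib, Finset.sum_const, Finset.card_univ, nsmul_eq_mul]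
    have h1 : ∑ a : k, ∑ b : k, (if 4 * a ^ 3 + 27 * b ^ 2 = 0 then 4 / q else 0) ≤ 8 := by
      have h2 : ∀ a : k, ∑ b : k, (if 4 * a ^ 3 + 27 * b ^ 2 = 0 then 4 / q else (0 : ℝ)) =
          ((univ.filter fun b : k => 4 * a ^ 3 + 27 * b ^ 2 = 0).card : ℝ) * (4 / q) := by
        intro a
        rw [← Finset.sum_filter, Finset.sum_const, nsmul_eq_mul]
      simp only [h2]
      rw [← Finset.sum_mul]
      have h3 : (∑ a : k, ((univ.filter fun b : k => 4 * a ^ 3 + 27 * b ^ 2 = 0).card : ℝ)) ≤ 2 * q := by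
        have := card_sing h6
        rw [hqd]
        exact_mod_cast this
      calc _ ≤ (2 * q) * (4 / q) := by gcongr
        _ = 8 := by field_simp; norm_num
    rw [← hqd]
    have e1 : q * (q * (300 / (r * q))) = q ^ 2 * (300 / (r * q)) := by ring
    rw [e1]
    linarith
  have hM1 : ∑ a : k, ∑ b : k, t a b = 0 := by
    have := moment1 h6
    simp only [ht]
    exact_mod_cast this
  have hM2 : ∑ a : k, ∑ b : k, t a b ^ 2 = q ^ 2 * (q - 1) := by
    have := congrArg (fun z : ℤ => (z : ℝ)) (moment2 h6)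
    simp only [ht, hqd]
    push_cast at this
    exact this
  have hgs : ∑ a : k, ∑ b : k, g a b = q := by
    have e1 : ∀ a b : k, g a b = 1 / q ^ 2 + 2 / q ^ 2 * t a b + 1 / q ^ 2 * t a b ^ 2 := by
      intro a b
      rw [hg]
      field_simp
      ring
    simp only [e1]
    simp only [Finset.sum_add_distrib, ← Finset.mul_sum, hM1, hM2, Finset.sum_const, Finset.card_univ, nsmul_eq_mul]
    rw [← hqd]
    field_simp
    ring
  rw [hgs] at hsum1
  have e1 : (∑ a : k, ∑ b : k, ff a b ^ 2) / q ^ 2 - 1 / q = (∑ a : k, ∑ b : k, ff a b ^ 2 - q) / q ^ 2 := by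
    field_simp
  rw [e1, abs_div, abs_of_pos (by positivity : 0 < q ^ 2), div_le_iff₀ (by positivity)]
  refine hsum1.trans ?_
  have e2 : 30000 / (r * q) * q ^ 2 = 30000 * q / r := by field_simp
  have e3 : q ^ 2 * (300 / (r * q)) = 300 * q / r := by field_simp
  rw [e2, e3]
  have h9 : 8 ≤ 8 * q / r := by
    rw [le_div_iff₀ hr0, ← hrq]
    nlinarith
  have h10 : 300 * q / r + 8 * q / r ≤ 30000 * q / r := by
    rw [← add_div]
    gcongr
    linarith
  linarith

end

theorem exH2 (p : Nat.Primes) : |Ex (∑ j, eH j) (p : ℕ) (fun r => fH p r ^ 2) - (1 : ℝ) / (p : ℕ)| ≤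
    62000 / (√((p : ℕ) : ℝ) * (p : ℕ)) := by
  have hp2 : (2 : ℝ) ≤ (p : ℕ) := by exact_mod_cast p.2.two_le
  have hp0 : (0 : ℝ) < (p : ℕ) := by linarith
  have hr0 : 0 < √((p : ℕ) : ℝ) := Real.sqrt_pos.2 hp0
  have h10 : ∑ j, eH j = 10 := by simp [eH]
  have h1 := ff_mean2 (k := ZMod p) (by
    rcases Nat.lt_or_ge (p : ℕ) 17 with h | h
    · right
      rwa [ZMod.card]
    · left
      intro h6
      have h7 : ((6 : ℕ) : ZMod p) = 0 := by push_cast; exact h6
      rw [ZMod.natCast_eq_zero_iff] at h7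
      have := Nat.le_of_dvd (by norm_num) h7
      omega)
  have havg : avg (fun r => fH p r ^ 2) = (∑ a : ZMod p, ∑ b : ZMod p, ff a b ^ 2) / ((p : ℕ) : ℝ) ^ 2 := by
    unfold avg
    congr 1
    rw [← Fintype.sum_prod_type' (fun a b : ZMod p => ff a b ^ 2)]
    exact Fintype.sum_equiv (finTwoArrowEquiv _) _ _ fun r => rfl
  rw [ZMod.card, ← havg] at h1
  set ε : ℝ := (((p : ℕ) : ℝ) ^ 10)⁻¹ with hε
  have hε0 : 0 < ε := by positivity
  have hε1 : ε ≤ 1 / ((p : ℕ) : ℝ) := by
    rw [hε, ← one_div]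
    apply one_div_le_one_div_of_le hp0
    have : ((p : ℕ) : ℝ) ^ 1 ≤ ((p : ℕ) : ℝ) ^ 10 := pow_le_pow_right₀ (by linarith) (by norm_num)
    simpa using this
  have hε2 : ε ≤ 1 / 2 := hε1.trans (one_div_le_one_div_of_le (by norm_num) hp2)
  unfold Ex
  rw [h10, ← hε]
  have e1 : avg (fun r => fH p r ^ 2) / (1 - ε) - (1 : ℝ) / (p : ℕ) =
      (avg (fun r => fH p r ^ 2) - 1 / (p : ℕ) + ε * (1 / (p : ℕ))) / (1 - ε) := by
    have : (1 - ε) ≠ 0 := by linarith
    field_simp
    ring
  rw [e1, abs_div, abs_of_pos (by linarith : 0 < 1 - ε), div_le_iff₀ (by linarith)]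
  have h2 : |ε * (1 / ((p : ℕ) : ℝ))| ≤ 1 / (√((p : ℕ) : ℝ) * (p : ℕ)) := by
    rw [abs_of_pos (by positivity), mul_one_div, div_le_div_iff₀ (by positivity) (by positivity)]
    have h3 : √((p : ℕ) : ℝ) ≤ (p : ℕ) := by
      rw [Real.sqrt_le_left hp0.le]
      nlinarith
    have h4 : ε * √((p : ℕ) : ℝ) ≤ 1 := by
      calc ε * √((p : ℕ) : ℝ) ≤ (1 / ((p : ℕ) : ℝ)) * (p : ℕ) := by gcongr
        _ = 1 := by field_simp
    nlinarith
  have h3 := abs_add_le (avg (fun r => fH p r ^ 2) - 1 / ((p : ℕ) : ℝ)) (ε * (1 / ((p : ℕ) : ℝ)))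
  have h4 : (31000 : ℝ) / (√((p : ℕ) : ℝ) * (p : ℕ)) ≤ 62000 / (√((p : ℕ) : ℝ) * (p : ℕ)) * (1 - ε) := by
    rw [div_mul_eq_mul_div]
    gcongr
    linarith
  have h5 : (31000 : ℝ) / (√((p : ℕ) : ℝ) * (p : ℕ)) = 30000 / (√((p : ℕ) : ℝ) * (p : ℕ)) +
      1 / (√((p : ℕ) : ℝ) * (p : ℕ)) + 999 / (√((p : ℕ) : ℝ) * (p : ℕ)) := by ring
  have h6 : (0 : ℝ) ≤ 999 / (√((p : ℕ) : ℝ) * (p : ℕ)) := by positivity
  linarith

/-- the size of the local function -/
theorem sizeH (p : Nat.Primes) (r : Fin 2 → ZMod p) : |fH p r| ≤ 100 / √((p : ℕ) : ℝ) := by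
  have := ff_size (a := r 0) (b := r 1)
  rw [ZMod.card] at this
  exact this

theorem zeroH (p : Nat.Primes) : fH p 0 = 0 := sysH.zero p

end Pool.Agent.X278.AV
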