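import Pool.Agent.X278.AV.Mom

/-!
# The local factors for quadratic characters
-/

set_option autoImplicit false

namespace Pool.Agent.X278.AV

open Filter Topology Asymptotics Finset
open Pool.Agent.W189.ML Pool.Agent.X278.OP

theorem exp_rem (z : ℝ) : |Real.exp z - 1 - z - z ^ 2 / 2| ≤ |z| ^ 3 * Real.exp |z| := by
  have h := Complex.norm_exp_sub_sum_le_norm_mul_exp (z : ℂ) 3
  have e1 : Complex.exp (z : ℂ) - ∑ m ∈ range 3, (z : ℂ) ^ m / (m.factorial : ℂ) =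
      ((Real.exp z - 1 - z - z ^ 2 / 2 : ℝ) : ℂ) := by
    simp only [Finset.sum_range_succ, Finset.sum_range_zero, Nat.factorial]
    push_cast
    ring
  rw [e1, Complex.norm_real, Complex.norm_real, Real.norm_eq_abs, Real.norm_eq_abs] at h
  exact h

theorem log_step {y a δ C D L : ℝ} (hδ : 0 ≤ δ) (hδ1 : δ ≤ 1) (hL : 0 < L) (hL1 : L ≤ 1 + y)
    (hC : 0 ≤ C) (hD : 0 ≤ D) (h1 : |y - a| ≤ C * δ ^ 3) (h2 : |a| ≤ D * δ ^ 2) :
    |Real.log (1 + y) - a| ≤ (C + (C + D) ^ 2 / L) * δ ^ 3 := by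
  have hy : 0 < 1 + y := hL.trans_le hL1
  have h3 := Real.log_le_sub_one_of_pos hy
  have h4 := Real.one_sub_inv_le_log_of_pos hy
  have h5 : 1 - (1 + y)⁻¹ = y - y ^ 2 / (1 + y) := by
    field_simp
    ring
  rw [h5] at h4
  have h6 : y ^ 2 / (1 + y) ≤ y ^ 2 / L := by gcongr
  have hδ3 : δ ^ 3 ≤ δ ^ 2 := pow_le_pow_of_le_one hδ hδ1 (by norm_num)
  have hδ4 : δ ^ 4 ≤ δ ^ 3 := pow_le_pow_of_le_one hδ hδ1 (by norm_num)
  have h7 : |y| ≤ (C + D) * δ ^ 2 := by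
    have e1 : y = (y - a) + a := by ring
    rw [e1]
    refine (abs_add_le _ _).trans ((add_le_add h1 h2).trans ?_)
    nlinarith
  have h8 : y ^ 2 ≤ (C + D) ^ 2 * δ ^ 3 := by
    calc y ^ 2 = |y| ^ 2 := (sq_abs y).symm
      _ ≤ ((C + D) * δ ^ 2) ^ 2 := pow_le_pow_left₀ (abs_nonneg _) h7 2
      _ = (C + D) ^ 2 * δ ^ 4 := by ring
      _ ≤ _ := by gcongr
  have h9 : |Real.log (1 + y) - y| ≤ (C + D) ^ 2 / L * δ ^ 3 := by
    rw [abs_le]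
    have h10 : y ^ 2 / L ≤ (C + D) ^ 2 / L * δ ^ 3 := by
      rw [div_mul_eq_mul_div]
      gcongr
    constructor
    · linarith
    · have : 0 ≤ (C + D) ^ 2 / L * δ ^ 3 := by positivity
      linarith
  have e1 : Real.log (1 + y) - a = (Real.log (1 + y) - y) + (y - a) := by ring
  rw [e1]
  refine (abs_add_le _ _).trans ((add_le_add h9 h1).trans (le_of_eq ?_))
  ring

/-- the local factor `((1 - p^{-1/2})^{-x} + (1 + p^{-1/2})^{-x}) / 2 + 1/p) / (1 + 1/p)` -/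
noncomputable def phQ (p : ℕ) (x : ℝ) : ℝ :=
  (1 / 2 * ((1 - (√(p : ℝ))⁻¹) ^ (-x) + (1 + (√(p : ℝ))⁻¹) ^ (-x)) + 1 / p) / (1 + 1 / p)

section

variable (p : Nat.Primes)

theorem de_facts : 0 < (√((p : ℕ) : ℝ))⁻¹ ∧ (√((p : ℕ) : ℝ))⁻¹ ≤ 3 / 4 ∧ ((√((p : ℕ) : ℝ))⁻¹) ^ 2 = 1 / ((p : ℕ) : ℝ) := by
  have hp0 : (0 : ℝ) < (p : ℕ) := by exact_mod_cast p.2.pos
  have h1 : 0 < √((p : ℕ) : ℝ) := Real.sqrt_pos.2 hp0
  refine ⟨by positivity, ?_, ?_⟩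
  · have := sqrt_two_le p
    rwa [one_div] at this
  · rw [inv_pow, Real.sq_sqrt hp0.le, one_div]

theorem phQ_pos (x : ℝ) : 0 < phQ (p : ℕ) x := by
  have hp0 : (0 : ℝ) < (p : ℕ) := by exact_mod_cast p.2.pos
  obtain ⟨h1, h2, -⟩ := de_facts p
  have h3 : 0 < (1 - (√((p : ℕ) : ℝ))⁻¹) ^ (-x) := Real.rpow_pos_of_pos (by linarith) _
  have h4 : 0 < (1 + (√((p : ℕ) : ℝ))⁻¹) ^ (-x) := Real.rpow_pos_of_pos (by linarith) _
  unfold phQ
  positivity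

theorem phQ_cont : Continuous (phQ (p : ℕ)) := by
  obtain ⟨h1, h2, -⟩ := de_facts p
  unfold phQ
  have h3 : Continuous fun x : ℝ => (1 - (√((p : ℕ) : ℝ))⁻¹) ^ (-x) :=
    Continuous.rpow continuous_const (by fun_prop) fun _ => Or.inl (by linarith)
  have h4 : Continuous fun x : ℝ => (1 + (√((p : ℕ) : ℝ))⁻¹) ^ (-x) :=
    Continuous.rpow continuous_const (by fun_prop) fun _ => Or.inl (by linarith)
  exact (((continuous_const.mul (h3.add h4)).add continuous_const)).div_const _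

/-- the local factor as a mean -/
theorem phQ_eq (x : ℝ) : phQ (p : ℕ) x = 1 + (((p : ℕ) : ℝ) / (2 * (((p : ℕ) : ℝ) + 1))) *
    ((Real.exp (x * -Real.log (1 - (√((p : ℕ) : ℝ))⁻¹)) - 1) + (Real.exp (x * -Real.log (1 + (√((p : ℕ) : ℝ))⁻¹)) - 1)) := by
  have hp0 : (0 : ℝ) < (p : ℕ) := by exact_mod_cast p.2.pos
  obtain ⟨h1, h2, -⟩ := de_facts p
  unfold phQ
  rw [Real.rpow_def_of_pos (by linarith), Real.rpow_def_of_pos (by linarith)]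
  have e1 : Real.log (1 - (√((p : ℕ) : ℝ))⁻¹) * -x = x * -Real.log (1 - (√((p : ℕ) : ℝ))⁻¹) := by ring
  have e2 : Real.log (1 + (√((p : ℕ) : ℝ))⁻¹) * -x = x * -Real.log (1 + (√((p : ℕ) : ℝ))⁻¹) := by ring
  rw [e1, e2]
  field_simp
  ring

/-- **the local expansion** -/
theorem phQ_exp (K : ℝ) : ∃ C : ℝ, ∀ (p : Nat.Primes) (x : ℝ), |x| ≤ K →
    |Real.log (phQ (p : ℕ) x) - (1 / 2 * x + 1 / 2 * x ^ 2) / (p : ℕ)| ≤ C / (√((p : ℕ) : ℝ) * (p : ℕ)) := by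
  rcases lt_or_ge K 0 with hK | hK
  · exact ⟨0, fun p x hx => absurd ((abs_nonneg x).trans hx) (not_le.2 hK)⟩
  set E : ℝ := Real.exp (4 * K) with hE
  have hE1 : 1 ≤ E := Real.one_le_exp (by positivity)
  set C₁ : ℝ := 64 * K ^ 3 * E + 8 * K + 16 * K ^ 2 with hC₁
  set D₁ : ℝ := K + K ^ 2 with hD₁
  refine ⟨C₁ + (C₁ + D₁) ^ 2 / E⁻¹, fun p x hx => ?_⟩
  have hp0 : (0 : ℝ) < (p : ℕ) := by exact_mod_cast p.2.pos
  obtain ⟨d0, d1, d2⟩ := de_facts p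
  set δ : ℝ := (√((p : ℕ) : ℝ))⁻¹ with hδ
  set Y₁ : ℝ := -Real.log (1 - δ) with hY₁
  set Y₂ : ℝ := -Real.log (1 + δ) with hY₂
  have hx0 := abs_nonneg x
  -- the values
  have b1 : |Y₁ - δ| ≤ 2 * δ ^ 2 := by
    have h1 : 0 < 1 - δ := by linarith
    have h3 := Real.log_le_sub_one_of_pos h1
    have h4 := Real.one_sub_inv_le_log_of_pos h1
    rw [abs_le]
    constructor
    · have : 0 ≤ 2 * δ ^ 2 := by positivity
      linarith
    · have h2 := Complex.norm_log_one_add_sub_self_le (z := ((-δ : ℝ) : ℂ)) (by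
        rw [Complex.norm_real, Real.norm_eq_abs, abs_neg, abs_of_pos d0]
        linarith)
      rw [Complex.norm_real, Real.norm_eq_abs, abs_neg, abs_of_pos d0, ← Complex.ofReal_one, ← Complex.ofReal_add,
        ← Complex.ofReal_log (by linarith), ← Complex.ofReal_sub, Complex.norm_real, Real.norm_eq_abs] at h2
      have h5 : (1 - δ)⁻¹ ≤ 4 := by
        rw [inv_le_comm₀ h1 (by norm_num)]
        linarith
      have h6 : δ ^ 2 * (1 - δ)⁻¹ / 2 ≤ 2 * δ ^ 2 := by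
        have : δ ^ 2 * (1 - δ)⁻¹ ≤ δ ^ 2 * 4 := by gcongr
        linarith
      have h7 := (abs_le.1 (h2.trans h6)).1
      have e1 : 1 + -δ = 1 - δ := by ring
      rw [e1] at h7
      rw [hY₁]
      linarith
  have b2 : |Y₂ + δ| ≤ 2 * δ ^ 2 := by
    have h1 : 0 < 1 + δ := by linarith
    have h3 := Real.log_le_sub_one_of_pos h1
    have h4 := Real.one_sub_inv_le_log_of_pos h1
    have h5 : 1 - (1 + δ)⁻¹ = δ - δ ^ 2 / (1 + δ) := by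
      field_simp
      ring
    rw [h5] at h4
    have h6 : δ ^ 2 / (1 + δ) ≤ δ ^ 2 := div_le_self (by positivity) (by linarith)
    rw [abs_le]
    constructor
    · have : 0 ≤ 2 * δ ^ 2 := by positivity
      linarith
    · have : 0 ≤ δ ^ 2 := by positivity
      linarith
  have b3 : |Y₁ + Y₂ - δ ^ 2| ≤ 2 * δ ^ 4 := by
    have e1 : Y₁ + Y₂ = -Real.log (1 - δ ^ 2) := by
      rw [hY₁, hY₂, show (1 - δ ^ 2) = (1 - δ) * (1 + δ) by ring, Real.log_mul (by linarith) (by linarith)]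
      ring
    rw [e1]
    have h1 : δ ^ 2 ≤ 1 / 2 := by
      rw [d2]
      have := inv_half p
      rwa [one_div]
    refine (psi_bd (by positivity) h1).trans (le_of_eq ?_)
    ring
  have y1 : |Y₁| ≤ 4 * δ := by
    have e1 : Y₁ = (Y₁ - δ) + δ := by ring
    rw [e1]
    refine (abs_add_le _ _).trans ((add_le_add b1 (le_of_eq (abs_of_pos d0))).trans ?_)
    nlinarith
  have y2 : |Y₂| ≤ 4 * δ := by
    have e1 : Y₂ = (Y₂ + δ) - δ := by ring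
    rw [e1]
    refine (abs_sub _ _).trans ((add_le_add b2 (le_of_eq (abs_of_pos d0))).trans ?_)
    nlinarith
  have q1 : |Y₁ ^ 2 - δ ^ 2| ≤ 8 * δ ^ 3 := by
    have e1 : Y₁ ^ 2 - δ ^ 2 = (Y₁ - δ) * ((Y₁ - δ) + 2 * δ) := by ring
    rw [e1, abs_mul]
    have h1 : |(Y₁ - δ) + 2 * δ| ≤ 4 * δ := by
      refine (abs_add_le _ _).trans ((add_le_add b1 (le_of_eq (abs_of_pos (by positivity)))).trans ?_)
      nlinarith
    calc |Y₁ - δ| * |(Y₁ - δ) + 2 * δ| ≤ (2 * δ ^ 2) * (4 * δ) := by gcongr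
      _ = _ := by ring
  have q2 : |Y₂ ^ 2 - δ ^ 2| ≤ 8 * δ ^ 3 := by
    have e1 : Y₂ ^ 2 - δ ^ 2 = (Y₂ + δ) * ((Y₂ + δ) - 2 * δ) := by ring
    rw [e1, abs_mul]
    have h1 : |(Y₂ + δ) - 2 * δ| ≤ 4 * δ := by
      refine (abs_sub _ _).trans ((add_le_add b2 (le_of_eq (abs_of_pos (by positivity)))).trans ?_)
      nlinarith
    calc |Y₂ + δ| * |(Y₂ + δ) - 2 * δ| ≤ (2 * δ ^ 2) * (4 * δ) := by gcongr
      _ = _ := by ring
  -- the exponentials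
  have hrem : ∀ Y : ℝ, |Y| ≤ 4 * δ → |Real.exp (x * Y) - 1 - x * Y - (x * Y) ^ 2 / 2| ≤ 64 * K ^ 3 * E * δ ^ 3 := by
    intro Y hY
    have h1 : |x * Y| ≤ K * (4 * δ) := by
      rw [abs_mul]
      gcongr
    have h2 : |x * Y| ≤ 4 * K := h1.trans (by nlinarith)
    refine (exp_rem _).trans ?_
    calc |x * Y| ^ 3 * Real.exp |x * Y| ≤ (K * (4 * δ)) ^ 3 * E := by
          gcongr
          exact Real.exp_le_exp.2 h2
      _ = _ := by ring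
  have r1 := hrem Y₁ y1
  have r2 := hrem Y₂ y2
  -- the mean
  set c : ℝ := ((p : ℕ) : ℝ) / (2 * (((p : ℕ) : ℝ) + 1)) with hc
  have hc0 : 0 ≤ c := by positivity
  have hc1 : c ≤ 1 / 2 := by
    rw [hc, div_le_div_iff₀ (by positivity) (by norm_num)]
    linarith
  have hc2 : |2 * c - 1| ≤ δ ^ 2 := by
    have e1 : 2 * c - 1 = -(1 / (((p : ℕ) : ℝ) + 1)) := by
      rw [hc]
      field_simp
      ring
    rw [e1, abs_neg, abs_of_pos (by positivity), d2]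
    apply one_div_le_one_div_of_le hp0
    linarith
  set y : ℝ := c * ((Real.exp (x * Y₁) - 1) + (Real.exp (x * Y₂) - 1)) with hy
  have hphi : phQ (p : ℕ) x = 1 + y := phQ_eq p x
  have hδ1 : δ ≤ 1 := by linarith
  have hlow : E⁻¹ ≤ 1 + y := by
    have h1 : ∀ Y : ℝ, |Y| ≤ 4 * δ → E⁻¹ ≤ Real.exp (x * Y) := by
      intro Y hY
      rw [hE, ← Real.exp_neg]
      apply Real.exp_le_exp.2
      have h2 : |x * Y| ≤ 4 * K := by
        rw [abs_mul]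
        calc |x| * |Y| ≤ K * (4 * δ) := by gcongr
          _ ≤ 4 * K := by nlinarith
      have := (abs_le.1 h2).1
      linarith
    have h2 := h1 Y₁ y1
    have h3 := h1 Y₂ y2
    have h4 : E⁻¹ ≤ 1 := inv_le_one_of_one_le₀ hE1
    have e1 : 1 + y = (1 - 2 * c) * 1 + c * Real.exp (x * Y₁) + c * Real.exp (x * Y₂) := by
      rw [hy]
      ring
    rw [e1]
    calc E⁻¹ = (1 - 2 * c) * E⁻¹ + c * E⁻¹ + c * E⁻¹ := by ring
      _ ≤ _ := by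
        have : 0 ≤ 1 - 2 * c := by linarith
        gcongr
  have h1 : |y - (1 / 2 * x + 1 / 2 * x ^ 2) * δ ^ 2| ≤ C₁ * δ ^ 3 := by
    have e1 : y - (1 / 2 * x + 1 / 2 * x ^ 2) * δ ^ 2 =
        c * (Real.exp (x * Y₁) - 1 - x * Y₁ - (x * Y₁) ^ 2 / 2) +
        c * (Real.exp (x * Y₂) - 1 - x * Y₂ - (x * Y₂) ^ 2 / 2) +
        (c * x * (Y₁ + Y₂ - δ ^ 2) + (2 * c - 1) * (1 / 2 * x) * δ ^ 2) +
        (c * (x ^ 2 / 2) * ((Y₁ ^ 2 - δ ^ 2) + (Y₂ ^ 2 - δ ^ 2)) + (2 * c - 1) * (1 / 2 * x ^ 2) * δ ^ 2) := by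
      rw [hy]
      ring
    rw [e1]
    have t1 : |c * (Real.exp (x * Y₁) - 1 - x * Y₁ - (x * Y₁) ^ 2 / 2)| ≤ 32 * K ^ 3 * E * δ ^ 3 := by
      rw [abs_mul, abs_of_nonneg hc0]
      calc _ ≤ (1 / 2) * (64 * K ^ 3 * E * δ ^ 3) := by gcongr
        _ = _ := by ring
    have t2 : |c * (Real.exp (x * Y₂) - 1 - x * Y₂ - (x * Y₂) ^ 2 / 2)| ≤ 32 * K ^ 3 * E * δ ^ 3 := by
      rw [abs_mul, abs_of_nonneg hc0]
      calc _ ≤ (1 / 2) * (64 * K ^ 3 * E * δ ^ 3) := by gcongr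
        _ = _ := by ring
    have hδ43 : δ ^ 4 ≤ δ ^ 3 := pow_le_pow_of_le_one d0.le hδ1 (by norm_num)
    have t3 : |c * x * (Y₁ + Y₂ - δ ^ 2) + (2 * c - 1) * (1 / 2 * x) * δ ^ 2| ≤ 8 * K * δ ^ 3 := by
      refine (abs_add_le _ _).trans ?_
      have u1 : |c * x * (Y₁ + Y₂ - δ ^ 2)| ≤ K * δ ^ 3 := by
        rw [abs_mul, abs_mul, abs_of_nonneg hc0]
        calc c * |x| * |Y₁ + Y₂ - δ ^ 2| ≤ (1 / 2) * K * (2 * δ ^ 4) := by gcongr
          _ = K * δ ^ 4 := by ring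
          _ ≤ _ := by gcongr
      have u2 : |(2 * c - 1) * (1 / 2 * x) * δ ^ 2| ≤ K * δ ^ 3 := by
        rw [abs_mul, abs_mul, abs_mul, abs_of_pos (by norm_num : (0 : ℝ) < 1 / 2), abs_of_pos (by positivity : 0 < δ ^ 2)]
        calc |2 * c - 1| * (1 / 2 * |x|) * δ ^ 2 ≤ δ ^ 2 * (1 / 2 * K) * δ ^ 2 := by gcongr
          _ = (1 / 2 * K) * δ ^ 4 := by ring
          _ ≤ K * δ ^ 3 := by
            apply mul_le_mul _ hδ43 (by positivity) hK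
            linarith
      have : 0 ≤ K * δ ^ 3 := by positivity
      linarith
    have t4 : |c * (x ^ 2 / 2) * ((Y₁ ^ 2 - δ ^ 2) + (Y₂ ^ 2 - δ ^ 2)) + (2 * c - 1) * (1 / 2 * x ^ 2) * δ ^ 2| ≤
        16 * K ^ 2 * δ ^ 3 := by
      have hx2 : x ^ 2 ≤ K ^ 2 := by
        rw [← sq_abs x]
        gcongr
      refine (abs_add_le _ _).trans ?_
      have u1 : |c * (x ^ 2 / 2) * ((Y₁ ^ 2 - δ ^ 2) + (Y₂ ^ 2 - δ ^ 2))| ≤ 4 * K ^ 2 * δ ^ 3 := by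
        rw [abs_mul, abs_mul, abs_of_nonneg hc0, abs_of_nonneg (by positivity : 0 ≤ x ^ 2 / 2)]
        calc c * (x ^ 2 / 2) * |(Y₁ ^ 2 - δ ^ 2) + (Y₂ ^ 2 - δ ^ 2)| ≤
            (1 / 2) * (K ^ 2 / 2) * (8 * δ ^ 3 + 8 * δ ^ 3) := by
              gcongr
              exact (abs_add_le _ _).trans (add_le_add q1 q2)
          _ = _ := by ring
      have u2 : |(2 * c - 1) * (1 / 2 * x ^ 2) * δ ^ 2| ≤ K ^ 2 * δ ^ 3 := by
        rw [abs_mul, abs_mul, abs_of_nonneg (by positivity : 0 ≤ 1 / 2 * x ^ 2), abs_of_pos (by positivity : 0 < δ ^ 2)]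
        calc |2 * c - 1| * (1 / 2 * x ^ 2) * δ ^ 2 ≤ δ ^ 2 * (1 / 2 * K ^ 2) * δ ^ 2 := by gcongr
          _ = (1 / 2 * K ^ 2) * δ ^ 4 := by ring
          _ ≤ K ^ 2 * δ ^ 3 := by
            apply mul_le_mul _ hδ43 (by positivity) (by positivity)
            nlinarith [sq_nonneg K]
      have : 0 ≤ K ^ 2 * δ ^ 3 := by positivity
      linarith
    have t5 := abs_add_le (c * (Real.exp (x * Y₁) - 1 - x * Y₁ - (x * Y₁) ^ 2 / 2) +
        c * (Real.exp (x * Y₂) - 1 - x * Y₂ - (x * Y₂) ^ 2 / 2) +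
        (c * x * (Y₁ + Y₂ - δ ^ 2) + (2 * c - 1) * (1 / 2 * x) * δ ^ 2))
        (c * (x ^ 2 / 2) * ((Y₁ ^ 2 - δ ^ 2) + (Y₂ ^ 2 - δ ^ 2)) + (2 * c - 1) * (1 / 2 * x ^ 2) * δ ^ 2)
    have t6 := abs_add_le (c * (Real.exp (x * Y₁) - 1 - x * Y₁ - (x * Y₁) ^ 2 / 2) +
        c * (Real.exp (x * Y₂) - 1 - x * Y₂ - (x * Y₂) ^ 2 / 2))
        (c * x * (Y₁ + Y₂ - δ ^ 2) + (2 * c - 1) * (1 / 2 * x) * δ ^ 2)
    have t7 := abs_add_le (c * (Real.exp (x * Y₁) - 1 - x * Y₁ - (x * Y₁) ^ 2 / 2))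
        (c * (Real.exp (x * Y₂) - 1 - x * Y₂ - (x * Y₂) ^ 2 / 2))
    rw [hC₁]
    nlinarith
  have h2 : |(1 / 2 * x + 1 / 2 * x ^ 2) * δ ^ 2| ≤ D₁ * δ ^ 2 := by
    rw [abs_mul, abs_of_pos (by positivity : 0 < δ ^ 2)]
    gcongr
    have hx2 : x ^ 2 ≤ K ^ 2 := by
      rw [← sq_abs x]
      gcongr
    refine (abs_add_le _ _).trans ?_
    rw [abs_mul, abs_mul, abs_of_pos (by norm_num : (0 : ℝ) < 1 / 2), abs_of_nonneg (sq_nonneg x)]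
    rw [hD₁]
    nlinarith [sq_nonneg K]
  have h3 := log_step d0.le hδ1 (inv_pos.2 (by positivity : 0 < E)) hlow (by positivity) (by positivity) h1 h2
  rw [hphi]
  have e1 : (1 / 2 * x + 1 / 2 * x ^ 2) / ((p : ℕ) : ℝ) = (1 / 2 * x + 1 / 2 * x ^ 2) * δ ^ 2 := by
    rw [d2]
    ring
  have e2 : (C₁ + (C₁ + D₁) ^ 2 / E⁻¹) / (√((p : ℕ) : ℝ) * (p : ℕ)) = (C₁ + (C₁ + D₁) ^ 2 / E⁻¹) * δ ^ 3 := by
    have : δ ^ 3 = δ * δ ^ 2 := by ring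
    rw [this, d2, hδ]
    field_simp
  rw [e1, e2]
  exact h3

end

end Pool.Agent.X278.AV
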