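import Pool.Agent.X278.AV.MomQ

/-!
# Means of powers of products over the quadratic characters in a class; one character
-/

set_option autoImplicit false

namespace Pool.Agent.X278.AV

open Filter Topology Asymptotics Finset
open Pool.Agent.W189.ML Pool.Agent.X287.CR Pool.Agent.X278.OP
open Pool.Agent.W187.UR (Lam)

theorem exp_one_rem (z : ℝ) : |Real.exp z - 1| ≤ |z| * Real.exp |z| := by
  have h := Complex.norm_exp_sub_sum_le_norm_mul_exp (z : ℂ) 1
  have e1 : Complex.exp (z : ℂ) - ∑ m ∈ range 1, (z : ℂ) ^ m / (m.factorial : ℂ) = ((Real.exp z - 1 : ℝ) : ℂ) := by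
    simp only [Finset.sum_range_one, Nat.factorial, pow_zero]
    push_cast
    ring
  rw [e1, Complex.norm_real, Complex.norm_real, Real.norm_eq_abs, Real.norm_eq_abs, pow_one] at h
  exact h

/-- `Y = - log (1 - η p^{-1/2})` -/
noncomputable def Yq (p : Nat.Primes) (η : ℝ) : ℝ := -Real.log (1 - η * (√((p : ℕ) : ℝ))⁻¹)

theorem Yq_bd (p : Nat.Primes) {η : ℝ} (hη : |η| ≤ 1) : 0 < 1 - η * (√((p : ℕ) : ℝ))⁻¹ ∧
    |Yq p η| ≤ 4 * (√((p : ℕ) : ℝ))⁻¹ := by
  obtain ⟨d0, d1, -⟩ := de_facts p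
  set δ : ℝ := (√((p : ℕ) : ℝ))⁻¹ with hδ
  have h1 : |η * δ| ≤ δ := by
    rw [abs_mul, abs_of_pos d0]
    nlinarith
  have h2 := (abs_le.1 h1).2
  have h3 : 0 < 1 - η * δ := by linarith
  refine ⟨h3, ?_⟩
  have h4 := log_bd (z := ((η * δ : ℝ) : ℂ)) (by
    rw [Complex.norm_real, Real.norm_eq_abs]
    linarith)
  rw [← Complex.ofReal_one, ← Complex.ofReal_sub, Complex.norm_real, Complex.norm_real, Real.norm_eq_abs,
    Real.norm_eq_abs, abs_of_pos h3] at h4
  unfold Yq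
  rw [abs_neg]
  linarith

/-- the local function of the `k`-th power -/
noncomputable def gQ (ε : Nat.Primes → ℤ) (u : ℤ) (x : Nat.Primes → ℝ) (p : Nat.Primes) (r : ZMod p) : ℂ :=
  ((Real.exp (x p * Yq p ((ε p * quadraticChar (ZMod p) ((u : ZMod p) * r) : ℤ) : ℝ)) - 1 : ℝ) : ℂ)

theorem eta_bd {ε : Nat.Primes → ℤ} (hε : ∀ p, ε p = 1 ∨ ε p = -1) (p : Nat.Primes) (x : ZMod p) :
    |((ε p * quadraticChar (ZMod p) x : ℤ) : ℝ)| ≤ 1 := by
  have h1 : |((quadraticChar (ZMod p) x : ℤ) : ℝ)| ≤ 1 := by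
    by_cases h : x = 0
    · rw [h, quadraticChar_zero]
      simp
    · rcases quadraticChar_dichotomy h with h1 | h1 <;> rw [h1] <;> simp
  push_cast
  rw [abs_mul]
  rcases hε p with h | h <;> rw [h] <;> simpa using h1

theorem gQ_zero (ε : Nat.Primes → ℤ) (u : ℤ) (x : Nat.Primes → ℝ) (p : Nat.Primes) : gQ ε u x p 0 = 0 := by
  unfold gQ Yq
  rw [mul_zero, quadraticChar_zero]
  simp

theorem gQ_bd {ε : Nat.Primes → ℤ} (hε : ∀ p, ε p = 1 ∨ ε p = -1) (u : ℤ) {x : Nat.Primes → ℝ} {K : ℝ}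
    (hx : ∀ p, |x p| ≤ K) (p : Nat.Primes) (r : ZMod p) :
    ‖gQ ε u x p r‖ ≤ 4 * Real.exp (4 * K) * (√((p : ℕ) : ℝ))⁻¹ * |x p| := by
  obtain ⟨d0, d1, -⟩ := de_facts p
  have h1 := (Yq_bd p (eta_bd hε p ((u : ZMod p) * r))).2
  unfold gQ
  rw [Complex.norm_real, Real.norm_eq_abs]
  refine (exp_one_rem _).trans ?_
  set Y := Yq p ((ε p * quadraticChar (ZMod p) ((u : ZMod p) * r) : ℤ) : ℝ) with hY
  rw [abs_mul]
  have h2 : |x p| * |Y| ≤ 4 * K := by
    have hK : 0 ≤ K := (abs_nonneg _).trans (hx p)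
    calc |x p| * |Y| ≤ K * (4 * (√((p : ℕ) : ℝ))⁻¹) := by
          gcongr
          exact hx p
      _ ≤ 4 * K := by nlinarith
  calc |x p| * |Y| * Real.exp (|x p| * |Y|) ≤ |x p| * (4 * (√((p : ℕ) : ℝ))⁻¹) * Real.exp (4 * K) := by gcongr
    _ = _ := by ring

/-- the mean of the local function -/
theorem gQ_mean {ε : Nat.Primes → ℤ} (hε : ∀ p, ε p = 1 ∨ ε p = -1) {u : ℤ} (hu : u = 1 ∨ u = -1) (x : Nat.Primes → ℝ)
    {p : Nat.Primes} (hp : (p : ℕ) ≠ 2) : 1 + EuC (p : ℕ) (gQ ε u x p) = ((phQ (p : ℕ) (x p) : ℝ) : ℂ) := by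
  have hp2 : (2 : ℝ) ≤ (p : ℕ) := by exact_mod_cast p.2.two_le
  have hp0 : (0 : ℝ) < (p : ℕ) := by linarith
  set G : ℤ → ℝ := fun η => Real.exp (x p * Yq p (η : ℝ)) - 1 with hG
  have hg : ∀ r : ZMod p, gQ ε u x p r = ((G (ε p * quadraticChar (ZMod p) ((u : ZMod p) * r)) : ℝ) : ℂ) := fun r => rfl
  have hchar : ringChar (ZMod p) ≠ 2 := by
    rw [ZMod.ringChar_zmod_n]
    exact hp
  have huu : IsUnit ((u : ℤ) : ZMod p) := by
    rcases hu with h | h <;> rw [h] <;> simp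
  have hbij : ∑ r : ZMod p, G (ε p * quadraticChar (ZMod p) ((u : ZMod p) * r)) =
      ∑ r : ZMod p, G (ε p * quadraticChar (ZMod p) r) :=
    Fintype.sum_equiv (huu.unit.mulLeft) _ _ fun r => rfl
  have hG0 : G 0 = 0 := by
    rw [hG]
    unfold Yq
    simp
  have hsplit : ∀ r : ZMod p, G (ε p * quadraticChar (ZMod p) r) =
      (if r = 0 then 0 else (G 1 + G (-1)) / 2) + ((quadraticChar (ZMod p) r : ℤ) : ℝ) * (ε p * ((G 1 - G (-1)) / 2)) := by
    intro r
    by_cases h : r = 0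
    · rw [if_pos h, h, quadraticChar_zero, mul_zero, hG0]
      simp
    · rw [if_neg h]
      rcases quadraticChar_dichotomy h with h1 | h1 <;> rcases hε p with h2 | h2 <;> rw [h1, h2] <;>
        simp only [mul_one, mul_neg, neg_neg, one_mul] <;> push_cast <;> ring
  have hsum0 : ∑ r : ZMod p, ((quadraticChar (ZMod p) r : ℤ) : ℝ) = 0 := by
    have := quadraticChar_sum_zero hchar
    exact_mod_cast this
  have hsum : ∑ r : ZMod p, G (ε p * quadraticChar (ZMod p) ((u : ZMod p) * r)) =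
      (((p : ℕ) : ℝ) - 1) * ((G 1 + G (-1)) / 2) := by
    rw [hbij]
    simp only [hsplit]
    rw [Finset.sum_add_distrib, ← Finset.sum_mul, hsum0, zero_mul, add_zero]
    have h1 : ∑ r : ZMod p, (if r = 0 then 0 else (G 1 + G (-1)) / 2) =
        ∑ r ∈ univ.erase (0 : ZMod p), (G 1 + G (-1)) / 2 := by
      rw [← Finset.add_sum_erase _ _ (mem_univ (0 : ZMod p)), if_pos rfl, zero_add]
      exact Finset.sum_congr rfl fun x hx => if_neg (Finset.ne_of_mem_erase hx)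
    rw [h1, Finset.sum_const, nsmul_eq_mul, Finset.card_erase_of_mem (mem_univ _), Finset.card_univ, ZMod.card,
      Nat.cast_sub p.2.one_le]
    push_cast
    rfl
  have hG1 : G 1 = Real.exp (x p * -Real.log (1 - (√((p : ℕ) : ℝ))⁻¹)) - 1 := by
    rw [hG]
    unfold Yq
    simp
  have hG2 : G (-1) = Real.exp (x p * -Real.log (1 + (√((p : ℕ) : ℝ))⁻¹)) - 1 := by
    rw [hG]
    unfold Yq
    simp
  unfold EuC
  simp only [hg]
  rw [← Complex.ofReal_sum, hsum, phQ_eq, ← hG1, ← hG2]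
  have h3 : 1 - (((p : ℕ) : ℝ) ^ 2)⁻¹ = (((p : ℕ) : ℝ) - 1) * (((p : ℕ) : ℝ) + 1) / ((p : ℕ) : ℝ) ^ 2 := by
    field_simp
    ring
  rw [h3]
  have h1 : ((p : ℕ) : ℝ) - 1 ≠ 0 := by linarith
  have h2 : ((p : ℕ) : ℝ) + 1 ≠ 0 := by linarith
  rw [← Complex.ofReal_natCast, ← Complex.ofReal_div, ← Complex.ofReal_div, ← Complex.ofReal_one, ← Complex.ofReal_add]
  congr 1
  field_simp

/-- the character values at a natural number -/
noncomputable def bQ (N : ℕ) (ε : Nat.Primes → ℤ) (d : ℤ) (p : Nat.Primes) : ℤ :=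
  open Classical in if (p : ℕ) ∣ N then 0 else ε p * jacobiSym d p

theorem bQ_bd {N : ℕ} {ε : Nat.Primes → ℤ} (hε : ∀ p, ε p = 1 ∨ ε p = -1) (d : ℤ) (p : Nat.Primes) :
    |((bQ N ε d p : ℤ) : ℝ)| ≤ 1 := by
  unfold bQ
  split_ifs with h
  · simp
  · rw [← jacobiSym.legendreSym.to_jacobiSym]
    exact eta_bd hε p _

/-- summability of the logarithms -/
theorem logZ_sum {N : ℕ} {ε : Nat.Primes → ℤ} (hε : ∀ p, ε p = 1 ∨ ε p = -1) (d : ℤ) (γ : ℝ) {T : ℝ} (hT : 0 < T) :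
    Summable fun p : Nat.Primes => |wr γ (Real.log (p : ℕ) / T) * Yq p (bQ N ε d p)| := by
  refine Summable.of_nonneg_of_le (fun _ => abs_nonneg _) (fun p => ?_) (wt_sum (γ := γ) hT (B := 4) (by norm_num))
  have hu : 0 ≤ Real.log (p : ℕ) / T := div_nonneg (Real.log_nonneg (by exact_mod_cast p.2.one_le)) hT.le
  rw [abs_mul, norm_Wt γ hu]
  have h1 := wr_le γ hu
  have h2 := (Yq_bd p (bQ_bd (N := N) hε d p)).2
  have h3 := om_nonneg hu
  calc _ ≤ om (Real.log (p : ℕ) / T) * (4 * (√((p : ℕ) : ℝ))⁻¹) := by gcongr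
    _ = _ := by rw [div_eq_mul_inv]; ring

/-- **the mean of the powers** -/
theorem mean_pow {N : ℕ} [NeZero N] (h2 : 2 ∣ N) {b : ZMod N} (hb : IsUnit b) {ε : Nat.Primes → ℤ}
    (hε : ∀ p, ε p = 1 ∨ ε p = -1) {u : ℤ} (hu : u = 1 ∨ u = -1) (γ k : ℝ) {T : ℝ} (hT : 0 < T) :
    Tendsto (fun X : ℕ => mean (SF N b X) (fun m =>
      Real.exp (k * ∑' p : Nat.Primes, wr γ (Real.log (p : ℕ) / T) * Yq p (bQ N ε (u * m) p)))) atTop
      (𝓝 (∏' p : Nat.Primes, open Classical in if (p : ℕ) ∣ N then 1 else phQ p (k * wr γ (Real.log (p : ℕ) / T)))) := by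
  classical
  set x : Nat.Primes → ℝ := fun p => k * wr γ (Real.log (p : ℕ) / T) with hx
  have hup : ∀ p : Nat.Primes, 0 ≤ Real.log (p : ℕ) / T := fun p =>
    div_nonneg (Real.log_nonneg (by exact_mod_cast p.2.one_le)) hT.le
  set K : ℝ := |k| * (Real.exp 1 + 1) with hK
  have hxK : ∀ p, |x p| ≤ K := by
    intro p
    show |k * wr γ (Real.log (p : ℕ) / T)| ≤ |k| * (Real.exp 1 + 1)
    rw [abs_mul]
    exact mul_le_mul_of_nonneg_left (wr_bd γ (hup p)) (abs_nonneg k)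
  set Bp : Nat.Primes → ℝ := fun p => 4 * Real.exp (4 * K) * (√((p : ℕ) : ℝ))⁻¹ * |x p| with hBp
  have hBs : Summable Bp := by
    refine Summable.of_nonneg_of_le (fun p => by positivity) (fun p => ?_)
      (wt_sum (γ := γ) hT (B := 4 * Real.exp (4 * K) * |k|) (by positivity))
    rw [norm_Wt γ (hup p)]
    have h1 := wr_le γ (hup p)
    rw [hBp]
    simp only
    rw [hx]
    simp only
    rw [abs_mul]
    calc _ ≤ 4 * Real.exp (4 * K) * (√((p : ℕ) : ℝ))⁻¹ * (|k| * om (Real.log (p : ℕ) / T)) := by gcongr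
      _ = _ := by rw [div_eq_mul_inv]; ring
  have D := SF_ind hb (g := gQ ε u x) (gQ_zero ε u x) (B := Bp) (fun p => by positivity)
    (fun p _ r => gQ_bd hε u hxK p r)
  have h3 := D.prod hBs
  -- the limit
  have e1 : ∀ p : Nat.Primes, (1 : ℂ) + (if (p : ℕ) ∣ N then 0 else EuC (p : ℕ) (gQ ε u x p)) =
      (((if (p : ℕ) ∣ N then 1 else phQ p (k * wr γ (Real.log (p : ℕ) / T)) : ℝ)) : ℂ) := by
    intro p
    by_cases h : (p : ℕ) ∣ N
    · rw [if_pos h, if_pos h]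
      simp
    · rw [if_neg h, if_neg h]
      refine gQ_mean hε hu x ?_
      intro h5
      apply h
      rw [h5]
      exact h2
  -- the values
  have e2 : ∀ m : ℕ, ∀ p : Nat.Primes, (1 : ℂ) + (if (p : ℕ) ∣ N then 0 else gQ ε u x p (m : ZMod p)) =
      ((Real.exp (k * (wr γ (Real.log (p : ℕ) / T) * Yq p (bQ N ε (u * m) p))) : ℝ) : ℂ) := by
    intro m p
    by_cases h : (p : ℕ) ∣ N
    · rw [if_pos h]
      unfold bQ Yq
      rw [if_pos h]
      simp
    · rw [if_neg h]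
      have e4 : ((u * (m : ℤ) : ℤ) : ZMod p) = (u : ZMod p) * ((m : ℕ) : ZMod p) := by push_cast; rfl
      unfold gQ bQ
      rw [if_neg h, ← jacobiSym.legendreSym.to_jacobiSym]
      unfold legendreSym
      rw [e4]
      have e5 : x p * Yq p ((ε p * quadraticChar (ZMod p) ((u : ZMod p) * ((m : ℕ) : ZMod p)) : ℤ) : ℝ) =
          k * (wr γ (Real.log (p : ℕ) / T) * Yq p ((ε p * quadraticChar (ZMod p) ((u : ZMod p) * ((m : ℕ) : ZMod p)) : ℤ) : ℝ)) := by
        rw [hx]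
        ring
      rw [e5, Complex.ofReal_sub, Complex.ofReal_one, add_sub_cancel]
  have hprod : ∀ m : ℕ, ((Real.exp (k * ∑' p : Nat.Primes, wr γ (Real.log (p : ℕ) / T) * Yq p (bQ N ε (u * m) p)) : ℝ) : ℂ) =
      ∏' p : Nat.Primes, ((1 : ℂ) + (if (p : ℕ) ∣ N then 0 else gQ ε u x p (m : ZMod p))) := by
    intro m
    have s1 : Summable fun p : Nat.Primes => wr γ (Real.log (p : ℕ) / T) * Yq p (bQ N ε (u * m) p) :=
      (logZ_sum hε (u * m) γ hT).of_abs
    have h5 : HasProd (fun p : Nat.Primes => Real.exp (k * (wr γ (Real.log (p : ℕ) / T) * Yq p (bQ N ε (u * m) p))))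
        (Real.exp (k * ∑' p : Nat.Primes, wr γ (Real.log (p : ℕ) / T) * Yq p (bQ N ε (u * m) p))) := by
      rw [← tsum_mul_left]
      refine Real.hasProd_of_hasSum_log (fun p => Real.exp_pos _) ?_
      simp only [Real.log_exp]
      exact (s1.mul_left k).hasSum
    have h6 := h5.map (Complex.ofRealHom : ℝ →+* ℂ).toMonoidHom Complex.continuous_ofReal
    have h7 : ∏' p : Nat.Primes, ((Real.exp (k * (wr γ (Real.log (p : ℕ) / T) * Yq p (bQ N ε (u * m) p))) : ℝ) : ℂ) =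
        ((Real.exp (k * ∑' p : Nat.Primes, wr γ (Real.log (p : ℕ) / T) * Yq p (bQ N ε (u * m) p)) : ℝ) : ℂ) := h6.tprod_eq
    rw [← h7]
    exact tprod_congr fun p => (e2 m p).symm
  have e3 : ∏' p : Nat.Primes, ((1 : ℂ) + (if (p : ℕ) ∣ N then 0 else EuC (p : ℕ) (gQ ε u x p))) =
      ((∏' p : Nat.Primes, (if (p : ℕ) ∣ N then 1 else phQ p (k * wr γ (Real.log (p : ℕ) / T))) : ℝ) : ℂ) := by
    rw [tprod_congr e1]
    have hm : Multipliable fun p : Nat.Primes => (if (p : ℕ) ∣ N then 1 else phQ p (k * wr γ (Real.log (p : ℕ) / T)) : ℝ) := by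
      have h5 : Summable fun p : Nat.Primes => ‖(if (p : ℕ) ∣ N then (0 : ℂ) else EuC (p : ℕ) (gQ ε u x p))‖ :=
        Summable.of_nonneg_of_le (fun _ => norm_nonneg _) D.e_le hBs
      have h6 : Summable fun p : Nat.Primes => ((if (p : ℕ) ∣ N then 1 else phQ p (k * wr γ (Real.log (p : ℕ) / T)) : ℝ) - 1) := by
        refine Summable.of_norm (h5.congr fun p => ?_)
        have h7 := e1 p
        have h8 : (if (p : ℕ) ∣ N then (0 : ℂ) else EuC (p : ℕ) (gQ ε u x p)) =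
            (((if (p : ℕ) ∣ N then 1 else phQ p (k * wr γ (Real.log (p : ℕ) / T)) : ℝ) - 1 : ℝ) : ℂ) := by
          push_cast
          push_cast at h7
          rw [← h7]
          ring
        rw [h8, Complex.norm_real]
      have h9 := Real.multipliable_one_add_of_summable h6
      refine h9.congr fun p => ?_
      ring
    have h6 := hm.hasProd.map (Complex.ofRealHom : ℝ →+* ℂ).toMonoidHom Complex.continuous_ofReal
    exact h6.tprod_eq
  rw [e3] at h3
  have h4 := (Complex.continuous_re.tendsto _).comp h3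
  rw [Complex.ofReal_re] at h4
  refine h4.congr fun X => ?_
  simp only [Function.comp_apply]
  unfold meanC mean
  rw [Complex.div_natCast_re, Complex.re_sum]
  congr 1
  refine Finset.sum_congr rfl fun m _ => ?_
  rw [← hprod m, Complex.ofReal_re]

end Pool.Agent.X278.AV
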