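import Pool.Agent.X278.AV.MomQ2

/-!
# One quadratic character
-/

set_option autoImplicit false

namespace Pool.Agent.X278.AV

open Filter Topology Asymptotics Finset
open Pool.Agent.W189.ML Pool.Agent.X287.CR Pool.Agent.X278.OP
open Pool.Agent.W187.UR (Lam)

theorem triv_order (M : ℕ) [NeZero M] : MeromorphicAt (DirichletCharacter.LFunctionTrivChar M) 1 ∧
    meromorphicOrderAt (DirichletCharacter.LFunctionTrivChar M) 1 = ((-1 : ℤ) : WithTop ℤ) := by
  set g : ℂ → ℂ := DirichletCharacter.LFunctionTrivChar₁ M with hg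
  have hg1 : AnalyticAt ℂ g 1 :=
    (DirichletCharacter.differentiable_LFunctionTrivChar₁ M).analyticAt 1
  have hg2 : g 1 ≠ 0 := DirichletCharacter.LFunctionTrivChar₁_apply_one_ne_zero M
  have hev : ∀ᶠ z in 𝓝[≠] (1 : ℂ), DirichletCharacter.LFunctionTrivChar M z = (z - 1) ^ (-1 : ℤ) • g z := by
    filter_upwards [self_mem_nhdsWithin] with z hz
    have hz1 : z ≠ 1 := hz
    have h1 : g z = (z - 1) * DirichletCharacter.LFunctionTrivChar M z := by
      rw [hg]
      unfold DirichletCharacter.LFunctionTrivChar₁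
      rw [Function.update_of_ne hz1]
    rw [h1, zpow_neg_one, smul_eq_mul, ← mul_assoc, inv_mul_cancel₀ (sub_ne_zero.2 hz1), one_mul]
  have hm : MeromorphicAt (DirichletCharacter.LFunctionTrivChar M) 1 := by
    have h2 : MeromorphicAt (fun z : ℂ => (z - 1) ^ (-1 : ℤ) • g z) 1 :=
      ((MeromorphicAt.id 1).sub (MeromorphicAt.const 1 1)).zpow (-1) |>.smul hg1.meromorphicAt
    exact h2.congr (hev.mono fun z hz => hz.symm)
  exact ⟨hm, (meromorphicOrderAt_eq_int_iff hm).2 ⟨g, hg1, hg2, hev⟩⟩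

theorem mero_L {q : ℕ} [NeZero q] (ψ : DirichletCharacter ℂ q) (s : ℂ) : MeromorphicAt ψ.LFunction s := by
  by_cases h : s ≠ 1 ∨ ψ ≠ 1
  · have h1 : AnalyticAt ℂ ψ.LFunction s := by
      rw [Complex.analyticAt_iff_eventually_differentiableAt]
      rcases h with h | h
      · filter_upwards [isOpen_ne.mem_nhds h] with z hz
        exact DirichletCharacter.differentiableAt_LFunction ψ z (Or.inl hz)
      · exact Eventually.of_forall fun z => DirichletCharacter.differentiableAt_LFunction ψ z (Or.inr h)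
    exact h1.meromorphicAt
  · push Not at h
    obtain ⟨rfl, rfl⟩ := h
    exact (triv_order q).1

/-- the logarithm for real values -/
theorem lg_real {β : Nat.Primes → Fin 1 → ℂ} (hβ : ∀ p i, ‖β p i‖ ≤ 1) (p : Nat.Primes) {b : ℝ} (hb : β p 0 = b)
    (hb1 : |b| ≤ 1) : -lg pq β ((1 / 2 : ℝ) : ℂ) p = ((-Yq p b : ℝ) : ℂ) := by
  have hp0 : (0 : ℝ) < (p : ℕ) := by exact_mod_cast p.2.pos
  have h1 : 0 < √((p : ℕ) : ℝ) := Real.sqrt_pos.2 hp0
  have hx : Complex.exp (-(((1 / 2 : ℝ) : ℂ) * Real.log (pq p))) = (((√((p : ℕ) : ℝ))⁻¹ : ℝ) : ℂ) := by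
    have e0 : (pq p : ℕ) = (p : ℕ) := rfl
    rw [e0, ← Complex.ofReal_mul, ← Complex.ofReal_neg, ← Complex.ofReal_exp]
    congr 1
    rw [Real.exp_neg]
    congr 1
    rw [Real.sqrt_eq_rpow, Real.rpow_def_of_pos hp0]
    congr 1
    ring
  have hlt : ∀ i, ‖β p i * Complex.exp (-(((1 / 2 : ℝ) : ℂ) * Real.log (pq p)))‖ < 1 := by
    intro i
    rw [hx, Complex.ofReal_inv, ← div_eq_mul_inv]
    exact ((norm_div_sqrt (hβ p i) p).trans (sqrt_two_le p)).trans_lt (by norm_num)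
  rw [lg_eq (uni_sys hβ) hlt, neg_neg, Fin.sum_univ_one, hx, hb]
  unfold Yq
  obtain ⟨h2, -⟩ := Yq_bd p hb1
  rw [neg_neg, Complex.ofReal_log h2.le]
  push_cast
  rfl

open Classical in
/-- the squares of the values -/
theorem bQ_sq {N : ℕ} {ε : Nat.Primes → ℤ} (hε : ∀ p, ε p = 1 ∨ ε p = -1) (d : ℤ) (p : Nat.Primes) :
    (((bQ N ε d p : ℤ) : ℂ)) ^ 2 = (1 : DirichletCharacter ℂ (N * d.natAbs)) ((p : ℕ) : ZMod (N * d.natAbs)) := by
  have hu : IsUnit (((p : ℕ) : ZMod (N * d.natAbs))) ↔ ¬ (p : ℕ) ∣ N ∧ ¬ (p : ℕ) ∣ d.natAbs := by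
    rw [ZMod.isUnit_iff_coprime, Nat.Prime.coprime_iff_not_dvd p.2, Nat.Prime.dvd_mul p.2, not_or]
  unfold bQ
  by_cases h : (p : ℕ) ∣ N
  · rw [if_pos h, MulChar.map_nonunit _ (fun h' => (hu.1 h').1 h)]
    simp
  · rw [if_neg h]
    by_cases h' : (p : ℕ) ∣ d.natAbs
    · rw [MulChar.map_nonunit _ (fun h'' => (hu.1 h'').2 h')]
      have h1 : jacobiSym d p = 0 := by
        rw [← jacobiSym.legendreSym.to_jacobiSym, legendreSym.eq_zero_iff]
        rw [ZMod.intCast_zmod_eq_zero_iff_dvd]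
        exact Int.natCast_dvd.2 h'
      rw [h1]
      simp
    · rw [MulChar.one_apply (hu.2 ⟨h, h'⟩)]
      have h1 : jacobiSym d p = 1 ∨ jacobiSym d p = -1 := by
        rw [← jacobiSym.legendreSym.to_jacobiSym]
        refine legendreSym.eq_one_or_neg_one p ?_
        intro h2
        rw [ZMod.intCast_zmod_eq_zero_iff_dvd] at h2
        exact h' (Int.natCast_dvd.1 h2)
      rcases h1 with h1 | h1 <;> rcases hε p with h2 | h2 <;> rw [h1, h2] <;> simp

/-- **the limit for one character** -/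
theorem one_char {q : ℕ} [NeZero q] (ψ : DirichletCharacter ℂ q) {N : ℕ} (hN : N ≠ 0) {ε : Nat.Primes → ℤ}
    (hε : ∀ p, ε p = 1 ∨ ε p = -1) {d : ℤ} (hd : d ≠ 0) (hψ : ∀ p : Nat.Primes, ψ ((p : ℕ) : ZMod q) = ((bQ N ε d p : ℤ) : ℂ))
    {γ : ℝ} (hγ : Real.pi / 2 < γ) :
    ∃ m : ℤ, meromorphicOrderAt ψ.LFunction (1 / 2) = m ∧
      Tendsto (fun T : ℝ => T ^ m * Real.exp (∑' p : Nat.Primes, wr γ (Real.log (p : ℕ) / T) * Yq p (bQ N ε d p))) atTop
        (𝓝 (√2 * Real.exp (m * (Lam γ).re) * ‖meromorphicTrailingCoeffAt ψ.LFunction (1 / 2)‖)) := by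
  set β : Nat.Primes → Fin 1 → ℂ := fun p _ => ψ ((p : ℕ) : ZMod q) with hβd
  have hβ : ∀ p i, ‖β p i‖ ≤ 1 := fun p _ => DirichletCharacter.norm_le_one ψ _
  have G := uni_sys hβ
  have e0 : ((1 / 2 : ℝ) : ℂ) = 1 / 2 := by push_cast; rfl
  obtain ⟨m, r₀, h1, h2, h3⟩ := G.law (L := ψ.LFunction) (fun s hs => by
      have hs' : 1 < s.re := by linarith
      have h4 := DirichletCharacter.LSeries_eulerProduct_hasProd ψ hs'
      rw [← DirichletCharacter.LFunction_eq_LSeries _ hs'] at h4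
      unfold Pool.Agent.X287.CR.fac pq
      rw [hβd]
      simpa only [Finset.univ_unique, Finset.prod_singleton] using h4) (s₀ := ((1 / 2 : ℝ) : ℂ))
    (by rw [Complex.ofReal_re]; norm_num) (fun x _ _ => mero_L ψ _) hγ
  rw [e0] at h1 h2
  -- the squares
  have : NeZero (N * d.natAbs) := ⟨mul_ne_zero hN (Int.natAbs_ne_zero.2 hd)⟩
  have G2 := sq_sys G
  obtain ⟨n, r₂, k1, -, k3⟩ := G2.law (L := DirichletCharacter.LFunctionTrivChar (N * d.natAbs)) (fun s hs => by
      have hs' : 1 < s.re := by linarith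
      have h4 := DirichletCharacter.LSeries_eulerProduct_hasProd (1 : DirichletCharacter ℂ (N * d.natAbs)) hs'
      rw [← DirichletCharacter.LFunction_eq_LSeries _ hs'] at h4
      have e1 : Pool.Agent.X287.CR.fac pq (sq β) s = fun p : Nat.Primes =>
          (1 - (1 : DirichletCharacter ℂ (N * d.natAbs)) ((p : ℕ) : ZMod (N * d.natAbs)) * ((p : ℕ) : ℂ) ^ (-s))⁻¹ := by
        funext p
        unfold Pool.Agent.X287.CR.fac Pool.Agent.X278.OP.sq pq
        rw [hβd]
        simp only [Finset.univ_unique, Finset.prod_singleton]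
        rw [hψ p, bQ_sq hε]
      rw [e1]
      exact h4) (s₀ := 1) (by rw [Complex.one_re]; norm_num) (fun x hx0 hx1 => by
        have h5 : x = 0 := by
          rw [Complex.one_re] at hx1
          linarith
        rw [h5, Complex.ofReal_zero, add_zero]
        exact (triv_order _).1) hγ
  have hn : n = -1 := by
    rw [(triv_order _).2] at k1
    exact_mod_cast k1.symm
  subst hn
  have h5 := law_places G (s₀ := ((1 / 2 : ℝ) : ℂ)) (by rw [Complex.ofReal_re]; norm_num) γ h3 (n := -1) (r₂ := r₂) (by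
    have e1 : (2 * ((1 / 2 : ℝ) : ℂ)) = 1 := by push_cast; norm_num
    rw [e1]
    exact k3)
  refine ⟨m, h1, ?_⟩
  have h6 := h5.tend
  -- the real part
  have hre : ∀ T : ℝ, 0 < T → (Sp pq β ((1 / 2 : ℝ) : ℂ) γ T).re =
      -∑' p : Nat.Primes, wr γ (Real.log (p : ℕ) / T) * Yq p (bQ N ε d p) := by
    intro T hT
    have s1 := (Sp_summable G (s₀ := ((1 / 2 : ℝ) : ℂ)) (by rw [Complex.ofReal_re]; norm_num) γ hT).of_norm
    unfold Sp
    rw [Complex.re_tsum s1, ← tsum_neg]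
    refine tsum_congr fun p => ?_
    have hb1 := bQ_bd (N := N) hε d p
    have e1 := lg_real hβ p (b := ((bQ N ε d p : ℤ) : ℝ)) (by rw [hβd]; simp only; rw [hψ p]; push_cast; rfl) hb1
    have e3 : Real.log (pq p) = Real.log (p : ℕ) := rfl
    rw [e1, Complex.re_ofReal_mul, e3]
    have e4 : (Wt γ (Real.log (p : ℕ) / T)).re = wr γ (Real.log (p : ℕ) / T) := re_Wt γ _
    rw [e4]
    ring
  have h7 := (Real.continuous_exp.tendsto _).comp ((Complex.continuous_re.tendsto _).comp h6).neg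
  rw [Complex.zero_re, neg_zero, Real.exp_zero] at h7
  have h8 := h7.mul_const (√2 * Real.exp (m * (Lam γ).re) * ‖meromorphicTrailingCoeffAt ψ.LFunction (1 / 2)‖)
  rw [one_mul] at h8
  refine h8.congr' ?_
  filter_upwards [eventually_gt_atTop (0 : ℝ)] with T hT
  simp only [Function.comp_apply]
  have e1 : (Sp pq β ((1 / 2 : ℝ) : ℂ) γ T - (m * ((Real.log T : ℂ) - Lam γ) - (r₀ - ((-1 : ℤ) : ℂ) / 2 * Real.log 2))).re =
      -(∑' p : Nat.Primes, wr γ (Real.log (p : ℕ) / T) * Yq p (bQ N ε d p)) - m * Real.log T + m * (Lam γ).re +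
        r₀.re + 1 / 2 * Real.log 2 := by
    rw [Complex.sub_re, hre T hT]
    have e2 : (((-1 : ℤ) : ℂ) / 2 * Real.log 2) = ((-(1 / 2) * Real.log 2 : ℝ) : ℂ) := by
      push_cast
      ring
    rw [e2, Complex.sub_re, Complex.sub_re, Complex.ofReal_re, mul_sub, Complex.sub_re]
    have e3 : ((m : ℂ) * (Real.log T : ℂ)).re = m * Real.log T := by
      have : ((m : ℤ) : ℂ) = ((m : ℝ) : ℂ) := by push_cast; rfl
      rw [this, Complex.re_ofReal_mul, Complex.ofReal_re]
    have e4 : ((m : ℂ) * Lam γ).re = m * (Lam γ).re := by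
      have : ((m : ℤ) : ℂ) = ((m : ℝ) : ℂ) := by push_cast; rfl
      rw [this, Complex.re_ofReal_mul]
    rw [e3, e4]
    ring
  rw [e1]
  have e5 : ‖meromorphicTrailingCoeffAt ψ.LFunction (1 / 2)‖ = Real.exp r₀.re := by
    rw [h2, Complex.norm_exp]
  have e6 : √2 = Real.exp (1 / 2 * Real.log 2) := by
    rw [Real.sqrt_eq_rpow, Real.rpow_def_of_pos (by norm_num)]
    congr 1
    ring
  have e7 : T ^ m = Real.exp (m * Real.log T) := by
    rw [← Real.rpow_intCast, Real.rpow_def_of_pos hT]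
    congr 1
    ring
  rw [e5, e6, e7, ← Real.exp_add, ← Real.exp_add, ← Real.exp_add, ← Real.exp_add]
  congr 1
  ring

end Pool.Agent.X278.AV
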