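import Pool.Agent.X278.AV.Two
import Pool.Agent.X278.AV.Abs

/-!
# Squarefree numbers in an arithmetic progression
-/

set_option autoImplicit false

namespace Pool.Agent.X278.AV

open Finset Filter Topology ArithmeticFunction

open Classical in
/-- the squarefree `d ≤ X` in the class `r` -/
noncomputable def SF (M : ℕ) (r : ZMod M) (X : ℕ) : Finset ℕ :=
  (Icc 1 X).filter fun d => Squarefree d ∧ ((d : ℕ) : ZMod M) = r

open Classical in
/-- the number of the `y ≤ n` in the class `r` -/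
noncomputable def cp (M n : ℕ) (r : ZMod M) : ℕ := ((Icc 1 n).filter fun y : ℕ => ((y : ℕ) : ZMod M) = r).card

theorem cp_bound {M : ℕ} (hM : 0 < M) (n : ℕ) (r : ZMod M) : |(cp M n r : ℝ) - n / M| ≤ 1 := by
  classical
  have : NeZero M := ⟨hM.ne'⟩
  have hMq : (0 : ℚ) < M := by exact_mod_cast hM
  have h1 : (Icc 1 n).filter (fun y : ℕ => ((y : ℕ) : ZMod M) = r) =
      (Ioc 0 n).filter fun y => y ≡ r.val [MOD M] := by
    ext y
    rw [mem_filter, mem_filter, mem_Icc, mem_Ioc, ← ZMod.natCast_eq_natCast_iff]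
    have h2 : ((r.val : ℕ) : ZMod M) = r := by simp
    rw [h2]
    constructor <;> rintro ⟨⟨h3, h4⟩, h5⟩ <;> exact ⟨⟨by omega, h4⟩, h5⟩
  have h2 := Nat.Ioc_filter_modEq_card 0 n hM r.val
  rw [← h1] at h2
  set f₁ : ℤ := ⌊((n : ℚ) - (r.val : ℚ)) / (M : ℚ)⌋ with hf₁
  set f₂ : ℤ := ⌊(((0 : ℕ) : ℚ) - (r.val : ℚ)) / (M : ℚ)⌋ with hf₂
  have h3 : ((cp M n r : ℕ) : ℤ) = max (f₁ - f₂) 0 := by
    unfold cp
    rw [h2]
  have a1 := Int.floor_le (((n : ℚ) - (r.val : ℚ)) / (M : ℚ))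
  have a2 := Int.lt_floor_add_one (((n : ℚ) - (r.val : ℚ)) / (M : ℚ))
  have b1 := Int.floor_le ((((0 : ℕ) : ℚ) - (r.val : ℚ)) / (M : ℚ))
  have b2 := Int.lt_floor_add_one ((((0 : ℕ) : ℚ) - (r.val : ℚ)) / (M : ℚ))
  rw [← hf₁] at a1 a2
  rw [← hf₂] at b1 b2
  have h4 : f₂ ≤ f₁ := by
    rw [hf₁, hf₂]
    apply Int.floor_le_floor
    apply div_le_div_of_nonneg_right _ hMq.le
    have : (0 : ℚ) ≤ n := by positivity
    push_cast
    linarith
  have h5 : ((cp M n r : ℕ) : ℤ) = f₁ - f₂ := by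
    rw [h3, max_eq_left]
    linarith
  have h6 : ((cp M n r : ℕ) : ℚ) = f₁ - f₂ := by exact_mod_cast h5
  have h7 : |((cp M n r : ℕ) : ℚ) - n / M| ≤ 1 := by
    rw [h6]
    have e1 : ((n : ℚ) - r.val) / M - (((0 : ℕ) : ℚ) - r.val) / M = n / M := by
      push_cast
      ring
    rw [abs_le]
    constructor <;> linarith
  have h8 : ((|((cp M n r : ℕ) : ℚ) - n / M| : ℚ) : ℝ) ≤ ((1 : ℚ) : ℝ) := by exact_mod_cast h7
  push_cast at h8
  exact h8

open Classical in
/-- the contribution of `m` -/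
noncomputable def pt (M : ℕ) (r : ZMod M) (X m : ℕ) : ℕ :=
  ((Icc 1 X).filter fun d : ℕ => ((d : ℕ) : ZMod M) = r ∧ m ^ 2 ∣ d).card

theorem pt_le {M : ℕ} (r : ZMod M) (X : ℕ) {m : ℕ} (hm : 0 < m) : pt M r X m ≤ X / m ^ 2 := by
  classical
  unfold pt
  have h1 : (Icc 1 X).filter (fun d : ℕ => ((d : ℕ) : ZMod M) = r ∧ m ^ 2 ∣ d) ⊆
      (Ioc 0 X).filter fun d => m ^ 2 ∣ d := by
    intro d
    rw [mem_filter, mem_filter, mem_Icc, mem_Ioc]
    rintro ⟨⟨h1, h2⟩, -, h3⟩
    exact ⟨⟨by omega, h2⟩, h3⟩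
  refine (Finset.card_le_card h1).trans ?_
  rw [Nat.Ioc_filter_dvd_card_eq_div]

theorem pt_zero {M : ℕ} {r : ZMod M} (hr : IsUnit r) (X : ℕ) {m : ℕ} (hm : ¬ m.Coprime M) : pt M r X m = 0 := by
  classical
  unfold pt
  rw [Finset.card_eq_zero, Finset.filter_eq_empty_iff]
  rintro d - ⟨h1, h2⟩
  apply hm
  rw [← h1, ZMod.isUnit_iff_coprime] at hr
  exact Nat.Coprime.coprime_dvd_left ((dvd_pow_self m two_ne_zero).trans h2) hr

theorem pt_eq {M : ℕ} {r : ZMod M} (X : ℕ) {m : ℕ} (hm : 0 < m) (u : (ZMod M)ˣ) (hu : (u : ZMod M) = m) :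
    pt M r X m = cp M (X / m ^ 2) (((u⁻¹ ^ 2 : (ZMod M)ˣ) : ZMod M) * r) := by
  classical
  have hm2 : 0 < m ^ 2 := by positivity
  have hkey : ∀ y : ℕ, ((m ^ 2 * y : ℕ) : ZMod M) = r ↔ (y : ZMod M) = ((u⁻¹ ^ 2 : (ZMod M)ˣ) : ZMod M) * r := by
    intro y
    have e1 : ((m ^ 2 * y : ℕ) : ZMod M) = ((u ^ 2 : (ZMod M)ˣ) : ZMod M) * y := by
      push_cast
      rw [hu]
    rw [e1, inv_pow]
    constructor
    · intro h
      rw [← h, ← mul_assoc, Units.inv_mul, one_mul]
    · intro h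
      rw [h, ← mul_assoc, Units.mul_inv, one_mul]
  unfold pt cp
  refine Finset.card_nbij' (fun d => d / m ^ 2) (fun y => m ^ 2 * y) ?_ ?_ ?_ ?_
  · intro d hd
    simp only [coe_filter, mem_Icc, Set.mem_setOf_eq] at hd ⊢
    obtain ⟨⟨h1, h2⟩, h3, c, rfl⟩ := hd
    rw [Nat.mul_div_cancel_left _ hm2]
    refine ⟨⟨?_, ?_⟩, (hkey c).1 h3⟩
    · rcases Nat.eq_zero_or_pos c with rfl | h
      · simp at h1
      · exact h
    · rw [Nat.le_div_iff_mul_le hm2, mul_comm]
      exact h2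
  · intro y hy
    simp only [coe_filter, mem_Icc, Set.mem_setOf_eq] at hy ⊢
    obtain ⟨⟨h1, h2⟩, h3⟩ := hy
    refine ⟨⟨?_, ?_⟩, (hkey y).2 h3, dvd_mul_right _ _⟩
    · exact Nat.mul_pos hm2 h1
    · rw [Nat.le_div_iff_mul_le hm2] at h2
      rw [mul_comm]
      exact h2
  · intro d hd
    simp only [coe_filter, mem_Icc, Set.mem_setOf_eq] at hd
    exact Nat.mul_div_cancel' hd.2.2
  · intro y hy
    exact Nat.mul_div_cancel_left _ hm2

open Classical in
theorem sqf_mu {d X : ℕ} (hd : 0 < d) (hX : d ≤ X) :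
    ∑ m ∈ range (X + 1), (if m ^ 2 ∣ d then moebius m else 0) = if Squarefree d then 1 else 0 := by
  classical
  have h1 := sum_mu (G := (range (X + 1)).filter fun m => 0 < m ∧ m ^ 2 ∣ d) ?_ ?_ ?_ ?_
  · have h2 : ∑ m ∈ range (X + 1), (if m ^ 2 ∣ d then moebius m else 0) =
        ∑ m ∈ (range (X + 1)).filter (fun m => 0 < m ∧ m ^ 2 ∣ d), moebius m := by
      rw [Finset.sum_filter]
      refine Finset.sum_congr rfl fun m _ => ?_
      rcases Nat.eq_zero_or_pos m with rfl | hm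
      · simp
      · by_cases h : m ^ 2 ∣ d
        · rw [if_pos h, if_pos ⟨hm, h⟩]
        · rw [if_neg h, if_neg (fun h' => h h'.2)]
    rw [h2, h1]
    have h3 : (∀ ℓ : ℕ, ℓ.Prime → ℓ ∉ (range (X + 1)).filter fun m => 0 < m ∧ m ^ 2 ∣ d) ↔ Squarefree d := by
      rw [Nat.squarefree_iff_prime_squarefree]
      refine forall_congr' fun ℓ => forall_congr' fun hℓ => not_congr ?_
      rw [mem_filter, mem_range, ← pow_two]
      constructor
      · exact fun h => h.2.2
      · intro h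
        refine ⟨?_, hℓ.pos, h⟩
        have h4 : ℓ ∣ d := (dvd_pow_self ℓ two_ne_zero).trans h
        have := Nat.le_of_dvd hd h4
        omega
    simp only [h3]
  · rw [mem_filter, mem_range]
    exact ⟨by omega, one_pos, by simp⟩
  · rw [mem_filter]
    exact fun h => lt_irrefl _ h.2.1
  · intro m hm n hn
    rw [mem_filter, mem_range] at hm ⊢
    have h5 := Nat.le_of_dvd hm.2.1 hn
    exact ⟨by omega, Nat.pos_of_dvd_of_pos hn hm.2.1, (pow_dvd_pow_of_dvd hn 2).trans hm.2.2⟩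
  · intro m hm n hn
    rw [mem_filter, mem_range] at hm hn ⊢
    have h5 : (Nat.lcm m n) ^ 2 ∣ d := by
      rw [← Nat.pow_lcm_pow]
      exact Nat.lcm_dvd hm.2.2 hn.2.2
    have h6 : Nat.lcm m n ∣ d := (dvd_pow_self _ two_ne_zero).trans h5
    have := Nat.le_of_dvd hd h6
    exact ⟨by omega, Nat.lcm_pos hm.2.1 hn.2.1, h5⟩

theorem card_SF (M : ℕ) (r : ZMod M) (X : ℕ) :
    ((SF M r X).card : ℝ) = ∑' m : ℕ, (moebius m : ℝ) * pt M r X m := by
  classical
  have h1 : ∑' m : ℕ, (moebius m : ℝ) * pt M r X m = ∑ m ∈ range (X + 1), (moebius m : ℝ) * pt M r X m := by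
    apply tsum_eq_sum
    intro m hm
    rw [mem_range, not_lt] at hm
    have h2 := pt_le r X (m := m) (by omega)
    have h3 : X / m ^ 2 = 0 := Nat.div_eq_of_lt (by nlinarith)
    have h4 : pt M r X m = 0 := by omega
    rw [h4, Nat.cast_zero, mul_zero]
  rw [h1]
  have h2 : ((SF M r X).card : ℤ) = ∑ m ∈ range (X + 1), moebius m * pt M r X m := by
    have h3 : ((SF M r X).card : ℤ) = ∑ d ∈ (Icc 1 X).filter (fun d : ℕ => ((d : ℕ) : ZMod M) = r),
        (if Squarefree d then (1 : ℤ) else 0) := by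
      unfold SF
      rw [Finset.sum_boole, Finset.filter_filter]
      congr 2
      ext d
      simp only [mem_filter]
      tauto
    rw [h3]
    have h4 : ∀ d ∈ (Icc 1 X).filter (fun d : ℕ => ((d : ℕ) : ZMod M) = r), (if Squarefree d then (1 : ℤ) else 0) =
        ∑ m ∈ range (X + 1), (if m ^ 2 ∣ d then moebius m else 0) := by
      intro d hd
      rw [mem_filter, mem_Icc] at hd
      rw [sqf_mu (by omega) hd.1.2]
    rw [Finset.sum_congr rfl h4, Finset.sum_comm]
    refine Finset.sum_congr rfl fun m _ => ?_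
    unfold pt
    rw [← Finset.filter_filter, Finset.card_filter]
    push_cast
    rw [Finset.mul_sum]
    refine Finset.sum_congr rfl fun d _ => ?_
    split_ifs <;> simp
  have h3 := congrArg (fun z : ℤ => (z : ℝ)) h2
  push_cast at h3
  exact h3

/-- **the density of the squarefree numbers in a class** -/
theorem SF_lim {M : ℕ} [NeZero M] {r : ZMod M} (hr : IsUnit r) :
    Tendsto (fun X : ℕ => ((SF M r X).card : ℝ) / X) atTop (𝓝 (DD 2 M / M)) := by
  have hM : 0 < M := NeZero.pos M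
  have hM' : (0 : ℝ) < M := by exact_mod_cast hM
  have h0 : ∀ X : ℕ, ((SF M r X).card : ℝ) / X = ∑' m : ℕ, (moebius m : ℝ) * pt M r X m / X := by
    intro X
    rw [card_SF, tsum_div_const]
  simp only [h0]
  have h1 : DD 2 M / M = ∑' m : ℕ, (moebius m : ℝ) * (if m.Coprime M then ((m : ℝ) ^ 2)⁻¹ else 0) / M := by
    unfold DD
    rw [tsum_div_const]
  rw [h1]
  have hs : Summable fun m : ℕ => 1 / (m : ℝ) ^ 2 := Real.summable_one_div_nat_pow.2 (by norm_num)
  refine tendsto_tsum_of_dominated_convergence hs (fun m => ?_) ?_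
  · by_cases hm : m.Coprime M
    · rw [if_pos hm]
      rcases Nat.eq_zero_or_pos m with rfl | hm0
      · simp
      · set u : (ZMod M)ˣ := ZMod.unitOfCoprime m hm with hu
        have hm' : (0 : ℝ) < m := by exact_mod_cast hm0
        have h2 : Tendsto (fun X : ℕ => (pt M r X m : ℝ) / X) atTop (𝓝 (((m : ℝ) ^ 2)⁻¹ / M)) := by
          rw [← tendsto_sub_nhds_zero_iff]
          have h3 : Tendsto (fun n : ℕ => (2 : ℝ) / n) atTop (𝓝 0) := tendsto_const_div_atTop_nhds_zero_nat 2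
          refine squeeze_zero_norm' ?_ h3
          filter_upwards [eventually_gt_atTop 0] with n hn
          have hn' : (0 : ℝ) < n := by exact_mod_cast hn
          rw [pt_eq n hm0 u (ZMod.coe_unitOfCoprime m hm)]
          have h4 := cp_bound hM (n / m ^ 2) (((u⁻¹ ^ 2 : (ZMod M)ˣ) : ZMod M) * r)
          set c : ℝ := (cp M (n / m ^ 2) (((u⁻¹ ^ 2 : (ZMod M)ˣ) : ZMod M) * r) : ℝ) with hc
          have h5 : ((n / m ^ 2 : ℕ) : ℝ) ≤ n / (m : ℝ) ^ 2 := by
            have := Nat.cast_div_le (α := ℝ) (m := n) (n := m ^ 2)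
            push_cast at this
            exact this
          have h6 : (n : ℝ) / (m : ℝ) ^ 2 - 1 ≤ ((n / m ^ 2 : ℕ) : ℝ) := by
            have hm2 : 0 < m ^ 2 := by positivity
            have := Nat.lt_div_mul_add hm2 (a := n)
            have h7 : (n : ℝ) < ((n / m ^ 2 : ℕ) : ℝ) * (m : ℝ) ^ 2 + (m : ℝ) ^ 2 := by exact_mod_cast this
            rw [sub_le_iff_le_add, div_le_iff₀ (by positivity)]
            nlinarith
          rw [Real.norm_eq_abs]
          have e1 : c / n - ((m : ℝ) ^ 2)⁻¹ / M =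
              ((c - ((n / m ^ 2 : ℕ) : ℝ) / M) + (((n / m ^ 2 : ℕ) : ℝ) - n / (m : ℝ) ^ 2) / M) / n := by
            field_simp
            ring
          rw [e1, abs_div, abs_of_pos hn']
          apply div_le_div_of_nonneg_right _ hn'.le
          have e2 : |(((n / m ^ 2 : ℕ) : ℝ) - n / (m : ℝ) ^ 2) / M| ≤ 1 := by
            rw [abs_div, abs_of_pos hM', div_le_one hM']
            have e3 : |((n / m ^ 2 : ℕ) : ℝ) - n / (m : ℝ) ^ 2| ≤ 1 := by
              rw [abs_le]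
              constructor <;> linarith
            have e4 : (1 : ℝ) ≤ M := by exact_mod_cast hM
            linarith
          have := abs_add_le (c - ((n / m ^ 2 : ℕ) : ℝ) / M) ((((n / m ^ 2 : ℕ) : ℝ) - n / (m : ℝ) ^ 2) / M)
          linarith
        have h3 := h2.const_mul (moebius m : ℝ)
        rw [← mul_div_assoc] at h3
        refine h3.congr fun X => ?_
        rw [mul_div_assoc]
    · rw [if_neg hm, mul_zero, zero_div]
      simp only [pt_zero hr _ hm, Nat.cast_zero, mul_zero, zero_div]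
      exact tendsto_const_nhds
  · filter_upwards [eventually_gt_atTop 0] with X hX m
    have hX' : (0 : ℝ) < X := by exact_mod_cast hX
    rcases Nat.eq_zero_or_pos m with rfl | hm0
    · simp
    have hm' : (0 : ℝ) < m := by exact_mod_cast hm0
    rw [Real.norm_eq_abs, abs_div, abs_of_pos hX', div_le_iff₀ hX', abs_mul]
    have h5 : |(moebius m : ℝ)| ≤ 1 := by
      have := ArithmeticFunction.abs_moebius_le_one (n := m)
      exact_mod_cast this
    have h6 : |(pt M r X m : ℝ)| ≤ X / (m : ℝ) ^ 2 := by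
      rw [abs_of_nonneg (Nat.cast_nonneg _)]
      have h7 : ((pt M r X m : ℕ) : ℝ) ≤ ((X / m ^ 2 : ℕ) : ℝ) := by exact_mod_cast pt_le r X hm0
      refine h7.trans ?_
      have := Nat.cast_div_le (α := ℝ) (m := X) (n := m ^ 2)
      push_cast at this
      exact this
    calc |(moebius m : ℝ)| * |(pt M r X m : ℝ)| ≤ 1 * (X / (m : ℝ) ^ 2) :=
          mul_le_mul h5 h6 (abs_nonneg _) zero_le_one
      _ = 1 / (m : ℝ) ^ 2 * X := by ring

end Pool.Agent.X278.AV
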