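import Pool.Agent.X278.AV.Prog
import Pool.Agent.X278.AV.LocL

/-!
# Means of local functions over the squarefree numbers in a class
-/

set_option autoImplicit false

namespace Pool.Agent.X278.AV

open Finset Filter Topology ArithmeticFunction

theorem SF_ne {M : ℕ} [NeZero M] {r : ZMod M} (hr : IsUnit r) : ∀ᶠ X in atTop, (SF M r X).Nonempty := by
  have h1 := SF_lim hr
  have h2 : DD 2 M / M ≠ 0 := by
    obtain ⟨h3, h4⟩ := DD_ratio (s := 2) (N := M) le_rfl
    rw [h3]
    have := (fac_pos (s := 2) (N := M) le_rfl).ne'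
    have hM : (M : ℝ) ≠ 0 := by exact_mod_cast NeZero.ne M
    positivity
  filter_upwards [h1.eventually_ne h2] with X hX
  rw [← Finset.card_pos]
  by_contra h
  push Not at h
  apply hX
  have : (SF M r X).card = 0 := by omega
  rw [this]
  simp

theorem fac_mul {s N P : ℕ} (hN : N ≠ 0) (hP : P ≠ 0) (hc : N.Coprime P) : fac s (N * P) = fac s N * fac s P := by
  unfold fac
  rw [Nat.primeFactors_mul hN hP, Finset.prod_union hc.disjoint_primeFactors]

/-- **sums of functions of residue classes over the squarefree numbers in a class** -/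
theorem SF_sum {N P : ℕ} [NeZero N] [NeZero P] (hc : N.Coprime P) {b : ZMod N} (hb : IsUnit b)
    (g : ZMod P → ℝ) (hg : ∀ r, ¬ IsUnit r → g r = 0) :
    Tendsto (fun X : ℕ => (∑ d ∈ SF N b X, g (d : ZMod P)) / X) atTop
      (𝓝 ((∑ r, g r) * (DD 2 (N * P) / ((N * P : ℕ) : ℝ)))) := by
  classical
  have : NeZero (N * P) := ⟨mul_ne_zero (NeZero.ne N) (NeZero.ne P)⟩
  set φ := ZMod.chineseRemainder hc with hφ
  have hkey : ∀ (r : ZMod P) (d : ℕ), ((d : ℕ) : ZMod (N * P)) = φ.symm (b, r) ↔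
      ((d : ℕ) : ZMod N) = b ∧ ((d : ℕ) : ZMod P) = r := by
    intro r d
    rw [RingEquiv.eq_symm_apply, map_natCast, Prod.ext_iff]
    rfl
  have h1 : ∀ X : ℕ, ∑ d ∈ SF N b X, g (d : ZMod P) = ∑ r, g r * ((SF (N * P) (φ.symm (b, r)) X).card : ℝ) := by
    intro X
    have h2 : ∀ r : ZMod P, SF (N * P) (φ.symm (b, r)) X = (SF N b X).filter fun d => ((d : ℕ) : ZMod P) = r := by
      intro r
      ext d
      unfold SF
      simp only [mem_filter, hkey]
      tauto
    simp only [h2, Finset.card_filter]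
    push_cast
    simp only [Finset.mul_sum]
    rw [Finset.sum_comm]
    refine Finset.sum_congr rfl fun d _ => ?_
    rw [Finset.sum_eq_single ((d : ℕ) : ZMod P)]
    · simp
    · intro r _ hr
      rw [if_neg (fun h => hr h.symm), mul_zero]
    · intro h
      exact absurd (mem_univ _) h
  have h3 : ∀ r : ZMod P, Tendsto (fun X : ℕ => g r * ((SF (N * P) (φ.symm (b, r)) X).card : ℝ) / X) atTop
      (𝓝 (g r * (DD 2 (N * P) / ((N * P : ℕ) : ℝ)))) := by
    intro r
    by_cases hr : IsUnit r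
    · have hu : IsUnit (φ.symm (b, r)) := by
        have : IsUnit ((b, r) : ZMod N × ZMod P) := Prod.isUnit_iff.2 ⟨hb, hr⟩
        exact this.map φ.symm
      have h4 := (SF_lim hu).const_mul (g r)
      refine h4.congr fun X => ?_
      ring
    · rw [hg r hr]
      simp
  have h4 := tendsto_finsetSum (univ : Finset (ZMod P)) fun r _ => h3 r
  rw [← Finset.sum_mul] at h4
  refine h4.congr fun X => ?_
  rw [h1, Finset.sum_div]

/-- **means of functions of residue classes** -/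
theorem SF_mean {N P : ℕ} [NeZero N] [NeZero P] (hc : N.Coprime P) {b : ZMod N} (hb : IsUnit b)
    (g : ZMod P → ℝ) (hg : ∀ r, ¬ IsUnit r → g r = 0) :
    Tendsto (fun X : ℕ => mean (SF N b X) (fun d => g (d : ZMod P))) atTop (𝓝 ((∑ r, g r) / P / fac 2 P)) := by
  have : NeZero (N * P) := ⟨mul_ne_zero (NeZero.ne N) (NeZero.ne P)⟩
  have h1 := SF_sum hc hb g hg
  have h2 := SF_lim hb
  obtain ⟨a1, a2⟩ := DD_ratio (s := 2) (N := N) le_rfl
  obtain ⟨b1, -⟩ := DD_ratio (s := 2) (N := N * P) le_rfl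
  have f1 := (fac_pos (s := 2) (N := N) le_rfl).ne'
  have f2 := (fac_pos (s := 2) (N := P) le_rfl).ne'
  have hN : (N : ℝ) ≠ 0 := by exact_mod_cast NeZero.ne N
  have hP : (P : ℝ) ≠ 0 := by exact_mod_cast NeZero.ne P
  have h3 : DD 2 N / N ≠ 0 := by
    rw [a1]
    positivity
  have h4 := h1.div h2 h3
  have e1 : (∑ r, g r) * (DD 2 (N * P) / ((N * P : ℕ) : ℝ)) / (DD 2 N / N) = (∑ r, g r) / P / fac 2 P := by
    rw [a1, b1, fac_mul (NeZero.ne N) (NeZero.ne P) hc]
    push_cast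
    field_simp
  rw [e1] at h4
  refine h4.congr' ?_
  filter_upwards [eventually_gt_atTop 0] with X hX
  have hX' : (X : ℝ) ≠ 0 := by exact_mod_cast hX.ne'
  unfold mean
  rw [Pi.div_apply, div_div_div_cancel_right₀ hX']

/-- the expected value at a prime -/
noncomputable def Eu (p : ℕ) [NeZero p] (g : ZMod p → ℝ) : ℝ := (∑ r, g r) / p / (1 - ((p : ℝ) ^ 2)⁻¹)

theorem unit_iff {p : ℕ} (hp : p.Prime) (r : ZMod p) : ¬ IsUnit r ↔ r = 0 := by
  have : Fact p.Prime := ⟨hp⟩
  rw [isUnit_iff_ne_zero, not_not]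

theorem SF_one {N p : ℕ} [NeZero N] [NeZero p] (hp : p.Prime) (hN : ¬ p ∣ N) {b : ZMod N} (hb : IsUnit b)
    (g : ZMod p → ℝ) (hg : g 0 = 0) :
    Tendsto (fun X : ℕ => mean (SF N b X) (fun d => g (d : ZMod p))) atTop (𝓝 (Eu p g)) := by
  have h1 := SF_mean (N := N) (P := p) ((Nat.Prime.coprime_iff_not_dvd hp).2 hN).symm hb g
    (fun r hr => by rw [(unit_iff hp r).1 hr, hg])
  rw [fac_prime 2 hp] at h1
  exact h1

theorem SF_two {N p q : ℕ} [NeZero N] [NeZero p] [NeZero q] (hp : p.Prime) (hq : q.Prime) (hpq : p ≠ q)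
    (hN : ¬ p ∣ N) (hN' : ¬ q ∣ N) {b : ZMod N} (hb : IsUnit b)
    (f : ZMod p → ℝ) (g : ZMod q → ℝ) (hf : f 0 = 0) (hg : g 0 = 0) :
    Tendsto (fun X : ℕ => mean (SF N b X) (fun d => f (d : ZMod p) * g (d : ZMod q))) atTop
      (𝓝 (Eu p f * Eu q g)) := by
  classical
  have hc : p.Coprime q := (Nat.coprime_primes hp hq).2 hpq
  have : NeZero (p * q) := ⟨mul_ne_zero hp.ne_zero hq.ne_zero⟩
  have hcN : N.Coprime (p * q) := Nat.Coprime.mul_right ((Nat.Prime.coprime_iff_not_dvd hp).2 hN).symm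
    ((Nat.Prime.coprime_iff_not_dvd hq).2 hN').symm
  set φ := ZMod.chineseRemainder hc with hφ
  set h : ZMod (p * q) → ℝ := fun r => f (φ r).1 * g (φ r).2 with hh
  have h1 := SF_mean (N := N) (P := p * q) hcN hb h (fun r hr => by
    have h2 : ¬ IsUnit (φ r) := fun h3 => hr (by
      have := h3.map φ.symm
      rwa [RingEquiv.symm_apply_apply] at this)
    rw [Prod.isUnit_iff, not_and_or] at h2
    rw [hh]
    simp only
    rcases h2 with h2 | h2
    · rw [(unit_iff hp _).1 h2, hf, zero_mul]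
    · rw [(unit_iff hq _).1 h2, hg, mul_zero])
  have h2 : ∑ r, h r = (∑ r, f r) * ∑ r, g r := by
    have h4 : (∑ r, f r) * ∑ r, g r = ∑ x : ZMod p × ZMod q, f x.1 * g x.2 := by
      rw [Finset.sum_mul_sum, Fintype.sum_prod_type]
    rw [h4]
    exact Fintype.sum_equiv φ.toEquiv _ _ fun r => rfl
  rw [fac_two 2 hp hq hpq, h2] at h1
  have e1 : (∑ r, f r) * (∑ r, g r) / ((p * q : ℕ) : ℝ) / ((1 - ((p : ℝ) ^ 2)⁻¹) * (1 - ((q : ℝ) ^ 2)⁻¹)) =
      Eu p f * Eu q g := by
    unfold Eu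
    rw [div_div, div_div, div_div, div_mul_div_comm]
    push_cast
    congr 1
    ring
  rw [e1] at h1
  refine h1.congr fun X => ?_
  unfold mean
  congr 1
  refine Finset.sum_congr rfl fun d _ => ?_
  rw [hh]
  simp only [map_natCast]
  rfl

open Classical in
/-- **the local data of a class** -/
theorem SF_loc {N : ℕ} [NeZero N] {b : ZMod N} (hb : IsUnit b) {g : (p : Nat.Primes) → ZMod p → ℝ}
    (hg : ∀ p, g p 0 = 0) {B : ℝ} (hB : 0 ≤ B) (hgB : ∀ p : Nat.Primes, ¬ (p : ℕ) ∣ N → ∀ r, |g p r| ≤ B / √((p : ℕ) : ℝ)) :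
    Loc (fun X => SF N b X) (fun (p : Nat.Primes) (d : ℕ) => if (p : ℕ) ∣ N then 0 else g p (d : ZMod p))
      (fun p => B / √((p : ℕ) : ℝ)) (fun p => if (p : ℕ) ∣ N then 0 else Eu (p : ℕ) (g p)) where
  bd := fun p X d _ => by
    by_cases h : (p : ℕ) ∣ N
    · rw [if_pos h, abs_zero]
      positivity
    · rw [if_neg h]
      exact hgB p h _
  one := fun p => by
    by_cases h : (p : ℕ) ∣ N
    · simp only [if_pos h]
      unfold mean
      simp
    · simp only [if_neg h]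
      exact SF_one p.2 h hb (g p) (hg p)
  two := fun p q hpq => by
    by_cases h : (p : ℕ) ∣ N
    · simp only [if_pos h, zero_mul]
      unfold mean
      simp
    · by_cases h' : (q : ℕ) ∣ N
      · simp only [if_pos h', mul_zero]
        unfold mean
        simp
      · simp only [if_neg h, if_neg h']
        exact SF_two p.2 q.2 (fun e => hpq (Subtype.ext e)) h h' hb (g p) (g q) (hg p) (hg q)
  ne := SF_ne hb

end Pool.Agent.X278.AV
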