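import Pool.Agent.X278.AV.Ell
import Pool.Agent.X278.AV.Law
import Pool.Agent.X278.OP.NF

/-!
# The system of an elliptic curve over the rational numbers, on all rational primes
-/

set_option autoImplicit false

namespace Pool.Agent.X278.AV

open Complex Filter Topology Set Asymptotics
open Pool.Agent.W189.ML Pool.Agent.X287.CR Pool.Agent.X278.OP
open Pool.Agent.W187.UR (Lam)
open Pool.Agent.TH942.ES (rt rt_norm rt_prod rt_log)

instance factp (p : Nat.Primes) : Fact (p : ℕ).Prime := ⟨p.2⟩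

/-- `p` does not divide `6 (4 A³ + 27 B²)` -/
def GoodQ (A B : ℤ) (p : ℕ) : Prop := (6 : ZMod p) * (4 * (A : ZMod p) ^ 3 + 27 * (B : ZMod p) ^ 2) ≠ 0

/-- the number of affine points modulo `p` -/
noncomputable def ptsQ (A B : ℤ) (p : ℕ) : ℕ :=
  Nat.card {P : ZMod p × ZMod p // P.2 ^ 2 = P.1 ^ 3 + (A : ZMod p) * P.1 + (B : ZMod p)}

/-- the normalised trace -/
noncomputable def trQ (A B : ℤ) (p : ℕ) : ℝ := ((p : ℝ) - ptsQ A B p) / (2 * √(p : ℝ))

theorem trQ_abs {A B : ℤ} {p : ℕ} (hp : p.Prime) (h : GoodQ A B p) : |trQ A B p| ≤ 1 := by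
  have : Fact p.Prime := ⟨hp⟩
  have hp0 : (0 : ℝ) < p := by exact_mod_cast hp.pos
  have h1 : 0 < √(p : ℝ) := Real.sqrt_pos.2 hp0
  have h2 := Pool.Agent.TH942.ES.hasseK (k := ZMod p) h
  rw [ZMod.card] at h2
  unfold trQ
  rw [abs_div, abs_of_pos (by linarith : 0 < 2 * √(p : ℝ)), div_le_one (by linarith)]
  exact h2

open Classical in
/-- the roots; zero at the bad primes -/
noncomputable def qal (A B : ℤ) (p : Nat.Primes) : Fin 2 → ℂ := fun i =>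
  if GoodQ A B p then ((√((p : ℕ) : ℝ) : ℝ) : ℂ) * rt (trQ A B p) i else 0

theorem qal_sys (A B : ℤ) : CSys (1 / 2) pq (qal A B) :=
  q_csys _ fun p i => by
    have hp0 : (0 : ℝ) < (p : ℕ) := by exact_mod_cast p.2.pos
    unfold qal
    by_cases h : GoodQ A B p
    · rw [if_pos h, norm_mul, Complex.norm_real, Real.norm_eq_abs, abs_of_nonneg (Real.sqrt_nonneg _),
        ← Real.sqrt_eq_rpow]
      calc √((p : ℕ) : ℝ) * ‖rt (trQ A B p) i‖ ≤ √((p : ℕ) : ℝ) * 1 := by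
            gcongr
            exact rt_norm (trQ_abs p.2 h) i
        _ = _ := mul_one _
    · rw [if_neg h, norm_zero]
      positivity

open Classical in
/-- the Euler factor -/
noncomputable def efQ (A B : ℤ) (s : ℂ) (p : Nat.Primes) : ℂ :=
  if GoodQ A B p then (1 - (((p : ℕ) : ℂ) - ptsQ A B p) * ((p : ℕ) : ℂ) ^ (-s) + ((p : ℕ) : ℂ) ^ (1 - 2 * s))⁻¹ else 1

theorem fac_qal (A B : ℤ) (s : ℂ) : fac pq (qal A B) s = efQ A B s := by
  funext p
  have hn0 : (0 : ℝ) < (p : ℕ) := by exact_mod_cast p.2.pos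
  have h1 : 0 < √((p : ℕ) : ℝ) := Real.sqrt_pos.2 hn0
  have h1c : ((√((p : ℕ) : ℝ) : ℝ) : ℂ) ≠ 0 := by exact_mod_cast h1.ne'
  have hnc : ((p : ℕ) : ℂ) ≠ 0 := by exact_mod_cast hn0.ne'
  have h2 : ((√((p : ℕ) : ℝ) : ℝ) : ℂ) ^ 2 = ((p : ℕ) : ℂ) := by
    rw [← Complex.ofReal_pow, Real.sq_sqrt hn0.le]
    push_cast
    rfl
  unfold efQ
  by_cases h : GoodQ A B p
  · rw [if_pos h]
    unfold fac
    rw [Fin.prod_univ_two, ← mul_inv]
    congr 1
    set r : ℂ := ((√((p : ℕ) : ℝ) : ℝ) : ℂ) with hr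
    set x : ℂ := ((p : ℕ) : ℂ) ^ (-s) with hx
    have hNN : ((pq p : ℕ) : ℂ) ^ (-s) = x := rfl
    rw [hNN]
    have e1 : ((p : ℕ) : ℂ) ^ (1 - 2 * s) = (r * x) ^ 2 := by
      rw [mul_pow, h2, hx, ← Complex.cpow_nat_mul]
      rw [Complex.cpow_sub _ _ hnc, Complex.cpow_one]
      rw [show ((2 : ℕ) : ℂ) * -s = -(2 * s) by push_cast; ring, Complex.cpow_neg, div_eq_mul_inv]
    have e2 := rt_prod (trQ_abs p.2 h) (r * x)
    have e3 : (1 - qal A B p 0 * x) * (1 - qal A B p 1 * x) =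
        (1 - rt (trQ A B p) 0 * (r * x)) * (1 - rt (trQ A B p) 1 * (r * x)) := by
      unfold qal
      rw [if_pos h, if_pos h]
      ring
    rw [e3, e2, e1]
    have e4 : 2 * (trQ A B p : ℂ) * (r * x) = (((p : ℕ) : ℂ) - ptsQ A B p) * x := by
      unfold trQ
      push_cast
      rw [← hr]
      field_simp
    rw [e4]
  · rw [if_neg h]
    unfold fac qal
    simp [h]

/-- the logarithm of the factor at `1` -/
theorem lg_qal (A B : ℤ) (p : Nat.Primes) :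
    -lg pq (qal A B) 1 p = ((ff (A : ZMod p) (B : ZMod p) : ℝ) : ℂ) := by
  have hp2 : (2 : ℝ) ≤ (p : ℕ) := by exact_mod_cast p.2.two_le
  have hn0 : (0 : ℝ) < (p : ℕ) := by linarith
  have h1 : 0 < √((p : ℕ) : ℝ) := Real.sqrt_pos.2 hn0
  have h1c : ((√((p : ℕ) : ℝ) : ℝ) : ℂ) ≠ 0 := by exact_mod_cast h1.ne'
  have hnc : ((p : ℕ) : ℂ) ≠ 0 := by exact_mod_cast hn0.ne'
  have h2 : √((p : ℕ) : ℝ) ^ 2 = (p : ℕ) := Real.sq_sqrt hn0.le
  have h2c : ((√((p : ℕ) : ℝ) : ℝ) : ℂ) ^ 2 = ((p : ℕ) : ℂ) := by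
    rw [← Complex.ofReal_pow, h2]
    push_cast
    rfl
  by_cases h : GoodQ A B p
  · have hx : exp (-((1 : ℂ) * Real.log (pq p))) = (((p : ℕ) : ℂ))⁻¹ := by
      have e0 : (pq p : ℕ) = (p : ℕ) := rfl
      rw [one_mul, Complex.exp_neg, e0, ← Complex.ofReal_exp, Real.exp_log hn0]
      push_cast
      rfl
    have hterm : ∀ i, qal A B p i * exp (-((1 : ℂ) * Real.log (pq p))) =
        rt (trQ A B p) i / ((√((p : ℕ) : ℝ) : ℝ) : ℂ) := by
      intro i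
      rw [hx]
      unfold qal
      rw [if_pos h, ← h2c]
      field_simp
    have hlt : ∀ i, ‖qal A B p i * exp (-((1 : ℂ) * Real.log (pq p)))‖ < 1 := by
      intro i
      rw [hterm, norm_div, Complex.norm_real, Real.norm_eq_abs, abs_of_pos h1, div_lt_one h1]
      refine (rt_norm (trQ_abs p.2 h) i).trans_lt ?_
      rw [Real.lt_sqrt (by norm_num)]
      linarith
    rw [lg_eq (qal_sys A B) hlt, neg_neg]
    simp only [hterm]
    rw [rt_log (trQ_abs p.2 h) hp2]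
    congr 1
    unfold ff
    rw [if_neg h, ZMod.card]
    congr 1
    have e1 : 2 * trQ A B p / √((p : ℕ) : ℝ) = (((p : ℕ) : ℝ) - ptsQ A B p) / (√((p : ℕ) : ℝ) ^ 2) := by
      unfold trQ
      field_simp
    rw [e1, h2]
    unfold pts ptsQ
    field_simp
    ring
  · have h3 : ff (A : ZMod p) (B : ZMod p) = 0 := by
      unfold ff
      rw [if_pos (not_not.1 h)]
    rw [h3, Complex.ofReal_zero]
    unfold lg cc qal
    simp [h]

/-- `∑ log p p^{-1-σ}` -/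
theorem q_log_sum : ∃ C σ₀ : ℝ, 0 < σ₀ ∧ ∀ σ : ℝ, 0 < σ → σ < σ₀ →
    Summable (fun v : Nat.Primes => Real.log (pq v) * (pq v : ℝ) ^ (-(1 + σ))) ∧
    σ * ∑' v : Nat.Primes, Real.log (pq v) * (pq v : ℝ) ^ (-(1 + σ)) ≤ C :=
  log_sum_bound

/-- `S(T) = ∑ log((N_p + 1) / p) w_T(p)` -/
noncomputable def SQ (A B : ℤ) (γ T : ℝ) : ℂ :=
  ∑' p : Nat.Primes, ((ff (A : ZMod p) (B : ZMod p) : ℝ) : ℂ) * Wt γ (Real.log (p : ℕ) / T)

/-- **the growth of `S(T)`** -/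
theorem SQ_growth (A B : ℤ) {F : ℂ → ℂ} (hF : ∀ s : ℂ, 3 / 2 < s.re → HasProd (efQ A B s) (F s))
    (hm : ∀ x : ℝ, 1 ≤ x → x ≤ 3 / 2 → MeromorphicAt F (x : ℂ)) {γ : ℝ} (hγ : Real.pi / 2 < γ) :
    ∃ m : ℤ, meromorphicOrderAt F 1 = m ∧ Gr (SQ A B γ) m := by
  have G := qal_sys A B
  have hs1 : (1 / 2 : ℝ) + 1 / 2 ≤ (1 : ℂ).re := by norm_num
  obtain ⟨m, ρ, h1, -, h3⟩ := G.law (L := F) (fun s hs => by
    have h4 := hF s (by linarith)
    rw [← fac_qal] at h4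
    exact h4) (s₀ := 1) (by norm_num) (fun x hx0 hx1 => by
      have h4 := hm (1 + x) (by linarith) (by
        rw [Complex.one_re] at hx1
        linarith)
      push_cast at h4
      exact h4) hγ
  refine ⟨m, h1, ?_⟩
  have hA : Asy (Lam γ) (Su pq (qal A B) 1 γ) m ρ := h3
  have h5 := law_bdd G hs1 γ q_log_sum hA
  have h6 : Sp pq (qal A B) 1 γ = SQ A B γ := by
    funext T
    unfold Sp SQ
    refine tsum_congr fun p => ?_
    rw [lg_qal]
    rfl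
  rw [h6] at h5
  exact h5

end Pool.Agent.X278.AV
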