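import Pool.Agent.X278.AV.Mob

/-!
# The limit of the averages over the minimal points
-/

set_option autoImplicit false

namespace Pool.Agent.X278.AV

open Finset Filter Topology ArithmeticFunction

variable {k N : ℕ} {e : Fin k → ℕ}

open Classical in
theorem card_bound (he : ∀ j, 2 ≤ e j) {a : Fin k → ℕ} (ha : ∀ j, 1 ≤ a j) {m : ℕ} (hm : 0 < m) :
    (((Box (fun j => a j / m ^ e j)).erase 0).card : ℝ) ≤ k * ((∏ j, (3 * (a j : ℝ))) / m ^ 2) := by
  set b : Fin k → ℕ := fun j => a j / m ^ e j with hb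
  have hm' : (0 : ℝ) < m := by exact_mod_cast hm
  have hm1 : (1 : ℝ) ≤ m := by exact_mod_cast hm
  have hbm : ∀ j, (b j : ℝ) ≤ a j / m ^ 2 := by
    intro j
    have h1 : ((a j / m ^ e j : ℕ) : ℝ) ≤ a j / ((m ^ e j : ℕ) : ℝ) := Nat.cast_div_le
    refine h1.trans ?_
    push_cast
    apply div_le_div_of_nonneg_left (Nat.cast_nonneg _) (by positivity)
    exact pow_le_pow_right₀ hm1 (he j)
  have hba : ∀ j, b j ≤ a j := fun j => Nat.div_le_self _ _
  have h1 : (Box b).erase 0 ⊆ univ.biUnion fun j => (Box b).filter fun y => y j ≠ 0 := by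
    intro y hy
    rw [mem_erase] at hy
    rw [mem_biUnion]
    by_contra h
    push Not at h
    apply hy.1
    funext j
    by_contra h2
    exact h j (mem_univ j) (mem_filter.2 ⟨hy.2, h2⟩)
  have h2 : ∀ j : Fin k, (((Box b).filter fun y => y j ≠ 0).card : ℝ) ≤ (∏ j, (3 * (a j : ℝ))) / m ^ 2 := by
    intro j
    have h3 : (Box b).filter (fun y => y j ≠ 0) = Fintype.piFinset
        (fun i => if i = j then (Icc (-(b i : ℤ)) (b i)).erase 0 else Icc (-(b i : ℤ)) (b i)) := by
      ext y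
      rw [mem_filter, Fintype.mem_piFinset]
      unfold Box
      rw [Fintype.mem_piFinset]
      constructor
      · rintro ⟨h4, h5⟩ i
        by_cases hi : i = j
        · subst hi
          rw [if_pos rfl, mem_erase]
          exact ⟨h5, h4 i⟩
        · rw [if_neg hi]
          exact h4 i
      · intro h4
        refine ⟨fun i => ?_, ?_⟩
        · have := h4 i
          by_cases hi : i = j
          · rw [if_pos hi, mem_erase] at this
            exact this.2
          · rwa [if_neg hi] at this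
        · have := h4 j
          rw [if_pos rfl, mem_erase] at this
          exact this.1
    rw [h3, Fintype.card_piFinset]
    push_cast
    have h4 : ∏ i, (3 * (a i : ℝ) * (if i = j then 1 / (m : ℝ) ^ 2 else 1)) = (∏ j, (3 * (a j : ℝ))) / m ^ 2 := by
      rw [Finset.prod_mul_distrib, Finset.prod_ite_eq' univ j, if_pos (mem_univ j), mul_one_div]
    rw [← h4]
    refine Finset.prod_le_prod (fun i _ => Nat.cast_nonneg _) fun i _ => ?_
    have ha1 : (1 : ℝ) ≤ a i := by exact_mod_cast ha i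
    by_cases hi : i = j
    · rw [if_pos hi, if_pos hi, Finset.card_erase_of_mem (by simp), Int.card_Icc]
      have h5 : ((((b i : ℤ) + 1 - -(b i : ℤ)).toNat - 1 : ℕ) : ℝ) = 2 * b i := by
        have : (((b i : ℤ) + 1 - -(b i : ℤ)).toNat - 1 : ℕ) = 2 * b i := by omega
        rw [this]
        push_cast
        rfl
      rw [h5, mul_one_div]
      have := hbm i
      have h6 : (2 : ℝ) * (a i / m ^ 2) ≤ 3 * a i / m ^ 2 := by
        rw [← mul_div_assoc]
        gcongr
        norm_num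
      linarith
    · rw [if_neg hi, if_neg hi, Int.card_Icc]
      have h5 : ((((b i : ℤ) + 1 - -(b i : ℤ)).toNat : ℕ) : ℝ) = 2 * b i + 1 := by
        have : (((b i : ℤ) + 1 - -(b i : ℤ)).toNat : ℕ) = 2 * b i + 1 := by omega
        rw [this]
        push_cast
        rfl
      rw [h5, mul_one]
      have : (b i : ℝ) ≤ a i := by exact_mod_cast hba i
      linarith
  calc (((Box b).erase 0).card : ℝ) ≤ ((univ.biUnion fun j => (Box b).filter fun y => y j ≠ 0).card : ℝ) := by
        exact_mod_cast Finset.card_le_card h1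
    _ ≤ ((∑ j, ((Box b).filter fun y => y j ≠ 0).card : ℕ) : ℝ) := by
        exact_mod_cast Finset.card_biUnion_le
    _ = ∑ j, (((Box b).filter fun y => y j ≠ 0).card : ℝ) := by push_cast; rfl
    _ ≤ ∑ _j : Fin k, (∏ j, (3 * (a j : ℝ))) / m ^ 2 := Finset.sum_le_sum fun j _ => h2 j
    _ = _ := by rw [Finset.sum_const, Finset.card_univ, Fintype.card_fin, nsmul_eq_mul]

theorem part_zero (he : ∀ j, 2 ≤ e j) (φ : (Fin k → ZMod N) → ℝ) {a : Fin k → ℕ} {m : ℕ}
    (hm : ∑ j, a j < m) : part e φ a m = 0 := by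
  have hm0 : 0 < m := by omega
  unfold part
  apply Finset.sum_eq_zero
  intro y hy
  exfalso
  rw [mem_erase, mem_Box] at hy
  apply hy.1
  funext j
  have h1 := hy.2 j
  have h2 : a j / m ^ e j = 0 := by
    apply Nat.div_eq_of_lt
    have h3 : a j ≤ ∑ j, a j := Finset.single_le_sum (f := a) (fun i _ => Nat.zero_le _) (mem_univ j)
    have h4 : m ≤ m ^ e j := Nat.le_self_pow (by have := he j; omega) m
    omega
  rw [h2] at h1
  exact abs_nonpos_iff.1 (by simpa using h1)

open Classical in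
theorem sum_min (he : ∀ j, 2 ≤ e j) (φ : (Fin k → ZMod N) → ℝ) (a : Fin k → ℕ) :
    ∑ x ∈ ((Box a).erase 0).filter (Min e), φ (fun j => ((x j : ℤ) : ZMod N)) =
      ∑' m : ℕ, (moebius m : ℝ) * part e φ a m := by
  have h1 : ∑' m : ℕ, (moebius m : ℝ) * part e φ a m =
      ∑ m ∈ range (∑ j, a j + 1), (moebius m : ℝ) * part e φ a m := by
    apply tsum_eq_sum
    intro m hm
    rw [mem_range, not_lt] at hm
    rw [part_zero he φ (by omega), mul_zero]
  rw [h1]
  have h2 : ∀ m ∈ range (∑ j, a j + 1), (moebius m : ℝ) * part e φ a m =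
      ∑ x ∈ (Box a).erase 0, ((if ∀ j, (m : ℤ) ^ e j ∣ x j then (moebius m : ℤ) else 0 : ℤ) : ℝ) *
        φ (fun j => ((x j : ℤ) : ZMod N)) := by
    intro m _
    rcases Nat.eq_zero_or_pos m with rfl | hm
    · simp
    · rw [part_eq e φ a hm, Finset.mul_sum, Finset.sum_filter]
      refine Finset.sum_congr rfl fun x _ => ?_
      by_cases h : ∀ j, (m : ℤ) ^ e j ∣ x j
      · rw [if_pos h, if_pos h]
      · rw [if_neg h, if_neg h]
        simp
  rw [Finset.sum_congr rfl h2, Finset.sum_comm, Finset.sum_filter]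
  refine Finset.sum_congr rfl fun x hx => ?_
  rw [mem_erase] at hx
  rw [← Finset.sum_mul]
  have h3 : (∑ m ∈ range (∑ j, a j + 1), ((if ∀ j, (m : ℤ) ^ e j ∣ x j then (moebius m : ℤ) else 0 : ℤ) : ℝ)) =
      ((∑ m ∈ range (∑ j, a j + 1), (if ∀ j, (m : ℤ) ^ e j ∣ x j then moebius m else 0) : ℤ) : ℝ) := by
    push_cast
    rfl
  rcases Nat.eq_zero_or_pos k with hk | hk
  · exfalso
    apply hx.1
    funext j
    exact absurd j.2 (by omega)
  rw [h3, mu_ind hk he hx.2 hx.1]
  by_cases h : Min e x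
  · rw [if_pos h, if_pos h]; simp
  · rw [if_neg h, if_neg h]; simp

/-- the density constant -/
noncomputable def DD (s N : ℕ) : ℝ := ∑' m : ℕ, (moebius m : ℝ) * (if m.Coprime N then ((m : ℝ) ^ s)⁻¹ else 0)

open Classical in
theorem min_lim [NeZero N] (hk : 0 < k) (he : ∀ j, 2 ≤ e j) (φ : (Fin k → ZMod N) → ℝ)
    (hφ : ∀ m : ℕ, ¬ m.Coprime N → ∀ y : Fin k → ℤ, φ (fun j => (((m : ℤ) ^ e j * y j : ℤ) : ZMod N)) = 0)
    (a : ℕ → Fin k → ℕ) (ha : ∀ j, Tendsto (fun X => a X j) atTop atTop) :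
    Tendsto (fun X => (∑ x ∈ ((Box (a X)).erase 0).filter (Min e), φ (fun j => ((x j : ℤ) : ZMod N))) /
      ∏ j, (2 * (a X j : ℝ))) atTop (𝓝 (DD (∑ j, e j) N * avg φ)) := by
  obtain ⟨M, hM0, hM⟩ : ∃ M : ℝ, 0 ≤ M ∧ ∀ r, |φ r| ≤ M := by
    refine ⟨∑ r, |φ r|, by positivity, fun r => ?_⟩
    exact Finset.single_le_sum (f := fun r => |φ r|) (fun i _ => abs_nonneg _) (mem_univ r)
  have h0 : ∀ X, (∑ x ∈ ((Box (a X)).erase 0).filter (Min e), φ (fun j => ((x j : ℤ) : ZMod N))) /
      ∏ j, (2 * (a X j : ℝ)) = ∑' m : ℕ, (moebius m : ℝ) * part e φ (a X) m / ∏ j, (2 * (a X j : ℝ)) := by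
    intro X
    rw [sum_min he, tsum_div_const]
  simp only [h0]
  have h1 : DD (∑ j, e j) N * avg φ = ∑' m : ℕ, (moebius m : ℝ) *
      (if m.Coprime N then ((m : ℝ) ^ (∑ j, e j))⁻¹ else 0) * avg φ := by
    unfold DD
    rw [tsum_mul_right]
  rw [h1]
  have hs : Summable fun m : ℕ => M * k * (2 : ℝ) ^ k * (1 / (m : ℝ) ^ 2) :=
    (Real.summable_one_div_nat_pow.2 (by norm_num)).mul_left _
  refine tendsto_tsum_of_dominated_convergence hs (fun m => ?_) ?_
  · by_cases hm : m.Coprime N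
    · rw [if_pos hm]
      rcases Nat.eq_zero_or_pos m with rfl | hm0
      · simp
      · have := (part_lim hk e φ a ha hm0 hm).const_mul (moebius m : ℝ)
        rw [← mul_assoc] at this
        refine this.congr fun X => ?_
        rw [mul_div_assoc]
    · rw [if_neg hm, mul_zero, zero_mul]
      have : ∀ X, (moebius m : ℝ) * part e φ (a X) m / ∏ j, (2 * (a X j : ℝ)) = 0 := by
        intro X
        have h2 : part e φ (a X) m = 0 := Finset.sum_eq_zero fun y _ => hφ m hm y
        rw [h2, mul_zero, zero_div]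
      simp only [this]
      exact tendsto_const_nhds
  · have h4 : ∀ᶠ X in atTop, ∀ j, 1 ≤ a X j := by
      rw [eventually_all]
      exact fun j => (ha j).eventually_ge_atTop 1
    filter_upwards [h4] with X hX m
    have hP : (0 : ℝ) < ∏ j, (2 * (a X j : ℝ)) := by
      refine Finset.prod_pos fun j _ => ?_
      have : (1 : ℝ) ≤ a X j := by exact_mod_cast hX j
      linarith
    rcases Nat.eq_zero_or_pos m with rfl | hm0
    · simp
    rw [Real.norm_eq_abs, abs_div, abs_of_pos hP, div_le_iff₀ hP, abs_mul]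
    have h5 : |(moebius m : ℝ)| ≤ 1 := by
      have := ArithmeticFunction.abs_moebius_le_one (n := m)
      exact_mod_cast this
    have h6 : |part e φ (a X) m| ≤ M * (k * ((∏ j, (3 * (a X j : ℝ))) / m ^ 2)) := by
      unfold part
      refine (Finset.abs_sum_le_sum_abs _ _).trans ((Finset.sum_le_sum fun y _ => hM _).trans ?_)
      rw [Finset.sum_const, nsmul_eq_mul, mul_comm]
      exact mul_le_mul_of_nonneg_left (card_bound he hX hm0) hM0
    have h7 : (∏ j, (3 * (a X j : ℝ))) ≤ (2 : ℝ) ^ k * ∏ j, (2 * (a X j : ℝ)) := by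
      have : (2 : ℝ) ^ k = ∏ _j : Fin k, (2 : ℝ) := by simp
      rw [this, ← Finset.prod_mul_distrib]
      refine Finset.prod_le_prod (fun j _ => by positivity) fun j _ => ?_
      have : (0 : ℝ) ≤ a X j := by positivity
      linarith
    calc |(moebius m : ℝ)| * |part e φ (a X) m| ≤ 1 * (M * (k * ((∏ j, (3 * (a X j : ℝ))) / m ^ 2))) :=
          mul_le_mul h5 h6 (abs_nonneg _) zero_le_one
      _ ≤ 1 * (M * (k * (((2 : ℝ) ^ k * ∏ j, (2 * (a X j : ℝ))) / m ^ 2))) := by gcongr
      _ = _ := by ring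

end Pool.Agent.X278.AV
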