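import Pool.Agent.X278.AV.FnG2
import Pool.Agent.X278.AV.Gau4

/-!
# The real axis at `1`; the asymptotics of the weighted sums for twists
-/

set_option autoImplicit false

namespace Pool.Agent.X278.AV

open Finset Filter Topology
open Pool.Agent.X278.OP Pool.Agent.W189.ML
open Pool.Agent.H341R2 (lam)

theorem wts_one : ∃ C₀ : ℝ, Wts (fun p : Nat.Primes => ((p : ℕ) : ℝ)) (fun _ => 1) 1 C₀ := by
  obtain ⟨c, hc⟩ := lam_lim
  refine ⟨c, fun p => by exact_mod_cast p.2.two_le, fun _ => zero_le_one, fun ε hε => ?_, ?_⟩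
  · simpa using lam_sum hε
  · refine hc.congr fun ε => ?_
    unfold lam
    simp

section

variable {ι : Type} [Fintype ι] {β : Nat.Primes → ι → ℂ} {F : ℂ → ℂ}

theorem xc_eq (p : Nat.Primes) (ε : ℝ) : ((p : ℕ) : ℂ) ^ (-(1 + ε : ℂ)) = ((((p : ℕ) : ℝ) ^ (-(1 + ε)) : ℝ) : ℂ) := by
  rw [Complex.ofReal_cpow (Nat.cast_nonneg _)]
  push_cast
  rfl

theorem bx_le (hβ : ∀ p i, ‖β p i‖ ≤ 1) {ε : ℝ} (hε : 0 ≤ ε) (p : Nat.Primes) (i : ι) :
    ‖β p i * ((((p : ℕ) : ℝ) ^ (-(1 + ε)) : ℝ) : ℂ)‖ ≤ ((p : ℕ) : ℝ) ^ (-(1 + ε)) := by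
  have h0 : 0 ≤ ((p : ℕ) : ℝ) ^ (-(1 + ε)) := by positivity
  rw [norm_mul, Complex.norm_real, Real.norm_eq_abs, abs_of_nonneg h0]
  exact mul_le_of_le_one_left h0 (hβ p i)

theorem log_sum (hβ : ∀ p i, ‖β p i‖ ≤ 1) {ε : ℝ} (hε : 0 < ε) :
    Summable fun p : Nat.Primes => ∑ i, -Real.log ‖1 - β p i * ((((p : ℕ) : ℝ) ^ (-(1 + ε)) : ℝ) : ℂ)‖ := by
  refine Summable.of_norm_bounded ((lam_sum hε).mul_left (4 * (Fintype.card ι : ℝ))) fun p => ?_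
  refine (norm_sum_le _ _).trans ?_
  calc _ ≤ ∑ _i : ι, 4 * ((p : ℕ) : ℝ) ^ (-(1 + ε)) := by
        refine Finset.sum_le_sum fun i _ => ?_
        have h1 := bx_le hβ hε.le p i
        have h2 := xp_le p hε.le
        have h3 := inv_half p
        rw [norm_neg, Real.norm_eq_abs]
        exact (log_bd (h1.trans (by linarith))).trans (by gcongr)
    _ = _ := by
        rw [Finset.sum_const, Finset.card_univ, nsmul_eq_mul]
        ring

theorem log_F (hβ : ∀ p i, ‖β p i‖ ≤ 1)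
    (hF : ∀ s : ℂ, 1 < s.re → HasProd (fun p : Nat.Primes => ∏ i, (1 - β p i * ((p : ℕ) : ℂ) ^ (-s))⁻¹) (F s))
    {ε : ℝ} (hε : 0 < ε) :
    ‖F (1 + ε)‖ = Real.exp (∑' p : Nat.Primes, ∑ i, -Real.log ‖1 - β p i * ((((p : ℕ) : ℝ) ^ (-(1 + ε)) : ℝ) : ℂ)‖) := by
  have hre : 1 < (1 + ε : ℂ).re := by simp [hε]
  have h2 := (hF _ hre).map (normHom (α := ℂ)) continuous_norm
  have hpos : ∀ (p : Nat.Primes) (i : ι), 0 < ‖1 - β p i * ((((p : ℕ) : ℝ) ^ (-(1 + ε)) : ℝ) : ℂ)‖ := by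
    intro p i
    have h1 := bx_le hβ hε.le p i
    have h2 := xp_le p hε.le
    have h3 := inv_half p
    have h4 := norm_sub_norm_le (1 : ℂ) (β p i * ((((p : ℕ) : ℝ) ^ (-(1 + ε)) : ℝ) : ℂ))
    rw [norm_one] at h4
    linarith
  have h3 : ∏' p : Nat.Primes, ‖∏ i, (1 - β p i * ((p : ℕ) : ℂ) ^ (-(1 + ε : ℂ)))⁻¹‖ = ‖F (1 + ε)‖ := h2.tprod_eq
  have e1 : ∀ p : Nat.Primes, ‖∏ i, (1 - β p i * ((p : ℕ) : ℂ) ^ (-(1 + ε : ℂ)))⁻¹‖ =
      Real.exp (∑ i, -Real.log ‖1 - β p i * ((((p : ℕ) : ℝ) ^ (-(1 + ε)) : ℝ) : ℂ)‖) := by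
    intro p
    rw [norm_prod, Real.exp_sum]
    refine Finset.prod_congr rfl fun i _ => ?_
    rw [xc_eq, norm_inv, Real.exp_neg, Real.exp_log (hpos p i)]
  have h4 := Real.rexp_tsum_eq_tprod (f := fun p : Nat.Primes =>
    Real.exp (∑ i, -Real.log ‖1 - β p i * ((((p : ℕ) : ℝ) ^ (-(1 + ε)) : ℝ) : ℂ)‖)) (fun p => Real.exp_pos _)
    (by simpa only [Real.log_exp] using log_sum hβ hε)
  simp only [Real.log_exp] at h4
  rw [h4, ← h3]
  exact tprod_congr e1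

/-- **the real axis at `1`** -/
theorem real_axis (hβ : ∀ p i, ‖β p i‖ ≤ 1)
    (hF : ∀ s : ℂ, 1 < s.re → HasProd (fun p : Nat.Primes => ∏ i, (1 - β p i * ((p : ℕ) : ℂ) ^ (-s))⁻¹) (F s))
    (hm : MeromorphicAt F 1) : ∃ (n : ℤ) (c : ℝ), meromorphicOrderAt F 1 = n ∧
      (∀ ε : ℝ, 0 < ε → Summable fun p : Nat.Primes => (∑ i, (β p i).re) * ((p : ℕ) : ℝ) ^ (-(1 + ε))) ∧
      Tendsto (fun ε : ℝ => ∑' p : Nat.Primes, (∑ i, (β p i).re) * ((p : ℕ) : ℝ) ^ (-(1 + ε)) - n * Real.log ε)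
        (𝓝[>] 0) (𝓝 c) := by
  have hpath : Tendsto (fun ε : ℝ => (1 + ε : ℂ)) (𝓝[>] 0) (𝓝[≠] 1) := by
    rw [tendsto_nhdsWithin_iff]
    constructor
    · have : ContinuousAt (fun ε : ℝ => (1 + ε : ℂ)) 0 := by fun_prop
      have h2 := this.tendsto
      simp only [Complex.ofReal_zero, add_zero] at h2
      exact h2.mono_left nhdsWithin_le_nhds
    · filter_upwards [self_mem_nhdsWithin] with ε hε
      have hε' : (0 : ℝ) < ε := hε
      simp only [Set.mem_compl_iff, Set.mem_singleton_iff, add_eq_left]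
      exact_mod_cast hε'.ne'
  have hs1 : ∀ ε : ℝ, 0 < ε → Summable fun p : Nat.Primes => (∑ i, (β p i).re) * ((p : ℕ) : ℝ) ^ (-(1 + ε)) := by
    intro ε hε
    refine Summable.of_norm_bounded ((lam_sum hε).mul_left (Fintype.card ι : ℝ)) fun p => ?_
    have h0 : 0 ≤ ((p : ℕ) : ℝ) ^ (-(1 + ε)) := by positivity
    rw [norm_mul, Real.norm_eq_abs, Real.norm_eq_abs, abs_of_nonneg h0]
    gcongr
    refine (Finset.abs_sum_le_sum_abs _ _).trans ?_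
    calc _ ≤ ∑ _i : ι, (1 : ℝ) := Finset.sum_le_sum fun i _ => (Complex.abs_re_le_norm _).trans (hβ p i)
      _ = _ := by rw [Finset.sum_const, Finset.card_univ, nsmul_eq_mul, mul_one]
  set ρ : ℝ → Nat.Primes → ℝ := fun ε p => ∑ i, (-Real.log ‖1 - β p i * ((((p : ℕ) : ℝ) ^ (-(1 + ε)) : ℝ) : ℂ)‖ -
    (β p i).re * ((p : ℕ) : ℝ) ^ (-(1 + ε))) with hρ
  have hρb : ∀ ε : ℝ, 0 ≤ ε → ∀ p : Nat.Primes, ‖ρ ε p‖ ≤ Fintype.card ι * ((((p : ℕ) : ℝ))⁻¹) ^ 2 := by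
    intro ε hε p
    rw [hρ]
    simp only
    refine (norm_sum_le _ _).trans ?_
    calc _ ≤ ∑ _i : ι, ((((p : ℕ) : ℝ))⁻¹) ^ 2 := by
          refine Finset.sum_le_sum fun i _ => ?_
          have h1 := bx_le hβ hε p i
          have h2 := xp_le p hε
          have h3 := inv_half p
          have h4 := log_bd2 (z := β p i * ((((p : ℕ) : ℝ) ^ (-(1 + ε)) : ℝ) : ℂ)) (h1.trans (h2.trans h3))
          have h5 : -Real.log ‖1 - β p i * ((((p : ℕ) : ℝ) ^ (-(1 + ε)) : ℝ) : ℂ)‖ -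
              (β p i).re * ((p : ℕ) : ℝ) ^ (-(1 + ε)) =
              -(Real.log ‖1 - β p i * ((((p : ℕ) : ℝ) ^ (-(1 + ε)) : ℝ) : ℂ)‖ +
              (β p i * ((((p : ℕ) : ℝ) ^ (-(1 + ε)) : ℝ) : ℂ)).re) := by
            rw [Complex.re_mul_ofReal]
            ring
          rw [h5, norm_neg, Real.norm_eq_abs]
          refine h4.trans ?_
          exact pow_le_pow_left₀ (norm_nonneg _) (h1.trans h2) 2
      _ = _ := by rw [Finset.sum_const, Finset.card_univ, nsmul_eq_mul]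
  have hρs : ∀ ε : ℝ, 0 ≤ ε → Summable (ρ ε) := fun ε hε =>
    Summable.of_norm_bounded (sum_inv_sq.mul_left _) (hρb ε hε)
  have hρlim : Tendsto (fun ε => ∑' p, ρ ε p) (𝓝[>] 0) (𝓝 (∑' p, ρ 0 p)) := by
    refine tendsto_tsum_of_dominated_convergence (sum_inv_sq.mul_left (Fintype.card ι : ℝ)) (fun p => ?_) ?_
    · have hp0 : (0 : ℝ) < (p : ℕ) := by exact_mod_cast p.2.pos
      have h3 : Tendsto (fun ε : ℝ => ((p : ℕ) : ℝ) ^ (-(1 + ε))) (𝓝[>] 0) (𝓝 (((p : ℕ) : ℝ) ^ (-(1 + (0 : ℝ))))) := by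
        have h4 : ContinuousAt (fun ε : ℝ => ((p : ℕ) : ℝ) ^ (-(1 + ε))) 0 := by
          have : Continuous fun ε : ℝ => ((p : ℕ) : ℝ) ^ (-(1 + ε)) :=
            Continuous.rpow continuous_const (by fun_prop) fun _ => Or.inl hp0.ne'
          exact this.continuousAt
        exact h4.tendsto.mono_left nhdsWithin_le_nhds
      refine tendsto_finsetSum _ fun i _ => ?_
      have h5 : ‖1 - β p i * ((((p : ℕ) : ℝ) ^ (-(1 + (0 : ℝ))) : ℝ) : ℂ)‖ ≠ 0 := by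
        have h1 := bx_le hβ (ε := 0) le_rfl p i
        have h2 := xp_le p (ε := 0) le_rfl
        have h3 := inv_half p
        have h4 := norm_sub_norm_le (1 : ℂ) (β p i * ((((p : ℕ) : ℝ) ^ (-(1 + (0 : ℝ))) : ℝ) : ℂ))
        rw [norm_one] at h4
        have h5 := h1.trans (h2.trans h3)
        have h6 : (1 : ℝ) - 1 / 2 ≤ 1 - ‖β p i * ((((p : ℕ) : ℝ) ^ (-(1 + (0 : ℝ))) : ℝ) : ℂ)‖ := sub_le_sub_left h5 1
        have h7 := h6.trans h4
        intro h8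
        rw [h8] at h7
        norm_num at h7
      have h6 := (((Complex.continuous_ofReal.tendsto _).comp h3).const_mul (β p i)).const_sub 1
      exact (h6.norm.log h5).neg.sub (h3.const_mul _)
    · filter_upwards [self_mem_nhdsWithin] with ε hε p
      exact hρb ε (le_of_lt hε) p
  have hlogF : ∀ ε : ℝ, 0 < ε → Real.log ‖F (1 + ε)‖ =
      ∑' p : Nat.Primes, (∑ i, (β p i).re) * ((p : ℕ) : ℝ) ^ (-(1 + ε)) + ∑' p, ρ ε p := by
    intro ε hε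
    rw [log_F hβ hF hε, Real.log_exp, ← (hs1 ε hε).tsum_add (hρs ε hε.le)]
    refine tsum_congr fun p => ?_
    rw [hρ]
    simp only
    rw [Finset.sum_sub_distrib, Finset.sum_mul]
    ring
  have hne : meromorphicOrderAt F 1 ≠ ⊤ := by
    intro htop
    rw [meromorphicOrderAt_eq_top_iff] at htop
    have h1 := (hpath.eventually htop).and self_mem_nhdsWithin
    obtain ⟨ε, h2, h3⟩ := h1.exists
    have h4 := log_F hβ hF (ε := ε) h3
    rw [h2, norm_zero] at h4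
    exact absurd h4 (Real.exp_pos _).ne
  obtain ⟨n, hn⟩ := WithTop.ne_top_iff_exists.1 hne
  obtain ⟨g, hg, hg0, hgF⟩ := (meromorphicOrderAt_eq_int_iff hm).1 hn.symm
  have h1 : Tendsto (fun ε : ℝ => ‖g (1 + ε)‖) (𝓝[>] 0) (𝓝 ‖g 1‖) :=
    (hg.continuousAt.tendsto.comp (hpath.mono_right nhdsWithin_le_nhds)).norm
  have h2 := h1.log (norm_ne_zero_iff.2 hg0)
  have h3 : Tendsto (fun ε : ℝ => Real.log ‖F (1 + ε)‖ - n * Real.log ε) (𝓝[>] 0) (𝓝 (Real.log ‖g 1‖)) := by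
    refine h2.congr' ?_
    filter_upwards [hpath.eventually hgF, self_mem_nhdsWithin, h1.eventually_ne (norm_ne_zero_iff.2 hg0)] with ε h4 h5 h6
    have hε : (0 : ℝ) < ε := h5
    have e1 : (1 + ε : ℂ) - 1 = (ε : ℂ) := by ring
    rw [h4, smul_eq_mul, norm_mul, e1, norm_zpow, Complex.norm_real, Real.norm_eq_abs, abs_of_pos hε,
      Real.log_mul (zpow_pos hε n).ne' h6, Real.log_zpow]
    ring
  refine ⟨n, Real.log ‖g 1‖ - ∑' p, ρ 0 p, hn.symm, hs1, ?_⟩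
  refine (h3.sub hρlim).congr' ?_
  filter_upwards [self_mem_nhdsWithin] with ε hε
  rw [hlogF ε hε]
  ring

end

/-! ### the asymptotics of the weighted sums -/

section

variable {r : ℕ} {α : Nat.Primes → Fin r → ℂ}

/-- the mean -/
noncomputable def kapU (α : Nat.Primes → Fin r → ℂ) (p : Nat.Primes) : ℝ := -((∑ i, (α p i ^ 2).re) / 2)

/-- the variance -/
noncomputable def nuU (α : Nat.Primes → Fin r → ℂ) (p : Nat.Primes) : ℝ := (∑ i, (α p i).re) ^ 2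

theorem kapU_bd (hα : ∀ p i, ‖α p i‖ ≤ 1) (p : Nat.Primes) : |kapU α p| ≤ r / 2 := by
  unfold kapU
  rw [abs_neg, abs_div, abs_of_pos (by norm_num : (0 : ℝ) < 2)]
  gcongr
  refine (Finset.abs_sum_le_sum_abs _ _).trans ?_
  calc _ ≤ ∑ _i : Fin r, (1 : ℝ) := Finset.sum_le_sum fun i _ => (Complex.abs_re_le_norm _).trans (by
          rw [norm_pow]
          exact pow_le_one₀ (norm_nonneg _) (hα p i))
    _ = _ := by rw [Finset.sum_const, Finset.card_univ, Fintype.card_fin, nsmul_eq_mul, mul_one]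

theorem lamU_bd (hα : ∀ p i, ‖α p i‖ ≤ 1) (p : Nat.Primes) : |∑ i, (α p i).re| ≤ r := by
  refine (Finset.abs_sum_le_sum_abs _ _).trans ?_
  calc _ ≤ ∑ _i : Fin r, (1 : ℝ) := Finset.sum_le_sum fun i _ => (Complex.abs_re_le_norm _).trans (hα p i)
    _ = _ := by rw [Finset.sum_const, Finset.card_univ, Fintype.card_fin, nsmul_eq_mul, mul_one]

theorem nuU_bd (hα : ∀ p i, ‖α p i‖ ≤ 1) (p : Nat.Primes) : |nuU α p| ≤ r ^ 2 := by
  unfold nuU
  rw [abs_pow]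
  exact pow_le_pow_left₀ (abs_nonneg _) (lamU_bd hα p) 2

/-- **the asymptotics** -/
theorem as_of (hα : ∀ p i, ‖α p i‖ ≤ 1) {n : ℤ} {c : ℝ}
    (h2 : ∀ ε : ℝ, 0 < ε → Summable fun p : Nat.Primes => (∑ i, (α p i ^ 2).re) * ((p : ℕ) : ℝ) ^ (-(1 + ε)))
    (h3 : Tendsto (fun ε : ℝ => ∑' p : Nat.Primes, (∑ i, (α p i ^ 2).re) * ((p : ℕ) : ℝ) ^ (-(1 + ε)) - n * Real.log ε)
      (𝓝[>] 0) (𝓝 c)) {ν C₁ : ℝ} (W : Wts (fun p : Nat.Primes => ((p : ℕ) : ℝ)) (nuU α) ν C₁) (γ : ℝ) :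
    ∃ c₁ c₂ : ℝ, As (fun p : Nat.Primes => ((p : ℕ) : ℝ)) (kapU α) (nuU α) γ (n / 2) ν c₁ c₂ := by
  obtain ⟨C₀, W1⟩ := wts_one
  have hq2 : ∀ p : Nat.Primes, (2 : ℝ) ≤ ((p : ℕ) : ℝ) := fun p => by exact_mod_cast p.2.two_le
  have Wκ : Wts (fun p : Nat.Primes => ((p : ℕ) : ℝ)) (fun p => kapU α p + r / 2) (n / 2 + r / 2)
      (-(1 / 2) * c + r / 2 * C₀) := by
    refine ⟨hq2, fun p => ?_, fun ε hε => ?_, ?_⟩
    · have := neg_le_of_abs_le (kapU_bd hα p)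
      linarith
    · refine (((h2 ε hε).mul_left (-(1 / 2))).add ((W1.sum ε hε).mul_left (r / 2 : ℝ))).congr fun p => ?_
      unfold kapU
      ring
    · refine ((h3.const_mul (-(1 / 2))).add (W1.lim.const_mul (r / 2 : ℝ))).congr' ?_
      filter_upwards [self_mem_nhdsWithin] with ε hε
      have e1 : ∑' p : Nat.Primes, (kapU α p + r / 2) * ((p : ℕ) : ℝ) ^ (-(1 + ε)) =
          -(1 / 2) * ∑' p : Nat.Primes, (∑ i, (α p i ^ 2).re) * ((p : ℕ) : ℝ) ^ (-(1 + ε)) +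
          r / 2 * ∑' p : Nat.Primes, 1 * ((p : ℕ) : ℝ) ^ (-(1 + ε)) := by
        rw [← tsum_mul_left, ← tsum_mul_left, ← ((h2 ε hε).mul_left _).tsum_add ((W1.sum ε hε).mul_left _)]
        refine tsum_congr fun p => ?_
        unfold kapU
        ring
      rw [e1]
      ring
  obtain ⟨a1, c1, b1⟩ := Wκ.one γ
  obtain ⟨a2, c2, b2⟩ := W1.one γ
  obtain ⟨a3, c3, b3⟩ := W.two γ
  refine ⟨c1 - r / 2 * c2, c3, fun T hT => ?_, ?_, a3, b3⟩
  · refine ((a1 T hT).sub ((a2 T hT).mul_left (r / 2 : ℝ))).congr fun p => ?_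
    ring
  · refine (b1.sub (b2.const_mul (r / 2 : ℝ))).congr' ?_
    filter_upwards [eventually_gt_atTop (0 : ℝ)] with T hT
    have e1 : ∑' p : Nat.Primes, kapU α p * (((p : ℕ) : ℝ))⁻¹ * wr γ (Real.log (p : ℕ) / T) =
        ∑' p : Nat.Primes, (kapU α p + r / 2) * (((p : ℕ) : ℝ))⁻¹ * wr γ (Real.log (p : ℕ) / T) -
        r / 2 * ∑' p : Nat.Primes, 1 * (((p : ℕ) : ℝ))⁻¹ * wr γ (Real.log (p : ℕ) / T) := by
      rw [← tsum_mul_left, ← (a1 T hT).tsum_sub ((a2 T hT).mul_left _)]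
      refine tsum_congr fun p => ?_
      ring
    rw [e1]
    ring

/-- self-dual systems -/
theorem nu_sd (hr : ∀ p, (∑ i, α p i).im = 0) {m : ℤ} {c : ℝ}
    (h2 : ∀ ε : ℝ, 0 < ε → Summable fun p : Nat.Primes =>
      (∑ x : Fin r × Fin r, (α p x.1 * α p x.2).re) * ((p : ℕ) : ℝ) ^ (-(1 + ε)))
    (h3 : Tendsto (fun ε : ℝ => ∑' p : Nat.Primes,
      (∑ x : Fin r × Fin r, (α p x.1 * α p x.2).re) * ((p : ℕ) : ℝ) ^ (-(1 + ε)) - m * Real.log ε)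
      (𝓝[>] 0) (𝓝 c)) : Wts (fun p : Nat.Primes => ((p : ℕ) : ℝ)) (nuU α) (-m) c := by
  have e1 : ∀ p, ∑ x : Fin r × Fin r, (α p x.1 * α p x.2).re = nuU α p := by
    intro p
    have h4 : ∑ x : Fin r × Fin r, (α p x.1 * α p x.2) = (∑ i, α p i) * ∑ i, α p i := by
      rw [Finset.sum_mul_sum, Fintype.sum_prod_type]
    have h5 := congrArg Complex.re h4
    rw [Complex.re_sum, Complex.mul_re, hr p, mul_zero, sub_zero, Complex.re_sum] at h5
    rw [h5]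
    unfold nuU
    ring
  refine ⟨fun p => by exact_mod_cast p.2.two_le, fun p => by unfold nuU; positivity, fun ε hε => ?_, ?_⟩
  · exact (h2 ε hε).congr fun p => by rw [e1]
  · refine h3.congr fun ε => ?_
    simp only [e1]
    ring

/-- systems of `PGL(2)` -/
theorem nu_pgl {α : Nat.Primes → Fin 2 → ℂ} (hα : ∀ p i, ‖α p i‖ ≤ 1) {N : ℕ} (hN : N ≠ 0)
    (hα0 : ∀ p : Nat.Primes, (p : ℕ) ∣ N → ∀ i, α p i = 0)
    (hα1 : ∀ p : Nat.Primes, ¬ (p : ℕ) ∣ N → α p 0 * α p 1 = 1) {n : ℤ} {c : ℝ}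
    (h2 : ∀ ε : ℝ, 0 < ε → Summable fun p : Nat.Primes => (∑ i, (α p i ^ 2).re) * ((p : ℕ) : ℝ) ^ (-(1 + ε)))
    (h3 : Tendsto (fun ε : ℝ => ∑' p : Nat.Primes, (∑ i, (α p i ^ 2).re) * ((p : ℕ) : ℝ) ^ (-(1 + ε)) - n * Real.log ε)
      (𝓝[>] 0) (𝓝 c)) : ∃ C₁ : ℝ, Wts (fun p : Nat.Primes => ((p : ℕ) : ℝ)) (nuU α) (2 - n) C₁ := by
  classical
  obtain ⟨C₀, W1⟩ := wts_one
  -- the numbers at a good prime
  have key : ∀ p : Nat.Primes, ¬ (p : ℕ) ∣ N → nuU α p = ∑ i, (α p i ^ 2).re + 2 := by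
    intro p hp
    have h4 := hα1 p hp
    have n0 := hα p 0
    have n1 := hα p 1
    have h5 : ‖α p 0‖ * ‖α p 1‖ = 1 := by rw [← norm_mul, h4, norm_one]
    have m0 : ‖α p 0‖ = 1 := by
      have := norm_nonneg (α p 0)
      have := norm_nonneg (α p 1)
      nlinarith
    have h6 : α p 1 = (starRingEnd ℂ) (α p 0) := by
      have h7 : α p 0 * (starRingEnd ℂ) (α p 0) = 1 := by
        rw [Complex.mul_conj, Complex.normSq_eq_norm_sq, m0]
        norm_num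
      have h8 : α p 0 ≠ 0 := by
        intro h
        rw [h, zero_mul] at h4
        exact zero_ne_one h4
      exact mul_left_cancel₀ h8 (h4.trans h7.symm)
    have h9 : (α p 0).re ^ 2 + (α p 0).im ^ 2 = 1 := by
      have := Complex.normSq_eq_norm_sq (α p 0)
      rw [m0, Complex.normSq_apply] at this
      linarith
    unfold nuU
    rw [Fin.sum_univ_two, Fin.sum_univ_two, h6, Complex.conj_re, pow_two (α p 0), pow_two ((starRingEnd ℂ) (α p 0)),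
      Complex.mul_re, Complex.mul_re, Complex.conj_re, Complex.conj_im]
    linear_combination (-2 : ℝ) * (-h9)
  have hbad : ∀ p : Nat.Primes, (p : ℕ) ∣ N → nuU α p = 0 ∧ ∑ i, (α p i ^ 2).re = 0 := by
    intro p hp
    have h4 := hα0 p hp
    constructor
    · unfold nuU
      simp [h4]
    · simp [h4]
  have hall : ∀ p : Nat.Primes, nuU α p = ∑ i, (α p i ^ 2).re + 2 - (if (p : ℕ) ∣ N then 2 else 0) := by
    intro p
    by_cases hp : (p : ℕ) ∣ N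
    · rw [if_pos hp, (hbad p hp).1, (hbad p hp).2]
      ring
    · rw [if_neg hp, key p hp, sub_zero]
  -- the bad primes
  set S : Finset ℕ := N.primeFactors with hS
  have hfin : {p : Nat.Primes | (p : ℕ) ∣ N}.Finite := by
    refine Set.Finite.of_finite_image (f := fun p : Nat.Primes => (p : ℕ)) ?_ (Subtype.val_injective.injOn)
    refine (Finset.finite_toSet S).subset ?_
    rintro _ ⟨p, hp, rfl⟩
    rw [hS]
    exact Nat.mem_primeFactors.2 ⟨p.2, hp, hN⟩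
  set I : Finset Nat.Primes := hfin.toFinset with hI
  have hb : ∀ ε : ℝ, HasSum (fun p : Nat.Primes => (if (p : ℕ) ∣ N then (2 : ℝ) else 0) * ((p : ℕ) : ℝ) ^ (-(1 + ε)))
      (∑ p ∈ I, 2 * ((p : ℕ) : ℝ) ^ (-(1 + ε))) := by
    intro ε
    have h4 : HasSum (fun p : Nat.Primes => (if (p : ℕ) ∣ N then (2 : ℝ) else 0) * ((p : ℕ) : ℝ) ^ (-(1 + ε)))
        (∑ p ∈ I, (if (p : ℕ) ∣ N then (2 : ℝ) else 0) * ((p : ℕ) : ℝ) ^ (-(1 + ε))) := by
      refine hasSum_sum_of_ne_finset_zero fun p hp => ?_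
      rw [hI, Set.Finite.mem_toFinset, Set.mem_setOf_eq] at hp
      rw [if_neg hp, zero_mul]
    have e1 : ∑ p ∈ I, (if (p : ℕ) ∣ N then (2 : ℝ) else 0) * ((p : ℕ) : ℝ) ^ (-(1 + ε)) =
        ∑ p ∈ I, 2 * ((p : ℕ) : ℝ) ^ (-(1 + ε)) := by
      refine Finset.sum_congr rfl fun p hp => ?_
      rw [hI, Set.Finite.mem_toFinset, Set.mem_setOf_eq] at hp
      rw [if_pos hp]
    rwa [e1] at h4
  have hblim : Tendsto (fun ε : ℝ => ∑ p ∈ I, 2 * ((p : ℕ) : ℝ) ^ (-(1 + ε))) (𝓝[>] 0)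
      (𝓝 (∑ p ∈ I, 2 * ((p : ℕ) : ℝ) ^ (-(1 + (0 : ℝ))))) := by
    refine tendsto_finsetSum _ fun p _ => ?_
    have hp0 : (0 : ℝ) < (p : ℕ) := by exact_mod_cast p.2.pos
    have h4 : ContinuousAt (fun ε : ℝ => 2 * ((p : ℕ) : ℝ) ^ (-(1 + ε))) 0 := by
      have : Continuous fun ε : ℝ => 2 * ((p : ℕ) : ℝ) ^ (-(1 + ε)) :=
        continuous_const.mul (Continuous.rpow continuous_const (by fun_prop) fun _ => Or.inl hp0.ne')
      exact this.continuousAt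
    exact h4.tendsto.mono_left nhdsWithin_le_nhds
  refine ⟨_, fun p => by exact_mod_cast p.2.two_le, fun p => by unfold nuU; positivity, fun ε hε => ?_,
    (((h3.add (W1.lim.const_mul 2)).sub hblim)).congr' ?_⟩
  · refine (((h2 ε hε).add ((W1.sum ε hε).mul_left 2)).sub (hb ε).summable).congr fun p => ?_
    rw [hall p]
    ring
  · filter_upwards [self_mem_nhdsWithin] with ε hε
    have e1 : ∑' p : Nat.Primes, nuU α p * ((p : ℕ) : ℝ) ^ (-(1 + ε)) =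
        ∑' p : Nat.Primes, (∑ i, (α p i ^ 2).re) * ((p : ℕ) : ℝ) ^ (-(1 + ε)) +
        2 * ∑' p : Nat.Primes, 1 * ((p : ℕ) : ℝ) ^ (-(1 + ε)) - ∑ p ∈ I, 2 * ((p : ℕ) : ℝ) ^ (-(1 + ε)) := by
      rw [← (hb ε).tsum_eq, ← tsum_mul_left, ← (h2 ε hε).tsum_add ((W1.sum ε hε).mul_left _),
        ← ((h2 ε hε).add ((W1.sum ε hε).mul_left _)).tsum_sub (hb ε).summable]
      refine tsum_congr fun p => ?_
      rw [hall p]
      ring
    rw [e1]
    ring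

end

end Pool.Agent.X278.AV
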