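import Pool.Agent.X278.AV.TwG
import Pool.Agent.X278.AV.Gold

/-!
# Quadratic twists as families with independent local functions
-/

set_option autoImplicit false

namespace Pool.Agent.X278.AV

open Finset Filter Topology
open Pool.Agent.X278.OP Pool.Agent.W189.ML

variable {r : ℕ} {α : Nat.Primes → Fin r → ℂ}

theorem log_bd3 {z : ℂ} (hz : ‖z‖ ≤ 3 / 4) : |Real.log ‖1 - z‖ + z.re| ≤ 10 * ‖z‖ ^ 2 := by
  have h0 := norm_nonneg z
  rcases le_or_gt ‖z‖ (1 / 2) with h | h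
  · refine (log_bd2 h).trans ?_
    nlinarith [sq_nonneg ‖z‖]
  · have h1 := log_bd hz
    have h2 := Complex.abs_re_le_norm z
    refine (abs_add_le _ _).trans ((add_le_add h1 h2).trans ?_)
    nlinarith

/-- the value at a sign -/
noncomputable def Gs (α : Nat.Primes → Fin r → ℂ) (p : Nat.Primes) (ε : ℂ) : ℝ :=
  ∑ i, Real.log ‖1 - (ε * α p i) / ((√((p : ℕ) : ℝ) : ℝ) : ℂ)‖

theorem gU_Gs (u : ℤ) (p : Nat.Primes) (x : ZMod p) :
    gU α u p x = Gs α p ((quadraticChar (ZMod p) ((u : ZMod p) * x) : ℤ) : ℂ) := rfl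

theorem Gs_bd (hα : ∀ p i, ‖α p i‖ ≤ 1) (p : Nat.Primes) {ε : ℂ} (hε : ‖ε‖ ≤ 1) :
    |Gs α p ε| ≤ (4 * r) / √((p : ℕ) : ℝ) :=
  lf_bd (β := fun p' i => ε * α p' i) (p := p) (fun i => by
    rw [norm_mul]
    exact mul_le_one₀ hε (norm_nonneg _) (hα p i))

/-- the first term of the value at a sign -/
theorem Gs_lin (hα : ∀ p i, ‖α p i‖ ≤ 1) (p : Nat.Primes) {ε : ℝ} (hε : |ε| ≤ 1) :
    |Gs α p ε + ε * (∑ i, (α p i).re) / √((p : ℕ) : ℝ)| ≤ (10 * r) / (p : ℕ) := by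
  have hp0 : (0 : ℝ) < (p : ℕ) := by exact_mod_cast p.2.pos
  have hr0 : 0 < √((p : ℕ) : ℝ) := Real.sqrt_pos.2 hp0
  have e1 : Gs α p ε + ε * (∑ i, (α p i).re) / √((p : ℕ) : ℝ) =
      ∑ i, (Real.log ‖1 - ((ε : ℂ) * α p i) / ((√((p : ℕ) : ℝ) : ℝ) : ℂ)‖ +
        (((ε : ℂ) * α p i) / ((√((p : ℕ) : ℝ) : ℝ) : ℂ)).re) := by
    unfold Gs
    rw [Finset.sum_add_distrib, Finset.mul_sum, Finset.sum_div]
    congr 1
    refine Finset.sum_congr rfl fun i _ => ?_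
    rw [Complex.div_ofReal_re, Complex.re_ofReal_mul]
  rw [e1]
  refine (Finset.abs_sum_le_sum_abs _ _).trans ?_
  calc _ ≤ ∑ _i : Fin r, 10 * (1 / ((p : ℕ) : ℝ)) := by
        refine Finset.sum_le_sum fun i _ => ?_
        have h1 : ‖(ε : ℂ) * α p i‖ ≤ 1 := by
          rw [norm_mul, Complex.norm_real]
          exact mul_le_one₀ hε (norm_nonneg _) (hα p i)
        have h2 := norm_div_sqrt h1 p
        refine (log_bd3 (h2.trans (sqrt_two_le p))).trans ?_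
        have h3 : ‖((ε : ℂ) * α p i) / ((√((p : ℕ) : ℝ) : ℝ) : ℂ)‖ ^ 2 ≤ (1 / √((p : ℕ) : ℝ)) ^ 2 :=
          pow_le_pow_left₀ (norm_nonneg _) h2 2
        rw [div_pow, one_pow, Real.sq_sqrt hp0.le] at h3
        gcongr
    _ = _ := by
        rw [Finset.sum_const, Finset.card_univ, Fintype.card_fin, nsmul_eq_mul]
        ring

/-- the square of the value at a sign -/
theorem Gs_sq (hα : ∀ p i, ‖α p i‖ ≤ 1) (p : Nat.Primes) {ε : ℝ} (hε : ε = 1 ∨ ε = -1) :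
    |Gs α p ε ^ 2 - nuU α p / (p : ℕ)| ≤ (50 * r ^ 2) / (√((p : ℕ) : ℝ) * (p : ℕ)) := by
  have hp0 : (0 : ℝ) < (p : ℕ) := by exact_mod_cast p.2.pos
  have hr0 : 0 < √((p : ℕ) : ℝ) := Real.sqrt_pos.2 hp0
  have hrp : √((p : ℕ) : ℝ) ^ 2 = (p : ℕ) := Real.sq_sqrt hp0.le
  have hε1 : |ε| ≤ 1 := by rcases hε with h | h <;> rw [h] <;> norm_num
  have hε2 : ε ^ 2 = 1 := by rcases hε with h | h <;> rw [h] <;> norm_num
  have h1 := Gs_lin hα p hε1
  have h2 := Gs_bd hα p (ε := (ε : ℂ)) (by rwa [Complex.norm_real])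
  have h3 : |ε * (∑ i, (α p i).re) / √((p : ℕ) : ℝ)| ≤ r / √((p : ℕ) : ℝ) := by
    rw [abs_div, abs_of_pos hr0, abs_mul]
    gcongr
    calc |ε| * |∑ i, (α p i).re| ≤ 1 * r := mul_le_mul hε1 (lamU_bd hα p) (abs_nonneg _) zero_le_one
      _ = r := one_mul _
  have e1 : Gs α p ε ^ 2 - nuU α p / (p : ℕ) = (Gs α p ε + ε * (∑ i, (α p i).re) / √((p : ℕ) : ℝ)) *
      (Gs α p ε - ε * (∑ i, (α p i).re) / √((p : ℕ) : ℝ)) := by
    unfold nuU
    have h4 : (ε * (∑ i, (α p i).re) / √((p : ℕ) : ℝ)) ^ 2 = (∑ i, (α p i).re) ^ 2 / (p : ℕ) := by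
      rw [div_pow, hrp, mul_pow, hε2, one_mul]
    rw [← h4]
    ring
  rw [e1, abs_mul]
  have h5 : |Gs α p ε - ε * (∑ i, (α p i).re) / √((p : ℕ) : ℝ)| ≤ (5 * r) / √((p : ℕ) : ℝ) := by
    refine (abs_sub _ _).trans ((add_le_add h2 h3).trans (le_of_eq ?_))
    ring
  calc _ ≤ (10 * r) / ((p : ℕ) : ℝ) * ((5 * r) / √((p : ℕ) : ℝ)) :=
        mul_le_mul h1 h5 (abs_nonneg _) (by positivity)
    _ = _ := by
      field_simp
      ring

theorem EuC_real (p : ℕ) [NeZero p] (g : ZMod p → ℝ) : EuC p (fun x => ((g x : ℝ) : ℂ)) = ((Eu p g : ℝ) : ℂ) := by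
  unfold EuC Eu
  push_cast
  rfl

/-- the expected value of a function of the value at a sign -/
theorem Eu_Gs {u : ℤ} (hu : u = 1 ∨ u = -1) {p : Nat.Primes} (hp : (p : ℕ) ≠ 2) (h : ℝ → ℝ) (h0 : h 0 = 0) :
    Eu (p : ℕ) (fun x => h (gU α u p x)) =
      (((p : ℕ) : ℝ) / (2 * (((p : ℕ) : ℝ) + 1))) * (h (Gs α p 1) + h (Gs α p (-1))) := by
  have hp2 : (2 : ℝ) ≤ (p : ℕ) := by exact_mod_cast p.2.two_le
  have hchar : ringChar (ZMod p) ≠ 2 := by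
    rw [ZMod.ringChar_zmod_n]
    exact hp
  have huu : IsUnit ((u : ℤ) : ZMod p) := by
    rcases hu with h | h <;> rw [h] <;> simp
  have hbij : ∑ x : ZMod p, h (gU α u p x) = ∑ x : ZMod p, h (Gs α p ((quadraticChar (ZMod p) x : ℤ) : ℂ)) := by
    simp only [gU_Gs]
    exact Fintype.sum_equiv (huu.unit.mulLeft) _ _ fun x => rfl
  have hG0 : Gs α p 0 = 0 := by
    unfold Gs
    simp
  have hsplit : ∀ x : ZMod p, h (Gs α p ((quadraticChar (ZMod p) x : ℤ) : ℂ)) =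
      (if x = 0 then 0 else (h (Gs α p 1) + h (Gs α p (-1))) / 2) +
      ((quadraticChar (ZMod p) x : ℤ) : ℝ) * ((h (Gs α p 1) - h (Gs α p (-1))) / 2) := by
    intro x
    by_cases hx : x = 0
    · rw [if_pos hx, hx, quadraticChar_zero]
      simp [hG0, h0]
    · rw [if_neg hx]
      rcases quadraticChar_dichotomy hx with h1 | h1 <;> rw [h1] <;> push_cast <;> ring
  have hsum0 : ∑ x : ZMod p, ((quadraticChar (ZMod p) x : ℤ) : ℝ) = 0 := by
    have := quadraticChar_sum_zero hchar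
    exact_mod_cast this
  have hsum : ∑ x : ZMod p, h (gU α u p x) = (((p : ℕ) : ℝ) - 1) * ((h (Gs α p 1) + h (Gs α p (-1))) / 2) := by
    rw [hbij]
    simp only [hsplit]
    rw [Finset.sum_add_distrib, ← Finset.sum_mul, hsum0, zero_mul, add_zero]
    have h1 : ∑ x : ZMod p, (if x = 0 then 0 else (h (Gs α p 1) + h (Gs α p (-1))) / 2) =
        ∑ x ∈ univ.erase (0 : ZMod p), (h (Gs α p 1) + h (Gs α p (-1))) / 2 := by
      rw [← Finset.add_sum_erase _ _ (mem_univ (0 : ZMod p)), if_pos rfl, zero_add]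
      exact Finset.sum_congr rfl fun x hx => if_neg (Finset.ne_of_mem_erase hx)
    rw [h1, Finset.sum_const, nsmul_eq_mul, Finset.card_erase_of_mem (mem_univ _), Finset.card_univ, ZMod.card,
      Nat.cast_sub p.2.one_le]
    push_cast
    rfl
  unfold Eu
  rw [hsum]
  have h1 : ((p : ℕ) : ℝ) ^ 2 - 1 ≠ 0 := by nlinarith
  have h2 : ((p : ℕ) : ℝ) - 1 ≠ 0 := by linarith
  have h3 : ((p : ℕ) : ℝ) + 1 ≠ 0 := by linarith
  have h4 : 1 - (((p : ℕ) : ℝ) ^ 2)⁻¹ = (((p : ℕ) : ℝ) - 1) * (((p : ℕ) : ℝ) + 1) / ((p : ℕ) : ℝ) ^ 2 := by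
    field_simp
    ring
  rw [h4]
  field_simp

theorem Eu_sq (hα : ∀ p i, ‖α p i‖ ≤ 1) {u : ℤ} (hu : u = 1 ∨ u = -1) {p : Nat.Primes} (hp : (p : ℕ) ≠ 2) :
    |Eu (p : ℕ) (fun x => gU α u p x ^ 2) - nuU α p / (p : ℕ)| ≤ (51 * r ^ 2) / (√((p : ℕ) : ℝ) * (p : ℕ)) := by
  have hp2 : (2 : ℝ) ≤ (p : ℕ) := by exact_mod_cast p.2.two_le
  have hp0 : (0 : ℝ) < (p : ℕ) := by linarith
  have hr0 : 0 < √((p : ℕ) : ℝ) := Real.sqrt_pos.2 hp0
  rw [Eu_Gs hu hp (fun y => y ^ 2) (by norm_num)]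
  have h1 := Gs_sq hα p (ε := 1) (Or.inl rfl)
  have h2 := Gs_sq hα p (ε := -1) (Or.inr rfl)
  rw [Complex.ofReal_one] at h1
  have e0 : ((-1 : ℝ) : ℂ) = -1 := by push_cast; rfl
  rw [e0] at h2
  set v : ℝ := nuU α p / (p : ℕ) with hv
  set Q : ℝ := (50 * r ^ 2) / (√((p : ℕ) : ℝ) * (p : ℕ)) with hQ
  have hvb : |v| ≤ r ^ 2 / (p : ℕ) := by
    rw [hv, abs_div, abs_of_pos hp0]
    gcongr
    exact nuU_bd hα p
  have h3 : ((p : ℕ) : ℝ) + 1 ≠ 0 := by linarith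
  have e1 : (((p : ℕ) : ℝ) / (2 * (((p : ℕ) : ℝ) + 1))) * (Gs α p 1 ^ 2 + Gs α p (-1) ^ 2) - v =
      (((p : ℕ) : ℝ) / (2 * (((p : ℕ) : ℝ) + 1))) * ((Gs α p 1 ^ 2 - v) + (Gs α p (-1) ^ 2 - v)) -
      v / (((p : ℕ) : ℝ) + 1) := by
    field_simp
    ring
  rw [e1]
  have a1 : |(((p : ℕ) : ℝ) / (2 * (((p : ℕ) : ℝ) + 1))) * ((Gs α p 1 ^ 2 - v) + (Gs α p (-1) ^ 2 - v))| ≤ Q := by
    rw [abs_mul, abs_of_pos (by positivity : (0 : ℝ) < ((p : ℕ) : ℝ) / (2 * (((p : ℕ) : ℝ) + 1)))]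
    have h4 : ((p : ℕ) : ℝ) / (2 * (((p : ℕ) : ℝ) + 1)) ≤ 1 / 2 := by
      rw [div_le_div_iff₀ (by positivity) (by norm_num)]
      linarith
    calc _ ≤ 1 / 2 * (Q + Q) := by
          gcongr
          exact (abs_add_le _ _).trans (add_le_add h1 h2)
      _ = Q := by ring
  have a2 : |v / (((p : ℕ) : ℝ) + 1)| ≤ r ^ 2 / (√((p : ℕ) : ℝ) * (p : ℕ)) := by
    rw [abs_div, abs_of_pos (by positivity : (0 : ℝ) < ((p : ℕ) : ℝ) + 1)]
    have h5 : √((p : ℕ) : ℝ) ≤ ((p : ℕ) : ℝ) + 1 := by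
      rw [Real.sqrt_le_left (by positivity)]
      nlinarith
    calc |v| / (((p : ℕ) : ℝ) + 1) ≤ (r ^ 2 / (p : ℕ)) / √((p : ℕ) : ℝ) := by gcongr
      _ = _ := by rw [div_div, mul_comm]
  refine (abs_sub _ _).trans ((add_le_add a1 a2).trans (le_of_eq ?_))
  rw [hQ]
  ring

open Classical in
/-- the expected values -/
noncomputable def EN (α : Nat.Primes → Fin r → ℂ) (u : ℤ) (N : ℕ) (p : Nat.Primes) (h : ℝ → ℂ) : ℂ :=
  if (p : ℕ) ∣ N then 0 else EuC (p : ℕ) (fun x => h (gU α u p x))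

open Classical in
/-- the local functions -/
noncomputable def fN (α : Nat.Primes → Fin r → ℂ) (u : ℤ) (N : ℕ) (p : Nat.Primes) (x : ZMod p) : ℝ :=
  if (p : ℕ) ∣ N then 0 else gU α u p x

theorem fN_bd (hα : ∀ p i, ‖α p i‖ ≤ 1) (u : ℤ) (N : ℕ) (p : Nat.Primes) (x : ZMod p) :
    |fN α u N p x| ≤ (4 * r) / √((p : ℕ) : ℝ) := by
  unfold fN
  split_ifs with h
  · rw [abs_zero]
    positivity
  · exact gU_bd hα u p x

theorem fN_zero (u : ℤ) (N : ℕ) (p : Nat.Primes) : fN α u N p 0 = 0 := by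
  unfold fN
  rw [gU_zero, ite_self]

/-- **the structure** -/
theorem FnG_tw (hα : ∀ p i, ‖α p i‖ ≤ 1) {N : ℕ} (hN2 : 2 ∣ N)
    (hα0 : ∀ p : Nat.Primes, (p : ℕ) ∣ N → ∀ i, α p i = 0) {u : ℤ} (hu : u = 1 ∨ u = -1) {ι : Type} {F : ℕ → Finset ι}
    (ρ : (p : Nat.Primes) → ι → ZMod p) (hne : ∀ᶠ X in atTop, (F X).Nonempty)
    (hfin : ∀ h : Nat.Primes → ℝ → ℂ, (∀ v, h v 0 = 0) → ∀ I : Finset Nat.Primes,
      Tendsto (fun X => meanC (F X) (fun i => ∏ p ∈ I, h p (fN α u N p (ρ p i)))) atTop (𝓝 (∏ p ∈ I, EN α u N p (h p)))) :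
    FnG F (fun p : Nat.Primes => ((p : ℕ) : ℝ)) (fun p i => fN α u N p (ρ p i)) (EN α u N) (4 * r) (r + r ^ 2)
      (4 * r + 51 * r ^ 2) (kapU α) (nuU α) where
  ne := hne
  B0 := by positivity
  K0 := by positivity
  C0 := by positivity
  q2 := fun p => by exact_mod_cast p.2.two_le
  sum := sum_32 (C := 1)
  size := fun p i => fN_bd hα u N p _
  fin := hfin
  kb := fun p => (kapU_bd hα p).trans (by
    have : (0 : ℝ) ≤ r := Nat.cast_nonneg r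
    nlinarith [sq_nonneg (r : ℝ)])
  nb := fun p => (nuU_bd hα p).trans (by
    have : (0 : ℝ) ≤ r := Nat.cast_nonneg r
    linarith)
  ex1 := fun p => by
    have hp0 : (0 : ℝ) < (p : ℕ) := by exact_mod_cast p.2.pos
    have hr0 : 0 < √((p : ℕ) : ℝ) := Real.sqrt_pos.2 hp0
    unfold EN
    by_cases h : (p : ℕ) ∣ N
    · rw [if_pos h]
      have : kapU α p = 0 := by
        unfold kapU
        simp [hα0 p h]
      rw [this]
      simp
      positivity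
    · rw [if_neg h, EuC_real, ← Complex.ofReal_sub, Complex.norm_real, Real.norm_eq_abs]
      have h1 := gU_mean hα hu (p := p) (fun e => h (by rw [e]; exact hN2))
      have e1 : kapU α p / (p : ℕ) = -gA α p := by
        unfold kapU gA
        rw [← Finset.sum_div]
        field_simp
      have e2 : Eu (p : ℕ) (fun x => gU α u p x) = Eu (p : ℕ) (gU α u p) := rfl
      rw [e1, e2, sub_neg_eq_add]
      refine h1.trans ?_
      gcongr
      have : (0 : ℝ) ≤ 51 * r ^ 2 := by positivity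
      linarith
  ex2 := fun p => by
    have hp0 : (0 : ℝ) < (p : ℕ) := by exact_mod_cast p.2.pos
    have hr0 : 0 < √((p : ℕ) : ℝ) := Real.sqrt_pos.2 hp0
    unfold EN
    by_cases h : (p : ℕ) ∣ N
    · rw [if_pos h]
      have : nuU α p = 0 := by
        unfold nuU
        simp [hα0 p h]
      rw [this]
      simp
      positivity
    · rw [if_neg h]
      have e0 : (fun x => ((gU α u p x : ℝ) : ℂ) ^ 2) = fun x => ((gU α u p x ^ 2 : ℝ) : ℂ) := by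
        funext x
        push_cast
        rfl
      rw [e0, EuC_real, ← Complex.ofReal_sub, Complex.norm_real, Real.norm_eq_abs]
      refine (Eu_sq hα hu (p := p) (fun e => h (by rw [e]; exact hN2))).trans ?_
      gcongr
      have : (0 : ℝ) ≤ 4 * r := by positivity
      linarith

/-- **the squarefree numbers in a class** -/
theorem FnG_SF (hα : ∀ p i, ‖α p i‖ ≤ 1) {N : ℕ} [NeZero N] (hN2 : 2 ∣ N)
    (hα0 : ∀ p : Nat.Primes, (p : ℕ) ∣ N → ∀ i, α p i = 0) {u : ℤ} (hu : u = 1 ∨ u = -1) {b : ZMod N} (hb : IsUnit b) :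
    FnG (fun X => SF N b X) (fun p : Nat.Primes => ((p : ℕ) : ℝ)) (fun p (d : ℕ) => fN α u N p ((d : ℕ) : ZMod p))
      (EN α u N) (4 * r) (r + r ^ 2) (4 * r + 51 * r ^ 2) (kapU α) (nuU α) := by
  classical
  refine FnG_tw hα hN2 hα0 hu (fun p (d : ℕ) => ((d : ℕ) : ZMod p)) (SF_ne hb) fun h h0 I => ?_
  by_cases hI : ∃ p ∈ I, (p : ℕ) ∣ N
  · obtain ⟨p, hp, hpN⟩ := hI
    have e0 : (∏ p ∈ I, EN α u N p (h p)) = 0 := Finset.prod_eq_zero hp (by unfold EN; rw [if_pos hpN])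
    rw [e0]
    have e1 : ∀ d : ℕ, (∏ p ∈ I, h p (fN α u N p ((d : ℕ) : ZMod p))) = 0 := fun d =>
      Finset.prod_eq_zero hp (by unfold fN; rw [if_pos hpN, h0])
    simp only [e1]
    unfold meanC
    simp
  · push Not at hI
    obtain ⟨P, hP, G, k1, k2, k3, k4, k5⟩ := SF_many (fun p x => h p (gU α u p x)) (fun p => by
      simp only [gU_zero, h0]) I hI
    have h3 := SF_sumC k1 hb G k3
    rw [k5] at h3
    have e1 : (∏ p ∈ I, EN α u N p (h p)) = ∏ p ∈ I, EuC (p : ℕ) (fun x => h p (gU α u p x)) :=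
      Finset.prod_congr rfl fun p hp => by unfold EN; rw [if_neg (hI p hp)]
    rw [e1]
    refine h3.congr fun X => ?_
    unfold meanC
    congr 1
    refine Finset.sum_congr rfl fun d _ => ?_
    refine (k4 d).trans (Finset.prod_congr rfl fun p hp => ?_)
    unfold fN
    rw [if_neg (hI p hp)]

theorem ExC_EN (u : ℤ) (N : ℕ) (p : Nat.Primes) {h : ℝ → ℂ} (h0 : h 0 = 0) :
    ExC (∑ j, eG j) (p : ℕ) (fun r : Fin 1 → ZMod p => h (fN α u N p (r 0))) = EN α u N p h := by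
  classical
  have h10 : ∑ j, eG j = 2 := by simp [eG]
  rw [h10]
  unfold ExC EN fN
  by_cases hp : (p : ℕ) ∣ N
  · simp [hp, h0]
  · simp only [if_neg hp]
    unfold EuC
    rw [pow_one]
    congr 2
    exact Fintype.sum_equiv (Equiv.funUnique (Fin 1) (ZMod p)) _ _ fun r => rfl

/-- **all squarefree numbers of both signs** -/
theorem FnG_fam (hα : ∀ p i, ‖α p i‖ ≤ 1) {N : ℕ} (hN2 : 2 ∣ N)
    (hα0 : ∀ p : Nat.Primes, (p : ℕ) ∣ N → ∀ i, α p i = 0) :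
    FnG (fun X => Fam eG ZG (aG X)) (fun p : Nat.Primes => ((p : ℕ) : ℝ))
      (fun p (x : Fin 1 → ℤ) => fN α 1 N p ((x 0 : ℤ) : ZMod p))
      (EN α 1 N) (4 * r) (r + r ^ 2) (4 * r + 51 * r ^ 2) (kapU α) (nuU α) := by
  classical
  refine FnG_tw hα hN2 hα0 (Or.inl rfl) (fun p (x : Fin 1 → ℤ) => ((x 0 : ℤ) : ZMod p)) (fam_ne dataG) fun h h0 I => ?_
  obtain ⟨P, hP, G, k2, k3, k4, k5⟩ := Fam_many eG dataG.he (∑ j, eG j)
    (fun p r => h p (fN α 1 N p (r 0))) (fun p => by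
      have : fN α 1 N p ((0 : Fin 1 → ZMod p) 0) = 0 := fN_zero 1 N p
      simp only [this, h0]) I
  have h3 := mean_limC dataG G k3
  rw [k5] at h3
  have e1 : (∏ p ∈ I, EN α 1 N p (h p)) = ∏ p ∈ I, ExC (∑ j, eG j) (p : ℕ) (fun r : Fin 1 → ZMod p =>
      h p (fN α 1 N p (r 0))) := Finset.prod_congr rfl fun p _ => (ExC_EN 1 N p (h0 p)).symm
  rw [e1]
  refine h3.congr fun X => ?_
  unfold meanC
  congr 1
  exact Finset.sum_congr rfl fun x _ => k4 x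

end Pool.Agent.X278.AV
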