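import Pool.Agent.X278.AV.Art2
import Pool.Agent.X278.AV.Prog2

/-!
# Systems of numbers of absolute value at most one: growth at `1/2`, twists by quadratic characters
-/

set_option autoImplicit false

namespace Pool.Agent.X278.AV

open Filter Topology Asymptotics Finset ComplexConjugate
open Pool.Agent.W189.ML Pool.Agent.X287.CR Pool.Agent.X278.OP
open Pool.Agent.W187.UR (Lam)

variable {r : ℕ}

theorem log_bd {z : ℂ} (hz : ‖z‖ ≤ 3 / 4) : |Real.log ‖1 - z‖| ≤ 4 * ‖z‖ := by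
  have h0 := norm_nonneg z
  have h1 : 1 - ‖z‖ ≤ ‖1 - z‖ := by
    have := norm_sub_norm_le (1 : ℂ) z
    rwa [norm_one] at this
  have h2 : ‖1 - z‖ ≤ 1 + ‖z‖ := by
    have := norm_sub_le (1 : ℂ) z
    rwa [norm_one] at this
  have h3 : 0 < 1 - ‖z‖ := by linarith
  have h4 : 0 < ‖1 - z‖ := by linarith
  rw [abs_le]
  constructor
  · have h5 := Real.one_sub_inv_le_log_of_pos h3
    have h6 := Real.log_le_log h3 h1
    have h7 : -(4 * ‖z‖) ≤ 1 - (1 - ‖z‖)⁻¹ := by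
      have h8 : (1 - ‖z‖)⁻¹ ≤ 1 + 4 * ‖z‖ := by
        rw [inv_le_comm₀ h3 (by linarith), inv_le_iff_one_le_mul₀ (by linarith)]
        nlinarith
      linarith
    linarith
  · have h5 := Real.log_le_sub_one_of_pos h4
    linarith

theorem log_bd2 {z : ℂ} (hz : ‖z‖ ≤ 1 / 2) : |Real.log ‖1 - z‖ + z.re| ≤ ‖z‖ ^ 2 := by
  have h0 := norm_nonneg z
  have h1 := Complex.norm_log_one_add_sub_self_le (z := -z) (by rw [norm_neg]; linarith)
  rw [norm_neg, ← sub_eq_add_neg, sub_neg_eq_add] at h1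
  have h2 : Real.log ‖1 - z‖ + z.re = (Complex.log (1 - z) + z).re := by
    rw [Complex.add_re, Complex.log_re]
  rw [h2]
  refine (Complex.abs_re_le_norm _).trans (h1.trans ?_)
  have h3 : (1 - ‖z‖)⁻¹ ≤ 2 := by
    rw [inv_le_comm₀ (by linarith) (by norm_num)]
    linarith
  nlinarith [sq_nonneg ‖z‖]

/-- the logarithm of the absolute value of the inverse Euler factor at `1/2` -/
noncomputable def lf (β : Nat.Primes → Fin r → ℂ) (p : Nat.Primes) : ℝ :=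
  ∑ i, Real.log ‖1 - β p i / ((√((p : ℕ) : ℝ) : ℝ) : ℂ)‖

theorem sqrt_two_le (p : Nat.Primes) : 1 / √((p : ℕ) : ℝ) ≤ 3 / 4 := by
  have hp2 : (2 : ℝ) ≤ (p : ℕ) := by exact_mod_cast p.2.two_le
  have h2 : (4 / 3 : ℝ) ≤ √((p : ℕ) : ℝ) := by
    apply Real.le_sqrt_of_sq_le
    norm_num
    linarith
  calc 1 / √((p : ℕ) : ℝ) ≤ 1 / (4 / 3) := one_div_le_one_div_of_le (by norm_num) h2
    _ = 3 / 4 := by norm_num

theorem norm_div_sqrt {z : ℂ} (hz : ‖z‖ ≤ 1) (p : Nat.Primes) :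
    ‖z / ((√((p : ℕ) : ℝ) : ℝ) : ℂ)‖ ≤ 1 / √((p : ℕ) : ℝ) := by
  have hp0 : (0 : ℝ) < (p : ℕ) := by exact_mod_cast p.2.pos
  have h1 : 0 < √((p : ℕ) : ℝ) := Real.sqrt_pos.2 hp0
  rw [norm_div, Complex.norm_real, Real.norm_eq_abs, abs_of_pos h1]
  gcongr

theorem lf_bd {β : Nat.Primes → Fin r → ℂ} {p : Nat.Primes} (hβ : ∀ i, ‖β p i‖ ≤ 1) :
    |lf β p| ≤ (4 * r) / √((p : ℕ) : ℝ) := by
  unfold lf
  refine (Finset.abs_sum_le_sum_abs _ _).trans ?_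
  calc ∑ i, |Real.log ‖1 - β p i / ((√((p : ℕ) : ℝ) : ℝ) : ℂ)‖| ≤ ∑ _i : Fin r, 4 * (1 / √((p : ℕ) : ℝ)) := by
        refine Finset.sum_le_sum fun i _ => ?_
        have h1 := norm_div_sqrt (hβ i) p
        exact (log_bd (h1.trans (sqrt_two_le p))).trans (by gcongr)
    _ = _ := by
        rw [Finset.sum_const, Finset.card_univ, Fintype.card_fin, nsmul_eq_mul]
        ring

theorem uni_sys {β : Nat.Primes → Fin r → ℂ} (hβ : ∀ p i, ‖β p i‖ ≤ 1) : CSys 0 pq β :=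
  q_csys _ fun p i => by
    rw [Real.rpow_zero]
    exact hβ p i

theorem lg_uni {β : Nat.Primes → Fin r → ℂ} (hβ : ∀ p i, ‖β p i‖ ≤ 1) (p : Nat.Primes) :
    (-lg pq β ((1 / 2 : ℝ) : ℂ) p).re = lf β p := by
  have hp0 : (0 : ℝ) < (p : ℕ) := by exact_mod_cast p.2.pos
  have h1 : 0 < √((p : ℕ) : ℝ) := Real.sqrt_pos.2 hp0
  have hx : Complex.exp (-(((1 / 2 : ℝ) : ℂ) * Real.log (pq p))) = (((√((p : ℕ) : ℝ) : ℝ) : ℂ))⁻¹ := by
    have e0 : (pq p : ℕ) = (p : ℕ) := rfl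
    rw [Complex.exp_neg, e0, ← Complex.ofReal_mul, ← Complex.ofReal_exp]
    congr 2
    rw [Real.sqrt_eq_rpow, Real.rpow_def_of_pos hp0]
    congr 1
    ring
  have hlt : ∀ i, ‖β p i * Complex.exp (-(((1 / 2 : ℝ) : ℂ) * Real.log (pq p)))‖ < 1 := by
    intro i
    rw [hx, ← div_eq_mul_inv]
    exact ((norm_div_sqrt (hβ p i) p).trans (sqrt_two_le p)).trans_lt (by norm_num)
  rw [lg_eq (uni_sys hβ) hlt, neg_neg, Complex.re_sum]
  unfold lf
  refine Finset.sum_congr rfl fun i _ => ?_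
  rw [Complex.log_re, hx, ← div_eq_mul_inv]

/-- **the growth at `1/2`** -/
theorem uni_growth {β : Nat.Primes → Fin r → ℂ} (hβ : ∀ p i, ‖β p i‖ ≤ 1) {F : ℂ → ℂ}
    (hF : ∀ s : ℂ, 1 < s.re → HasProd (Pool.Agent.X287.CR.fac pq β s) (F s))
    (hm : ∀ x : ℝ, 1 / 2 ≤ x → x ≤ 1 → MeromorphicAt F (x : ℂ)) {γ : ℝ} (hγ : Real.pi / 2 < γ) :
    ∃ m : ℤ, meromorphicOrderAt F ((1 / 2 : ℝ) : ℂ) = m ∧
      Gr (fun T => ∑' p : Nat.Primes, ((lf β p : ℝ) : ℂ) * Wt γ (Real.log (p : ℕ) / T)) m := by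
  have G := uni_sys hβ
  have hs1 : (0 : ℝ) + 1 / 2 ≤ ((1 / 2 : ℝ) : ℂ).re := by
    rw [Complex.ofReal_re]
    norm_num
  have key : ∀ {β : Nat.Primes → Fin r → ℂ} (G : CSys 0 pq β) {L : ℂ → ℂ}
      (hL : ∀ s : ℂ, 1 < s.re → HasProd (Pool.Agent.X287.CR.fac pq β s) (L s))
      (hLm : ∀ x : ℝ, 1 / 2 ≤ x → x ≤ 1 → MeromorphicAt L (x : ℂ)),
      ∃ m : ℤ, meromorphicOrderAt L ((1 / 2 : ℝ) : ℂ) = m ∧ Gr (Sp pq β ((1 / 2 : ℝ) : ℂ) γ) m := by
    intro β G L hL hLm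
    obtain ⟨m, ρ, h1, -, h3⟩ := G.law (L := L) (fun s hs => hL s (by linarith)) (s₀ := ((1 / 2 : ℝ) : ℂ))
      (by rw [Complex.ofReal_re]; norm_num)
      (fun x hx0 hx1 => by
        rw [Complex.ofReal_re] at hx1
        have h4 := hLm (1 / 2 + x) (by linarith) (by linarith)
        rw [Complex.ofReal_add] at h4
        exact h4) hγ
    exact ⟨m, h1, law_bdd G hs1 γ q_log_sum h3⟩
  obtain ⟨m, k1, B₁, h1⟩ := key G hF hm
  obtain ⟨m', k1', B₂, h1'⟩ := key (cj_sys G) (L := Fs F) (fun s hs => hasProd_cj hF s hs)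
    (fun x hx1 hx2 => (mero_Fs (hm x hx1 hx2)).1)
  have hmm : m' = m := by
    have h0 := hm (1 / 2) le_rfl (by norm_num)
    have h3 := (mero_Fs h0).2 m k1
    rw [k1'] at h3
    exact_mod_cast h3
  subst hmm
  refine ⟨m', k1, (B₁ + B₂) / 2, ?_⟩
  filter_upwards [h1, h1', eventually_gt_atTop (0 : ℝ)] with T a1 a2 hT
  have s1 := (Sp_summable G hs1 γ hT).of_norm
  have s2 := (Sp_summable (cj_sys G) hs1 γ hT).of_norm
  have e1 : ∑' p : Nat.Primes, ((lf β p : ℝ) : ℂ) * Wt γ (Real.log (p : ℕ) / T) =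
      (1 / 2) * Sp pq β ((1 / 2 : ℝ) : ℂ) γ T + (1 / 2) * Sp pq (cj β) ((1 / 2 : ℝ) : ℂ) γ T := by
    unfold Sp
    rw [← tsum_mul_left, ← tsum_mul_left, ← (s1.mul_left _).tsum_add (s2.mul_left _)]
    refine tsum_congr fun p => ?_
    have e2 : lg pq (cj β) ((1 / 2 : ℝ) : ℂ) p = conj (lg pq β ((1 / 2 : ℝ) : ℂ) p) := lg_cj (q := pq) (α := β) (1 / 2) p
    have e3 : Real.log (pq p) = Real.log (p : ℕ) := rfl
    rw [e2, ← lg_uni hβ p, re_eq, map_neg, e3]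
    ring
  have e2 : ∑' p : Nat.Primes, ((lf β p : ℝ) : ℂ) * Wt γ (Real.log (p : ℕ) / T) - m' * Real.log T =
      (1 / 2) * (Sp pq β ((1 / 2 : ℝ) : ℂ) γ T - m' * Real.log T) +
      (1 / 2) * (Sp pq (cj β) ((1 / 2 : ℝ) : ℂ) γ T - m' * Real.log T) := by
    rw [e1]
    ring
  rw [e2]
  refine (norm_add_le _ _).trans ?_
  rw [norm_mul, norm_mul]
  have e3 : ‖(1 / 2 : ℂ)‖ = 1 / 2 := by norm_num
  rw [e3]
  linarith

/-! ### the means over quadratic twists -/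

/-- the twisted local function -/
noncomputable def gU (α : Nat.Primes → Fin r → ℂ) (u : ℤ) (p : Nat.Primes) (x : ZMod p) : ℝ :=
  ∑ i, Real.log ‖1 - (((quadraticChar (ZMod p) ((u : ZMod p) * x) : ℤ) : ℂ) * α p i) / ((√((p : ℕ) : ℝ) : ℝ) : ℂ)‖

theorem gU_zero (α : Nat.Primes → Fin r → ℂ) (u : ℤ) (p : Nat.Primes) : gU α u p 0 = 0 := by
  unfold gU
  simp

theorem qc_norm (p : Nat.Primes) (x : ZMod p) : ‖((quadraticChar (ZMod p) x : ℤ) : ℂ)‖ ≤ 1 := by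
  by_cases h : x = 0
  · rw [h, quadraticChar_zero]
    simp
  · rcases quadraticChar_dichotomy h with h1 | h1 <;> rw [h1] <;> simp

theorem gU_bd {α : Nat.Primes → Fin r → ℂ} (hα : ∀ p i, ‖α p i‖ ≤ 1) (u : ℤ) (p : Nat.Primes) (x : ZMod p) :
    |gU α u p x| ≤ (4 * r) / √((p : ℕ) : ℝ) := by
  have h1 := lf_bd (β := fun p' i => ((quadraticChar (ZMod p) ((u : ZMod p) * x) : ℤ) : ℂ) * α p' i) (p := p)
    (fun i => by
      rw [norm_mul]
      exact mul_le_one₀ (qc_norm p _) (norm_nonneg _) (hα p i))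
  exact h1

/-- the mean of the twisted local function -/
theorem gU_mean {α : Nat.Primes → Fin r → ℂ} (hα : ∀ p i, ‖α p i‖ ≤ 1) {u : ℤ} (hu : u = 1 ∨ u = -1)
    {p : Nat.Primes} (hp : (p : ℕ) ≠ 2) :
    |Eu (p : ℕ) (gU α u p) + gA α p| ≤ (4 * r) / (√((p : ℕ) : ℝ) * (p : ℕ)) := by
  have hp2 : (2 : ℝ) ≤ (p : ℕ) := by exact_mod_cast p.2.two_le
  have hp0 : (0 : ℝ) < (p : ℕ) := by linarith
  have hr0 : 0 < √((p : ℕ) : ℝ) := Real.sqrt_pos.2 hp0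
  set R : ℝ := √((p : ℕ) : ℝ) with hR
  have hR2 : R ^ 2 = (p : ℕ) := Real.sq_sqrt hp0.le
  have hR2c : ((R : ℝ) : ℂ) ^ 2 = ((p : ℕ) : ℂ) := by
    rw [← Complex.ofReal_pow, hR2]
    push_cast
    rfl
  have hRc : ((R : ℝ) : ℂ) ≠ 0 := by exact_mod_cast hr0.ne'
  -- the two values
  set G : ℂ → ℝ := fun ε => ∑ i, Real.log ‖1 - (ε * α p i) / ((R : ℝ) : ℂ)‖ with hG
  have hg : ∀ x : ZMod p, gU α u p x = G ((quadraticChar (ZMod p) ((u : ZMod p) * x) : ℤ) : ℂ) := fun x => rfl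
  have hchar : ringChar (ZMod p) ≠ 2 := by
    rw [ZMod.ringChar_zmod_n]
    exact hp
  have huu : IsUnit ((u : ℤ) : ZMod p) := by
    rcases hu with h | h <;> rw [h] <;> simp
  have hbij : ∑ x : ZMod p, gU α u p x = ∑ x : ZMod p, G ((quadraticChar (ZMod p) x : ℤ) : ℂ) := by
    simp only [hg]
    exact Fintype.sum_equiv (huu.unit.mulLeft) _ _ fun x => rfl
  have hG0 : G 0 = 0 := by
    rw [hG]
    simp
  have hsplit : ∀ x : ZMod p, G ((quadraticChar (ZMod p) x : ℤ) : ℂ) =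
      (if x = 0 then 0 else (G 1 + G (-1)) / 2) + ((quadraticChar (ZMod p) x : ℤ) : ℝ) * ((G 1 - G (-1)) / 2) := by
    intro x
    by_cases h : x = 0
    · rw [if_pos h, h, quadraticChar_zero]
      simp [hG0]
    · rw [if_neg h]
      rcases quadraticChar_dichotomy h with h1 | h1 <;> rw [h1] <;> push_cast <;> ring
  have hsum0 : ∑ x : ZMod p, ((quadraticChar (ZMod p) x : ℤ) : ℝ) = 0 := by
    have := quadraticChar_sum_zero hchar
    exact_mod_cast this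
  have hsum : ∑ x : ZMod p, gU α u p x = (((p : ℕ) : ℝ) - 1) * ((G 1 + G (-1)) / 2) := by
    rw [hbij]
    simp only [hsplit]
    rw [Finset.sum_add_distrib, ← Finset.sum_mul, hsum0, zero_mul, add_zero]
    have h1 : ∑ x : ZMod p, (if x = 0 then 0 else (G 1 + G (-1)) / 2) =
        ∑ x ∈ univ.erase (0 : ZMod p), (G 1 + G (-1)) / 2 := by
      rw [← Finset.add_sum_erase _ _ (mem_univ (0 : ZMod p)), if_pos rfl, zero_add]
      exact Finset.sum_congr rfl fun x hx => if_neg (Finset.ne_of_mem_erase hx)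
    rw [h1, Finset.sum_const, nsmul_eq_mul, Finset.card_erase_of_mem (mem_univ _), Finset.card_univ, ZMod.card,
      Nat.cast_sub p.2.one_le]
    push_cast
    rfl
  -- the sum of the two values
  have hne : ∀ (ε : ℂ), ‖ε‖ ≤ 1 → ∀ i, 1 - (ε * α p i) / ((R : ℝ) : ℂ) ≠ 0 := by
    intro ε hε i h0
    have h1 : (ε * α p i) / ((R : ℝ) : ℂ) = 1 := (sub_eq_zero.1 h0).symm
    have h2 : ‖(ε * α p i) / ((R : ℝ) : ℂ)‖ ≤ 1 / √((p : ℕ) : ℝ) :=
      norm_div_sqrt (by rw [norm_mul]; exact mul_le_one₀ hε (norm_nonneg _) (hα p i)) p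
    rw [h1, norm_one] at h2
    have := h2.trans (sqrt_two_le p)
    norm_num at this
  have hH : G 1 + G (-1) = ∑ i, Real.log ‖1 - α p i ^ 2 / ((p : ℕ) : ℂ)‖ := by
    rw [hG]
    simp only
    rw [← Finset.sum_add_distrib]
    refine Finset.sum_congr rfl fun i _ => ?_
    have n1 := norm_ne_zero_iff.2 (hne 1 (by simp) i)
    have n2 := norm_ne_zero_iff.2 (hne (-1) (by simp) i)
    rw [← Real.log_mul n1 n2, ← norm_mul, ← hR2c]
    congr 2
    field_simp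
    ring
  have hHb : |∑ i, Real.log ‖1 - α p i ^ 2 / ((p : ℕ) : ℂ)‖ + 2 * gA α p| ≤ r / ((p : ℕ) : ℝ) ^ 2 := by
    have e1 : ∑ i, Real.log ‖1 - α p i ^ 2 / ((p : ℕ) : ℂ)‖ + 2 * gA α p =
        ∑ i, (Real.log ‖1 - α p i ^ 2 / ((p : ℕ) : ℂ)‖ + (α p i ^ 2 / ((p : ℕ) : ℂ)).re) := by
      rw [Finset.sum_add_distrib]
      congr 1
      unfold gA
      rw [Finset.mul_sum]
      refine Finset.sum_congr rfl fun i _ => ?_
      rw [Complex.div_natCast_re]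
      field_simp
    rw [e1]
    refine (Finset.abs_sum_le_sum_abs _ _).trans ?_
    calc _ ≤ ∑ _i : Fin r, 1 / ((p : ℕ) : ℝ) ^ 2 := by
          refine Finset.sum_le_sum fun i _ => ?_
          have h1 : ‖α p i ^ 2 / ((p : ℕ) : ℂ)‖ ≤ 1 / (p : ℕ) := by
            rw [norm_div, norm_pow, Complex.norm_natCast]
            gcongr
            exact pow_le_one₀ (norm_nonneg _) (hα p i)
          have h2 : (1 : ℝ) / (p : ℕ) ≤ 1 / 2 := one_div_le_one_div_of_le (by norm_num) hp2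
          refine (log_bd2 (h1.trans h2)).trans ?_
          calc ‖α p i ^ 2 / ((p : ℕ) : ℂ)‖ ^ 2 ≤ (1 / ((p : ℕ) : ℝ)) ^ 2 := pow_le_pow_left₀ (norm_nonneg _) h1 2
            _ = _ := by rw [div_pow, one_pow]
      _ = _ := by
          rw [Finset.sum_const, Finset.card_univ, Fintype.card_fin, nsmul_eq_mul]
          ring
  rw [← hH] at hHb
  set H : ℝ := G 1 + G (-1) with hHd
  have hgA : |gA α p| ≤ r / (2 * ((p : ℕ) : ℝ)) := by
    unfold gA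
    refine (Finset.abs_sum_le_sum_abs _ _).trans ?_
    calc _ ≤ ∑ _i : Fin r, 1 / (2 * ((p : ℕ) : ℝ)) := by
          refine Finset.sum_le_sum fun i _ => ?_
          rw [abs_div, abs_of_pos (by positivity : (0 : ℝ) < 2 * ((p : ℕ) : ℝ))]
          gcongr
          refine (Complex.abs_re_le_norm _).trans ?_
          rw [norm_pow]
          exact pow_le_one₀ (norm_nonneg _) (hα p i)
      _ = _ := by
          rw [Finset.sum_const, Finset.card_univ, Fintype.card_fin, nsmul_eq_mul]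
          ring
  have hE : Eu (p : ℕ) (gU α u p) = ((p : ℕ) : ℝ) / (2 * (((p : ℕ) : ℝ) + 1)) * H := by
    unfold Eu
    rw [hsum]
    have h1 : ((p : ℕ) : ℝ) ^ 2 - 1 ≠ 0 := by nlinarith
    have h2 : ((p : ℕ) : ℝ) - 1 ≠ 0 := by linarith
    have h3 : ((p : ℕ) : ℝ) + 1 ≠ 0 := by linarith
    have h4 : 1 - (((p : ℕ) : ℝ) ^ 2)⁻¹ = (((p : ℕ) : ℝ) - 1) * (((p : ℕ) : ℝ) + 1) / ((p : ℕ) : ℝ) ^ 2 := by
      field_simp
      ring
    rw [h4]
    field_simp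
  have e1 : Eu (p : ℕ) (gU α u p) + gA α p = ((p : ℕ) : ℝ) / (2 * (((p : ℕ) : ℝ) + 1)) * (H + 2 * gA α p) +
      gA α p / (((p : ℕ) : ℝ) + 1) := by
    rw [hE]
    have h3 : ((p : ℕ) : ℝ) + 1 ≠ 0 := by linarith
    field_simp
    ring
  rw [e1]
  have h1 : |((p : ℕ) : ℝ) / (2 * (((p : ℕ) : ℝ) + 1)) * (H + 2 * gA α p)| ≤ r / ((p : ℕ) : ℝ) ^ 2 := by
    rw [abs_mul, abs_of_pos (by positivity)]
    have h3 : ((p : ℕ) : ℝ) / (2 * (((p : ℕ) : ℝ) + 1)) ≤ 1 := by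
      rw [div_le_one (by positivity)]
      linarith
    calc _ ≤ 1 * (r / ((p : ℕ) : ℝ) ^ 2) := by gcongr
      _ = _ := one_mul _
  have h2 : |gA α p / (((p : ℕ) : ℝ) + 1)| ≤ r / ((p : ℕ) : ℝ) ^ 2 := by
    rw [abs_div, abs_of_pos (by positivity : (0 : ℝ) < ((p : ℕ) : ℝ) + 1)]
    calc _ ≤ (r / (2 * ((p : ℕ) : ℝ))) / ((p : ℕ) : ℝ) := by
          gcongr
          linarith
      _ ≤ _ := by
          rw [div_div]
          gcongr
          nlinarith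
  refine (abs_add_le _ _).trans ((add_le_add h1 h2).trans ?_)
  rw [← add_div]
  have h3 : R ≤ (p : ℕ) := by
    rw [← hR2]
    have : 1 ≤ R := by
      rw [hR]
      exact Real.one_le_sqrt.2 (by linarith)
    nlinarith
  have hr : (0 : ℝ) ≤ r := Nat.cast_nonneg _
  rw [div_le_div_iff₀ (by positivity) (by positivity)]
  nlinarith [mul_nonneg hr (mul_nonneg hp0.le (sub_nonneg.2 h3)), mul_nonneg hr (sq_nonneg ((p : ℕ) : ℝ))]

end Pool.Agent.X278.AV
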