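import Pool.Agent.X278.AV.Uni

/-!
# The law of the means over the quadratic twists in a class
-/

set_option autoImplicit false

namespace Pool.Agent.X278.AV

open Filter Topology Asymptotics Finset ComplexConjugate
open Pool.Agent.W189.ML Pool.Agent.X287.CR Pool.Agent.X278.OP
open Pool.Agent.W187.UR (Lam)

variable {r : ℕ}

open Classical in
/-- **the law of the means** -/
theorem uni_asc {α : Nat.Primes → Fin r → ℂ} (hα : ∀ p i, ‖α p i‖ ≤ 1) {N : ℕ} (h2 : 2 ∣ N)
    (hα0 : ∀ p : Nat.Primes, (p : ℕ) ∣ N → ∀ i, α p i = 0) {u : ℤ} (hu : u = 1 ∨ u = -1) {F₂ : ℂ → ℂ}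
    (hF : ∀ s : ℂ, 1 < s.re → HasProd (fun p : Nat.Primes => ∏ i, (1 - α p i ^ 2 * ((p : ℕ) : ℂ) ^ (-s))⁻¹) (F₂ s))
    (hm : MeromorphicAt F₂ 1) {γ : ℝ} (hγ : Real.pi / 2 < γ) :
    ∃ (n : ℤ) (C : ℂ), meromorphicOrderAt F₂ 1 = n ∧
      Asc (Lam γ) (AL (fun p : Nat.Primes => if (p : ℕ) ∣ N then 0 else Eu (p : ℕ) (gU α u p)) γ) ((n / 2 : ℝ) : ℂ) C := by
  obtain ⟨ν, C, h1, h3⟩ := ascA hα (Z := F₂) (fun s hs => by
    refine (hF s hs).congr_fun ?_
    intro p
    refine Finset.prod_congr rfl fun i _ => ?_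
    rw [mul_comm]) hm hγ
  refine ⟨-ν, ?_⟩
  have h4 := Asc'.const_mul (-1) h3
  have h5 : Asc (Lam γ) (fun T => ∑' p : Nat.Primes, (-((Ex (∑ j, eH j) (p : ℕ) (fA α p) : ℝ) : ℂ)) *
      Wt γ (Real.log (p : ℕ) / T)) (-1 * ((ν / 2 : ℝ) : ℂ)) (-1 * C) := by
    refine Asc'.congr h4 fun T hT => ?_
    unfold AA
    rw [← tsum_mul_left]
    exact tsum_congr fun p => by ring
  obtain ⟨B, hB, hb, L⟩ := (sysA hα).loc
  obtain ⟨C', h6⟩ := Asc_cmp (e' := fun p : Nat.Primes =>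
      (((if (p : ℕ) ∣ N then 0 else Eu (p : ℕ) (gU α u p) : ℝ)) : ℂ)) (C := 28 * r) h5
    (fun T hT => by
      have h7 := (L.e_summable (wt_sum (γ := γ) hT hB)).of_norm
      refine h7.neg.congr fun p => ?_
      ring) (fun p => by
      have hp0 : (0 : ℝ) < (p : ℕ) := by exact_mod_cast p.2.pos
      have hr0 : 0 < √((p : ℕ) : ℝ) := Real.sqrt_pos.2 hp0
      rw [← Complex.ofReal_neg, ← Complex.ofReal_sub, Complex.norm_real, Real.norm_eq_abs]
      have k1 := exA hα p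
      have k2 : |(if (p : ℕ) ∣ N then 0 else Eu (p : ℕ) (gU α u p)) + gA α p| ≤
          (4 * r) / (√((p : ℕ) : ℝ) * (p : ℕ)) := by
        by_cases hpN : (p : ℕ) ∣ N
        · rw [if_pos hpN, zero_add]
          have : gA α p = 0 := by
            unfold gA
            refine Finset.sum_eq_zero fun i _ => ?_
            rw [hα0 p hpN i]
            simp
          rw [this, abs_zero]
          positivity
        · rw [if_neg hpN]
          refine gU_mean hα hu ?_
          intro h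
          apply hpN
          rw [h]
          exact h2
      have e1 : (if (p : ℕ) ∣ N then 0 else Eu (p : ℕ) (gU α u p)) - -Ex (∑ j, eH j) (p : ℕ) (fA α p) =
          ((if (p : ℕ) ∣ N then 0 else Eu (p : ℕ) (gU α u p)) + gA α p) +
          (Ex (∑ j, eH j) (p : ℕ) (fA α p) - gA α p) := by ring
      rw [e1]
      refine (abs_add_le _ _).trans ((add_le_add k2 k1).trans ?_)
      rw [← add_div]
      apply div_le_div_of_nonneg_right _ (by positivity)
      linarith)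
  refine ⟨C', h1, ?_⟩
  have e1 : (((((-ν : ℤ) : ℝ) / 2 : ℝ)) : ℂ) = -1 * ((ν / 2 : ℝ) : ℂ) := by
    push_cast
    ring
  rw [e1]
  exact h6

end Pool.Agent.X278.AV
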